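import Pool.Agent.Lib.MP_779bc2_co.Defs

/-!
# Part II: abstract setting and its output

`R`, `B`: graphs (edges of the red / blue template inside the components which are bounded). `lr v`, `lb v : Option Bool`: label of `v` for red / blue: `none` if the
component of `v` is bounded (P), `some σ` if it is bipartite and unbounded, `σ` its side. `fR` (`fB`) is `true` iff the red (blue) cycle is odd; if it is `false` all labels `lr` (`lb`) are `none`.
-/

set_option autoImplicit false

namespace Pool.Agent.Lib.MP_779bc2_co

open Finset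

variable {W : Type} [Fintype W] [DecidableEq W]

/-- labels are compatible with the graphs -/
structure Lab (fR fB : Bool) (R B : SimpleGraph W) (lr lb : W → Option Bool) : Prop where
  rnone : fR = false → ∀ v, lr v = none
  bnone : fB = false → ∀ v, lb v = none
  radj : ∀ u w, R.Adj u w → lr u = none ∧ lr w = none
  badj : ∀ u w, B.Adj u w → lb u = none ∧ lb w = none

/-- the vertices of `U` with red label in `{none, some σ}` and blue label in `{none, some τ}` -/
def VV (lr lb : W → Option Bool) (U : Finset W) (σ τ : Bool) : Finset W :=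
  U.filter (fun v => (lr v = none ∨ lr v = some σ) ∧ (lb v = none ∨ lb v = some τ))

/-- the extremal density -/
noncomputable def ff (fR fB : Bool) (x y : ℝ) : ℝ :=
  if fR = false then (if fB = false then th x y else max (2 * x) (y + x / 2))
  else (if fB = false then max (2 * y) (x + y / 2) else 2 * max x y)

/-- a clique of colour `κ` (`false` red) is sided iff the other cycle is odd -/
def sided (fR fB : Bool) (κ : Bool) : Bool := if κ = false then fB else fR

open Classical in
/-- the output of Part II -/
structure Out (fR fB : Bool) (R B : SimpleGraph W) (lr lb : W → Option Bool) (x y E : ℝ) (a : ℕ) (U : Finset W)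
    {ι : Type} [Fintype ι] (cl σ : ι → Bool) (Q : ι → Finset W) : Prop where
  sub : ∀ i, Q i ⊆ U
  disj : ∀ i j, i ≠ j → Disjoint (Q i) (Q j)
  /-- red cliques -/
  labR : ∀ i, cl i = false → ∀ q ∈ Q i, lr q = none ∧ (fB = true → lb q = some (σ i))
  sizeR : ∀ i, cl i = false → x - E ≤ (Q i).card
  nearR : ∀ i, cl i = false → ∀ q ∈ Q i, ((nn R q (Q i)).card : ℝ) ≤ E
  fewR : ∀ i, cl i = false → ∀ q ∈ Q i, ((nb B q (Q i)).card : ℝ) ≤ E
  ratioR : ∀ i, cl i = false → y ≤ 3 / 2 * x + E
  /-- blue cliques -/
  labB : ∀ i, cl i = true → ∀ q ∈ Q i, lb q = none ∧ (fR = true → lr q = some (σ i))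
  sizeB : ∀ i, cl i = true → y - E ≤ (Q i).card
  nearB : ∀ i, cl i = true → ∀ q ∈ Q i, ((nn B q (Q i)).card : ℝ) ≤ E
  fewB : ∀ i, cl i = true → ∀ q ∈ Q i, ((nb R q (Q i)).card : ℝ) ≤ E
  ratioB : ∀ i, cl i = true → x ≤ 3 / 2 * y + E
  cross : ∀ i j, i ≠ j → CrossLe R B E (Q i) (Q j)
  /-- number of the plain cliques + number of the sided cliques of side `true` is `a` -/
  count : (univ.filter (fun i => sided fR fB (cl i) = false)).card
    + (univ.filter (fun i => sided fR fB (cl i) = true ∧ σ i = true)).card = a
  /-- as many sided cliques of side `true` as of side `false`, for each colour -/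
  bal : ∀ κ, sided fR fB κ = true →
    (univ.filter (fun i => cl i = κ ∧ σ i = true)).card = (univ.filter (fun i => cl i = κ ∧ σ i = false)).card

/-- statement of the structure theorem of Part II for the parities `fR`, `fB` -/
def CoreSt (fR fB : Bool) (a : ℕ) : Prop :=
  ∀ c > (0 : ℝ), ∀ e' > (0 : ℝ), ∃ e > (0 : ℝ), ∀ (W : Type) [Fintype W] [DecidableEq W] (R B : SimpleGraph W)
    (M : W → W → Prop) (x y N : ℝ) (lr lb : W → Option Bool) (U : Finset W),
    Env R B M x y N e c → Lab fR fB R B lr lb → (∀ σ τ, IndLe R B M (VV lr lb U σ τ) a) →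
    a * ff fR fB x y - e * N ≤ U.card →
      ∃ (ι : Type) (_ : Fintype ι) (cl σ : ι → Bool) (Q : ι → Finset W),
        Out fR fB R B lr lb x y (e' * N) a U cl σ Q

end Pool.Agent.Lib.MP_779bc2_co
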