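import Pool.Agent.Lib.MP_779bc2_co.EE1

/-! Row EE2 (about 200 lines): case 2 of the structure theorem, both cycles even -/

set_option autoImplicit false

namespace Pool.Agent.Lib.MP_779bc2_co

open Finset

/-- reachable and different: both endpoints are non-isolated -/
theorem ee2_res_mem {W : Type} {R : SimpleGraph W} {U : Finset W} {v w : W}
    (h : (res R U).Reachable v w) (hne : v ≠ w) : v ∈ U ∧ w ∈ U := by
  obtain ⟨p⟩ := h
  constructor
  · cases p with
    | nil => exact absurd rfl hne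
    | cons h q => exact h.1
  · cases hq : p.reverse with
    | nil => exact absurd rfl hne
    | cons h q => exact h.1

open Classical in
/-- the neighbours of an element of one component inside another component (only `B`-neighbours) -/
theorem ee2_cross {W : Type} [Fintype W] [DecidableEq W] (R B : SimpleGraph W) (U Q Q' : Finset W) (D : ℝ) (u w q : W)
    (hQ : ∀ z ∈ Q, (res R U).Reachable u z ∧ z ∈ U) (hQ' : ∀ z ∈ Q', (res R U).Reachable w z ∧ z ∈ U)
    (huw : ¬ (res R U).Reachable u w) (hq : q ∈ Q) (hD : ((nb B q univ).card : ℝ) ≤ D) :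
    ((Q'.filter (fun z => R.Adj q z ∨ B.Adj q z)).card : ℝ) ≤ D := by
  refine le_trans ?_ hD
  norm_cast
  apply card_le_card
  intro z hz
  rw [mem_filter] at hz
  rw [mem_nb]
  refine ⟨mem_univ _, ?_⟩
  rcases hz.2 with h | h
  · exfalso
    apply huw
    have h1 : (res R U).Adj q z := ⟨(hQ q hq).2, (hQ' z hz.1).2, h⟩
    exact ((hQ q hq).1.trans h1.reachable).trans (hQ' z hz.1).1.symm
  · exact h

/-- the constants -/
theorem ee2_const (k : ℕ) (K e₀ e₁ : ℝ) (hK1 : 1 ≤ K) (he₀ : 0 < e₀) (he₁ : 0 < e₁) : ∃ e > (0 : ℝ),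
    e ≤ e₀ ∧ e ≤ e₁ ∧ 4 * ((K + 1) * e) ≤ e₀ ∧ 4 * ((K + 1) * e) ≤ e₁ ∧ 8 * (((k : ℝ) + 3) * e) ≤ e₁ ∧
      2 * ((2 * k + 3) * (K + 1) * e) ≤ e₁ := by
  have hk0 : (0 : ℝ) ≤ k := Nat.cast_nonneg k
  set m : ℝ := min e₀ e₁ with hm
  have hm0 : 0 < m := lt_min he₀ he₁
  have hme₀ : m ≤ e₀ := min_le_left _ _
  have hme₁ : m ≤ e₁ := min_le_right _ _
  set P : ℝ := 16 * ((k : ℝ) + 3) * (K + 1) * (2 * k + 4) with hP
  have hP0 : 0 < P := by positivity
  set e : ℝ := m / P with hedef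
  have he0 : 0 < e := by positivity
  have heP : e * P = m := by rw [hedef]; field_simp
  have hmul : ∀ t : ℝ, t ≤ P → e * t ≤ m := fun t ht => by
    rw [← heP]; exact mul_le_mul_of_nonneg_left ht he0.le
  have hkk : (0 : ℝ) ≤ k * k := mul_nonneg hk0 hk0
  have hb : (24 : ℝ) + 4 * k ≤ 16 * ((k : ℝ) + 3) * (2 * k + 4) := by linarith [mul_nonneg hk0 hk0,
    (by ring : 16 * ((k : ℝ) + 3) * (2 * k + 4) = 32 * (k * k) + 160 * k + 192)]
  have hPe : P = (16 * ((k : ℝ) + 3) * (2 * k + 4)) * (K + 1) := by rw [hP]; ring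
  have c1 : e * (4 * (K + 1)) ≤ m := by
    apply hmul
    rw [hPe]
    exact mul_le_mul_of_nonneg_right (by linarith) (by linarith)
  have c2 : e * (8 * ((k : ℝ) + 3)) ≤ m := by
    apply hmul
    rw [hPe]
    calc 8 * ((k : ℝ) + 3) ≤ (16 * ((k : ℝ) + 3) * (2 * k + 4)) * 1 := by
          linarith [(by ring : 16 * ((k : ℝ) + 3) * (2 * k + 4) = 32 * (k * k) + 160 * k + 192)]
      _ ≤ _ := mul_le_mul_of_nonneg_left (by linarith) (by positivity)
  have c3 : e * (2 * ((2 * k + 3) * (K + 1))) ≤ m := by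
    apply hmul
    rw [hPe]
    calc 2 * ((2 * (k : ℝ) + 3) * (K + 1)) = (2 * (2 * (k : ℝ) + 3)) * (K + 1) := by ring
      _ ≤ _ := mul_le_mul_of_nonneg_right (by linarith) (by linarith)
  have c4 : e * 1 ≤ m := by
    apply hmul
    rw [hPe]
    calc (1 : ℝ) ≤ (16 * ((k : ℝ) + 3) * (2 * k + 4)) * 1 := by linarith
      _ ≤ _ := mul_le_mul_of_nonneg_left (by linarith) (by positivity)
  refine ⟨e, he0, by linarith, by linarith, ?_, ?_, ?_, ?_⟩
  · linarith [(by ring : 4 * ((K + 1) * e) = e * (4 * (K + 1)))]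
  · linarith [(by ring : 4 * ((K + 1) * e) = e * (4 * (K + 1)))]
  · linarith [(by ring : 8 * (((k : ℝ) + 3) * e) = e * (8 * ((k : ℝ) + 3)))]
  · linarith [(by ring : 2 * ((2 * (k : ℝ) + 3) * (K + 1) * e) = e * (2 * ((2 * k + 3) * (K + 1))))]

/-- numerical part of (1) -/
theorem ee2_num1 (k : ℕ) (x y K E u A D X : ℝ) (hyx : y ≤ x) (hy2 : 0 ≤ y) (hA0 : 0 ≤ A) (hD0 : 0 ≤ D) (hE : 0 ≤ E) (hK : 1 ≤ K)
    (hAD : A + D ≤ k + 1) (hlow : ((k : ℝ) + 1) * (x + y / 2) - E ≤ u) (hup : u ≤ A * x + D * y + K * E)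
    (hX : X = (K + 1) * E) (hAint : A + 1 ≤ k + 1 ∨ A = k + 1) :
    y ≤ 2 * X ∧ (A = k + 1 ∨ x ≤ (2 * k + 3) * X) := by
  have hk0 : (0 : ℝ) ≤ k := Nat.cast_nonneg k
  have h1 : A * x + D * y ≤ (k + 1) * x := by
    have := mul_le_mul_of_nonneg_left hyx hD0
    have h2 : (A + D) * x ≤ (k + 1) * x := mul_le_mul_of_nonneg_right hAD (by linarith)
    linarith [(by ring : (A + D) * x = A * x + D * x)]
  have e1 : ((k : ℝ) + 1) * (x + y / 2) = (k + 1) * x + (k * y / 2 + y / 2) := by ring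
  have e2 : X = K * E + E := by rw [hX]; ring
  have hky : 0 ≤ (k : ℝ) * y := mul_nonneg hk0 hy2
  have hy : y ≤ 2 * X := by linarith
  refine ⟨hy, ?_⟩
  rcases hAint with hA | hA
  · right
    have hD1 : D ≤ k + 1 := by linarith
    have h2 : D * y ≤ (k + 1) * (2 * X) := mul_le_mul hD1 hy hy2 (by linarith)
    have h3 : A * x ≤ k * x := mul_le_mul_of_nonneg_right (by linarith) (by linarith)
    have e3 : ((k : ℝ) + 1) * x = k * x + x := by ring
    have e4 : (2 * (k : ℝ) + 3) * X = (k + 1) * (2 * X) + X := by ring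
    linarith
  · left; exact hA

/-- parts (1), (2) -/
theorem ee2_comps (k : ℕ) (c e : ℝ) (W : Type) [Fintype W] [DecidableEq W]
    (R B : SimpleGraph W) (M : W → W → Prop) (x y N : ℝ) (henv : Env R B M x y N e c) (hyx : y ≤ x) (U : Finset W)
    (hind : IndLe R B M U (k + 1)) (hbig : ∀ v ∈ U, th x y + 1 < ((cnb R B v U).card : ℝ))
    (hU : ((k + 1 : ℕ) : ℝ) * th x y - e * N ≤ U.card)
    (hsm : (2 * (k : ℝ) + 3) * ((2 ^ (k + 1 + 1) + 1) * (e * N)) < c * N) :
    y ≤ 2 * ((2 ^ (k + 1 + 1) + 1) * (e * N)) ∧ ∃ A : Finset W, A.card = k + 1 ∧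
      (∀ u ∈ A, ∀ w ∈ A, u ≠ w → ¬ (res R U).Reachable u w) ∧
      ∀ v ∈ A, x - (2 ^ (k + 1 + 1) + 1) * (e * N) ≤ ((comp (res R U) v).card : ℝ) := by
  classical
  have hx2 := henv.x2
  have hy2 := henv.y2
  have heN : 1 ≤ e * N := henv.one
  have hxc : c * N ≤ x := by
    have := henv.big
    rwa [max_eq_left hyx] at this
  obtain ⟨hsmall, A, D, hADc, hA, hD, hunc, hUle⟩ := ee_comps R B M x y N e c henv U (k + 1) hind hbig
  have hADr : (A.card : ℝ) + D.card ≤ k + 1 := by exact_mod_cast hADc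
  push_cast at hU
  have hK1 : (1 : ℝ) ≤ 2 ^ (k + 1 + 1) := one_le_pow₀ (by norm_num)
  generalize (2 : ℝ) ^ (k + 1 + 1) = K at *
  have hk0 : (0 : ℝ) ≤ k := Nat.cast_nonneg k
  have hlow : ((k : ℝ) + 1) * (x + y / 2) - e * N ≤ U.card :=
    le_trans (sub_le_sub_right (mul_le_mul_of_nonneg_left (le_th_left x y) (by linarith)) _) hU
  have hint : (A.card : ℝ) + 1 ≤ k + 1 ∨ (A.card : ℝ) = k + 1 := by
    rcases Nat.lt_or_ge A.card (k + 1) with h | h
    · left; exact_mod_cast h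
    · right
      have : A.card = k + 1 := by omega
      exact_mod_cast this
  obtain ⟨hy, hor⟩ := ee2_num1 k x y K (e * N) U.card A.card D.card ((K + 1) * (e * N)) hyx (by linarith)
    (Nat.cast_nonneg _) (Nat.cast_nonneg _) (by linarith) hK1 hADr hlow hUle rfl hint
  have hAk' : (A.card : ℝ) = k + 1 := by
    rcases hor with h | h
    · exact h
    · exfalso
      linarith
  have hAk : A.card = k + 1 := by exact_mod_cast hAk'
  have hDe : D = ∅ := by
    apply card_eq_zero.mp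
    omega
  refine ⟨hy, A, hAk, hA, ?_⟩
  have hsum : (U.card : ℝ) ≤ (∑ v ∈ A, ((comp (res R U) v).card : ℝ)) + K * (e * N) := by
    have h1 : U ⊆ (A.biUnion fun v => comp (res R U) v) ∪
        U.filter (fun v => (∀ u ∈ A, ¬ (res R U).Reachable u v) ∧ (∀ u ∈ D, ¬ (res B U).Reachable u v)) := by
      intro z hz
      rw [mem_union]
      by_cases hz' : ∃ u ∈ A, (res R U).Reachable u z
      · left
        obtain ⟨u, hu, hr⟩ := hz'
        exact mem_biUnion.mpr ⟨u, hu, mem_comp.mpr hr⟩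
      · right
        push Not at hz'
        rw [mem_filter]
        refine ⟨hz, hz', ?_⟩
        rw [hDe]
        simp
    have h2 := card_le_card h1
    have h3 : ((A.biUnion fun v => comp (res R U) v).card : ℝ) ≤ ∑ v ∈ A, ((comp (res R U) v).card : ℝ) := by
      exact_mod_cast card_biUnion_le
    have h4 : (U.card : ℝ) ≤ ((A.biUnion fun v => comp (res R U) v).card : ℝ) +
        ((U.filter (fun v => (∀ u ∈ A, ¬ (res R U).Reachable u v) ∧ (∀ u ∈ D, ¬ (res B U).Reachable u v))).card : ℝ) := by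
      exact_mod_cast h2.trans (card_union_le _ _)
    linarith
  intro v hv
  have h1 : ∑ w ∈ A, ((comp (res R U) w).card : ℝ) = (comp (res R U) v).card + ∑ w ∈ A.erase v, ((comp (res R U) w).card : ℝ) :=
    (add_sum_erase A _ hv).symm
  have h2 : ∑ w ∈ A.erase v, ((comp (res R U) w).card : ℝ) ≤ k * x := by
    have h3 := sum_le_card_nsmul (A.erase v) (fun w => ((comp (res R U) w).card : ℝ)) x (fun w _ => (hsmall w).1)
    rw [card_erase_of_mem hv, hAk, Nat.add_sub_cancel, nsmul_eq_mul] at h3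
    exact h3
  rw [h1] at hsum
  have e1 : ((k : ℝ) + 1) * (x + y / 2) = k * x + x + (k * y / 2 + y / 2) := by ring
  have e2 : (K + 1) * (e * N) = K * (e * N) + e * N := by ring
  have hky : 0 ≤ (k : ℝ) * y := mul_nonneg hk0 (by linarith)
  rw [e1] at hlow
  rw [e2]
  linarith

/-- parts (4), (5) -/
theorem ee2_out (k : ℕ) (e e' δ η N x y : ℝ) (W : Type) [Fintype W] [DecidableEq W]
    (R B : SimpleGraph W) (M : W → W → Prop) (hM : MisLe M (e * N)) (U : Finset W)
    (hind : IndLe R B M U (k + 1)) (f : Fin (k + 1) → W) (hfr : ∀ i j, i ≠ j → ¬ (res R U).Reachable (f i) (f j))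
    (Q : Fin (k + 1) → Finset W) (hQmem : ∀ i, ∀ z ∈ Q i, (res R U).Reachable (f i) z ∧ z ∈ U)
    (hQcard : ∀ i, x - η * N ≤ ((Q i).card : ℝ)) (hfew : ∀ i, ∀ z ∈ Q i, ((nb B z univ).card : ℝ) ≤ δ * N)
    (hδN0 : 0 ≤ δ * N) (hN0 : 0 ≤ N) (he0 : 0 ≤ e) (hQbig : ((k : ℝ) + 2) * (δ * N + e * N) < x - η * N)
    (h1 : η ≤ e') (h2 : δ + e ≤ e') (hy : y / 2 ≤ e' * N) (hyx : y ≤ x) (hx : 0 ≤ x) :
    ∃ (cl : Fin (k + 1) → Bool) (Q Z : Fin (k + 1) → Finset W), EEOut R B x y (e' * N) (k + 1) U cl Q Z := by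
  classical
  have hcross : ∀ i j, i ≠ j → CrossLe R B (δ * N) (Q i) (Q j) := by
    intro i j hij q hq
    exact ee2_cross R B U (Q i) (Q j) (δ * N) (f i) (f j) q (hQmem i)
      (hQmem j) (hfr i j hij) hq (hfew i q hq)
  have hcompl : ∀ i, ∀ u ∈ Q i, ∀ w ∈ Q i, M u w ∨ R.Adj u w ∨ B.Adj u w := by
    intro i u hu w hw
    refine complete_of_cliques R B M (e * N) (δ * N) hM hδN0 U k hind (fun j => Q (i.succAbove j))
      (fun j z hz => (hQmem _ z hz).2) (fun j j' hjj' => hcross _ _ ?_) (fun j => hQbig.trans_le (hQcard _)) u w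
      (hQmem i u hu).2 (hQmem i w hw).2 (fun j => ?_) (fun j => ?_)
    · intro h
      exact hjj' (Fin.succAbove_right_injective h)
    · exact hcross i (i.succAbove j) (Fin.succAbove_ne i j).symm u hu
    · exact hcross i (i.succAbove j) (Fin.succAbove_ne i j).symm w hw
  have hsum : (δ + e) * N = δ * N + e * N := by ring
  have heN0 : 0 ≤ e * N := mul_nonneg he0 hN0
  have hδe : (δ + e) * N ≤ e' * N := mul_le_mul_of_nonneg_right h2 hN0
  have hδe' : δ * N ≤ e' * N := by linarith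
  refine ⟨fun _ => false, Q, fun _ => ∅, ?_⟩
  refine ⟨fun i z hz => (hQmem i z hz).2, fun i => empty_subset _, fun i j hij => ?_, fun i _ => ?_, fun i hi => ?_,
    fun i j hij => (hcross i j hij).mono hδe'⟩
  · rw [disjoint_left]
    intro z hz hz'
    exact hfr i j hij ((hQmem i z hz).1.trans (hQmem j z hz').1.symm)
  · refine ⟨?_, ?_, disjoint_empty_right _, fun q hq => ?_, fun q hq => ?_, fun z hz => ?_, ?_⟩
    · have h3 := hQcard i
      have h4 : η * N ≤ e' * N := mul_le_mul_of_nonneg_right h1 hN0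
      linarith
    · rw [card_empty]
      push_cast
      linarith
    · have h3 : nn R q (Q i) ⊆ univ.filter (fun w => M q w) ∪ nb B q univ := by
        intro z hz
        rw [mem_nn] at hz
        rw [mem_union, mem_filter, mem_nb]
        rcases hcompl i q hq z hz.1 with h | h | h
        · exact Or.inl ⟨mem_univ _, h⟩
        · exact absurd h hz.2
        · exact Or.inr ⟨mem_univ _, h⟩
      have h4 : ((nn R q (Q i)).card : ℝ) ≤ ((univ.filter (fun w => M q w)).card : ℝ) + (nb B q univ).card := by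
        exact_mod_cast (card_le_card h3).trans (card_union_le _ _)
      have h5 := hfew i q hq
      have h6 : ((univ.filter (fun w => M q w)).card : ℝ) ≤ e * N := by
        refine le_trans (le_of_eq ?_) (hM.card q)
        congr
      linarith
    · have h3 : nb B q (Q i) ⊆ nb B q univ := by
        intro z hz
        rw [mem_nb] at hz ⊢
        exact ⟨mem_univ _, hz.2⟩
      have h4 : ((nb B q (Q i)).card : ℝ) ≤ (nb B q univ).card := by exact_mod_cast card_le_card h3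
      have h5 := hfew i q hq
      linarith
    · exact absurd hz (notMem_empty z)
    · linarith
  · exact absurd hi (by simp)

/-- `a ≥ 1` (for `a = 0` take the empty family). Let `K = 2^(a+1) + 1`, `R' = res R U`, `A`, `D` from `ee_comps`.
(1) `a (x + y/2) - e N ≤ |U| ≤ |A| x + |D| y + (K - 1) e N ≤ a x + (K - 1) e N`, so `y ≤ 2 K e N`; `x ≥ c N` (`big`, `y ≤ x`). `(a - |A|) x ≤ |D| y + K e N ≤ (2 a K + K) e N < c N` for small `e`, so `|A| = a`, `D = ∅`.
(2) `a x - e N ≤ |U| ≤ ∑_{v ∈ A} |comp R' v| + (K - 1) e N` and every `|comp R' v| ≤ x`, so `|comp R' v| ≥ x - K e N` for every `v ∈ A`; it has more than one element, so it is contained in `U`.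
(3) `few_high` for `B` (`y ≤ 2 K e N`, apply it with the constants `δ`, `e''` and `N`): the set `H` of the vertices with at least `δ N` `B`-neighbours has at most `e'' N` elements. `Q_v = comp R' v \ H`, `v ∈ A` (numbered by `Fin a`), `Z_v = ∅`, all `cl = false`.
`|Q_v| ≥ x - (K e + e'') N ≥ (c/2) N`.
(4) Between different `Q_v` there is no edge of `R`, and every vertex of `Q_v` has less than `δ N` `B`-neighbours: `CrossLe R B (δ N)`.
(5) Two elements `u`, `w` of the same `Q_v` are `M`-related, `R`-adjacent or `B`-adjacent: `complete_of_cliques` for the `a - 1` other cliques. So `|nn R u Q_v| ≤ (δ + e) N`. -/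
theorem EE_case2_half (a : ℕ) (c e' : ℝ) (hc : 0 < c) (he' : 0 < e') : ∃ e > (0 : ℝ), ∀ (W : Type) [Fintype W] [DecidableEq W]
    (R B : SimpleGraph W) (M : W → W → Prop) (x y N : ℝ), Env R B M x y N e c → y ≤ x → ∀ U : Finset W, IndLe R B M U a →
      (∀ v ∈ U, th x y + 1 < ((cnb R B v U).card : ℝ)) → a * th x y - e * N ≤ U.card →
        ∃ (cl : Fin a → Bool) (Q Z : Fin a → Finset W), EEOut R B x y (e' * N) a U cl Q Z := by
  classical
  rcases Nat.eq_zero_or_pos a with rfl | hapos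
  · refine ⟨1, one_pos, ?_⟩
    intro W _ _ R B M x y N henv hyx U hind hbig hU
    refine ⟨fun i => i.elim0, fun i => i.elim0, fun i => i.elim0, ?_⟩
    exact ⟨fun i => i.elim0, fun i => i.elim0, fun i => i.elim0, fun i => i.elim0, fun i => i.elim0, fun i => i.elim0⟩
  obtain ⟨k, rfl⟩ : ∃ k, a = k + 1 := ⟨a - 1, by omega⟩
  obtain ⟨e₁, he₁0, he₁e, he₁c⟩ : ∃ e₁ : ℝ, 0 < e₁ ∧ e₁ ≤ e' ∧ e₁ ≤ c :=
    ⟨min e' c, lt_min he' hc, min_le_left _ _, min_le_right _ _⟩
  have hk0 : (0 : ℝ) ≤ k := Nat.cast_nonneg k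
  obtain ⟨δ, hδ0, hδk⟩ : ∃ δ : ℝ, 0 < δ ∧ ((k : ℝ) + 3) * δ = e₁ / 8 := by
    refine ⟨e₁ / (8 * ((k : ℝ) + 3)), by positivity, ?_⟩
    field_simp
  obtain ⟨e₀, he₀, Hfew⟩ := few_high δ (e₁ / 4) hδ0 (by positivity)
  have hK1 : (1 : ℝ) ≤ 2 ^ (k + 1 + 1) := one_le_pow₀ (by norm_num)
  obtain ⟨e, he0, g1, g2, g3, g4, g5, g6⟩ := ee2_const k (2 ^ (k + 1 + 1)) e₀ e₁ hK1 he₀ he₁0
  refine ⟨e, he0, ?_⟩
  intro W _ _ R B M x y N henv hyx U hind hbig hU
  have hN0 : 0 ≤ N := henv.N_nonneg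
  have heN : 1 ≤ e * N := henv.one
  have hNpos : 0 < N := by
    rcases hN0.eq_or_lt with h | h
    · rw [← h, mul_zero] at heN; linarith
    · exact h
  have hx2 := henv.x2
  have hcN : 0 < c * N := mul_pos hc hNpos
  have he₁N : e₁ * N ≤ c * N := mul_le_mul_of_nonneg_right he₁c hN0
  have hxc : c * N ≤ x := by
    have := henv.big
    rwa [max_eq_left hyx] at this
  have hsm : (2 * (k : ℝ) + 3) * ((2 ^ (k + 1 + 1) + 1) * (e * N)) < c * N := by
    have h1 : 2 * ((2 * (k : ℝ) + 3) * (2 ^ (k + 1 + 1) + 1) * e) * N ≤ e₁ * N :=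
      mul_le_mul_of_nonneg_right g6 hN0
    have h2 : 2 * ((2 * (k : ℝ) + 3) * (2 ^ (k + 1 + 1) + 1) * e) * N =
        2 * ((2 * (k : ℝ) + 3) * ((2 ^ (k + 1 + 1) + 1) * (e * N))) := by ring
    linarith
  obtain ⟨hy, A, hAk, hA, hcompbig⟩ := ee2_comps k c e W R B M x y N henv hyx U hind hbig hU hsm
  generalize (2 : ℝ) ^ (k + 1 + 1) = K at *
  have g4' : 4 * ((K + 1) * (e * N)) ≤ e₁ * N := by
    have h1 := mul_le_mul_of_nonneg_right g4 hN0
    linarith [(by ring : 4 * ((K + 1) * e) * N = 4 * ((K + 1) * (e * N)))]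
  have g3' : 4 * ((K + 1) * (e * N)) ≤ e₀ * N := by
    have h1 := mul_le_mul_of_nonneg_right g3 hN0
    linarith [(by ring : 4 * ((K + 1) * e) * N = 4 * ((K + 1) * (e * N)))]
  have hone : (1 : ℝ) ≤ (K + 1) * (e * N) := by
    calc (1 : ℝ) = 1 * 1 := (one_mul 1).symm
      _ ≤ (K + 1) * (e * N) := mul_le_mul (by linarith) heN (by norm_num) (by linarith)
  have hcomp1 : ∀ v ∈ A, 1 < (comp (res R U) v).card := by
    intro v hv
    have h1 := hcompbig v hv
    have h4 : (1 : ℝ) < (comp (res R U) v).card := by linarith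
    exact_mod_cast h4
  have hcompU : ∀ v ∈ A, ∀ z ∈ comp (res R U) v, z ∈ U := by
    intro v hv z hz
    rw [mem_comp] at hz
    by_cases hvz : v = z
    · obtain ⟨w, hw, hwv⟩ := exists_mem_ne (hcomp1 v hv) v
      rw [mem_comp] at hw
      rw [← hvz]
      exact (ee2_res_mem hw (Ne.symm hwv)).1
    · exact (ee2_res_mem hz hvz).2
  -- (3)
  obtain ⟨H, hHc, hnH⟩ : ∃ H : Finset W, (H.card : ℝ) ≤ e₁ / 4 * N ∧
      ∀ v, v ∉ H → ((nb B v univ).card : ℝ) ≤ δ * N := by
    refine ⟨univ.filter (fun v => δ * N ≤ ((nb B v univ).card : ℝ)), ?_, fun v hv => ?_⟩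
    · refine Hfew W B y N henv.cardW ?_ henv.zB ?_
      · exact heN.trans (mul_le_mul_of_nonneg_right g1 hN0)
      · linarith
    · rw [mem_filter] at hv
      push Not at hv
      exact (hv (mem_univ v)).le
  have hfA : ∀ i : Fin (k + 1), ((A.equivFinOfCardEq hAk).symm i : W) ∈ A :=
    fun i => ((A.equivFinOfCardEq hAk).symm i).2
  have hfinj : ∀ i j : Fin (k + 1), i ≠ j →
      ((A.equivFinOfCardEq hAk).symm i : W) ≠ ((A.equivFinOfCardEq hAk).symm j : W) := by
    intro i j hij h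
    apply hij
    exact (A.equivFinOfCardEq hAk).symm.injective (Subtype.ext h)
  generalize hf : (fun i : Fin (k + 1) => ((A.equivFinOfCardEq hAk).symm i : W)) = f
  have hfA' : ∀ i, f i ∈ A := by rw [← hf]; exact hfA
  have hfinj' : ∀ i j, i ≠ j → f i ≠ f j := by rw [← hf]; exact hfinj
  have e5 : (2 * e₁ / 4) * N = e₁ * N / 4 + e₁ / 4 * N := by ring
  refine ee2_out k e e' δ (2 * e₁ / 4) N x y W R B M henv.mis U hind f
    (fun i j hij => hA _ (hfA' i) _ (hfA' j) (hfinj' i j hij)) (fun i => comp (res R U) (f i) \ H)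
    (fun i z hz => ?_) (fun i => ?_) (fun i z hz => hnH z (mem_sdiff.mp hz).2) (by positivity) hN0 he0.le ?_
    (by linarith) ?_ ?_ hyx (by linarith)
  · rw [mem_sdiff] at hz
    exact ⟨mem_comp.mp hz.1, hcompU _ (hfA' i) z hz.1⟩
  · have h1 := hcompbig (f i) (hfA' i)
    have h2 : (comp (res R U) (f i)).card ≤ (comp (res R U) (f i) \ H).card + H.card := by
      have := card_le_card_sdiff_add_card (s := comp (res R U) (f i)) (t := H)
      exact this
    have h3 : ((comp (res R U) (f i)).card : ℝ) ≤ (comp (res R U) (f i) \ H).card + H.card := by exact_mod_cast h2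
    linarith
  · have h3 : ((k : ℝ) + 3) * (δ * N + e * N) = (((k : ℝ) + 3) * δ + ((k : ℝ) + 3) * e) * N := by ring
    have h4 : (((k : ℝ) + 3) * δ + ((k : ℝ) + 3) * e) * N ≤ (e₁ / 4) * N :=
      mul_le_mul_of_nonneg_right (by linarith) hN0
    have h5 : ((k : ℝ) + 2) * (δ * N + e * N) ≤ ((k : ℝ) + 3) * (δ * N + e * N) :=
      mul_le_mul_of_nonneg_right (by linarith) (by positivity)
    linarith
  · have h3 : (1 : ℝ) * δ ≤ ((k : ℝ) + 3) * δ := mul_le_mul_of_nonneg_right (by linarith) hδ0.le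
    have h4 : (1 : ℝ) * e ≤ ((k : ℝ) + 3) * e := mul_le_mul_of_nonneg_right (by linarith) he0.le
    linarith
  · have h3 : e₁ * N ≤ e' * N := mul_le_mul_of_nonneg_right he₁e hN0
    linarith

/-- `EE_case2_half`, or the same with the colours exchanged (`Env.swap`, `IndLe.swap`, `th_comm`, `EEOut.swap`; `cnb B R v U = cnb R B v U`). -/
theorem EE_case2 (a : ℕ) (c e' : ℝ) (hc : 0 < c) (he' : 0 < e') : ∃ e > (0 : ℝ), ∀ (W : Type) [Fintype W] [DecidableEq W]
    (R B : SimpleGraph W) (M : W → W → Prop) (x y N : ℝ), Env R B M x y N e c → ∀ U : Finset W, IndLe R B M U a →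
      (∀ v ∈ U, th x y + 1 < ((cnb R B v U).card : ℝ)) → a * th x y - e * N ≤ U.card →
        ∃ (cl : Fin a → Bool) (Q Z : Fin a → Finset W), EEOut R B x y (e' * N) a U cl Q Z := by
  obtain ⟨e, he, H⟩ := EE_case2_half a c e' hc he'
  refine ⟨e, he, ?_⟩
  intro W _ _ R B M x y N henv U hind hbig hU
  rcases le_total y x with h | h
  · exact H W R B M x y N henv h U hind hbig hU
  · obtain ⟨cl, Q, Z, hout⟩ := H W B R M y x N henv.swap h U hind.swap (fun v hv => by
      have h1 := hbig v hv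
      rw [th_comm y x]
      have h2 : cnb B R v U = cnb R B v U := by
        ext w
        rw [mem_cnb, mem_cnb]
        tauto
      rw [h2]
      exact h1) (by rw [th_comm y x]; exact hU)
    exact ⟨_, Q, Z, hout.swap⟩

end Pool.Agent.Lib.MP_779bc2_co
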