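import Pool.Agent.Lib.MP_779bc2_co.EO1Upper
import Pool.Agent.Lib.MP_779bc2_co.EE2

/-! EO2 (helper48): case 2 (all closed neighbourhoods large), red cycle even, blue cycle odd -/

set_option autoImplicit false

namespace Pool.Agent.Lib.MP_779bc2_co

open Finset

section aux

variable {W : Type} [Fintype W] [DecidableEq W]

theorem eo2_zero (R B : SimpleGraph W) (lb : W → Option Bool) (x y E : ℝ) (U : Finset W) :
    ∃ (Q Z : Fin 0 → Finset W) (S : Bool → Fin 0 → Finset W), EOOut R B lb x y E 0 0 U Q Z S :=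
  ⟨fun i => i.elim0, fun i => i.elim0, fun _ i => i.elim0,
    fun i => i.elim0, fun i => i.elim0, fun i => i.elim0, fun i => i.elim0, fun i => i.elim0, fun _ i => i.elim0,
    fun _ i => i.elim0, fun _ i => i.elim0, fun h => absurd h (lt_irrefl _), fun p => p.2.elim0, fun p => p.2.elim0,
    fun i => i.elim0, fun i => i.elim0⟩

/-- the red structure -/
theorem eo2_red (k : ℕ) (R B : SimpleGraph W) (M : W → W → Prop) (x y μ E : ℝ) (lb : W → Option Bool) (U : Finset W)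
    (hM : MisLe M μ) (hlab : LabB B lb) (hind : ∀ τ, IndLe R B M (eV lb U τ) (k + 1))
    (g : Bool → Fin (k + 1) → W) (hsep : ∀ τ i j, i ≠ j → ¬ (res R U).Reachable (g τ i) (g τ j))
    (hcard : ∀ τ i, x - E ≤ ((eX lb U τ ∩ comp (res R U) (g τ i)).card : ℝ))
    (hsmall : ∀ v, ((comp (res R U) v).card : ℝ) < 2 * (x - E))
    (hbig : ((k : ℝ) + 2) * μ < x - E) (hμE : μ ≤ E) (hratio : y ≤ 3 / 2 * x + E) :
    ∃ (Q Z : Fin 0 → Finset W) (S : Bool → Fin (k + 1) → Finset W), EOOut R B lb x y E 0 (k + 1) U Q Z S := by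
  classical
  set S : Bool → Fin (k + 1) → Finset W := fun τ i => eX lb U τ ∩ comp (res R U) (g τ i) with hS
  have hμ0 : 0 ≤ μ := by
    obtain ⟨v⟩ : Nonempty W := ⟨g true 0⟩
    exact (Nat.cast_nonneg _).trans (hM.card v)
  have hmem : ∀ τ i v, v ∈ S τ i → v ∈ U ∧ lb v = some τ ∧ (res R U).Reachable (g τ i) v := by
    intro τ i v hv
    have h1 := (mem_inter.mp hv)
    exact ⟨(mem_eX.mp h1.1).1, (mem_eX.mp h1.1).2, mem_comp.mp h1.2⟩
  have hcard' : ∀ τ i, x - E ≤ ((S τ i).card : ℝ) := hcard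
  have hdisl : ∀ τ τ' i j, τ ≠ τ' → Disjoint (S τ i) (S τ' j) := by
    intro τ τ' i j hτ
    rw [disjoint_left]
    intro v hv hv'
    have h1 := (hmem _ _ v hv).2.1
    have h2 := (hmem _ _ v hv').2.1
    rw [h1] at h2
    exact hτ (Option.some.inj h2)
  have hsep' : ∀ p p' : Bool × Fin (k + 1), p ≠ p' → ¬ (res R U).Reachable (g p.1 p.2) (g p'.1 p'.2) := by
    rintro ⟨τ, i⟩ ⟨τ', j⟩ hp hr
    by_cases hτ : τ = τ'
    · subst hτ
      exact hsep τ i j (fun h => hp (by rw [h])) hr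
    · have hsub : S τ i ∪ S τ' j ⊆ comp (res R U) (g τ i) := by
        intro v hv
        rw [mem_comp]
        rcases mem_union.mp hv with hv | hv
        · exact (hmem _ _ v hv).2.2
        · exact hr.trans (hmem _ _ v hv).2.2
      have h1 := card_le_card hsub
      rw [card_union_of_disjoint (hdisl τ τ' i j hτ)] at h1
      have h2 : ((S τ i).card : ℝ) + (S τ' j).card ≤ (comp (res R U) (g τ i)).card := by exact_mod_cast h1
      have h3 := hcard' τ i
      have h4 := hcard' τ' j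
      have h5 := hsmall (g τ i)
      linarith
  have hno : ∀ p p' : Bool × Fin (k + 1), p ≠ p' → ∀ q ∈ S p.1 p.2, ∀ w ∈ S p'.1 p'.2, ¬ (R.Adj q w ∨ B.Adj q w) := by
    intro p p' hp q hq w hw hadj
    obtain ⟨hqU, hql, hqr⟩ := hmem _ _ q hq
    obtain ⟨hwU, hwl, hwr⟩ := hmem _ _ w hw
    rcases hadj with h | h
    · have h1 : (res R U).Adj q w := ⟨hqU, hwU, h⟩
      exact hsep' p p' hp ((hqr.trans h1.reachable).trans hwr.symm)
    · have h1 := (hlab q w h).1
      rw [hql] at h1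
      exact absurd h1 (by simp)
  have hcross : ∀ (E' : ℝ), 0 ≤ E' → ∀ p p' : Bool × Fin (k + 1), p ≠ p' → CrossLe R B E' (S p.1 p.2) (S p'.1 p'.2) := by
    intro E' hE' p p' hp q hq
    refine le_trans (le_of_eq ?_) hE'
    rw [Nat.cast_eq_zero, card_eq_zero, filter_eq_empty_iff]
    intro w hw
    exact hno p p' hp q hq w hw
  have hne : ∀ (τ : Bool) (i j : Fin (k + 1)), i ≠ j → (τ, i) ≠ (τ, j) := fun τ i j hij h => hij (Prod.mk.inj h).2
  refine ⟨fun i => i.elim0, fun i => i.elim0, S,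
    fun i => i.elim0, fun i => i.elim0, fun i => i.elim0, fun i => i.elim0, fun i => i.elim0, fun _ _ => inter_subset_left,
    hcard', fun τ j q hq => ?_, fun _ => hratio, fun p p' hp => ?_, hcross E (hμ0.trans hμE),
    fun i => i.elim0, fun i => i.elim0⟩
  · have hcompl : ∀ w ∈ S τ j, M q w ∨ R.Adj q w ∨ B.Adj q w := by
      intro w hw
      refine complete_of_cliques R B M μ 0 hM le_rfl (eV lb U τ) k (hind τ) (fun i => S τ (j.succAbove i))
        (fun i z hz => ?_) (fun i i' hii' => ?_) (fun i => ?_) q w ?_ ?_ (fun i => ?_) (fun i => ?_)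
      · exact mem_eV.mpr ⟨(hmem _ _ z hz).1, Or.inr (hmem _ _ z hz).2.1⟩
      · exact hcross 0 le_rfl (τ, _) (τ, _) (hne τ _ _ (fun h => hii' (Fin.succAbove_right_injective h)))
      · rw [zero_add]
        exact hbig.trans_le (hcard' _ _)
      · exact mem_eV.mpr ⟨(hmem _ _ q hq).1, Or.inr (hmem _ _ q hq).2.1⟩
      · exact mem_eV.mpr ⟨(hmem _ _ w hw).1, Or.inr (hmem _ _ w hw).2.1⟩
      · exact hcross 0 le_rfl (τ, j) (τ, j.succAbove i) (hne τ _ _ (Fin.succAbove_ne j i).symm) q hq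
      · exact hcross 0 le_rfl (τ, j) (τ, j.succAbove i) (hne τ _ _ (Fin.succAbove_ne j i).symm) w hw
    have h3 : nn R q (S τ j) ⊆ univ.filter (fun w => M q w) := by
      intro z hz
      rw [mem_nn] at hz
      rw [mem_filter]
      rcases hcompl z hz.1 with h | h | h
      · exact ⟨mem_univ _, h⟩
      · exact absurd h hz.2
      · have h1 := (hlab q z h).1
        rw [(hmem _ _ q hq).2.1] at h1
        exact absurd h1 (by simp)
    have h4 : ((nn R q (S τ j)).card : ℝ) ≤ ((univ.filter (fun w => M q w)).card : ℝ) := by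
      exact_mod_cast card_le_card h3
    have h6 : ((univ.filter (fun w => M q w)).card : ℝ) ≤ μ := by
      refine le_trans (le_of_eq ?_) (hM.card q)
      congr
    linarith
  · rw [disjoint_left]
    intro v hv hv'
    exact hsep' p p' hp ((hmem _ _ v hv).2.2.trans (hmem _ _ v hv').2.2.symm)

open Classical in
/-- the blue structure -/
theorem eo2_blue (k : ℕ) (e e' δ η N x y : ℝ)
    (R B : SimpleGraph W) (M : W → W → Prop) (hM : MisLe M (e * N)) (lb : W → Option Bool) (U : Finset W)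
    (hind : IndLe R B M (eP lb U) (k + 1)) (f : Fin (k + 1) → W) (hfr : ∀ i j, i ≠ j → ¬ (res B U).Reachable (f i) (f j))
    (Q : Fin (k + 1) → Finset W) (hQmem : ∀ i, ∀ z ∈ Q i, (res B U).Reachable (f i) z ∧ z ∈ eP lb U)
    (hQcard : ∀ i, y - η * N ≤ ((Q i).card : ℝ)) (hfew : ∀ i, ∀ z ∈ Q i, ((nb R z univ).card : ℝ) ≤ δ * N)
    (hδN0 : 0 ≤ δ * N) (hN0 : 0 ≤ N) (he0 : 0 ≤ e) (hQbig : ((k : ℝ) + 2) * (δ * N + e * N) < y - η * N)
    (h1 : η ≤ e') (h2 : δ + e ≤ e') (hx : x / 2 ≤ e' * N) (hxy : x ≤ y) (hy : 0 ≤ y) :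
    ∃ (Q Z : Fin (k + 1) → Finset W) (S : Bool → Fin 0 → Finset W), EOOut R B lb x y (e' * N) (k + 1) 0 U Q Z S := by
  have hPU : ∀ z, z ∈ eP lb U → z ∈ U := fun z hz => (mem_eP.mp hz).1
  have hcross : ∀ i j, i ≠ j → CrossLe R B (δ * N) (Q i) (Q j) := by
    intro i j hij
    apply CrossLe.swap
    intro q hq
    exact ee2_cross B R U (Q i) (Q j) (δ * N) (f i) (f j) q (fun z hz => ⟨(hQmem i z hz).1, hPU z (hQmem i z hz).2⟩)
      (fun z hz => ⟨(hQmem j z hz).1, hPU z (hQmem j z hz).2⟩) (hfr i j hij) hq (hfew i q hq)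
  have hcompl : ∀ i, ∀ u ∈ Q i, ∀ w ∈ Q i, M u w ∨ R.Adj u w ∨ B.Adj u w := by
    intro i u hu w hw
    refine complete_of_cliques R B M (e * N) (δ * N) hM hδN0 (eP lb U) k hind (fun j => Q (i.succAbove j))
      (fun j z hz => (hQmem _ z hz).2) (fun j j' hjj' => hcross _ _ ?_) (fun j => hQbig.trans_le (hQcard _)) u w
      (hQmem i u hu).2 (hQmem i w hw).2 (fun j => ?_) (fun j => ?_)
    · intro h
      exact hjj' (Fin.succAbove_right_injective h)
    · exact hcross i (i.succAbove j) (Fin.succAbove_ne i j).symm u hu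
    · exact hcross i (i.succAbove j) (Fin.succAbove_ne i j).symm w hw
  have hsum : (δ + e) * N = δ * N + e * N := by ring
  have heN0 : 0 ≤ e * N := mul_nonneg he0 hN0
  have hδe : (δ + e) * N ≤ e' * N := mul_le_mul_of_nonneg_right h2 hN0
  have hδe' : δ * N ≤ e' * N := by linarith
  refine ⟨Q, fun _ => ∅, fun _ i => i.elim0, fun i z hz => (hQmem i z hz).2, fun i => empty_subset _, fun i => ?_, fun i j hij => ?_,
    fun i j hij => (hcross i j hij).mono hδe', fun _ i => i.elim0,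
    fun _ i => i.elim0, fun _ i => i.elim0, fun h => absurd h (lt_irrefl _), fun p => p.2.elim0, fun p => p.2.elim0,
    fun _ _ i => i.elim0, fun _ _ i => i.elim0⟩
  · refine ⟨?_, ?_, disjoint_empty_right _, fun q hq => ?_, fun q hq => ?_, fun z hz => ?_, ?_⟩
    · have h3 := hQcard i
      have h4 : η * N ≤ e' * N := mul_le_mul_of_nonneg_right h1 hN0
      linarith
    · rw [card_empty]
      push_cast
      linarith
    · have h3 : nn B q (Q i) ⊆ univ.filter (fun w => M q w) ∪ nb R q univ := by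
        intro z hz
        rw [mem_nn] at hz
        rw [mem_union, mem_filter, mem_nb]
        rcases hcompl i q hq z hz.1 with h | h | h
        · exact Or.inl ⟨mem_univ _, h⟩
        · exact Or.inr ⟨mem_univ _, h⟩
        · exact absurd h hz.2
      have h4 : ((nn B q (Q i)).card : ℝ) ≤ ((univ.filter (fun w => M q w)).card : ℝ) + (nb R q univ).card := by
        exact_mod_cast (card_le_card h3).trans (card_union_le _ _)
      have h5 := hfew i q hq
      have h6 : ((univ.filter (fun w => M q w)).card : ℝ) ≤ e * N := by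
        refine le_trans (le_of_eq ?_) (hM.card q)
        congr
      linarith
    · have h3 : nb R q (Q i) ⊆ nb R q univ := by
        intro z hz
        rw [mem_nb] at hz ⊢
        exact ⟨mem_univ _, hz.2⟩
      have h4 : ((nb R q (Q i)).card : ℝ) ≤ (nb R q univ).card := by exact_mod_cast card_le_card h3
      have h5 := hfew i q hq
      linarith
    · exact absurd hz (notMem_empty z)
    · linarith
  · rw [disjoint_left]
    intro z hz hz'
    exact hfr i j hij ((hQmem i z hz).1.trans (hQmem j z hz').1.symm)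

/-- the constant -/
noncomputable def kce (a : ℕ) : ℝ := 16 * a * a + a + 2 * 2 ^ (a + 1)

theorem kce_pos (a : ℕ) : 0 < kce a := by unfold kce; positivity

theorem eo2_num (a K μ x y f u P X1 X2 p1 q1 p2 q2 : ℝ) (hf1 : 2 * x ≤ f) (hf2 : y + x / 2 ≤ f) (hx : 0 ≤ x) (hy : 0 ≤ y)
    (hP : P + X1 + X2 = u) (hu : a * f - μ ≤ u) (h1 : P + 2 * X1 ≤ p1 * (2 * x) + q1 * y + K * μ)
    (h2 : P + 2 * X2 ≤ p2 * (2 * x) + q2 * y + K * μ) (hpq2 : p2 + q2 ≤ a)
    (hp1 : 0 ≤ p1) (hq1 : 0 ≤ q1) (hp2 : 0 ≤ p2) (hq2 : 0 ≤ q2) :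
    a * f - (K + 2) * μ ≤ P + 2 * X1 ∧ (a - p1 - q1) * f + q1 * (x / 2) ≤ (2 * K + 2) * μ := by
  have e1 : p1 * (2 * x) ≤ p1 * f := mul_le_mul_of_nonneg_left hf1 hp1
  have e2 : p2 * (2 * x) ≤ p2 * f := mul_le_mul_of_nonneg_left hf1 hp2
  have e3 : q1 * (y + x / 2) ≤ q1 * f := mul_le_mul_of_nonneg_left hf2 hq1
  have e4 : q2 * y ≤ q2 * f := mul_le_mul_of_nonneg_left (by linarith) hq2
  have e5 : (p2 + q2) * f ≤ a * f := mul_le_mul_of_nonneg_right hpq2 (by linarith)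
  have e6 : (p2 + q2) * f = p2 * f + q2 * f := by ring
  have e7 : q1 * (y + x / 2) = q1 * y + q1 * (x / 2) := by ring
  have e8 : (a - p1 - q1) * f = a * f - p1 * f - q1 * f := by ring
  have e9 : (K + 2) * μ = K * μ + 2 * μ := by ring
  have e10 : (2 * K + 2) * μ = 2 * (K * μ) + 2 * μ := by ring
  constructor
  · linarith
  · linarith

/-- the covers of the worlds -/
theorem eo2_struct (R B : SimpleGraph W) (M : W → W → Prop) (x y N e c : ℝ) (lb : W → Option Bool) (U : Finset W) (a : ℕ)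
    (henv : Env R B M x y N e c) (hlab : LabB B lb) (hind : ∀ τ, IndLe R B M (eV lb U τ) a)
    (hbig : ∀ v ∈ U, lb v = none → th x y + 1 < ((cnb R B v U).card : ℝ))
    (hU : a * fe x y - e * N ≤ U.card) (hsm : (2 * kce a + 2) * (e * N) < c * N) :
    SmallComps (res R U) (x + 8 * a * (e * N)) ∧ SmallComps (res B U) (y + 8 * a * (e * N)) ∧
    ∀ τ, ∃ P Q : Finset W, P.card + Q.card = a ∧
      Cov (res R U) (res B U) (VV (fun _ => none) lb U true τ) P Q (2 ^ (a + 1) * (e * N)) ∧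
      a * fe x y - (kce a + 2) * (e * N) ≤ ((eP lb U).card : ℝ) + 2 * (eX lb U τ).card ∧
      ((eP lb U).card : ℝ) + 2 * (eX lb U τ).card ≤ P.card * (2 * x) + Q.card * y + kce a * (e * N) ∧
      (Q.card : ℝ) * (x / 2) ≤ (2 * kce a + 2) * (e * N) := by
  obtain ⟨hR, hB⟩ := eo1_small R B M x y N e c lb U a henv hlab hind hbig
  have ho := eo1_env R B M x y N e c lb U a henv hlab hind
  have hx := henv.x2
  have hy := henv.y2
  have hμ := henv.one
  have hf1 := le_fe_left x y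
  have hf2 := le_fe_right x y
  have hcov := fun τ => oo_cov _ _ M x y N e (fun _ => none) lb U a ho true τ
  choose P Q hPQ hc using hcov
  have hw : ∀ τ, ((eP lb U).card : ℝ) + 2 * (eX lb U τ).card ≤ (P τ).card * (2 * x) + (Q τ).card * y + kce a * (e * N) :=
    fun τ => eo1_world _ _ M x y N e lb U a ho hR hB τ (P τ) (Q τ) (hPQ τ) (hc τ)
  have hUc : (U.card : ℝ) = (eP lb U).card + (eX lb U true).card + (eX lb U false).card := by exact_mod_cast eo1_U lb U
  have hUc' : ∀ τ, ((eP lb U).card : ℝ) + (eX lb U τ).card + (eX lb U (!τ)).card = U.card := by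
    intro τ
    cases τ
    · rw [hUc]; simp; ring
    · rw [hUc]; simp
  have hPQr : ∀ τ, ((P τ).card : ℝ) + (Q τ).card ≤ a := fun τ => by exact_mod_cast hPQ τ
  refine ⟨hR, hB, fun τ => ?_⟩
  obtain ⟨h1, h2⟩ := eo2_num a (kce a) (e * N) x y (fe x y) U.card (eP lb U).card (eX lb U τ).card (eX lb U (!τ)).card
    (P τ).card (Q τ).card (P (!τ)).card (Q (!τ)).card hf1 hf2 (by linarith) (by linarith) (hUc' τ) hU (hw τ) (hw (!τ)) (hPQr (!τ))
    (Nat.cast_nonneg _) (Nat.cast_nonneg _) (Nat.cast_nonneg _) (Nat.cast_nonneg _)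
  have hfc : c * N ≤ fe x y := by
    refine henv.big.trans (max_le ?_ ?_) <;> linarith
  have hq0 : 0 ≤ ((Q τ).card : ℝ) * (x / 2) := by positivity
  have hpa : (P τ).card + (Q τ).card = a := by
    by_contra hne
    have h3 : (P τ).card + (Q τ).card + 1 ≤ a := by
      have := hPQ τ
      omega
    have h4 : ((P τ).card : ℝ) + (Q τ).card + 1 ≤ a := by exact_mod_cast h3
    have h5 : 1 * fe x y ≤ (a - (P τ).card - (Q τ).card) * fe x y :=
      mul_le_mul_of_nonneg_right (by linarith) (by linarith)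
    linarith
  refine ⟨P τ, Q τ, hpa, hc τ, h1, hw τ, ?_⟩
  have h6 : (a : ℝ) - (P τ).card - (Q τ).card = 0 := by
    have : ((P τ).card : ℝ) + (Q τ).card = a := by exact_mod_cast hpa
    linarith
  rw [h6, zero_mul, zero_add] at h2
  exact h2


/-- enumeration of a set of representatives -/
theorem eo2_enum (G : SimpleGraph W) (A : Finset W) (k : ℕ) (hA : A.card = k) (h : ∀ u ∈ A, ∀ w ∈ A, u ≠ w → ¬ G.Reachable u w) :
    ∃ g : Fin k → W, (∀ i, g i ∈ A) ∧ ∀ i j, i ≠ j → ¬ G.Reachable (g i) (g j) := by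
  refine ⟨fun i => ((A.equivFinOfCardEq hA).symm i : W), fun i => ((A.equivFinOfCardEq hA).symm i).2, fun i j hij => ?_⟩
  refine h _ ((A.equivFinOfCardEq hA).symm i).2 _ ((A.equivFinOfCardEq hA).symm j).2 (fun h => hij ?_)
  exact (A.equivFinOfCardEq hA).symm.injective (Subtype.ext h)

/-- `x` is not tiny -/
theorem eo2_caseA (R B : SimpleGraph W) (M : W → W → Prop) (x y N e c : ℝ) (lb : W → Option Bool) (U : Finset W) (k : ℕ)
    (henv : Env R B M x y N e c) (hlab : LabB B lb) (hind : ∀ τ, IndLe R B M (eV lb U τ) (k + 1))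
    (hbig : ∀ v ∈ U, lb v = none → th x y + 1 < ((cnb R B v U).card : ℝ))
    (hU : ((k + 1 : ℕ) : ℝ) * fe x y - e * N ≤ U.card) (hsm : (2 * kce (k + 1) + 2) * (e * N) < c * N)
    (hxL : (4 * kce (k + 1) + 8 * ((k + 1 : ℕ) : ℝ) + 8) * (e * N) < x) :
    ∃ (Q Z : Fin 0 → Finset W) (S : Bool → Fin (k + 1) → Finset W),
      EOOut R B lb x y ((2 * kce (k + 1) + 2) * (e * N)) 0 (k + 1) U Q Z S := by
  classical
  obtain ⟨hR, hB, hst⟩ := eo2_struct R B M x y N e c lb U (k + 1) henv hlab hind hbig hU hsm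
  have ho := eo1_env R B M x y N e c lb U (k + 1) henv hlab hind
  choose P Q hPQ hc hlow hup hqx using hst
  have hx := henv.x2
  have hy := henv.y2
  have hμ := henv.one
  have hf1 := le_fe_left x y
  have hf2 := le_fe_right x y
  have hK := kce_pos (k + 1)
  have hKd : kce (k + 1) = 16 * ((k + 1 : ℕ) : ℝ) * ((k + 1 : ℕ) : ℝ) + ((k + 1 : ℕ) : ℝ) + 2 * 2 ^ (k + 1 + 1) := rfl
  set K := kce (k + 1) with hKset
  have hKμ : 0 ≤ K * (e * N) := by positivity
  have hkμ : 0 ≤ (k : ℝ) * (e * N) := by positivity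
  have hcast : ((k + 1 : ℕ) : ℝ) = k + 1 := by push_cast; ring
  have hQ0 : ∀ τ, (Q τ).card = 0 := by
    intro τ
    by_contra hne
    have h1 : (1 : ℝ) ≤ (Q τ).card := by exact_mod_cast Nat.one_le_iff_ne_zero.mpr hne
    have h2 : 1 * (x / 2) ≤ ((Q τ).card : ℝ) * (x / 2) := mul_le_mul_of_nonneg_right h1 (by linarith)
    have h3 := hqx τ
    rw [hcast] at hxL
    linarith [(by ring : (4 * K + 8 * ((k : ℝ) + 1) + 8) * (e * N) = 4 * (K * (e * N)) + 8 * ((k : ℝ) * (e * N)) + 16 * (e * N)),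
      (by ring : (2 * K + 2) * (e * N) = 2 * (K * (e * N)) + 2 * (e * N))]
  have hPk : ∀ τ, (P τ).card = k + 1 := by
    intro τ
    have := hPQ τ
    rw [hQ0 τ] at this
    omega
  have hen := fun τ => eo2_enum (res R U) (P τ) (k + 1) (hPk τ) (hc τ).dR
  choose g hgP hgs using hen
  have hsz : ∀ τ i, x - (2 * K + 2) * (e * N) ≤ ((eX lb U τ ∩ comp (res R U) (g τ i)).card : ℝ) := by
    intro τ i
    have h1 := world_le (res R U) (res B U) _ (P τ) (Q τ) _ _ _ hR hB (hc τ)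
    have h2 := oA_comp (res R U) (res B U) M x y N e (fun _ => none) lb U (k + 1) ho true τ (P τ) (Q τ) _ _ hR (hc τ) (g τ i) (hgP τ i)
    rw [eo1_VV, hPk τ, hQ0 τ] at h1
    rw [eo1_oA, hPk τ, hQ0 τ] at h2
    have h3 : ((eV lb U τ).card : ℝ) = (eP lb U).card + (eX lb U τ).card := by exact_mod_cast eo1_V lb U τ
    have h4 := hlow τ
    have h5 : ((k + 1 : ℕ) : ℝ) * (2 * x) ≤ ((k + 1 : ℕ) : ℝ) * fe x y := mul_le_mul_of_nonneg_left hf1 (Nat.cast_nonneg _)
    have h6 : K * (e * N) = (16 * ((k + 1 : ℕ) : ℝ) * ((k + 1 : ℕ) : ℝ) + ((k + 1 : ℕ) : ℝ) + 2 * 2 ^ (k + 1 + 1)) * (e * N) := by rw [hKd]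
    rw [hcast] at *
    have h7 : 0 ≤ (k : ℝ) * (k * (e * N)) := by positivity
    have h8 : 0 ≤ (2 : ℝ) ^ (k + 1 + 1) * (e * N) := by positivity
    simp only [Nat.cast_zero, zero_mul, add_zero] at h1 h2
    linarith [(by ring : ((k : ℝ) + 1) * (x + 8 * ((k : ℝ) + 1) * (e * N)) = k * x + x + 8 * (k * (k * (e * N))) + 16 * (k * (e * N)) + 8 * (e * N)),
      (by ring : ((k : ℝ) + 1 - 1) * (x + 8 * ((k : ℝ) + 1) * (e * N)) = k * x + 8 * (k * (k * (e * N))) + 8 * (k * (e * N))),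
      (by ring : ((k : ℝ) + 1) * (2 * x) = 2 * (k * x) + 2 * x),
      (by ring : (16 * ((k : ℝ) + 1) * ((k : ℝ) + 1) + ((k : ℝ) + 1) + 2 * 2 ^ (k + 1 + 1)) * (e * N)
        = 16 * (k * (k * (e * N))) + 33 * (k * (e * N)) + 17 * (e * N) + 2 * (2 ^ (k + 1 + 1) * (e * N))),
      (by ring : (2 * K + 2) * (e * N) = 2 * (K * (e * N)) + 2 * (e * N)),
      (by ring : (K + 2) * (e * N) = K * (e * N) + 2 * (e * N))]
  have e1 : (2 * K + 2) * (e * N) = 2 * (K * (e * N)) + 2 * (e * N) := by ring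
  have e2 : (4 * K + 8 * ((k : ℝ) + 1) + 8) * (e * N) = 4 * (K * (e * N)) + 8 * ((k : ℝ) * (e * N)) + 16 * (e * N) := by ring
  have hxL' := hxL
  rw [hcast, e2] at hxL'
  refine eo2_red k R B M x y (e * N) ((2 * K + 2) * (e * N)) lb U henv.mis hlab hind g hgs hsz (fun v => ?_) ?_ ?_ ?_
  · have h1 := hR v
    rw [hcast] at h1
    rw [e1]
    linarith [(by ring : 8 * ((k : ℝ) + 1) * (e * N) = 8 * ((k : ℝ) * (e * N)) + 8 * (e * N))]
  · rw [e1]
    linarith [(by ring : ((k : ℝ) + 2) * (e * N) = (k : ℝ) * (e * N) + 2 * (e * N))]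
  · rw [e1]; linarith
  · by_contra hcon
    push Not at hcon
    have h1 := hlow true
    have h2 := hup true
    rw [hPk true, hQ0 true] at h2
    have h3 : ((k + 1 : ℕ) : ℝ) * (y + x / 2) ≤ ((k + 1 : ℕ) : ℝ) * fe x y := mul_le_mul_of_nonneg_left hf2 (Nat.cast_nonneg _)
    rw [hcast] at *
    simp only [Nat.cast_zero, zero_mul, add_zero] at h2
    have h4 : 0 ≤ (k : ℝ) * (y - 3 / 2 * x) := mul_nonneg (Nat.cast_nonneg _) (by linarith)
    linarith [(by ring : ((k : ℝ) + 1) * (y + x / 2) = k * (y - 3 / 2 * x) + (y + x / 2) + 2 * (k * x)),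
      (by ring : ((k : ℝ) + 1) * (2 * x) = 2 * (k * x) + 2 * x), (by ring : (K + 2) * (e * N) = K * (e * N) + 2 * (e * N))]

/-- `x` is tiny: the blue components -/
theorem eo2_caseB (R B : SimpleGraph W) (M : W → W → Prop) (x y N e c : ℝ) (lb : W → Option Bool) (U : Finset W) (k : ℕ)
    (henv : Env R B M x y N e c) (hlab : LabB B lb) (hind : ∀ τ, IndLe R B M (eV lb U τ) (k + 1))
    (hbig : ∀ v ∈ U, lb v = none → th x y + 1 < ((cnb R B v U).card : ℝ))
    (hU : ((k + 1 : ℕ) : ℝ) * fe x y - e * N ≤ U.card) (hsm : (2 * kce (k + 1) + 2) * (e * N) < c * N)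
    (L : ℝ) (hL : 0 ≤ L) (hxL : x ≤ L * (e * N)) (hL1 : L * (e * N) < c * N)
    (hL2 : (2 * ((k + 1 : ℕ) : ℝ) * L + 2 * kce (k + 1) + 2) * (e * N) < c * N) :
    c * N ≤ y ∧ ∃ g : Fin (k + 1) → W, (∀ i j, i ≠ j → ¬ (res B U).Reachable (g i) (g j)) ∧
      ∀ i, y - (4 * kce (k + 1) + 2) * (e * N) ≤ ((eP lb U ∩ comp (res B U) (g i)).card : ℝ) := by
  classical
  obtain ⟨hR, hB, hst⟩ := eo2_struct R B M x y N e c lb U (k + 1) henv hlab hind hbig hU hsm
  have ho := eo1_env R B M x y N e c lb U (k + 1) henv hlab hind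
  obtain ⟨P, Q, hPQ, hc, hlow, hup, -⟩ := hst true
  have hx := henv.x2
  have hy := henv.y2
  have hμ := henv.one
  have hf2 := le_fe_right x y
  have hK := kce_pos (k + 1)
  have hKd : kce (k + 1) = 16 * ((k + 1 : ℕ) : ℝ) * ((k + 1 : ℕ) : ℝ) + ((k + 1 : ℕ) : ℝ) + 2 * 2 ^ (k + 1 + 1) := rfl
  set K := kce (k + 1) with hKset
  have hKμ : 0 ≤ K * (e * N) := by positivity
  have hkμ : 0 ≤ (k : ℝ) * (e * N) := by positivity
  have hcast : ((k + 1 : ℕ) : ℝ) = k + 1 := by push_cast; ring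
  have hcy : c * N ≤ y := by
    have h1 := henv.big
    rcases le_total x y with h | h
    · rwa [max_eq_right h] at h1
    · rw [max_eq_left h] at h1
      linarith
  refine ⟨hcy, ?_⟩
  have hPr : (P.card : ℝ) + Q.card = k + 1 := by exact_mod_cast hPQ
  have hLμ : 0 ≤ L * (e * N) := by positivity
  have hP0 : P.card = 0 := by
    by_contra hne
    have h1 : (1 : ℝ) ≤ P.card := by exact_mod_cast Nat.one_le_iff_ne_zero.mpr hne
    have h2 : (P.card : ℝ) ≤ k + 1 := by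
      have : (0 : ℝ) ≤ Q.card := Nat.cast_nonneg _
      linarith
    have h3 : (P.card : ℝ) * (2 * x) ≤ (k + 1) * (2 * (L * (e * N))) :=
      mul_le_mul h2 (by linarith) (by linarith) (by positivity)
    have h4 : ((k + 1 : ℕ) : ℝ) * y ≤ ((k + 1 : ℕ) : ℝ) * fe x y := mul_le_mul_of_nonneg_left (by linarith) (Nat.cast_nonneg _)
    have h5 : (Q.card : ℝ) * y ≤ k * y := mul_le_mul_of_nonneg_right (by linarith) (by linarith)
    rw [hcast] at hlow hL2 h4
    linarith [(by ring : ((k : ℝ) + 1) * y = k * y + y), (by ring : (K + 2) * (e * N) = K * (e * N) + 2 * (e * N)),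
      (by ring : (2 * ((k : ℝ) + 1) * L + 2 * K + 2) * (e * N) = (k + 1) * (2 * (L * (e * N))) + 2 * (K * (e * N)) + 2 * (e * N))]
  have hQk : Q.card = k + 1 := by omega
  obtain ⟨g, hgQ, hgs⟩ := eo2_enum (res B U) Q (k + 1) hQk hc.dB
  refine ⟨g, hgs, fun i => ?_⟩
  have hX := oA_le (res R U) (res B U) M x y N e (fun _ => none) lb U (k + 1) ho true true P Q _ _ hR hc
  have hsub : eP lb U ⊆ VV (fun _ => none) lb U true true := by
    intro v hv
    rw [eo1_VV, mem_eV]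
    exact ⟨(mem_eP.mp hv).1, Or.inl (mem_eP.mp hv).2⟩
  have h1 := o7_card (res R U) (res B U) (eP lb U) P Q
  have h3 := o7_sum_le' Q (fun u => ((eP lb U ∩ comp (res B U) u).card : ℝ)) (y + 8 * ((k + 1 : ℕ) : ℝ) * (e * N))
    (fun u _ => le_trans (by exact_mod_cast card_le_card inter_subset_right) (hB u)) (g i) (hgQ i)
  have h4 : ((unc (res R U) (res B U) (eP lb U) P Q).card : ℝ) ≤ 2 ^ (k + 1 + 1) * (e * N) :=
    le_trans (by exact_mod_cast card_le_card (o7_unc_mono _ _ _ _ P Q hsub)) hc.unc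
  have hPe : P = ∅ := card_eq_zero.mp hP0
  rw [hPe, sum_empty, zero_add] at h1
  rw [hPe] at h4
  rw [eo1_oA, hP0, hQk] at hX
  rw [hQk] at h3
  have h5 : ((k + 1 : ℕ) : ℝ) * y ≤ ((k + 1 : ℕ) : ℝ) * fe x y := mul_le_mul_of_nonneg_left (by linarith) (Nat.cast_nonneg _)
  have h6 : K * (e * N) = (16 * ((k + 1 : ℕ) : ℝ) * ((k + 1 : ℕ) : ℝ) + ((k + 1 : ℕ) : ℝ) + 2 * 2 ^ (k + 1 + 1)) * (e * N) := by rw [hKd]
  have h7 : 0 ≤ (k : ℝ) * (k * (e * N)) := by positivity
  have h8 : 0 ≤ (2 : ℝ) ^ (k + 1 + 1) * (e * N) := by positivity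
  have h9 : (k : ℝ) * 1 ≤ k * (e * N) := mul_le_mul_of_nonneg_left hμ (Nat.cast_nonneg _)
  rw [hcast] at hlow h5 h6 h3 hX
  simp only [Nat.cast_zero, zero_mul, zero_add] at hX
  linarith [(by ring : ((k : ℝ) + 1 - 1) * (y + 8 * ((k : ℝ) + 1) * (e * N)) = k * y + 8 * (k * (k * (e * N))) + 8 * (k * (e * N))),
      (by ring : ((k : ℝ) + 1) * y = k * y + y),
      (by ring : (16 * ((k : ℝ) + 1) * ((k : ℝ) + 1) + ((k : ℝ) + 1) + 2 * 2 ^ (k + 1 + 1)) * (e * N)
        = 16 * (k * (k * (e * N))) + 33 * (k * (e * N)) + 17 * (e * N) + 2 * (2 ^ (k + 1 + 1) * (e * N))),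
      (by ring : (4 * K + 2) * (e * N) = 4 * (K * (e * N)) + 2 * (e * N)),
      (by ring : (K + 2) * (e * N) = K * (e * N) + 2 * (e * N))]

end aux

/-- the constants -/
theorem eo2_const (e₀ e₁ T : ℝ) (he₀ : 0 < e₀) (he₁ : 0 < e₁) (hT : 1 ≤ T) : ∃ e > (0 : ℝ), ∀ t, 0 ≤ t → t ≤ T →
    t * e ≤ e₀ ∧ 8 * (t * e) ≤ e₁ := by
  refine ⟨min e₀ (e₁ / 8) / T, by positivity, fun t ht0 ht => ?_⟩
  have h1 : t * (min e₀ (e₁ / 8) / T) ≤ T * (min e₀ (e₁ / 8) / T) := mul_le_mul_of_nonneg_right ht (by positivity)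
  have h2 : T * (min e₀ (e₁ / 8) / T) = min e₀ (e₁ / 8) := by
    field_simp
  have h3 := min_le_left e₀ (e₁ / 8)
  have h4 := min_le_right e₀ (e₁ / 8)
  constructor <;> linarith

theorem EO_case2 (a : ℕ) (c e' : ℝ) (hc : 0 < c) (he' : 0 < e') : ∃ e > (0 : ℝ), ∀ (W : Type) [Fintype W] [DecidableEq W]
    (R B : SimpleGraph W) (M : W → W → Prop) (x y N : ℝ) (lb : W → Option Bool), Env R B M x y N e c → LabB B lb →
    ∀ U : Finset W, (∀ τ, IndLe R B M (eV lb U τ) a) → (∀ v ∈ U, lb v = none → th x y + 1 < ((cnb R B v U).card : ℝ)) →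
      a * fe x y - e * N ≤ U.card →
      ∃ b r : ℕ, b + r = a ∧ ∃ (Q Z : Fin b → Finset W) (S : Bool → Fin r → Finset W), EOOut R B lb x y (e' * N) b r U Q Z S := by
  classical
  rcases Nat.eq_zero_or_pos a with rfl | hapos
  · refine ⟨1, one_pos, ?_⟩
    intro W _ _ R B M x y N lb henv hlab U hind hbig hU
    exact ⟨0, 0, rfl, eo2_zero R B lb x y _ U⟩
  obtain ⟨k, rfl⟩ : ∃ k, a = k + 1 := ⟨a - 1, by omega⟩
  obtain ⟨e₁, he₁0, he₁e, he₁c⟩ : ∃ e₁ : ℝ, 0 < e₁ ∧ e₁ ≤ e' ∧ e₁ ≤ c :=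
    ⟨min e' c, lt_min he' hc, min_le_left _ _, min_le_right _ _⟩
  have hk0 : (0 : ℝ) ≤ k := Nat.cast_nonneg k
  obtain ⟨δ, hδ0, hδk⟩ : ∃ δ : ℝ, 0 < δ ∧ ((k : ℝ) + 3) * δ = e₁ / 8 := by
    refine ⟨e₁ / (8 * ((k : ℝ) + 3)), by positivity, ?_⟩
    field_simp
  obtain ⟨e₀, he₀, Hfew⟩ := few_high δ (e₁ / 4) hδ0 (by positivity)
  have hK := kce_pos (k + 1)
  set K := kce (k + 1) with hKset
  set L : ℝ := 4 * K + 8 * ((k + 1 : ℕ) : ℝ) + 8 with hLset
  have hL0 : 0 ≤ L := by positivity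
  have hkL : 0 ≤ ((k + 1 : ℕ) : ℝ) * L := by positivity
  set T : ℝ := 2 * ((k + 1 : ℕ) : ℝ) * L + L + 4 * K + ((k + 1 : ℕ) : ℝ) + 8 with hTset
  have hcast : ((k + 1 : ℕ) : ℝ) = k + 1 := by push_cast; ring
  have hcast0 : 0 ≤ ((k + 1 : ℕ) : ℝ) := Nat.cast_nonneg _
  obtain ⟨e, he0, He⟩ := eo2_const e₀ e₁ T he₀ he₁0 (by linarith)
  refine ⟨e, he0, ?_⟩
  intro W _ _ R B M x y N lb henv hlab U hind hbig hU
  have hN0 : 0 ≤ N := henv.N_nonneg
  have heN : 1 ≤ e * N := henv.one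
  have hNpos : 0 < N := by
    rcases hN0.eq_or_lt with h | h
    · rw [← h, mul_zero] at heN; linarith
    · exact h
  have hx2 := henv.x2
  have hy2 := henv.y2
  have he₁N : 0 < e₁ * N := mul_pos he₁0 hNpos
  have he₁cN : e₁ * N ≤ c * N := mul_le_mul_of_nonneg_right he₁c hN0
  have he₁eN : e₁ * N ≤ e' * N := mul_le_mul_of_nonneg_right he₁e hN0
  have HeN : ∀ t, 0 ≤ t → t ≤ T → t * (e * N) ≤ e₀ * N ∧ 8 * (t * (e * N)) ≤ e₁ * N := by
    intro t h1 h2
    obtain ⟨h3, h4⟩ := He t h1 h2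
    have h5 := mul_le_mul_of_nonneg_right h3 hN0
    have h6 := mul_le_mul_of_nonneg_right h4 hN0
    constructor
    · linarith [(by ring : t * e * N = t * (e * N))]
    · linarith [(by ring : 8 * (t * e) * N = 8 * (t * (e * N)))]
  have hsm : (2 * K + 2) * (e * N) < c * N := by
    have := (HeN (2 * K + 2) (by linarith) (by linarith)).2
    linarith
  rcases lt_or_ge (L * (e * N)) x with hxL | hxL
  · obtain ⟨Q, Z, S, h⟩ := eo2_caseA R B M x y N e c lb U k henv hlab hind hbig hU hsm hxL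
    refine ⟨0, k + 1, by omega, Q, Z, S, h.mono ?_⟩
    have := (HeN (2 * K + 2) (by linarith) (by linarith)).2
    linarith
  · have hL1 := HeN L hL0 (by linarith)
    have hL2 := HeN (2 * ((k + 1 : ℕ) : ℝ) * L + 2 * K + 2) (by linarith) (by linarith)
    obtain ⟨hcy, g, hgs, hgc⟩ := eo2_caseB R B M x y N e c lb U k henv hlab hind hbig hU hsm L hL0 hxL (by linarith) (by linarith)
    obtain ⟨H, hHc, hnH⟩ : ∃ H : Finset W, (H.card : ℝ) ≤ e₁ / 4 * N ∧
        ∀ v, v ∉ H → ((nb R v univ).card : ℝ) ≤ δ * N := by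
      refine ⟨univ.filter (fun v => δ * N ≤ ((nb R v univ).card : ℝ)), ?_, fun v hv => ?_⟩
      · refine Hfew W R x N henv.cardW ?_ henv.zR ?_
        · have := (HeN 1 (by norm_num) (by linarith)).1
          linarith
        · linarith
      · rw [mem_filter] at hv
        push Not at hv
        exact (hv (mem_univ v)).le
    have h8 := (HeN (4 * K + 2) (by linarith) (by linarith)).2
    have h9 := (HeN (k + 2) (by linarith) (by linarith)).2
    have h10 := (HeN 1 (by norm_num) (by linarith)).2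
    have hδN : 0 ≤ δ * N := by positivity
    have e5 : e₁ / 2 * N = e₁ * N / 2 := by ring
    have e6 : e₁ / 4 * N = e₁ * N / 4 := by ring
    refine ⟨k + 1, 0, by omega, eo2_blue k e e' δ (e₁ / 2) N x y R B M henv.mis lb U ?_ g hgs
      (fun i => (eP lb U ∩ comp (res B U) (g i)) \ H) (fun i z hz => ?_) (fun i => ?_) (fun i z hz => hnH z (mem_sdiff.mp hz).2)
      hδN hN0 he0.le ?_ (by linarith) ?_ ?_ (by linarith) (by linarith)⟩
    · refine (hind true).mono (fun v hv => ?_)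
      rw [mem_eV]
      exact ⟨(mem_eP.mp hv).1, Or.inl (mem_eP.mp hv).2⟩
    · rw [mem_sdiff, mem_inter] at hz
      exact ⟨mem_comp.mp hz.1.2, hz.1.1⟩
    · have h1 := hgc i
      have h2 : (eP lb U ∩ comp (res B U) (g i)).card ≤ ((eP lb U ∩ comp (res B U) (g i)) \ H).card + H.card :=
        card_le_card_sdiff_add_card
      have h3 : ((eP lb U ∩ comp (res B U) (g i)).card : ℝ) ≤ ((eP lb U ∩ comp (res B U) (g i)) \ H).card + H.card := by exact_mod_cast h2
      linarith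
    · have h3 : ((k : ℝ) + 2) * (δ * N + e * N) = (((k : ℝ) + 3) * δ) * N - δ * N + (k + 2) * (e * N) := by ring
      rw [h3, hδk]
      have h4 : e₁ / 8 * N = e₁ * N / 8 := by ring
      linarith
    · have h3 : (1 : ℝ) * δ ≤ ((k : ℝ) + 3) * δ := mul_le_mul_of_nonneg_right (by linarith) hδ0.le
      have h4 := (He 1 (by norm_num) (by linarith)).2
      linarith
    · linarith

end Pool.Agent.Lib.MP_779bc2_co
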