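import Pool.Agent.Lib.MP_779bc2_co.EE0

/-! Row EE3 (about 200 lines): the new unit, both cycles even -/

set_option autoImplicit false

namespace Pool.Agent.Lib.MP_779bc2_co

open Finset

/-- A unit has a large clique: from `cardQ`, `ratio`, `Env.big`: `x ≥ (2/3)(c - e) N`. -/
theorem unit_big {W : Type} [Fintype W] [DecidableEq W] (R B : SimpleGraph W) (M : W → W → Prop) (x y N e c : ℝ)
    (henv : Env R B M x y N e c) (hec : e ≤ c / 6) (Q Z : Finset W) (h : IsUnit' R B x y (e * N) Q Z) : c / 3 * N ≤ Q.card := by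
  have hN := henv.N_nonneg
  have hone := henv.one
  have h1 := h.cardQ
  have h2 := h.ratio
  have h3 : e * N ≤ c / 6 * N := mul_le_mul_of_nonneg_right hec hN
  rcases le_max_iff.mp henv.big with hx | hy
  · nlinarith
  · nlinarith

/-- the vertices with many neighbours in the clique of a unit, outside the unit -/
theorem ee3_unit (δ e1 N : ℝ) {W : Type} [Fintype W] [DecidableEq W] (R B : SimpleGraph W) (Q Z U1 : Finset W)
    (hQ : Q ⊆ U1) (hZ : Z ⊆ U1) (S1 S2 : Finset W)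
    (h1 : ∀ v, v ∉ Q → δ / 2 * N ≤ ((nb R v Q).card : ℝ) → v ∈ S1)
    (h2 : ∀ v, v ∉ Q → v ∉ Z → δ / 2 * N ≤ ((nb B v Q).card : ℝ) → v ∈ S2)
    (hc1 : (S1.card : ℝ) ≤ e1 * N) (hc2 : (S2.card : ℝ) ≤ e1 * N) :
    ∃ S : Finset W, (S.card : ℝ) ≤ 2 * (e1 * N) ∧ ∀ v, v ∉ U1 →
      δ * N < ((open Classical in Q.filter (fun w => R.Adj v w ∨ B.Adj v w)).card : ℝ) → v ∈ S := by
  classical
  refine ⟨S1 ∪ S2, ?_, ?_⟩
  · have : ((S1 ∪ S2).card : ℝ) ≤ S1.card + S2.card := by exact_mod_cast card_union_le S1 S2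
    linarith
  · intro v hv hlt
    have hvQ : v ∉ Q := fun h => hv (hQ h)
    have hvZ : v ∉ Z := fun h => hv (hZ h)
    have hle : ((Q.filter (fun w => R.Adj v w ∨ B.Adj v w)).card : ℝ) ≤ (nb R v Q).card + (nb B v Q).card := by
      have : (Q.filter (fun w => R.Adj v w ∨ B.Adj v w)) ⊆ nb R v Q ∪ nb B v Q := by
        intro w hw
        rw [mem_filter] at hw
        rw [mem_union, mem_nb, mem_nb]
        tauto
      have h3 := (card_le_card this).trans (card_union_le _ _)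
      exact_mod_cast h3
    have hlt' : δ * N < ((Q.filter (fun w => R.Adj v w ∨ B.Adj v w)).card : ℝ) := by
      convert hlt
    rw [mem_union]
    by_cases h3 : δ / 2 * N ≤ ((nb R v Q).card : ℝ)
    · exact Or.inl (h1 v hvQ h3)
    · right
      apply h2 v hvQ hvZ
      have := not_le.mp h3
      linarith

open Classical in
/-- Few vertices outside `U1` have many neighbours in one of the cliques: for every `i` the sets in `unit_few1` and `unit_few2` (colours exchanged if `cl i = true`), each with at most `e'' N / (2 a + 1)` elements; `Q i`, `Z i ⊆ U1`. -/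
theorem EE_few (a : ℕ) (c δ e'' : ℝ) (hc : 0 < c) (hδ : 0 < δ) (he'' : 0 < e'') : ∃ e > (0 : ℝ), ∀ (W : Type) [Fintype W] [DecidableEq W]
    (R B : SimpleGraph W) (M : W → W → Prop) (x y N : ℝ), Env R B M x y N e c → ∀ (U1 : Finset W) (cl : Fin a → Bool) (Q Z : Fin a → Finset W),
      EEOut R B x y (e * N) a U1 cl Q Z →
      ((univ.filter (fun v => v ∉ U1 ∧ ∃ i, δ * N < (((Q i).filter (fun w => R.Adj v w ∨ B.Adj v w)).card : ℝ))).card : ℝ) ≤ e'' * N := by
  have ha : (0 : ℝ) < 2 * a + 1 := by positivity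
  obtain ⟨e1, he1, h1⟩ := unit_few1 c (δ / 2) (e'' / (2 * a + 1)) hc (by linarith) (div_pos he'' ha)
  obtain ⟨e2, he2, h2⟩ := unit_few2 c (δ / 2) (e'' / (2 * a + 1)) hc (by linarith) (div_pos he'' ha)
  refine ⟨min e1 e2, lt_min he1 he2, ?_⟩
  intro W _ _ R B M x y N henv U1 cl Q Z hout
  have hN := henv.N_nonneg
  have henv1 := henv.mono (min_le_left e1 e2)
  have henv2 := henv.mono (min_le_right e1 e2)
  have hout1 := hout.mono (mul_le_mul_of_nonneg_right (min_le_left e1 e2) hN)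
  have hout2 := hout.mono (mul_le_mul_of_nonneg_right (min_le_right e1 e2) hN)
  have key : ∀ i, ∃ S : Finset W, (S.card : ℝ) ≤ 2 * (e'' / (2 * a + 1) * N) ∧ ∀ v, v ∉ U1 →
      δ * N < (((Q i).filter (fun w => R.Adj v w ∨ B.Adj v w)).card : ℝ) → v ∈ S := by
    intro i
    rcases Bool.eq_false_or_eq_true (cl i) with hi | hi
    · obtain ⟨S, hS, hS'⟩ := ee3_unit δ (e'' / (2 * a + 1)) N B R (Q i) (Z i) U1 (hout.subQ i) (hout.subZ i)
        (univ.filter (fun v => v ∉ Q i ∧ δ / 2 * N ≤ ((nb B v (Q i)).card : ℝ)))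
        (univ.filter (fun v => v ∉ Q i ∧ v ∉ Z i ∧ δ / 2 * N ≤ ((nb R v (Q i)).card : ℝ)))
        (fun v hv hv' => mem_filter.mpr ⟨mem_univ _, hv, hv'⟩)
        (fun v hv hz hv' => mem_filter.mpr ⟨mem_univ _, hv, hz, hv'⟩)
        (h1 W B R M y x N henv1.swap (Q i) (Z i) (hout1.unitB i hi))
        (h2 W B R M y x N henv2.swap (Q i) (Z i) (hout2.unitB i hi))
      refine ⟨S, hS, fun v hv hlt => hS' v hv (lt_of_lt_of_le hlt ?_)⟩
      norm_cast
      apply card_le_card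
      intro w hw
      rw [mem_filter] at hw ⊢
      exact ⟨hw.1, by tauto⟩
    · obtain ⟨S, hS, hS'⟩ := ee3_unit δ (e'' / (2 * a + 1)) N R B (Q i) (Z i) U1 (hout.subQ i) (hout.subZ i)
        (univ.filter (fun v => v ∉ Q i ∧ δ / 2 * N ≤ ((nb R v (Q i)).card : ℝ)))
        (univ.filter (fun v => v ∉ Q i ∧ v ∉ Z i ∧ δ / 2 * N ≤ ((nb B v (Q i)).card : ℝ)))
        (fun v hv hv' => mem_filter.mpr ⟨mem_univ _, hv, hv'⟩)
        (fun v hv hz hv' => mem_filter.mpr ⟨mem_univ _, hv, hz, hv'⟩)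
        (h1 W R B M x y N henv1 (Q i) (Z i) (hout1.unitR i hi))
        (h2 W R B M x y N henv2 (Q i) (Z i) (hout2.unitR i hi))
      exact ⟨S, hS, fun v hv hlt => hS' v hv hlt⟩
  choose S hS hS' using key
  have hsub : (univ.filter (fun v => v ∉ U1 ∧ ∃ i, δ * N < (((Q i).filter (fun w => R.Adj v w ∨ B.Adj v w)).card : ℝ))) ⊆
      (univ : Finset (Fin a)).biUnion S := by
    intro v hv
    rw [mem_filter] at hv
    obtain ⟨-, hv, i, hi⟩ := hv
    exact mem_biUnion.mpr ⟨i, mem_univ _, hS' i v hv hi⟩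
  have hcard : ((univ.filter (fun v => v ∉ U1 ∧ ∃ i, δ * N < (((Q i).filter (fun w => R.Adj v w ∨ B.Adj v w)).card : ℝ))).card : ℝ) ≤
      ∑ i : Fin a, ((S i).card : ℝ) := by
    have := (card_le_card hsub).trans (card_biUnion_le)
    exact_mod_cast this
  have hsum : ∑ i : Fin a, ((S i).card : ℝ) ≤ a * (2 * (e'' / (2 * a + 1) * N)) := by
    have := Finset.sum_le_sum (fun i (_ : i ∈ (univ : Finset (Fin a))) => hS i)
    simpa using this
  have hfin : (a : ℝ) * (2 * (e'' / (2 * a + 1) * N)) ≤ e'' * N := by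
    have h3 : (a : ℝ) * (2 * (e'' / (2 * a + 1) * N)) = (2 * a / (2 * a + 1)) * (e'' * N) := by
      field_simp
    rw [h3]
    have h4 : (2 * (a : ℝ)) / (2 * a + 1) ≤ 1 := by
      rw [div_le_one ha]
      linarith
    have h5 : 0 ≤ e'' * N := mul_nonneg he''.le hN
    nlinarith
  linarith

open Classical in
/-- Let `e1` be the constant of `S1` for `c`, `e'`; `δ = min e' (c / (12 (a + 2)))`, `V = U \ U1` without the (at most `e1 N/2`) vertices of `EE_few`. Then `V` is complete up to `M` by `complete_of_cliques` (`k = a`, `E = δ N`, `unit_big`) and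
`|V| ≥ th x y - e N - (e1/2) N ≥ th x y - e1 N`: `S1`. -/
theorem ee3_new (a : ℕ) (c e' : ℝ) (hc : 0 < c) (he' : 0 < e') : ∃ e > (0 : ℝ), ∀ (W : Type) [Fintype W] [DecidableEq W]
    (R B : SimpleGraph W) (M : W → W → Prop) (x y N : ℝ), Env R B M x y N e c → ∀ U U1 : Finset W, U1 ⊆ U → IndLe R B M U (a + 1) →
      ∀ (cl : Fin a → Bool) (Q Z : Fin a → Finset W), EEOut R B x y (e * N) a U1 cl Q Z → th x y - e * N ≤ (U \ U1).card →
        ∃ Q0 ⊆ U \ U1, ∃ Z0 ⊆ U \ U1, (IsUnit' R B x y (e' * N) Q0 Z0 ∨ IsUnit' B R y x (e' * N) Q0 Z0) ∧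
          ∀ i, CrossLe R B (e' * N) Q0 (Q i) := by
  obtain ⟨e1, he1, hS1⟩ := S1 c e' hc he'
  have ha2 : (0 : ℝ) < 12 * ((a : ℝ) + 2) := by positivity
  set δ : ℝ := min e' (c / (12 * ((a : ℝ) + 2))) with hδdef
  have hδ : 0 < δ := lt_min he' (div_pos hc ha2)
  obtain ⟨e2, he2, hfew⟩ := EE_few a c δ (e1 / 2) hc hδ (by linarith)
  refine ⟨min (min e2 (e1 / 2)) (min (c / 6) δ), ?_, ?_⟩
  · exact lt_min (lt_min he2 (by linarith)) (lt_min (by linarith) hδ)
  set e : ℝ := min (min e2 (e1 / 2)) (min (c / 6) δ) with hedef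
  have hee2 : e ≤ e2 := (min_le_left _ _).trans (min_le_left _ _)
  have hee1 : e ≤ e1 / 2 := (min_le_left _ _).trans (min_le_right _ _)
  have hec : e ≤ c / 6 := (min_le_right _ _).trans (min_le_left _ _)
  have heδ : e ≤ δ := (min_le_right _ _).trans (min_le_right _ _)
  intro W _ _ R B M x y N henv U U1 hU1 hind cl Q Z hout hcard
  have hN := henv.N_nonneg
  have hNpos : 0 < N := by
    rcases hN.lt_or_eq with h | h
    · exact h
    · exfalso
      have := henv.one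
      rw [← h] at this
      norm_num at this
  set H : Finset W := univ.filter (fun v => v ∉ U1 ∧ ∃ i, δ * N < (((Q i).filter (fun w => R.Adj v w ∨ B.Adj v w)).card : ℝ)) with hH
  have hHc : (H.card : ℝ) ≤ e1 / 2 * N :=
    hfew W R B M x y N (henv.mono hee2) U1 cl Q Z (hout.mono (mul_le_mul_of_nonneg_right hee2 hN))
  have hQbig : ∀ j, c / 3 * N ≤ ((Q j).card : ℝ) := by
    intro j
    rcases Bool.eq_false_or_eq_true (cl j) with hj | hj
    · exact unit_big B R M y x N e c henv.swap hec (Q j) (Z j) (hout.unitB j hj)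
    · exact unit_big R B M x y N e c henv hec (Q j) (Z j) (hout.unitR j hj)
  have hVdeg : ∀ v ∈ (U \ U1) \ H, ∀ j, (((Q j).filter (fun z => R.Adj v z ∨ B.Adj v z)).card : ℝ) ≤ δ * N := by
    intro v hv j
    by_contra hlt
    rw [mem_sdiff, mem_sdiff] at hv
    exact hv.2 (mem_filter.mpr ⟨mem_univ _, hv.1.2, j, not_le.mp hlt⟩)
  have hsmall : ((a : ℝ) + 2) * (δ * N + e * N) < c / 3 * N := by
    have h1 : δ ≤ c / (12 * ((a : ℝ) + 2)) := min_le_right _ _
    have h2 : δ * (12 * ((a : ℝ) + 2)) ≤ c := (le_div_iff₀ ha2).mp h1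
    have h3 : e * N ≤ δ * N := mul_le_mul_of_nonneg_right heδ hN
    have h4 : ((a : ℝ) + 2) * (δ * N + e * N) ≤ ((a : ℝ) + 2) * (2 * (δ * N)) := by
      apply mul_le_mul_of_nonneg_left _ (by positivity)
      linarith
    have h5 : ((a : ℝ) + 2) * (2 * (δ * N)) = (δ * (12 * ((a : ℝ) + 2))) * N / 6 := by ring
    have h6 : (δ * (12 * ((a : ℝ) + 2))) * N ≤ c * N := mul_le_mul_of_nonneg_right h2 hN
    have h7 : 0 < c * N := mul_pos hc hNpos
    linarith
  have hcomplete : ∀ u ∈ (U \ U1) \ H, ∀ w ∈ (U \ U1) \ H, M u w ∨ R.Adj u w ∨ B.Adj u w := by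
    intro u hu w hw
    have huU : u ∈ U := (mem_sdiff.mp (mem_sdiff.mp hu).1).1
    have hwU : w ∈ U := (mem_sdiff.mp (mem_sdiff.mp hw).1).1
    refine complete_of_cliques R B M (e * N) (δ * N) henv.mis (mul_nonneg hδ.le hN) U a hind Q
      (fun i => (hout.subQ i).trans hU1) (fun i j hij => (hout.cross i j hij).mono (mul_le_mul_of_nonneg_right heδ hN))
      (fun j => lt_of_lt_of_le hsmall (hQbig j)) u w huU hwU (hVdeg u hu) (hVdeg w hw)
  have hVcard : th x y - e1 * N ≤ (((U \ U1) \ H).card : ℝ) := by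
    have h1 : ((U \ U1).card : ℝ) ≤ (((U \ U1) \ H).card : ℝ) + H.card := by
      have := Finset.le_card_sdiff H (U \ U1)
      have h2 : (U \ U1).card ≤ ((U \ U1) \ H).card + H.card := by omega
      exact_mod_cast h2
    have h3 : e * N ≤ e1 / 2 * N := mul_le_mul_of_nonneg_right hee1 hN
    linarith
  obtain ⟨Q0, hQ0, Z0, hZ0, hor⟩ := hS1 W R B M x y N (henv.mono (by linarith)) ((U \ U1) \ H) hcomplete hVcard
  refine ⟨Q0, hQ0.trans sdiff_subset, Z0, hZ0.trans sdiff_subset, ?_, ?_⟩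
  · rcases hor with h | h
    · exact Or.inl h.1
    · exact Or.inr h.1
  · intro i q hq
    refine (hVdeg q (hQ0 hq) i).trans ?_
    exact mul_le_mul_of_nonneg_right (min_le_left _ _) hN

/-- Let `e1` be the constant of `S1` for `c`, `e'`; `δ = min e' (c / (12 (a + 2)))`, `V = U \ U1` without the (at most `e1 N/2`) vertices of `EE_few`. Then `V` is complete up to `M` by `complete_of_cliques` (`k = a`, `E = δ N`, `unit_big`) and
`|V| ≥ th x y - e N - (e1/2) N ≥ th x y - e1 N`: `S1`. -/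
theorem EE_new (a : ℕ) (c e' : ℝ) (hc : 0 < c) (he' : 0 < e') : ∃ e > (0 : ℝ), ∀ (W : Type) [Fintype W] [DecidableEq W]
    (R B : SimpleGraph W) (M : W → W → Prop) (x y N : ℝ), Env R B M x y N e c → ∀ U U1 : Finset W, U1 ⊆ U → IndLe R B M U (a + 1) →
      ∀ (cl : Fin a → Bool) (Q Z : Fin a → Finset W), EEOut R B x y (e * N) a U1 cl Q Z → th x y - e * N ≤ (U \ U1).card →
        ∃ Q0 ⊆ U \ U1, ∃ Z0 ⊆ U \ U1, (IsUnit' R B x y (e' * N) Q0 Z0 ∨ IsUnit' B R y x (e' * N) Q0 Z0) ∧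
          ∀ i, CrossLe R B (e' * N) Q0 (Q i) :=
  ee3_new a c e' hc he'

end Pool.Agent.Lib.MP_779bc2_co
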