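import Pool.Agent.Lib.MP_779bc2_co.EO0
import Pool.Agent.Lib.MP_779bc2_co.EE3

/-! Row EO4 (about 180 lines): few vertices have many neighbours in the cliques -/

set_option autoImplicit false

namespace Pool.Agent.Lib.MP_779bc2_co

open Finset

open Classical in
/-- `U1` with `r = e N`: `|S| ≥ x - e N ≥ (c/3) N ≥ 6 e N + 6` and `2 e N + 2 ≤ 4 e N ≤ δ N`, `e N + 1 ≤ 2 e N ≤ e'' N`. -/
theorem red_few (c δ e'' : ℝ) (hc : 0 < c) (hδ : 0 < δ) (he'' : 0 < e'') : ∃ e > (0 : ℝ), ∀ (W : Type) [Fintype W] [DecidableEq W]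
    (R B : SimpleGraph W) (M : W → W → Prop) (x y N : ℝ), Env R B M x y N e c → ∀ S : Finset W, x - e * N ≤ S.card → y ≤ 3 / 2 * x + e * N →
      (∀ q ∈ S, ((nn R q S).card : ℝ) ≤ e * N) →
      ((univ.filter (fun v => v ∉ S ∧ δ * N ≤ ((nb R v S).card : ℝ))).card : ℝ) ≤ e'' * N := by
  have hpos : 0 < min (c / 30) (min (δ / 4) (e'' / 2)) :=
    lt_min (by positivity) (lt_min (by positivity) (by positivity))
  refine ⟨min (c / 30) (min (δ / 4) (e'' / 2)), hpos, ?_⟩
  intro W _ _ R B M x y N env Q hQ hratio hnear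
  set e := min (c / 30) (min (δ / 4) (e'' / 2)) with he
  have he1 : e ≤ c / 30 := min_le_left _ _
  have he2 : e ≤ δ / 4 := (min_le_right _ _).trans (min_le_left _ _)
  have he3 : e ≤ e'' / 2 := (min_le_right _ _).trans (min_le_right _ _)
  have h1 := env.one
  have hN : 0 < N := by
    by_contra h
    push Not at h
    nlinarith
  have g1 : e * N ≤ c / 30 * N := mul_le_mul_of_nonneg_right he1 hN.le
  have g2 : e * N ≤ δ / 4 * N := mul_le_mul_of_nonneg_right he2 hN.le
  have g3 : e * N ≤ e'' / 2 * N := mul_le_mul_of_nonneg_right he3 hN.le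
  have hx : c * N ≤ 3 / 2 * x + e * N := by
    refine env.big.trans (max_le ?_ hratio)
    linarith [env.x2]
  have key := U1 R x env.zR Q (e * N) h1 hQ hnear (by linarith)
  refine le_trans ?_ (key.trans (by linarith))
  have hsub : (univ.filter (fun v => v ∉ Q ∧ δ * N ≤ ((nb R v Q).card : ℝ))) ⊆
      univ.filter (fun v => v ∉ Q ∧ 2 * (e * N) + 2 ≤ ((nb R v Q).card : ℝ)) := by
    intro v hv
    rw [mem_filter] at hv ⊢
    exact ⟨hv.1, hv.2.1, by linarith [hv.2.2]⟩
  exact_mod_cast card_le_card hsub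

open Classical in
/-- For the units `Q i` (graph `B`): `unit_few1`, `unit_few2` with the colours exchanged (`Env.swap`), `Q i`, `Z i ⊆ U1`. For the red cliques `S τ j`: `red_few` (`ratioS`; `S τ j ⊆ U1`); there are no edges of `B` with an end in `S τ j` (`LabB`, `subS`).
The set is contained in the union of `2 b + 2 r` sets, each with at most `e'' N / (2 k + 1)` elements (`b + r = k`). (The constants depend on `k` only.) -/
theorem EO_few (k : ℕ) (c δ e'' : ℝ) (hc : 0 < c) (hδ : 0 < δ) (he'' : 0 < e'') : ∃ e > (0 : ℝ), ∀ (W : Type) [Fintype W] [DecidableEq W]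
    (R B : SimpleGraph W) (M : W → W → Prop) (x y N : ℝ) (lb : W → Option Bool), Env R B M x y N e c → LabB B lb →
    ∀ (U1 : Finset W) (b r : ℕ) (Q Z : Fin b → Finset W) (S : Bool → Fin r → Finset W), b + r = k → EOOut R B lb x y (e * N) b r U1 Q Z S →
      ((univ.filter (fun v => v ∉ U1 ∧ ((∃ i, δ * N < (((Q i).filter (fun w => R.Adj v w ∨ B.Adj v w)).card : ℝ)) ∨
        ∃ τ j, δ * N < (((S τ j).filter (fun w => R.Adj v w ∨ B.Adj v w)).card : ℝ)))).card : ℝ) ≤ e'' * N := by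
  have hk : (0 : ℝ) < 2 * k + 1 := by positivity
  obtain ⟨e1, he1, h1⟩ := unit_few1 c (δ / 2) (e'' / (2 * k + 1)) hc (by linarith) (div_pos he'' hk)
  obtain ⟨e2, he2, h2⟩ := unit_few2 c (δ / 2) (e'' / (2 * k + 1)) hc (by linarith) (div_pos he'' hk)
  obtain ⟨e3, he3, h3⟩ := red_few c δ (e'' / (2 * k + 1)) hc hδ (div_pos he'' hk)
  refine ⟨min (min e1 e2) e3, lt_min (lt_min he1 he2) he3, ?_⟩
  intro W _ _ R B M x y N lb henv hlab U1 b r Q Z S hbr hout
  have hN := henv.N_nonneg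
  have hm1 : min (min e1 e2) e3 ≤ e1 := (min_le_left _ _).trans (min_le_left _ _)
  have hm2 : min (min e1 e2) e3 ≤ e2 := (min_le_left _ _).trans (min_le_right _ _)
  have hm3 : min (min e1 e2) e3 ≤ e3 := min_le_right _ _
  have henv1 := henv.mono hm1
  have henv2 := henv.mono hm2
  have henv3 := henv.mono hm3
  have hout1 := hout.mono (mul_le_mul_of_nonneg_right hm1 hN)
  have hout2 := hout.mono (mul_le_mul_of_nonneg_right hm2 hN)
  have hout3 := hout.mono (mul_le_mul_of_nonneg_right hm3 hN)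
  have keyQ : ∀ i, ∃ T : Finset W, (T.card : ℝ) ≤ 2 * (e'' / (2 * k + 1) * N) ∧ ∀ v, v ∉ U1 →
      δ * N < (((Q i).filter (fun w => R.Adj v w ∨ B.Adj v w)).card : ℝ) → v ∈ T := by
    intro i
    obtain ⟨T, hT, hT'⟩ := ee3_unit δ (e'' / (2 * k + 1)) N B R (Q i) (Z i) U1
        ((hout.subQ i).trans (fun v hv => (mem_eP.mp hv).1)) (hout.subZ i)
        (univ.filter (fun v => v ∉ Q i ∧ δ / 2 * N ≤ ((nb B v (Q i)).card : ℝ)))
        (univ.filter (fun v => v ∉ Q i ∧ v ∉ Z i ∧ δ / 2 * N ≤ ((nb R v (Q i)).card : ℝ)))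
        (fun v hv hv' => mem_filter.mpr ⟨mem_univ _, hv, hv'⟩)
        (fun v hv hz hv' => mem_filter.mpr ⟨mem_univ _, hv, hz, hv'⟩)
        (h1 W B R M y x N henv1.swap (Q i) (Z i) (hout1.unit i))
        (h2 W B R M y x N henv2.swap (Q i) (Z i) (hout2.unit i))
    refine ⟨T, hT, fun v hv hlt => hT' v hv (lt_of_lt_of_le hlt ?_)⟩
    norm_cast
    apply card_le_card
    intro w hw
    rw [mem_filter] at hw ⊢
    exact ⟨hw.1, by tauto⟩
  have keyS : ∀ p : Bool × Fin r, ∃ T : Finset W, (T.card : ℝ) ≤ e'' / (2 * k + 1) * N ∧ ∀ v, v ∉ U1 →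
      δ * N < (((S p.1 p.2).filter (fun w => R.Adj v w ∨ B.Adj v w)).card : ℝ) → v ∈ T := by
    rintro ⟨τ, j⟩
    have hr : 0 < r := lt_of_le_of_lt (Nat.zero_le _) j.2
    refine ⟨univ.filter (fun v => v ∉ S τ j ∧ δ * N ≤ ((nb R v (S τ j)).card : ℝ)), ?_, ?_⟩
    · exact h3 W R B M x y N henv3 (S τ j) (hout3.sizeS τ j) (hout3.ratioS hr) (hout3.nearS τ j)
    · intro v hv hlt
      rw [mem_filter]
      refine ⟨mem_univ _, fun h => hv (mem_eX.mp (hout.subS τ j h)).1, hlt.le.trans ?_⟩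
      norm_cast
      apply card_le_card
      intro w hw
      rw [mem_filter] at hw
      rw [mem_nb]
      refine ⟨hw.1, ?_⟩
      rcases hw.2 with h | h
      · exact h
      · exfalso
        have hw1 := (mem_eX.mp (hout.subS τ j hw.1)).2
        have hw2 := (hlab v w h).2
        rw [hw2] at hw1
        exact absurd hw1 (by simp)
  choose TQ hTQ hTQ' using keyQ
  choose TS hTS hTS' using keyS
  set F : Finset W := univ.filter (fun v => v ∉ U1 ∧ ((∃ i, δ * N < (((Q i).filter (fun w => R.Adj v w ∨ B.Adj v w)).card : ℝ)) ∨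
        ∃ τ j, δ * N < (((S τ j).filter (fun w => R.Adj v w ∨ B.Adj v w)).card : ℝ))) with hF
  have hsub : F ⊆ (univ : Finset (Fin b)).biUnion TQ ∪ (univ : Finset (Bool × Fin r)).biUnion TS := by
    intro v hv
    rw [hF, mem_filter] at hv
    obtain ⟨-, hv, hor⟩ := hv
    rcases hor with ⟨i, hi⟩ | ⟨τ, j, hj⟩
    · exact mem_union_left _ (mem_biUnion.mpr ⟨i, mem_univ _, hTQ' i v hv hi⟩)
    · exact mem_union_right _ (mem_biUnion.mpr ⟨(τ, j), mem_univ _, hTS' (τ, j) v hv hj⟩)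
  have hcard : (F.card : ℝ) ≤ ∑ i : Fin b, ((TQ i).card : ℝ) + ∑ p : Bool × Fin r, ((TS p).card : ℝ) := by
    have h4 := (card_le_card hsub).trans ((card_union_le _ _).trans (Nat.add_le_add card_biUnion_le card_biUnion_le))
    exact_mod_cast h4
  have hsumQ : ∑ i : Fin b, ((TQ i).card : ℝ) ≤ b * (2 * (e'' / (2 * k + 1) * N)) := by
    have := Finset.sum_le_sum (fun i (_ : i ∈ (univ : Finset (Fin b))) => hTQ i)
    simpa using this
  have hsumS : ∑ p : Bool × Fin r, ((TS p).card : ℝ) ≤ (2 * r) * (e'' / (2 * k + 1) * N) := by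
    have := Finset.sum_le_sum (fun p (_ : p ∈ (univ : Finset (Bool × Fin r))) => hTS p)
    simpa using this
  have hkk : (b : ℝ) + r = k := by exact_mod_cast hbr
  have hfin : (b : ℝ) * (2 * (e'' / (2 * k + 1) * N)) + (2 * r) * (e'' / (2 * k + 1) * N) ≤ e'' * N := by
    have h5 : (b : ℝ) * (2 * (e'' / (2 * k + 1) * N)) + (2 * r) * (e'' / (2 * k + 1) * N) = (2 * k / (2 * k + 1)) * (e'' * N) := by
      rw [← hkk]
      field_simp
    rw [h5]
    have h6 : (2 * (k : ℝ)) / (2 * k + 1) ≤ 1 := by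
      rw [div_le_one hk]
      linarith
    have h7 : 0 ≤ e'' * N := mul_nonneg he''.le hN
    nlinarith
  linarith

/-- all cliques are large: `unit_big` (colours exchanged) and the same computation for `S τ j` -/
theorem EO_big {W : Type} [Fintype W] [DecidableEq W] (R B : SimpleGraph W) (M : W → W → Prop) (x y N e c : ℝ) (lb : W → Option Bool)
    (henv : Env R B M x y N e c) (hec : e ≤ c / 6) (U1 : Finset W) (b r : ℕ) (Q Z : Fin b → Finset W) (S : Bool → Fin r → Finset W)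
    (h : EOOut R B lb x y (e * N) b r U1 Q Z S) : (∀ i, c / 3 * N ≤ (Q i).card) ∧ ∀ τ j, c / 3 * N ≤ (S τ j).card := by
  refine ⟨fun i => unit_big B R M y x N e c henv.swap hec (Q i) (Z i) (h.unit i), fun τ j => ?_⟩
  have hr : 0 < r := lt_of_le_of_lt (Nat.zero_le _) j.2
  have hN := henv.N_nonneg
  have hone := henv.one
  have h1 := h.sizeS τ j
  have h2 := h.ratioS hr
  have h3 : e * N ≤ c / 6 * N := mul_le_mul_of_nonneg_right hec hN
  rcases le_max_iff.mp henv.big with hx | hy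
  · nlinarith
  · nlinarith

end Pool.Agent.Lib.MP_779bc2_co
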