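import Pool.Agent.Lib.MP_779bc2_co.EO3b
import Pool.Agent.Lib.MP_779bc2_co.EO4

/-! Row EO5 (about 230 lines): the new blue unit -/

set_option autoImplicit false

namespace Pool.Agent.Lib.MP_779bc2_co

open Finset

/-- Two disjoint near-cliques, each empty or with more than `2 r` elements, all elements in one component: `self_map` for each, glued (`φ = φ1` on `A1`, `φ2` on `A2`). -/
theorem two_cliques {W : Type} [Fintype W] [DecidableEq W] (G : SimpleGraph W) (x r : ℝ) (zG : ZLe G x) (A : Bool → Finset W) (hr : 0 ≤ r)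
    (hd : Disjoint (A true) (A false)) (hnear : ∀ τ, ∀ q ∈ A τ, ((nn G q (A τ)).card : ℝ) ≤ r)
    (hbig : ∀ τ, A τ = ∅ ∨ 2 * r < (A τ).card) (hreach : ∀ u ∈ A true ∪ A false, ∀ w ∈ A true ∪ A false, G.Reachable u w) :
    ((A true).card : ℝ) + (A false).card ≤ x := by
  classical
  have h1 : ∀ τ, ∃ φ : W → W, Set.InjOn φ (A τ) ∧ ∀ q ∈ A τ, φ q ∈ A τ ∧ G.Adj q (φ q) := by
    intro τ
    rcases hbig τ with h | h
    · refine ⟨id, Set.injOn_id _, fun q hq => ?_⟩
      rw [h] at hq
      exact absurd hq (notMem_empty q)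
    · exact self_map G (A τ) r (hnear τ) h
  choose φ hφ hφ2 using h1
  have hdis : ∀ q, q ∈ A true → q ∉ A false := fun q h h' => (disjoint_left.mp hd) h h'
  set ψ : W → W := fun q => if q ∈ A true then φ true q else φ false q with hψ
  have hψ1 : ∀ q ∈ A true, ψ q = φ true q := fun q hq => by rw [hψ]; simp [hq]
  have hψ2 : ∀ q ∈ A false, ψ q = φ false q := fun q hq => by
    have : q ∉ A true := fun h => hdis q h hq
    rw [hψ]; simp [this]
  have hmain := zG (A true ∪ A false) ψ ?_ ?_ hreach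
  · rw [card_union_of_disjoint hd] at hmain
    push_cast at hmain
    exact hmain
  · intro u hu w hw huw
    rcases mem_union.mp (mem_coe.mp hu) with hu1 | hu1
    · rcases mem_union.mp (mem_coe.mp hw) with hw1 | hw1
      · rw [hψ1 u hu1, hψ1 w hw1] at huw
        exact hφ true hu1 hw1 huw
      · rw [hψ1 u hu1, hψ2 w hw1] at huw
        exfalso
        exact hdis _ (hφ2 true u hu1).1 (huw ▸ (hφ2 false w hw1).1)
    · rcases mem_union.mp (mem_coe.mp hw) with hw1 | hw1
      · rw [hψ2 u hu1, hψ1 w hw1] at huw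
        exfalso
        exact hdis _ (hφ2 true w hw1).1 (huw ▸ (hφ2 false u hu1).1)
      · rw [hψ2 u hu1, hψ2 w hw1] at huw
        exact hφ false hu1 hw1 huw
  · intro u hu
    rcases mem_union.mp hu with hu1 | hu1
    · rw [hψ1 u hu1]; exact (hφ2 true u hu1).2
    · rw [hψ2 u hu1]; exact (hφ2 false u hu1).2

/-- If `V` is contained in the closed neighbourhood and the `M`-neighbourhood of a vertex `v0` without label, then `V` contains a number of vertices without label. Otherwise let `A τ = eX lb V τ` if it has more than `3 e N` elements and `A τ = ∅` otherwise. The elements of `A τ` are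
isolated in `B`, so they are `R`-adjacent to `v0` or `M`-related to `v0`; `A τ` is a near-clique of `R` (`r = e N`), by `near_reach` all its elements are reachable from `v0`. By `two_cliques` `|A true| + |A false| ≤ x`, but
`|A true| + |A false| ≥ |V| - |eP lb V| - 6 e N ≥ fe - e N - e3 N - 6 e N > x` (`fe_sub_ge`). -/
theorem EO_noP (c : ℝ) (hc : 0 < c) : ∃ e > (0 : ℝ), ∃ e3 > (0 : ℝ), ∀ (W : Type) [Fintype W] [DecidableEq W]
    (R B : SimpleGraph W) (M : W → W → Prop) (x y N : ℝ) (lb : W → Option Bool), Env R B M x y N e c → LabB B lb →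
    ∀ (V : Finset W) (v0 : W), (∀ τ, ∀ u ∈ eV lb V τ, ∀ w ∈ eV lb V τ, M u w ∨ R.Adj u w ∨ B.Adj u w) →
      (∀ w ∈ V, w = v0 ∨ M v0 w ∨ R.Adj v0 w ∨ B.Adj v0 w) → lb v0 = none → fe x y - 2 * e * N ≤ V.card → e3 * N < (eP lb V).card := by
  classical
  refine ⟨c / 64, by positivity, c / 8, by positivity, ?_⟩
  intro W _ _ R B M x y N lb henv hlab V v0 hcomp hcl hv0 hV
  by_contra hP
  have hP' : ((eP lb V).card : ℝ) ≤ c / 8 * N := not_lt.mp hP
  have hN0 := henv.N_nonneg
  have hone := henv.one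
  have hN : 0 < N := by
    rcases hN0.lt_or_eq with h | h
    · exact h
    · exfalso
      rw [← h, mul_zero] at hone
      linarith
  set r : ℝ := c / 64 * N with hr
  have hr0 : 0 < r := by positivity
  set A : Bool → Finset W := fun τ => if 3 * r < ((eX lb V τ).card : ℝ) then eX lb V τ else ∅ with hA
  have hAX : ∀ τ, A τ ⊆ eX lb V τ := by
    intro τ
    rw [hA]
    dsimp only
    split_ifs
    · exact Subset.refl _
    · exact empty_subset _
  have hAor : ∀ τ, A τ = ∅ ∨ 3 * r < ((A τ).card : ℝ) := by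
    intro τ
    rw [hA]
    dsimp only
    split_ifs with h
    · exact Or.inr h
    · exact Or.inl rfl
  have hAc : ∀ τ, ((eX lb V τ).card : ℝ) ≤ (A τ).card + 3 * r := by
    intro τ
    rw [hA]
    dsimp only
    split_ifs with h
    · linarith
    · simp only [card_empty, Nat.cast_zero, zero_add]
      exact not_lt.mp h
  have hXV : ∀ τ, ∀ q ∈ eX lb V τ, q ∈ eV lb V τ := fun τ q hq => by
    rw [mem_eX] at hq
    rw [mem_eV]
    exact ⟨hq.1, Or.inr hq.2⟩
  have hMR : ∀ τ, ∀ q ∈ eX lb V τ, ∀ w ∈ eX lb V τ, M q w ∨ R.Adj q w := fun τ q hq w hw =>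
    eo3a_R hlab hcomp τ (hXV τ q hq) (hXV τ w hw) (Or.inl (mem_eX.mp hq).2)
  have hv0R : ∀ τ, ∀ w ∈ eX lb V τ, M v0 w ∨ R.Adj v0 w := by
    intro τ w hw
    rw [mem_eX] at hw
    rcases hcl w hw.1 with h | h | h | h
    · rw [h, hv0] at hw
      exact absurd hw.2 (by simp)
    · exact Or.inl h
    · exact Or.inr h
    · have := (hlab v0 w h).2
      rw [this] at hw
      exact absurd hw.2 (by simp)
  have hnear : ∀ τ, ∀ q ∈ A τ, ((nn R q (A τ)).card : ℝ) ≤ r := by
    intro τ q hq
    have h1 : nn R q (A τ) ⊆ univ.filter (fun w => M q w) := by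
      intro w hw
      rw [mem_nn] at hw
      rw [mem_filter]
      refine ⟨mem_univ _, ?_⟩
      rcases hMR τ q (hAX τ hq) w (hAX τ hw.1) with h | h
      · exact h
      · exact absurd h hw.2
    have h2 : ((nn R q (A τ)).card : ℝ) ≤ ((univ.filter (fun w => M q w)).card : ℝ) := by
      exact_mod_cast card_le_card h1
    have h3 : ((univ.filter (fun w => M q w)).card : ℝ) ≤ r := by
      have := henv.mis.card q
      convert this
    linarith
  have hbig : ∀ τ, A τ = ∅ ∨ 2 * r < (A τ).card := by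
    intro τ
    rcases hAor τ with h | h
    · exact Or.inl h
    · right
      linarith
  have hv0reach : ∀ τ, ∀ q ∈ A τ, R.Reachable v0 q := by
    intro τ q hq
    have h1 : 3 * r < ((A τ).card : ℝ) := by
      rcases hAor τ with h | h
      · rw [h] at hq
        exact absurd hq (notMem_empty q)
      · exact h
    obtain ⟨w, hw, hMw⟩ := eo3a_ex henv.mis v0 (A τ) (by
      show c / 64 * N < _
      linarith)
    have h2 : R.Adj v0 w := by
      rcases hv0R τ w (hAX τ hw) with h | h
      · exact absurd h hMw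
      · exact h
    exact h2.reachable.trans (near_reach R (A τ) r (hnear τ) (by linarith) w hw q hq)
  have hreach : ∀ u ∈ A true ∪ A false, ∀ w ∈ A true ∪ A false, R.Reachable u w := by
    have h1 : ∀ u ∈ A true ∪ A false, R.Reachable v0 u := by
      intro u hu
      rcases mem_union.mp hu with h | h
      · exact hv0reach true u h
      · exact hv0reach false u h
    intro u hu w hw
    exact (h1 u hu).symm.trans (h1 w hw)
  have hdis : Disjoint (A true) (A false) := by
    rw [disjoint_left]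
    intro q h1 h2
    have h3 := (mem_eX.mp (hAX true h1)).2
    have h4 := (mem_eX.mp (hAX false h2)).2
    rw [h3] at h4
    exact absurd h4 (by simp)
  have hx := two_cliques R x r henv.zR A hr0.le hdis hnear hbig hreach
  have hcover : V ⊆ eP lb V ∪ (eX lb V true ∪ eX lb V false) := by
    intro v hv
    rw [mem_union, mem_union, mem_eP, mem_eX, mem_eX]
    rcases hl : lb v with _ | τ
    · exact Or.inl ⟨hv, rfl⟩
    · rcases τ with _ | _
      · exact Or.inr (Or.inr ⟨hv, rfl⟩)
      · exact Or.inr (Or.inl ⟨hv, rfl⟩)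
  have hcard : (V.card : ℝ) ≤ (eP lb V).card + ((eX lb V true).card + (eX lb V false).card) := by
    have c1 := (card_le_card hcover).trans ((card_union_le _ _).trans
      (Nat.add_le_add_left (card_union_le _ _) _))
    exact_mod_cast c1
  have hfe := fe_sub_ge x y c N (by linarith [henv.x2]) hN0 hc.le henv.big
  have h1 := hAc true
  have h2 := hAc false
  have h3 : 0 < c * N := by positivity
  have h4 : r = c * N / 64 := by rw [hr]; ring
  have h5 : 2 * (c / 64) * N = c * N / 32 := by ring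
  have h6 : c / 8 * N = c * N / 8 := by ring
  have h7 : c / 2 * N = c * N / 2 := by ring
  rw [h5] at hV
  rw [h6] at hP'
  rw [h7] at hfe
  rw [h4] at h1 h2
  linarith

/-- As `EE_new`. Let `e3`, `ea` be the constants of `EO_noP`, `e1` the constant of `EO_S1` for `c`, `min e' e3`; `δ = min e' (c / (12 (k + 2)))`, `e'' = min (e1/2) (ea)`; `V = U \ U1` without the vertices of `EO_few` (at most `e'' N`). For each `τ` the set `eV lb V τ` is complete up to `M`:
`complete_of_cliques` in `eV lb U τ` for the `k = b + r` cliques `Q i`, `S τ j` (as a family on `Fin (b + r)`, `Fin.append` or `finSumFinEquiv`), `E = δ N`, `EO_big`. `EO_S1` for `V`: the second alternative is excluded by `EO_noP`. -/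
theorem EO_new (k : ℕ) (c e' : ℝ) (hc : 0 < c) (he' : 0 < e') : ∃ e > (0 : ℝ), ∀ (W : Type) [Fintype W] [DecidableEq W]
    (R B : SimpleGraph W) (M : W → W → Prop) (x y N : ℝ) (lb : W → Option Bool), Env R B M x y N e c → LabB B lb →
    ∀ U U1 : Finset W, U1 ⊆ U → (∀ τ, IndLe R B M (eV lb U τ) (k + 1)) →
    ∀ (b r : ℕ) (Q Z : Fin b → Finset W) (S : Bool → Fin r → Finset W), b + r = k → EOOut R B lb x y (e * N) b r U1 Q Z S →
    ∀ v0, lb v0 = none → (∀ w ∈ U \ U1, w = v0 ∨ M v0 w ∨ R.Adj v0 w ∨ B.Adj v0 w) → fe x y - e * N ≤ (U \ U1).card →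
      ∃ Q0 ⊆ eP lb (U \ U1), ∃ Z0 ⊆ U \ U1, IsUnit' B R y x (e' * N) Q0 Z0 ∧
        (∀ i, CrossLe R B (e' * N) Q0 (Q i)) ∧ ∀ τ j, CrossLe R B (e' * N) Q0 (S τ j) := by
  classical
  obtain ⟨ea, hea, e3, he3, hnoP⟩ := EO_noP c hc
  obtain ⟨e1, he1, hS1⟩ := EO_S1 c (min e' e3) hc (lt_min he' he3)
  have ha2 : (0 : ℝ) < 12 * ((k : ℝ) + 2) := by positivity
  set δ : ℝ := min e' (c / (12 * ((k : ℝ) + 2))) with hδdef
  have hδ : 0 < δ := lt_min he' (div_pos hc ha2)
  set e'' : ℝ := min (e1 / 2) ea with he''def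
  have he'' : 0 < e'' := lt_min (by linarith) hea
  obtain ⟨e2, he2, hfew⟩ := EO_few k c δ e'' hc hδ he''
  refine ⟨min (min e2 e'') (min (c / 6) δ), ?_, ?_⟩
  · exact lt_min (lt_min he2 he'') (lt_min (by linarith) hδ)
  set e : ℝ := min (min e2 e'') (min (c / 6) δ) with hedef
  have hee2 : e ≤ e2 := (min_le_left _ _).trans (min_le_left _ _)
  have hee'' : e ≤ e'' := (min_le_left _ _).trans (min_le_right _ _)
  have hec : e ≤ c / 6 := (min_le_right _ _).trans (min_le_left _ _)
  have heδ : e ≤ δ := (min_le_right _ _).trans (min_le_right _ _)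
  have he1'' : e'' ≤ e1 / 2 := min_le_left _ _
  have hea'' : e'' ≤ ea := min_le_right _ _
  intro W _ _ R B M x y N lb henv hlab U U1 hU1 hind b r Q Z S hbr hout v0 hv0 hcl hcard
  have hN := henv.N_nonneg
  have hNpos : 0 < N := by
    rcases hN.lt_or_eq with h | h
    · exact h
    · exfalso
      have := henv.one
      rw [← h] at this
      norm_num at this
  set H : Finset W := univ.filter (fun v => v ∉ U1 ∧ ((∃ i, δ * N < (((Q i).filter (fun w => R.Adj v w ∨ B.Adj v w)).card : ℝ)) ∨
        ∃ τ j, δ * N < (((S τ j).filter (fun w => R.Adj v w ∨ B.Adj v w)).card : ℝ))) with hH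
  have hHc : (H.card : ℝ) ≤ e'' * N := by
    have := hfew W R B M x y N lb (henv.mono hee2) hlab U1 b r Q Z S hbr (hout.mono (mul_le_mul_of_nonneg_right hee2 hN))
    convert this
  obtain ⟨hQbig, hSbig⟩ := EO_big R B M x y N e c lb henv hec U1 b r Q Z S hout
  have hVdegQ : ∀ v ∈ (U \ U1) \ H, ∀ j, (((Q j).filter (fun z => R.Adj v z ∨ B.Adj v z)).card : ℝ) ≤ δ * N := by
    intro v hv j
    by_contra hlt
    rw [mem_sdiff, mem_sdiff] at hv
    exact hv.2 (mem_filter.mpr ⟨mem_univ _, hv.1.2, Or.inl ⟨j, not_le.mp hlt⟩⟩)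
  have hVdegS : ∀ v ∈ (U \ U1) \ H, ∀ τ j, (((S τ j).filter (fun z => R.Adj v z ∨ B.Adj v z)).card : ℝ) ≤ δ * N := by
    intro v hv τ j
    by_contra hlt
    rw [mem_sdiff, mem_sdiff] at hv
    exact hv.2 (mem_filter.mpr ⟨mem_univ _, hv.1.2, Or.inr ⟨τ, j, not_le.mp hlt⟩⟩)
  have hsmall : ((k : ℝ) + 2) * (δ * N + e * N) < c / 3 * N := by
    have h1 : δ ≤ c / (12 * ((k : ℝ) + 2)) := min_le_right _ _
    have h2 : δ * (12 * ((k : ℝ) + 2)) ≤ c := (le_div_iff₀ ha2).mp h1
    have h3 : e * N ≤ δ * N := mul_le_mul_of_nonneg_right heδ hN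
    have h4 : ((k : ℝ) + 2) * (δ * N + e * N) ≤ ((k : ℝ) + 2) * (2 * (δ * N)) := by
      apply mul_le_mul_of_nonneg_left _ (by positivity)
      linarith
    have h5 : ((k : ℝ) + 2) * (2 * (δ * N)) = (δ * (12 * ((k : ℝ) + 2))) * N / 6 := by ring
    have h6 : (δ * (12 * ((k : ℝ) + 2))) * N ≤ c * N := mul_le_mul_of_nonneg_right h2 hN
    have h7 : 0 < c * N := mul_pos hc hNpos
    linarith
  have hkk : ((b + r : ℕ) : ℝ) = k := by exact_mod_cast hbr
  have hcomplete : ∀ τ, ∀ u ∈ eV lb ((U \ U1) \ H) τ, ∀ w ∈ eV lb ((U \ U1) \ H) τ, M u w ∨ R.Adj u w ∨ B.Adj u w := by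
    intro τ u hu w hw
    rw [mem_eV] at hu hw
    have huU : u ∈ eV lb U τ := mem_eV.mpr ⟨(mem_sdiff.mp (mem_sdiff.mp hu.1).1).1, hu.2⟩
    have hwU : w ∈ eV lb U τ := mem_eV.mpr ⟨(mem_sdiff.mp (mem_sdiff.mp hw.1).1).1, hw.2⟩
    refine complete_of_cliques R B M (e * N) (δ * N) henv.mis (mul_nonneg hδ.le hN) (eV lb U τ) (b + r)
      (by rw [hbr]; exact hind τ) (Fin.append Q (S τ)) ?_ ?_ ?_ u w huU hwU ?_ ?_
    · intro i
      refine Fin.addCases (fun i => ?_) (fun j => ?_) i
      · rw [Fin.append_left]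
        intro v hv
        have := mem_eP.mp (hout.subQ i hv)
        exact mem_eV.mpr ⟨hU1 this.1, Or.inl this.2⟩
      · rw [Fin.append_right]
        intro v hv
        have := mem_eX.mp (hout.subS τ j hv)
        exact mem_eV.mpr ⟨hU1 this.1, Or.inr this.2⟩
    · intro i j
      refine Fin.addCases (fun i => ?_) (fun i => ?_) i
      · refine Fin.addCases (fun j => ?_) (fun j => ?_) j
        · intro hij
          rw [Fin.append_left, Fin.append_left]
          exact (hout.crossQ i j (fun h => hij (by rw [h]))).mono (mul_le_mul_of_nonneg_right heδ hN)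
        · intro _
          rw [Fin.append_left, Fin.append_right]
          exact (hout.crossQS i τ j).mono (mul_le_mul_of_nonneg_right heδ hN)
      · refine Fin.addCases (fun j => ?_) (fun j => ?_) j
        · intro _
          rw [Fin.append_right, Fin.append_left]
          exact (hout.crossSQ j τ i).mono (mul_le_mul_of_nonneg_right heδ hN)
        · intro hij
          rw [Fin.append_right, Fin.append_right]
          refine (hout.crossS (τ, i) (τ, j) (fun h => hij ?_)).mono (mul_le_mul_of_nonneg_right heδ hN)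
          have h2 : i = j := (Prod.mk.inj h).2
          rw [h2]
    · intro i
      rw [hkk]
      refine Fin.addCases (fun i => ?_) (fun j => ?_) i
      · rw [Fin.append_left]
        exact lt_of_lt_of_le hsmall (hQbig i)
      · rw [Fin.append_right]
        exact lt_of_lt_of_le hsmall (hSbig τ j)
    · intro i
      refine Fin.addCases (fun i => ?_) (fun j => ?_) i
      · rw [Fin.append_left]
        refine le_trans (le_of_eq ?_) (hVdegQ u hu.1 i)
        congr!
      · rw [Fin.append_right]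
        refine le_trans (le_of_eq ?_) (hVdegS u hu.1 τ j)
        congr!
    · intro i
      refine Fin.addCases (fun i => ?_) (fun j => ?_) i
      · rw [Fin.append_left]
        refine le_trans (le_of_eq ?_) (hVdegQ w hw.1 i)
        congr!
      · rw [Fin.append_right]
        refine le_trans (le_of_eq ?_) (hVdegS w hw.1 τ j)
        congr!
  have hVcard0 : ((U \ U1).card : ℝ) ≤ (((U \ U1) \ H).card : ℝ) + H.card := by
    have := Finset.le_card_sdiff H (U \ U1)
    have h2 : (U \ U1).card ≤ ((U \ U1) \ H).card + H.card := by omega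
    exact_mod_cast h2
  have q1 : e * N ≤ e'' * N := mul_le_mul_of_nonneg_right hee'' hN
  have q2 : e'' * N ≤ e1 / 2 * N := mul_le_mul_of_nonneg_right he1'' hN
  have q3 : e'' * N ≤ ea * N := mul_le_mul_of_nonneg_right hea'' hN
  have hVcard : fe x y - e1 * N ≤ (((U \ U1) \ H).card : ℝ) := by linarith
  obtain ⟨Q0, hQ0, Z0, hZ0, hunit⟩ | hP := hS1 W R B M x y N lb (henv.mono (by linarith)) hlab ((U \ U1) \ H) hcomplete hVcard
  · have hQ0V : ∀ q ∈ Q0, q ∈ (U \ U1) \ H := fun q hq => (mem_eP.mp (hQ0 hq)).1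
    have hle : δ * N ≤ e' * N := mul_le_mul_of_nonneg_right (min_le_left _ _) hN
    refine ⟨Q0, ?_, Z0, hZ0.trans sdiff_subset, hunit.mono (mul_le_mul_of_nonneg_right (min_le_left _ _) hN), ?_, ?_⟩
    · intro q hq
      have := mem_eP.mp (hQ0 hq)
      exact mem_eP.mpr ⟨(mem_sdiff.mp this.1).1, this.2⟩
    · intro i q hq
      refine le_trans ?_ hle
      refine le_trans (le_of_eq ?_) (hVdegQ q (hQ0V q hq) i)
      congr!
    · intro τ j q hq
      refine le_trans ?_ hle
      refine le_trans (le_of_eq ?_) (hVdegS q (hQ0V q hq) τ j)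
      congr!
  · exfalso
    have h1 := hnoP W R B M x y N lb (henv.mono (hee''.trans hea'')) hlab ((U \ U1) \ H) v0 hcomplete
      (fun w hw => hcl w (mem_sdiff.mp hw).1) hv0 (by linarith)
    have h2 : min e' e3 * N ≤ e3 * N := mul_le_mul_of_nonneg_right (min_le_right _ _) hN
    linarith

end Pool.Agent.Lib.MP_779bc2_co
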