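import Pool.Agent.Lib.MP_779bc2_co.EO4

/-! Row EO6 (about 180 lines): adding the new blue unit -/

set_option autoImplicit false

namespace Pool.Agent.Lib.MP_779bc2_co

open Finset

theorem eo6_cross_sub {W : Type} [Fintype W] [DecidableEq W] {R B : SimpleGraph W} {E E' : ℝ} {Q Q' P P' : Finset W}
    (h : CrossLe R B E Q P) (hE : E ≤ E') (hQ : Q' ⊆ Q) (hP : P' ⊆ P) : CrossLe R B E' Q' P' := fun q hq => by
  classical
  refine le_trans ?_ ((h q (hQ hq)).trans hE)
  exact_mod_cast card_le_card (filter_subset_filter _ hP)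

theorem eo6_cross_new {W : Type} [Fintype W] [DecidableEq W] {R B : SimpleGraph W} {δ E : ℝ} {Q P : Finset W}
    (hR : ∀ q ∈ Q, ((nb R q P).card : ℝ) ≤ δ) (hB : ∀ q ∈ Q, ((nb B q P).card : ℝ) ≤ δ) (hE : 2 * δ ≤ E) :
    CrossLe R B E Q P := fun q hq => by
  classical
  have h1 : (P.filter (fun w => R.Adj q w ∨ B.Adj q w)) ⊆ nb R q P ∪ nb B q P := by
    intro w hw
    rw [mem_filter] at hw
    rw [mem_union, mem_nb, mem_nb]
    tauto
  have h2 : ((P.filter (fun w => R.Adj q w ∨ B.Adj q w)).card : ℝ) ≤ (nb R q P).card + (nb B q P).card := by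
    exact_mod_cast (card_le_card h1).trans (card_union_le _ _)
  have h3 := hR q hq
  have h4 := hB q hq
  refine le_trans ?_ (show (nb R q P).card + (nb B q P).card ≤ E by linarith)
  convert h2

open Classical in
/-- the bad set for a new unit -/
theorem eo6_few (c δ e'' : ℝ) (hc : 0 < c) (hδ : 0 < δ) (he'' : 0 < e'') : ∃ e > (0 : ℝ), ∀ (W : Type) [Fintype W] [DecidableEq W]
    (R B : SimpleGraph W) (M : W → W → Prop) (x y N : ℝ), Env R B M x y N e c → ∀ Q Z, IsUnit' R B x y (e * N) Q Z →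
      ∃ D : Finset W, (D.card : ℝ) ≤ 2 * (e'' * N) ∧ ∀ v, v ∉ Q → v ∉ Z → v ∉ D →
        ((nb R v Q).card : ℝ) ≤ δ * N ∧ ((nb B v Q).card : ℝ) ≤ δ * N := by
  obtain ⟨e1, he1, h1⟩ := unit_few1 c δ e'' hc hδ he''
  obtain ⟨e2, he2, h2⟩ := unit_few2 c δ e'' hc hδ he''
  refine ⟨min e1 e2, lt_min he1 he2, ?_⟩
  intro W _ _ R B M x y N henv Q Z hU
  have hN := henv.N_nonneg
  have a1 := h1 W R B M x y N (henv.mono (min_le_left _ _)) Q Z
    (hU.mono (mul_le_mul_of_nonneg_right (min_le_left _ _) hN))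
  have a2 := h2 W R B M x y N (henv.mono (min_le_right _ _)) Q Z
    (hU.mono (mul_le_mul_of_nonneg_right (min_le_right _ _) hN))
  refine ⟨(univ.filter (fun v => v ∉ Q ∧ δ * N ≤ ((nb R v Q).card : ℝ))) ∪
    (univ.filter (fun v => v ∉ Q ∧ v ∉ Z ∧ δ * N ≤ ((nb B v Q).card : ℝ))), ?_, ?_⟩
  · have h3 := card_union_le (univ.filter (fun v => v ∉ Q ∧ δ * N ≤ ((nb R v Q).card : ℝ)))
      (univ.filter (fun v => v ∉ Q ∧ v ∉ Z ∧ δ * N ≤ ((nb B v Q).card : ℝ)))
    have h4 : ((((univ.filter (fun v => v ∉ Q ∧ δ * N ≤ ((nb R v Q).card : ℝ))) ∪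
      (univ.filter (fun v => v ∉ Q ∧ v ∉ Z ∧ δ * N ≤ ((nb B v Q).card : ℝ)))).card : ℕ) : ℝ) ≤
        ((univ.filter (fun v => v ∉ Q ∧ δ * N ≤ ((nb R v Q).card : ℝ))).card : ℝ) +
        ((univ.filter (fun v => v ∉ Q ∧ v ∉ Z ∧ δ * N ≤ ((nb B v Q).card : ℝ))).card : ℝ) := by
      exact_mod_cast h3
    linarith
  · intro v hQ hZ hD
    rw [mem_union, not_or, mem_filter, mem_filter] at hD
    constructor
    · by_contra h
      exact hD.1 ⟨mem_univ _, hQ, (not_le.1 h).le⟩
    · by_contra h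
      exact hD.2 ⟨mem_univ _, hQ, hZ, (not_le.1 h).le⟩

/-- As `EE_add` (see `EE4.lean`). From every old clique (`Q i` and `S τ j`) remove the vertices with more than `(e'/4) N` neighbours of one of the two colours in `Q0` (`unit_few1`, `unit_few2` for the new unit, colours exchanged; the old cliques are disjoint from `Q0` and `Z0`, which lie in
`U \ U1`): at most `(e'/2) N` vertices. `unit_shrink` for the units; for the red cliques size, `nearS` and the rest are inherited with the error `e N + (e'/2) N ≤ e' N`. New family of units: `Fin.cons` (or `Fin.snoc`) of the new unit and the old ones. -/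
theorem EO_add (k : ℕ) (c e' : ℝ) (hc : 0 < c) (he' : 0 < e') : ∃ e > (0 : ℝ), ∀ (W : Type) [Fintype W] [DecidableEq W]
    (R B : SimpleGraph W) (M : W → W → Prop) (x y N : ℝ) (lb : W → Option Bool), Env R B M x y N e c → LabB B lb →
    ∀ U U1 : Finset W, U1 ⊆ U →
    ∀ (b r : ℕ) (Q Z : Fin b → Finset W) (S : Bool → Fin r → Finset W), b + r = k → EOOut R B lb x y (e * N) b r U1 Q Z S →
    ∀ Q0 ⊆ eP lb (U \ U1), ∀ Z0 ⊆ U \ U1, IsUnit' B R y x (e * N) Q0 Z0 →
      (∀ i, CrossLe R B (e * N) Q0 (Q i)) → (∀ τ j, CrossLe R B (e * N) Q0 (S τ j)) →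
        ∃ (Q' Z' : Fin (b + 1) → Finset W) (S' : Bool → Fin r → Finset W), EOOut R B lb x y (e' * N) (b + 1) r U Q' Z' S' := by
  obtain ⟨e1, he1, hfew⟩ := eo6_few c (e' / 4) (e' / 4) hc (by linarith) (by linarith)
  refine ⟨min e1 (e' / 4), lt_min he1 (by linarith), ?_⟩
  intro W _ _ R B M x y N lb henv hlb U U1 hU1 b r Q Z S hbr hout Q0 hQ0 Z0 hZ0 hunit hcrossQ hcrossS
  have hN := henv.N_nonneg
  have hle1 : min e1 (e' / 4) * N ≤ e1 * N := mul_le_mul_of_nonneg_right (min_le_left _ _) hN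
  have hle2 : min e1 (e' / 4) * N ≤ e' / 4 * N := mul_le_mul_of_nonneg_right (min_le_right _ _) hN
  have he0 : 0 ≤ min e1 (e' / 4) * N := mul_nonneg (lt_min he1 (by linarith)).le hN
  have heN : 0 ≤ e' * N := by positivity
  have hle3 : min e1 (e' / 4) * N ≤ e' * N := by linarith
  obtain ⟨D, hDc, hD⟩ : ∃ D : Finset W, (D.card : ℝ) ≤ e' / 2 * N ∧ ∀ v, v ∉ Q0 → v ∉ Z0 → v ∉ D →
      ((nb R v Q0).card : ℝ) ≤ e' / 4 * N ∧ ((nb B v Q0).card : ℝ) ≤ e' / 4 * N := by
    obtain ⟨D, hDc, hD⟩ := hfew W B R M y x N (henv.mono (min_le_left _ _)).swap Q0 Z0 (hunit.mono hle1)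
    exact ⟨D, by linarith, fun v h1 h2 h3 => (hD v h1 h2 h3).symm⟩
  have hold : ∀ v ∈ U1, v ∉ Q0 ∧ v ∉ Z0 := fun v hv =>
    ⟨fun h => (mem_sdiff.1 (mem_eP.1 (hQ0 h)).1).2 hv, fun h => (mem_sdiff.1 (hZ0 h)).2 hv⟩
  have hQU : ∀ i, ∀ v ∈ Q i, v ∉ Q0 ∧ v ∉ Z0 := fun i v hv => hold v (mem_eP.1 (hout.subQ i hv)).1
  have hSU : ∀ τ j, ∀ v ∈ S τ j, v ∉ Q0 ∧ v ∉ Z0 := fun τ j v hv => hold v (mem_eX.1 (hout.subS τ j hv)).1
  have hsdiff : ∀ P : Finset W, ((P \ (P \ D)).card : ℝ) ≤ e' / 2 * N := by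
    intro P
    refine le_trans ?_ hDc
    have : P \ (P \ D) ⊆ D := by
      intro v hv
      rw [mem_sdiff, mem_sdiff] at hv
      by_contra h
      exact hv.2 ⟨hv.1, h⟩
    exact_mod_cast card_le_card this
  have hoN : ∀ P : Finset W, (∀ v ∈ P, v ∉ Q0 ∧ v ∉ Z0) → CrossLe R B (e' * N) (P \ D) Q0 := fun P hP =>
    eo6_cross_new (δ := e' / 4 * N)
      (fun q hq => (hD q (hP q (mem_sdiff.1 hq).1).1 (hP q (mem_sdiff.1 hq).1).2 (mem_sdiff.1 hq).2).1)
      (fun q hq => (hD q (hP q (mem_sdiff.1 hq).1).1 (hP q (mem_sdiff.1 hq).1).2 (mem_sdiff.1 hq).2).2)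
      (by linarith)
  have hdisj0 : ∀ i, Disjoint Q0 (Q i \ D) := by
    intro i
    rw [disjoint_left]
    intro v hv hv'
    exact (hQU i v (mem_sdiff.1 hv').1).1 hv
  refine ⟨Fin.cons Q0 (fun i => Q i \ D), Fin.cons Z0 Z, fun τ j => S τ j \ D, ?_, ?_, ?_, ?_, ?_, ?_, ?_, ?_, ?_, ?_, ?_, ?_, ?_⟩
  · intro i
    induction i using Fin.cases with
    | zero =>
      intro v hv
      have h1 := mem_eP.1 (hQ0 hv)
      exact mem_eP.2 ⟨(mem_sdiff.1 h1.1).1, h1.2⟩
    | succ i =>
      intro v hv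
      have h1 := mem_eP.1 (hout.subQ i (mem_sdiff.1 hv).1)
      exact mem_eP.2 ⟨hU1 h1.1, h1.2⟩
  · intro i
    induction i using Fin.cases with
    | zero => exact hZ0.trans sdiff_subset
    | succ i => exact (hout.subZ i).trans hU1
  · intro i
    induction i using Fin.cases with
    | zero => exact hunit.mono hle3
    | succ i =>
      exact (unit_shrink B R y x _ (e' / 2 * N) he0 (by positivity) (Q i) (Z i) (Q i \ D) (hout.unit i)
        sdiff_subset (hsdiff (Q i))).mono (by linarith)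
  · intro i j hij
    induction i using Fin.cases with
    | zero =>
      induction j using Fin.cases with
      | zero => exact absurd rfl hij
      | succ j => exact hdisj0 j
    | succ i =>
      induction j using Fin.cases with
      | zero => exact (hdisj0 i).symm
      | succ j =>
        have hij' : i ≠ j := fun h => hij (by rw [h])
        exact disjoint_of_subset_left sdiff_subset (disjoint_of_subset_right sdiff_subset (hout.disjQ i j hij'))
  · intro i j hij
    induction i using Fin.cases with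
    | zero =>
      induction j using Fin.cases with
      | zero => exact absurd rfl hij
      | succ j => exact eo6_cross_sub (hcrossQ j) hle3 (Subset.refl _) sdiff_subset
    | succ i =>
      induction j using Fin.cases with
      | zero => exact hoN (Q i) (hQU i)
      | succ j =>
        have hij' : i ≠ j := fun h => hij (by rw [h])
        exact eo6_cross_sub (hout.crossQ i j hij') hle3 sdiff_subset sdiff_subset
  · intro τ j v hv
    have h1 := mem_eX.1 (hout.subS τ j (mem_sdiff.1 hv).1)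
    exact mem_eX.2 ⟨hU1 h1.1, h1.2⟩
  · intro τ j
    have h1 := hout.sizeS τ j
    have h2 : ((S τ j).card : ℝ) ≤ ((S τ j \ D).card : ℝ) + D.card := by
      have := Finset.le_card_sdiff D (S τ j)
      have h3 : (S τ j).card ≤ (S τ j \ D).card + D.card := by omega
      exact_mod_cast h3
    linarith
  · intro τ j q hq
    refine le_trans ?_ ((hout.nearS τ j q (mem_sdiff.1 hq).1).trans hle3)
    norm_cast
    apply card_le_card
    intro w hw
    rw [mem_nn] at hw ⊢
    exact ⟨(mem_sdiff.1 hw.1).1, hw.2⟩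
  · intro hr
    have := hout.ratioS hr
    linarith
  · intro p p' hp
    exact disjoint_of_subset_left sdiff_subset (disjoint_of_subset_right sdiff_subset (hout.disjS p p' hp))
  · intro p p' hp
    exact eo6_cross_sub (hout.crossS p p' hp) hle3 sdiff_subset sdiff_subset
  · intro i τ j
    induction i using Fin.cases with
    | zero => exact eo6_cross_sub (hcrossS τ j) hle3 (Subset.refl _) sdiff_subset
    | succ i => exact eo6_cross_sub (hout.crossQS i τ j) hle3 sdiff_subset sdiff_subset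
  · intro i τ j
    induction i using Fin.cases with
    | zero => exact hoN (S τ j) (hSU τ j)
    | succ i => exact eo6_cross_sub (hout.crossSQ i τ j) hle3 sdiff_subset sdiff_subset

end Pool.Agent.Lib.MP_779bc2_co
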