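import Pool.Agent.Lib.MP_779bc2_co.EO1Upper
import Pool.Agent.Lib.MP_779bc2_co.EO2Case2
import Pool.Agent.Lib.MP_779bc2_co.EO5
import Pool.Agent.Lib.MP_779bc2_co.EO6

/-! Row EO7 (about 130 lines): structure theorem, red cycle even, blue cycle odd -/

set_option autoImplicit false

namespace Pool.Agent.Lib.MP_779bc2_co

open Finset

/-- As `EE_str` (see `EE5.lean`). Induction on `a`; `a = 0`: `b = r = 0`, empty families. Step `a → a + 1`: `e5` from `EO_add a c e'`, `e4` from `EO_new a c e5`, `ea` from the induction hypothesis for `min e4 e5`, `e2` from `EO_case2 (a+1) c e'`, `C` from `EO_upper a`; `e` such that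
`e ≤ e2`, `e ≤ e5`, `(C + 1) e ≤ e4`, `3 e ≤ ea`. If all `v ∈ U` without label have more than `th x y + 1` closed neighbours use `EO_case2`. Otherwise let `v0` be an exception, `V = U ∩ (cnb R B v0 U ∪ {w : M v0 w})`, `U1 = U \ V`: `IndLe R B M (eV lb U1 τ) a` (`IndLe.del`, `v0 ∈ eV lb U τ`), `|V| ≤ th x y + 2 e N ≤ fe x y + 2 e N`
(`th_le_fe`), so `|U1| ≥ a fe - 3 e N`: induction hypothesis. By `EO_upper a`, `|V| ≥ fe x y - (C + 1) e N`: `EO_new`, then `EO_add` (`EOOut.mono`, `Env.mono`); `(b + 1) + r = a + 1`. -/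
theorem EO_str (a : ℕ) : EOSt a := by
  classical
  induction a with
  | zero =>
    intro c hc e' he'
    refine ⟨1, one_pos, ?_⟩
    intro W _ _ R B M x y N lb henv hlab U hind hU
    refine ⟨0, 0, rfl, fun i => i.elim0, fun i => i.elim0, fun _ i => i.elim0, ?_⟩
    exact ⟨fun i => i.elim0, fun i => i.elim0, fun i => i.elim0, fun i => i.elim0,
        fun i => i.elim0, fun _ j => j.elim0, fun _ j => j.elim0, fun _ j => j.elim0,
        fun h => absurd h (lt_irrefl _), fun p => p.2.elim0, fun p => p.2.elim0,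
        fun i => i.elim0, fun i => i.elim0⟩
  | succ a ih =>
    intro c hc e' he'
    obtain ⟨e5, he5, h5⟩ := EO_add a c e' hc he'
    obtain ⟨e4, he4, h4⟩ := EO_new a c e5 hc he5
    obtain ⟨ea, hea, ha⟩ := ih c hc (min e4 e5) (lt_min he4 he5)
    obtain ⟨e2, he2, h2⟩ := EO_case2 (a + 1) c e' hc he'
    obtain ⟨C, hC0, hup⟩ := EO_upper a
    have hC1 : 0 < C + 1 := by linarith
    refine ⟨min (min e2 e5) (min (e4 / (C + 1)) (ea / 3)), by positivity, ?_⟩
    set e : ℝ := min (min e2 e5) (min (e4 / (C + 1)) (ea / 3)) with he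
    have hee2 : e ≤ e2 := (min_le_left _ _).trans (min_le_left _ _)
    have hee5 : e ≤ e5 := (min_le_left _ _).trans (min_le_right _ _)
    have hee4' : e ≤ e4 / (C + 1) := (min_le_right _ _).trans (min_le_left _ _)
    have heea' : e ≤ ea / 3 := (min_le_right _ _).trans (min_le_right _ _)
    have hee4 : e * (C + 1) ≤ e4 := (le_div_iff₀ hC1).mp hee4'
    have he0 : 0 < e := by positivity
    intro W _ _ R B M x y N lb henv hlab U hind hU
    have hN := henv.N_nonneg
    have hU' : ((a : ℝ) + 1) * fe x y - e * N ≤ U.card := by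
      have := hU
      push_cast at this
      exact this
    by_cases hbig : ∀ v ∈ U, lb v = none → th x y + 1 < ((cnb R B v U).card : ℝ)
    · refine h2 W R B M x y N lb (henv.mono hee2) hlab U hind hbig ?_
      have h1 : e * N ≤ e2 * N := mul_le_mul_of_nonneg_right hee2 hN
      linarith
    · push Not at hbig
      obtain ⟨v, hv, hlv, hcv⟩ := hbig
      set V : Finset W := U ∩ (cnb R B v U ∪ univ.filter (fun w => M v w)) with hV
      set U1 : Finset W := U \ V with hU1
      have hsub1 : U1 ⊆ U := sdiff_subset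
      have hVU : V ⊆ U := inter_subset_left
      have hind1 : ∀ τ, IndLe R B M (eV lb U1 τ) a := by
        intro τ
        refine (hind τ).del v (mem_eV.mpr ⟨hv, Or.inl hlv⟩) ?_ fun w hw => ?_
        · intro w hw
          rw [mem_eV] at hw ⊢
          exact ⟨hsub1 hw.1, hw.2⟩
        have hwU1 : w ∈ U1 := (mem_eV.mp hw).1
        have hwU : w ∈ U := hsub1 hwU1
        have hwV : w ∉ V := (mem_sdiff.mp hwU1).2
        have hw2 : w ∉ cnb R B v U ∪ univ.filter (fun w => M v w) := fun h =>
          hwV (mem_inter.mpr ⟨hwU, h⟩)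
        rw [mem_union, not_or, mem_cnb, not_or, mem_filter] at hw2
        obtain ⟨⟨q1, q2⟩, q3⟩ := hw2
        have q4 : ¬ M v w := fun h => q3 ⟨mem_univ _, h⟩
        refine ⟨q1, q4, fun h => q4 (henv.mis.symm _ _ h), fun h => q2 ⟨hwU, Or.inl h⟩,
          fun h => q2 ⟨hwU, Or.inr h⟩⟩
      have hx0 : 0 ≤ x := by linarith [henv.x2]
      have hy0 : 0 ≤ y := by linarith [henv.y2]
      have hthfe := th_le_fe x y hx0 hy0
      have hVc : (V.card : ℝ) ≤ fe x y + 2 * (e * N) := by
        have c1 : V.card ≤ (cnb R B v U).card + (univ.filter (fun w => M v w)).card :=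
          (card_le_card inter_subset_right).trans (card_union_le _ _)
        have c2 : (V.card : ℝ) ≤ ((cnb R B v U).card : ℝ)
            + ((univ.filter (fun w => M v w)).card : ℝ) := by exact_mod_cast c1
        have c3 : ((univ.filter (fun w => M v w)).card : ℝ) ≤ e * N := by
          have := henv.mis.card v
          convert this
        have c4 := henv.one
        linarith
      have hsum : (U1.card : ℝ) + V.card = U.card := by
        have := card_sdiff_add_card_eq_card hVU
        exact_mod_cast this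
      have hU1c : (a : ℝ) * fe x y - ea * N ≤ U1.card := by
        have c1 : e * N ≤ ea / 3 * N := mul_le_mul_of_nonneg_right heea' hN
        linarith
      obtain ⟨b, r, hbr, Q, Z, S, hout⟩ := ha W R B M x y N lb
        (henv.mono (heea'.trans (by linarith))) hlab U1 hind1 hU1c
      have hup1 := hup W R B M x y N e c lb henv hlab U1 hind1
      have hsd : ((U \ U1).card : ℝ) + U1.card = U.card := by
        have := card_sdiff_add_card_eq_card hsub1
        exact_mod_cast this
      have hdiff : fe x y - e4 * N ≤ (U \ U1).card := by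
        have c1 : e * (C + 1) * N ≤ e4 * N := mul_le_mul_of_nonneg_right hee4 hN
        nlinarith
      have hle4 : e ≤ e4 := by nlinarith
      have hnear : ∀ w ∈ U \ U1, w = v ∨ M v w ∨ R.Adj v w ∨ B.Adj v w := by
        intro w hw
        obtain ⟨hwU, hwU1⟩ := mem_sdiff.mp hw
        have hwV : w ∈ V := by
          by_contra h
          exact hwU1 (mem_sdiff.mpr ⟨hwU, h⟩)
        have h1 := (mem_inter.mp hwV).2
        rw [mem_union, mem_cnb, mem_filter] at h1
        rcases h1 with (h1 | h1) | h1
        · exact Or.inl h1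
        · exact Or.inr (Or.inr h1.2)
        · exact Or.inr (Or.inl h1.2)
      obtain ⟨Q0, hQ0, Z0, hZ0, hunit, hcross1, hcross2⟩ := h4 W R B M x y N lb (henv.mono hle4)
        hlab U U1 hsub1 hind b r Q Z S hbr
        (hout.mono (mul_le_mul_of_nonneg_right (min_le_left _ _) hN)) v hlv hnear hdiff
      obtain ⟨Q', Z', S', ho⟩ := h5 W R B M x y N lb (henv.mono hee5) hlab U U1 hsub1 b r Q Z S hbr
        (hout.mono (mul_le_mul_of_nonneg_right (min_le_right _ _) hN)) Q0 hQ0 Z0 hZ0 hunit
        hcross1 hcross2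
      exact ⟨b + 1, r, by omega, Q', Z', S', ho⟩

end Pool.Agent.Lib.MP_779bc2_co
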