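import Pool.Agent.Lib.MP_779bc2_co.EO0

/-! EO9 (helper48): from `EOSt` to `CoreSt false true`, and exchange of the colours -/

set_option autoImplicit false

namespace Pool.Agent.Lib.MP_779bc2_co

open Finset

theorem eo9_sided (κ : Bool) : sided true false (!κ) = sided false true κ := by
  cases κ <;> rfl

theorem eo9_sided' (κ : Bool) : sided false true (!κ) = sided true false κ := by
  cases κ <;> rfl

section aux

variable {W : Type} [Fintype W] [DecidableEq W]

theorem eo9_out (R B : SimpleGraph W) (lr lb : W → Option Bool) (x y E : ℝ) (hE : 0 ≤ E) (U : Finset W)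
    (hlr : ∀ v, lr v = none) (hlab : LabB B lb) (b r : ℕ) (Q Z : Fin b → Finset W) (S : Bool → Fin r → Finset W)
    (h : EOOut R B lb x y E b r U Q Z S) :
    Out false true R B lr lb x y E (b + r) U (Sum.elim (fun _ : Fin b => true) (fun _ : Bool × Fin r => false))
      (Sum.elim (fun _ : Fin b => true) (fun p : Bool × Fin r => p.1)) (Sum.elim Q (fun p : Bool × Fin r => S p.1 p.2)) := by
  classical
  have hQ : ∀ i v, v ∈ Q i → v ∈ U ∧ lb v = none := fun i v hv => mem_eP.mp (h.subQ i hv)
  have hS : ∀ τ j v, v ∈ S τ j → v ∈ U ∧ lb v = some τ := fun τ j v hv => mem_eX.mp (h.subS τ j hv)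
  refine ⟨?_, ?_, ?_, ?_, ?_, ?_, ?_, ?_, ?_, ?_, ?_, ?_, ?_, ?_, ?_⟩
  · rintro (i | p) v hv
    · exact (hQ i v hv).1
    · exact (hS _ _ v hv).1
  · rintro (i | p) (j | q) hij
    · exact h.disjQ i j (fun h => hij (by rw [h]))
    · rw [disjoint_left]
      intro v hv hv'
      have h1 := (hQ i v hv).2
      have h2 := (hS _ _ v hv').2
      rw [h1] at h2
      exact absurd h2 (by simp)
    · rw [disjoint_left]
      intro v hv hv'
      have h1 := (hQ j v hv').2
      have h2 := (hS _ _ v hv).2
      rw [h1] at h2
      exact absurd h2 (by simp)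
    · exact h.disjS p q (fun h => hij (by rw [h]))
  · rintro (i | p) hi v hv
    · exact absurd hi (by simp)
    · exact ⟨hlr v, fun _ => (hS _ _ v hv).2⟩
  · rintro (i | p) hi
    · exact absurd hi (by simp)
    · exact h.sizeS p.1 p.2
  · rintro (i | p) hi v hv
    · exact absurd hi (by simp)
    · exact h.nearS p.1 p.2 v hv
  · rintro (i | p) hi v hv
    · exact absurd hi (by simp)
    · have h1 : nb B v (S p.1 p.2) = ∅ := by
        apply Finset.eq_empty_of_forall_notMem
        intro w hw
        rw [mem_nb] at hw
        have h2 := (hlab v w hw.2).1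
        rw [(hS _ _ v hv).2] at h2
        exact absurd h2 (by simp)
      show ((nb B v (S p.1 p.2)).card : ℝ) ≤ E
      rw [h1]
      simpa using hE
  · rintro (i | p) hi
    · exact absurd hi (by simp)
    · exact h.ratioS (Nat.pos_of_ne_zero (fun h0 => by subst h0; exact p.2.elim0))
  · rintro (i | p) hi v hv
    · exact ⟨(hQ i v hv).2, fun h => absurd h (by simp)⟩
    · exact absurd hi (by simp)
  · rintro (i | p) hi
    · exact (h.unit i).cardQ
    · exact absurd hi (by simp)
  · rintro (i | p) hi v hv
    · exact (h.unit i).near v hv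
    · exact absurd hi (by simp)
  · rintro (i | p) hi v hv
    · exact (h.unit i).few v hv
    · exact absurd hi (by simp)
  · rintro (i | p) hi
    · exact (h.unit i).ratio
    · exact absurd hi (by simp)
  · rintro (i | p) (j | q) hij
    · exact h.crossQ i j (fun h => hij (by rw [h]))
    · exact h.crossQS i q.1 q.2
    · exact h.crossSQ j p.1 p.2
    · exact h.crossS p q (fun h => hij (by rw [h]))
  · have e1 : (univ.filter (fun i : Fin b ⊕ (Bool × Fin r) => sided false true
        (Sum.elim (fun _ : Fin b => true) (fun _ : Bool × Fin r => false) i) = false)) = (univ : Finset (Fin b)).map ⟨Sum.inl, Sum.inl_injective⟩ := by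
      ext i
      rcases i with i | p
      · simp [sided]
      · simp [sided]
    have e2 : (univ.filter (fun i : Fin b ⊕ (Bool × Fin r) => sided false true
        (Sum.elim (fun _ : Fin b => true) (fun _ : Bool × Fin r => false) i) = true ∧
          Sum.elim (fun _ : Fin b => true) (fun p : Bool × Fin r => p.1) i = true))
        = ((({true} : Finset Bool) ×ˢ (univ : Finset (Fin r))).map ⟨Sum.inr, Sum.inr_injective⟩) := by
      ext i
      rcases i with i | ⟨s, j⟩
      · simp [sided]
      · cases s <;> simp [sided]
    rw [e1, e2, card_map, card_map, card_product]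
    simp
  · intro κ hκ
    have hκ' : κ = false := by
      cases κ
      · rfl
      · exact absurd hκ (by simp [sided])
    subst hκ'
    have e : ∀ s : Bool, (univ.filter (fun i : Fin b ⊕ (Bool × Fin r) =>
        (Sum.elim (fun _ : Fin b => true) (fun _ : Bool × Fin r => false) i) = false ∧
          Sum.elim (fun _ : Fin b => true) (fun p : Bool × Fin r => p.1) i = s)).card = r := by
      intro s
      have e2 : (univ.filter (fun i : Fin b ⊕ (Bool × Fin r) =>
        (Sum.elim (fun _ : Fin b => true) (fun _ : Bool × Fin r => false) i) = false ∧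
          Sum.elim (fun _ : Fin b => true) (fun p : Bool × Fin r => p.1) i = s))
        = ((({s} : Finset Bool) ×ˢ (univ : Finset (Fin r))).map ⟨Sum.inr, Sum.inr_injective⟩) := by
        ext i
        rcases i with i | ⟨s', j⟩
        · simp
        · cases s <;> cases s' <;> simp
      rw [e2, card_map, card_product]
      simp
    rw [e true, e false]

theorem eo9_swap (R B : SimpleGraph W) (lr lb : W → Option Bool) (x y E : ℝ) (a : ℕ) (U : Finset W) {ι : Type} [Fintype ι]
    (cl σ : ι → Bool) (Q : ι → Finset W) (h : Out false true B R lb lr y x E a U cl σ Q) :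
    Out true false R B lr lb x y E a U (fun i => !cl i) σ Q := by
  classical
  have hf : ∀ i, (!cl i) = false → cl i = true := fun i hi => by simpa using hi
  have ht : ∀ i, (!cl i) = true → cl i = false := fun i hi => by simpa using hi
  refine ⟨h.sub, h.disj, fun i hi q hq => ⟨(h.labB i (hf i hi) q hq).1, fun h => absurd h (by simp)⟩,
    fun i hi => h.sizeB i (hf i hi), fun i hi => h.nearB i (hf i hi), fun i hi => h.fewB i (hf i hi),
    fun i hi => h.ratioB i (hf i hi), fun i hi q hq => ⟨(h.labR i (ht i hi) q hq).1, fun _ => (h.labR i (ht i hi) q hq).2 rfl⟩,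
    fun i hi => h.sizeR i (ht i hi), fun i hi => h.nearR i (ht i hi), fun i hi => h.fewR i (ht i hi),
    fun i hi => h.ratioR i (ht i hi), fun i j hij => (h.cross i j hij).swap, ?_, ?_⟩
  · simp only [eo9_sided]
    have := h.count
    convert this
  · intro κ hκ
    have h1 := h.bal (!κ) (by rw [eo9_sided']; exact hκ)
    have e : ∀ s : Bool, (univ.filter (fun i => (!cl i) = κ ∧ σ i = s)) = univ.filter (fun i => cl i = (!κ) ∧ σ i = s) := by
      intro s
      apply Finset.filter_congr
      intro i _
      have : (!cl i) = κ ↔ cl i = (!κ) := by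
        cases cl i <;> cases κ <;> simp
      rw [this]
    have e' : ∀ s : Bool, (univ.filter (fun i => (!cl i) = κ ∧ σ i = s)).card = (univ.filter (fun i => cl i = (!κ) ∧ σ i = s)).card :=
      fun s => by rw [e s]
    have e1 := e' true
    have e2 := e' false
    convert (e1.trans (by convert h1)).trans e2.symm using 2

end aux

theorem core_ft_of (a : ℕ) (h : EOSt a) : CoreSt false true a := by
  classical
  intro c hc e' he'
  obtain ⟨e, he, H⟩ := h c hc e' he'
  refine ⟨e, he, ?_⟩
  intro W _ _ R B M x y N lr lb U henv hlab hind hU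
  have hlr : ∀ v, lr v = none := hlab.rnone rfl
  have hff : ff false true x y = fe x y := by simp [ff, fe]
  rw [hff] at hU
  have hV : ∀ τ, VV lr lb U true τ = eV lb U τ := by
    intro τ
    ext v
    simp [VV, eV, hlr v]
  obtain ⟨b, r, hbr, Q, Z, S, hout⟩ := H W R B M x y N lb henv hlab.badj U (fun τ => by rw [← hV τ]; exact hind true τ) hU
  subst hbr
  exact ⟨_, _, _, _, _, eo9_out R B lr lb x y (e' * N) (mul_nonneg he'.le henv.N_nonneg) U hlr hlab.badj b r Q Z S hout⟩

theorem core_tf_of (a : ℕ) (h : CoreSt false true a) : CoreSt true false a := by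
  classical
  intro c hc e' he'
  obtain ⟨e, he, H⟩ := h c hc e' he'
  refine ⟨e, he, ?_⟩
  intro W _ _ R B M x y N lr lb U henv hlab hind hU
  have hff : ff true false x y = ff false true y x := by simp [ff]
  rw [hff] at hU
  have hV : ∀ σ τ, VV lb lr U σ τ = VV lr lb U τ σ := by
    intro σ τ
    ext v
    simp only [VV, mem_filter]
    tauto
  obtain ⟨ι, hι, cl, σ, Q, hout⟩ := H W B R M y x N lb lr U henv.swap
    ⟨fun _ => hlab.bnone rfl, fun h => absurd h (by simp), fun u w huw => hlab.badj u w huw, fun u w huw => hlab.radj u w huw⟩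
    (fun σ τ => by rw [hV]; exact (hind τ σ).swap) hU
  exact ⟨ι, hι, _, σ, Q, eo9_swap R B lr lb x y (e' * N) a U cl σ Q hout⟩

end Pool.Agent.Lib.MP_779bc2_co
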