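import Pool.Agent.Lib.MP_779bc2_co.O10Near

/-! Row O11Out (about 150 lines): the output -/

set_option autoImplicit false

namespace Pool.Agent.Lib.MP_779bc2_co

open Finset

variable {W : Type} [Fintype W] [DecidableEq W]

/-- colour of a clique -/
def o11cl (p q : ℕ) : Bool × (Fin p ⊕ Fin q) → Bool
  | (_, .inl _) => false
  | (_, .inr _) => true

theorem o11_mem_inl (R B : SimpleGraph W) (lr lb : W → Option Bool) (U : Finset W) {p q : ℕ} (gR : Bool → Fin p → W)
    (gB : Bool → Fin q → W) (s : Bool) (i : Fin p) (v : W) :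
    v ∈ oQ R B lr lb U gR gB (s, .inl i) ↔ (v ∈ U ∧ lr v = none ∧ lb v = some s) ∧ R.Reachable (gR s i) v := by
  unfold oQ oA
  rw [mem_inter, mem_filter, mem_comp]

theorem o11_mem_inr (R B : SimpleGraph W) (lr lb : W → Option Bool) (U : Finset W) {p q : ℕ} (gR : Bool → Fin p → W)
    (gB : Bool → Fin q → W) (s : Bool) (j : Fin q) (v : W) :
    v ∈ oQ R B lr lb U gR gB (s, .inr j) ↔ (v ∈ U ∧ lr v = some s ∧ lb v = none) ∧ B.Reachable (gB s j) v := by
  unfold oQ oB
  rw [mem_inter, mem_filter, mem_comp]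

/-- `ι = Bool × (Fin p ⊕ Fin q)`, `cl (s, inl i) = false`, `cl (s, inr j) = true`, `σ (s, k) = s`, `Q = oQ ..`. `sided true true κ = true` for both `κ`, so `count` is `p + q = a`; `bal`: the map `(s,k) ↦ (!s,k)`.
`sub`, `labR`, `labB`: definition of `oA`, `oB`. `sizeR`: `OStr.card`, `x ≤ max x y`. `nearR`: an element `w ∈ oQ i` with `¬ R.Adj q w` is `M`-related to `q` (`oo_near`; `B` has no edges at `q`, because `lb q ≠ none`; and `M` is
reflexive for `w = q`), so there are at most `e N ≤ E` such `w`; `fewR`: `0`. `ratioR`: `oo_x_large` gives `y ≤ max x y ≤ x + (kap3 a + 8a) μ`. `cross`: `0` by `oo_cross`. The same for blue. -/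
theorem oo_out (R B : SimpleGraph W) (M : W → W → Prop) (x y N e : ℝ) (lr lb : W → Option Bool) (U : Finset W) (a p q : ℕ)
    (gR : Bool → Fin p → W) (gB : Bool → Fin q → W) (h : OStr R B M x y N e lr lb U a p q gR gB) (E : ℝ)
    (hE : (kap3 a + 8 * a + 20) * (e * N) ≤ E) :
    ∃ (ι : Type) (_ : Fintype ι) (cl σ : ι → Bool) (Q : ι → Finset W), Out true true R B lr lb x y E a U cl σ Q := by
  classical
  have hμ := h.env.one
  have hk3 := kap3_nonneg a
  have ha : (0 : ℝ) ≤ a := Nat.cast_nonneg _
  have hx : x ≤ max x y := le_max_left x y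
  have hy : y ≤ max x y := le_max_right x y
  have hx2 := h.env.x2
  have hy2 := h.env.y2
  have k1 : 0 ≤ kap3 a * (e * N) := mul_nonneg hk3 (by linarith)
  have k2 : 0 ≤ (a : ℝ) * (e * N) := mul_nonneg ha (by linarith)
  have hE1 : e * N ≤ E := by linarith
  have hE0 : 0 ≤ E := by linarith
  have hE2 : kap3 a * (e * N) ≤ E := by linarith
  have hE3 : (kap3 a + 8 * a) * (e * N) ≤ E := by linarith
  have hnone : ∀ b : Bool, (some b : Option Bool) ≠ none := by simp
  -- B isolated / R isolated
  have isoB : ∀ v s, lb v = some s → ∀ w, ¬ B.Adj v w := fun v s hv w hw => by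
    have := (h.env.lab.badj v w hw).1
    rw [hv] at this
    exact hnone s this
  have isoR : ∀ v s, lr v = some s → ∀ w, ¬ R.Adj v w := fun v s hv w hw => by
    have := (h.env.lab.radj v w hw).1
    rw [hv] at this
    exact hnone s this
  have hMle : ∀ v (S : Finset W), (∀ w ∈ S, M v w) → (S.card : ℝ) ≤ E := by
    intro v S hS
    refine le_trans ?_ hE1
    refine le_trans ?_ (h.env.mis.card v)
    apply Nat.cast_le.mpr
    apply card_le_card
    intro w hw
    rw [mem_filter]
    exact ⟨mem_univ _, hS w hw⟩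
  refine ⟨Bool × (Fin p ⊕ Fin q), inferInstance, o11cl p q, fun i => i.1, oQ R B lr lb U gR gB, ?_⟩
  refine ⟨?_, ?_, ?_, ?_, ?_, ?_, ?_, ?_, ?_, ?_, ?_, ?_, ?_, ?_, ?_⟩
  · rintro ⟨s, i | j⟩ v hv
    · exact ((o11_mem_inl R B lr lb U gR gB s i v).mp hv).1.1
    · exact ((o11_mem_inr R B lr lb U gR gB s j v).mp hv).1.1
  · intro i j hij
    rw [disjoint_left]
    intro v hv hv'
    exact (oo_cross R B M x y N e lr lb U a p q gR gB h i j hij v v hv hv').1 rfl
  · rintro ⟨s, i | j⟩ hi v hv
    · obtain ⟨⟨_, h1, h2⟩, _⟩ := (o11_mem_inl R B lr lb U gR gB s i v).mp hv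
      exact ⟨h1, fun _ => h2⟩
    · exact absurd hi (by simp [o11cl])
  · rintro ⟨s, i | j⟩ hi
    · have := h.card (s, .inl i)
      linarith
    · exact absurd hi (by simp [o11cl])
  · rintro ⟨s, i | j⟩ hi v hv
    · apply hMle v
      intro w hw
      rw [mem_nn] at hw
      obtain ⟨⟨_, h1, h2⟩, _⟩ := (o11_mem_inl R B lr lb U gR gB s i v).mp hv
      by_cases hvw : v = w
      · rw [← hvw]; exact h.env.mis.refl v
      · by_contra hM
        rcases oo_near R B M x y N e lr lb U a p q gR gB h s (.inl i) v w hv hw.1 hvw hM with h3 | h3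
        · exact hw.2 h3
        · exact isoB v s h2 w h3
    · exact absurd hi (by simp [o11cl])
  · rintro ⟨s, i | j⟩ hi v hv
    · obtain ⟨⟨_, h1, h2⟩, _⟩ := (o11_mem_inl R B lr lb U gR gB s i v).mp hv
      have : nb B v (oQ R B lr lb U gR gB (s, .inl i)) = ∅ := by
        apply Finset.eq_empty_of_forall_notMem
        intro w hw
        rw [mem_nb] at hw
        exact isoB v s h2 w hw.2
      rw [this]
      simpa using hE0
    · exact absurd hi (by simp [o11cl])
  · rintro ⟨s, i | j⟩ hi
    · have hp : 0 < p := Nat.pos_of_ne_zero (fun h0 => by subst h0; exact i.elim0)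
      have := (oo_x_large R B M x y N e lr lb U a p q gR gB h).1 hp
      linarith
    · exact absurd hi (by simp [o11cl])
  · rintro ⟨s, i | j⟩ hi v hv
    · exact absurd hi (by simp [o11cl])
    · obtain ⟨⟨_, h1, h2⟩, _⟩ := (o11_mem_inr R B lr lb U gR gB s j v).mp hv
      exact ⟨h2, fun _ => h1⟩
  · rintro ⟨s, i | j⟩ hi
    · exact absurd hi (by simp [o11cl])
    · have := h.card (s, .inr j)
      linarith
  · rintro ⟨s, i | j⟩ hi v hv
    · exact absurd hi (by simp [o11cl])
    · apply hMle v
      intro w hw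
      rw [mem_nn] at hw
      obtain ⟨⟨_, h1, h2⟩, _⟩ := (o11_mem_inr R B lr lb U gR gB s j v).mp hv
      by_cases hvw : v = w
      · rw [← hvw]; exact h.env.mis.refl v
      · by_contra hM
        rcases oo_near R B M x y N e lr lb U a p q gR gB h s (.inr j) v w hv hw.1 hvw hM with h3 | h3
        · exact isoR v s h1 w h3
        · exact hw.2 h3
  · rintro ⟨s, i | j⟩ hi v hv
    · exact absurd hi (by simp [o11cl])
    · obtain ⟨⟨_, h1, h2⟩, _⟩ := (o11_mem_inr R B lr lb U gR gB s j v).mp hv
      have : nb R v (oQ R B lr lb U gR gB (s, .inr j)) = ∅ := by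
        apply Finset.eq_empty_of_forall_notMem
        intro w hw
        rw [mem_nb] at hw
        exact isoR v s h1 w hw.2
      rw [this]
      simpa using hE0
  · rintro ⟨s, i | j⟩ hi
    · exact absurd hi (by simp [o11cl])
    · have hq : 0 < q := Nat.pos_of_ne_zero (fun h0 => by subst h0; exact j.elim0)
      have := (oo_x_large R B M x y N e lr lb U a p q gR gB h).2 hq
      linarith
  · intro i j hij v hv
    have : ((oQ R B lr lb U gR gB j).filter (fun w => R.Adj v w ∨ B.Adj v w)) = ∅ := by
      apply Finset.eq_empty_of_forall_notMem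
      intro w hw
      rw [mem_filter] at hw
      have := oo_cross R B M x y N e lr lb U a p q gR gB h i j hij v w hv hw.1
      rcases hw.2 with h1 | h1
      · exact this.2.1 h1
      · exact this.2.2 h1
    rw [this]
    simpa using hE0
  · have hs : ∀ κ, sided true true κ = true := by intro κ; cases κ <;> rfl
    have e1 : (univ.filter (fun i : Bool × (Fin p ⊕ Fin q) => sided true true (o11cl p q i) = false)) = ∅ := by
      apply Finset.eq_empty_of_forall_notMem
      intro i hi
      rw [mem_filter, hs] at hi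
      exact absurd hi.2 (by simp)
    have e2 : (univ.filter (fun i : Bool × (Fin p ⊕ Fin q) => sided true true (o11cl p q i) = true ∧ i.1 = true))
        = ({true} : Finset Bool) ×ˢ (univ : Finset (Fin p ⊕ Fin q)) := by
      ext ⟨s, k⟩
      rw [mem_filter, mem_product, hs]
      simp
    rw [e1, e2, card_product]
    simp [h.pq]
  · intro κ _
    apply Finset.card_bij (fun i _ => (!i.1, i.2))
    · rintro ⟨s, i | j⟩ hi
      · rw [mem_filter] at hi ⊢
        obtain ⟨_, h1, h2⟩ := hi
        refine ⟨mem_univ _, ?_, ?_⟩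
        · simpa [o11cl] using h1
        · simpa using h2
      · rw [mem_filter] at hi ⊢
        obtain ⟨_, h1, h2⟩ := hi
        refine ⟨mem_univ _, ?_, ?_⟩
        · simpa [o11cl] using h1
        · simpa using h2
    · rintro ⟨s, k⟩ _ ⟨s', k'⟩ _ heq
      simp only [Prod.mk.injEq, Bool.not_inj_iff] at heq
      exact Prod.ext heq.1 heq.2
    · rintro ⟨s, i | j⟩ hi
      · rw [mem_filter] at hi
        refine ⟨(!s, .inl i), ?_, by simp⟩
        rw [mem_filter]
        refine ⟨mem_univ _, ?_, ?_⟩
        · simpa [o11cl] using hi.2.1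
        · simpa using hi.2.2
      · rw [mem_filter] at hi
        refine ⟨(!s, .inr j), ?_, by simp⟩
        rw [mem_filter]
        refine ⟨mem_univ _, ?_, ?_⟩
        · simpa [o11cl] using hi.2.1
        · simpa using hi.2.2

end Pool.Agent.Lib.MP_779bc2_co
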