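import Pool.Agent.Lib.MP_779bc2_co.H2Dec

/-! Row H3Key (about 130 lines): key lemma -/

set_option autoImplicit false

namespace Pool.Agent.Lib.MP_779bc2_co

open Finset

variable {W : Type} [Fintype W] [DecidableEq W]

theorem h3_cnb_le (R B : SimpleGraph W) (v : W) (U : Finset W) :
    ((cnb R B v U).card : ℝ) ≤ (nb R v U).card + (insert v (nb B v U)).card := by
  have h : cnb R B v U ⊆ nb R v U ∪ insert v (nb B v U) := by
    intro w hw
    rw [mem_cnb] at hw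
    rw [mem_union, mem_insert, mem_nb, mem_nb]
    tauto
  exact_mod_cast (card_le_card h).trans (card_union_le _ _)

theorem h3_cnb_comm (R B : SimpleGraph W) (v : W) (U : Finset W) : cnb R B v U = cnb B R v U := by
  ext w
  rw [mem_cnb, mem_cnb]
  tauto

theorem h3_cover (R B : SimpleGraph W) (x y : ℝ) (hy : 2 ≤ y) (U P I J : Finset W)
    (hI : Dec R x I) (hJ : Dec B y J)
    (hbig : ∀ v ∈ P, th x y + 1 < ((cnb R B v U).card : ℝ)) : I ∩ P ⊆ nbs B J := by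
  intro v hv
  rw [mem_inter] at hv
  by_contra hn
  have h1 := hI.nb_ind hv.1 U
  have h2 : ((insert v (nb B v U)).card : ℝ) ≤ y := by
    by_cases hvJ : v ∈ J
    · have h3 := hJ.nb_ind hvJ U
      have h4 : ((insert v (nb B v U)).card : ℝ) ≤ (nb B v U).card + 1 := by
        exact_mod_cast card_insert_le _ _
      linarith
    · exact hJ.nb_rest hvJ hn U
  have h5 := h3_cnb_le R B v U
  have h6 := le_th_right x y
  have h7 := hbig v hv.2
  linarith

theorem h3_out (R B : SimpleGraph W) (x e1 : ℝ) (hx : 2 ≤ x) (U P I : Finset W)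
    (hR : ∀ u w, R.Adj u w → u ∈ U) (hI : Dec R x I)
    (hiso : ∀ v ∈ U, v ∉ P → (∀ w, ¬ R.Adj v w) ∨ (∀ w, ¬ B.Adj v w))
    (hind : ∀ S ⊆ U, Disjoint S P → (∀ u ∈ S, ∀ w ∈ S, ¬ R.Adj u w ∧ ¬ B.Adj u w) → (S.card : ℝ) ≤ e1) :
    ((I \ P).card : ℝ) ≤ e1 := by
  have hIU : ∀ v ∈ I, v ∈ U := fun v hv => by
    obtain ⟨w, hw⟩ := hI.not_isolated (by linarith) hv
    exact hR v w hw
  refine hind _ (fun v hv => hIU v (mem_sdiff.mp hv).1) sdiff_disjoint ?_
  intro u hu w hw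
  rw [mem_sdiff] at hu hw
  refine ⟨hI.ind u hu.1 w hw.1, ?_⟩
  rcases hiso u (hIU u hu.1) hu.2 with h | h
  · obtain ⟨z, hz⟩ := hI.not_isolated (by linarith) hu.1
    exact absurd hz (h z)
  · exact h w

theorem h3_comp (G : SimpleGraph W) (x e : ℝ) (I : Finset W) (hI : Dec G x I)
    (h : (I.card : ℝ) ≤ (nbs G I).card + e) (v : W) : ((comp G v).card : ℝ) ≤ x + e := by
  have h1 := hI.bd v
  have h2 : ((comp G v ∩ I).card : ℝ) + (nbs G I).card ≤ I.card + (comp G v ∩ nbs G I).card := by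
    exact_mod_cast hI.diff_le v
  have h3 : ((comp G v).card : ℝ) = (comp G v \ I).card + (comp G v ∩ I).card := by
    rw [← card_sdiff_add_card_inter (comp G v) I]
    push_cast
    ring
  linarith

/-- KEY LEMMA. Let `I, T = nbs R I` and `I', T' = nbs B I'` be Hall decompositions of `R`, `B`. An element `v ∈ I ∩ P` which is not in `T'` would have
`|cnb| ≤ x/2 + y ≤ th x y` (`Dec.nb_ind` for `R`; for `B`: `v ∈ I'` gives `1 + y/2 ≤ y`, otherwise `Dec.nb_rest`), so `I ∩ P ⊆ T'`, in the same way `I' ∩ P ⊆ T`.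
`I ⊆ U` and `I \ P` consists of vertices which are not `R`-isolated, hence `B`-isolated, so it is independent in both graphs: `|I \ P| ≤ e1`; the same for `I' \ P`. Hence
`|I| ≤ |T'| + e1`, `|I'| ≤ |T| + e1`, `|T| ≤ |I|`, `|T'| ≤ |I'|`, so `|I| - |T| ≤ 2 e1`, `|I'| - |T'| ≤ 2 e1`, and `|S| = |S \ I| + |S ∩ I| ≤ x - |S ∩ T| + |S ∩ I| ≤ x + 2 e1` (`Dec.diff_le`). -/
theorem small_comps (R B : SimpleGraph W) (x y e1 : ℝ) (hx : 2 ≤ x) (hy : 2 ≤ y) (zR : ZLe R x) (zB : ZLe B y)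
    (U P : Finset W) (hR : ∀ u w, R.Adj u w → u ∈ U) (hB : ∀ u w, B.Adj u w → u ∈ U) (hP : P ⊆ U)
    (hbig : ∀ v ∈ P, th x y + 1 < ((cnb R B v U).card : ℝ))
    (hiso : ∀ v ∈ U, v ∉ P → (∀ w, ¬ R.Adj v w) ∨ (∀ w, ¬ B.Adj v w)) (he1 : 0 ≤ e1)
    (hind : ∀ S ⊆ U, Disjoint S P → (∀ u ∈ S, ∀ w ∈ S, ¬ R.Adj u w ∧ ¬ B.Adj u w) → (S.card : ℝ) ≤ e1) :
    ∀ v, ((comp R v).card : ℝ) ≤ x + 2 * e1 ∧ ((comp B v).card : ℝ) ≤ y + 2 * e1 := by
  obtain ⟨I, hI⟩ := hall_decomp R x (by linarith) zR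
  obtain ⟨J, hJ⟩ := hall_decomp B y (by linarith) zB
  have hbig' : ∀ v ∈ P, th y x + 1 < ((cnb B R v U).card : ℝ) := fun v hv => by
    rw [th_comm, h3_cnb_comm]
    exact hbig v hv
  have c1 := card_le_card (h3_cover R B x y hy U P I J hI hJ hbig)
  have c2 := card_le_card (h3_cover B R y x hx U P J I hJ hI hbig')
  have o1 := h3_out R B x e1 hx U P I hR hI hiso hind
  have o2 := h3_out B R y e1 hy U P J hB hJ (fun v hv hp => (hiso v hv hp).symm)
    (fun S h1 h2 h3 => hind S h1 h2 (fun u hu w hw => (h3 u hu w hw).symm))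
  have s1 : (I.card : ℝ) = (I \ P).card + (I ∩ P).card := by
    rw [← card_sdiff_add_card_inter I P]
    push_cast
    ring
  have s2 : (J.card : ℝ) = (J \ P).card + (J ∩ P).card := by
    rw [← card_sdiff_add_card_inter J P]
    push_cast
    ring
  have c1' : ((I ∩ P).card : ℝ) ≤ (nbs B J).card := by exact_mod_cast c1
  have c2' : ((J ∩ P).card : ℝ) ≤ (nbs R I).card := by exact_mod_cast c2
  have t1 : ((nbs R I).card : ℝ) ≤ I.card := by exact_mod_cast hI.card_le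
  have t2 : ((nbs B J).card : ℝ) ≤ J.card := by exact_mod_cast hJ.card_le
  intro v
  exact ⟨h3_comp R x (2 * e1) I hI (by linarith) v, h3_comp B y (2 * e1) J hJ (by linarith) v⟩

end Pool.Agent.Lib.MP_779bc2_co
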