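import Pool.Agent.Lib.MP_779bc2_co.O2Ind
import Pool.Agent.Lib.MP_779bc2_co.H3Key

/-! Row O5Key: all components are small (done) -/

set_option autoImplicit false

namespace Pool.Agent.Lib.MP_779bc2_co

open Finset

variable {W : Type} [Fintype W] [DecidableEq W]

/-- key lemma with `P` = vertices of `U` without labels, `e1 = 4 a μ` (`indep_card4`). -/
theorem oo_small (R B : SimpleGraph W) (M : W → W → Prop) (x y N e : ℝ) (lr lb : W → Option Bool) (U : Finset W) (a : ℕ)
    (h : OEnv R B M x y N e lr lb U a)
    (hbig : ∀ v ∈ U, lr v = none → lb v = none → th x y + 1 < ((cnb R B v U).card : ℝ)) :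
    SmallComps R (x + 8 * a * (e * N)) ∧ SmallComps B (y + 8 * a * (e * N)) := by
  classical
  have hμ : 0 ≤ e * N := by linarith [h.one]
  have key := small_comps R B x y (4 * a * (e * N)) h.x2 h.y2 h.zR h.zB U (oP lr lb U)
    (fun u w huw => (h.supR u w huw).1) (fun u w huw => (h.supB u w huw).1) (filter_subset _ _)
    (fun v hv => by
      unfold oP at hv
      rw [mem_filter] at hv
      exact hbig v hv.1 hv.2.1 hv.2.2)
    (fun v hv hvP => by
      unfold oP at hvP
      rw [mem_filter] at hvP
      by_cases hr : lr v = none
      · right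
        intro w hw
        exact hvP ⟨hv, hr, (h.lab.badj v w hw).1⟩
      · left
        intro w hw
        exact hr (h.lab.radj v w hw).1)
    (by positivity)
    (fun S hS _ hSi => indep_card4 R B M x y N e lr lb U a h S hS hSi)
  refine ⟨fun v => ?_, fun v => ?_⟩
  · have := (key v).1
    linarith
  · have := (key v).2
    linarith

end Pool.Agent.Lib.MP_779bc2_co
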