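import Pool.Agent.Lib.MP_779bc2_co.H4Koenig

/-! Row H5Cover (about 170 lines): robust König cover -/

set_option autoImplicit false

namespace Pool.Agent.Lib.MP_779bc2_co

open Finset

variable {W : Type} [Fintype W] [DecidableEq W]

theorem h5_pick {M : W → W → Prop} {μ : ℝ} (hM : MisLe M μ) (S F : Finset W)
    (h : (F.card : ℝ) * μ < S.card) : ∃ u ∈ S, ∀ w ∈ F, ¬ M u w := by
  classical
  by_contra hno
  push Not at hno
  have hsub : S ⊆ F.biUnion (fun w => univ.filter (fun u => M w u)) := by
    intro u hu
    obtain ⟨w, hw, hM'⟩ := hno u hu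
    exact mem_biUnion.2 ⟨w, hw, mem_filter.2 ⟨mem_univ _, hM.symm _ _ hM'⟩⟩
  have h1 : (S.card : ℝ) ≤ ((F.biUnion (fun w => univ.filter (fun u => M w u))).card : ℝ) := by
    exact_mod_cast card_le_card hsub
  have h2 : ((F.biUnion (fun w => univ.filter (fun u => M w u))).card : ℝ) ≤
      ∑ w ∈ F, ((univ.filter (fun u => M w u)).card : ℝ) := by
    exact_mod_cast card_biUnion_le
  have h3 : ∑ w ∈ F, ((univ.filter (fun u => M w u)).card : ℝ) ≤ ∑ _w ∈ F, μ :=
    sum_le_sum fun w _ => hM.card w
  rw [sum_const, nsmul_eq_mul] at h3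
  linarith

open Classical in
/-- Search tree, induction on `b`: for all finite sets of labels `A0`, `B0` and all finite `F` (vertices chosen before) with `(F.card + 2^(b+1)) μ ≤ r` either `A0`, `B0` can be enlarged by at most `b` labels such that at most `r` elements of `U` are uncovered, or
there is a set `T ⊆ U`, pairwise non-`M` and non-`M` to `F`, with less than `2^(b+1)` elements, such that no enlargement of `A0`, `B0` by at most `b` labels covers `T`.
(`b = 0`: if more than `r` elements are uncovered take one of them which is not `M`-related to `F`. Step: if more than `r` elements are uncovered, take such an uncovered `u`; apply the induction hypothesis to `A0 ∪ {ρ u}, B0` with `F ∪ {u}` and then to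
`A0, B0 ∪ {β u}` with `F ∪ {u} ∪ T1`; `T = {u} ∪ T1 ∪ T2`.) -/
theorem cover_tree {L1 L2 : Type} [DecidableEq L1] [DecidableEq L2] (ρ : W → L1) (β : W → L2) (M : W → W → Prop) (μ r : ℝ) (hμ : 0 ≤ μ) (hM : MisLe M μ)
    (U : Finset W) (b : ℕ) : ∀ (A0 : Finset L1) (B0 : Finset L2) (F : Finset W), ((F.card : ℝ) + 2 ^ (b + 1)) * μ ≤ r →
      (∃ (A : Finset L1) (B : Finset L2), A.card + B.card ≤ b ∧
        ((U.filter (fun v => ρ v ∉ A0 ∪ A ∧ β v ∉ B0 ∪ B)).card : ℝ) ≤ r) ∨
      (∃ T ⊆ U, T.card < 2 ^ (b + 1) ∧ (∀ u ∈ T, ∀ w ∈ T, u ≠ w → ¬ M u w) ∧ (∀ u ∈ T, ∀ w ∈ F, ¬ M u w) ∧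
        ∀ (A : Finset L1) (B : Finset L2), A.card + B.card ≤ b → ∃ v ∈ T, ρ v ∉ A0 ∪ A ∧ β v ∉ B0 ∪ B) := by
  have pick : ∀ (b : ℕ) (A0 : Finset L1) (B0 : Finset L2) (F : Finset W), ((F.card : ℝ) + 2 ^ (b + 1)) * μ ≤ r →
      (((U.filter (fun v => ρ v ∉ A0 ∧ β v ∉ B0)).card : ℝ) ≤ r) ∨
      (∃ u ∈ U, ρ u ∉ A0 ∧ β u ∉ B0 ∧ ∀ w ∈ F, ¬ M u w) := by
    intro b A0 B0 F hF
    rcases le_or_gt ((U.filter (fun v => ρ v ∉ A0 ∧ β v ∉ B0)).card : ℝ) r with h | h
    · exact Or.inl h
    · right
      have h2 : (F.card : ℝ) * μ < ((U.filter (fun v => ρ v ∉ A0 ∧ β v ∉ B0)).card : ℝ) := by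
        have : 0 ≤ (2 : ℝ) ^ (b + 1) * μ := by positivity
        nlinarith
      obtain ⟨u, hu, hu2⟩ := h5_pick hM _ F h2
      rw [mem_filter] at hu
      exact ⟨u, hu.1, hu.2.1, hu.2.2, hu2⟩
  induction b with
  | zero =>
    intro A0 B0 F hF
    rcases pick 0 A0 B0 F hF with h | ⟨u, hu, h1, h2, h3⟩
    · left
      exact ⟨∅, ∅, by simp, by simpa using h⟩
    · right
      refine ⟨{u}, by simpa using hu, by simp, ?_, ?_, ?_⟩
      · intro a ha c hc hne
        rw [mem_singleton] at ha hc
        exact absurd (ha.trans hc.symm) hne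
      · intro a ha
        rw [mem_singleton] at ha
        rw [ha]; exact h3
      · intro A B hAB
        have hA : A = ∅ := card_eq_zero.1 (by omega)
        have hB : B = ∅ := card_eq_zero.1 (by omega)
        subst hA; subst hB
        exact ⟨u, mem_singleton_self _, by simpa using h1, by simpa using h2⟩
  | succ b ih =>
    intro A0 B0 F hF
    rcases pick (b + 1) A0 B0 F hF with h | ⟨u, hu, h1, h2, h3⟩
    · left
      exact ⟨∅, ∅, by simp, by simpa using h⟩
    · have hpow : (1 : ℝ) ≤ 2 ^ (b + 1) := one_le_pow₀ (by norm_num)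
      have hpow2 : (2 : ℝ) ^ (b + 1 + 1) = 2 ^ (b + 1) + 2 ^ (b + 1) := by ring
      have hFu : ((insert u F).card : ℝ) ≤ F.card + 1 := by exact_mod_cast card_insert_le u F
      rcases ih (insert (ρ u) A0) B0 (insert u F) (by
        refine le_trans (mul_le_mul_of_nonneg_right ?_ hμ) hF
        rw [hpow2]; linarith) with ⟨A, B, hAB, hc⟩ | ⟨T1, hT1U, hT1c, hT1M, hT1F, hT1⟩
      · left
        refine ⟨insert (ρ u) A, B, ?_, ?_⟩
        · have := card_insert_le (ρ u) A
          omega
        · have e : A0 ∪ insert (ρ u) A = insert (ρ u) A0 ∪ A := by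
            ext x; simp only [mem_union, mem_insert]; tauto
          rw [e]; exact hc
      · have hT1c' : (T1.card : ℝ) + 1 ≤ 2 ^ (b + 1) := by exact_mod_cast hT1c
        have hFuT : ((insert u F ∪ T1).card : ℝ) ≤ F.card + 1 + T1.card := by
          have : ((insert u F ∪ T1).card : ℝ) ≤ (insert u F).card + T1.card := by exact_mod_cast card_union_le _ _
          linarith
        rcases ih A0 (insert (β u) B0) (insert u F ∪ T1) (by
          refine le_trans (mul_le_mul_of_nonneg_right ?_ hμ) hF
          rw [hpow2]; linarith) with ⟨A, B, hAB, hc⟩ | ⟨T2, hT2U, hT2c, hT2M, hT2F, hT2⟩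
        · left
          refine ⟨A, insert (β u) B, ?_, ?_⟩
          · have := card_insert_le (β u) B
            omega
          · have e : B0 ∪ insert (β u) B = insert (β u) B0 ∪ B := by
              ext x; simp only [mem_union, mem_insert]; tauto
            rw [e]; exact hc
        · right
          refine ⟨insert u (T1 ∪ T2), ?_, ?_, ?_, ?_, ?_⟩
          · intro w hw
            rcases mem_insert.1 hw with rfl | hw
            · exact hu
            · rcases mem_union.1 hw with hw | hw
              · exact hT1U hw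
              · exact hT2U hw
          · have c1 := card_insert_le u (T1 ∪ T2)
            have c2 := card_union_le T1 T2
            have c3 : 2 ^ (b + 1 + 1) = 2 ^ (b + 1) + 2 ^ (b + 1) := by ring
            omega
          · have hu1 : ∀ w ∈ T1, ¬ M w u := fun w hw => hT1F w hw u (mem_insert_self _ _)
            have hu2 : ∀ w ∈ T2, ¬ M w u := fun w hw =>
              hT2F w hw u (mem_union_left _ (mem_insert_self _ _))
            have h12 : ∀ w ∈ T2, ∀ z ∈ T1, ¬ M w z := fun w hw z hz => hT2F w hw z (mem_union_right _ hz)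
            intro a ha c hc hne
            rcases mem_insert.1 ha with ha | ha <;> rcases mem_insert.1 hc with hc | hc
            · exact absurd (ha.trans hc.symm) hne
            · rw [ha]
              rcases mem_union.1 hc with hc | hc
              · exact fun h => hu1 c hc (hM.symm _ _ h)
              · exact fun h => hu2 c hc (hM.symm _ _ h)
            · rw [hc]
              rcases mem_union.1 ha with ha | ha
              · exact hu1 a ha
              · exact hu2 a ha
            · rcases mem_union.1 ha with ha | ha <;> rcases mem_union.1 hc with hc | hc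
              · exact hT1M a ha c hc hne
              · exact fun h => h12 c hc a ha (hM.symm _ _ h)
              · exact h12 a ha c hc
              · exact hT2M a ha c hc hne
          · intro a ha w hw
            rcases mem_insert.1 ha with ha | ha
            · rw [ha]; exact h3 w hw
            · rcases mem_union.1 ha with ha | ha
              · exact hT1F a ha w (mem_insert_of_mem hw)
              · exact hT2F a ha w (mem_union_left _ (mem_insert_of_mem hw))
          · intro A B hAB
            by_cases hA : ρ u ∈ A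
            · obtain ⟨v, hv, hv1, hv2⟩ := hT1 (A.erase (ρ u)) B (by
                rw [card_erase_of_mem hA]
                have : 0 < A.card := card_pos.2 ⟨_, hA⟩
                omega)
              refine ⟨v, mem_insert_of_mem (mem_union_left _ hv), ?_, hv2⟩
              intro h
              apply hv1
              rcases mem_union.1 h with h | h
              · exact mem_union_left _ (mem_insert_of_mem h)
              · by_cases hvu : ρ v = ρ u
                · rw [hvu]; exact mem_union_left _ (mem_insert_self _ _)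
                · exact mem_union_right _ (mem_erase.2 ⟨hvu, h⟩)
            · by_cases hB : β u ∈ B
              · obtain ⟨v, hv, hv1, hv2⟩ := hT2 A (B.erase (β u)) (by
                  rw [card_erase_of_mem hB]
                  have : 0 < B.card := card_pos.2 ⟨_, hB⟩
                  omega)
                refine ⟨v, mem_insert_of_mem (mem_union_right _ hv), hv1, ?_⟩
                intro h
                apply hv2
                rcases mem_union.1 h with h | h
                · exact mem_union_left _ (mem_insert_of_mem h)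
                · by_cases hvu : β v = β u
                  · rw [hvu]; exact mem_union_left _ (mem_insert_self _ _)
                  · exact mem_union_right _ (mem_erase.2 ⟨hvu, h⟩)
              · refine ⟨u, mem_insert_self _ _, ?_, ?_⟩
                · intro h
                  rcases mem_union.1 h with h | h
                  · exact h1 h
                  · exact hA h
                · intro h
                  rcases mem_union.1 h with h | h
                  · exact h2 h
                  · exact hB h

open Classical in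
/-- `cover_tree` with `b = a`, `A0 = B0 = F = ∅`, `r = 2^(a+1) μ`; in the second case `koenig_labels` gives a subset of `T` with more than `a` elements with pairwise different labels, contradiction. -/
theorem robust_cover {L1 L2 : Type} [DecidableEq L1] [DecidableEq L2] (ρ : W → L1) (β : W → L2) (M : W → W → Prop) (μ : ℝ) (hμ : 0 ≤ μ) (hM : MisLe M μ)
    (U : Finset W) (a : ℕ) (h : ∀ T ⊆ U, a < T.card → ∃ u ∈ T, ∃ w ∈ T, u ≠ w ∧ (M u w ∨ ρ u = ρ w ∨ β u = β w)) :
    ∃ (A : Finset L1) (B : Finset L2), A.card + B.card ≤ a ∧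
      ((U.filter (fun v => ρ v ∉ A ∧ β v ∉ B)).card : ℝ) ≤ 2 ^ (a + 1) * μ := by
  rcases cover_tree ρ β M μ (2 ^ (a + 1) * μ) hμ hM U a ∅ ∅ ∅ (by simp) with ⟨A, B, hAB, hc⟩ | ⟨T, hTU, -, hTM, -, hT⟩
  · exact ⟨A, B, hAB, by simpa using hc⟩
  · exfalso
    obtain ⟨A, B, hAB, hcov⟩ := koenig_labels ρ β T a (by
      intro T' hT' hcard
      obtain ⟨u, hu, w, hw, hne, h1⟩ := h T' (hT'.trans hTU) hcard
      refine ⟨u, hu, w, hw, hne, ?_⟩
      rcases h1 with h1 | h1
      · exact absurd h1 (hTM u (hT' hu) w (hT' hw) hne)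
      · exact h1)
    obtain ⟨v, hv, hv1, hv2⟩ := hT A B hAB
    rcases hcov v hv with h1 | h1
    · exact hv1 (mem_union_right _ h1)
    · exact hv2 (mem_union_right _ h1)

open Classical in
/-- The version for components: `A`, `D` are sets of representatives of components of `R` and `B` (labels `R.connectedComponentMk`, `B.connectedComponentMk`; choose one vertex in each). -/
theorem cover_comps (R B : SimpleGraph W) (M : W → W → Prop) (μ : ℝ) (hμ : 0 ≤ μ) (hM : MisLe M μ) (U : Finset W) (a : ℕ)
    (h : IndLe R B M U a) : ∃ A D : Finset W, A.card + D.card ≤ a ∧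
      (∀ u ∈ A, ∀ w ∈ A, u ≠ w → ¬ R.Reachable u w) ∧ (∀ u ∈ D, ∀ w ∈ D, u ≠ w → ¬ B.Reachable u w) ∧
      ((U.filter (fun v => (∀ u ∈ A, ¬ R.Reachable u v) ∧ (∀ u ∈ D, ¬ B.Reachable u v))).card : ℝ) ≤ 2 ^ (a + 1) * μ := by
  obtain ⟨A, D, hAD, hc⟩ := robust_cover R.connectedComponentMk B.connectedComponentMk M μ hμ hM U a (by
    intro T hT hcard
    obtain ⟨u, hu, w, hw, hne, h1⟩ := h T hT hcard
    refine ⟨u, hu, w, hw, hne, ?_⟩
    rcases h1 with h1 | h1 | h1
    · exact Or.inl h1
    · exact Or.inr (Or.inl (SimpleGraph.ConnectedComponent.eq.2 h1.reachable))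
    · exact Or.inr (Or.inr (SimpleGraph.ConnectedComponent.eq.2 h1.reachable)))
  have hout : ∀ (G : SimpleGraph W) (c : G.ConnectedComponent), G.connectedComponentMk (Quot.out c) = c :=
    fun G c => Quot.out_eq c
  refine ⟨A.image Quot.out, D.image Quot.out, ?_, ?_, ?_, ?_⟩
  · have c1 : (A.image Quot.out).card ≤ A.card := card_image_le
    have c2 : (D.image Quot.out).card ≤ D.card := card_image_le
    omega
  · intro u hu w hw hne hr
    obtain ⟨c, -, rfl⟩ := mem_image.1 hu
    obtain ⟨c', -, rfl⟩ := mem_image.1 hw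
    have := (hout R c).symm.trans ((SimpleGraph.ConnectedComponent.eq.2 hr).trans (hout R c'))
    exact hne (by rw [this])
  · intro u hu w hw hne hr
    obtain ⟨c, -, rfl⟩ := mem_image.1 hu
    obtain ⟨c', -, rfl⟩ := mem_image.1 hw
    have := (hout B c).symm.trans ((SimpleGraph.ConnectedComponent.eq.2 hr).trans (hout B c'))
    exact hne (by rw [this])
  · refine le_trans ?_ hc
    have hsub : (U.filter (fun v => (∀ u ∈ A.image Quot.out, ¬ R.Reachable u v) ∧
        (∀ u ∈ D.image Quot.out, ¬ B.Reachable u v))) ⊆
        U.filter (fun v => R.connectedComponentMk v ∉ A ∧ B.connectedComponentMk v ∉ D) := by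
      intro v hv
      rw [mem_filter] at hv ⊢
      refine ⟨hv.1, fun h1 => ?_, fun h1 => ?_⟩
      · exact hv.2.1 _ (mem_image_of_mem _ h1) (SimpleGraph.ConnectedComponent.eq.1 (hout R _))
      · exact hv.2.2 _ (mem_image_of_mem _ h1) (SimpleGraph.ConnectedComponent.eq.1 (hout B _))
    exact_mod_cast card_le_card hsub

/-- Every set without two `M`-related or adjacent elements... : a subset `S` of `U` which is independent in both graphs has at most `a μ` elements: otherwise choose greedily `a + 1` pairwise non-`M` elements. -/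
theorem ind_card_le (R B : SimpleGraph W) (M : W → W → Prop) (μ : ℝ) (hμ : 0 ≤ μ) (hM : MisLe M μ) (U : Finset W) (a : ℕ)
    (h : IndLe R B M U a) (S : Finset W) (hS : S ⊆ U) (hind : ∀ u ∈ S, ∀ w ∈ S, ¬ R.Adj u w ∧ ¬ B.Adj u w) :
    (S.card : ℝ) ≤ a * μ := by
  by_contra hcon
  push Not at hcon
  have key : ∀ k : ℕ, k ≤ a + 1 → ∃ T ⊆ S, T.card = k ∧ ∀ u ∈ T, ∀ w ∈ T, u ≠ w → ¬ M u w := by
    intro k
    induction k with
    | zero => intro _; exact ⟨∅, by simp, by simp, by simp⟩
    | succ k ih =>
      intro hk
      obtain ⟨T, hTS, hTc, hTM⟩ := ih (by omega)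
      have h1 : (T.card : ℝ) * μ < S.card := by
        refine lt_of_le_of_lt (mul_le_mul_of_nonneg_right ?_ hμ) hcon
        rw [hTc]
        exact_mod_cast (by omega : k ≤ a)
      obtain ⟨u, hu, hu2⟩ := h5_pick hM S T h1
      have huT : u ∉ T := fun h2 => hu2 u h2 (hM.refl u)
      refine ⟨insert u T, ?_, by rw [card_insert_of_notMem huT, hTc], ?_⟩
      · intro w hw
        rcases mem_insert.1 hw with rfl | hw
        · exact hu
        · exact hTS hw
      · intro b hb c hc hne
        rcases mem_insert.1 hb with hb | hb <;> rcases mem_insert.1 hc with hc | hc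
        · exact absurd (hb.trans hc.symm) hne
        · rw [hb]; exact hu2 c hc
        · rw [hc]; exact fun h2 => hu2 b hb (hM.symm _ _ h2)
        · exact hTM b hb c hc hne
  obtain ⟨T, hTS, hTc, hTM⟩ := key (a + 1) le_rfl
  obtain ⟨u, hu, w, hw, hne, h1⟩ := h T (hTS.trans hS) (by omega)
  rcases h1 with h1 | h1 | h1
  · exact hTM u hu w hw hne h1
  · exact (hind u (hTS hu) w (hTS hw)).1 h1
  · exact (hind u (hTS hu) w (hTS hw)).2 h1

end Pool.Agent.Lib.MP_779bc2_co
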