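import Pool.Agent.Lib.MP_779bc2_co.ODefs
import Pool.Agent.Lib.MP_779bc2_co.H5Cover

/-! Row O6Cov: covers of the worlds (done) -/

set_option autoImplicit false

namespace Pool.Agent.Lib.MP_779bc2_co

open Finset

variable {W : Type} [Fintype W] [DecidableEq W]

theorem oo_cov (R B : SimpleGraph W) (M : W → W → Prop) (x y N e : ℝ) (lr lb : W → Option Bool) (U : Finset W) (a : ℕ)
    (h : OEnv R B M x y N e lr lb U a) (σ τ : Bool) :
    ∃ P Q : Finset W, P.card + Q.card ≤ a ∧ Cov R B (VV lr lb U σ τ) P Q (2 ^ (a + 1) * (e * N)) := by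
  classical
  obtain ⟨A, D, hAD, hA, hD, hc⟩ := cover_comps R B M (e * N) (by linarith [h.one]) h.mis (VV lr lb U σ τ) a (h.ind σ τ)
  refine ⟨A, D, hAD, ⟨?_, hA, hD⟩⟩
  refine le_trans (le_of_eq ?_) hc
  unfold unc
  congr!

end Pool.Agent.Lib.MP_779bc2_co
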