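import Pool.Agent.Lib.MP_779bc2_co.O8Upper

/-! Row O8Struct (about 200 lines): the extremal structure if all components are small -/

set_option autoImplicit false

namespace Pool.Agent.Lib.MP_779bc2_co

open Finset

variable {W : Type} [Fintype W] [DecidableEq W]

/-- comparison of two multiplicities -/
theorem o8_nat_le (X D : ℝ) (p p' : ℕ) (hX0 : 0 < X) (hX : D < X) (h : (p : ℝ) * X ≤ p' * X + D) : p ≤ p' := by
  by_contra hlt
  push Not at hlt
  have h1 : (p' : ℝ) + 1 ≤ p := by exact_mod_cast hlt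
  nlinarith

theorem o8_aux (a : ℕ) (x X μ p q : ℝ) (hx : x ≤ X) (hμ : 1 ≤ μ) (hp : 0 ≤ p) (hq : 0 ≤ q) (hpa : p ≤ a) (hqa : q ≤ a) :
    p * (x + 8 * a * μ) + q + 2 ^ (a + 1) * μ ≤ p * X + (kap a + a) * μ := by
  have ha : (0 : ℝ) ≤ a := Nat.cast_nonneg _
  have e1 : p * x ≤ p * X := mul_le_mul_of_nonneg_left hx hp
  have e2 : p * (8 * a * μ) ≤ a * (8 * a * μ) := mul_le_mul_of_nonneg_right hpa (by positivity)
  have e3 : q ≤ a * μ := by nlinarith
  unfold kap
  nlinarith

theorem o8_world (R B : SimpleGraph W) (M : W → W → Prop) (x y N e : ℝ) (lr lb : W → Option Bool) (U : Finset W) (a : ℕ)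
    (h : OEnv R B M x y N e lr lb U a) (hR : SmallComps R (x + 8 * a * (e * N))) (hB : SmallComps B (y + 8 * a * (e * N)))
    (σ τ : Bool) (P Q : Finset W) (hPQ : P.card + Q.card ≤ a) (hc : Cov R B (VV lr lb U σ τ) P Q (2 ^ (a + 1) * (e * N)))
    (hbig : (4 * kap3 a + 20) * (e * N) < max x y)
    (hoP : ((oP lr lb U).card : ℝ) ≤ (2 * kap a + 2 * a + 1) * (e * N))
    (hV : a * max x y - (kap a + 2 * a + 1) * (e * N) ≤ (VV lr lb U σ τ).card) :
    P.card + Q.card = a ∧
    ((oA lr lb U τ).card : ℝ) ≤ P.card * max x y + (kap a + a) * (e * N) ∧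
    ((oB lr lb U σ).card : ℝ) ≤ Q.card * max x y + (kap a + a) * (e * N) ∧
    P.card * max x y - (4 * kap a + 6 * a + 2) * (e * N) ≤ (oA lr lb U τ).card ∧
    Q.card * max x y - (4 * kap a + 6 * a + 2) * (e * N) ≤ (oB lr lb U σ).card ∧
    (∀ u ∈ P, max x y - kap3 a * (e * N) ≤ ((oA lr lb U τ ∩ comp R u).card : ℝ)) ∧
    (∀ u ∈ Q, max x y - kap3 a * (e * N) ≤ ((oB lr lb U σ ∩ comp B u).card : ℝ)) := by
  have hμ := h.one
  set μ := e * N with hμdef
  set X := max x y with hX
  have hx : x ≤ X := le_max_left x y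
  have hy : y ≤ X := le_max_right x y
  have hX2 : 2 ≤ X := h.x2.trans hx
  have hk := kap_nonneg a
  have ha : (0 : ℝ) ≤ a := Nat.cast_nonneg _
  have hP0 : (0 : ℝ) ≤ P.card := Nat.cast_nonneg _
  have hQ0 : (0 : ℝ) ≤ Q.card := Nat.cast_nonneg _
  have hPQ' : (P.card : ℝ) + Q.card ≤ a := by exact_mod_cast hPQ
  have hPa : (P.card : ℝ) ≤ a := by linarith
  have hQa : (Q.card : ℝ) ≤ a := by linarith
  have hk3 : kap3 a = 5 * kap a + 7 * a + 2 := rfl
  -- (b)
  have w1 := world_le R B (VV lr lb U σ τ) P Q _ _ _ hR hB hc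
  have h8 : 0 ≤ 8 * (a : ℝ) * μ := by positivity
  have e1 : (P.card : ℝ) * (x + 8 * a * μ) ≤ P.card * (X + 8 * a * μ) :=
    mul_le_mul_of_nonneg_left (by linarith) hP0
  have e2 : (Q.card : ℝ) * (y + 8 * a * μ) ≤ Q.card * (X + 8 * a * μ) :=
    mul_le_mul_of_nonneg_left (by linarith) hQ0
  have e3 : ((P.card : ℝ) + Q.card) * (8 * a * μ) ≤ a * (8 * a * μ) := mul_le_mul_of_nonneg_right hPQ' h8
  have hle : a ≤ P.card + Q.card := by
    apply o8_nat_le X ((2 * kap a + 2 * a + 1) * μ) a (P.card + Q.card) (by linarith)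
    · have : (2 * kap a + 2 * a + 1) * μ ≤ (4 * kap3 a + 20) * μ :=
        mul_le_mul_of_nonneg_right (by rw [hk3]; linarith) (by linarith)
      linarith
    · push_cast
      have hkk : kap a * μ = a * (8 * a * μ) + 2 ^ (a + 1) * μ := by unfold kap; ring
      linarith
  have heq : P.card + Q.card = a := le_antisymm hPQ hle
  have heq' : (P.card : ℝ) + Q.card = a := by exact_mod_cast heq
  -- (c)
  have cA := oA_le R B M x y N e lr lb U a h σ τ P Q _ _ hR hc
  have cB := oB_le R B M x y N e lr lb U a h σ τ P Q _ _ hB hc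
  have aA := o8_aux a x X μ P.card Q.card hx hμ hP0 hQ0 hPa hQa
  have aB := o8_aux a y X μ Q.card P.card hy hμ hQ0 hP0 hQa hPa
  have hA : ((oA lr lb U τ).card : ℝ) ≤ P.card * X + (kap a + a) * μ := cA.trans aA
  have hB' : ((oB lr lb U σ).card : ℝ) ≤ Q.card * X + (kap a + a) * μ := by linarith
  have hD := oD_card R B M x y N e lr lb U a h σ τ
  have hVc : ((VV lr lb U σ τ).card : ℝ) = (oP lr lb U).card + (oA lr lb U τ).card + (oB lr lb U σ).card
      + (oD lr lb U σ τ).card := by exact_mod_cast VV_card lr lb U σ τ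
  have hAX : a * X = P.card * X + Q.card * X := by rw [← heq']; ring
  have hAl : P.card * X - (4 * kap a + 6 * a + 2) * μ ≤ (oA lr lb U τ).card := by
    linarith
  have hBl : Q.card * X - (4 * kap a + 6 * a + 2) * μ ≤ (oB lr lb U σ).card := by
    linarith
  refine ⟨heq, hA, hB', hAl, hBl, fun u hu => ?_, fun u hu => ?_⟩
  · have c1 := oA_comp R B M x y N e lr lb U a h σ τ P Q _ _ hR hc u hu
    have hP1 : (1 : ℝ) ≤ P.card := by
      have : 1 ≤ P.card := card_pos.mpr ⟨u, hu⟩
      exact_mod_cast this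
    have c2 := o8_aux a x X μ (P.card - 1) Q.card hx hμ (by linarith) hQ0 (by linarith) hQa
    rw [hk3]
    linarith
  · have c1 := oB_comp R B M x y N e lr lb U a h σ τ P Q _ _ hB hc u hu
    have hQ1 : (1 : ℝ) ≤ Q.card := by
      have : 1 ≤ Q.card := card_pos.mpr ⟨u, hu⟩
      exact_mod_cast this
    have c2 := o8_aux a y X μ (Q.card - 1) P.card hy hμ (by linarith) hP0 (by linarith) hPa
    rw [hk3]
    linarith

theorem o8_split (lr lb : W → Option Bool) (U : Finset W) (σ τ : Bool) :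
    U.card + (oP lr lb U).card = (VV lr lb U σ τ).card + (VV lr lb U (!σ) (!τ)).card + (oD lr lb U σ (!τ)).card
      + (oD lr lb U (!σ) τ).card := by
  have h0 := U_card lr lb U
  have h1 := VV_card lr lb U true true
  have h2 := VV_card lr lb U true false
  have h3 := VV_card lr lb U false true
  have h4 := VV_card lr lb U false false
  cases σ <;> cases τ <;> simp only [Bool.not_true, Bool.not_false] <;> omega

/-- Let `μ = e N ≥ 1`, `X = max x y`, `κ = kap a`, `κ₁ = κ + 2a + 1`, `κ₂ = 2 κ₁ + 2 κ + 2 a = 4 κ + 6 a + 2`, `kap3 a = κ₂ + κ + a`; choose a cover `P σ τ`, `Q σ τ` of `VV σ τ` for each `σ, τ`.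
(a) `|VV σ τ| ≤ a X + κ μ` (`oo_VV_le`); `|U| = |VV σ τ| + |VV !σ !τ| - |oP| + |oD σ !τ| + |oD !σ τ|` (`U_card`, `VV_card`), `|oD ..| ≤ a μ`, hence `|oP| ≤ (κ + κ₁) μ` and `|VV σ τ| ≥ a X - κ₁ μ`.
(b) with `world_le`: `(a - |P| - |Q|) X ≤ (κ + κ₁) μ < X`, so `|P σ τ| + |Q σ τ| = a`.
(c) `|oA τ| ≤ |P| X + (κ + a) μ` (`oA_le`; `|P| 8 a μ + |Q| + 2^(a+1) μ ≤ (κ + a) μ`), `|oB σ| ≤ |Q| X + (κ + a) μ`; `|oA τ| = |VV σ τ| - |oP| - |oB σ| - |oD σ τ| ≥ |P| X - κ₂ μ`, the same for `oB`.
(d) so `|P σ τ|` depends only on `τ` (`2 κ₂ μ < X`) and `|Q σ τ| = a - |P σ τ|` only on `σ`; all `|P σ τ|` are equal to `p := |P true true|`, all `|Q σ τ|` to `q := |Q true true|`.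
(e) by `oA_comp`, for `u ∈ P σ τ`: `|oA τ ∩ comp R u| ≥ |oA τ| - (p-1) (X + 8aμ) - q - 2^(a+1) μ ≥ X - kap3 a μ`; the same for `oB_comp`.
Take for `gR s` an enumeration of `P s s` and for `gB s` an enumeration of `Q s s`. -/
theorem oo_struct (R B : SimpleGraph W) (M : W → W → Prop) (x y N e : ℝ) (lr lb : W → Option Bool) (U : Finset W) (a : ℕ)
    (h : OEnv R B M x y N e lr lb U a) (hR : SmallComps R (x + 8 * a * (e * N))) (hB : SmallComps B (y + 8 * a * (e * N)))
    (hcov : ∀ σ τ, ∃ P Q : Finset W, P.card + Q.card ≤ a ∧ Cov R B (VV lr lb U σ τ) P Q (2 ^ (a + 1) * (e * N)))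
    (hbig : (4 * kap3 a + 20) * (e * N) < max x y) (hU : a * (2 * max x y) - e * N ≤ U.card) :
    ∃ (p q : ℕ) (gR : Bool → Fin p → W) (gB : Bool → Fin q → W), OStr R B M x y N e lr lb U a p q gR gB := by
  classical
  have hμ := h.one
  have hX2 : 2 ≤ max x y := h.x2.trans (le_max_left x y)
  have hk := kap_nonneg a
  have ha : (0 : ℝ) ≤ a := Nat.cast_nonneg _
  have hk3 : kap3 a = 5 * kap a + 7 * a + 2 := rfl
  choose P Q hPQ hc using hcov
  have hVV := fun σ τ => oo_VV_le R B M x y N e lr lb U a h hR hB σ τ (P σ τ) (Q σ τ) (hPQ σ τ) (hc σ τ)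
  have hD := oD_card R B M x y N e lr lb U a h
  have hsplit : ∀ σ τ, (U.card : ℝ) + (oP lr lb U).card = (VV lr lb U σ τ).card + (VV lr lb U (!σ) (!τ)).card
      + (oD lr lb U σ (!τ)).card + (oD lr lb U (!σ) τ).card := fun σ τ => by exact_mod_cast o8_split lr lb U σ τ
  have hoP : ((oP lr lb U).card : ℝ) ≤ (2 * kap a + 2 * a + 1) * (e * N) := by
    have h1 := hsplit true true
    have h2 := hVV true true
    have h3 := hVV (!true) (!true)
    have h4 := hD true (!true)
    have h5 := hD (!true) true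
    linarith
  have hV : ∀ σ τ, a * max x y - (kap a + 2 * a + 1) * (e * N) ≤ (VV lr lb U σ τ).card := by
    intro σ τ
    have h1 := hsplit σ τ
    have h3 := hVV (!σ) (!τ)
    have h4 := hD σ (!τ)
    have h5 := hD (!σ) τ
    have h6 : (0 : ℝ) ≤ (oP lr lb U).card := Nat.cast_nonneg _
    linarith
  have hw := fun σ τ => o8_world R B M x y N e lr lb U a h hR hB σ τ (P σ τ) (Q σ τ) (hPQ σ τ) (hc σ τ) hbig hoP (hV σ τ)
  have hD3 : kap3 a * (e * N) < max x y := by
    have : kap3 a * (e * N) ≤ (4 * kap3 a + 20) * (e * N) :=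
      mul_le_mul_of_nonneg_right (by linarith [kap3_nonneg a]) (by linarith)
    linarith
  have hpA : ∀ σ σ' τ, (P σ τ).card ≤ (P σ' τ).card := by
    intro σ σ' τ
    apply o8_nat_le (max x y) (kap3 a * (e * N)) _ _ (by linarith) hD3
    have h1 := (hw σ τ).2.2.2.1
    have h2 := (hw σ' τ).2.1
    rw [hk3]
    linarith
  have hqB : ∀ σ τ τ', (Q σ τ).card ≤ (Q σ τ').card := by
    intro σ τ τ'
    apply o8_nat_le (max x y) (kap3 a * (e * N)) _ _ (by linarith) hD3
    have h1 := (hw σ τ).2.2.2.2.1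
    have h2 := (hw σ τ').2.2.1
    rw [hk3]
    linarith
  have hsum := fun σ τ => (hw σ τ).1
  have hPs : ∀ s, (P s s).card = (P true true).card := by
    intro s
    cases s
    · have h1 := hsum true true
      have h2 := hsum true false
      have h3 := hsum false false
      have h4 := hpA true false false
      have h5 := hpA false true false
      have h6 := hqB true true false
      have h7 := hqB true false true
      omega
    · rfl
  have hQs : ∀ s, (Q s s).card = (Q true true).card := by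
    intro s
    have h1 := hsum true true
    have h2 := hsum s s
    have h3 := hPs s
    omega
  refine ⟨(P true true).card, (Q true true).card,
    fun s i => ((Finset.equivFinOfCardEq (hPs s)).symm i : P s s).1,
    fun s i => ((Finset.equivFinOfCardEq (hQs s)).symm i : Q s s).1,
    ⟨h, hsum true true, hR, hB, ?_, ?_, ?_, hbig⟩⟩
  · intro s i j hij
    apply (hc s s).dR _ (Subtype.property _) _ (Subtype.property _)
    intro heq
    exact hij ((Finset.equivFinOfCardEq (hPs s)).symm.injective (Subtype.ext heq))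
  · intro s i j hij
    apply (hc s s).dB _ (Subtype.property _) _ (Subtype.property _)
    intro heq
    exact hij ((Finset.equivFinOfCardEq (hQs s)).symm.injective (Subtype.ext heq))
  · rintro ⟨s, i | j⟩
    · exact (hw s s).2.2.2.2.2.1 _ (Subtype.property _)
    · exact (hw s s).2.2.2.2.2.2 _ (Subtype.property _)

end Pool.Agent.Lib.MP_779bc2_co
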