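import Pool.Agent.Lib.MP_779bc2_co.O4Del
import Pool.Agent.Lib.MP_779bc2_co.O5Key
import Pool.Agent.Lib.MP_779bc2_co.O6Cov
import Pool.Agent.Lib.MP_779bc2_co.O8Struct
import Pool.Agent.Lib.MP_779bc2_co.O11Out

/-! Both odd: assembly -/

set_option autoImplicit false

namespace Pool.Agent.Lib.MP_779bc2_co

open Finset

variable {W : Type} [Fintype W] [DecidableEq W]

theorem oo_th_le (x y : ℝ) (hx : 2 ≤ x) (hy : 2 ≤ y) : th x y ≤ 3 / 2 * max x y := by
  unfold th
  have h1 := le_max_left x y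
  have h2 := le_max_right x y
  apply max_le <;> linarith

/-- a set `U` with `IndLe .. 0` on all worlds is empty -/
theorem oo_zero (R B : SimpleGraph W) (M : W → W → Prop) (x y N e : ℝ) (lr lb : W → Option Bool) (U : Finset W)
    (h : OEnv R B M x y N e lr lb U 0) : U = ∅ := by
  apply Finset.eq_empty_of_forall_notMem
  intro v hv
  have hex : ∃ σ τ, v ∈ VV lr lb U σ τ := by
    refine ⟨(lr v).getD true, (lb v).getD true, ?_⟩
    unfold VV
    rw [mem_filter]
    refine ⟨hv, ?_, ?_⟩
    · cases lr v <;> simp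
    · cases lb v <;> simp
  obtain ⟨σ, τ, hστ⟩ := hex
  obtain ⟨u, hu, w, hw, huw, _⟩ := h.ind σ τ {v} (by simpa using hστ) (by simp)
  rw [mem_singleton] at hu hw
  exact huw (hu.trans hw.symm)

theorem oo_upper (a : ℕ) : ∃ C : ℝ, 0 ≤ C ∧ ∀ (W : Type) [Fintype W] [DecidableEq W] (R B : SimpleGraph W) (M : W → W → Prop)
    (x y N e : ℝ) (lr lb : W → Option Bool) (U : Finset W), OEnv R B M x y N e lr lb U a →
      (U.card : ℝ) ≤ a * (2 * max x y) + C * (e * N) := by
  classical
  induction a with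
  | zero =>
    refine ⟨0, le_refl _, fun W _ _ R B M x y N e lr lb U h => ?_⟩
    rw [oo_zero R B M x y N e lr lb U h]
    simp
  | succ a ih =>
    obtain ⟨C, hC, ih⟩ := ih
    refine ⟨max (C + 2) (2 * kap (a + 1) + 2 * ((a + 1 : ℕ) : ℝ)), le_max_of_le_left (by linarith),
      fun W _ _ R B M x y N e lr lb U h => ?_⟩
    have hμ := h.one
    by_cases hex : ∃ v ∈ U, lr v = none ∧ lb v = none ∧ ((cnb R B v U).card : ℝ) ≤ th x y + 1
    · obtain ⟨v, hv, hr, hb, hc⟩ := hex
      obtain ⟨U', _, hcard, henv⟩ := oo_delete R B M x y N e lr lb U a h v hv hr hb _ hc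
      have h1 := ih W _ _ M x y N e lr lb U' henv
      have h2 := oo_th_le x y h.x2 h.y2
      have h3 : (2 : ℝ) ≤ max x y := h.x2.trans (le_max_left _ _)
      have h4 : (C + 2) * (e * N) ≤ max (C + 2) (2 * kap (a + 1) + 2 * ((a + 1 : ℕ) : ℝ)) * (e * N) :=
        mul_le_mul_of_nonneg_right (le_max_left _ _) (by linarith)
      push_cast at h4 ⊢
      nlinarith
    · push Not at hex
      obtain ⟨hR, hB⟩ := oo_small R B M x y N e lr lb U (a + 1) h (fun v hv hr hb => hex v hv hr hb)
      have h1 := oo_U_le R B M x y N e lr lb U (a + 1) h hR hB (oo_cov R B M x y N e lr lb U (a + 1) h)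
      have h4 : (2 * kap (a + 1) + 2 * ((a + 1 : ℕ) : ℝ)) * (e * N)
          ≤ max (C + 2) (2 * kap (a + 1) + 2 * ((a + 1 : ℕ) : ℝ)) * (e * N) :=
        mul_le_mul_of_nonneg_right (le_max_right _ _) (by linarith)
      linarith

theorem core_oo (a : ℕ) : CoreSt true true a := by
  classical
  intro c hc e' he'
  obtain ⟨C, hC, hup⟩ := oo_upper (a - 1)
  have hk3 := kap3_nonneg a
  set K1 : ℝ := 4 * kap3 a + 20 + 2 * (C + 4) with hK1
  set K2 : ℝ := kap3 a + 8 * a + 20 with hK2
  have hK1pos : 0 < K1 := by positivity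
  have hK2pos : 0 < K2 := by positivity
  refine ⟨min (c / (2 * K1)) (e' / K2), by positivity, fun W _ _ R B M x y N lr lb U henv hlab hind hU => ?_⟩
  set e : ℝ := min (c / (2 * K1)) (e' / K2) with he
  have hepos : 0 < e := by rw [he]; positivity
  have hμ : 1 ≤ e * N := henv.one
  have hN : 0 < N := by
    by_contra hN
    have : e * N ≤ 0 := mul_nonpos_of_nonneg_of_nonpos hepos.le (not_lt.mp hN)
    linarith
  have he1 : K1 * (e * N) < max x y := by
    have h1 : e ≤ c / (2 * K1) := min_le_left _ _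
    have h2 : K1 * e ≤ c / 2 := by
      calc K1 * e ≤ K1 * (c / (2 * K1)) := mul_le_mul_of_nonneg_left h1 hK1pos.le
        _ = c / 2 := by field_simp
    have h3 : K1 * (e * N) ≤ c / 2 * N := by
      rw [← mul_assoc]; exact mul_le_mul_of_nonneg_right h2 hN.le
    have h4 := henv.big
    have h5 : 0 < c * N := by positivity
    linarith
  have he2 : K2 * (e * N) ≤ e' * N := by
    have h1 : e ≤ e' / K2 := min_le_right _ _
    have h2 : K2 * e ≤ e' := by
      calc K2 * e ≤ K2 * (e' / K2) := mul_le_mul_of_nonneg_left h1 hK2pos.le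
        _ = e' := by field_simp
    rw [← mul_assoc]; exact mul_le_mul_of_nonneg_right h2 hN.le
  have hff : ff true true x y = 2 * max x y := by simp [ff]
  rw [hff] at hU
  have ho := oenv_res R B M x y N e c lr lb U a henv hlab hind
  have hmx : (2 : ℝ) ≤ max x y := henv.x2.trans (le_max_left _ _)
  by_cases hex : ∃ v ∈ U, lr v = none ∧ lb v = none ∧ ((cnb (res R U) (res B U) v U).card : ℝ) ≤ th x y + 1
  · exfalso
    obtain ⟨v, hv, hr, hb, hcn⟩ := hex
    cases a with
    | zero =>
      have := oo_zero _ _ M x y N e lr lb U ho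
      rw [this] at hv
      simp at hv
    | succ a =>
      obtain ⟨U', _, hcard, henv'⟩ := oo_delete _ _ M x y N e lr lb U a ho v hv hr hb _ hcn
      have h1 := hup W _ _ M x y N e lr lb U' henv'
      have h2 := oo_th_le x y henv.x2 henv.y2
      rw [Nat.add_sub_cancel] at h1
      push_cast at hU
      have hk : 0 ≤ kap3 (a + 1) * (e * N) := mul_nonneg hk3 (by linarith)
      have hCμ : 0 ≤ C * (e * N) := mul_nonneg hC (by linarith)
      rw [hK1] at he1
      nlinarith
  · push Not at hex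
    obtain ⟨hR, hB⟩ := oo_small _ _ M x y N e lr lb U a ho (fun v hv hr hb => hex v hv hr hb)
    have hbig : (4 * kap3 a + 20) * (e * N) < max x y := by
      refine lt_of_le_of_lt ?_ he1
      apply mul_le_mul_of_nonneg_right _ (by linarith)
      rw [hK1]; linarith
    obtain ⟨p, q, gR, gB, hstr⟩ := oo_struct _ _ M x y N e lr lb U a ho hR hB
      (oo_cov _ _ M x y N e lr lb U a ho) hbig hU
    obtain ⟨ι, _, cl, σ, Q, hout⟩ := oo_out _ _ M x y N e lr lb U a p q gR gB hstr (e' * N) (by rw [← hK2]; exact he2)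
    exact ⟨ι, _, cl, σ, Q, out_res R B x y (e' * N) lr lb U a cl σ Q hout⟩

end Pool.Agent.Lib.MP_779bc2_co
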