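import Pool.Agent.Lib.MP_779bc2_co.EE5
import Pool.Agent.Lib.MP_779bc2_co.EO7
import Pool.Agent.Lib.MP_779bc2_co.EO9Swap
import Pool.Agent.Lib.MP_779bc2_co.OMain

/-! Part II, structure theorem (assembled from the parity cases) -/

set_option autoImplicit false

namespace Pool.Agent.Lib.MP_779bc2_co

theorem core (fR fB : Bool) (a : ℕ) : CoreSt fR fB a := by
  cases fR <;> cases fB
  · exact core_ff a
  · exact core_ft_of a (EO_str a)
  · exact core_tf_of a (core_ft_of a (EO_str a))
  · exact core_oo a

end Pool.Agent.Lib.MP_779bc2_co
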