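import Mathlib

/-!
# MP_779bc2_co: common definitions

`Col s t`: the colours of the edges. `long false` is the colour (red) in which `C_n` is forbidden, `long true` the colour (blue) in which `C_m` is
forbidden, `bip k` the colour in which `K_{b_k,c_k}` is forbidden, `odd j` the colour in which `C_{2 d_j+1}` is forbidden.
-/

set_option autoImplicit false

namespace Pool.Agent.Lib.MP_779bc2_co

open Finset

/-- the colours -/
inductive Col (s t : ℕ) where
  | long (i : Bool)
  | bip (k : Fin s)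
  | odd (j : Fin t)
  deriving DecidableEq

/-- the fixed parameters: `[B] = (K_{b_k,c_k})_{k<s}`, `[C] = (C_{2 d_j+1})_{j<t}` -/
structure Pm where
  s : ℕ
  t : ℕ
  b : Fin s → ℕ
  c : Fin s → ℕ
  d : Fin t → ℕ
  hb : ∀ k, 1 ≤ b k
  hbc : ∀ k, b k ≤ c k
  hd : ∀ j, 1 ≤ d j

/-- `ℓ = ∑ (b_k - 1)` -/
def Pm.ell (p : Pm) : ℕ := ∑ k, (p.b k - 1)

/-- `l` is a cycle of the relation `G`: distinct vertices, consecutive ones in relation `G`, the last one and the first one too -/
def IsCyc {W : Type} (G : W → W → Prop) (l : List W) : Prop :=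
  l.Nodup ∧ l.IsChain G ∧ ∀ a b, l.head? = some a → l.getLast? = some b → G b a

/-- there is a cycle with `n` vertices (meant for `n ≥ 3` and symmetric `G`) -/
def HasCyc {W : Type} (G : W → W → Prop) (n : ℕ) : Prop :=
  ∃ l : List W, l.length = n ∧ IsCyc G l

/-- there is a `K_{b,c}` -/
def HasBip {W : Type} (G : W → W → Prop) (b c : ℕ) : Prop :=
  ∃ A C : Finset W, A.card = b ∧ C.card = c ∧ Disjoint A C ∧ ∀ u ∈ A, ∀ w ∈ C, G u w

/-- the length of the long cycle of colour `long i` -/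
def len (n m : ℕ) (i : Bool) : ℕ := if i then m else n

/-- symmetric colouring without the forbidden monochromatic graphs -/
structure Free {W : Type} (p : Pm) (n m : ℕ) (χ : W → W → Col p.s p.t) : Prop where
  symm : ∀ u v, χ u v = χ v u
  long : ∀ i, ¬ HasCyc (fun u v => χ u v = .long i) (len n m i)
  bip : ∀ k, ¬ HasBip (fun u v => χ u v = .bip k) (p.b k) (p.c k)
  odd : ∀ j, ¬ HasCyc (fun u v => χ u v = .odd j) (2 * p.d j + 1)

/-- `a + 1 ≥ r(≤ [C])`: every colouring of the edges of `K_{a+1}` with `t` colours has, for some `j`, an odd cycle of length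
at most `2 d_j + 1` in colour `j` -/
def OddProp (p : Pm) (a : ℕ) : Prop :=
  ∀ κ : Fin (a + 1) → Fin (a + 1) → Fin p.t, (∀ u v, κ u v = κ v u) →
    ∃ j g, 1 ≤ g ∧ g ≤ p.d j ∧ HasCyc (fun u v => κ u v = j) (2 * g + 1)

/-- the number `F(n, m, ℓ)`; the answer is `(r(≤[C]) - 1) F + 1` -/
def Fval (n m l : ℕ) : ℕ :=
  max (max (n + (m + 1) / 2 + l - 2) (m + (n + 1) / 2 + l - 2))
    (max (if Odd m then 2 * (n + l - 1) else 0) (if Odd n then 2 * (m + l - 1) else 0))

section graphs

variable {W : Type} [Fintype W] [DecidableEq W]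

open Classical in
/-- number of the ordered pairs in `A × B` with property `P` -/
noncomputable def prs (P : W → W → Prop) (A B : Finset W) : ℝ :=
  (((A ×ˢ B).filter (fun q => P q.1 q.2)).card : ℝ)

open Classical in
/-- `ZLe G x`: every injective partial map along the edges of one component of `G` has a domain with at most `x` elements
(twice the size of a maximal fractional matching of every component is at most `x`) -/
def ZLe (G : SimpleGraph W) (x : ℝ) : Prop :=
  ∀ (D : Finset W) (φ : W → W), Set.InjOn φ D → (∀ u ∈ D, G.Adj u (φ u)) →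
    (∀ u ∈ D, ∀ w ∈ D, G.Reachable u w) → (D.card : ℝ) ≤ x

open Classical in
/-- neighbours of `v` in `U` -/
noncomputable def nb (G : SimpleGraph W) (v : W) (U : Finset W) : Finset W := U.filter (fun w => G.Adj v w)

open Classical in
/-- elements of `U` which are not neighbours of `v` (contains `v` if `v ∈ U`) -/
noncomputable def nn (G : SimpleGraph W) (v : W) (U : Finset W) : Finset W := U.filter (fun w => ¬ G.Adj v w)

open Classical in
/-- the component of `v` -/
noncomputable def comp (G : SimpleGraph W) (v : W) : Finset W := univ.filter (fun w => G.Reachable v w)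

/-- `G` restricted to `U` -/
def res (G : SimpleGraph W) (U : Finset W) : SimpleGraph W where
  Adj u w := u ∈ U ∧ w ∈ U ∧ G.Adj u w
  symm := ⟨fun _ _ h => ⟨h.2.1, h.1, h.2.2.symm⟩⟩
  loopless := ⟨fun _ h => h.2.2.ne rfl⟩

/-- every set of more than `a` elements of `U` contains two elements which are `M`-related or adjacent -/
def IndLe (R B : SimpleGraph W) (M : W → W → Prop) (U : Finset W) (a : ℕ) : Prop :=
  ∀ T ⊆ U, a < T.card → ∃ u ∈ T, ∃ w ∈ T, u ≠ w ∧ (M u w ∨ R.Adj u w ∨ B.Adj u w)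

open Classical in
/-- closed neighbourhood of `v` in `U` -/
noncomputable def cnb (R B : SimpleGraph W) (v : W) (U : Finset W) : Finset W :=
  insert v (U.filter (fun w => R.Adj v w ∨ B.Adj v w))

open Classical in
/-- `M` is reflexive, symmetric, and has degrees at most `μ` -/
structure MisLe (M : W → W → Prop) (μ : ℝ) : Prop where
  refl : ∀ v, M v v
  symm : ∀ u v, M u v → M v u
  card : ∀ v, ((univ.filter (fun w => M v w)).card : ℝ) ≤ μ

/-- the common environment of the lemmas of part II: `x`, `y` bound the matchings of the components of `R`, `B` -/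
structure Env (R B : SimpleGraph W) (M : W → W → Prop) (x y N e c : ℝ) : Prop where
  cardW : (Fintype.card W : ℝ) ≤ N
  one : 1 ≤ e * N
  mis : MisLe M (e * N)
  zR : ZLe R x
  zB : ZLe B y
  x2 : 2 ≤ x
  y2 : 2 ≤ y
  xN : x ≤ 2 * N
  yN : y ≤ 2 * N
  big : c * N ≤ max x y

/-- `θ = max (x + y/2) (y + x/2)` -/
noncomputable def th (x y : ℝ) : ℝ := max (x + y / 2) (y + x / 2)

open Classical in
/-- a unit: `Q` is nearly a clique of `R` with few edges of `B` inside, `Z` is joined to `Q` by `B` -/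
structure IsUnit' (R B : SimpleGraph W) (x y E : ℝ) (Q Z : Finset W) : Prop where
  cardQ : x - E ≤ Q.card
  cardZ : y / 2 - E ≤ Z.card
  disj : Disjoint Q Z
  near : ∀ q ∈ Q, ((nn R q Q).card : ℝ) ≤ E
  few : ∀ q ∈ Q, ((nb B q Q).card : ℝ) ≤ E
  join : ∀ z ∈ Z, ((nn B z Q).card : ℝ) ≤ E
  ratio : y ≤ 3 / 2 * x + E

open Classical in
/-- `q ∈ Q` has at most `E` neighbours (of either colour) in `Q'` -/
def CrossLe (R B : SimpleGraph W) (E : ℝ) (Q Q' : Finset W) : Prop :=
  ∀ q ∈ Q, ((Q'.filter (fun w => R.Adj q w ∨ B.Adj q w)).card : ℝ) ≤ E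

open Classical in
/-- `v` may be assigned to the clique `Q` of colour `long κ`: few edges of forbidden colours from `v` to `Q` -/
def Asg (p : Pm) (n m : ℕ) (χ : W → W → Col p.s p.t) (N δ : ℝ) (κ : Bool) (Q : Finset W) (v : W) : Prop :=
  (∀ j, ((Q.filter (fun w => χ v w = .odd j)).card : ℝ) < δ * N) ∧
    (Odd (len n m (!κ)) → ((Q.filter (fun w => χ v w = .long (!κ))).card : ℝ) < δ * N)

open Classical in
/-- the elements of the clique `Q` (colour `long κ`) with at most `ρ` elements of `Q` not joined in colour `long κ` -/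
noncomputable def Typ (p : Pm) (χ : W → W → Col p.s p.t) (ρ : ℝ) (κ : Bool) (Q : Finset W) : Finset W :=
  Q.filter (fun q => ((Q.filter (fun w => χ q w ≠ .long κ)).card : ℝ) ≤ ρ)

open Classical in
/-- The output of parts I and II, the input of part III. `Q i` is nearly a clique of colour `long (cl i)`; the clique `i` is called *plain* if
`len (!cl i)` is even, *sided* if it is odd. -/
structure Frame (p : Pm) (n m a : ℕ) (χ : W → W → Col p.s p.t) (N δ e : ℝ) {ι : Type} [Fintype ι]
    (cl : ι → Bool) (Q : ι → Finset W) : Prop where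
  disj : ∀ i j, i ≠ j → Disjoint (Q i) (Q j)
  size : ∀ i, (len n m (cl i) : ℝ) - e * N ≤ (Q i).card
  sel : ∀ v, ∃ J : Finset ι, J.card = a ∧
    (∀ i ∈ J, Odd (len n m (!cl i)) →
      (((Q i).filter (fun w => χ v w = .long (!cl i))).card : ℝ) < δ * N) ∧
    ∀ i ∈ J, ∀ j ∈ J, i ≠ j → prs (fun u w => ∃ κ, χ u w = .long κ) (Q i) (Q j) ≤ e * N ^ 2
  own : ∀ i j, i ≠ j →
    prs (fun u w => χ u w = .long (cl j) ∨ (Even (len n m (!cl j)) ∧ χ u w = .long (!cl j)))
      (Q i) (Q j) ≤ e * N ^ 2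
  inner : ∀ i, prs (fun u w => χ u w = .long (!cl i)) (Q i) (Q i) ≤ e * N ^ 2
  ratio : ∀ i, (len n m (!cl i) : ℝ) ≤ 3 / 2 * len n m (cl i) + e * N
  count : 2 * (univ.filter (fun i => Even (len n m (!cl i)))).card
    + (univ.filter (fun i => Odd (len n m (!cl i)))).card ≤ 2 * a

open Classical in
/-- The template (reduced graph blown up to the vertices), output of part I. `T κ` is the template graph of the colour `long κ`,
`M` the relation same cluster or irregular pair. -/
structure Tpl (p : Pm) (n m a : ℕ) (χ : W → W → Col p.s p.t) (N δ e : ℝ) (V0 : Finset W)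
    (T : Bool → SimpleGraph W) (M : W → W → Prop) : Prop where
  big : (1 - e) * N ≤ V0.card
  inV : ∀ κ u w, (T κ).Adj u w → u ∈ V0 ∧ w ∈ V0
  mis : MisLe M (e * N)
  ind : IndLe (T false) (T true) M V0 a
  evenZ : ∀ κ, Even (len n m κ) → ZLe (T κ) ((1 + e) * len n m κ)
  oddZ : ∀ κ, ∀ (D : Finset W) (φ : W → W), Set.InjOn φ D → (∀ u ∈ D, (T κ).Adj u (φ u)) →
    (∀ u ∈ D, ∀ w ∈ D, (T κ).Reachable u w) → (∃ u ∈ D, ∃ w : (T κ).Walk u u, Odd w.length) →
    (D.card : ℝ) ≤ (1 + e) * len n m κ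
  dens : ∀ κ, ∀ U1 ⊆ V0, ∀ U2 ⊆ V0, prs (fun u w => χ u w = .long κ) U1 U2 ≤
    prs (fun u w => (T κ).Adj u w ∨ M u w) U1 U2 + e * N ^ 2
  attach : ∀ κ, Odd (len n m κ) → ∀ v, ∀ U1 ⊆ V0, ∀ U2 ⊆ V0, ∀ (D : Finset W) (φ : W → W),
    Set.InjOn φ D → (∀ u ∈ D, (T κ).Adj u (φ u)) → (1 + e) * len n m κ ≤ D.card →
    (∀ u ∈ D ∪ U1 ∪ U2, ∀ w ∈ D ∪ U1 ∪ U2, (T κ).Reachable u w) →
    (∀ u ∈ U1, ∀ u' ∈ U2, ∃ w : (T κ).Walk u u', Odd w.length) →
    δ * N ≤ ((U1.filter (fun u => χ v u = .long κ)).card : ℝ) →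
    δ * N ≤ ((U2.filter (fun u => χ v u = .long κ)).card : ℝ) → False

end graphs

end Pool.Agent.Lib.MP_779bc2_co
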