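import Pool.Agent.Lib.MP_779bc2_co.H0Util

/-! Row H8Trans (about 130 lines): transversals of families of large sets -/

set_option autoImplicit false

namespace Pool.Agent.Lib.MP_779bc2_co

open Finset

theorem h8_biUnion_le {ι W : Type} [DecidableEq W] (s : Finset ι) (f : ι → Finset W) (D : ℝ) (h : ∀ i ∈ s, ((f i).card : ℝ) ≤ D) :
    ((s.biUnion f).card : ℝ) ≤ s.card * D := by
  have h1 : ((s.biUnion f).card : ℝ) ≤ ∑ i ∈ s, ((f i).card : ℝ) := by exact_mod_cast card_biUnion_le
  have h2 : ∑ i ∈ s, ((f i).card : ℝ) ≤ ∑ _i ∈ s, D := sum_le_sum h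
  rw [sum_const, nsmul_eq_mul] at h2
  linarith

open Classical in
/-- Greedy choice (induction on `k`): choose `q 0, q 1, …` one after the other; for `q j` at most `(|F| + k) D` elements of `Q j` are forbidden. -/
theorem transversal {W : Type} (P : W → W → Prop) (hP : ∀ u w, P u w → P w u) (D : ℝ) (hD : 0 ≤ D) (k : ℕ) (Q : Fin k → Finset W)
    (F : Finset W) (hQ : ∀ i j, i ≠ j → ∀ q ∈ Q i, (((Q j).filter (fun w => P q w)).card : ℝ) ≤ D)
    (hF : ∀ f ∈ F, ∀ j, (((Q j).filter (fun w => P f w)).card : ℝ) ≤ D)
    (hbig : ∀ j, ((F.card : ℝ) + k) * D < (Q j).card) :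
    ∃ q : Fin k → W, (∀ j, q j ∈ Q j) ∧ (∀ f ∈ F, ∀ j, ¬ P f (q j)) ∧ ∀ i j, i ≠ j → ¬ P (q i) (q j) := by
  have hne : ∀ i, (Q i).Nonempty := by
    intro i
    have h0 : 0 ≤ ((F.card : ℝ) + k) * D := by positivity
    have h1 : (0 : ℝ) < (Q i).card := lt_of_le_of_lt h0 (hbig i)
    exact card_pos.mp (by exact_mod_cast h1)
  have key : ∀ j ≤ k, ∃ q : Fin k → W, (∀ i, q i ∈ Q i) ∧ (∀ i : Fin k, i.val < j → ∀ f ∈ F, ¬ P f (q i)) ∧
      ∀ i i' : Fin k, i.val < j → i'.val < j → i ≠ i' → ¬ P (q i) (q i') := by
    intro j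
    induction j with
    | zero =>
      intro _
      choose q hq using hne
      exact ⟨q, hq, fun i hi => absurd hi (Nat.not_lt_zero _), fun i i' hi => absurd hi (Nat.not_lt_zero _)⟩
    | succ j ih =>
      intro hj
      obtain ⟨q, hq, hF1, hP1⟩ := ih (by omega)
      obtain ⟨z, hz, hzF, hzP⟩ : ∃ z ∈ Q ⟨j, hj⟩, (∀ f ∈ F, ¬ P f z) ∧ ∀ i : Fin k, i.val < j → ¬ P (q i) z := by
        by_contra hcon
        push Not at hcon
        have hsub : Q ⟨j, hj⟩ ⊆ (F.biUnion fun f => (Q ⟨j, hj⟩).filter (fun w => P f w)) ∪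
            ((univ.filter (fun i : Fin k => i.val < j)).biUnion fun i => (Q ⟨j, hj⟩).filter (fun w => P (q i) w)) := by
          intro z hz
          by_cases hzF : ∀ f ∈ F, ¬ P f z
          · obtain ⟨i, hi, hiz⟩ := hcon z hz hzF
            refine mem_union_right _ (mem_biUnion.mpr ⟨i, mem_filter.mpr ⟨mem_univ _, hi⟩, mem_filter.mpr ⟨hz, hiz⟩⟩)
          · push Not at hzF
            obtain ⟨f, hf, hfz⟩ := hzF
            exact mem_union_left _ (mem_biUnion.mpr ⟨f, hf, mem_filter.mpr ⟨hz, hfz⟩⟩)
        have h1 := h8_biUnion_le F (fun f => (Q ⟨j, hj⟩).filter (fun w => P f w)) D (fun f hf => hF f hf _)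
        have h2 := h8_biUnion_le (univ.filter (fun i : Fin k => i.val < j)) (fun i => (Q ⟨j, hj⟩).filter (fun w => P (q i) w)) D
          (fun i hi => hQ i ⟨j, hj⟩ (by
            rintro rfl
            simp at hi) (q i) (hq i))
        have h3 : ((univ.filter (fun i : Fin k => i.val < j)).card : ℝ) ≤ k := by
          have : (univ.filter (fun i : Fin k => i.val < j)).card ≤ (univ : Finset (Fin k)).card := card_le_card (filter_subset _ _)
          rw [card_univ, Fintype.card_fin] at this
          exact_mod_cast this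
        have h4 : ((Q ⟨j, hj⟩).card : ℝ) ≤ ((F.biUnion fun f => (Q ⟨j, hj⟩).filter (fun w => P f w)).card : ℝ) +
            (((univ.filter (fun i : Fin k => i.val < j)).biUnion fun i => (Q ⟨j, hj⟩).filter (fun w => P (q i) w)).card : ℝ) := by
          exact_mod_cast (card_le_card hsub).trans (card_union_le _ _)
        have h5 := mul_le_mul_of_nonneg_right h3 hD
        have h6 := hbig ⟨j, hj⟩
        linarith
      refine ⟨Function.update q ⟨j, hj⟩ z, ?_, ?_, ?_⟩
      · intro i
        by_cases hi : i = ⟨j, hj⟩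
        · subst hi
          rw [Function.update_self]
          exact hz
        · rw [Function.update_of_ne hi]
          exact hq i
      · intro i hi f hf
        by_cases hij : i = ⟨j, hj⟩
        · subst hij
          rw [Function.update_self]
          exact hzF f hf
        · rw [Function.update_of_ne hij]
          exact hF1 i (by
            have : i.val ≠ j := fun h => hij (Fin.ext h)
            omega) f hf
      · intro i i' hi hi' hne'
        by_cases h1 : i = ⟨j, hj⟩
        · subst h1
          rw [Function.update_self, Function.update_of_ne hne'.symm]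
          intro hp
          exact hzP i' (by
            have : i'.val ≠ j := fun h => hne' (Fin.ext h.symm)
            omega) (hP _ _ hp)
        · by_cases h2 : i' = ⟨j, hj⟩
          · subst h2
            rw [Function.update_self, Function.update_of_ne hne']
            exact hzP i (by
              have : i.val ≠ j := fun h => hne' (Fin.ext h)
              omega)
          · rw [Function.update_of_ne h1, Function.update_of_ne h2]
            exact hP1 i i' (by
              have : i.val ≠ j := fun h => h1 (Fin.ext h)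
              omega) (by
              have : i'.val ≠ j := fun h => h2 (Fin.ext h)
              omega) hne'
  obtain ⟨q, hq, hF1, hP1⟩ := key k le_rfl
  exact ⟨q, hq, fun f hf j => hF1 j j.2 f hf, fun i j hij => hP1 i j i.2 j.2 hij⟩

open Classical in
/-- `transversal` for `P u w := M u w ∨ R.Adj u w ∨ B.Adj u w`, `D = E + μ`, `F = {u, w}`. If `P u w` does not hold then `u ≠ w` (`M` is reflexive) and `{u, w} ∪ {q j}` contradicts `IndLe`. -/
theorem complete_of_cliques {W : Type} [Fintype W] [DecidableEq W] (R B : SimpleGraph W) (M : W → W → Prop) (μ E : ℝ) (hM : MisLe M μ)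
    (hE : 0 ≤ E) (U : Finset W) (k : ℕ) (hind : IndLe R B M U (k + 1)) (Q : Fin k → Finset W) (hQU : ∀ i, Q i ⊆ U)
    (cross : ∀ i j, i ≠ j → CrossLe R B E (Q i) (Q j)) (hbig : ∀ j, ((k : ℝ) + 2) * (E + μ) < (Q j).card)
    (u w : W) (hu : u ∈ U) (hw : w ∈ U) (hu1 : ∀ j, (((Q j).filter (fun z => R.Adj u z ∨ B.Adj u z)).card : ℝ) ≤ E)
    (hw1 : ∀ j, (((Q j).filter (fun z => R.Adj w z ∨ B.Adj w z)).card : ℝ) ≤ E) :
    M u w ∨ R.Adj u w ∨ B.Adj u w := by
  by_contra hcon
  have hμ : 0 ≤ μ := (Nat.cast_nonneg _).trans (hM.card u)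
  set P : W → W → Prop := fun u w => M u w ∨ R.Adj u w ∨ B.Adj u w with hPdef
  have hPs : ∀ u w, P u w → P w u := by
    intro u w h
    rcases h with h | h | h
    · exact Or.inl (hM.symm _ _ h)
    · exact Or.inr (Or.inl h.symm)
    · exact Or.inr (Or.inr h.symm)
  have hPn : ∀ u w, ¬ P u w → u ≠ w := by
    rintro u w h rfl
    exact h (Or.inl (hM.refl u))
  have hbd : ∀ (v : W) (S : Finset W), ((S.filter (fun z => R.Adj v z ∨ B.Adj v z)).card : ℝ) ≤ E →
      ((S.filter (fun z => P v z)).card : ℝ) ≤ E + μ := by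
    intro v S hS
    have hsub : S.filter (fun z => P v z) ⊆ (S.filter (fun z => R.Adj v z ∨ B.Adj v z)) ∪ (univ.filter (fun z => M v z)) := by
      intro z hz
      rw [mem_filter] at hz
      rcases hz.2 with h | h | h
      · exact mem_union_right _ (mem_filter.mpr ⟨mem_univ _, h⟩)
      · exact mem_union_left _ (mem_filter.mpr ⟨hz.1, Or.inl h⟩)
      · exact mem_union_left _ (mem_filter.mpr ⟨hz.1, Or.inr h⟩)
    have h1 : ((S.filter (fun z => P v z)).card : ℝ) ≤ ((S.filter (fun z => R.Adj v z ∨ B.Adj v z)).card : ℝ) +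
        ((univ.filter (fun z => M v z)).card : ℝ) := by
      exact_mod_cast (card_le_card hsub).trans (card_union_le _ _)
    have h2 := hM.card v
    have h3 : ((univ.filter (fun z => M v z)).card : ℝ) ≤ μ := by
      refine le_trans (le_of_eq ?_) h2
      congr!
    linarith
  have huw : u ≠ w := hPn _ _ hcon
  have hFc : (({u, w} : Finset W).card : ℝ) = 2 := by
    rw [card_pair huw]; norm_num
  obtain ⟨q, hq, hqF, hqq⟩ := transversal P hPs (E + μ) (by linarith) k Q {u, w}
    (fun i j hij z hz => by
      have h := hbd z (Q j) (by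
        refine le_trans (le_of_eq ?_) (cross i j hij z hz)
        congr!)
      refine le_trans (le_of_eq ?_) h
      congr 2
      ext t
      simp only [mem_filter])
    (fun f hf j => by
      rcases mem_insert.mp hf with rfl | hf
      · have h := hbd _ _ (hu1 j)
        refine le_trans (le_of_eq ?_) h
        congr 2
        ext t
        simp only [mem_filter]
      · rw [mem_singleton] at hf
        subst hf
        have h := hbd _ _ (hw1 j)
        refine le_trans (le_of_eq ?_) h
        congr 2
        ext t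
        simp only [mem_filter])
    (fun j => by
      rw [hFc]
      have := hbig j
      linarith)
  have hqinj : Function.Injective q := by
    intro i j hij
    by_contra hne
    exact hPn _ _ (hqq i j hne) hij
  have hqu : ∀ j, q j ≠ u := fun j => (hPn _ _ (hqF u (mem_insert_self _ _) j)).symm
  have hqw : ∀ j, q j ≠ w := fun j => (hPn _ _ (hqF w (mem_insert_of_mem (mem_singleton_self _)) j)).symm
  set T : Finset W := insert u (insert w (univ.image q)) with hT
  have hTc : T.card = k + 2 := by
    rw [hT, card_insert_of_notMem, card_insert_of_notMem, card_image_of_injective _ hqinj, card_univ, Fintype.card_fin]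
    · intro h
      rw [mem_image] at h
      obtain ⟨j, _, hj⟩ := h
      exact hqw j hj
    · intro h
      rw [mem_insert, mem_image] at h
      rcases h with h | ⟨j, _, hj⟩
      · exact huw h
      · exact hqu j hj
  have hTU : T ⊆ U := by
    intro z hz
    rw [hT, mem_insert, mem_insert, mem_image] at hz
    rcases hz with rfl | rfl | ⟨j, _, rfl⟩
    · exact hu
    · exact hw
    · exact hQU j (hq j)
  obtain ⟨s, hs, t, ht, hst, h⟩ := hind T hTU (by omega)
  have hPst : P s t := h
  rw [hT, mem_insert, mem_insert, mem_image] at hs ht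
  rcases hs with rfl | rfl | ⟨i, _, rfl⟩ <;> rcases ht with rfl | rfl | ⟨j, _, rfl⟩
  · exact hst rfl
  · exact hcon hPst
  · exact hqF _ (mem_insert_self _ _) j hPst
  · exact hcon (hPs _ _ hPst)
  · exact hst rfl
  · exact hqF _ (mem_insert_of_mem (mem_singleton_self _)) j hPst
  · exact hqF _ (mem_insert_self _ _) i (hPs _ _ hPst)
  · exact hqF _ (mem_insert_of_mem (mem_singleton_self _)) i (hPs _ _ hPst)
  · exact hqq i j (fun h => hst (by rw [h])) hPst

end Pool.Agent.Lib.MP_779bc2_co
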