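import Pool.Agent.Lib.MP_779bc2_co.S1
import Pool.Agent.Lib.MP_779bc2_co.H8Trans

/-! Part II, both cycles even: definitions -/

set_option autoImplicit false

namespace Pool.Agent.Lib.MP_779bc2_co

open Finset

/-- `a` units in `U`; unit `i` is red (clique in `R`) iff `cl i = false` -/
structure EEOut {W : Type} [Fintype W] [DecidableEq W] (R B : SimpleGraph W) (x y E : ℝ) (a : ℕ) (U : Finset W)
    (cl : Fin a → Bool) (Q Z : Fin a → Finset W) : Prop where
  subQ : ∀ i, Q i ⊆ U
  subZ : ∀ i, Z i ⊆ U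
  disj : ∀ i j, i ≠ j → Disjoint (Q i) (Q j)
  unitR : ∀ i, cl i = false → IsUnit' R B x y E (Q i) (Z i)
  unitB : ∀ i, cl i = true → IsUnit' B R y x E (Q i) (Z i)
  cross : ∀ i j, i ≠ j → CrossLe R B E (Q i) (Q j)

theorem IsUnit'.mono {W : Type} [Fintype W] [DecidableEq W] {R B : SimpleGraph W} {x y E E' : ℝ} {Q Z : Finset W}
    (h : IsUnit' R B x y E Q Z) (hE : E ≤ E') : IsUnit' R B x y E' Q Z :=
  ⟨by linarith [h.cardQ], by linarith [h.cardZ], h.disj, fun q hq => (h.near q hq).trans hE, fun q hq => (h.few q hq).trans hE,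
    fun z hz => (h.join z hz).trans hE, by linarith [h.ratio]⟩

theorem CrossLe.mono {W : Type} [Fintype W] [DecidableEq W] {R B : SimpleGraph W} {E E' : ℝ} {Q Q' : Finset W}
    (h : CrossLe R B E Q Q') (hE : E ≤ E') : CrossLe R B E' Q Q' := fun q hq => (h q hq).trans hE

theorem CrossLe.swap {W : Type} [Fintype W] [DecidableEq W] {R B : SimpleGraph W} {E : ℝ} {Q Q' : Finset W}
    (h : CrossLe R B E Q Q') : CrossLe B R E Q Q' := fun q hq => by
  classical
  refine le_trans ?_ (h q hq)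
  norm_cast
  apply card_le_card
  intro w hw
  rw [mem_filter] at hw ⊢
  exact ⟨hw.1, by tauto⟩

theorem EEOut.mono {W : Type} [Fintype W] [DecidableEq W] {R B : SimpleGraph W} {x y E E' : ℝ} {a : ℕ} {U : Finset W}
    {cl : Fin a → Bool} {Q Z : Fin a → Finset W} (h : EEOut R B x y E a U cl Q Z) (hE : E ≤ E') : EEOut R B x y E' a U cl Q Z :=
  ⟨h.subQ, h.subZ, h.disj, fun i hi => (h.unitR i hi).mono hE, fun i hi => (h.unitB i hi).mono hE, fun i j hij => (h.cross i j hij).mono hE⟩

theorem EEOut.swap {W : Type} [Fintype W] [DecidableEq W] {R B : SimpleGraph W} {x y E : ℝ} {a : ℕ} {U : Finset W}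
    {cl : Fin a → Bool} {Q Z : Fin a → Finset W} (h : EEOut R B x y E a U cl Q Z) : EEOut B R y x E a U (fun i => !cl i) Q Z :=
  ⟨h.subQ, h.subZ, h.disj, fun i hi => h.unitB i (by simpa using hi), fun i hi => h.unitR i (by simpa using hi),
    fun i j hij => (h.cross i j hij).swap⟩

end Pool.Agent.Lib.MP_779bc2_co
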