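import Pool.Agent.Lib.MP_779bc2_co.EE0

/-! Row EE1 (about 130 lines): small components and the upper bound, both cycles even -/

set_option autoImplicit false

namespace Pool.Agent.Lib.MP_779bc2_co

open Finset

open Classical in
/-- If all `v ∈ U` have more than `th x y + 1` closed neighbours in `U`: `small_comps` for `res R U`, `res B U`, `P = U`, `e1 = 0` (the conditions on `U \ P` are void), and `cover_comps` (`IndLe.res`). -/
theorem ee_comps {W : Type} [Fintype W] [DecidableEq W] (R B : SimpleGraph W) (M : W → W → Prop) (x y N e c : ℝ)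
    (henv : Env R B M x y N e c) (U : Finset W) (a : ℕ) (hind : IndLe R B M U a)
    (hbig : ∀ v ∈ U, th x y + 1 < ((cnb R B v U).card : ℝ)) :
    (∀ v, ((comp (res R U) v).card : ℝ) ≤ x ∧ ((comp (res B U) v).card : ℝ) ≤ y) ∧
    ∃ A D : Finset W, A.card + D.card ≤ a ∧
      (∀ u ∈ A, ∀ w ∈ A, u ≠ w → ¬ (res R U).Reachable u w) ∧ (∀ u ∈ D, ∀ w ∈ D, u ≠ w → ¬ (res B U).Reachable u w) ∧
      ((U.filter (fun v => (∀ u ∈ A, ¬ (res R U).Reachable u v) ∧ (∀ u ∈ D, ¬ (res B U).Reachable u v))).card : ℝ) ≤ 2 ^ (a + 1) * (e * N) ∧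
      (U.card : ℝ) ≤ A.card * x + D.card * y + 2 ^ (a + 1) * (e * N) := by
  have hcn : ∀ v ∈ U, cnb (res R U) (res B U) v U = cnb R B v U := by
    intro v hv
    ext w
    rw [mem_cnb, mem_cnb]
    constructor
    · rintro (h | ⟨h1, h2⟩)
      · exact Or.inl h
      · refine Or.inr ⟨h1, ?_⟩
        rcases h2 with h2 | h2
        · exact Or.inl h2.2.2
        · exact Or.inr h2.2.2
    · rintro (h | ⟨h1, h2⟩)
      · exact Or.inl h
      · refine Or.inr ⟨h1, ?_⟩
        rcases h2 with h2 | h2
        · exact Or.inl ⟨hv, h1, h2⟩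
        · exact Or.inr ⟨hv, h1, h2⟩
  have hsmall : ∀ v, ((comp (res R U) v).card : ℝ) ≤ x ∧ ((comp (res B U) v).card : ℝ) ≤ y := by
    intro v
    have := small_comps (res R U) (res B U) x y 0 henv.x2 henv.y2 (henv.zR.res U) (henv.zB.res U) U U
      (fun u w h => h.1) (fun u w h => h.1) (Finset.Subset.refl U)
      (fun v hv => by rw [hcn v hv]; exact hbig v hv) (fun v hv hv' => absurd hv hv') le_rfl
      (fun S hS hd _ => by
        have : S = ∅ := by
          rw [Finset.eq_empty_iff_forall_notMem]
          intro s hs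
          exact (Finset.disjoint_left.1 hd hs) (hS hs)
        simp [this]) v
    simpa using this
  refine ⟨hsmall, ?_⟩
  obtain ⟨A, D, hAD, hA, hD, hcov⟩ := cover_comps (res R U) (res B U) M (e * N) (by linarith [henv.one]) henv.mis U a hind.res
  refine ⟨A, D, hAD, hA, hD, hcov, ?_⟩
  set F : Finset W := U.filter (fun v => (∀ u ∈ A, ¬ (res R U).Reachable u v) ∧ (∀ u ∈ D, ¬ (res B U).Reachable u v)) with hF
  have hsub : U ⊆ (A.biUnion (fun u => comp (res R U) u) ∪ D.biUnion (fun u => comp (res B U) u)) ∪ F := by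
    intro v hv
    by_cases h1 : ∃ u ∈ A, (res R U).Reachable u v
    · obtain ⟨u, hu, huv⟩ := h1
      apply mem_union_left
      apply mem_union_left
      rw [mem_biUnion]
      exact ⟨u, hu, mem_comp.2 huv⟩
    by_cases h2 : ∃ u ∈ D, (res B U).Reachable u v
    · obtain ⟨u, hu, huv⟩ := h2
      apply mem_union_left
      apply mem_union_right
      rw [mem_biUnion]
      exact ⟨u, hu, mem_comp.2 huv⟩
    apply mem_union_right
    rw [hF, mem_filter]
    refine ⟨hv, ?_, ?_⟩
    · intro u hu huv
      exact h1 ⟨u, hu, huv⟩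
    · intro u hu huv
      exact h2 ⟨u, hu, huv⟩
  have h3 : (U.card : ℝ) ≤ ((A.biUnion (fun u => comp (res R U) u)).card : ℝ) +
      ((D.biUnion (fun u => comp (res B U) u)).card : ℝ) + (F.card : ℝ) := by
    have h4 := (card_le_card hsub).trans (card_union_le _ _)
    have h5 := card_union_le (A.biUnion (fun u => comp (res R U) u)) (D.biUnion (fun u => comp (res B U) u))
    have h6 := h4.trans (Nat.add_le_add_right h5 _)
    exact_mod_cast h6
  have h7 : ((A.biUnion (fun u => comp (res R U) u)).card : ℝ) ≤ A.card * x := by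
    have h8 : ((A.biUnion (fun u => comp (res R U) u)).card : ℝ) ≤ ∑ u ∈ A, ((comp (res R U) u).card : ℝ) := by
      exact_mod_cast card_biUnion_le
    refine h8.trans ((Finset.sum_le_card_nsmul _ _ x (fun u _ => (hsmall u).1)).trans ?_)
    rw [nsmul_eq_mul]
  have h9 : ((D.biUnion (fun u => comp (res B U) u)).card : ℝ) ≤ D.card * y := by
    have h8 : ((D.biUnion (fun u => comp (res B U) u)).card : ℝ) ≤ ∑ u ∈ D, ((comp (res B U) u).card : ℝ) := by
      exact_mod_cast card_biUnion_le
    refine h8.trans ((Finset.sum_le_card_nsmul _ _ y (fun u _ => (hsmall u).2)).trans ?_)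
    rw [nsmul_eq_mul]
  linarith

/-- Induction on `a` (`a = 0`: `U = ∅`). Step: if some `v ∈ U` has at most `th x y + 1` closed neighbours in `U` use the induction hypothesis for `U \ (cnb R B v U ∪ {w : M v w})` (`IndLe.del`; at most `th x y + 1 + e N ≤ th x y + 2 e N` elements are
deleted); otherwise `ee_comps`: `|U| ≤ (a+1) max x y + 2^(a+2) e N` and `max x y ≤ th x y`. -/
theorem EE_upper (a : ℕ) : ∀ (W : Type) [Fintype W] [DecidableEq W] (R B : SimpleGraph W) (M : W → W → Prop) (x y N e c : ℝ),
    Env R B M x y N e c → ∀ U : Finset W, IndLe R B M U a →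
      (U.card : ℝ) ≤ a * th x y + (2 * a + 2 ^ (a + 1)) * (e * N) := by
  classical
  induction a with
  | zero =>
    intro W _ _ R B M x y N e c henv U hind
    have hU : U = ∅ := by
      rw [Finset.eq_empty_iff_forall_notMem]
      intro v hv
      obtain ⟨u, hu, w, hw, hne, -⟩ := hind {v} (by simpa using hv) (by simp)
      rw [mem_singleton] at hu hw
      exact hne (hu.trans hw.symm)
    have h1 := henv.one
    rw [hU]
    simp
    nlinarith
  | succ a ih =>
    intro W _ _ R B M x y N e c henv U hind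
    have h1 := henv.one
    have hp : (0 : ℝ) < 2 ^ (a + 1) := by positivity
    by_cases hv : ∃ v ∈ U, ((cnb R B v U).card : ℝ) ≤ th x y + 1
    · obtain ⟨v, hvU, hvc⟩ := hv
      set Mv : Finset W := univ.filter (fun w => M v w) with hMv
      set U' : Finset W := U \ (cnb R B v U ∪ Mv) with hU'
      have hdel : IndLe R B M U' a := by
        apply hind.del v hvU sdiff_subset
        intro w hw
        rw [mem_sdiff, mem_union, mem_cnb, hMv, mem_filter] at hw
        obtain ⟨hwU, hw2⟩ := hw
        refine ⟨?_, ?_, ?_, ?_, ?_⟩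
        · intro h; exact hw2 (Or.inl (Or.inl h))
        · intro h; exact hw2 (Or.inr ⟨mem_univ _, h⟩)
        · intro h; exact hw2 (Or.inr ⟨mem_univ _, henv.mis.symm _ _ h⟩)
        · intro h; exact hw2 (Or.inl (Or.inr ⟨hwU, Or.inl h⟩))
        · intro h; exact hw2 (Or.inl (Or.inr ⟨hwU, Or.inr h⟩))
      have h2 := ih W R B M x y N e c henv U' hdel
      have h3 : (Mv.card : ℝ) ≤ e * N := by
        have := henv.mis.card v
        convert this
      have h4 : (U.card : ℝ) ≤ (U'.card : ℝ) + ((cnb R B v U).card : ℝ) + (Mv.card : ℝ) := by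
        have h5 : U ⊆ U' ∪ (cnb R B v U ∪ Mv) := by
          intro w hw
          by_cases h : w ∈ cnb R B v U ∪ Mv
          · exact mem_union_right _ h
          · exact mem_union_left _ (mem_sdiff.2 ⟨hw, h⟩)
        have h6 := (card_le_card h5).trans (card_union_le _ _)
        have h7 := card_union_le (cnb R B v U) Mv
        have h8 : U.card ≤ U'.card + (cnb R B v U).card + Mv.card := by omega
        exact_mod_cast h8
      have h9 : (2 : ℝ) ^ (a + 1 + 1) = 2 * 2 ^ (a + 1) := by rw [pow_succ]; ring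
      push_cast
      rw [h9]
      nlinarith
    · push Not at hv
      obtain ⟨-, A, D, hAD, -, -, -, hU⟩ := ee_comps R B M x y N e c henv U (a + 1) hind hv
      have hx2 := henv.x2
      have hy2 := henv.y2
      have hx : x ≤ th x y := by linarith [le_th_left x y]
      have hy : y ≤ th x y := by linarith [le_th_right x y]
      have hth : 0 ≤ th x y := by linarith
      have hA : (0 : ℝ) ≤ A.card := Nat.cast_nonneg _
      have hD : (0 : ℝ) ≤ D.card := Nat.cast_nonneg _
      have hAD' : (A.card : ℝ) + D.card ≤ a + 1 := by exact_mod_cast hAD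
      have ha : (0 : ℝ) ≤ a := Nat.cast_nonneg _
      push_cast
      have h2 : (A.card : ℝ) * x ≤ A.card * th x y := mul_le_mul_of_nonneg_left hx hA
      have h3 : (D.card : ℝ) * y ≤ D.card * th x y := mul_le_mul_of_nonneg_left hy hD
      have h4 : ((A.card : ℝ) + D.card) * th x y ≤ (a + 1) * th x y := mul_le_mul_of_nonneg_right hAD' hth
      have h5 : (0 : ℝ) ≤ 2 * (a + 1) * (e * N) := mul_nonneg (by linarith) (by linarith)
      nlinarith

end Pool.Agent.Lib.MP_779bc2_co
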