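import Pool.Agent.Lib.MP_779bc2_co.EE3

/-! Row EE4 (about 130 lines): adding the new unit, both cycles even -/

set_option autoImplicit false

namespace Pool.Agent.Lib.MP_779bc2_co

open Finset

theorem ee4_cross_sub {W : Type} [Fintype W] [DecidableEq W] {R B : SimpleGraph W} {E E' : ℝ} {Q Q' P P' : Finset W}
    (h : CrossLe R B E Q P) (hE : E ≤ E') (hQ : Q' ⊆ Q) (hP : P' ⊆ P) : CrossLe R B E' Q' P' := fun q hq => by
  classical
  refine le_trans ?_ ((h q (hQ hq)).trans hE)
  exact_mod_cast card_le_card (filter_subset_filter _ hP)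

theorem ee4_cross_new {W : Type} [Fintype W] [DecidableEq W] {R B : SimpleGraph W} {δ E : ℝ} {Q P : Finset W}
    (hR : ∀ q ∈ Q, ((nb R q P).card : ℝ) ≤ δ) (hB : ∀ q ∈ Q, ((nb B q P).card : ℝ) ≤ δ) (hE : 2 * δ ≤ E) :
    CrossLe R B E Q P := fun q hq => by
  classical
  have h1 : (P.filter (fun w => R.Adj q w ∨ B.Adj q w)) ⊆ nb R q P ∪ nb B q P := by
    intro w hw
    rw [mem_filter] at hw
    rw [mem_union, mem_nb, mem_nb]
    tauto
  have h2 : ((P.filter (fun w => R.Adj q w ∨ B.Adj q w)).card : ℝ) ≤ (nb R q P).card + (nb B q P).card := by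
    exact_mod_cast (card_le_card h1).trans (card_union_le _ _)
  have h3 := hR q hq
  have h4 := hB q hq
  refine le_trans ?_ (show (nb R q P).card + (nb B q P).card ≤ E by linarith)
  convert h2

open Classical in
/-- the bad set for a new unit -/
theorem ee4_few (c δ e'' : ℝ) (hc : 0 < c) (hδ : 0 < δ) (he'' : 0 < e'') : ∃ e > (0 : ℝ), ∀ (W : Type) [Fintype W] [DecidableEq W]
    (R B : SimpleGraph W) (M : W → W → Prop) (x y N : ℝ), Env R B M x y N e c → ∀ Q Z, IsUnit' R B x y (e * N) Q Z →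
      ∃ D : Finset W, (D.card : ℝ) ≤ 2 * (e'' * N) ∧ ∀ v, v ∉ Q → v ∉ Z → v ∉ D →
        ((nb R v Q).card : ℝ) ≤ δ * N ∧ ((nb B v Q).card : ℝ) ≤ δ * N := by
  obtain ⟨e1, he1, h1⟩ := unit_few1 c δ e'' hc hδ he''
  obtain ⟨e2, he2, h2⟩ := unit_few2 c δ e'' hc hδ he''
  refine ⟨min e1 e2, lt_min he1 he2, ?_⟩
  intro W _ _ R B M x y N henv Q Z hU
  have hN := henv.N_nonneg
  have a1 := h1 W R B M x y N (henv.mono (min_le_left _ _)) Q Z
    (hU.mono (mul_le_mul_of_nonneg_right (min_le_left _ _) hN))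
  have a2 := h2 W R B M x y N (henv.mono (min_le_right _ _)) Q Z
    (hU.mono (mul_le_mul_of_nonneg_right (min_le_right _ _) hN))
  refine ⟨(univ.filter (fun v => v ∉ Q ∧ δ * N ≤ ((nb R v Q).card : ℝ))) ∪
    (univ.filter (fun v => v ∉ Q ∧ v ∉ Z ∧ δ * N ≤ ((nb B v Q).card : ℝ))), ?_, ?_⟩
  · have h3 := card_union_le (univ.filter (fun v => v ∉ Q ∧ δ * N ≤ ((nb R v Q).card : ℝ)))
      (univ.filter (fun v => v ∉ Q ∧ v ∉ Z ∧ δ * N ≤ ((nb B v Q).card : ℝ)))
    have h4 : ((((univ.filter (fun v => v ∉ Q ∧ δ * N ≤ ((nb R v Q).card : ℝ))) ∪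
      (univ.filter (fun v => v ∉ Q ∧ v ∉ Z ∧ δ * N ≤ ((nb B v Q).card : ℝ)))).card : ℕ) : ℝ) ≤
        ((univ.filter (fun v => v ∉ Q ∧ δ * N ≤ ((nb R v Q).card : ℝ))).card : ℝ) +
        ((univ.filter (fun v => v ∉ Q ∧ v ∉ Z ∧ δ * N ≤ ((nb B v Q).card : ℝ))).card : ℝ) := by
      exact_mod_cast h3
    linarith
  · intro v hQ hZ hD
    rw [mem_union, not_or, mem_filter, mem_filter] at hD
    constructor
    · by_contra h
      exact hD.1 ⟨mem_univ _, hQ, (not_le.1 h).le⟩
    · by_contra h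
      exact hD.2 ⟨mem_univ _, hQ, hZ, (not_le.1 h).le⟩

open Classical in
/-- Remove from every old clique `Q i` the vertices which have more than `(e'/4) N` neighbours of one of the two colours in `Q0` (`unit_few1`, `unit_few2` for the new unit with `δ = e'/4`, `e'' = e'/4`; the elements of `Q i` are neither in `Q0` nor in `Z0`, because
`Q0, Z0 ⊆ U \ U1`): at most `(e'/2) N` vertices; `unit_shrink`. New family: `Fin.cons` (or `Fin.snoc`) of the new unit and the old ones; `Q0` and `Q i` are disjoint. -/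
theorem EE_add (a : ℕ) (c e' : ℝ) (hc : 0 < c) (he' : 0 < e') : ∃ e > (0 : ℝ), ∀ (W : Type) [Fintype W] [DecidableEq W]
    (R B : SimpleGraph W) (M : W → W → Prop) (x y N : ℝ), Env R B M x y N e c → ∀ U U1 : Finset W, U1 ⊆ U →
      ∀ (cl : Fin a → Bool) (Q Z : Fin a → Finset W), EEOut R B x y (e * N) a U1 cl Q Z →
      ∀ Q0 ⊆ U \ U1, ∀ Z0 ⊆ U \ U1, (IsUnit' R B x y (e * N) Q0 Z0 ∨ IsUnit' B R y x (e * N) Q0 Z0) →
        (∀ i, CrossLe R B (e * N) Q0 (Q i)) →
          ∃ (cl' : Fin (a + 1) → Bool) (Q' Z' : Fin (a + 1) → Finset W), EEOut R B x y (e' * N) (a + 1) U cl' Q' Z' := by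
  obtain ⟨e1, he1, hfew⟩ := ee4_few c (e' / 4) (e' / 4) hc (by linarith) (by linarith)
  refine ⟨min e1 (e' / 4), lt_min he1 (by linarith), ?_⟩
  intro W _ _ R B M x y N henv U U1 hU1 cl Q Z hout Q0 hQ0 Z0 hZ0 hunit hcross
  have hN := henv.N_nonneg
  have hle1 : min e1 (e' / 4) * N ≤ e1 * N := mul_le_mul_of_nonneg_right (min_le_left _ _) hN
  have hle2 : min e1 (e' / 4) * N ≤ e' / 4 * N := mul_le_mul_of_nonneg_right (min_le_right _ _) hN
  have he0 : 0 ≤ min e1 (e' / 4) * N := mul_nonneg (lt_min he1 (by linarith)).le hN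
  have heN : 0 ≤ e' * N := by positivity
  obtain ⟨D, hDc, hD⟩ : ∃ D : Finset W, (D.card : ℝ) ≤ e' / 2 * N ∧ ∀ v, v ∉ Q0 → v ∉ Z0 → v ∉ D →
      ((nb R v Q0).card : ℝ) ≤ e' / 4 * N ∧ ((nb B v Q0).card : ℝ) ≤ e' / 4 * N := by
    rcases hunit with h | h
    · obtain ⟨D, hDc, hD⟩ := hfew W R B M x y N (henv.mono (min_le_left _ _)) Q0 Z0 (h.mono hle1)
      exact ⟨D, by linarith, hD⟩
    · obtain ⟨D, hDc, hD⟩ := hfew W B R M y x N (henv.mono (min_le_left _ _)).swap Q0 Z0 (h.mono hle1)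
      exact ⟨D, by linarith, fun v h1 h2 h3 => (hD v h1 h2 h3).symm⟩
  obtain ⟨c0, hc0R, hc0B⟩ : ∃ c0 : Bool, (c0 = false → IsUnit' R B x y (e' * N) Q0 Z0) ∧
      (c0 = true → IsUnit' B R y x (e' * N) Q0 Z0) := by
    have hle3 : min e1 (e' / 4) * N ≤ e' * N := by linarith
    rcases hunit with h | h
    · exact ⟨false, fun _ => h.mono hle3, fun h' => by simp at h'⟩
    · exact ⟨true, fun h' => by simp at h', fun _ => h.mono hle3⟩
  have hQU : ∀ i, ∀ v ∈ Q i, v ∉ Q0 ∧ v ∉ Z0 := fun i v hv =>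
    ⟨fun h => (mem_sdiff.1 (hQ0 h)).2 (hout.subQ i hv), fun h => (mem_sdiff.1 (hZ0 h)).2 (hout.subQ i hv)⟩
  have hsdiff : ∀ i, ((Q i \ (Q i \ D)).card : ℝ) ≤ e' / 2 * N := by
    intro i
    refine le_trans ?_ hDc
    have : Q i \ (Q i \ D) ⊆ D := by
      intro v hv
      rw [mem_sdiff, mem_sdiff] at hv
      by_contra h
      exact hv.2 ⟨hv.1, h⟩
    exact_mod_cast card_le_card this
  have hnewold : ∀ i, CrossLe R B (e' * N) Q0 (Q i \ D) := fun i =>
    ee4_cross_sub (hcross i) (by linarith) (Subset.refl _) sdiff_subset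
  have holdnew : ∀ i, CrossLe R B (e' * N) (Q i \ D) Q0 := fun i =>
    ee4_cross_new (δ := e' / 4 * N)
      (fun q hq => (hD q (hQU i q (mem_sdiff.1 hq).1).1 (hQU i q (mem_sdiff.1 hq).1).2 (mem_sdiff.1 hq).2).1)
      (fun q hq => (hD q (hQU i q (mem_sdiff.1 hq).1).1 (hQU i q (mem_sdiff.1 hq).1).2 (mem_sdiff.1 hq).2).2)
      (by linarith)
  have hdisj0 : ∀ i, Disjoint Q0 (Q i \ D) := by
    intro i
    rw [disjoint_left]
    intro v hv hv'
    exact (hQU i v (mem_sdiff.1 hv').1).1 hv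
  refine ⟨Fin.cons c0 cl, Fin.cons Q0 (fun i => Q i \ D), Fin.cons Z0 Z, ?_, ?_, ?_, ?_, ?_, ?_⟩
  · intro i
    induction i using Fin.cases with
    | zero => exact hQ0.trans sdiff_subset
    | succ i => exact (sdiff_subset.trans (hout.subQ i)).trans hU1
  · intro i
    induction i using Fin.cases with
    | zero => exact hZ0.trans sdiff_subset
    | succ i => exact (hout.subZ i).trans hU1
  · intro i j hij
    induction i using Fin.cases with
    | zero =>
      induction j using Fin.cases with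
      | zero => exact absurd rfl hij
      | succ j => exact hdisj0 j
    | succ i =>
      induction j using Fin.cases with
      | zero => exact (hdisj0 i).symm
      | succ j =>
        have hij' : i ≠ j := fun h => hij (by rw [h])
        exact disjoint_of_subset_left sdiff_subset (disjoint_of_subset_right sdiff_subset (hout.disj i j hij'))
  · intro i hi
    induction i using Fin.cases with
    | zero => exact hc0R hi
    | succ i =>
      exact (unit_shrink R B x y _ (e' / 2 * N) he0 (by positivity) (Q i) (Z i) (Q i \ D) (hout.unitR i hi)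
        sdiff_subset (hsdiff i)).mono (by linarith)
  · intro i hi
    induction i using Fin.cases with
    | zero => exact hc0B hi
    | succ i =>
      exact (unit_shrink B R y x _ (e' / 2 * N) he0 (by positivity) (Q i) (Z i) (Q i \ D) (hout.unitB i hi)
        sdiff_subset (hsdiff i)).mono (by linarith)
  · intro i j hij
    induction i using Fin.cases with
    | zero =>
      induction j using Fin.cases with
      | zero => exact absurd rfl hij
      | succ j => exact hnewold j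
    | succ i =>
      induction j using Fin.cases with
      | zero => exact holdnew i
      | succ j =>
        have hij' : i ≠ j := fun h => hij (by rw [h])
        exact ee4_cross_sub (hout.cross i j hij') (by linarith) sdiff_subset sdiff_subset

end Pool.Agent.Lib.MP_779bc2_co
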