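import Pool.Agent.Lib.MP_779bc2_co.EE2
import Pool.Agent.Lib.MP_779bc2_co.EE4

/-! Row EE5 (about 150 lines): structure theorem, both cycles even -/

set_option autoImplicit false

namespace Pool.Agent.Lib.MP_779bc2_co

open Finset

/-- Induction on `a`; `a = 0` is trivial (empty families). Step `a → a + 1`: `e5` from `EE_add a c e'`, `e4` from `EE_new a c e5`, `ea` from the induction hypothesis for `min e4 e5`, `e2` from `EE_case2 (a+1) c e'`; `C = 2 a + 2^(a+1) + 1`; `e` such that
`e ≤ e2`, `e ≤ e5`, `(C + 1) e ≤ e4`, `3 e ≤ ea`. If all `v ∈ U` have more than `th x y + 1` closed neighbours use `EE_case2`. Otherwise let `V = U ∩ (cnb R B v U ∪ {w : M v w})`, `U1 = U \ V`: `IndLe R B M U1 a` (`IndLe.del`), `|V| ≤ th x y + 2 e N`, so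
`|U1| ≥ a th x y - 3 e N`: induction hypothesis. By `EE_upper a`, `|V| ≥ th x y - (C + 1) e N`: `EE_new`, then `EE_add` (`EEOut.mono`, `Env.mono`). -/
theorem EE_str (a : ℕ) : ∀ c > (0 : ℝ), ∀ e' > (0 : ℝ), ∃ e > (0 : ℝ), ∀ (W : Type) [Fintype W] [DecidableEq W]
    (R B : SimpleGraph W) (M : W → W → Prop) (x y N : ℝ), Env R B M x y N e c → ∀ U : Finset W, IndLe R B M U a →
      a * th x y - e * N ≤ U.card →
        ∃ (cl : Fin a → Bool) (Q Z : Fin a → Finset W), EEOut R B x y (e' * N) a U cl Q Z := by
  classical
  induction a with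
  | zero =>
    intro c hc e' he'
    refine ⟨1, one_pos, ?_⟩
    intro W _ _ R B M x y N henv U hind hU
    exact ⟨fun i => i.elim0, fun i => i.elim0, fun i => i.elim0,
      ⟨fun i => i.elim0, fun i => i.elim0, fun i => i.elim0, fun i => i.elim0, fun i => i.elim0,
        fun i => i.elim0⟩⟩
  | succ a ih =>
    intro c hc e' he'
    obtain ⟨e5, he5, h5⟩ := EE_add a c e' hc he'
    obtain ⟨e4, he4, h4⟩ := EE_new a c e5 hc he5
    obtain ⟨ea, hea, ha⟩ := ih c hc (min e4 e5) (lt_min he4 he5)
    obtain ⟨e2, he2, h2⟩ := EE_case2 (a + 1) c e' hc he'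
    set C : ℝ := 2 * a + 2 ^ (a + 1) with hC
    have hC0 : 0 ≤ C := by positivity
    have hC1 : 0 < C + 1 := by linarith
    refine ⟨min (min e2 e5) (min (e4 / (C + 1)) (ea / 3)), by positivity, ?_⟩
    set e : ℝ := min (min e2 e5) (min (e4 / (C + 1)) (ea / 3)) with he
    have hee2 : e ≤ e2 := (min_le_left _ _).trans (min_le_left _ _)
    have hee5 : e ≤ e5 := (min_le_left _ _).trans (min_le_right _ _)
    have hee4' : e ≤ e4 / (C + 1) := (min_le_right _ _).trans (min_le_left _ _)
    have heea' : e ≤ ea / 3 := (min_le_right _ _).trans (min_le_right _ _)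
    have hee4 : e * (C + 1) ≤ e4 := (le_div_iff₀ hC1).mp hee4'
    have he0 : 0 < e := by positivity
    intro W _ _ R B M x y N henv U hind hU
    have hN := henv.N_nonneg
    have hU' : ((a : ℝ) + 1) * th x y - e * N ≤ U.card := by
      have := hU
      push_cast at this
      exact this
    by_cases hbig : ∀ v ∈ U, th x y + 1 < ((cnb R B v U).card : ℝ)
    · refine h2 W R B M x y N (henv.mono hee2) U hind hbig ?_
      have h1 : e * N ≤ e2 * N := mul_le_mul_of_nonneg_right hee2 hN
      linarith
    · push Not at hbig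
      obtain ⟨v, hv, hcv⟩ := hbig
      set V : Finset W := U ∩ (cnb R B v U ∪ univ.filter (fun w => M v w)) with hV
      set U1 : Finset W := U \ V with hU1
      have hsub1 : U1 ⊆ U := sdiff_subset
      have hVU : V ⊆ U := inter_subset_left
      have hind1 : IndLe R B M U1 a := by
        refine hind.del v hv hsub1 fun w hw => ?_
        have hwU : w ∈ U := hsub1 hw
        have hwV : w ∉ V := (mem_sdiff.mp hw).2
        have hw2 : w ∉ cnb R B v U ∪ univ.filter (fun w => M v w) := fun h =>
          hwV (mem_inter.mpr ⟨hwU, h⟩)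
        rw [mem_union, not_or, mem_cnb, not_or, mem_filter] at hw2
        obtain ⟨⟨q1, q2⟩, q3⟩ := hw2
        have q4 : ¬ M v w := fun h => q3 ⟨mem_univ _, h⟩
        refine ⟨q1, q4, fun h => q4 (henv.mis.symm _ _ h), fun h => q2 ⟨hwU, Or.inl h⟩,
          fun h => q2 ⟨hwU, Or.inr h⟩⟩
      have hVc : (V.card : ℝ) ≤ th x y + 2 * (e * N) := by
        have c1 : V.card ≤ (cnb R B v U).card + (univ.filter (fun w => M v w)).card :=
          (card_le_card inter_subset_right).trans (card_union_le _ _)
        have c2 : (V.card : ℝ) ≤ ((cnb R B v U).card : ℝ)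
            + ((univ.filter (fun w => M v w)).card : ℝ) := by exact_mod_cast c1
        have c3 : ((univ.filter (fun w => M v w)).card : ℝ) ≤ e * N := by
          have := henv.mis.card v
          convert this
        have c4 := henv.one
        linarith
      have hsum : (U1.card : ℝ) + V.card = U.card := by
        have := card_sdiff_add_card_eq_card hVU
        exact_mod_cast this
      have hU1c : (a : ℝ) * th x y - ea * N ≤ U1.card := by
        have c1 : e * N ≤ ea / 3 * N := mul_le_mul_of_nonneg_right heea' hN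
        linarith
      obtain ⟨cl, Q, Z, hout⟩ := ha W R B M x y N
        (henv.mono (heea'.trans (by linarith))) U1 hind1 hU1c
      have hup := EE_upper a W R B M x y N e c henv U1 hind1
      have hsd : ((U \ U1).card : ℝ) + U1.card = U.card := by
        have := card_sdiff_add_card_eq_card hsub1
        exact_mod_cast this
      have hdiff : th x y - e4 * N ≤ (U \ U1).card := by
        have c1 : e * (C + 1) * N ≤ e4 * N := mul_le_mul_of_nonneg_right hee4 hN
        rw [← hC] at hup
        nlinarith
      have hle4 : e ≤ e4 := by nlinarith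
      obtain ⟨Q0, hQ0, Z0, hZ0, hunit, hcross⟩ := h4 W R B M x y N (henv.mono hle4) U U1 hsub1 hind
        cl Q Z (hout.mono (mul_le_mul_of_nonneg_right (min_le_left _ _) hN)) hdiff
      exact h5 W R B M x y N (henv.mono hee5) U U1 hsub1 cl Q Z
        (hout.mono (mul_le_mul_of_nonneg_right (min_le_right _ _) hN)) Q0 hQ0 Z0 hZ0 hunit hcross

/-- `EE_str` with `ι = Fin a`, `σ = fun _ => true`: `VV lr lb U σ τ = U` because all labels are `none`; `ff false false x y = th x y`; no clique is sided. -/
theorem core_ff (a : ℕ) : CoreSt false false a := by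
  classical
  intro c hc e' he'
  obtain ⟨e, he, h⟩ := EE_str a c hc e' he'
  refine ⟨e, he, ?_⟩
  intro W _ _ R B M x y N lr lb U henv hlab hind hU
  have hVV : VV lr lb U true true = U := by
    unfold VV
    rw [filter_eq_self]
    intro v _
    exact ⟨Or.inl (hlab.rnone rfl v), Or.inl (hlab.bnone rfl v)⟩
  have hind' := hind true true
  rw [hVV] at hind'
  have hff : ff false false x y = th x y := by simp [ff]
  rw [hff] at hU
  obtain ⟨cl, Q, Z, ho⟩ := h W R B M x y N henv U hind' hU
  have hsided : ∀ κ, sided false false κ = false := by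
    intro κ
    simp [sided]
  refine ⟨Fin a, inferInstance, cl, fun _ => true, Q, ?_⟩
  exact
    { sub := ho.subQ
      disj := ho.disj
      labR := fun i _ q _ => ⟨hlab.rnone rfl q, fun h => by simp at h⟩
      sizeR := fun i hi => (ho.unitR i hi).cardQ
      nearR := fun i hi => (ho.unitR i hi).near
      fewR := fun i hi => (ho.unitR i hi).few
      ratioR := fun i hi => (ho.unitR i hi).ratio
      labB := fun i _ q _ => ⟨hlab.bnone rfl q, fun h => by simp at h⟩
      sizeB := fun i hi => (ho.unitB i hi).cardQ
      nearB := fun i hi => (ho.unitB i hi).near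
      fewB := fun i hi => (ho.unitB i hi).few
      ratioB := fun i hi => (ho.unitB i hi).ratio
      cross := ho.cross
      count := by simp [hsided]
      bal := fun κ hκ => by rw [hsided] at hκ; simp at hκ }

end Pool.Agent.Lib.MP_779bc2_co
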