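import Pool.Agent.Lib.MP_779bc2_co.S1
import Pool.Agent.Lib.MP_779bc2_co.H8Trans
import Pool.Agent.Lib.MP_779bc2_co.EE0

/-! Part II, red cycle even, blue cycle odd: definitions -/

set_option autoImplicit false

namespace Pool.Agent.Lib.MP_779bc2_co

open Finset

section defs

variable {W : Type} [Fintype W] [DecidableEq W]

/-- the vertices with a blue label are isolated in `B` -/
def LabB (B : SimpleGraph W) (lb : W → Option Bool) : Prop := ∀ u w, B.Adj u w → lb u = none ∧ lb w = none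

/-- the vertices of `U` without label -/
def eP (lb : W → Option Bool) (U : Finset W) : Finset W := U.filter (fun v => lb v = none)
/-- the vertices of `U` with label `τ` -/
def eX (lb : W → Option Bool) (U : Finset W) (τ : Bool) : Finset W := U.filter (fun v => lb v = some τ)
/-- the vertices of `U` without label or with label `τ` (world `τ`) -/
def eV (lb : W → Option Bool) (U : Finset W) (τ : Bool) : Finset W := U.filter (fun v => lb v = none ∨ lb v = some τ)

theorem mem_eP {lb : W → Option Bool} {U : Finset W} {v : W} : v ∈ eP lb U ↔ v ∈ U ∧ lb v = none := by simp [eP]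
theorem mem_eX {lb : W → Option Bool} {U : Finset W} {τ : Bool} {v : W} : v ∈ eX lb U τ ↔ v ∈ U ∧ lb v = some τ := by simp [eX]
theorem mem_eV {lb : W → Option Bool} {U : Finset W} {τ : Bool} {v : W} : v ∈ eV lb U τ ↔ v ∈ U ∧ (lb v = none ∨ lb v = some τ) := by
  simp [eV]

/-- `f = max (2x) (y + x/2)` -/
noncomputable def fe (x y : ℝ) : ℝ := max (2 * x) (y + x / 2)

/-- `b` blue units with cliques in `eP`, `r` red cliques in `eX true` and `r` in `eX false` -/
structure EOOut (R B : SimpleGraph W) (lb : W → Option Bool) (x y E : ℝ) (b r : ℕ) (U : Finset W) (Q Z : Fin b → Finset W)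
    (S : Bool → Fin r → Finset W) : Prop where
  subQ : ∀ i, Q i ⊆ eP lb U
  subZ : ∀ i, Z i ⊆ U
  unit : ∀ i, IsUnit' B R y x E (Q i) (Z i)
  disjQ : ∀ i j, i ≠ j → Disjoint (Q i) (Q j)
  crossQ : ∀ i j, i ≠ j → CrossLe R B E (Q i) (Q j)
  subS : ∀ τ j, S τ j ⊆ eX lb U τ
  sizeS : ∀ τ j, x - E ≤ (S τ j).card
  nearS : ∀ τ j, ∀ q ∈ S τ j, ((nn R q (S τ j)).card : ℝ) ≤ E
  ratioS : 0 < r → y ≤ 3 / 2 * x + E
  disjS : ∀ p p' : Bool × Fin r, p ≠ p' → Disjoint (S p.1 p.2) (S p'.1 p'.2)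
  crossS : ∀ p p' : Bool × Fin r, p ≠ p' → CrossLe R B E (S p.1 p.2) (S p'.1 p'.2)
  crossQS : ∀ i τ j, CrossLe R B E (Q i) (S τ j)
  crossSQ : ∀ i τ j, CrossLe R B E (S τ j) (Q i)

theorem EOOut.mono {R B : SimpleGraph W} {lb : W → Option Bool} {x y E E' : ℝ} {b r : ℕ} {U : Finset W} {Q Z : Fin b → Finset W}
    {S : Bool → Fin r → Finset W} (h : EOOut R B lb x y E b r U Q Z S) (hE : E ≤ E') : EOOut R B lb x y E' b r U Q Z S :=
  ⟨h.subQ, h.subZ, fun i => (h.unit i).mono hE, h.disjQ, fun i j hij => (h.crossQ i j hij).mono hE, h.subS,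
    fun τ j => by linarith [h.sizeS τ j], fun τ j q hq => (h.nearS τ j q hq).trans hE, fun hr => by linarith [h.ratioS hr], h.disjS,
    fun p p' hp => (h.crossS p p' hp).mono hE, fun i τ j => (h.crossQS i τ j).mono hE, fun i τ j => (h.crossSQ i τ j).mono hE⟩

end defs

theorem th_le_fe (x y : ℝ) (hx : 0 ≤ x) (hy : 0 ≤ y) : th x y ≤ fe x y := by
  unfold th fe
  apply max_le
  · by_cases h : y ≤ 2 * x
    · exact le_max_of_le_left (by linarith)
    · exact le_max_of_le_right (by linarith)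
  · exact le_max_right _ _

/-- the structure theorem for the red cycle even, the blue cycle odd -/
def EOSt (a : ℕ) : Prop := ∀ c > (0 : ℝ), ∀ e' > (0 : ℝ), ∃ e > (0 : ℝ), ∀ (W : Type) [Fintype W] [DecidableEq W]
    (R B : SimpleGraph W) (M : W → W → Prop) (x y N : ℝ) (lb : W → Option Bool), Env R B M x y N e c → LabB B lb →
    ∀ U : Finset W, (∀ τ, IndLe R B M (eV lb U τ) a) → a * fe x y - e * N ≤ U.card →
      ∃ b r : ℕ, b + r = a ∧ ∃ (Q Z : Fin b → Finset W) (S : Bool → Fin r → Finset W), EOOut R B lb x y (e' * N) b r U Q Z S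

end Pool.Agent.Lib.MP_779bc2_co
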