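import Pool.Agent.Lib.MP_779bc2_co.CDefs

/-! Part II: simple tools -/

set_option autoImplicit false

namespace Pool.Agent.Lib.MP_779bc2_co

open Finset

variable {W : Type} [Fintype W] [DecidableEq W]

open Classical in
/-- neighbourhood of a set -/
noncomputable def nbs (G : SimpleGraph W) (I : Finset W) : Finset W := univ.filter (fun w => ∃ u ∈ I, G.Adj u w)

theorem mem_nbs {G : SimpleGraph W} {I : Finset W} {w : W} : w ∈ nbs G I ↔ ∃ u ∈ I, G.Adj u w := by
  classical
  simp [nbs]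

theorem mem_nb {G : SimpleGraph W} {v w : W} {U : Finset W} : w ∈ nb G v U ↔ w ∈ U ∧ G.Adj v w := by
  classical
  simp [nb]

theorem mem_nn {G : SimpleGraph W} {v w : W} {U : Finset W} : w ∈ nn G v U ↔ w ∈ U ∧ ¬ G.Adj v w := by
  classical
  simp [nn]

theorem mem_comp {G : SimpleGraph W} {v w : W} : w ∈ comp G v ↔ G.Reachable v w := by
  classical
  simp [comp]

theorem mem_cnb {R B : SimpleGraph W} {v w : W} {U : Finset W} :
    w ∈ cnb R B v U ↔ w = v ∨ (w ∈ U ∧ (R.Adj v w ∨ B.Adj v w)) := by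
  classical
  simp [cnb]

theorem nb_add_nn (G : SimpleGraph W) (v : W) (U : Finset W) : (nb G v U).card + (nn G v U).card = U.card := by
  classical
  unfold nb nn
  exact Finset.card_filter_add_card_filter_not (s := U) (fun w => G.Adj v w)

theorem Env.swap {R B : SimpleGraph W} {M : W → W → Prop} {x y N e c : ℝ} (h : Env R B M x y N e c) :
    Env B R M y x N e c :=
  ⟨h.cardW, h.one, h.mis, h.zB, h.zR, h.y2, h.x2, h.yN, h.xN, by rw [max_comm]; exact h.big⟩

theorem Env.N_nonneg {R B : SimpleGraph W} {M : W → W → Prop} {x y N e c : ℝ} (h : Env R B M x y N e c) :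
    0 ≤ N := (Nat.cast_nonneg _).trans h.cardW

theorem MisLe.mono {M : W → W → Prop} {μ μ' : ℝ} (h : MisLe M μ) (hle : μ ≤ μ') : MisLe M μ' :=
  ⟨h.refl, h.symm, fun v => (h.card v).trans hle⟩

theorem Env.mono {R B : SimpleGraph W} {M : W → W → Prop} {x y N e e' c : ℝ} (h : Env R B M x y N e c) (he : e ≤ e') :
    Env R B M x y N e' c := by
  have hN := h.N_nonneg
  have h1 : e * N ≤ e' * N := mul_le_mul_of_nonneg_right he hN
  exact ⟨h.cardW, h.one.trans h1, h.mis.mono h1, h.zR, h.zB, h.x2, h.y2, h.xN, h.yN, h.big⟩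

theorem ZLe.sub {G G' : SimpleGraph W} {x : ℝ} (h : ZLe G x) (hle : ∀ u w, G'.Adj u w → G.Adj u w) : ZLe G' x := by
  intro D φ hinj hadj hreach
  refine h D φ hinj (fun u hu => hle _ _ (hadj u hu)) (fun u hu w hw => ?_)
  exact (hreach u hu w hw).mono (fun a b hab => hle a b hab)

theorem ZLe.res {G : SimpleGraph W} {x : ℝ} (h : ZLe G x) (U : Finset W) : ZLe (res G U) x :=
  h.sub fun _ _ h => h.2.2

theorem Env.res {R B : SimpleGraph W} {M : W → W → Prop} {x y N e c : ℝ} (h : Env R B M x y N e c) (U : Finset W) :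
    Env (res R U) (res B U) M x y N e c :=
  ⟨h.cardW, h.one, h.mis, h.zR.res U, h.zB.res U, h.x2, h.y2, h.xN, h.yN, h.big⟩

theorem IndLe.mono {R B : SimpleGraph W} {M : W → W → Prop} {U U' : Finset W} {a : ℕ} (h : IndLe R B M U a)
    (hU : U' ⊆ U) : IndLe R B M U' a := fun T hT hc => h T (hT.trans hU) hc

theorem IndLe.swap {R B : SimpleGraph W} {M : W → W → Prop} {U : Finset W} {a : ℕ} (h : IndLe R B M U a) :
    IndLe B R M U a := fun T hT hc => by
  obtain ⟨u, hu, w, hw, hne, h1⟩ := h T hT hc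
  exact ⟨u, hu, w, hw, hne, by tauto⟩

theorem IndLe.res {R B : SimpleGraph W} {M : W → W → Prop} {U : Finset W} {a : ℕ} (h : IndLe R B M U a) :
    IndLe (res R U) (res B U) M U a := fun T hT hc => by
  obtain ⟨u, hu, w, hw, hne, h1⟩ := h T hT hc
  refine ⟨u, hu, w, hw, hne, ?_⟩
  rcases h1 with h1 | h1 | h1
  · exact Or.inl h1
  · exact Or.inr (Or.inl ⟨hT hu, hT hw, h1⟩)
  · exact Or.inr (Or.inr ⟨hT hu, hT hw, h1⟩)

/-- Deleting the closed neighbourhood and the `M`-neighbourhood of a vertex decreases `a`. -/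
theorem IndLe.del {R B : SimpleGraph W} {M : W → W → Prop} {U U' : Finset W} {a : ℕ} (h : IndLe R B M U (a + 1))
    (v : W) (hv : v ∈ U) (hU : U' ⊆ U) (hU' : ∀ w ∈ U', w ≠ v ∧ ¬ M v w ∧ ¬ M w v ∧ ¬ R.Adj v w ∧ ¬ B.Adj v w) :
    IndLe R B M U' a := fun T hT hc => by
  classical
  have hvT : v ∉ T := fun hvT => (hU' v (hT hvT)).1 rfl
  obtain ⟨u, hu, w, hw, hne, h1⟩ := h (insert v T) (by
    intro z hz
    rcases mem_insert.mp hz with rfl | hz
    · exact hv
    · exact hU (hT hz)) (by rw [card_insert_of_notMem hvT]; omega)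
  rcases mem_insert.mp hu with huv | huT
  · rcases mem_insert.mp hw with hwv | hwT
    · exact absurd (huv.trans hwv.symm) hne
    · have := hU' w (hT hwT)
      rw [huv] at h1
      tauto
  · rcases mem_insert.mp hw with hwv | hwT
    · have := hU' u (hT huT)
      rw [hwv] at h1
      rcases h1 with h1 | h1 | h1
      · tauto
      · exact absurd h1.symm this.2.2.2.1
      · exact absurd h1.symm this.2.2.2.2
    · exact ⟨u, huT, w, hwT, hne, h1⟩

theorem th_comm (x y : ℝ) : th x y = th y x := max_comm _ _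

theorem le_th_left (x y : ℝ) : x + y / 2 ≤ th x y := le_max_left _ _

theorem le_th_right (x y : ℝ) : y + x / 2 ≤ th x y := le_max_right _ _

end Pool.Agent.Lib.MP_779bc2_co
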