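import Pool.Agent.Lib.MP_779bc2_co.ODefs
import Pool.Agent.Lib.MP_779bc2_co.H0Util

/-! Row O1Res (about 90 lines): restriction to `U` -/

set_option autoImplicit false

namespace Pool.Agent.Lib.MP_779bc2_co

open Finset

variable {W : Type} [Fintype W] [DecidableEq W]

/-- A walk of `res G U` is a walk of `G`, so `ZLe` is inherited. -/
theorem zle_res (G : SimpleGraph W) (U : Finset W) (x : ℝ) (h : ZLe G x) : ZLe (res G U) x :=
  h.res U

/-- two elements of `V ⊆ U` are adjacent in `res G U` iff they are adjacent in `G` -/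
theorem indLe_res (R B : SimpleGraph W) (M : W → W → Prop) (U V : Finset W) (a : ℕ) (hV : V ⊆ U) (h : IndLe R B M V a) :
    IndLe (res R U) (res B U) M V a := fun T hT hc => by
  obtain ⟨u, hu, w, hw, hne, h1⟩ := h T hT hc
  refine ⟨u, hu, w, hw, hne, ?_⟩
  rcases h1 with h1 | h1 | h1
  · exact Or.inl h1
  · exact Or.inr (Or.inl ⟨hV (hT hu), hV (hT hw), h1⟩)
  · exact Or.inr (Or.inr ⟨hV (hT hu), hV (hT hw), h1⟩)

theorem oenv_res (R B : SimpleGraph W) (M : W → W → Prop) (x y N e c : ℝ) (lr lb : W → Option Bool) (U : Finset W) (a : ℕ)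
    (h : Env R B M x y N e c) (hl : Lab true true R B lr lb) (hi : ∀ σ τ, IndLe R B M (VV lr lb U σ τ) a) :
    OEnv (res R U) (res B U) M x y N e lr lb U a where
  one := h.one
  mis := h.mis
  zR := h.zR.res U
  zB := h.zB.res U
  x2 := h.x2
  y2 := h.y2
  lab := ⟨hl.rnone, hl.bnone, fun u w huw => hl.radj u w huw.2.2, fun u w huw => hl.badj u w huw.2.2⟩
  ind := fun σ τ => indLe_res R B M U _ a (filter_subset _ _) (hi σ τ)
  supR := fun _ _ huw => ⟨huw.1, huw.2.1⟩
  supB := fun _ _ huw => ⟨huw.1, huw.2.1⟩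

theorem O1Res_nn (G : SimpleGraph W) (U Q : Finset W) (v : W) (hv : v ∈ U) (hQ : Q ⊆ U) :
    nn (res G U) v Q = nn G v Q := by
  ext w
  rw [mem_nn, mem_nn]
  constructor
  · rintro ⟨h1, h2⟩
    exact ⟨h1, fun h => h2 ⟨hv, hQ h1, h⟩⟩
  · rintro ⟨h1, h2⟩
    exact ⟨h1, fun h => h2 h.2.2⟩

theorem O1Res_nb (G : SimpleGraph W) (U Q : Finset W) (v : W) (hv : v ∈ U) (hQ : Q ⊆ U) :
    nb (res G U) v Q = nb G v Q := by
  ext w
  rw [mem_nb, mem_nb]
  constructor
  · rintro ⟨h1, h2⟩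
    exact ⟨h1, h2.2.2⟩
  · rintro ⟨h1, h2⟩
    exact ⟨h1, ⟨hv, hQ h1, h2⟩⟩

/-- `Q i ⊆ U`, so `nn`, `nb`, `CrossLe` are the same for `R` and `res R U`. -/
theorem out_res (R B : SimpleGraph W) (x y E : ℝ) (lr lb : W → Option Bool) (U : Finset W) (a : ℕ)
    {ι : Type} [Fintype ι] (cl σ : ι → Bool) (Q : ι → Finset W)
    (h : Out true true (res R U) (res B U) lr lb x y E a U cl σ Q) : Out true true R B lr lb x y E a U cl σ Q where
  sub := h.sub
  disj := h.disj
  labR := h.labR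
  sizeR := h.sizeR
  nearR := fun i hi q hq => by
    rw [← O1Res_nn R U (Q i) q (h.sub i hq) (h.sub i)]; exact h.nearR i hi q hq
  fewR := fun i hi q hq => by
    rw [← O1Res_nb B U (Q i) q (h.sub i hq) (h.sub i)]; exact h.fewR i hi q hq
  ratioR := h.ratioR
  labB := h.labB
  sizeB := h.sizeB
  nearB := fun i hi q hq => by
    rw [← O1Res_nn B U (Q i) q (h.sub i hq) (h.sub i)]; exact h.nearB i hi q hq
  fewB := fun i hi q hq => by
    rw [← O1Res_nb R U (Q i) q (h.sub i hq) (h.sub i)]; exact h.fewB i hi q hq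
  ratioB := h.ratioB
  cross := fun i j hij q hq => by
    classical
    have h1 := h.cross i j hij q hq
    have h2 : ((Q j).filter (fun w => R.Adj q w ∨ B.Adj q w)).card
        ≤ ((Q j).filter (fun w => (res R U).Adj q w ∨ (res B U).Adj q w)).card := by
      apply card_le_card
      intro w hw
      rw [mem_filter] at hw ⊢
      refine ⟨hw.1, ?_⟩
      rcases hw.2 with h3 | h3
      · exact Or.inl ⟨h.sub i hq, h.sub j hw.1, h3⟩
      · exact Or.inr ⟨h.sub i hq, h.sub j hw.1, h3⟩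
    have h3 : (((Q j).filter (fun w => R.Adj q w ∨ B.Adj q w)).card : ℝ)
        ≤ (((Q j).filter (fun w => (res R U).Adj q w ∨ (res B U).Adj q w)).card : ℝ) := by
      exact_mod_cast h2
    convert h3.trans _ using 1
    convert h1 using 2
  count := h.count
  bal := h.bal

end Pool.Agent.Lib.MP_779bc2_co
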