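import Pool.Agent.Lib.MP_779bc2_co.ODefs

/-! Row O3Cards (about 60 lines): counting the classes -/

set_option autoImplicit false

namespace Pool.Agent.Lib.MP_779bc2_co

open Finset

variable {W : Type} [Fintype W] [DecidableEq W]

/-- Write every cardinal as `∑ v ∈ U, if .. then 1 else 0` and compare the summands (cases on `lr v`, `lb v`). -/
theorem U_card (lr lb : W → Option Bool) (U : Finset W) :
    U.card = (oP lr lb U).card + (oA lr lb U true).card + (oA lr lb U false).card + (oB lr lb U true).card + (oB lr lb U false).card
      + (oD lr lb U true true).card + (oD lr lb U true false).card + (oD lr lb U false true).card + (oD lr lb U false false).card := by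
  unfold oP oA oB oD
  simp only [card_filter]
  rw [card_eq_sum_ones]
  simp only [← Finset.sum_add_distrib]
  apply Finset.sum_congr rfl
  intro v _
  rcases lr v with _ | b1 <;> rcases lb v with _ | b2
  · simp
  · cases b2 <;> simp
  · cases b1 <;> simp
  · cases b1 <;> cases b2 <;> simp

theorem VV_card (lr lb : W → Option Bool) (U : Finset W) (σ τ : Bool) :
    (VV lr lb U σ τ).card = (oP lr lb U).card + (oA lr lb U τ).card + (oB lr lb U σ).card + (oD lr lb U σ τ).card := by
  unfold VV oP oA oB oD
  simp only [card_filter]
  simp only [← Finset.sum_add_distrib]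
  apply Finset.sum_congr rfl
  intro v _
  rcases lr v with _ | b1 <;> rcases lb v with _ | b2
  · simp
  · simp
  · simp
  · by_cases h1 : b1 = σ <;> by_cases h2 : b2 = τ <;> simp [h1, h2]

end Pool.Agent.Lib.MP_779bc2_co
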