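import Pool.Agent.Lib.MP_779bc2_co.ODefs
import Pool.Agent.Lib.MP_779bc2_co.H0Util

/-! Row O7World (about 170 lines): bounds from a cover -/

set_option autoImplicit false

namespace Pool.Agent.Lib.MP_779bc2_co

open Finset

variable {W : Type} [Fintype W] [DecidableEq W]

theorem o7_iso {G : SimpleGraph W} {u v : W} (hiso : ∀ w, ¬ G.Adj v w) (h : G.Reachable u v) : u = v := by
  obtain ⟨p⟩ := h.symm
  cases p with
  | nil => rfl
  | cons h _ => exact absurd h (hiso _)

/-- a vertex with a blue label is isolated in `B`, so its component has one element; similarly for red. -/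
theorem comp_of_label (R B : SimpleGraph W) (M : W → W → Prop) (x y N e : ℝ) (lr lb : W → Option Bool) (U : Finset W) (a : ℕ)
    (h : OEnv R B M x y N e lr lb U a) (u v : W) :
    (lb v ≠ none → B.Reachable u v → u = v) ∧ (lr v ≠ none → R.Reachable u v → u = v) :=
  ⟨fun hv hr => o7_iso (fun w hw => hv (h.lab.badj v w hw).1) hr,
    fun hv hr => o7_iso (fun w hw => hv (h.lab.radj v w hw).1) hr⟩

theorem o7_sub (R B : SimpleGraph W) (V P Q : Finset W) :
    V ⊆ unc R B V P Q ∪ (P.biUnion (fun u => V ∩ comp R u) ∪ Q.biUnion (fun u => V ∩ comp B u)) := by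
  classical
  intro v hv
  rw [mem_union, mem_union, mem_biUnion, mem_biUnion]
  by_cases h1 : ∃ u ∈ P, R.Reachable u v
  · obtain ⟨u, hu, hr⟩ := h1
    exact Or.inr (Or.inl ⟨u, hu, mem_inter.mpr ⟨hv, mem_comp.mpr hr⟩⟩)
  · by_cases h2 : ∃ u ∈ Q, B.Reachable u v
    · obtain ⟨u, hu, hr⟩ := h2
      exact Or.inr (Or.inr ⟨u, hu, mem_inter.mpr ⟨hv, mem_comp.mpr hr⟩⟩)
    · left
      unfold unc
      rw [mem_filter]
      push Not at h1 h2
      exact ⟨hv, h1, h2⟩

theorem o7_card (R B : SimpleGraph W) (V P Q : Finset W) :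
    (V.card : ℝ) ≤ (unc R B V P Q).card + (∑ u ∈ P, ((V ∩ comp R u).card : ℝ) + ∑ u ∈ Q, ((V ∩ comp B u).card : ℝ)) := by
  classical
  have h1 := (card_le_card (o7_sub R B V P Q)).trans ((card_union_le _ _).trans
    (Nat.add_le_add_left ((card_union_le _ _).trans (Nat.add_le_add card_biUnion_le card_biUnion_le)) _))
  exact_mod_cast h1

theorem o7_sum_le (P : Finset W) (f : W → ℝ) (X : ℝ) (h : ∀ u ∈ P, f u ≤ X) : ∑ u ∈ P, f u ≤ P.card * X := by
  have := Finset.sum_le_card_nsmul P f X h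
  rwa [nsmul_eq_mul] at this

theorem o7_sum_le' (P : Finset W) (f : W → ℝ) (X : ℝ) (h : ∀ u ∈ P, f u ≤ X) (u : W) (hu : u ∈ P) :
    ∑ v ∈ P, f v ≤ f u + (P.card - 1) * X := by
  classical
  rw [← Finset.add_sum_erase P f hu]
  have h1 := o7_sum_le (P.erase u) f X (fun v hv => h v (mem_of_mem_erase hv))
  rw [card_erase_of_mem hu, Nat.cast_sub (card_pos.mpr ⟨u, hu⟩)] at h1
  push_cast at h1
  linarith

/-- `V ⊆ unc ∪ ⋃_{u∈P} comp R u ∪ ⋃_{u∈Q} comp B u`. -/
theorem world_le (R B : SimpleGraph W) (V P Q : Finset W) (X Y z : ℝ)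
    (hR : SmallComps R X) (hB : SmallComps B Y) (hc : Cov R B V P Q z) :
    (V.card : ℝ) ≤ P.card * X + Q.card * Y + z := by
  have h1 := o7_card R B V P Q
  have h2 := o7_sum_le P (fun u => ((V ∩ comp R u).card : ℝ)) X
    (fun u _ => le_trans (by exact_mod_cast card_le_card inter_subset_right) (hR u))
  have h3 := o7_sum_le Q (fun u => ((V ∩ comp B u).card : ℝ)) Y
    (fun u _ => le_trans (by exact_mod_cast card_le_card inter_subset_right) (hB u))
  have h4 := hc.unc
  linarith

theorem o7_unc_mono (R B : SimpleGraph W) (V V' P Q : Finset W) (h : V' ⊆ V) : unc R B V' P Q ⊆ unc R B V P Q := by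
  classical
  unfold unc
  exact filter_subset_filter _ h

theorem o7_A_sub (lr lb : W → Option Bool) (U : Finset W) (σ τ : Bool) : oA lr lb U τ ⊆ VV lr lb U σ τ := by
  intro v hv
  unfold oA at hv
  unfold VV
  rw [mem_filter] at hv ⊢
  exact ⟨hv.1, Or.inl hv.2.1, Or.inr hv.2.2⟩

theorem o7_B_sub (lr lb : W → Option Bool) (U : Finset W) (σ τ : Bool) : oB lr lb U σ ⊆ VV lr lb U σ τ := by
  intro v hv
  unfold oB at hv
  unfold VV
  rw [mem_filter] at hv ⊢
  exact ⟨hv.1, Or.inr hv.2.1, Or.inl hv.2.2⟩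

theorem o7_A_one (R B : SimpleGraph W) (M : W → W → Prop) (x y N e : ℝ) (lr lb : W → Option Bool) (U : Finset W) (a : ℕ)
    (h : OEnv R B M x y N e lr lb U a) (τ : Bool) (u : W) : ((oA lr lb U τ ∩ comp B u).card : ℝ) ≤ 1 := by
  have : (oA lr lb U τ ∩ comp B u) ⊆ {u} := by
    intro v hv
    rw [mem_inter, mem_comp] at hv
    unfold oA at hv
    rw [mem_filter] at hv
    rw [mem_singleton]
    exact ((comp_of_label R B M x y N e lr lb U a h u v).1 (by rw [hv.1.2.2]; simp) hv.2).symm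
  have := card_le_card this
  rw [card_singleton] at this
  exact_mod_cast this

theorem o7_B_one (R B : SimpleGraph W) (M : W → W → Prop) (x y N e : ℝ) (lr lb : W → Option Bool) (U : Finset W) (a : ℕ)
    (h : OEnv R B M x y N e lr lb U a) (σ : Bool) (u : W) : ((oB lr lb U σ ∩ comp R u).card : ℝ) ≤ 1 := by
  have : (oB lr lb U σ ∩ comp R u) ⊆ {u} := by
    intro v hv
    rw [mem_inter, mem_comp] at hv
    unfold oB at hv
    rw [mem_filter] at hv
    rw [mem_singleton]
    exact ((comp_of_label R B M x y N e lr lb U a h u v).2 (by rw [hv.1.2.1]; simp) hv.2).symm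
  have := card_le_card this
  rw [card_singleton] at this
  exact_mod_cast this

/-- As `world_le`, but each component of `B` contains at most one element of `oA τ` (`comp_of_label`). -/
theorem oA_le (R B : SimpleGraph W) (M : W → W → Prop) (x y N e : ℝ) (lr lb : W → Option Bool) (U : Finset W) (a : ℕ)
    (h : OEnv R B M x y N e lr lb U a) (σ τ : Bool) (P Q : Finset W) (X z : ℝ)
    (hR : SmallComps R X) (hc : Cov R B (VV lr lb U σ τ) P Q z) :
    ((oA lr lb U τ).card : ℝ) ≤ P.card * X + Q.card + z := by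
  have h1 := o7_card R B (oA lr lb U τ) P Q
  have h2 := o7_sum_le P (fun u => ((oA lr lb U τ ∩ comp R u).card : ℝ)) X
    (fun u _ => le_trans (by exact_mod_cast card_le_card inter_subset_right) (hR u))
  have h3 := o7_sum_le Q (fun u => ((oA lr lb U τ ∩ comp B u).card : ℝ)) 1
    (fun u _ => o7_A_one R B M x y N e lr lb U a h τ u)
  have h4 : ((unc R B (oA lr lb U τ) P Q).card : ℝ) ≤ z :=
    le_trans (by exact_mod_cast card_le_card (o7_unc_mono R B _ _ P Q (o7_A_sub lr lb U σ τ))) hc.unc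
  linarith

theorem oB_le (R B : SimpleGraph W) (M : W → W → Prop) (x y N e : ℝ) (lr lb : W → Option Bool) (U : Finset W) (a : ℕ)
    (h : OEnv R B M x y N e lr lb U a) (σ τ : Bool) (P Q : Finset W) (Y z : ℝ)
    (hB : SmallComps B Y) (hc : Cov R B (VV lr lb U σ τ) P Q z) :
    ((oB lr lb U σ).card : ℝ) ≤ P.card + Q.card * Y + z := by
  have h1 := o7_card R B (oB lr lb U σ) P Q
  have h2 := o7_sum_le P (fun u => ((oB lr lb U σ ∩ comp R u).card : ℝ)) 1
    (fun u _ => o7_B_one R B M x y N e lr lb U a h σ u)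
  have h3 := o7_sum_le Q (fun u => ((oB lr lb U σ ∩ comp B u).card : ℝ)) Y
    (fun u _ => le_trans (by exact_mod_cast card_le_card inter_subset_right) (hB u))
  have h4 : ((unc R B (oB lr lb U σ) P Q).card : ℝ) ≤ z :=
    le_trans (by exact_mod_cast card_le_card (o7_unc_mono R B _ _ P Q (o7_B_sub lr lb U σ τ))) hc.unc
  linarith

/-- As `oA_le`, keeping the component of `u` apart. -/
theorem oA_comp (R B : SimpleGraph W) (M : W → W → Prop) (x y N e : ℝ) (lr lb : W → Option Bool) (U : Finset W) (a : ℕ)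
    (h : OEnv R B M x y N e lr lb U a) (σ τ : Bool) (P Q : Finset W) (X z : ℝ)
    (hR : SmallComps R X) (hc : Cov R B (VV lr lb U σ τ) P Q z) (u : W) (hu : u ∈ P) :
    ((oA lr lb U τ).card : ℝ) ≤ (oA lr lb U τ ∩ comp R u).card + (P.card - 1) * X + Q.card + z := by
  have h1 := o7_card R B (oA lr lb U τ) P Q
  have h2 := o7_sum_le' P (fun u => ((oA lr lb U τ ∩ comp R u).card : ℝ)) X
    (fun u _ => le_trans (by exact_mod_cast card_le_card inter_subset_right) (hR u)) u hu
  have h3 := o7_sum_le Q (fun u => ((oA lr lb U τ ∩ comp B u).card : ℝ)) 1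
    (fun u _ => o7_A_one R B M x y N e lr lb U a h τ u)
  have h4 : ((unc R B (oA lr lb U τ) P Q).card : ℝ) ≤ z :=
    le_trans (by exact_mod_cast card_le_card (o7_unc_mono R B _ _ P Q (o7_A_sub lr lb U σ τ))) hc.unc
  linarith

theorem oB_comp (R B : SimpleGraph W) (M : W → W → Prop) (x y N e : ℝ) (lr lb : W → Option Bool) (U : Finset W) (a : ℕ)
    (h : OEnv R B M x y N e lr lb U a) (σ τ : Bool) (P Q : Finset W) (Y z : ℝ)
    (hB : SmallComps B Y) (hc : Cov R B (VV lr lb U σ τ) P Q z) (u : W) (hu : u ∈ Q) :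
    ((oB lr lb U σ).card : ℝ) ≤ (oB lr lb U σ ∩ comp B u).card + P.card + (Q.card - 1) * Y + z := by
  have h1 := o7_card R B (oB lr lb U σ) P Q
  have h2 := o7_sum_le P (fun u => ((oB lr lb U σ ∩ comp R u).card : ℝ)) 1
    (fun u _ => o7_B_one R B M x y N e lr lb U a h σ u)
  have h3 := o7_sum_le' Q (fun u => ((oB lr lb U σ ∩ comp B u).card : ℝ)) Y
    (fun u _ => le_trans (by exact_mod_cast card_le_card inter_subset_right) (hB u)) u hu
  have h4 : ((unc R B (oB lr lb U σ) P Q).card : ℝ) ≤ z :=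
    le_trans (by exact_mod_cast card_le_card (o7_unc_mono R B _ _ P Q (o7_B_sub lr lb U σ τ))) hc.unc
  linarith

end Pool.Agent.Lib.MP_779bc2_co
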