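import Pool.Agent.Lib.MP_779bc2_co.O2Ind
import Pool.Agent.Lib.MP_779bc2_co.O3Cards
import Pool.Agent.Lib.MP_779bc2_co.O7World

/-! Row O8Upper (about 80 lines): upper bound if all components are small -/

set_option autoImplicit false

namespace Pool.Agent.Lib.MP_779bc2_co

open Finset

variable {W : Type} [Fintype W] [DecidableEq W]

/-- `world_le` with `X = x + 8 a μ`, `Y = y + 8 a μ`, `z = 2^(a+1) μ`: `|VV σ τ| ≤ |P| X + |Q| Y + z ≤ (|P| + |Q|) (max x y + 8 a μ) + z ≤ a max x y + kap a μ` (`μ = e N ≥ 1`). -/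
theorem oo_VV_le (R B : SimpleGraph W) (M : W → W → Prop) (x y N e : ℝ) (lr lb : W → Option Bool) (U : Finset W) (a : ℕ)
    (h : OEnv R B M x y N e lr lb U a) (hR : SmallComps R (x + 8 * a * (e * N))) (hB : SmallComps B (y + 8 * a * (e * N)))
    (σ τ : Bool) (P Q : Finset W) (hPQ : P.card + Q.card ≤ a)
    (hc : Cov R B (VV lr lb U σ τ) P Q (2 ^ (a + 1) * (e * N))) :
    ((VV lr lb U σ τ).card : ℝ) ≤ a * max x y + kap a * (e * N) := by
  have hμ := h.one
  have h1 := world_le R B (VV lr lb U σ τ) P Q _ _ _ hR hB hc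
  have hx := le_max_left x y
  have hy := le_max_right x y
  have hPQ' : (P.card : ℝ) + Q.card ≤ a := by exact_mod_cast hPQ
  have hX : 0 ≤ max x y := le_trans (by linarith [h.x2]) hx
  have h8 : 0 ≤ 8 * (a : ℝ) * (e * N) := by positivity
  have e1 : (P.card : ℝ) * (x + 8 * a * (e * N)) ≤ P.card * (max x y + 8 * a * (e * N)) :=
    mul_le_mul_of_nonneg_left (by linarith) (Nat.cast_nonneg _)
  have e2 : (Q.card : ℝ) * (y + 8 * a * (e * N)) ≤ Q.card * (max x y + 8 * a * (e * N)) :=
    mul_le_mul_of_nonneg_left (by linarith) (Nat.cast_nonneg _)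
  have e3 : ((P.card : ℝ) + Q.card) * (max x y + 8 * a * (e * N)) ≤ a * (max x y + 8 * a * (e * N)) :=
    mul_le_mul_of_nonneg_right hPQ' (by linarith)
  unfold kap
  nlinarith

/-- `U_card`, `VV_card` for `(true,true)` and `(false,false)`, `oo_VV_le` and `oD_card`: `|U| ≤ |VV true true| + |VV false false| + |oD true false| + |oD false true|`. -/
theorem oo_U_le (R B : SimpleGraph W) (M : W → W → Prop) (x y N e : ℝ) (lr lb : W → Option Bool) (U : Finset W) (a : ℕ)
    (h : OEnv R B M x y N e lr lb U a) (hR : SmallComps R (x + 8 * a * (e * N))) (hB : SmallComps B (y + 8 * a * (e * N)))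
    (hcov : ∀ σ τ, ∃ P Q : Finset W, P.card + Q.card ≤ a ∧ Cov R B (VV lr lb U σ τ) P Q (2 ^ (a + 1) * (e * N))) :
    (U.card : ℝ) ≤ a * (2 * max x y) + (2 * kap a + 2 * a) * (e * N) := by
  obtain ⟨P1, Q1, hPQ1, hc1⟩ := hcov true true
  obtain ⟨P2, Q2, hPQ2, hc2⟩ := hcov false false
  have h1 := oo_VV_le R B M x y N e lr lb U a h hR hB true true P1 Q1 hPQ1 hc1
  have h2 := oo_VV_le R B M x y N e lr lb U a h hR hB false false P2 Q2 hPQ2 hc2
  have h3 := oD_card R B M x y N e lr lb U a h true false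
  have h4 := oD_card R B M x y N e lr lb U a h false true
  have h5 := U_card lr lb U
  have h6 := VV_card lr lb U true true
  have h7 := VV_card lr lb U false false
  have h8 : U.card ≤ (VV lr lb U true true).card + (VV lr lb U false false).card + (oD lr lb U true false).card
      + (oD lr lb U false true).card := by omega
  have h9 : (U.card : ℝ) ≤ (VV lr lb U true true).card + (VV lr lb U false false).card + (oD lr lb U true false).card
      + (oD lr lb U false true).card := by exact_mod_cast h8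
  linarith

end Pool.Agent.Lib.MP_779bc2_co
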