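import Pool.Agent.Lib.MP_779bc2_co.EO0
import Pool.Agent.Lib.MP_779bc2_co.O5Key
import Pool.Agent.Lib.MP_779bc2_co.O6Cov
import Pool.Agent.Lib.MP_779bc2_co.O8Upper
import Pool.Agent.Lib.MP_779bc2_co.O1Res

/-! EO1 (helper48): upper bound, red cycle even, blue cycle odd -/

set_option autoImplicit false

namespace Pool.Agent.Lib.MP_779bc2_co

open Finset

section aux

variable {W : Type} [Fintype W] [DecidableEq W]

theorem eo1_VV (lb : W → Option Bool) (U : Finset W) (σ τ : Bool) : VV (fun _ => none) lb U σ τ = eV lb U τ := by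
  ext v
  simp [VV, eV]

theorem eo1_oA (lb : W → Option Bool) (U : Finset W) (τ : Bool) : oA (fun _ => none) lb U τ = eX lb U τ := by
  ext v
  simp [oA, eX]

theorem eo1_U (lb : W → Option Bool) (U : Finset W) :
    U.card = (eP lb U).card + (eX lb U true).card + (eX lb U false).card := by
  unfold eP eX
  simp only [card_filter]
  rw [card_eq_sum_ones]
  simp only [← Finset.sum_add_distrib]
  apply Finset.sum_congr rfl
  intro v _
  rcases lb v with _ | b2
  · simp
  · cases b2 <;> simp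

theorem eo1_V (lb : W → Option Bool) (U : Finset W) (τ : Bool) :
    (eV lb U τ).card = (eP lb U).card + (eX lb U τ).card := by
  unfold eV eP eX
  simp only [card_filter]
  simp only [← Finset.sum_add_distrib]
  apply Finset.sum_congr rfl
  intro v _
  rcases lb v with _ | b2
  · simp
  · simp

theorem eo1_env (R B : SimpleGraph W) (M : W → W → Prop) (x y N e c : ℝ) (lb : W → Option Bool) (U : Finset W) (a : ℕ)
    (henv : Env R B M x y N e c) (hlab : LabB B lb) (hind : ∀ τ, IndLe R B M (eV lb U τ) a) :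
    OEnv (res R U) (res B U) M x y N e (fun _ => none) lb U a :=
  oenv_res R B M x y N e c (fun _ => none) lb U a henv
    ⟨fun _ _ => rfl, fun h => absurd h (by simp), fun _ _ _ => ⟨rfl, rfl⟩, hlab⟩
    (fun σ τ => by rw [eo1_VV]; exact hind τ)

/-- bound for `|P| + 2 |X_τ|` -/
theorem eo1_world (R B : SimpleGraph W) (M : W → W → Prop) (x y N e : ℝ) (lb : W → Option Bool) (U : Finset W) (a : ℕ)
    (h : OEnv R B M x y N e (fun _ => none) lb U a) (hR : SmallComps R (x + 8 * a * (e * N)))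
    (hB : SmallComps B (y + 8 * a * (e * N))) (τ : Bool) (P Q : Finset W) (hPQ : P.card + Q.card ≤ a)
    (hc : Cov R B (VV (fun _ => none) lb U true τ) P Q (2 ^ (a + 1) * (e * N))) :
    ((eP lb U).card : ℝ) + 2 * (eX lb U τ).card ≤
      P.card * (2 * x) + Q.card * y + (16 * a * a + a + 2 * 2 ^ (a + 1)) * (e * N) := by
  have hμ := h.one
  have h1 := world_le R B (VV (fun _ => none) lb U true τ) P Q _ _ _ hR hB hc
  have h2 := oA_le R B M x y N e (fun _ => none) lb U a h true τ P Q _ _ hR hc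
  rw [eo1_VV] at h1
  rw [eo1_oA] at h2
  have h3 : ((eV lb U τ).card : ℝ) = (eP lb U).card + (eX lb U τ).card := by exact_mod_cast eo1_V lb U τ
  have hPQ' : (P.card : ℝ) + Q.card ≤ a := by exact_mod_cast hPQ
  have hP0 : (0 : ℝ) ≤ P.card := Nat.cast_nonneg _
  have hQ0 : (0 : ℝ) ≤ Q.card := Nat.cast_nonneg _
  have ha0 : (0 : ℝ) ≤ a := Nat.cast_nonneg _
  have e1 : (16 * a * (e * N)) * ((P.card : ℝ) + Q.card) ≤ (16 * a * (e * N)) * a :=
    mul_le_mul_of_nonneg_left hPQ' (by positivity)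
  have e2 : (Q.card : ℝ) * 1 ≤ a * (e * N) := mul_le_mul (by linarith) hμ (by norm_num) ha0
  have e3 : 0 ≤ 8 * a * (e * N) * (Q.card : ℝ) := by positivity
  linarith [(by ring : (P.card : ℝ) * (x + 8 * a * (e * N)) = P.card * x + 8 * a * (e * N) * P.card),
    (by ring : (Q.card : ℝ) * (y + 8 * a * (e * N)) = Q.card * y + 8 * a * (e * N) * Q.card),
    (by ring : (16 * a * a + a + 2 * 2 ^ (a + 1)) * (e * N) = (16 * a * (e * N)) * a + a * (e * N) + 2 * (2 ^ (a + 1) * (e * N)))]

/-- deletion of a closed neighbourhood -/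
theorem eo1_delete (R B : SimpleGraph W) (M : W → W → Prop) (μ : ℝ) (hM : MisLe M μ) (lb : W → Option Bool) (U : Finset W) (a : ℕ)
    (h : ∀ τ, IndLe R B M (eV lb U τ) (a + 1)) (v : W) (hv : v ∈ U) (hb : lb v = none) :
    ∃ U' ⊆ U, (U.card : ℝ) ≤ U'.card + (cnb R B v U).card + μ ∧ ∀ τ, IndLe R B M (eV lb U' τ) a := by
  classical
  set Mv : Finset W := univ.filter (fun w => M v w) with hMv
  set U' : Finset W := U \ (cnb R B v U ∪ Mv) with hU'
  have hsub : U' ⊆ U := sdiff_subset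
  have hrel : ∀ w ∈ U', w ≠ v ∧ ¬ M v w ∧ ¬ M w v ∧ ¬ R.Adj v w ∧ ¬ B.Adj v w := by
    intro w hw
    rw [hU', mem_sdiff, mem_union, mem_cnb, hMv, mem_filter] at hw
    obtain ⟨hwU, hw⟩ := hw
    push Not at hw
    have hM' : ¬ M v w := fun hM => hw.2 (mem_univ _) hM
    refine ⟨hw.1.1, hM', fun hM'' => hM' (hM.symm w v hM''), fun hh => ?_, fun hh => ?_⟩
    · exact (hw.1.2 hwU).1 hh
    · exact (hw.1.2 hwU).2 hh
  refine ⟨U', hsub, ?_, ?_⟩
  · have h1 : U ⊆ U' ∪ (cnb R B v U ∪ Mv) := by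
      intro w hw
      rw [mem_union, hU', mem_sdiff]
      by_cases hh : w ∈ cnb R B v U ∪ Mv
      · exact Or.inr hh
      · exact Or.inl ⟨hw, hh⟩
    have h2 := (card_le_card h1).trans ((card_union_le _ _).trans (Nat.add_le_add_left (card_union_le _ _) _))
    have h3 : (U.card : ℝ) ≤ U'.card + ((cnb R B v U).card + Mv.card) := by exact_mod_cast h2
    have h4 : (Mv.card : ℝ) ≤ μ := by
      have := hM.card v
      rw [hMv]
      convert this
    linarith
  · intro τ
    refine IndLe.del (h τ) v ?_ ?_ ?_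
    · rw [mem_eV]
      exact ⟨hv, Or.inl hb⟩
    · intro w hw
      rw [mem_eV] at hw ⊢
      exact ⟨hsub hw.1, hw.2⟩
    · intro w hw
      rw [mem_eV] at hw
      exact hrel w hw.1

theorem eo1_zero (R B : SimpleGraph W) (M : W → W → Prop) (lb : W → Option Bool) (U : Finset W)
    (h : ∀ τ, IndLe R B M (eV lb U τ) 0) : U = ∅ := by
  apply Finset.eq_empty_of_forall_notMem
  intro v hv
  have hex : ∃ τ, v ∈ eV lb U τ := by
    refine ⟨(lb v).getD true, ?_⟩
    rw [mem_eV]
    refine ⟨hv, ?_⟩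
    cases lb v <;> simp
  obtain ⟨τ, hτ⟩ := hex
  obtain ⟨u, hu, w, hw, huw, _⟩ := h τ {v} (by simpa using hτ) (by simp)
  rw [mem_singleton] at hu hw
  exact huw (hu.trans hw.symm)

theorem eo1_cnb (R B : SimpleGraph W) (U : Finset W) (v : W) (hv : v ∈ U) : cnb (res R U) (res B U) v U = cnb R B v U := by
  ext w
  rw [mem_cnb, mem_cnb]
  constructor
  · rintro (h | ⟨h1, h2⟩)
    · exact Or.inl h
    · refine Or.inr ⟨h1, ?_⟩
      rcases h2 with h2 | h2
      · exact Or.inl h2.2.2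
      · exact Or.inr h2.2.2
  · rintro (h | ⟨h1, h2⟩)
    · exact Or.inl h
    · refine Or.inr ⟨h1, ?_⟩
      rcases h2 with h2 | h2
      · exact Or.inl ⟨hv, h1, h2⟩
      · exact Or.inr ⟨hv, h1, h2⟩

/-- all components are small if all closed neighbourhoods are large -/
theorem eo1_small (R B : SimpleGraph W) (M : W → W → Prop) (x y N e c : ℝ) (lb : W → Option Bool) (U : Finset W) (a : ℕ)
    (henv : Env R B M x y N e c) (hlab : LabB B lb) (hind : ∀ τ, IndLe R B M (eV lb U τ) a)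
    (hbig : ∀ v ∈ U, lb v = none → th x y + 1 < ((cnb R B v U).card : ℝ)) :
    SmallComps (res R U) (x + 8 * a * (e * N)) ∧ SmallComps (res B U) (y + 8 * a * (e * N)) :=
  oo_small _ _ M x y N e (fun _ => none) lb U a (eo1_env R B M x y N e c lb U a henv hlab hind)
    (fun v hv _ hb => by rw [eo1_cnb R B U v hv]; exact hbig v hv hb)

theorem le_fe_left (x y : ℝ) : 2 * x ≤ fe x y := le_max_left _ _
theorem le_fe_right (x y : ℝ) : y + x / 2 ≤ fe x y := le_max_right _ _

end aux

theorem EO_upper (a : ℕ) : ∃ C : ℝ, 0 ≤ C ∧ ∀ (W : Type) [Fintype W] [DecidableEq W] (R B : SimpleGraph W) (M : W → W → Prop) (x y N e c : ℝ)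
    (lb : W → Option Bool), Env R B M x y N e c → LabB B lb → ∀ U : Finset W, (∀ τ, IndLe R B M (eV lb U τ) a) →
      (U.card : ℝ) ≤ a * fe x y + C * (e * N) := by
  classical
  induction a with
  | zero =>
    refine ⟨0, le_refl _, fun W _ _ R B M x y N e c lb henv hlab U hind => ?_⟩
    rw [eo1_zero R B M lb U hind]
    simp
  | succ a ih =>
    obtain ⟨C, hC, ih⟩ := ih
    refine ⟨(C + 2) + (16 * ((a + 1 : ℕ) : ℝ) * ((a + 1 : ℕ) : ℝ) + ((a + 1 : ℕ) : ℝ) + 2 * 2 ^ (a + 1 + 1)), by positivity,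
      fun W _ _ R B M x y N e c lb henv hlab U hind => ?_⟩
    have hμ := henv.one
    have hx := henv.x2
    have hy := henv.y2
    have hf1 := le_fe_left x y
    have hf2 := le_fe_right x y
    by_cases hex : ∃ v ∈ U, lb v = none ∧ ((cnb R B v U).card : ℝ) ≤ th x y + 1
    · obtain ⟨v, hv, hb, hc⟩ := hex
      obtain ⟨U', _, hcard, hind'⟩ := eo1_delete R B M (e * N) henv.mis lb U a hind v hv hb
      have h1 := ih W R B M x y N e c lb henv hlab U' hind'
      have h2 := th_le_fe x y (by linarith) (by linarith)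
      have h4 : 0 ≤ (16 * ((a + 1 : ℕ) : ℝ) * ((a + 1 : ℕ) : ℝ) + ((a + 1 : ℕ) : ℝ) + 2 * 2 ^ (a + 1 + 1)) * (e * N) := by positivity
      rw [add_mul (C + 2)]
      have h5 : ((a + 1 : ℕ) : ℝ) * fe x y = a * fe x y + fe x y := by push_cast; ring
      rw [h5]
      linarith [(by ring : (C + 2) * (e * N) = C * (e * N) + 2 * (e * N))]
    · push Not at hex
      obtain ⟨hR, hB⟩ := eo1_small R B M x y N e c lb U (a + 1) henv hlab hind (fun v hv hb => hex v hv hb)
      have ho := eo1_env R B M x y N e c lb U (a + 1) henv hlab hind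
      have hw : ∀ τ, ((eP lb U).card : ℝ) + 2 * (eX lb U τ).card ≤
          ((a + 1 : ℕ) : ℝ) * fe x y + (16 * ((a + 1 : ℕ) : ℝ) * ((a + 1 : ℕ) : ℝ) + ((a + 1 : ℕ) : ℝ) + 2 * 2 ^ (a + 1 + 1)) * (e * N) := by
        intro τ
        obtain ⟨P, Q, hPQ, hc⟩ := oo_cov _ _ M x y N e (fun _ => none) lb U (a + 1) ho true τ
        have h1 := eo1_world _ _ M x y N e lb U (a + 1) ho hR hB τ P Q hPQ hc
        have hPQ' : (P.card : ℝ) + Q.card ≤ ((a + 1 : ℕ) : ℝ) := by exact_mod_cast hPQ
        have e1 : (P.card : ℝ) * (2 * x) ≤ P.card * fe x y := mul_le_mul_of_nonneg_left hf1 (Nat.cast_nonneg _)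
        have e2 : (Q.card : ℝ) * y ≤ Q.card * fe x y := mul_le_mul_of_nonneg_left (by linarith) (Nat.cast_nonneg _)
        have e3 : ((P.card : ℝ) + Q.card) * fe x y ≤ ((a + 1 : ℕ) : ℝ) * fe x y := mul_le_mul_of_nonneg_right hPQ' (by linarith)
        linarith [add_mul (P.card : ℝ) Q.card (fe x y)]
      have ht := hw true
      have hf := hw false
      have hU : (U.card : ℝ) = (eP lb U).card + (eX lb U true).card + (eX lb U false).card := by exact_mod_cast eo1_U lb U
      have h4 : 0 ≤ (C + 2) * (e * N) := by positivity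
      rw [add_mul (C + 2)]
      linarith

end Pool.Agent.Lib.MP_779bc2_co
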