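import Pool.Agent.Lib.MP_779bc2_co.EO0

/-! Row EO3a (about 200 lines): the main case of the lemma `EO_S1` (red cycle even, blue cycle odd) -/

set_option autoImplicit false

namespace Pool.Agent.Lib.MP_779bc2_co

open Finset

/-- `fe x y - x ≥ (c/2) N`: if `x ≥ (c/2) N` use `fe ≥ 2 x`, otherwise `y ≥ c N` and `fe ≥ y + x/2`. -/
theorem fe_sub_ge (x y c N : ℝ) (hx : 0 ≤ x) (hN : 0 ≤ N) (hc : 0 ≤ c) (h : c * N ≤ max x y) : c / 2 * N ≤ fe x y - x := by
  have h1 : 2 * x ≤ fe x y := le_max_left _ _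
  have h2 : y + x / 2 ≤ fe x y := le_max_right _ _
  have h3 : 0 ≤ c * N := mul_nonneg hc hN
  by_cases h4 : c / 2 * N ≤ x
  · linarith
  · have h5 : x < c / 2 * N := not_le.mp h4
    have h6 : c * N ≤ y := by
      rcases le_max_iff.mp h with h7 | h7
      · linarith
      · exact h7
    linarith

/-- a set with more than `μ` elements contains an element which is not `M`-related to `v` -/
theorem eo3a_ex {W : Type} [Fintype W] [DecidableEq W] {M : W → W → Prop} {μ : ℝ} (hM : MisLe M μ) (v : W)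
    (S : Finset W) (hS : μ < S.card) : ∃ w ∈ S, ¬ M v w := by
  classical
  by_contra hno
  push Not at hno
  have h1 : S ⊆ univ.filter (fun w => M v w) := fun w hw => mem_filter.mpr ⟨mem_univ _, hno w hw⟩
  have h2 : (S.card : ℝ) ≤ ((univ.filter (fun w => M v w)).card : ℝ) := by exact_mod_cast card_le_card h1
  have h3 := hM.card v
  linarith

/-- elements of `eV lb U τ`, one of them with a label, are `M`-related or `R`-adjacent -/
theorem eo3a_R {W : Type} [Fintype W] [DecidableEq W] {R B : SimpleGraph W} {M : W → W → Prop} {lb : W → Option Bool}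
    (hlab : LabB B lb) {U : Finset W}
    (hcomp : ∀ τ, ∀ u ∈ eV lb U τ, ∀ w ∈ eV lb U τ, M u w ∨ R.Adj u w ∨ B.Adj u w) (τ : Bool) {u w : W}
    (hu : u ∈ eV lb U τ) (hw : w ∈ eV lb U τ) (h : lb u = some τ ∨ lb w = some τ) : M u w ∨ R.Adj u w := by
  rcases hcomp τ u hu w hw with h1 | h1 | h1
  · exact Or.inl h1
  · exact Or.inr h1
  · have h2 := hlab u w h1
    rcases h with h | h
    · rw [h2.1] at h; exact absurd h (by simp)
    · rw [h2.2] at h; exact absurd h (by simp)

/-- The vertices of `eX` are isolated in `B`, so by `hcomp` two elements of `eX lb U τ`, and an element of `eX lb U τ` and one of `eP lb U`, are `M`-related or `R`-adjacent. `R' = res R U`, `μ = e N ≥ 1`, `e` small compared with `c`, `e2`, `e'`.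
(1) Every element of `eP` has an `R`-neighbour in `eX τ0` (`> μ` elements), `eX τ0` is a near-clique (`near_reach`), every element of `eX (!τ0)` has an `R`-neighbour in `eP`: all elements of `U` are in one component of `R'`, `comp R' v = U` for `v ∈ U`.
(2) Hall decomposition `I` of `R'` with bound `x` (`hall_decomp`, `ZLe.res`); `I ⊆ U` (`Dec.not_isolated`), `T = nbs R' I ⊆ U`, `|U \ I| + |T| ≤ x` (`Dec.bd`), so `|I| ≥ |U| - x + |T| ≥ fe - x - μ + |T|`, `≥ (c/2) N - μ` (`fe_sub_ge`), `≥ x - μ + |T|` (`fe ≥ 2 x`).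
(3) The elements of `I ∩ eX τ` are pairwise `M`-related: at most `μ`. So `|I ∩ eP| ≥ (c/2) N - 3μ > μ`, and an element of `I ∩ eX τ` would have an `R`-neighbour in `I ∩ eP`, contradiction. Hence `I ⊆ eP lb U`.
(4) Every element of `eX τ` has an `R`-neighbour in `I` (`|I| > μ`), so `eX τ ⊆ T`, `|T| ≥ |eX τ0| > e2 N`.
(5) `C0 = (U \ I) \ T`: `|C0| + 2|T| ≤ x`. If `|I| < |C0|` then `x - μ + |T| ≤ |I| < x - 2|T|`, `3|T| < μ`, contradiction. So `|C0| ≤ |I|`: `S1_b_gen` with `U`, `I`, `C0`, `T` (`S1CfgB`: `compl` from `hcomp`, `big` from `th_le_fe`). -/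
theorem EO_S1_main (c e' e2 : ℝ) (hc : 0 < c) (he' : 0 < e') (he2 : 0 < e2) : ∃ e > (0 : ℝ), ∀ (W : Type) [Fintype W] [DecidableEq W]
    (R B : SimpleGraph W) (M : W → W → Prop) (x y N : ℝ) (lb : W → Option Bool), Env R B M x y N e c → LabB B lb →
    ∀ U : Finset W, (∀ τ, ∀ u ∈ eV lb U τ, ∀ w ∈ eV lb U τ, M u w ∨ R.Adj u w ∨ B.Adj u w) → fe x y - e * N ≤ U.card →
      e2 * N < (eP lb U).card → (∃ τ0, e2 * N < (eX lb U τ0).card) →
        ∃ Q ⊆ eP lb U, ∃ Z ⊆ U, IsUnit' B R y x (e' * N) Q Z := by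
  classical
  obtain ⟨eb, heb, hSb⟩ := S1_b_gen c e' hc he'
  obtain ⟨e, he, k1, k2, k3⟩ : ∃ e : ℝ, 0 < e ∧ e ≤ eb ∧ 4 * e ≤ e2 ∧ 20 * e ≤ c := by
    refine ⟨min eb (min e2 c) / 20, by positivity, ?_, ?_, ?_⟩
    · have := min_le_left eb (min e2 c)
      linarith
    · have h1 := min_le_right eb (min e2 c)
      have h2 := min_le_left e2 c
      have h3 : 0 < min eb (min e2 c) := by positivity
      linarith
    · have h1 := min_le_right eb (min e2 c)
      have h2 := min_le_right e2 c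
      linarith
  refine ⟨e, he, ?_⟩
  intro W _ _ R B M x y N lb env hlab U hcomp hU hP ⟨τ0, hX⟩
  have h1 := env.one
  have hN : 0 < N := by
    by_contra hneg
    have : e * N ≤ 0 := mul_nonpos_of_nonneg_of_nonpos he.le (not_lt.mp hneg)
    linarith
  have hm1 : e * N ≤ eb * N := by gcongr
  have hm2 : 4 * (e * N) ≤ e2 * N := by
    have : 4 * e * N ≤ e2 * N := by gcongr
    linarith
  have hm3 : 20 * (e * N) ≤ c * N := by
    have : 20 * e * N ≤ c * N := by gcongr
    linarith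
  have hx2 := env.x2
  have hy2 := env.y2
  have hmis := env.mis
  -- basic membership facts
  have hPU : eP lb U ⊆ U := fun w hw => (mem_eP.mp hw).1
  have hXU : ∀ τ, eX lb U τ ⊆ U := fun τ w hw => (mem_eX.mp hw).1
  have hPV : ∀ τ, eP lb U ⊆ eV lb U τ := fun τ w hw => mem_eV.mpr ⟨(mem_eP.mp hw).1, Or.inl (mem_eP.mp hw).2⟩
  have hXV : ∀ τ, eX lb U τ ⊆ eV lb U τ := fun τ w hw => mem_eV.mpr ⟨(mem_eX.mp hw).1, Or.inr (mem_eX.mp hw).2⟩
  have hsplit : ∀ w ∈ U, w ∈ eP lb U ∨ ∃ τ, w ∈ eX lb U τ := by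
    intro w hw
    cases hl : lb w with
    | none => exact Or.inl (mem_eP.mpr ⟨hw, hl⟩)
    | some τ => exact Or.inr ⟨τ, mem_eX.mpr ⟨hw, hl⟩⟩
  have hPX : ∀ τ, ∀ p ∈ eP lb U, ∀ z ∈ eX lb U τ, M p z ∨ R.Adj p z := fun τ p hp z hz =>
    eo3a_R hlab hcomp τ (hPV τ hp) (hXV τ hz) (Or.inr (mem_eX.mp hz).2)
  have hXP : ∀ τ, ∀ z ∈ eX lb U τ, ∀ p ∈ eP lb U, M z p ∨ R.Adj z p := fun τ z hz p hp =>
    eo3a_R hlab hcomp τ (hXV τ hz) (hPV τ hp) (Or.inl (mem_eX.mp hz).2)
  have hXX : ∀ τ, ∀ z ∈ eX lb U τ, ∀ z' ∈ eX lb U τ, M z z' ∨ R.Adj z z' := fun τ z hz z' hz' =>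
    eo3a_R hlab hcomp τ (hXV τ hz) (hXV τ hz') (Or.inl (mem_eX.mp hz).2)
  -- (1) connectedness
  have hreachX : ∀ q ∈ eX lb U τ0, ∀ q' ∈ eX lb U τ0, (res R U).Reachable q q' := by
    refine near_reach (res R U) (eX lb U τ0) (e * N) ?_ (by linarith)
    intro q hq
    have hsub : nn (res R U) q (eX lb U τ0) ⊆ univ.filter (fun w => M q w) := by
      intro w hw
      rw [mem_nn] at hw
      rw [mem_filter]
      refine ⟨mem_univ _, ?_⟩
      rcases hXX τ0 q hq w hw.1 with h | h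
      · exact h
      · exact absurd ⟨hXU τ0 hq, hXU τ0 hw.1, h⟩ hw.2
    have h2 : ((nn (res R U) q (eX lb U τ0)).card : ℝ) ≤ ((univ.filter (fun w => M q w)).card : ℝ) := by
      exact_mod_cast card_le_card hsub
    exact h2.trans (hmis.card q)
  have hreachP : ∀ p ∈ eP lb U, ∃ q ∈ eX lb U τ0, (res R U).Reachable p q := by
    intro p hp
    obtain ⟨w, hw, hnM⟩ := eo3a_ex hmis p (eX lb U τ0) (by linarith)
    rcases hPX τ0 p hp w hw with h | h
    · exact absurd h hnM
    · have hadj : (res R U).Adj p w := ⟨hPU hp, hXU τ0 hw, h⟩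
      exact ⟨w, hw, hadj.reachable⟩
  have hreachall : ∀ u ∈ U, ∃ q ∈ eX lb U τ0, (res R U).Reachable u q := by
    intro u hu
    rcases hsplit u hu with hp | ⟨τ, hz⟩
    · exact hreachP u hp
    · obtain ⟨w, hw, hnM⟩ := eo3a_ex hmis u (eP lb U) (by linarith)
      rcases hXP τ u hz w hw with h | h
      · exact absurd h hnM
      · have hadj : (res R U).Adj u w := ⟨hXU τ hz, hPU hw, h⟩
        obtain ⟨q, hq, hr⟩ := hreachP w hw
        exact ⟨q, hq, hadj.reachable.trans hr⟩
  have hreachU : ∀ u ∈ U, ∀ w ∈ U, (res R U).Reachable u w := by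
    intro u hu w hw
    obtain ⟨q, hq, h2⟩ := hreachall u hu
    obtain ⟨q', hq', h3⟩ := hreachall w hw
    exact (h2.trans (hreachX q hq q' hq')).trans h3.symm
  obtain ⟨v0, hv0P⟩ : (eP lb U).Nonempty := by
    rw [← card_pos]
    have : (0 : ℝ) < (eP lb U).card := by linarith
    exact_mod_cast this
  have hv0 : v0 ∈ U := hPU hv0P
  have hcompU : comp (res R U) v0 = U := by
    ext w
    rw [mem_comp]
    exact ⟨fun h => s1_mem R U v0 w hv0 h, fun h => hreachU v0 hv0 w h⟩
  -- (2) Hall decomposition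
  obtain ⟨I, hI⟩ := hall_decomp (res R U) x (by linarith) (env.zR.res U)
  have hIU : I ⊆ U := by
    intro v hv
    obtain ⟨w, hw⟩ := hI.not_isolated (by linarith) hv
    exact hw.1
  have hTU : nbs (res R U) I ⊆ U := by
    intro w hw
    obtain ⟨u, -, hadj⟩ := mem_nbs.mp hw
    exact hadj.2.1
  have hIT : Disjoint I (nbs (res R U) I) := by
    rw [disjoint_left]
    intro w hw hw'
    obtain ⟨u, hu, hadj⟩ := mem_nbs.mp hw'
    exact hI.ind u hu w hw hadj
  have hbd := hI.bd v0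
  rw [hcompU, inter_eq_right.mpr hTU] at hbd
  have hcardU : (U.card : ℝ) = ((U \ I).card : ℝ) + I.card := by
    have := card_sdiff_add_card_eq_card hIU
    rw [← this]
    push_cast
    ring
  have hfe1 := fe_sub_ge x y c N (by linarith) hN.le hc.le env.big
  have hfe2 : 2 * x ≤ fe x y := le_max_left _ _
  have hT0 : (0 : ℝ) ≤ (nbs (res R U) I).card := Nat.cast_nonneg _
  have hIbig : c / 2 * N - e * N + (nbs (res R U) I).card ≤ I.card := by linarith
  have hIbig2 : x - e * N + (nbs (res R U) I).card ≤ I.card := by linarith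
  -- (3) `I ⊆ eP`
  have hIX : ∀ τ, ((I ∩ eX lb U τ).card : ℝ) ≤ e * N := by
    intro τ
    rcases (I ∩ eX lb U τ).eq_empty_or_nonempty with h | ⟨u, hu⟩
    · rw [h]
      simp only [card_empty, Nat.cast_zero]
      linarith
    · rw [mem_inter] at hu
      have hsub : I ∩ eX lb U τ ⊆ univ.filter (fun w => M u w) := by
        intro w hw
        rw [mem_inter] at hw
        rw [mem_filter]
        refine ⟨mem_univ _, ?_⟩
        rcases hXX τ u hu.2 w hw.2 with h | h
        · exact h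
        · exact absurd ⟨hIU hu.1, hIU hw.1, h⟩ (hI.ind u hu.1 w hw.1)
      have h2 : ((I ∩ eX lb U τ).card : ℝ) ≤ ((univ.filter (fun w => M u w)).card : ℝ) := by
        exact_mod_cast card_le_card hsub
      exact h2.trans (hmis.card u)
  have hIsplit : (I.card : ℝ) ≤ (I ∩ eP lb U).card + (I ∩ eX lb U true).card + (I ∩ eX lb U false).card := by
    have hsub : I ⊆ (I ∩ eP lb U) ∪ (I ∩ eX lb U true) ∪ (I ∩ eX lb U false) := by
      intro w hw
      rw [mem_union, mem_union, mem_inter, mem_inter, mem_inter]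
      rcases hsplit w (hIU hw) with h | ⟨τ, h⟩
      · exact Or.inl (Or.inl ⟨hw, h⟩)
      · cases τ
        · exact Or.inr ⟨hw, h⟩
        · exact Or.inl (Or.inr ⟨hw, h⟩)
    have h2 := card_le_card hsub
    have h3 := card_union_le ((I ∩ eP lb U) ∪ (I ∩ eX lb U true)) (I ∩ eX lb U false)
    have h4 := card_union_le (I ∩ eP lb U) (I ∩ eX lb U true)
    have h5 : I.card ≤ (I ∩ eP lb U).card + (I ∩ eX lb U true).card + (I ∩ eX lb U false).card := by omega
    exact_mod_cast h5
  have hIP : e * N < (I ∩ eP lb U).card := by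
    have h2 := hIX true
    have h3 := hIX false
    linarith
  have hIsub : I ⊆ eP lb U := by
    intro v hv
    rcases hsplit v (hIU hv) with h | ⟨τ, h⟩
    · exact h
    · obtain ⟨w, hw, hnM⟩ := eo3a_ex hmis v (I ∩ eP lb U) hIP
      rw [mem_inter] at hw
      rcases hXP τ v h w hw.2 with h2 | h2
      · exact absurd h2 hnM
      · exact absurd ⟨hIU hv, hIU hw.1, h2⟩ (hI.ind v hv w hw.1)
  -- (4) `eX τ0 ⊆ T`
  have hXT : eX lb U τ0 ⊆ nbs (res R U) I := by
    intro z hz
    obtain ⟨w, hw, hnM⟩ := eo3a_ex hmis z I (by linarith)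
    rcases hXP τ0 z hz w (hIsub hw) with h | h
    · exact absurd h hnM
    · exact mem_nbs.mpr ⟨w, hw, ⟨hIU hw, hXU τ0 hz, h.symm⟩⟩
  have hTbig : e2 * N < (nbs (res R U) I).card := by
    have h2 : ((eX lb U τ0).card : ℝ) ≤ (nbs (res R U) I).card := by exact_mod_cast card_le_card hXT
    linarith
  -- (5) the configuration
  have hC0 : (((U \ I) \ nbs (res R U) I).card : ℝ) + (nbs (res R U) I).card = (U \ I).card := by
    have hsub : nbs (res R U) I ⊆ U \ I := by
      intro w hw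
      rw [mem_sdiff]
      exact ⟨hTU hw, fun h => (disjoint_left.mp hIT) h hw⟩
    have := card_sdiff_add_card_eq_card hsub
    exact_mod_cast this
  have hbd2 : (((U \ I) \ nbs (res R U) I).card : ℝ) + 2 * (nbs (res R U) I).card ≤ x := by linarith
  have hle : ((U \ I) \ nbs (res R U) I).card ≤ I.card := by
    by_contra hcon
    have h2 : (I.card : ℝ) < ((U \ I) \ nbs (res R U) I).card := by exact_mod_cast not_le.mp hcon
    linarith
  have hcfg : S1CfgB R B M x y (eb * N) U I ((U \ I) \ nbs (res R U) I) (nbs (res R U) I) := by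
    refine ⟨hIU, ?_, hTU, ?_, hIT, ?_, ?_, hbd2, ?_, ?_, ?_⟩
    · intro w hw
      exact (mem_sdiff.mp (mem_sdiff.mp hw).1).1
    · rw [disjoint_left]
      intro w hw hw'
      exact (mem_sdiff.mp (mem_sdiff.mp hw').1).2 hw
    · rw [disjoint_left]
      intro w hw hw'
      exact (mem_sdiff.mp hw).2 hw'
    · have hemp : U \ (I ∪ ((U \ I) \ nbs (res R U) I) ∪ nbs (res R U) I) = ∅ := by
        rw [eq_empty_iff_forall_notMem]
        intro w hw
        rw [mem_sdiff] at hw
        apply hw.2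
        rw [mem_union, mem_union, mem_sdiff, mem_sdiff]
        have := hw.1
        tauto
      rw [hemp]
      simp only [card_empty, Nat.cast_zero]
      linarith
    · intro u hu w hw hadj
      rcases mem_union.mp hw with hw | hw
      · exact hI.ind u hu w hw ⟨hIU hu, hIU hw, hadj⟩
      · have hwU : w ∈ U := (mem_sdiff.mp (mem_sdiff.mp hw).1).1
        exact (mem_sdiff.mp hw).2 (mem_nbs.mpr ⟨u, hu, ⟨hIU hu, hwU, hadj⟩⟩)
    · intro u hu w hw
      rcases hsplit u hu with h | ⟨τ, h⟩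
      · exact hcomp true u (hPV true h) w (hPV true (hIsub hw))
      · exact hcomp τ u (hXV τ h) w (hPV τ (hIsub hw))
    · have := th_le_fe x y (by linarith) (by linarith)
      linarith
  obtain ⟨Z, hZ, hunit, -⟩ := hSb W R B M x y N (env.mono k1) U I _ _ hcfg hle
  exact ⟨I, hIsub, Z, hZ, hunit⟩

end Pool.Agent.Lib.MP_779bc2_co
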