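import Pool.Agent.Lib.MP_779bc2_co.EO3a

/-! Row EO3b (about 120 lines): a blue unit, or almost no vertices without label -/

set_option autoImplicit false

namespace Pool.Agent.Lib.MP_779bc2_co

open Finset

/-- Let `e1` be the constant of `S1` for `c` and `min e' (c/40)`, `e2 = min (min (e1/4) e') (c/40)`. If `|eP lb U| ≤ e' N`: second alternative. If `|eX lb U τ| ≤ e2 N` for both `τ`: `|eP lb U| ≥ fe - e N - 2 e2 N ≥ th - e1 N`, so `S1` applies to `eP lb U`
(`⊆ eV lb U true`). A blue unit is the first alternative. A red unit is impossible: `|eP lb U| ≤ x + y/2 + (c/40) N` and `|eP lb U| ≥ fe - s`, `s = (e + 2 e2) N`, `fe ≥ 2x`, `fe ≥ y + x/2` give `x ≤ 4 s'`, `y ≤ 6 s'` with `s' = s + (c/40) N < (c/6) N`, contradiction to `c N ≤ max x y`.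
Otherwise `EO_S1_main`. -/
theorem EO_S1 (c e' : ℝ) (hc : 0 < c) (he' : 0 < e') : ∃ e > (0 : ℝ), ∀ (W : Type) [Fintype W] [DecidableEq W]
    (R B : SimpleGraph W) (M : W → W → Prop) (x y N : ℝ) (lb : W → Option Bool), Env R B M x y N e c → LabB B lb →
    ∀ U : Finset W, (∀ τ, ∀ u ∈ eV lb U τ, ∀ w ∈ eV lb U τ, M u w ∨ R.Adj u w ∨ B.Adj u w) → fe x y - e * N ≤ U.card →
      (∃ Q ⊆ eP lb U, ∃ Z ⊆ U, IsUnit' B R y x (e' * N) Q Z) ∨ ((eP lb U).card : ℝ) ≤ e' * N := by
  classical
  have hs1 : 0 < min e' (c / 40) := by positivity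
  obtain ⟨e1, he1, h1⟩ := S1 c (min e' (c / 40)) hc hs1
  set e2 : ℝ := min (min (e1 / 4) e') (c / 40) with he2
  have he2p : 0 < e2 := by positivity
  have he2a : e2 ≤ e1 / 4 := (min_le_left _ _).trans (min_le_left _ _)
  have he2b : e2 ≤ e' := (min_le_left _ _).trans (min_le_right _ _)
  have he2c : e2 ≤ c / 40 := min_le_right _ _
  obtain ⟨em, hem, hmain⟩ := EO_S1_main c e' e2 hc he' he2p
  refine ⟨min em (min (e1 / 4) (c / 40)), by positivity, ?_⟩
  set e : ℝ := min em (min (e1 / 4) (c / 40)) with he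
  have hea : e ≤ em := min_le_left _ _
  have heb : e ≤ e1 / 4 := (min_le_right _ _).trans (min_le_left _ _)
  have hec : e ≤ c / 40 := (min_le_right _ _).trans (min_le_right _ _)
  have hep : 0 < e := by positivity
  intro W _ _ R B M x y N lb henv hlab U hcomp hU
  have hN0 := henv.N_nonneg
  have hN : 0 < N := by
    rcases hN0.lt_or_eq with h | h
    · exact h
    · exfalso
      have := henv.one
      rw [← h, mul_zero] at this
      linarith
  by_cases hP : ((eP lb U).card : ℝ) ≤ e' * N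
  · exact Or.inr hP
  left
  have hP' : e2 * N < (eP lb U).card := by
    have := mul_le_mul_of_nonneg_right he2b hN0
    linarith [not_le.mp hP]
  by_cases hX : ∃ τ0, e2 * N < (eX lb U τ0).card
  · refine hmain W R B M x y N lb (henv.mono hea) hlab U hcomp ?_ hP' hX
    have := mul_le_mul_of_nonneg_right hea hN0
    linarith
  push Not at hX
  have hcover : U ⊆ eP lb U ∪ (eX lb U true ∪ eX lb U false) := by
    intro v hv
    rw [mem_union, mem_union, mem_eP, mem_eX, mem_eX]
    rcases hl : lb v with _ | τ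
    · exact Or.inl ⟨hv, rfl⟩
    · rcases τ with _ | _
      · exact Or.inr (Or.inr ⟨hv, rfl⟩)
      · exact Or.inr (Or.inl ⟨hv, rfl⟩)
  have hcard : (U.card : ℝ) ≤ (eP lb U).card + ((eX lb U true).card + (eX lb U false).card) := by
    have c1 := (card_le_card hcover).trans ((card_union_le _ _).trans
      (Nat.add_le_add_left (card_union_le _ _) _))
    exact_mod_cast c1
  have hXt := hX true
  have hXf := hX false
  have q1 : e * N ≤ e1 / 4 * N := mul_le_mul_of_nonneg_right heb hN0
  have q2 : e2 * N ≤ e1 / 4 * N := mul_le_mul_of_nonneg_right he2a hN0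
  have q3 : e * N ≤ c / 40 * N := mul_le_mul_of_nonneg_right hec hN0
  have q4 : e2 * N ≤ c / 40 * N := mul_le_mul_of_nonneg_right he2c hN0
  have hthfe := th_le_fe x y (by linarith [henv.x2]) (by linarith [henv.y2])
  have hPge : fe x y - e * N - 2 * (e2 * N) ≤ (eP lb U).card := by linarith
  have hPU : eP lb U ⊆ U := fun v hv => (mem_eP.mp hv).1
  have hPV : eP lb U ⊆ eV lb U true := fun v hv => by
    rw [mem_eV]
    exact ⟨(mem_eP.mp hv).1, Or.inl (mem_eP.mp hv).2⟩
  have hpos1 : 0 < e1 / 4 * N := by positivity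
  obtain ⟨Q, hQ, Z, hZ, hor⟩ := h1 W R B M x y N (henv.mono (heb.trans (by linarith))) (eP lb U)
    (fun u hu w hw => hcomp true u (hPV hu) w (hPV hw)) (by linarith)
  rcases hor with ⟨_, hle⟩ | ⟨hunit, _⟩
  · exfalso
    have r1 : min e' (c / 40) * N ≤ c / 40 * N := mul_le_mul_of_nonneg_right (min_le_right _ _) hN0
    have r2 : 2 * x ≤ fe x y := le_max_left _ _
    have r3 : y + x / 2 ≤ fe x y := le_max_right _ _
    have r4 := henv.big
    have r5 : 0 < c * N := by positivity
    have r6 : max x y ≤ 6 * (c / 10 * N) := by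
      apply max_le
      · linarith
      · linarith
    linarith
  · exact ⟨Q, hQ, Z, hZ.trans hPU, hunit.mono (mul_le_mul_of_nonneg_right (min_le_left _ _) hN0)⟩

end Pool.Agent.Lib.MP_779bc2_co
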