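import Pool.Agent.Lib.MP_779bc2_co.F7Same

/-! Row F10Card: a choice of one side in every component gives `a` cliques. -/

set_option autoImplicit false

namespace Pool.Agent.Lib.MP_779bc2_co

open Finset

variable {W : Type} [Fintype W] [DecidableEq W]

variable {o : Bool → Bool} {T : Bool → SimpleGraph W} {lab : Bool → W → Option Bool} {M : W → W → Prop} {X : Bool → ℝ} {E : ℝ}
  {a : ℕ} {U : Finset W} {ι : Type} [Fintype ι] {cl σ : ι → Bool} {Q : ι → Finset W}

open Classical in
/-- a set of sided indices closed under `Same` is balanced -/
theorem f10c_balance (h : SOut o T lab M X E a U cl σ Q) :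
    ∀ (k : ℕ) (C : Finset ι), C.card ≤ k → (∀ i ∈ C, o (!cl i) = true) → (∀ i ∈ C, ∀ j, Same T cl Q i j → j ∈ C) →
      (C.filter (fun i => σ i = true)).card = (C.filter (fun i => σ i = false)).card := by
  intro k
  induction k with
  | zero =>
    intro C hC _ _
    have : C = ∅ := Finset.card_eq_zero.1 (by omega)
    subst this
    simp
  | succ k ih =>
    intro C hC hs hcl
    rcases C.eq_empty_or_nonempty with rfl | ⟨i0, hi0⟩
    · simp
    set D : Finset ι := univ.filter (fun i => Same T cl Q i0 i) with hD
    have hDC : D ⊆ C := by
      intro i hi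
      exact hcl i0 hi0 i (by simpa [hD] using hi)
    have hi0D : i0 ∈ D := by simpa [hD] using h.same_refl i0
    have hcard : (C \ D).card < C.card := Finset.card_lt_card (by
      refine ⟨Finset.sdiff_subset, fun hsub => ?_⟩
      have := hsub hi0
      simp [hi0D] at this)
    have hrest := ih (C \ D) (by omega) (fun i hi => hs i (Finset.mem_sdiff.1 hi).1) (by
      intro i hi j hij
      rw [Finset.mem_sdiff] at hi ⊢
      refine ⟨hcl i hi.1 j hij, fun hjD => hi.2 ?_⟩
      have h1 : Same T cl Q i0 j := by simpa [hD] using hjD
      have h2 : Same T cl Q i0 i := h.same_trans (hs i0 hi0) h1 (h.same_symm hij)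
      simpa [hD] using h2)
    have hbal := h.class_balance i0 (hs i0 hi0)
    have key : ∀ b : Bool, (C.filter (fun i => σ i = b)).card =
        (univ.filter (fun i => Same T cl Q i0 i ∧ σ i = b)).card + ((C \ D).filter (fun i => σ i = b)).card := by
      intro b
      rw [← Finset.card_filter_add_card_filter_not (s := C.filter (fun i => σ i = b)) (fun i => i ∈ D)]
      congr 1
      · congr 1
        ext i
        simp only [Finset.mem_filter, Finset.mem_univ, true_and, hD]
        constructor
        · rintro ⟨⟨_, h2⟩, h3⟩
          exact ⟨h3, h2⟩
        · rintro ⟨h3, h2⟩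
          exact ⟨⟨hDC (by simpa [hD] using h3), h2⟩, h3⟩
      · congr 1
        ext i
        simp only [Finset.mem_filter, Finset.mem_sdiff]
        tauto
    rw [key true, key false, hbal, hrest]

open Classical in
/-- PROOF. By `h.count` it is enough that `#{sided, σ i = g i} = #{sided, σ i = true}`, i.e. `#{sided, g i = false, σ i = false} = #{sided, g i = false, σ i = true}`. More generally, for a set
`C` of sided indices closed under `Same` the numbers of `i ∈ C` with `σ i = true` and with `σ i = false` are equal: strong induction on `C` (take `i0 ∈ C` and remove the class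
`univ.filter (Same T cl Q i0)`, balanced by `h.class_balance`; the rest is closed under `Same`). -/
theorem SOut.side_card (h : SOut o T lab M X E a U cl σ Q) (g : ι → Bool) (hg : ∀ i j, o (!cl i) = true → Same T cl Q i j → g i = g j) :
    (univ.filter (fun i => o (!cl i) = true → σ i = g i)).card = a := by
  have hcount := h.count
  have hb := f10c_balance h (univ.filter (fun i => o (!cl i) = true ∧ g i = false)).card
    (univ.filter (fun i => o (!cl i) = true ∧ g i = false)) le_rfl
    (fun i hi => by simpa using (Finset.mem_filter.1 hi).2.1)
    (by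
      intro i hi j hij
      simp only [Finset.mem_filter, Finset.mem_univ, true_and] at hi ⊢
      refine ⟨?_, ?_⟩
      · rw [← hij.1]; exact hi.1
      · rw [← hg i j hi.1 hij]; exact hi.2)
  rw [Finset.filter_filter, Finset.filter_filter] at hb
  -- split the set
  have e1 : (univ.filter (fun i => o (!cl i) = true → σ i = g i)).card =
      (univ.filter (fun i => o (!cl i) = false)).card +
        ((univ.filter (fun i => o (!cl i) = true ∧ (σ i = true ∧ g i = true))).card +
          (univ.filter (fun i => (o (!cl i) = true ∧ g i = false) ∧ σ i = false)).card) := by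
    rw [← Finset.card_filter_add_card_filter_not (s := univ.filter (fun i => o (!cl i) = true → σ i = g i))
      (fun i : ι => o (!cl i) = false)]
    congr 1
    · congr 1
      ext i
      simp only [Finset.mem_filter, Finset.mem_univ, true_and]
      constructor
      · rintro ⟨_, h2⟩; exact h2
      · intro h2; exact ⟨fun h3 => by rw [h2] at h3; exact absurd h3 (by simp), h2⟩
    · rw [← Finset.card_filter_add_card_filter_not
        (s := (univ.filter (fun i => o (!cl i) = true → σ i = g i)).filter (fun i => ¬ o (!cl i) = false))
        (fun i : ι => g i = true)]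
      congr 1
      · congr 1
        ext i
        simp only [Finset.mem_filter, Finset.mem_univ, true_and, Bool.not_eq_false]
        constructor
        · rintro ⟨⟨h1, h2⟩, h3⟩; exact ⟨h2, by rw [h1 h2, h3], h3⟩
        · rintro ⟨h1, h2, h3⟩; exact ⟨⟨fun _ => by rw [h2, h3], h1⟩, h3⟩
      · congr 1
        ext i
        simp only [Finset.mem_filter, Finset.mem_univ, true_and, Bool.not_eq_false, Bool.not_eq_true]
        constructor
        · rintro ⟨⟨h1, h2⟩, h3⟩; exact ⟨⟨h2, h3⟩, by rw [h1 h2, h3]⟩
        · rintro ⟨⟨h1, h3⟩, h2⟩; exact ⟨⟨fun _ => by rw [h2, h3], h1⟩, h3⟩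
  have e2 : (univ.filter (fun i => o (!cl i) = true ∧ σ i = true)).card =
      (univ.filter (fun i => o (!cl i) = true ∧ (σ i = true ∧ g i = true))).card +
        (univ.filter (fun i => (o (!cl i) = true ∧ g i = false) ∧ σ i = true)).card := by
    rw [← Finset.card_filter_add_card_filter_not (s := univ.filter (fun i => o (!cl i) = true ∧ σ i = true))
      (fun i : ι => g i = true), Finset.filter_filter, Finset.filter_filter]
    congr 1
    · congr 1
      ext i
      simp only [Finset.mem_filter, Finset.mem_univ, true_and]
      tauto
    · congr 1
      ext i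
      simp only [Finset.mem_filter, Finset.mem_univ, true_and, Bool.not_eq_true]
      tauto
  omega

end Pool.Agent.Lib.MP_779bc2_co
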