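import Mathlib

/-! Row F8: a maximal matching between two disjoint sets (elementary). -/

set_option autoImplicit false

namespace Pool.Agent.Lib.MP_779bc2_co

open Finset

/-- Auxiliary: a partial matching between `X` and `Y` on the vertex set `D`. -/
def f8_Good {W : Type} [DecidableEq W] (G : SimpleGraph W) (X Y : Finset W) (D : Finset W) (φ : W → W) : Prop :=
  D ⊆ X ∪ Y ∧ ∀ u ∈ D, φ u ∈ D ∧ (u ∈ X → φ u ∈ Y) ∧ (u ∈ Y → φ u ∈ X) ∧ φ (φ u) = u ∧ G.Adj u (φ u)

lemma f8_card {W : Type} [DecidableEq W] {G : SimpleGraph W} {X Y : Finset W} (hXY : Disjoint X Y)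
    {D : Finset W} {φ : W → W} (h : f8_Good G X Y D φ) :
    (D ∩ X).card = (D ∩ Y).card ∧ (D ∩ X).card + (D ∩ Y).card = D.card := by
  obtain ⟨hsub, hg⟩ := h
  constructor
  · apply Finset.card_bij (fun u _ => φ u)
    · intro u hu
      rw [Finset.mem_inter] at hu ⊢
      exact ⟨(hg u hu.1).1, (hg u hu.1).2.1 hu.2⟩
    · intro a ha b hb hab
      rw [Finset.mem_inter] at ha hb
      have := congrArg φ hab
      simpa [(hg a ha.1).2.2.2.1, (hg b hb.1).2.2.2.1] using this
    · intro b hb
      rw [Finset.mem_inter] at hb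
      refine ⟨φ b, ?_, (hg b hb.1).2.2.2.1⟩
      rw [Finset.mem_inter]
      exact ⟨(hg b hb.1).1, (hg b hb.1).2.2.1 hb.2⟩
  · rw [← Finset.card_union_of_disjoint, ← Finset.inter_union_distrib_left, Finset.inter_eq_left.2 hsub]
    exact hXY.mono Finset.inter_subset_right Finset.inter_subset_right

/-- PROOF. Call `(D, φ)` good if `D ⊆ X ∪ Y`, `φ` maps `D ∩ X` to `D ∩ Y` and `D ∩ Y` to `D ∩ X`, `φ (φ u) = u` for `u ∈ D` and `G.Adj u (φ u)` for `u ∈ D`. `(∅, id)` is good; choose a good pair
with `D.card` maximal (`D.card ≤ Fintype.card W`). Good implies `Set.InjOn φ D` and `(D ∩ X).card = (D ∩ Y).card`, `D.card = (D ∩ X).card + (D ∩ Y).card`. If `u ∈ X \ D`, `w ∈ Y \ D` were adjacent,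
`(insert u (insert w D), φ')` with `φ' u = w`, `φ' w = u`, `φ' = φ` elsewhere would be a larger good pair. -/
theorem exists_matching {W : Type} [Fintype W] [DecidableEq W] (G : SimpleGraph W) (X Y : Finset W) (hXY : Disjoint X Y) :
    ∃ (D : Finset W) (φ : W → W), D ⊆ X ∪ Y ∧ Set.InjOn φ D ∧ (∀ u ∈ D, G.Adj u (φ u)) ∧
      2 * (D ∩ X).card = D.card ∧ 2 * (D ∩ Y).card = D.card ∧ ∀ u ∈ X \ D, ∀ w ∈ Y \ D, ¬ G.Adj u w := by
  classical
  have hne : (Finset.univ.filter (fun D : Finset W => ∃ φ, f8_Good G X Y D φ)).Nonempty := by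
    refine ⟨∅, ?_⟩
    rw [Finset.mem_filter]
    refine ⟨Finset.mem_univ _, id, Finset.empty_subset _, ?_⟩
    intro u hu
    exact absurd hu (Finset.notMem_empty u)
  obtain ⟨D, hD, hmax⟩ := Finset.exists_max_image _ Finset.card hne
  rw [Finset.mem_filter] at hD
  obtain ⟨-, φ, hgood⟩ := hD
  have hc := f8_card hXY hgood
  refine ⟨D, φ, hgood.1, ?_, fun u hu => (hgood.2 u hu).2.2.2.2, by omega, by omega, ?_⟩
  · intro a ha b hb hab
    have := congrArg φ hab
    simpa [(hgood.2 a ha).2.2.2.1, (hgood.2 b hb).2.2.2.1] using this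
  · intro u hu w hw hadj
    rw [Finset.mem_sdiff] at hu hw
    have huw : u ≠ w := hadj.ne
    have huY : u ∉ Y := fun h => (Finset.disjoint_left.1 hXY hu.1 h)
    have hwX : w ∉ X := fun h => (Finset.disjoint_left.1 hXY h hw.1)
    let ψ : W → W := fun v => if v = u then w else if v = w then u else φ v
    have hψu : ψ u = w := by simp [ψ]
    have hψw : ψ w = u := by simp [ψ, huw.symm]
    have hψD : ∀ v ∈ D, ψ v = φ v := by
      intro v hv
      have h1 : v ≠ u := fun h => hu.2 (h ▸ hv)
      have h2 : v ≠ w := fun h => hw.2 (h ▸ hv)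
      simp [ψ, h1, h2]
    have hnew : f8_Good G X Y (insert u (insert w D)) ψ := by
      refine ⟨?_, ?_⟩
      · intro v hv
        rw [Finset.mem_insert, Finset.mem_insert] at hv
        rcases hv with rfl | rfl | hv
        · exact Finset.mem_union_left _ hu.1
        · exact Finset.mem_union_right _ hw.1
        · exact hgood.1 hv
      · intro v hv
        rw [Finset.mem_insert, Finset.mem_insert] at hv
        rcases hv with rfl | rfl | hv
        · rw [hψu]
          refine ⟨by simp, fun _ => hw.1, fun h => absurd h huY, hψw, hadj⟩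
        · rw [hψw]
          refine ⟨by simp, fun h => absurd h hwX, fun _ => hu.1, hψu, hadj.symm⟩
        · obtain ⟨h1, h2, h3, h4, h5⟩ := hgood.2 v hv
          rw [hψD v hv, hψD _ h1]
          exact ⟨by simp [h1], h2, h3, h4, h5⟩
    have hle := hmax (insert u (insert w D)) (by rw [Finset.mem_filter]; exact ⟨Finset.mem_univ _, ψ, hnew⟩)
    have hcard : (insert u (insert w D)).card = D.card + 2 := by
      rw [Finset.card_insert_of_notMem, Finset.card_insert_of_notMem hw.2]
      rw [Finset.mem_insert]; push Not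
      exact ⟨huw, hu.2⟩
    omega

end Pool.Agent.Lib.MP_779bc2_co
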