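import Pool.Agent.Lib.MP_779bc2_co.F7Same
import Pool.Agent.Lib.MP_779bc2_co.F8Mat

/-! Row F9: every component with sided cliques contains a large matching. -/

set_option autoImplicit false

namespace Pool.Agent.Lib.MP_779bc2_co

open Finset

variable {W : Type} [Fintype W] [DecidableEq W]

variable {o : Bool → Bool} {T : Bool → SimpleGraph W} {lab : Bool → W → Option Bool} {M : W → W → Prop} {X : Bool → ℝ} {E : ℝ}
  {a : ℕ} {U : Finset W} {ι : Type} [Fintype ι] {cl σ : ι → Bool} {Q : ι → Finset W}

/-- PROOF. `XA`, `YA`: union of the `Q i` with `Same T cl Q i0 i` and `σ i = true` (`false`), disjoint by `h.disj`. `exists_matching (T (!cl i0)) XA YA` gives `D`, `φ`. Suppose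
`D.card < X (!cl i0) ≤ 3/2 X (cl i0) + E`, so `(D ∩ XA).card, (D ∩ YA).card ≤ 3/4 X (cl i0) + E / 2`. Put `P i = Q i \ D` if `Same T cl Q i0 i` (then
`(P i).card ≥ X - E - 3/4 X - E/2 = X/4 - 3E/2 ≥ 25 (a+1) E - 2 E > 2a * 2E`, `Q i ∩ D ⊆ D ∩ XA` or `⊆ D ∩ YA`) and `P i = Q i` otherwise. `exists_transversal` (`S = univ`, `Fx = ∅`, `s = 2E`; the
filters are smaller than for `Q`) gives `q`. `K` = the set of the `i` with `o (!cl i) = false`, or `o (!cl i) = true ∧ ¬ Same i0 i ∧ σ i = true`, or `Same i0 i`. `h.keep_le` applies: `i, j ∈ K`,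
`σ i = true`, `σ j = false`, `Same i j`, sided: `j` must satisfy `Same i0 j`, hence also `i`; `q i ∈ XA \ D`, `q j ∈ YA \ D` are not adjacent. So `K.card ≤ a`. But
`K.card = #plain + #{sided, ¬ Same, σ = true} + #{Same, σ = true} + #{Same, σ = false} = a + #{Same, σ = false}` (`h.count`), and `#{Same, σ = false} = #{Same, σ = true} ≥ 1`
(`h.class_balance`, one of them contains `i0`). Contradiction. -/
theorem SOut.class_matching (h : SOut o T lab M X E a U cl σ Q) (i0 : ι) (h0 : o (!cl i0) = true) :
    ∃ (D : Finset W) (φ : W → W), (∀ u ∈ D, ∃ i, Same T cl Q i0 i ∧ u ∈ Q i) ∧ Set.InjOn φ D ∧ (∀ u ∈ D, (T (!cl i0)).Adj u (φ u)) ∧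
      X (!cl i0) ≤ (D.card : ℝ) := by
  classical
  have hW : Nonempty W := ⟨(h.nonempty i0).choose⟩
  set XA : Finset W := (univ.filter (fun i => Same T cl Q i0 i ∧ σ i = true)).biUnion Q with hXA
  set YA : Finset W := (univ.filter (fun i => Same T cl Q i0 i ∧ σ i = false)).biUnion Q with hYA
  have hdis : Disjoint XA YA := by
    rw [Finset.disjoint_left]
    intro u hu hu'
    obtain ⟨i, hi, hui⟩ := Finset.mem_biUnion.1 hu
    obtain ⟨j, hj, huj⟩ := Finset.mem_biUnion.1 hu'
    have hij := h.eq_of_mem hui huj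
    subst hij
    have h1 := (Finset.mem_filter.1 hi).2.2
    have h2 := (Finset.mem_filter.1 hj).2.2
    rw [h1] at h2
    exact absurd h2 (by simp)
  obtain ⟨D, φ, hDsub, hinj, hadj, hDX, hDY, hmax⟩ := exists_matching (T (!cl i0)) XA YA hdis
  refine ⟨D, φ, ?_, hinj, hadj, ?_⟩
  · intro u hu
    rcases Finset.mem_union.1 (hDsub hu) with h1 | h1
    · obtain ⟨i, hi, hui⟩ := Finset.mem_biUnion.1 h1
      exact ⟨i, (Finset.mem_filter.1 hi).2.1, hui⟩
    · obtain ⟨i, hi, hui⟩ := Finset.mem_biUnion.1 h1
      exact ⟨i, (Finset.mem_filter.1 hi).2.1, hui⟩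
  · by_contra hlt
    push Not at hlt
    have hE1 := h.one
    have ha0 : (0 : ℝ) ≤ a := by positivity
    have hrat := h.ratio i0
    have hbig := h.big i0
    have hDXr : 2 * ((D ∩ XA).card : ℝ) = D.card := by exact_mod_cast hDX
    have hDYr : 2 * ((D ∩ YA).card : ℝ) = D.card := by exact_mod_cast hDY
    set P : ι → Finset W := fun i => if Same T cl Q i0 i then Q i \ D else Q i with hP
    have hPsub : ∀ i, P i ⊆ Q i := by
      intro i
      simp only [hP]
      split_ifs
      · exact Finset.sdiff_subset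
      · exact Finset.Subset.refl _
    have hPcard : ∀ i, (2 * (a : ℝ)) * (2 * E) < ((P i).card : ℝ) := by
      intro i
      simp only [hP]
      split_ifs with hS
      · have h1 : ((Q i \ D).card : ℝ) + ((Q i ∩ D).card : ℝ) = (Q i).card := by
          exact_mod_cast Finset.card_sdiff_add_card_inter (Q i) D
        have h2 : ((Q i ∩ D).card : ℝ) ≤ (D.card : ℝ) / 2 := by
          cases hσ : σ i
          · have h3 : Q i ∩ D ⊆ D ∩ YA := by
              intro u hu
              obtain ⟨hu1, hu2⟩ := Finset.mem_inter.1 hu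
              exact Finset.mem_inter.2 ⟨hu2, Finset.mem_biUnion.2 ⟨i, Finset.mem_filter.2 ⟨Finset.mem_univ _, hS, hσ⟩, hu1⟩⟩
            have h4 : ((Q i ∩ D).card : ℝ) ≤ ((D ∩ YA).card : ℝ) := by exact_mod_cast Finset.card_le_card h3
            linarith
          · have h3 : Q i ∩ D ⊆ D ∩ XA := by
              intro u hu
              obtain ⟨hu1, hu2⟩ := Finset.mem_inter.1 hu
              exact Finset.mem_inter.2 ⟨hu2, Finset.mem_biUnion.2 ⟨i, Finset.mem_filter.2 ⟨Finset.mem_univ _, hS, hσ⟩, hu1⟩⟩
            have h4 : ((Q i ∩ D).card : ℝ) ≤ ((D ∩ XA).card : ℝ) := by exact_mod_cast Finset.card_le_card h3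
            linarith
        have h5 := h.size i
        have h6 : X (cl i) = X (cl i0) := by rw [hS.1]
        rw [h6] at h5
        nlinarith
      · have h1 := h.size_ge i
        nlinarith
    have hcι : (Fintype.card ι : ℝ) ≤ 2 * a := by exact_mod_cast h.card_le
    obtain ⟨q, hq, -, hrel⟩ := exists_transversal (Bad T lab M) h.badSymm univ P ∅ (2 * E) (by linarith)
      (fun j _ f hf => absurd hf (Finset.notMem_empty f))
      (fun i _ j _ hij u hu => by
        refine le_trans ?_ (h.cross i j hij u (hPsub i hu))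
        exact_mod_cast Finset.card_le_card (Finset.filter_subset_filter _ (hPsub j)))
      (fun j _ => by
        rw [Finset.card_univ, Finset.card_empty]
        refine lt_of_le_of_lt ?_ (hPcard j)
        push_cast
        nlinarith)
    have hqQ : ∀ i, q i ∈ Q i := fun i => hPsub i (hq i (Finset.mem_univ _))
    -- the independent set
    set A1 : Finset ι := univ.filter (fun i => o (!cl i) = false) with hA1
    set A2 : Finset ι := univ.filter (fun i => o (!cl i) = true ∧ σ i = true) with hA2
    set A3 : Finset ι := univ.filter (fun i => Same T cl Q i0 i ∧ σ i = false) with hA3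
    have hd12 : Disjoint A1 A2 := by
      rw [Finset.disjoint_left]
      intro i hi hi'
      have h1 := (Finset.mem_filter.1 hi).2
      have h2 := (Finset.mem_filter.1 hi').2.1
      rw [h1] at h2
      exact absurd h2 (by simp)
    have hd123 : Disjoint (A1 ∪ A2) A3 := by
      rw [Finset.disjoint_left]
      intro i hi hi'
      have h3 := (Finset.mem_filter.1 hi').2
      rcases Finset.mem_union.1 hi with h1 | h1
      · have h2 := (Finset.mem_filter.1 h1).2
        rw [← h3.1.1, h0] at h2
        exact absurd h2 (by simp)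
      · have h2 := (Finset.mem_filter.1 h1).2.2
        rw [h3.2] at h2
        exact absurd h2 (by simp)
    have hcard : (A1 ∪ A2 ∪ A3).card = a + A3.card := by
      rw [Finset.card_union_of_disjoint hd123, Finset.card_union_of_disjoint hd12]
      have := h.count
      rw [← hA1, ← hA2] at this
      omega
    have hA3 : 1 ≤ A3.card := by
      have hb := h.class_balance i0 h0
      rw [Nat.one_le_iff_ne_zero, ← Nat.pos_iff_ne_zero]
      cases hσ : σ i0
      · exact Finset.card_pos.2 ⟨i0, Finset.mem_filter.2 ⟨Finset.mem_univ _, h.same_refl i0, hσ⟩⟩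
      · have h1 : 0 < (univ.filter (fun i => Same T cl Q i0 i ∧ σ i = true)).card :=
          Finset.card_pos.2 ⟨i0, Finset.mem_filter.2 ⟨Finset.mem_univ _, h.same_refl i0, hσ⟩⟩
        rw [hb] at h1
        exact h1
    have hle := h.keep_le q (A1 ∪ A2 ∪ A3) (fun i _ => hqQ i)
      (fun i _ j _ hij => hrel i (Finset.mem_univ _) j (Finset.mem_univ _) hij) (by
        intro i _ j hj ho hij hσi hσj hsame
        have hj3 : Same T cl Q i0 j := by
          rcases Finset.mem_union.1 hj with h1 | h1
          · rcases Finset.mem_union.1 h1 with h2 | h2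
            · have h3 := (Finset.mem_filter.1 h2).2
              rw [← hij, ho] at h3
              exact absurd h3 (by simp)
            · have h3 := (Finset.mem_filter.1 h2).2.2
              rw [hσj] at h3
              exact absurd h3 (by simp)
          · exact (Finset.mem_filter.1 h1).2.1
        have hi3 : Same T cl Q i0 i := h.same_trans h0 hj3 (h.same_symm hsame)
        have hqi : q i ∈ Q i \ D := by
          have := hq i (Finset.mem_univ _)
          simpa only [hP, if_pos hi3] using this
        have hqj : q j ∈ Q j \ D := by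
          have := hq j (Finset.mem_univ _)
          simpa only [hP, if_pos hj3] using this
        have h1 := hmax (q i) (Finset.mem_sdiff.2 ⟨Finset.mem_biUnion.2 ⟨i, Finset.mem_filter.2 ⟨Finset.mem_univ _, hi3, hσi⟩, hqQ i⟩, (Finset.mem_sdiff.1 hqi).2⟩)
          (q j) (Finset.mem_sdiff.2 ⟨Finset.mem_biUnion.2 ⟨j, Finset.mem_filter.2 ⟨Finset.mem_univ _, hj3, hσj⟩, hqQ j⟩, (Finset.mem_sdiff.1 hqj).2⟩)
        rw [← hi3.1]
        exact h1)
    omega

end Pool.Agent.Lib.MP_779bc2_co
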