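import Pool.Agent.Lib.MP_779bc2_co.F1Lab
import Pool.Agent.Lib.MP_779bc2_co.F9Class

/-! Row F10Sel: selection of a set of `a` cliques for a vertex. -/

set_option autoImplicit false

namespace Pool.Agent.Lib.MP_779bc2_co

open Finset

variable {W : Type} [Fintype W] [DecidableEq W]

variable {o : Bool → Bool} {T : Bool → SimpleGraph W} {lab : Bool → W → Option Bool} {M : W → W → Prop} {X : Bool → ℝ} {E : ℝ}
  {a : ℕ} {U : Finset W} {ι : Type} [Fintype ι] {cl σ : ι → Bool} {Q : ι → Finset W}

open Classical in
/-- PROOF. For sided `i` let `XA i` (`YA i`) be the union of the `Q j` with `Same T cl Q i j` and `σ j = true` (`false`) and let `g i = false` if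
`δ * N ≤ #{w ∈ XA i : χ v w = long (!cl i)}`, `g i = true` otherwise. `Same i j` implies `XA i = XA j`, so `g i = g j`. Let `σ i = g i`. If `g i = true` then `Q i ⊆ XA i` and the claim follows.
If `g i = false` then `Q i ⊆ YA i` and `#{w ∈ YA i : χ v w = long (!cl i)} < δ * N`, otherwise `hT.attach (!cl i)` with `U1 = XA i`, `U2 = YA i`, `D`, `φ` from `h.class_matching i` gives a
contradiction: all elements of `D ∪ XA i ∪ YA i` lie in cliques `j` with `Same i j`, hence are reachable from each other (`same_iff`), and for `u ∈ XA i`, `u' ∈ YA i` the labels in the colour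
`!cl i` are `some true` and `some false` (`h.other`), so there is an odd walk (`LabT.odd_walk`). -/
theorem SOut.exists_side (p : Pm) (n m : ℕ) (χ : W → W → Col p.s p.t) (N δ e : ℝ) (hT : Tpl p n m a χ N δ e U T M)
    (h : SOut o T lab M X E a U cl σ Q) (ho : ∀ κ, o κ = decide (Odd (len n m κ))) (hX : ∀ κ, X κ = (1 + e) * len n m κ) (v : W) :
    ∃ g : ι → Bool, (∀ i j, o (!cl i) = true → Same T cl Q i j → g i = g j) ∧
      ∀ i, o (!cl i) = true → σ i = g i → (((Q i).filter (fun w => χ v w = .long (!cl i))).card : ℝ) < δ * N := by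
  set XA : ι → Finset W := fun i => univ.filter (fun w => ∃ j, Same T cl Q i j ∧ σ j = true ∧ w ∈ Q j) with hXA
  have hmem : ∀ i w, w ∈ XA i ↔ ∃ j, Same T cl Q i j ∧ σ j = true ∧ w ∈ Q j := by
    intro i w
    simp [hXA]
  refine ⟨fun i => decide (¬ δ * N ≤ (((XA i).filter (fun w => χ v w = .long (!cl i))).card : ℝ)), ?_, ?_⟩
  · intro i j hi hij
    have hj : o (!cl j) = true := by rw [← hij.1]; exact hi
    have h1 : XA i = XA j := by
      ext w
      rw [hmem, hmem]
      constructor
      · rintro ⟨k, h1, h2, h3⟩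
        exact ⟨k, h.same_trans hj (h.same_symm hij) h1, h2, h3⟩
      · rintro ⟨k, h1, h2, h3⟩
        exact ⟨k, h.same_trans hi hij h1, h2, h3⟩
    have h2 : cl i = cl j := hij.1
    simp only [h1, h2]
  · intro i hi hσ
    by_contra hlt
    rw [not_lt] at hlt
    by_cases hb : δ * N ≤ (((XA i).filter (fun w => χ v w = .long (!cl i))).card : ℝ)
    · -- `g i = false`
      have hσf : σ i = false := by simpa [hb] using hσ
      obtain ⟨D, φ, hD1, hD2, hD3, hD4⟩ := h.class_matching i hi
      have hreach : ∀ u, (∃ j, Same T cl Q i j ∧ u ∈ Q j) → ∀ q ∈ Q i, (T (!cl i)).Reachable q u := by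
        rintro u ⟨j, hj, huj⟩ q hq
        exact ((h.same_iff i j hi).1 hj).2 q hq u huj
      have hin : ∀ u ∈ D ∪ XA i ∪ Q i, ∃ j, Same T cl Q i j ∧ u ∈ Q j := by
        intro u hu
        rw [Finset.mem_union, Finset.mem_union] at hu
        rcases hu with (hu | hu) | hu
        · exact hD1 u hu
        · obtain ⟨j, h1, _, h3⟩ := (hmem i u).1 hu
          exact ⟨j, h1, h3⟩
        · exact ⟨i, h.same_refl i, hu⟩
      obtain ⟨q0, hq0⟩ := h.nonempty i
      have hodd : Odd (len n m (!cl i)) := by
        have := ho (!cl i)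
        rw [hi] at this
        simpa using this.symm
      refine hT.attach (!cl i) hodd v (XA i) ?_ (Q i) (h.sub i) D φ hD2 hD3 ?_ ?_ ?_ hb hlt
      · intro u hu
        obtain ⟨j, _, _, h3⟩ := (hmem i u).1 hu
        exact h.sub j h3
      · rw [← hX]
        exact hD4
      · intro u hu w hw
        exact (hreach u (hin u hu) q0 hq0).symm.trans (hreach w (hin w hw) q0 hq0)
      · intro u hu u' hu'
        obtain ⟨j, hj1, hj2, hj3⟩ := (hmem i u).1 hu
        have hl1 : lab (!cl i) u = some true := by
          have h1 : o (!cl j) = true := by rw [← hj1.1]; exact hi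
          have h2 := h.other j h1 u hj3
          rw [← hj1.1, hj2] at h2
          exact h2
        have hl2 : lab (!cl i) u' = some (!true) := by
          have h2 := h.other i hi u' hu'
          rw [hσf] at h2
          exact h2
        exact (h.labT (!cl i)).odd_walk (hreach u ⟨j, hj1, hj3⟩ u' hu').symm hl1 hl2
    · -- `g i = true`
      have hσt : σ i = true := by simpa [hb] using hσ
      refine hb (hlt.trans ?_)
      have hsub : (Q i).filter (fun w => χ v w = .long (!cl i)) ⊆ (XA i).filter (fun w => χ v w = .long (!cl i)) := by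
        intro w hw
        rw [Finset.mem_filter] at hw ⊢
        exact ⟨(hmem i w).2 ⟨i, h.same_refl i, hσt, hw.1⟩, hw.2⟩
      exact_mod_cast Finset.card_le_card hsub

end Pool.Agent.Lib.MP_779bc2_co
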