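import Pool.Agent.Lib.MP_779bc2_co.FDefs

/-! Row F11: counting of the edges between cliques. -/

set_option autoImplicit false

namespace Pool.Agent.Lib.MP_779bc2_co

open Finset

variable {W : Type} [Fintype W] [DecidableEq W]

variable {o : Bool → Bool} {T : Bool → SimpleGraph W} {lab : Bool → W → Option Bool} {M : W → W → Prop} {X : Bool → ℝ} {E : ℝ}
  {a : ℕ} {U : Finset W} {ι : Type} [Fintype ι] {cl σ : ι → Bool} {Q : ι → Finset W}

open Classical in
theorem prs_le_of_card (P : W → W → Prop) (A B : Finset W) (s : ℝ) (h : ∀ u ∈ A, ((B.filter (fun w => P u w)).card : ℝ) ≤ s) :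
    prs P A B ≤ A.card * s := by
  unfold prs
  have h1 : ((A ×ˢ B).filter (fun q => P q.1 q.2)).card = ∑ u ∈ A, (B.filter (fun w => P u w)).card := by
    rw [Finset.card_filter, Finset.sum_product]
    refine Finset.sum_congr rfl (fun u _ => ?_)
    rw [Finset.card_filter]
  rw [h1]
  push_cast
  calc ∑ u ∈ A, ((B.filter (fun w => P u w)).card : ℝ) ≤ ∑ _u ∈ A, s := Finset.sum_le_sum h
    _ = A.card * s := by rw [Finset.sum_const, nsmul_eq_mul]

theorem f11_prs_mono {P P' : W → W → Prop} {A B : Finset W} (h : ∀ u ∈ A, ∀ w ∈ B, P u w → P' u w) : prs P A B ≤ prs P' A B := by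
  classical
  unfold prs
  norm_cast
  refine Finset.card_le_card ?_
  intro q hq
  obtain ⟨h1, h2⟩ := Finset.mem_filter.1 hq
  obtain ⟨h3, h4⟩ := Finset.mem_product.1 h1
  exact Finset.mem_filter.2 ⟨h1, h _ h3 _ h4 h2⟩

theorem prs_or (P P' : W → W → Prop) (A B : Finset W) : prs (fun u w => P u w ∨ P' u w) A B ≤ prs P A B + prs P' A B := by
  classical
  unfold prs
  norm_cast
  refine le_trans (Finset.card_le_card ?_) (Finset.card_union_le _ _)
  intro q hq
  simp only [Finset.mem_filter] at hq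
  simp only [Finset.mem_union, Finset.mem_filter]
  rcases hq.2 with h1 | h1
  · exact Or.inl ⟨hq.1, h1⟩
  · exact Or.inr ⟨hq.1, h1⟩

/-- PROOF. `hT.dens`, then for every `u ∈ Q i` the set of the `w ∈ Q j` with `(T κ).Adj u w ∨ M u w` is contained in the set of the `w` with `Bad T lab M u w` (`hc` and `h.adj_cases`), so it has at
most `2 E` elements (`h.cross`); `(Q i).card ≤ N`. -/
theorem SOut.prs_cross (p : Pm) (n m : ℕ) (χ : W → W → Col p.s p.t) (N δ e : ℝ) (hN : (Fintype.card W : ℝ) = N) (hT : Tpl p n m a χ N δ e U T M)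
    (h : SOut o T lab M X E a U cl σ Q) (i j : ι) (hij : i ≠ j) (κ : Bool)
    (hc : κ = (!cl i) → o κ = true → cl i = cl j → Same T cl Q i j → σ i = σ j) :
    prs (fun u w => χ u w = .long κ) (Q i) (Q j) ≤ 2 * E * N + e * N ^ 2 := by
  classical
  refine (hT.dens κ (Q i) (h.sub i) (Q j) (h.sub j)).trans ?_
  have hE1 := h.one
  have h1 : prs (fun u w => (T κ).Adj u w ∨ M u w) (Q i) (Q j) ≤ (Q i).card * (2 * E) := by
    refine prs_le_of_card _ _ _ _ (fun u hu => ?_)
    refine le_trans ?_ (h.cross i j hij u hu)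
    norm_cast
    refine Finset.card_le_card ?_
    intro w hw
    simp only [Finset.mem_filter] at hw
    obtain ⟨hw1, hw2⟩ := hw
    simp only [Finset.mem_filter]
    refine ⟨hw1, ?_⟩
    rcases hw2 with hw2 | hw2
    · rcases h.adj_cases hu hw1 hw2 with h3 | ⟨h3, h4, h5, h6, h7⟩
      · exact Or.inr ⟨κ, hw2, h3⟩
      · exact absurd (hc h3 h4 h5 h7) h6
    · exact Or.inl hw2
  have h2 : ((Q i).card : ℝ) ≤ N := by
    rw [← hN]
    exact_mod_cast Finset.card_le_univ _
  nlinarith

/-- PROOF. `hT.dens`, `h.few`, `h.mis.card`. -/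
theorem SOut.prs_inner (p : Pm) (n m : ℕ) (χ : W → W → Col p.s p.t) (N δ e : ℝ) (hN : (Fintype.card W : ℝ) = N) (hT : Tpl p n m a χ N δ e U T M)
    (h : SOut o T lab M X E a U cl σ Q) (i : ι) :
    prs (fun u w => χ u w = .long (!cl i)) (Q i) (Q i) ≤ 2 * E * N + e * N ^ 2 := by
  classical
  refine (hT.dens (!cl i) (Q i) (h.sub i) (Q i) (h.sub i)).trans ?_
  have hE1 := h.one
  have h1 : prs (fun u w => (T (!cl i)).Adj u w ∨ M u w) (Q i) (Q i) ≤ (Q i).card * (2 * E) := by
    refine prs_le_of_card _ _ _ _ (fun u hu => ?_)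
    have h3 : (((Q i).filter (fun w => (T (!cl i)).Adj u w)).card : ℝ) ≤ E := h.few i u hu
    have h4 : (((Q i).filter (fun w => M u w)).card : ℝ) ≤ E := by
      refine le_trans ?_ (h.mis.card u)
      exact_mod_cast Finset.card_le_card (Finset.filter_subset_filter _ (Finset.subset_univ _))
    have h5 : (((Q i).filter (fun w => (T (!cl i)).Adj u w ∨ M u w)).card : ℝ) ≤
        (((Q i).filter (fun w => (T (!cl i)).Adj u w)).card : ℝ) + (((Q i).filter (fun w => M u w)).card : ℝ) := by
      norm_cast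
      refine le_trans (Finset.card_le_card ?_) (Finset.card_union_le _ _)
      intro w hw
      rw [Finset.mem_filter] at hw
      rw [Finset.mem_union, Finset.mem_filter, Finset.mem_filter]
      rcases hw.2 with h1 | h1
      · exact Or.inl ⟨hw.1, h1⟩
      · exact Or.inr ⟨hw.1, h1⟩
    refine le_trans ?_ (h5.trans (by linarith : _ ≤ 2 * E))
    refine le_of_eq ?_
    congr!
  have h2 : ((Q i).card : ℝ) ≤ N := by
    rw [← hN]
    exact_mod_cast Finset.card_le_univ _
  nlinarith

end Pool.Agent.Lib.MP_779bc2_co
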