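import Pool.Agent.Lib.MP_779bc2_co.F10Sel
import Pool.Agent.Lib.MP_779bc2_co.F10Card
import Pool.Agent.Lib.MP_779bc2_co.F11Prs

/-! Row F12: the frame. -/

set_option autoImplicit false

namespace Pool.Agent.Lib.MP_779bc2_co

open Finset

variable {W : Type} [Fintype W] [DecidableEq W]

variable {o : Bool → Bool} {T : Bool → SimpleGraph W} {lab : Bool → W → Option Bool} {M : W → W → Prop} {X : Bool → ℝ} {E : ℝ}
  {a : ℕ} {U : Finset W} {ι : Type} [Fintype ι] {cl σ : ι → Bool} {Q : ι → Finset W}

open Classical in
/-- as many sided cliques of side `true` as of side `false` -/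
theorem f12_bal (h : SOut o T lab M X E a U cl σ Q) :
    (univ.filter (fun i => o (!cl i) = true ∧ σ i = true)).card
      = (univ.filter (fun i => o (!cl i) = true ∧ σ i = false)).card := by
  have key : ∀ b : Bool, (univ.filter (fun i => o (!cl i) = true ∧ σ i = b)).card =
      (if o true = true then (univ.filter (fun i => cl i = false ∧ σ i = b)).card else 0) +
      (if o false = true then (univ.filter (fun i => cl i = true ∧ σ i = b)).card else 0) := by
    intro b
    rw [← Finset.card_filter_add_card_filter_not (s := univ.filter (fun i => o (!cl i) = true ∧ σ i = b)) (fun i : ι => cl i = false),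
      Finset.filter_filter, Finset.filter_filter]
    congr 1
    · split_ifs with ho
      · congr 1
        ext i
        simp only [Finset.mem_filter, Finset.mem_univ, true_and]
        constructor
        · rintro ⟨⟨_, h4⟩, h5⟩; exact ⟨h5, h4⟩
        · rintro ⟨h4, h5⟩; exact ⟨⟨by rw [h4]; exact ho, h5⟩, h4⟩
      · rw [Finset.card_eq_zero, Finset.filter_eq_empty_iff]
        rintro i - ⟨⟨h3, _⟩, h5⟩
        rw [h5] at h3
        exact ho h3
    · split_ifs with ho
      · congr 1
        ext i
        simp only [Finset.mem_filter, Finset.mem_univ, true_and]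
        constructor
        · rintro ⟨⟨_, h4⟩, h5⟩; exact ⟨by simpa using h5, h4⟩
        · rintro ⟨h4, h5⟩; exact ⟨⟨by rw [h4]; exact ho, h5⟩, by simp [h4]⟩
      · rw [Finset.card_eq_zero, Finset.filter_eq_empty_iff]
        rintro i - ⟨⟨h3, _⟩, h5⟩
        have h6 : cl i = true := by simpa using h5
        rw [h6] at h3
        exact ho h3
  rw [key true, key false]
  by_cases h3 : o true = true
  · by_cases h4 : o false = true
    · simp only [h3, h4, if_true]
      rw [h.bal false (by simpa using h3), h.bal true (by simpa using h4)]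
    · simp only [h3, h4, if_true]
      rw [h.bal false (by simpa using h3)]
      simp
  · by_cases h4 : o false = true
    · simp only [h3, h4, if_true]
      rw [h.bal true (by simpa using h4)]
      simp
    · simp [h3, h4]

open Classical in
theorem f12_count (h : SOut o T lab M X E a U cl σ Q) :
    2 * (univ.filter (fun i => o (!cl i) = false)).card
      + (univ.filter (fun i => o (!cl i) = true)).card = 2 * a := by
  have h1 := f12_bal h
  have h2 : (univ.filter (fun i => o (!cl i) = true)).card
      = (univ.filter (fun i => o (!cl i) = true ∧ σ i = true)).card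
        + (univ.filter (fun i => o (!cl i) = true ∧ σ i = false)).card := by
    rw [← Finset.card_filter_add_card_filter_not (s := univ.filter (fun i => o (!cl i) = true)) (fun i : ι => σ i = true),
      Finset.filter_filter, Finset.filter_filter]
    congr 2
    ext i
    simp
  have h3 := h.count
  have h4 : (univ.filter (fun i => o (!cl i) = false)).card
    + (univ.filter (fun i => o (!cl i) = true ∧ σ i = true)).card = a := by
    convert h3
  omega

/-- PROOF. `disj`, `size`, `ratio`: from `h` (`len ≤ X`, `X = len + e * len ≤ len + e N`). `sel v`: `g` from `exists_side`, `J = univ.filter (fun i => o (!cl i) = true → σ i = g i)`, `side_card`;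
for `i ≠ j` in `J` and every `κ` `prs_cross` applies (`Same i j` and sided: `σ i = g i = g j = σ j`), and `∃ κ, χ u w = long κ` is the disjunction of two cases: `≤ 4 E N + 2 e N² ≤ e' N²`.
`own`: `prs_cross` for `κ = cl j` (`κ = !cl i` and `cl i = cl j` is impossible), and for `κ = !cl j` if `len (!cl j)` is even (then `o κ = false`). `inner`: `prs_inner`.
`count`: the plain cliques are those with `o (!cl i) = false`; `h.count`, `h.bal` (see the proof of `SOut.card_le`): `2 #plain + #sided = 2 a`. -/
theorem frame_of_sout (p : Pm) (n m : ℕ) (χ : W → W → Col p.s p.t) (N δ e e' : ℝ) (hN : (Fintype.card W : ℝ) = N) (hN1 : 1 ≤ N) (hT : Tpl p n m a χ N δ e U T M)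
    (h : SOut o T lab M X E a U cl σ Q) (ho : ∀ κ, o κ = decide (Odd (len n m κ))) (hX : ∀ κ, X κ = (1 + e) * len n m κ) (he : 0 ≤ e) (he' : 10 * e ≤ e')
    (hE : 10 * E ≤ e' * N) (hlen : ∀ κ, (len n m κ : ℝ) ≤ N) : Frame p n m a χ N δ e' cl Q := by
  have hE1 : 1 ≤ E := h.one
  have hN0 : 0 < N := by linarith
  have heN' : 10 ≤ e' * N := by linarith
  have heN : e * N ≤ e' * N / 10 := by nlinarith
  have hEN : E * N ≤ e' * N ^ 2 / 10 := by nlinarith
  have heNN : e * N ^ 2 ≤ e' * N ^ 2 / 10 := by nlinarith [sq_nonneg N]
  have hNN : 0 ≤ e' * N ^ 2 := by nlinarith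
  have hlen0 : ∀ κ, (0 : ℝ) ≤ (len n m κ : ℝ) := fun κ => Nat.cast_nonneg _
  have hodd : ∀ κ, Odd (len n m κ) → o κ = true := by
    intro κ hκ
    rw [ho κ]
    exact decide_eq_true hκ
  have heven : ∀ κ, Even (len n m κ) → o κ = false := by
    intro κ hκ
    rw [ho κ]
    exact decide_eq_false (by rw [Nat.not_odd_iff_even]; exact hκ)
  refine ⟨h.disj, ?_, ?_, ?_, ?_, ?_, ?_⟩
  · intro i
    have h1 := h.size i
    rw [hX] at h1
    have h2 : 0 ≤ e * (len n m (cl i) : ℝ) := mul_nonneg he (hlen0 _)
    nlinarith
  · intro v
    obtain ⟨g, hg, hgc⟩ := h.exists_side p n m χ N δ e hT ho hX v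
    refine ⟨univ.filter (fun i => o (!cl i) = true → σ i = g i), h.side_card g hg, ?_, ?_⟩
    · intro i hi hodd'
      rw [Finset.mem_filter] at hi
      exact hgc i (hodd _ hodd') (hi.2 (hodd _ hodd'))
    · intro i hi j hj hij
      rw [Finset.mem_filter] at hi hj
      have hcond : ∀ κ, κ = (!cl i) → o κ = true → cl i = cl j → Same T cl Q i j → σ i = σ j := by
        intro κ hκ hoκ hcl hsame
        have h1 : o (!cl i) = true := by rw [← hκ]; exact hoκ
        have h2 : o (!cl j) = true := by rw [← hcl]; exact h1
        rw [hi.2 h1, hj.2 h2, hg i j h1 hsame]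
      have h1 := SOut.prs_cross p n m χ N δ e hN hT h i j hij true (hcond true)
      have h2 := SOut.prs_cross p n m χ N δ e hN hT h i j hij false (hcond false)
      have h3 : prs (fun u w => ∃ κ, χ u w = .long κ) (Q i) (Q j) ≤
          prs (fun u w => χ u w = .long true ∨ χ u w = .long false) (Q i) (Q j) := by
        apply f11_prs_mono
        rintro u - w - ⟨κ, hκ⟩
        cases κ
        · exact Or.inr hκ
        · exact Or.inl hκ
      have h4 := prs_or (fun u w => χ u w = .long true) (fun u w => χ u w = .long false) (Q i) (Q j)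
      nlinarith
  · intro i j hij
    have h1 := SOut.prs_cross p n m χ N δ e hN hT h i j hij (cl j) (by
      intro h1 _ h2 _
      rw [h2] at h1
      cases hc : cl j <;> rw [hc] at h1 <;> simp at h1)
    by_cases hev : Even (len n m (!cl j))
    · have h2 := SOut.prs_cross p n m χ N δ e hN hT h i j hij (!cl j) (by
        intro _ h3 _ _
        rw [heven _ hev] at h3
        exact absurd h3 (by simp))
      have h3 : prs (fun u w => χ u w = .long (cl j) ∨ (Even (len n m (!cl j)) ∧ χ u w = .long (!cl j)))
          (Q i) (Q j) ≤ prs (fun u w => χ u w = .long (cl j) ∨ χ u w = .long (!cl j)) (Q i) (Q j) := by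
        apply f11_prs_mono
        rintro u - w - (h5 | ⟨_, h5⟩)
        · exact Or.inl h5
        · exact Or.inr h5
      have h4 := prs_or (fun u w => χ u w = .long (cl j)) (fun u w => χ u w = .long (!cl j)) (Q i) (Q j)
      nlinarith
    · have h3 : prs (fun u w => χ u w = .long (cl j) ∨ (Even (len n m (!cl j)) ∧ χ u w = .long (!cl j)))
          (Q i) (Q j) ≤ prs (fun u w => χ u w = .long (cl j)) (Q i) (Q j) := by
        apply f11_prs_mono
        rintro u - w - (h5 | ⟨h6, _⟩)
        · exact h5
        · exact absurd h6 hev
      nlinarith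
  · intro i
    have h1 := SOut.prs_inner p n m χ N δ e hN hT h i
    nlinarith
  · intro i
    have h1 := h.ratio i
    rw [hX, hX] at h1
    have h2 : 0 ≤ e * (len n m (!cl i) : ℝ) := mul_nonneg he (hlen0 _)
    have h3 : e * (len n m (cl i) : ℝ) ≤ e * N := mul_le_mul_of_nonneg_left (hlen _) he
    nlinarith
  · have hc := f12_count h
    have h1 : (univ.filter (fun i => Even (len n m (!cl i)))).card
        = (univ.filter (fun i => o (!cl i) = false)).card := by
      congr 1
      ext i
      simp only [Finset.mem_filter, Finset.mem_univ, true_and]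
      constructor
      · exact heven _
      · intro h3
        by_contra h4
        rw [Nat.not_even_iff_odd] at h4
        rw [hodd _ h4] at h3
        exact absurd h3 (by simp)
    have h2 : (univ.filter (fun i => Odd (len n m (!cl i)))).card
        = (univ.filter (fun i => o (!cl i) = true)).card := by
      congr 1
      ext i
      simp only [Finset.mem_filter, Finset.mem_univ, true_and]
      constructor
      · exact hodd _
      · intro h3
        by_contra h4
        rw [Nat.not_odd_iff_even] at h4
        rw [heven _ h4] at h3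
        exact absurd h3 (by simp)
    rw [h1, h2]
    exact hc.le

end Pool.Agent.Lib.MP_779bc2_co
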