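import Pool.Agent.Lib.MP_779bc2_co.FDefs

/-! Row F1: labels of a template graph exist; parity of walks. -/

set_option autoImplicit false

namespace Pool.Agent.Lib.MP_779bc2_co

open Finset

variable {W : Type} [Fintype W] [DecidableEq W]

/-- a representative of the component -/
noncomputable def f1_rep (G : SimpleGraph W) (v : W) : W := (G.connectedComponentMk v).out

omit [Fintype W] [DecidableEq W] in
theorem f1_rep_reach (G : SimpleGraph W) (v : W) : G.Reachable (f1_rep G v) v := by
  have h : G.connectedComponentMk (f1_rep G v) = G.connectedComponentMk v := Quot.out_eq _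
  exact SimpleGraph.ConnectedComponent.exact h

omit [Fintype W] [DecidableEq W] in
theorem f1_rep_eq (G : SimpleGraph W) {u w : W} (h : G.Reachable u w) : f1_rep G u = f1_rep G w := by
  have h1 : G.connectedComponentMk u = G.connectedComponentMk w := SimpleGraph.ConnectedComponent.sound h
  unfold f1_rep
  rw [h1]

/-- PROOF. `lab v = none` if `o = false` or if there is a closed walk of odd length at `v`; otherwise let `r v` be a representative of the component of `v`
(`(G.connectedComponentMk v).out`, it depends on the component only, `G.Reachable (r v) v`) and `lab v = some (decide (∃ p : G.Walk (r v) v, Even p.length))`.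
`adjNone`: `u w` adjacent, `p` a closed odd walk at `u`: `w u`, `p`, `u w` is a closed odd walk at `w` (length `p.length + 2`).
`adjSome`: no odd closed walk at `u`, hence none at `w` (symmetry) and `r u = r w`. An even walk `r u → u` extended by `u w` gives an odd walk `r w → w`; an even walk
`r w → w` would then give a closed odd walk at `w` (`q.reverse` and `q'`). So exactly one of the two is `true`
(if there is no even walk `r u → u`, any walk `r u → u` is odd, its extension is an even walk to `w`). -/
theorem exists_lab (o : Bool) (G : SimpleGraph W) : ∃ lab : W → Option Bool, LabT o G lab := by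
  classical
  have hrv : ∀ v, G.Reachable (f1_rep G v) v := f1_rep_reach G
  have hOC : ∀ u w, G.Adj u w → (∃ p : G.Walk u u, Odd p.length) → ∃ p : G.Walk w w, Odd p.length := by
    rintro u w h ⟨p, hp⟩
    refine ⟨SimpleGraph.Walk.cons h.symm (p.concat h), ?_⟩
    rw [SimpleGraph.Walk.length_cons, SimpleGraph.Walk.length_concat]
    have h2 : p.length + 1 + 1 = p.length + 2 := rfl
    rw [h2]
    exact hp.add_even (by decide)
  refine ⟨fun v => if o = false ∨ (∃ p : G.Walk v v, Odd p.length) then none
    else some (decide (∃ p : G.Walk (f1_rep G v) v, Even p.length)), ?_, ?_, ?_, ?_⟩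
  · intro ho v
    simp [ho]
  · intro u w h hu
    rw [ite_eq_left_iff] at hu
    have hu' : o = false ∨ (∃ p : G.Walk u u, Odd p.length) := by
      by_contra hc
      exact absurd (hu hc) (by simp)
    rcases hu' with h1 | h1
    · simp [h1]
    · rw [if_pos (Or.inr (hOC u w h h1))]
  · intro u w s h hu
    by_cases hc : o = false ∨ (∃ p : G.Walk u u, Odd p.length)
    · rw [if_pos hc] at hu
      exact absurd hu (by simp)
    · rw [if_neg hc] at hu
      have hcw : ¬ (o = false ∨ (∃ p : G.Walk w w, Odd p.length)) := by
        rintro (h1 | h1)
        · exact hc (Or.inl h1)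
        · exact hc (Or.inr (hOC w u h.symm h1))
      rw [if_neg hcw]
      have hr : f1_rep G u = f1_rep G w := f1_rep_eq G h.reachable
      rw [← hr]
      simp only [Option.some.injEq] at hu ⊢
      rw [← hu]
      have key : (∃ p : G.Walk (f1_rep G u) w, Even p.length) ↔ ¬ (∃ p : G.Walk (f1_rep G u) u, Even p.length) := by
        constructor
        · rintro ⟨q, hq⟩ ⟨p, hp⟩
          refine hcw (Or.inr ⟨q.reverse.append (p.concat h), ?_⟩)
          rw [SimpleGraph.Walk.length_append, SimpleGraph.Walk.length_reverse, SimpleGraph.Walk.length_concat]
          exact hq.add_odd hp.add_one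
        · intro hn
          obtain ⟨p⟩ := hrv u
          refine ⟨p.concat h, ?_⟩
          rw [SimpleGraph.Walk.length_concat]
          have h1 : ¬ Even p.length := fun he => hn ⟨p, he⟩
          rw [Nat.not_even_iff_odd] at h1
          exact h1.add_one
      by_cases he : (∃ p : G.Walk (f1_rep G u) u, Even p.length)
      · have h1 : ¬ (∃ p : G.Walk (f1_rep G u) w, Even p.length) := fun h2 => (key.1 h2) he
        rw [decide_eq_false h1, decide_eq_true he]
        rfl
      · have h1 : (∃ p : G.Walk (f1_rep G u) w, Even p.length) := key.2 he
        rw [decide_eq_true h1, decide_eq_false he]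
        rfl
  · intro ho v hv
    rw [ite_eq_left_iff] at hv
    by_contra hc
    have : ¬ (o = false ∨ (∃ p : G.Walk v v, Odd p.length)) := by
      rintro (h1 | h1)
      · rw [ho] at h1; exact absurd h1 (by simp)
      · exact hc h1
    exact absurd (hv this) (by simp)

/-- PROOF. Induction on the walk `p : G.Walk u w` (`adjSome` at every step): `lab w = some t` with `t = s` if `p.length` is even and `t = !s` if it is odd. -/
theorem LabT.parity {o : Bool} {G : SimpleGraph W} {lab : W → Option Bool} (h : LabT o G lab) {u w : W} (p : G.Walk u w) {s : Bool} (hu : lab u = some s) :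
    lab w = some (if Even p.length then s else !s) := by
  induction p generalizing s with
  | nil => simpa using hu
  | cons hadj q ih =>
    have h1 := ih (h.adjSome _ _ _ hadj hu)
    rw [h1, SimpleGraph.Walk.length_cons]
    by_cases he : Even q.length
    · have h2 : ¬ Even (q.length + 1) := by
        rw [Nat.not_even_iff_odd]; exact he.add_one
      rw [if_pos he, if_neg h2]
    · have h2 : Even (q.length + 1) := by
        rw [Nat.not_even_iff_odd] at he; exact he.add_one
      rw [if_neg he, if_pos h2, Bool.not_not]

theorem LabT.odd_walk {o : Bool} {G : SimpleGraph W} {lab : W → Option Bool} (h : LabT o G lab) {u w : W} (hr : G.Reachable u w) {s : Bool}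
    (hu : lab u = some s) (hw : lab w = some (!s)) : ∃ p : G.Walk u w, Odd p.length := by
  obtain ⟨p⟩ := hr
  refine ⟨p, ?_⟩
  rw [← Nat.not_even_iff_odd]
  intro he
  have := h.parity p hu
  rw [if_pos he, hw] at this
  cases s <;> simp at this

end Pool.Agent.Lib.MP_779bc2_co
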