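import Pool.Agent.Lib.MP_779bc2_co.FDefs

/-! Row F2: the hypotheses of `core` from the template. -/

set_option autoImplicit false

namespace Pool.Agent.Lib.MP_779bc2_co

open Finset

variable {W : Type} [Fintype W] [DecidableEq W]

/-- PROOF. An edge of `noneG G lab` is an edge of `G`, so reachable in `noneG` implies reachable in `G`. Given `D`, `φ`: if `len n m κ` is even use `hT.evenZ`. If it is
odd and `D` is nonempty take `u ∈ D`: `u` is adjacent in `noneG` to `φ u`, so `lab u = none`, and `hl.oddWalk` gives the closed odd walk needed for `hT.oddZ`.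
`D = ∅`: `0 ≤ (1 + e) * len`. -/
theorem zle_noneG (p : Pm) (n m a : ℕ) (χ : W → W → Col p.s p.t) (N δ e : ℝ) (he : 0 ≤ e) (V0 : Finset W) (T : Bool → SimpleGraph W) (M : W → W → Prop)
    (hT : Tpl p n m a χ N δ e V0 T M) (κ : Bool) (lab : W → Option Bool) (hl : LabT (decide (Odd (len n m κ))) (T κ) lab) :
    ZLe (noneG (T κ) lab) ((1 + e) * len n m κ) := by
  have hle : noneG (T κ) lab ≤ T κ := fun u w h => h.2.2
  intro D φ hinj hadj hreach
  have hadj' : ∀ u ∈ D, (T κ).Adj u (φ u) := fun u hu => (hadj u hu).2.2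
  have hreach' : ∀ u ∈ D, ∀ w ∈ D, (T κ).Reachable u w := fun u hu w hw => (hreach u hu w hw).mono hle
  rcases Nat.even_or_odd (len n m κ) with he' | ho
  · exact hT.evenZ κ he' D φ hinj hadj' hreach'
  · rcases D.eq_empty_or_nonempty with h0 | ⟨u, hu⟩
    · subst h0
      simp only [Finset.card_empty, Nat.cast_zero]
      positivity
    · refine hT.oddZ κ D φ hinj hadj' hreach' ⟨u, hu, ?_⟩
      exact hl.oddWalk (by simpa using ho) u (hadj u hu).1

/-- immediate from `LabT` -/
theorem lab_noneG (o : Bool → Bool) (T : Bool → SimpleGraph W) (lab : Bool → W → Option Bool) (hl : ∀ κ, LabT (o κ) (T κ) (lab κ)) :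
    Lab (o false) (o true) (noneG (T false) (lab false)) (noneG (T true) (lab true)) (lab false) (lab true) where
  rnone := fun h v => (hl false).even h v
  bnone := fun h v => (hl true).even h v
  radj := fun _ _ h => ⟨h.1, h.2.1⟩
  badj := fun _ _ h => ⟨h.1, h.2.1⟩

/-- PROOF. `T' ⊆ VV .. U s t`, `a < T'.card`: `hind` gives `u ≠ w` in `T'`, `M`-related or adjacent in `T κ` for some `κ`. In the second case: if `lab κ u = none` then
`lab κ w = none` (`adjNone`) and they are adjacent in `noneG`. Otherwise `lab κ u = some r`, `lab κ w = some (!r)` (`adjSome`), but both labels are `some s` (or `some t`)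
by the definition of `VV`, a contradiction. -/
theorem indLe_VV (o : Bool → Bool) (T : Bool → SimpleGraph W) (lab : Bool → W → Option Bool) (hl : ∀ κ, LabT (o κ) (T κ) (lab κ)) (M : W → W → Prop) (U : Finset W)
    (a : ℕ) (hind : IndLe (T false) (T true) M U a) (s t : Bool) :
    IndLe (noneG (T false) (lab false)) (noneG (T true) (lab true)) M (VV (lab false) (lab true) U s t) a := by
  intro T' hT' hcard
  have hsub : T' ⊆ U := hT'.trans (Finset.filter_subset _ _)
  obtain ⟨u, hu, w, hw, hne, h⟩ := hind T' hsub hcard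
  have hu' := (Finset.mem_filter.1 (hT' hu)).2
  have hw' := (Finset.mem_filter.1 (hT' hw)).2
  refine ⟨u, hu, w, hw, hne, ?_⟩
  have key : ∀ κ r, (lab κ u = none ∨ lab κ u = some r) → (lab κ w = none ∨ lab κ w = some r) → (T κ).Adj u w →
      (noneG (T κ) (lab κ)).Adj u w := by
    intro κ r h1 h2 hadj
    rcases h1 with h1 | h1
    · exact ⟨h1, (hl κ).adjNone _ _ hadj h1, hadj⟩
    · exfalso
      have h3 := (hl κ).adjSome _ _ _ hadj h1
      rcases h2 with h2 | h2
      · rw [h2] at h3; exact absurd h3 (by simp)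
      · rw [h2] at h3
        simp only [Option.some.injEq] at h3
        cases r <;> simp at h3
  rcases h with h | h | h
  · exact Or.inl h
  · exact Or.inr (Or.inl (key false s hu'.1 hw'.1 h))
  · exact Or.inr (Or.inr (key true t hu'.2 hw'.2 h))

end Pool.Agent.Lib.MP_779bc2_co
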