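import Pool.Agent.Lib.MP_779bc2_co.CDefs

/-! Row F3: the numerical facts. -/

set_option autoImplicit false

namespace Pool.Agent.Lib.MP_779bc2_co

/-- `ff` is homogeneous -/
theorem ff_smul (fR fB : Bool) (t x y : ℝ) (ht : 0 ≤ t) : ff fR fB (t * x) (t * y) = t * ff fR fB x y := by
  unfold ff th
  cases fR <;> cases fB
  · simp only [if_true]
    rw [mul_max_of_nonneg _ _ ht]
    congr 1 <;> ring
  · simp only [if_true, Bool.true_eq_false, if_false]
    rw [mul_max_of_nonneg _ _ ht]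
    congr 1 <;> ring
  · simp only [if_true, Bool.true_eq_false, if_false]
    rw [mul_max_of_nonneg _ _ ht]
    congr 1 <;> ring
  · simp only [Bool.true_eq_false, if_false]
    rw [← mul_max_of_nonneg _ _ ht]
    ring

theorem f3_facts (n m l : ℕ) : 2 * n + m ≤ 2 * (Fval n m l + 2) ∧ 2 * m + n ≤ 2 * (Fval n m l + 2) ∧
    (Odd m → 2 * n ≤ Fval n m l + 2) ∧ (Odd n → 2 * m ≤ Fval n m l + 2) := by
  have h1 : n + (m + 1) / 2 + l - 2 ≤ Fval n m l := by
    unfold Fval; exact (le_max_left _ _).trans (le_max_left _ _)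
  have h2 : m + (n + 1) / 2 + l - 2 ≤ Fval n m l := by
    unfold Fval; exact (le_max_right _ _).trans (le_max_left _ _)
  have h3 : (if Odd m then 2 * (n + l - 1) else 0) ≤ Fval n m l := by
    unfold Fval; exact (le_max_left _ _).trans (le_max_right _ _)
  have h4 : (if Odd n then 2 * (m + l - 1) else 0) ≤ Fval n m l := by
    unfold Fval; exact (le_max_right _ _).trans (le_max_right _ _)
  refine ⟨by omega, by omega, fun h => ?_, fun h => ?_⟩
  · rw [if_pos h] at h3; omega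
  · rw [if_pos h] at h4; omega

/-- PROOF. Four cases for the parities of `n`, `m`; `th n m = max (n + m/2) (m + n/2)`, `(m + 1) / 2 ≥ m / 2` in `ℝ`, and the natural number subtractions lose at most `2`
(`n + (m + 1) / 2 + l ≥ 2`, `n + l ≥ 1`). -/
theorem ff_le_Fval (n m l : ℕ) : ff (decide (Odd n)) (decide (Odd m)) (n : ℝ) (m : ℝ) ≤ (Fval n m l : ℝ) + 2 := by
  obtain ⟨h1, h2, h3, h4⟩ := f3_facts n m l
  have g1 : 2 * (n : ℝ) + m ≤ 2 * ((Fval n m l : ℝ) + 2) := by exact_mod_cast h1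
  have g2 : 2 * (m : ℝ) + n ≤ 2 * ((Fval n m l : ℝ) + 2) := by exact_mod_cast h2
  have g3 : Odd m → 2 * (n : ℝ) ≤ (Fval n m l : ℝ) + 2 := fun h => by exact_mod_cast h3 h
  have g4 : Odd n → 2 * (m : ℝ) ≤ (Fval n m l : ℝ) + 2 := fun h => by exact_mod_cast h4 h
  unfold ff th
  by_cases hn : Odd n <;> by_cases hm : Odd m
  · simp only [hn, hm, decide_true, Bool.true_eq_false, if_false]
    rw [mul_max_of_nonneg _ _ (by norm_num)]
    exact max_le (g3 hm) (g4 hn)
  · simp only [hn, hm, decide_true, decide_false, Bool.true_eq_false, if_false, if_true]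
    exact max_le (g4 hn) (by linarith)
  · simp only [hn, hm, decide_true, decide_false, Bool.true_eq_false, if_false, if_true]
    exact max_le (g3 hm) (by linarith)
  · simp only [hn, hm, decide_false, if_true]
    exact max_le (by linarith) (by linarith)

/-- PROOF. `a ff((1+e)n, (1+e)m) = (1+e) a ff(n,m) ≤ (1+e)(a F + 2a) ≤ (1+e)(N + 2a)`, and `(1+e)(N+2a) ≤ (1-e) N + ec N` because `2 e N ≤ ec N / 2` and
`(1+e) 2 a ≤ 4 a ≤ ec N / 2`. -/
theorem card_num (a n m l : ℕ) (e ec N : ℝ) (he : 0 ≤ e) (he1 : e ≤ 1) (hec : 4 * e ≤ ec) (hN : N = ((a * Fval n m l + 1 : ℕ) : ℝ)) (hN2 : 8 * a ≤ ec * N) :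
    a * ff (decide (Odd n)) (decide (Odd m)) ((1 + e) * n) ((1 + e) * m) - ec * N ≤ (1 - e) * N := by
  rw [ff_smul _ _ _ _ _ (by linarith)]
  have h1 := ff_le_Fval n m l
  set f := ff (decide (Odd n)) (decide (Odd m)) (n : ℝ) (m : ℝ) with hf
  have ha : (0 : ℝ) ≤ a := Nat.cast_nonneg a
  have hN' : N = (a : ℝ) * Fval n m l + 1 := by rw [hN]; push_cast; ring
  have h2 : (a : ℝ) * f ≤ a * ((Fval n m l : ℝ) + 2) := mul_le_mul_of_nonneg_left h1 ha
  have h3 : (a : ℝ) * f ≤ N + 2 * a := by rw [hN']; linarith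
  have h4 : (1 + e) * ((a : ℝ) * f) ≤ (1 + e) * (N + 2 * a) := mul_le_mul_of_nonneg_left h3 (by linarith)
  have hN0 : 0 ≤ N := by rw [hN']; positivity
  have h5 : 4 * e * N ≤ ec * N := mul_le_mul_of_nonneg_right hec hN0
  have h6 : (1 + e) * (2 * a) ≤ 4 * a := by nlinarith
  have h7 : (a : ℝ) * ((1 + e) * f) = (1 + e) * (a * f) := by ring
  rw [h7]
  have h8 : (1 + e) * (N + 2 * a) = N + e * N + (1 + e) * (2 * a) := by ring
  have h9 : (1 - e) * N = N - e * N := by ring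
  rw [h9]
  linarith

/-- PROOF. `F ≥ n + (m + 1)/2 + l - 2 ≥ n` as `m ≥ 3`, and `F ≥ m + (n + 1)/2 + l - 2 ≥ m`; `a ≥ 1`. -/
theorem len_le_card (a n m l : ℕ) (ha : 1 ≤ a) (hn : 3 ≤ n) (hm : 3 ≤ m) (κ : Bool) : len n m κ ≤ a * Fval n m l + 1 := by
  have h1 : n + (m + 1) / 2 + l - 2 ≤ Fval n m l := by
    unfold Fval; exact (le_max_left _ _).trans (le_max_left _ _)
  have h2 : m + (n + 1) / 2 + l - 2 ≤ Fval n m l := by
    unfold Fval; exact (le_max_right _ _).trans (le_max_left _ _)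
  have h3 : len n m κ ≤ Fval n m l := by
    cases κ <;> simp only [len, if_true, Bool.false_eq_true, if_false] <;> omega
  have h4 : Fval n m l ≤ a * Fval n m l := Nat.le_mul_of_pos_left _ ha
  omega

end Pool.Agent.Lib.MP_779bc2_co
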