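import Pool.Agent.Lib.MP_779bc2_co.FDefs

/-! Row F4: the symmetric form of `Out`. -/

set_option autoImplicit false

namespace Pool.Agent.Lib.MP_779bc2_co

open Finset

variable {W : Type} [Fintype W] [DecidableEq W]

theorem f4_sided (o : Bool → Bool) (κ : Bool) : sided (o false) (o true) κ = o (!κ) := by
  cases κ <;> simp [sided]

/-- neighbours of `q` in a clique: the labels of the vertices of the clique are all `none` or all the same `some s` -/

theorem f4_few {o : Bool} {G : SimpleGraph W} {lab : W → Option Bool} (hlab : LabT o G lab) {Q : Finset W} {E : ℝ} {s : Bool} (hE : 0 ≤ E)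
    (hs : o = true → ∀ q ∈ Q, lab q = some s) {q : W} (hq : q ∈ Q) (hf : ((nb (noneG G lab) q Q).card : ℝ) ≤ E) : ((nb G q Q).card : ℝ) ≤ E := by
  classical
  by_cases ho : o = true
  · have h0 : nb G q Q = ∅ := by
      rw [Finset.eq_empty_iff_forall_notMem]
      intro w hw
      simp only [nb, Finset.mem_filter] at hw
      have h1 := hlab.adjSome q w s hw.2 (hs ho q hq)
      rw [hs ho w hw.1] at h1
      cases s <;> simp at h1
    rw [h0]
    simpa using hE
  · have ho' : o = false := by simpa using ho
    refine le_trans ?_ hf
    have hsub : nb G q Q ⊆ nb (noneG G lab) q Q := by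
      intro w hw
      simp only [nb, Finset.mem_filter] at hw ⊢
      exact ⟨hw.1, hlab.even ho' q, hlab.even ho' w, hw.2⟩
    exact_mod_cast Finset.card_le_card hsub

/-- PROOF. Distinguish `cl i = false` and `cl i = true` everywhere; `sided (o false) (o true) κ = o (!κ)`.
`few`: `q, w ∈ Q i` adjacent in `T (!cl i)`: if `o (!cl i) = true` both have the label `some (σ i)` (`labR`/`labB`), impossible by `adjSome`, so the set is empty; if
`o (!cl i) = false` all labels are `none` (`LabT.even`) and the set is contained in the set of the neighbours in `noneG`, use `fewR`/`fewB`.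
`cross`: the filter of `Bad T lab M q` is contained in the union of the filter of `M q` (at most `E` elements, `hM`) and the filter of
`(noneG (T false) ..).Adj q w ∨ (noneG (T true) ..).Adj q w` (at most `E`, `h.cross`; note `adjNone`).
`big`: if `X (cl i)` is the maximum of `X false`, `X true` it is clear; otherwise `200 (a+1) E ≤ X (!cl i) ≤ 3/2 X (cl i) + E`, so
`X (cl i) ≥ 2/3 (200 (a+1) E - E) ≥ 100 (a+1) E`. -/
theorem sout_of_out (o : Bool → Bool) (T : Bool → SimpleGraph W) (lab : Bool → W → Option Bool) (hlab : ∀ κ, LabT (o κ) (T κ) (lab κ)) (M : W → W → Prop)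
    (E : ℝ) (h1 : 1 ≤ E) (hM : MisLe M E) (X : Bool → ℝ) (a : ℕ) (U : Finset W) (hind : IndLe (T false) (T true) M U a)
    {ι : Type} [Fintype ι] (cl σ : ι → Bool) (Q : ι → Finset W)
    (h : Out (o false) (o true) (noneG (T false) (lab false)) (noneG (T true) (lab true)) (lab false) (lab true) (X false) (X true) E a U cl σ Q)
    (hbig : 200 * (a + 1) * E ≤ max (X false) (X true)) : SOut o T lab M X E a U cl σ Q := by
  classical
  have hE0 : (0 : ℝ) ≤ E := le_trans zero_le_one h1
  have ha0 : (0 : ℝ) ≤ a := Nat.cast_nonneg a
  have haE : E ≤ (a + 1) * E := by nlinarith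
  have hratio : ∀ i, X (!cl i) ≤ 3 / 2 * X (cl i) + E := by
    intro i
    cases hc : cl i
    · simpa using h.ratioR i hc
    · simpa using h.ratioB i hc
  refine
    { one := h1
      labT := hlab
      mis := hM
      ind := hind
      sub := h.sub
      disj := h.disj
      own := ?_
      other := ?_
      size := ?_
      big := ?_
      few := ?_
      ratio := hratio
      cross := ?_
      count := ?_
      bal := ?_ }
  · intro i q hq
    cases hc : cl i
    · exact (h.labR i hc q hq).1
    · exact (h.labB i hc q hq).1
  · intro i ho q hq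
    cases hc : cl i
    · rw [hc] at ho
      exact (h.labR i hc q hq).2 ho
    · rw [hc] at ho
      exact (h.labB i hc q hq).2 ho
  · intro i
    cases hc : cl i
    · exact h.sizeR i hc
    · exact h.sizeB i hc
  · intro i
    have hr := hratio i
    rcases le_max_iff.1 hbig with hb | hb
    · cases hc : cl i
      · nlinarith
      · rw [hc] at hr
        simp only [Bool.not_true] at hr
        nlinarith
    · cases hc : cl i
      · rw [hc] at hr
        simp only [Bool.not_false] at hr
        nlinarith
      · nlinarith
  · intro i q hq
    cases hc : cl i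
    · exact f4_few (hlab true) hE0 (fun ho w hw => (h.labR i hc w hw).2 ho) hq (h.fewR i hc q hq)
    · exact f4_few (hlab false) hE0 (fun ho w hw => (h.labB i hc w hw).2 ho) hq (h.fewB i hc q hq)
  · intro i j hij q hq
    have hc := h.cross i j hij q hq
    have hm := hM.card q
    have hsub : (Q j).filter (fun w => Bad T lab M q w) ⊆
        univ.filter (fun w => M q w) ∪
          (Q j).filter (fun w => (noneG (T false) (lab false)).Adj q w ∨ (noneG (T true) (lab true)).Adj q w) := by
      intro w hw
      simp only [Finset.mem_filter, Finset.mem_union, Finset.mem_univ, true_and] at hw ⊢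
      obtain ⟨hwj, hb⟩ := hw
      rcases hb with hb | ⟨κ, hadj, hn⟩
      · exact Or.inl hb
      · right
        refine ⟨hwj, ?_⟩
        cases κ
        · exact Or.inl ⟨hn, (hlab false).adjNone _ _ hadj hn, hadj⟩
        · exact Or.inr ⟨hn, (hlab true).adjNone _ _ hadj hn, hadj⟩
    have hcard := (Finset.card_le_card hsub).trans (Finset.card_union_le _ _)
    have hcard' : (((Q j).filter (fun w => Bad T lab M q w)).card : ℝ) ≤
        ((univ.filter (fun w => M q w)).card : ℝ) +
          (((Q j).filter (fun w => (noneG (T false) (lab false)).Adj q w ∨ (noneG (T true) (lab true)).Adj q w)).card : ℝ) := by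
      exact_mod_cast hcard
    have hc' : (((Q j).filter (fun w => (noneG (T false) (lab false)).Adj q w ∨ (noneG (T true) (lab true)).Adj q w)).card : ℝ) ≤ E := by
      convert hc using 3
    have hm' : ((univ.filter (fun w => M q w)).card : ℝ) ≤ E := by
      convert hm using 3
    linarith
  · have := h.count
    simp only [f4_sided] at this
    exact this
  · intro κ hκ
    exact h.bal κ (by rw [f4_sided]; exact hκ)

end Pool.Agent.Lib.MP_779bc2_co
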