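import Mathlib

/-! Row F5: transversals (elementary). -/

set_option autoImplicit false

namespace Pool.Agent.Lib.MP_779bc2_co

open Finset

open Classical in
/-- PROOF. Induction on `S`. For `insert i S`: the hypotheses hold for `S` (`(S.card + Fx.card) * s ≤ ((insert i S).card + Fx.card) * s`), take `q`. The elements of `P i`
related to one of the `q j` (`j ∈ S`) or to one of the elements of `Fx` are at most `(S.card + Fx.card) * s < (P i).card`; choose `v ∈ P i` not among them and replace `q`
by `Function.update q i v` (use `symm`). -/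
theorem exists_transversal {W ι : Type} [Nonempty W] (Rel : W → W → Prop) (symm : ∀ u w, Rel u w → Rel w u) (S : Finset ι) (P : ι → Finset W) (Fx : Finset W)
    (s : ℝ) (hs : 0 ≤ s)
    (hfx : ∀ j ∈ S, ∀ f ∈ Fx, (((P j).filter (fun w => Rel f w)).card : ℝ) ≤ s)
    (hrel : ∀ i ∈ S, ∀ j ∈ S, i ≠ j → ∀ u ∈ P i, (((P j).filter (fun w => Rel u w)).card : ℝ) ≤ s)
    (hP : ∀ j ∈ S, ((S.card : ℝ) + Fx.card) * s < (P j).card) :
    ∃ q : ι → W, (∀ j ∈ S, q j ∈ P j) ∧ (∀ j ∈ S, ∀ f ∈ Fx, ¬ Rel f (q j)) ∧ ∀ i ∈ S, ∀ j ∈ S, i ≠ j → ¬ Rel (q i) (q j) := by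
  have hbU : ∀ {κ : Type} (t : Finset κ) (f : κ → Finset W), (∀ i ∈ t, ((f i).card : ℝ) ≤ s) →
      ((t.biUnion f).card : ℝ) ≤ t.card * s := by
    intro κ t f h
    have h1 : ((t.biUnion f).card : ℝ) ≤ ∑ i ∈ t, ((f i).card : ℝ) := by exact_mod_cast card_biUnion_le
    have h2 : ∑ i ∈ t, ((f i).card : ℝ) ≤ ∑ _i ∈ t, s := sum_le_sum h
    rw [sum_const, nsmul_eq_mul] at h2
    linarith
  induction S using Finset.induction_on with
  | empty => exact ⟨fun _ => Classical.arbitrary W, by simp, by simp, by simp⟩
  | insert i S hi ih =>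
    have hcS : ((insert i S).card : ℝ) = S.card + 1 := by
      rw [card_insert_of_notMem hi]; push_cast; ring
    obtain ⟨q, h1, h2, h3⟩ := ih (fun j hj => hfx j (mem_insert_of_mem hj))
      (fun j hj k hk => hrel j (mem_insert_of_mem hj) k (mem_insert_of_mem hk))
      (fun j hj => by
        have := hP j (mem_insert_of_mem hj)
        rw [hcS] at this
        nlinarith)
    have hi' : i ∈ insert i S := mem_insert_self _ _
    obtain ⟨v, hv, hvF, hvS⟩ : ∃ v ∈ P i, (∀ f ∈ Fx, ¬ Rel f v) ∧ ∀ j ∈ S, ¬ Rel (q j) v := by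
      by_contra hcon
      push Not at hcon
      have hsub : P i ⊆ (Fx.biUnion fun f => (P i).filter (fun w => Rel f w)) ∪
          (S.biUnion fun j => (P i).filter (fun w => Rel (q j) w)) := by
        intro z hz
        by_cases hzF : ∀ f ∈ Fx, ¬ Rel f z
        · obtain ⟨j, hj, hjz⟩ := hcon z hz hzF
          exact mem_union_right _ (mem_biUnion.mpr ⟨j, hj, mem_filter.mpr ⟨hz, hjz⟩⟩)
        · push Not at hzF
          obtain ⟨f, hf, hfz⟩ := hzF
          exact mem_union_left _ (mem_biUnion.mpr ⟨f, hf, mem_filter.mpr ⟨hz, hfz⟩⟩)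
      have e1 := hbU Fx (fun f => (P i).filter (fun w => Rel f w)) (fun f hf => hfx i hi' f hf)
      have e2 := hbU S (fun j => (P i).filter (fun w => Rel (q j) w)) (fun j hj =>
        hrel j (mem_insert_of_mem hj) i hi' (by rintro rfl; exact hi hj) (q j) (h1 j hj))
      have e3 : ((P i).card : ℝ) ≤ ((Fx.biUnion fun f => (P i).filter (fun w => Rel f w)).card : ℝ) +
          ((S.biUnion fun j => (P i).filter (fun w => Rel (q j) w)).card : ℝ) := by
        exact_mod_cast (card_le_card hsub).trans (card_union_le _ _)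
      have e4 := hP i hi'
      rw [hcS] at e4
      nlinarith
    have hne : ∀ j ∈ S, j ≠ i := by
      rintro j hj rfl
      exact hi hj
    refine ⟨Function.update q i v, ?_, ?_, ?_⟩
    · intro j hj
      rcases mem_insert.mp hj with hji | hj'
      · rw [hji, Function.update_self]; exact hv
      · rw [Function.update_of_ne (hne j hj')]; exact h1 j hj'
    · intro j hj f hf
      rcases mem_insert.mp hj with hji | hj'
      · rw [hji, Function.update_self]; exact hvF f hf
      · rw [Function.update_of_ne (hne j hj')]; exact h2 j hj' f hf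
    · intro j hj k hk hjk
      rcases mem_insert.mp hj with hji | hj'
      · rcases mem_insert.mp hk with hki | hk'
        · exact absurd (hji.trans hki.symm) hjk
        · rw [hji, Function.update_self, Function.update_of_ne (hne k hk')]
          intro h
          exact hvS k hk' (symm _ _ h)
      · rcases mem_insert.mp hk with hki | hk'
        · rw [hki, Function.update_self, Function.update_of_ne (hne j hj')]
          exact hvS j hj'
        · rw [Function.update_of_ne (hne j hj'), Function.update_of_ne (hne k hk')]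
          exact h3 j hj' k hk' hjk

end Pool.Agent.Lib.MP_779bc2_co
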