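import Pool.Agent.Lib.MP_779bc2_co.F6Keep

/-! Row F6Bal: balance of the components met by a transversal. -/

set_option autoImplicit false

namespace Pool.Agent.Lib.MP_779bc2_co

open Finset

variable {W : Type} [Fintype W] [DecidableEq W]

variable {o : Bool → Bool} {T : Bool → SimpleGraph W} {lab : Bool → W → Option Bool} {M : W → W → Prop} {X : Bool → ℝ} {E : ℝ}
  {a : ℕ} {U : Finset W} {ι : Type} [Fintype ι] {cl σ : ι → Bool} {Q : ι → Finset W}

open Classical in
/-- PROOF. Let `κ = cl i0`, `A i := cl i = κ ∧ (T (!κ)).Reachable v (q i)`. The set `K1` of the `i` with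
`o (!cl i) = false`, or `o (!cl i) = true ∧ cl i ≠ κ ∧ σ i = true`, or `cl i = κ ∧ ¬ A i ∧ σ i = true`, or `A i ∧ σ i = false`
satisfies the hypotheses of `keep_le` (if `cl i = cl j = κ` and `q i`, `q j` are adjacent in `T (!κ)` then `A i ↔ A j`, so `σ i = σ j`). So `K1.card ≤ a`, and comparing with
`h.count` gives `#{A i, σ i = false} ≤ #{A i, σ i = true}`. In the same way, with `K2` = (plain) or (`cl i ≠ κ`, sided, `σ i = true`) or (`cl i = κ ∧ ¬ A i ∧ σ i = false`) or
(`A i ∧ σ i = true`) and `h.bal κ`: `#{A i, σ i = true} ≤ #{A i, σ i = false}`. -/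
theorem SOut.balance (h : SOut o T lab M X E a U cl σ Q) (q : ι → W) (hq : ∀ i, q i ∈ Q i) (hrel : ∀ i j, i ≠ j → ¬ Bad T lab M (q i) (q j))
    (i0 : ι) (h0 : o (!cl i0) = true) (v : W) :
    (univ.filter (fun i => cl i = cl i0 ∧ (T (!cl i0)).Reachable v (q i) ∧ σ i = true)).card =
      (univ.filter (fun i => cl i = cl i0 ∧ (T (!cl i0)).Reachable v (q i) ∧ σ i = false)).card := by
  set κ : Bool := cl i0 with hκ
  set R : ι → Prop := fun i => (T (!κ)).Reachable v (q i) with hR
  -- numbers
  set P : ℕ := (univ.filter (fun i => o (!cl i) = false)).card with hP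
  set S : ℕ := (univ.filter (fun i => o (!cl i) = true ∧ cl i ≠ κ ∧ σ i = true)).card with hS
  set NT : ℕ := (univ.filter (fun i => cl i = κ ∧ ¬ R i ∧ σ i = true)).card with hNT
  set NF : ℕ := (univ.filter (fun i => cl i = κ ∧ ¬ R i ∧ σ i = false)).card with hNF
  set RT : ℕ := (univ.filter (fun i => cl i = κ ∧ R i ∧ σ i = true)).card with hRT
  set RF : ℕ := (univ.filter (fun i => cl i = κ ∧ R i ∧ σ i = false)).card with hRF
  have hplain : ∀ i, cl i = κ → o (!cl i) = true := fun i hi => by rw [hi]; exact h0
  have hcount : P + (S + NT + RT) = a := by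
    rw [← h.count, hP, hS, hNT, hRT]
    congr 1
    simp only [Finset.card_filter, ← Finset.sum_add_distrib]
    refine Finset.sum_congr rfl fun i _ => ?_
    by_cases h1 : cl i = κ
    · have h2 := hplain i h1
      by_cases h3 : R i <;> by_cases h4 : σ i = true <;> simp [h1, h2, h3, h4, h0]
    · by_cases h2 : o (!cl i) = true <;> by_cases h4 : σ i = true <;> simp [h1, h2, h4]
  have hbal : RT + NT = RF + NF := by
    have e1 : (univ.filter (fun i => cl i = κ ∧ σ i = true)).card = RT + NT := by
      rw [hRT, hNT]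
      simp only [Finset.card_filter, ← Finset.sum_add_distrib]
      refine Finset.sum_congr rfl fun i _ => ?_
      by_cases h1 : cl i = κ <;> by_cases h3 : R i <;> by_cases h4 : σ i = true <;>
        simp [h1, h3, h4]
    have e2 : (univ.filter (fun i => cl i = κ ∧ σ i = false)).card = RF + NF := by
      rw [hRF, hNF]
      simp only [Finset.card_filter, ← Finset.sum_add_distrib]
      refine Finset.sum_congr rfl fun i _ => ?_
      by_cases h1 : cl i = κ <;> by_cases h3 : R i <;> by_cases h4 : σ i = false <;>
        simp [h1, h3, h4]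
    rw [← e1, ← e2]
    exact h.bal κ h0
  have hK1 : (univ.filter (fun i => o (!cl i) = false ∨ (o (!cl i) = true ∧ cl i ≠ κ ∧ σ i = true) ∨
      (cl i = κ ∧ ¬ R i ∧ σ i = true) ∨ (cl i = κ ∧ R i ∧ σ i = false))).card = P + (S + NT + RF) := by
    rw [hP, hS, hNT, hRF]
    simp only [Finset.card_filter, ← Finset.sum_add_distrib]
    refine Finset.sum_congr rfl fun i _ => ?_
    by_cases h1 : cl i = κ
    · have h2 := hplain i h1
      by_cases h3 : R i <;> by_cases h4 : σ i = true <;> simp [h1, h2, h3, h4, h0]
    · by_cases h2 : o (!cl i) = true <;> by_cases h4 : σ i = true <;> simp [h1, h2, h4]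
  have hK2 : (univ.filter (fun i => o (!cl i) = false ∨ (o (!cl i) = true ∧ cl i ≠ κ ∧ σ i = true) ∨
      (cl i = κ ∧ ¬ R i ∧ σ i = false) ∨ (cl i = κ ∧ R i ∧ σ i = true))).card = P + (S + NF + RT) := by
    rw [hP, hS, hNF, hRT]
    simp only [Finset.card_filter, ← Finset.sum_add_distrib]
    refine Finset.sum_congr rfl fun i _ => ?_
    by_cases h1 : cl i = κ
    · have h2 := hplain i h1
      by_cases h3 : R i <;> by_cases h4 : σ i = true <;> simp [h1, h2, h3, h4, h0]
    · by_cases h2 : o (!cl i) = true <;> by_cases h4 : σ i = true <;> simp [h1, h2, h4]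
  have hRR : ∀ i j, (T (!κ)).Adj (q i) (q j) → (R i ↔ R j) := by
    intro i j hij
    constructor
    · intro hi; exact hi.trans hij.reachable
    · intro hj; exact hj.trans hij.symm.reachable
  have hL1 := h.keep_le q (univ.filter (fun i => o (!cl i) = false ∨
      (o (!cl i) = true ∧ cl i ≠ κ ∧ σ i = true) ∨
      (cl i = κ ∧ ¬ R i ∧ σ i = true) ∨ (cl i = κ ∧ R i ∧ σ i = false)))
    (fun i _ => hq i) (fun i _ j _ hij => hrel i j hij) (by
      intro i hi j hj ho hij hsi hsj _ hadj
      simp only [Finset.mem_filter, Finset.mem_univ, true_and] at hi hj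
      by_cases h1 : cl i = κ
      · have h2 : cl j = κ := hij ▸ h1
        have hRi : ¬ R i := by
          rcases hi with h3 | h3 | h3 | h3
          · rw [ho] at h3; exact absurd h3 (by simp)
          · exact absurd h1 h3.2.1
          · exact h3.2.1
          · rw [hsi] at h3; exact absurd h3.2.2 (by simp)
        have hRj : R j := by
          rcases hj with h3 | h3 | h3 | h3
          · rw [hplain j h2] at h3; exact absurd h3 (by simp)
          · exact absurd h2 h3.2.1
          · rw [hsj] at h3; exact absurd h3.2.2 (by simp)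
          · exact h3.2.1
        rw [h1] at hadj
        exact hRi ((hRR i j hadj).2 hRj)
      · have h2 : cl j ≠ κ := hij ▸ h1
        rcases hj with h3 | h3 | h3 | h3
        · rw [hij] at ho; rw [ho] at h3; exact absurd h3 (by simp)
        · rw [hsj] at h3; exact absurd h3.2.2 (by simp)
        · exact h2 h3.1
        · exact h2 h3.1)
  have hL2 := h.keep_le q (univ.filter (fun i => o (!cl i) = false ∨
      (o (!cl i) = true ∧ cl i ≠ κ ∧ σ i = true) ∨
      (cl i = κ ∧ ¬ R i ∧ σ i = false) ∨ (cl i = κ ∧ R i ∧ σ i = true)))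
    (fun i _ => hq i) (fun i _ j _ hij => hrel i j hij) (by
      intro i hi j hj ho hij hsi hsj _ hadj
      simp only [Finset.mem_filter, Finset.mem_univ, true_and] at hi hj
      by_cases h1 : cl i = κ
      · have h2 : cl j = κ := hij ▸ h1
        have hRi : R i := by
          rcases hi with h3 | h3 | h3 | h3
          · rw [ho] at h3; exact absurd h3 (by simp)
          · exact absurd h1 h3.2.1
          · rw [hsi] at h3; exact absurd h3.2.2 (by simp)
          · exact h3.2.1
        have hRj : ¬ R j := by
          rcases hj with h3 | h3 | h3 | h3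
          · rw [hplain j h2] at h3; exact absurd h3 (by simp)
          · exact absurd h2 h3.2.1
          · exact h3.2.1
          · rw [hsj] at h3; exact absurd h3.2.2 (by simp)
        rw [h1] at hadj
        exact hRj ((hRR i j hadj).1 hRi)
      · have h2 : cl j ≠ κ := hij ▸ h1
        rcases hj with h3 | h3 | h3 | h3
        · rw [hij] at ho; rw [ho] at h3; exact absurd h3 (by simp)
        · rw [hsj] at h3; exact absurd h3.2.2 (by simp)
        · exact h2 h3.1
        · exact h2 h3.1)
  rw [hK1] at hL1
  rw [hK2] at hL2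
  omega

end Pool.Agent.Lib.MP_779bc2_co
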