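import Pool.Agent.Lib.MP_779bc2_co.FDefs

/-! Row F6Keep: transversals and the independence number. -/

set_option autoImplicit false

namespace Pool.Agent.Lib.MP_779bc2_co

open Finset

variable {W : Type} [Fintype W] [DecidableEq W]

variable {o : Bool → Bool} {T : Bool → SimpleGraph W} {lab : Bool → W → Option Bool} {M : W → W → Prop} {X : Bool → ℝ} {E : ℝ}
  {a : ℕ} {U : Finset W} {ι : Type} [Fintype ι] {cl σ : ι → Bool} {Q : ι → Finset W}

/-- PROOF. The `q i`, `i ∈ K`, are distinct (`h.eq_of_mem`), so if `a < K.card` then `h.ind` for `K.image q ⊆ U` gives `q i ≠ q j`, `M`-related (excluded by `hrel`) or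
adjacent in some `T κ`. `h.adj_cases`: either `lab κ (q i) = none`, then `Bad` (excluded), or `κ = !cl i`, `o κ = true`, `cl i = cl j`, `σ i ≠ σ j`; one of `σ i`, `σ j` is
`true`, the other one `false`: excluded by `hK` (use the symmetry of adjacency if `σ i = false`). -/
theorem SOut.keep_le (h : SOut o T lab M X E a U cl σ Q) (q : ι → W) (K : Finset ι) (hq : ∀ i ∈ K, q i ∈ Q i)
    (hrel : ∀ i ∈ K, ∀ j ∈ K, i ≠ j → ¬ Bad T lab M (q i) (q j))
    (hK : ∀ i ∈ K, ∀ j ∈ K, o (!cl i) = true → cl i = cl j → σ i = true → σ j = false → Same T cl Q i j → ¬ (T (!cl i)).Adj (q i) (q j)) :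
    K.card ≤ a := by
  classical
  by_contra hcon
  have hinj : Set.InjOn q K := by
    intro i hi j hj hij
    by_contra hne
    have h1 := hq i (by simpa using hi)
    have h2 := hq j (by simpa using hj)
    rw [← hij] at h2
    exact hne (h.eq_of_mem h1 h2)
  have hcard : (K.image q).card = K.card := card_image_of_injOn hinj
  obtain ⟨u, hu, w, hw, huw, hadj⟩ := h.ind (K.image q) (by
    intro z hz
    obtain ⟨i, hi, rfl⟩ := mem_image.mp hz
    exact h.sub i (hq i hi)) (by omega)
  obtain ⟨i, hi, rfl⟩ := mem_image.mp hu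
  obtain ⟨j, hj, rfl⟩ := mem_image.mp hw
  have hij : i ≠ j := by
    rintro rfl
    exact huw rfl
  have main : ∀ κ, ¬ (T κ).Adj (q i) (q j) := by
    intro κ hκ
    rcases h.adj_cases (hq i hi) (hq j hj) hκ with hn | ⟨h1, h2, h3, h4, h5⟩
    · exact hrel i hi j hj hij (Or.inr ⟨κ, hκ, hn⟩)
    · by_cases hs : σ i = true
      · have hs' : σ j = false := by
          cases hj2 : σ j
          · rfl
          · exact absurd (hs.trans hj2.symm) h4
        exact hK i hi j hj (h1 ▸ h2) h3 hs hs' h5 (h1 ▸ hκ)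
      · have hs1 : σ i = false := by simpa using hs
        have hs' : σ j = true := by
          cases hj2 : σ j
          · exact absurd (hs1.trans hj2.symm) h4
          · rfl
        rcases h.adj_cases (hq j hj) (hq i hi) hκ.symm with hn | ⟨g1, g2, g3, g4, g5⟩
        · exact hrel j hj i hi hij.symm (Or.inr ⟨κ, hκ.symm, hn⟩)
        · exact hK j hj i hi (g1 ▸ g2) g3 hs' hs1 g5 (g1 ▸ hκ.symm)
  rcases hadj with hM | hR | hB
  · exact hrel i hi j hj hij (Or.inl hM)
  · exact main false hR
  · exact main true hB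

end Pool.Agent.Lib.MP_779bc2_co
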