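import Pool.Agent.Lib.MP_779bc2_co.F5Trans
import Pool.Agent.Lib.MP_779bc2_co.F6Bal

/-! Row F7Comp: every sided clique lies in one component. -/

set_option autoImplicit false

namespace Pool.Agent.Lib.MP_779bc2_co

open Finset

variable {W : Type} [Fintype W] [DecidableEq W]

variable {o : Bool → Bool} {T : Bool → SimpleGraph W} {lab : Bool → W → Option Bool} {M : W → W → Prop} {X : Bool → ℝ} {E : ℝ}
  {a : ℕ} {U : Finset W} {ι : Type} [Fintype ι] {cl σ : ι → Bool} {Q : ι → Finset W}

/-- PROOF. `exists_transversal` for `Rel = Bad T lab M`, `S = univ.erase i`, `P = Q`, `Fx = {u, w}`, `s = 2 E` (`h.cross`; `(S.card + 2) * 2E ≤ (2a + 1) * 2 E < 99 (a+1) E`,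
`h.card_le`, `h.size_ge`). `q1 = Function.update q i u`, `q2 = Function.update q i w` satisfy the hypotheses of `h.balance` (base point `v = u`, `i0 = i`). If `w` is not reachable
from `u`, then in the sets of `h.balance` the index `i` occurs for `q1` but not for `q2`, all other indices occur for both or for none: the counts for the side `σ i` differ by one,
the counts for the other side are equal; contradiction. -/
theorem SOut.one_comp (h : SOut o T lab M X E a U cl σ Q) (i : ι) (hi : o (!cl i) = true) (u : W) (hu : u ∈ Q i) (w : W) (hw : w ∈ Q i) :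
    (T (!cl i)).Reachable u w := by
  classical
  have hW : Nonempty W := ⟨u⟩
  have hE1 := h.one
  have ha0 : (0 : ℝ) ≤ a := by positivity
  have hcι : (Fintype.card ι : ℝ) ≤ 2 * a := by exact_mod_cast h.card_le
  obtain ⟨q, hq, hfx, hrel⟩ := exists_transversal (Bad T lab M) h.badSymm (univ.erase i) Q {u, w} (2 * E) (by linarith)
    (fun j hj f hf => by
      have hij : i ≠ j := fun h1 => (Finset.mem_erase.1 hj).1 h1.symm
      have hfi : f ∈ Q i := by
        rcases Finset.mem_insert.1 hf with h1 | h1
        · rw [h1]; exact hu
        · rw [Finset.mem_singleton.1 h1]; exact hw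
      exact h.cross i j hij f hfi)
    (fun j _ k _ hjk x hx => h.cross j k hjk x hx)
    (fun j _ => by
      have h1 : ((univ.erase i).card : ℝ) ≤ 2 * a := by
        refine le_trans ?_ hcι
        exact_mod_cast (Finset.card_le_univ _)
      have h2 : (({u, w} : Finset W).card : ℝ) ≤ 2 := by exact_mod_cast Finset.card_le_two
      have h3 := h.size_ge j
      have h4 : (((univ.erase i).card : ℝ) + (({u, w} : Finset W).card : ℝ)) * (2 * E) ≤ (2 * a + 2) * (2 * E) :=
        mul_le_mul_of_nonneg_right (by linarith) (by linarith)
      nlinarith)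
  by_contra hnr
  have hupd : ∀ x ∈ ({u, w} : Finset W), (∀ k, Function.update q i x k ∈ Q k) ∧
      ∀ j k, j ≠ k → ¬ Bad T lab M (Function.update q i x j) (Function.update q i x k) := by
    intro x hx
    have hxi : x ∈ Q i := by
      rcases Finset.mem_insert.1 hx with h1 | h1
      · rw [h1]; exact hu
      · rw [Finset.mem_singleton.1 h1]; exact hw
    refine ⟨fun k => ?_, fun j k hjk => ?_⟩
    · by_cases hk : k = i
      · subst hk; rw [Function.update_self]; exact hxi
      · rw [Function.update_of_ne hk]
        exact hq k (Finset.mem_erase.2 ⟨hk, Finset.mem_univ _⟩)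
    · by_cases hj : j = i
      · subst hj
        have hk : k ≠ j := fun h1 => hjk h1.symm
        rw [Function.update_self, Function.update_of_ne hk]
        exact hfx k (Finset.mem_erase.2 ⟨hk, Finset.mem_univ _⟩) x hx
      · by_cases hk : k = i
        · subst hk
          rw [Function.update_self, Function.update_of_ne hj]
          intro hbad
          exact hfx j (Finset.mem_erase.2 ⟨hj, Finset.mem_univ _⟩) x hx (h.badSymm _ _ hbad)
        · rw [Function.update_of_ne hk, Function.update_of_ne hj]
          exact hrel j (Finset.mem_erase.2 ⟨hj, Finset.mem_univ _⟩) k (Finset.mem_erase.2 ⟨hk, Finset.mem_univ _⟩) hjk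
  have hu2 := hupd u (Finset.mem_insert_self _ _)
  have hw2 := hupd w (Finset.mem_insert_of_mem (Finset.mem_singleton_self _))
  have b1 := h.balance _ hu2.1 hu2.2 i hi u
  have b2 := h.balance _ hw2.1 hw2.2 i hi u
  have c1 : ∀ b : Bool, b ≠ σ i →
      (univ.filter (fun k => cl k = cl i ∧ (T (!cl i)).Reachable u (Function.update q i u k) ∧ σ k = b)) =
      (univ.filter (fun k => cl k = cl i ∧ (T (!cl i)).Reachable u (Function.update q i w k) ∧ σ k = b)) := by
    intro b hb
    ext k
    simp only [Finset.mem_filter, Finset.mem_univ, true_and]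
    by_cases hk : k = i
    · subst hk
      constructor
      · rintro ⟨_, _, h3⟩; exact absurd h3.symm hb
      · rintro ⟨_, _, h3⟩; exact absurd h3.symm hb
    · rw [Function.update_of_ne hk, Function.update_of_ne hk]
  have c2 : (univ.filter (fun k => cl k = cl i ∧ (T (!cl i)).Reachable u (Function.update q i u k) ∧ σ k = σ i)).card =
      (univ.filter (fun k => cl k = cl i ∧ (T (!cl i)).Reachable u (Function.update q i w k) ∧ σ k = σ i)).card + 1 := by
    rw [← Finset.card_insert_of_notMem (a := i)
      (s := univ.filter (fun k => cl k = cl i ∧ (T (!cl i)).Reachable u (Function.update q i w k) ∧ σ k = σ i))]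
    · congr 1
      ext k
      rw [Finset.mem_insert]
      simp only [Finset.mem_filter, Finset.mem_univ, true_and]
      by_cases hk : k = i
      · subst hk
        rw [Function.update_self]
        simp
      · rw [Function.update_of_ne hk, Function.update_of_ne hk]
        simp [hk]
    · rw [Finset.mem_filter, Function.update_self]
      rintro ⟨_, _, h2, _⟩
      exact hnr h2
  cases hσ : σ i
  · rw [hσ] at c2
    have c1' := c1 true (by rw [hσ]; simp)
    rw [c1'] at b1
    omega
  · rw [hσ] at c2
    have c1' := c1 false (by rw [hσ]; simp)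
    rw [c1'] at b1
    omega

end Pool.Agent.Lib.MP_779bc2_co
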