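import Pool.Agent.Lib.MP_779bc2_co.F7Comp

/-! Row F7Same: the relation `Same`; the components are balanced. -/

set_option autoImplicit false

namespace Pool.Agent.Lib.MP_779bc2_co

open Finset

variable {W : Type} [Fintype W] [DecidableEq W]

variable {o : Bool → Bool} {T : Bool → SimpleGraph W} {lab : Bool → W → Option Bool} {M : W → W → Prop} {X : Bool → ℝ} {E : ℝ}
  {a : ℕ} {U : Finset W} {ι : Type} [Fintype ι] {cl σ : ι → Bool} {Q : ι → Finset W}

/-- from `one_comp` -/
theorem SOut.same_iff (h : SOut o T lab M X E a U cl σ Q) (i j : ι) (hi : o (!cl i) = true) :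
    Same T cl Q i j ↔ cl i = cl j ∧ ∀ u ∈ Q i, ∀ w ∈ Q j, (T (!cl i)).Reachable u w := by
  constructor
  · rintro ⟨hij, u, hu, w, hw, huw⟩
    refine ⟨hij, fun u' hu' w' hw' => ?_⟩
    have h1 := h.one_comp i hi u' hu' u hu
    have h2 := h.one_comp j (hij ▸ hi) w hw w' hw'
    rw [← hij] at h2
    exact (h1.trans huw).trans h2
  · rintro ⟨hij, hall⟩
    obtain ⟨u, hu⟩ := h.nonempty i
    obtain ⟨w, hw⟩ := h.nonempty j
    exact ⟨hij, u, hu, w, hw, hall u hu w hw⟩

theorem SOut.same_refl (h : SOut o T lab M X E a U cl σ Q) (i : ι) : Same T cl Q i i := by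
  obtain ⟨u, hu⟩ := h.nonempty i
  exact ⟨rfl, u, hu, u, hu, SimpleGraph.Reachable.refl u⟩

theorem SOut.same_symm (_h : SOut o T lab M X E a U cl σ Q) {i j : ι} (hij : Same T cl Q i j) : Same T cl Q j i := by
  obtain ⟨h1, u, hu, w, hw, h2⟩ := hij
  refine ⟨h1.symm, w, hw, u, hu, ?_⟩
  rw [← h1]
  exact h2.symm

theorem SOut.same_trans (h : SOut o T lab M X E a U cl σ Q) {i j k : ι} (hi : o (!cl i) = true) (hij : Same T cl Q i j) (hjk : Same T cl Q j k) : Same T cl Q i k := by
  obtain ⟨h1, u, hu, w, hw, h2⟩ := hij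
  obtain ⟨h3, u', hu', w', hw', h4⟩ := hjk
  refine ⟨h1.trans h3, u, hu, w', hw', ?_⟩
  have h5 := h.one_comp j (h1 ▸ hi) w hw u' hu'
  rw [← h1] at h5 h4
  exact (h2.trans h5).trans h4

open Classical in
/-- PROOF. Take a transversal `q` (`exists_transversal`, `S = univ`, `Fx = ∅`, `P = Q`, `s = 2E`) and `h.balance` with `v = q i0`; `(T (!cl i0)).Reachable (q i0) (q i)` and
`cl i = cl i0` is the same as `Same T cl Q i0 i` (`same_iff`). -/
theorem SOut.class_balance (h : SOut o T lab M X E a U cl σ Q) (i0 : ι) (h0 : o (!cl i0) = true) :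
    (univ.filter (fun i => Same T cl Q i0 i ∧ σ i = true)).card = (univ.filter (fun i => Same T cl Q i0 i ∧ σ i = false)).card := by
  have hW : Nonempty W := ⟨(h.nonempty i0).choose⟩
  have hE1 := h.one
  have ha0 : (0 : ℝ) ≤ a := by positivity
  have hcι : (Fintype.card ι : ℝ) ≤ 2 * a := by exact_mod_cast h.card_le
  obtain ⟨q, hq, -, hrel⟩ := exists_transversal (Bad T lab M) h.badSymm univ Q ∅ (2 * E) (by linarith)
    (fun j _ f hf => absurd hf (Finset.notMem_empty f))
    (fun i _ j _ hij u hu => h.cross i j hij u hu)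
    (fun j _ => by
      rw [Finset.card_univ, Finset.card_empty]
      have h3 := h.size_ge j
      push_cast
      nlinarith)
  have hqQ : ∀ i, q i ∈ Q i := fun i => hq i (Finset.mem_univ _)
  have hb := h.balance q hqQ (fun i j hij => hrel i (Finset.mem_univ _) j (Finset.mem_univ _) hij) i0 h0 (q i0)
  have hiff : ∀ i, Same T cl Q i0 i ↔ (cl i = cl i0 ∧ (T (!cl i0)).Reachable (q i0) (q i)) := by
    intro i
    constructor
    · intro hs
      have h1 := (h.same_iff i0 i h0).1 hs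
      exact ⟨h1.1.symm, h1.2 _ (hqQ i0) _ (hqQ i)⟩
    · rintro ⟨h1, h2⟩
      exact ⟨h1.symm, q i0, hqQ i0, q i, hqQ i, h2⟩
  simpa only [hiff, and_assoc] using hb

end Pool.Agent.Lib.MP_779bc2_co
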