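import Pool.Agent.Lib.MP_779bc2_co.CDefs

/-!
# Part II': from the structure theorem `core` to the frame. Definitions

Everything is written symmetrically in the two long colours `κ : Bool`: `T κ` is the template graph, `o κ = true` iff the long cycle of the colour `κ` is odd,
`lab κ v` the label of `v` in the colour `κ`, `X κ = (1 + e) * len n m κ`. The clique `Q i` has colour `cl i`; it is sided iff `o (!cl i) = true`.
-/

set_option autoImplicit false

namespace Pool.Agent.Lib.MP_779bc2_co

open Finset

variable {W : Type} [Fintype W] [DecidableEq W]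

/-- `lab` labels the vertices of the template graph `G` of one colour: `none` on the components with an odd closed walk (and everywhere if the cycle of this
colour is even, `o = false`), the side on the bipartite components -/
structure LabT (o : Bool) (G : SimpleGraph W) (lab : W → Option Bool) : Prop where
  even : o = false → ∀ v, lab v = none
  adjNone : ∀ u w, G.Adj u w → lab u = none → lab w = none
  adjSome : ∀ u w s, G.Adj u w → lab u = some s → lab w = some (!s)
  oddWalk : o = true → ∀ v, lab v = none → ∃ w : G.Walk v v, Odd w.length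

/-- the edges of `G` between vertices with label `none` -/
def noneG (G : SimpleGraph W) (lab : W → Option Bool) : SimpleGraph W where
  Adj u w := lab u = none ∧ lab w = none ∧ G.Adj u w
  symm := ⟨fun _ _ h => ⟨h.2.1, h.1, h.2.2.symm⟩⟩
  loopless := ⟨fun _ h => h.2.2.ne rfl⟩

/-- `u`, `w` are `M`-related or joined by an edge of a template graph between vertices with label `none` -/
def Bad (T : Bool → SimpleGraph W) (lab : Bool → W → Option Bool) (M : W → W → Prop) (u w : W) : Prop :=
  M u w ∨ ∃ κ, (T κ).Adj u w ∧ lab κ u = none

/-- the cliques `i`, `j` have the same colour and lie in the same component of the template graph of the other colour -/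
def Same {ι : Type} (T : Bool → SimpleGraph W) (cl : ι → Bool) (Q : ι → Finset W) (i j : ι) : Prop :=
  cl i = cl j ∧ ∃ u ∈ Q i, ∃ w ∈ Q j, (T (!cl i)).Reachable u w

open Classical in
/-- symmetric form of `Out`, with the independence property of the template -/
structure SOut (o : Bool → Bool) (T : Bool → SimpleGraph W) (lab : Bool → W → Option Bool) (M : W → W → Prop) (X : Bool → ℝ) (E : ℝ)
    (a : ℕ) (U : Finset W) {ι : Type} [Fintype ι] (cl σ : ι → Bool) (Q : ι → Finset W) : Prop where
  one : 1 ≤ E
  labT : ∀ κ, LabT (o κ) (T κ) (lab κ)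
  mis : MisLe M E
  ind : IndLe (T false) (T true) M U a
  sub : ∀ i, Q i ⊆ U
  disj : ∀ i j, i ≠ j → Disjoint (Q i) (Q j)
  own : ∀ i, ∀ q ∈ Q i, lab (cl i) q = none
  other : ∀ i, o (!cl i) = true → ∀ q ∈ Q i, lab (!cl i) q = some (σ i)
  size : ∀ i, X (cl i) - E ≤ (Q i).card
  big : ∀ i, 100 * (a + 1) * E ≤ X (cl i)
  few : ∀ i, ∀ q ∈ Q i, ((nb (T (!cl i)) q (Q i)).card : ℝ) ≤ E
  ratio : ∀ i, X (!cl i) ≤ 3 / 2 * X (cl i) + E
  cross : ∀ i j, i ≠ j → ∀ q ∈ Q i, (((Q j).filter (fun w => Bad T lab M q w)).card : ℝ) ≤ 2 * E
  /-- number of the plain cliques + number of the sided cliques of side `true` is `a` -/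
  count : (univ.filter (fun i => o (!cl i) = false)).card
    + (univ.filter (fun i => o (!cl i) = true ∧ σ i = true)).card = a
  /-- as many sided cliques of side `true` as of side `false`, for each colour -/
  bal : ∀ κ, o (!κ) = true →
    (univ.filter (fun i => cl i = κ ∧ σ i = true)).card = (univ.filter (fun i => cl i = κ ∧ σ i = false)).card

section basic

variable {o : Bool → Bool} {T : Bool → SimpleGraph W} {lab : Bool → W → Option Bool} {M : W → W → Prop} {X : Bool → ℝ} {E : ℝ}
  {a : ℕ} {U : Finset W} {ι : Type} [Fintype ι] {cl σ : ι → Bool} {Q : ι → Finset W}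

theorem Bad.symm (hM : ∀ u w, M u w → M w u) (hl : ∀ κ, LabT (o κ) (T κ) (lab κ)) {u w : W} (h : Bad T lab M u w) : Bad T lab M w u := by
  rcases h with h | ⟨κ, h1, h2⟩
  · exact Or.inl (hM _ _ h)
  · exact Or.inr ⟨κ, h1.symm, (hl κ).adjNone _ _ h1 h2⟩

namespace SOut

theorem badSymm (h : SOut o T lab M X E a U cl σ Q) : ∀ u w, Bad T lab M u w → Bad T lab M w u :=
  fun _ _ => Bad.symm h.mis.symm h.labT

/-- the sizes of the cliques -/
theorem size_ge (h : SOut o T lab M X E a U cl σ Q) (i : ι) : 99 * (a + 1) * E ≤ ((Q i).card : ℝ) := by
  have h1 := h.size i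
  have h2 := h.big i
  have h3 := h.one
  have h4 : E ≤ (a + 1) * E := by
    have : (0 : ℝ) ≤ a := by positivity
    nlinarith
  nlinarith

theorem nonempty (h : SOut o T lab M X E a U cl σ Q) (i : ι) : (Q i).Nonempty := by
  have h1 := h.size_ge i
  have h3 := h.one
  have h4 : (0 : ℝ) < ((Q i).card : ℝ) := by
    have : (0 : ℝ) ≤ a := by positivity
    nlinarith
  exact Finset.card_pos.1 (by exact_mod_cast h4)

theorem eq_of_mem (h : SOut o T lab M X E a U cl σ Q) {i j : ι} {u : W} (hi : u ∈ Q i) (hj : u ∈ Q j) : i = j := by
  by_contra hij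
  exact (Finset.disjoint_left.1 (h.disj i j hij)) hi hj

/-- an edge of a template graph between two cliques: the end has label `none`, or the cliques are sided, of the same colour, in the same component, and on
opposite sides -/
theorem adj_cases (h : SOut o T lab M X E a U cl σ Q) {i j : ι} {κ : Bool} {u w : W} (hu : u ∈ Q i) (hw : w ∈ Q j) (hadj : (T κ).Adj u w) :
    lab κ u = none ∨ (κ = !cl i ∧ o κ = true ∧ cl i = cl j ∧ σ i ≠ σ j ∧ Same T cl Q i j) := by
  by_cases hn : lab κ u = none
  · exact Or.inl hn
  right
  obtain ⟨s, hs⟩ := Option.ne_none_iff_exists'.1 hn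
  have hs' := (h.labT κ).adjSome u w s hadj hs
  have h1 : κ = !cl i := by
    have : κ ≠ cl i := by
      rintro rfl
      rw [h.own i u hu] at hs
      exact absurd hs (by simp)
    cases κ <;> cases hc : cl i <;> simp_all
  have h2 : κ = !cl j := by
    have : κ ≠ cl j := by
      rintro rfl
      rw [h.own j w hw] at hs'
      exact absurd hs' (by simp)
    cases κ <;> cases hc : cl j <;> simp_all
  have h3 : o κ = true := by
    by_contra ho
    have : o κ = false := by simpa using ho
    rw [(h.labT κ).even this u] at hs
    exact absurd hs (by simp)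
  have h4 : cl i = cl j := by
    have : (!cl i) = (!cl j) := h1.symm.trans h2
    simpa using this
  have h5 := h.other i (h1 ▸ h3) u hu
  have h6 := h.other j (h2 ▸ h3) w hw
  rw [← h1, hs] at h5
  rw [← h2, hs'] at h6
  refine ⟨h1, h3, h4, ?_, h4, u, hu, w, hw, ?_⟩
  · simp only [Option.some.injEq] at h5 h6
    rw [← h5, ← h6]
    cases s <;> simp
  · rw [← h1]
    exact hadj.reachable

/-- number of the cliques -/
theorem card_le (h : SOut o T lab M X E a U cl σ Q) : Fintype.card ι ≤ 2 * a := by
  classical
  have h1 : Fintype.card ι = (univ.filter (fun i => o (!cl i) = false)).card +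
      ((univ.filter (fun i => o (!cl i) = true ∧ σ i = true)).card + (univ.filter (fun i => o (!cl i) = true ∧ σ i = false)).card) := by
    rw [← Finset.card_univ, ← Finset.card_filter_add_card_filter_not (s := univ) (fun i : ι => o (!cl i) = false)]
    congr 1
    rw [← Finset.card_filter_add_card_filter_not (s := univ.filter (fun i : ι => ¬ o (!cl i) = false)) (fun i : ι => σ i = true),
      Finset.filter_filter, Finset.filter_filter]
    simp
  have h2 : (univ.filter (fun i => o (!cl i) = true ∧ σ i = true)).card = (univ.filter (fun i => o (!cl i) = true ∧ σ i = false)).card := by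
    have key : ∀ b : Bool, (univ.filter (fun i => o (!cl i) = true ∧ σ i = b)).card =
        (if o true = true then (univ.filter (fun i => cl i = false ∧ σ i = b)).card else 0) +
        (if o false = true then (univ.filter (fun i => cl i = true ∧ σ i = b)).card else 0) := by
      intro b
      rw [← Finset.card_filter_add_card_filter_not (s := univ.filter (fun i => o (!cl i) = true ∧ σ i = b)) (fun i : ι => cl i = false),
        Finset.filter_filter, Finset.filter_filter]
      congr 1
      · split_ifs with ho
        · congr 1
          ext i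
          simp only [Finset.mem_filter, Finset.mem_univ, true_and]
          constructor
          · rintro ⟨⟨_, h4⟩, h5⟩; exact ⟨h5, h4⟩
          · rintro ⟨h4, h5⟩; exact ⟨⟨by rw [h4]; exact ho, h5⟩, h4⟩
        · rw [Finset.card_eq_zero, Finset.filter_eq_empty_iff]
          rintro i - ⟨⟨h3, _⟩, h5⟩
          rw [h5] at h3
          exact ho h3
      · split_ifs with ho
        · congr 1
          ext i
          simp only [Finset.mem_filter, Finset.mem_univ, true_and]
          constructor
          · rintro ⟨⟨_, h4⟩, h5⟩; exact ⟨by simpa using h5, h4⟩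
          · rintro ⟨h4, h5⟩; exact ⟨⟨by rw [h4]; exact ho, h5⟩, by simp [h4]⟩
        · rw [Finset.card_eq_zero, Finset.filter_eq_empty_iff]
          rintro i - ⟨⟨h3, _⟩, h5⟩
          have h6 : cl i = true := by simpa using h5
          rw [h6] at h3
          exact ho h3
    rw [key true, key false]
    by_cases h3 : o true = true
    · by_cases h4 : o false = true
      · simp only [h3, h4, if_true]
        rw [h.bal false (by simpa using h3), h.bal true (by simpa using h4)]
      · simp only [h3, h4, if_true]
        rw [h.bal false (by simpa using h3)]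
        simp
    · by_cases h4 : o false = true
      · simp only [h3, h4, if_true]
        rw [h.bal true (by simpa using h4)]
        simp
      · simp [h3, h4]
  have := h.count
  omega

end SOut

end basic

end Pool.Agent.Lib.MP_779bc2_co
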