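import Pool.Agent.Lib.MP_779bc2_co.F2Env
import Pool.Agent.Lib.MP_779bc2_co.F3Num
import Pool.Agent.Lib.MP_779bc2_co.F4Out
import Pool.Agent.Lib.MP_779bc2_co.F12Frame
import Pool.Agent.Lib.MP_779bc2_co.Core
import Pool.Agent.Lib.MP_779bc2_co.H0Util

/-! Assembly of Part II: `frame_of_tpl'`. -/

set_option autoImplicit false

namespace Pool.Agent.Lib.MP_779bc2_co

open Finset

theorem frame_of_tpl' (hmax : ∀ (a l : ℕ), 1 ≤ a → ∃ n0 : ℕ, ∀ n m : ℕ, n0 ≤ n → n0 ≤ m →
    (1 / (4 * a) : ℝ) * ((a * Fval n m l + 1 : ℕ) : ℝ) ≤ max (n : ℝ) m)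
    (p : Pm) (a : ℕ) (ha : 1 ≤ a) (δ e' : ℝ) (he' : 0 < e') :
    ∃ e > (0 : ℝ), ∃ n0 : ℕ, ∀ n m : ℕ, n0 ≤ n → n0 ≤ m →
      ∀ (W : Type) [Fintype W] [DecidableEq W], Fintype.card W = a * Fval n m p.ell + 1 →
      ∀ χ : W → W → Col p.s p.t, Free p n m χ →
      ∀ (V0 : Finset W) (T : Bool → SimpleGraph W) (M : W → W → Prop),
        Tpl p n m a χ (Fintype.card W) δ e V0 T M →
          ∃ (ι : Type) (_ : Fintype ι) (cl : ι → Bool) (Q : ι → Finset W),
            Frame p n m a χ (Fintype.card W) δ e' cl Q := by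
  have ha0 : (0 : ℝ) < a := by exact_mod_cast ha
  set c : ℝ := 1 / (4 * a) with hc
  have hc0 : 0 < c := by positivity
  set e1 : ℝ := min (e' / 10) (c / (200 * (a + 1))) with he1
  have he10 : 0 < e1 := lt_min (by positivity) (by positivity)
  choose ec hec0 hcore using fun fR fB => core fR fB a c hc0 e1 he10
  set em : ℝ := min (min (ec false false) (ec false true)) (min (ec true false) (ec true true)) with hem
  have hem0 : 0 < em := lt_min (lt_min (hec0 _ _) (hec0 _ _)) (lt_min (hec0 _ _) (hec0 _ _))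
  have hemle : ∀ fR fB, em ≤ ec fR fB := by
    intro fR fB
    cases fR <;> cases fB
    · exact (min_le_left _ _).trans (min_le_left _ _)
    · exact (min_le_left _ _).trans (min_le_right _ _)
    · exact (min_le_right _ _).trans (min_le_left _ _)
    · exact (min_le_right _ _).trans (min_le_right _ _)
  set e : ℝ := min (min (em / 4) e1) (min 1 (e' / 10)) with he
  have he0 : 0 < e := lt_min (lt_min (by positivity) he10) (lt_min one_pos (by positivity))
  have hele1 : e ≤ em / 4 := (min_le_left _ _).trans (min_le_left _ _)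
  have hele2 : e ≤ e1 := (min_le_left _ _).trans (min_le_right _ _)
  have hele3 : e ≤ 1 := (min_le_right _ _).trans (min_le_left _ _)
  have hele4 : e ≤ e' / 10 := (min_le_right _ _).trans (min_le_right _ _)
  obtain ⟨n1, hn1⟩ := hmax a p.ell ha
  refine ⟨e, he0, max (max n1 3) (max ⌈1 / e⌉₊ ⌈8 * a / em⌉₊), ?_⟩
  intro n m hn hm W _ _ hW χ hfree V0 T M hT
  set N : ℝ := (Fintype.card W : ℝ) with hN
  have hNeq : N = ((a * Fval n m p.ell + 1 : ℕ) : ℝ) := by rw [hN, hW]
  have hn3 : 3 ≤ n := ((le_max_right _ _).trans (le_max_left _ _)).trans hn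
  have hm3 : 3 ≤ m := ((le_max_right _ _).trans (le_max_left _ _)).trans hm
  have hlen : ∀ κ, (len n m κ : ℝ) ≤ N := by
    intro κ
    rw [hNeq]
    exact_mod_cast len_le_card a n m p.ell ha hn3 hm3 κ
  have hnN : (n : ℝ) ≤ N := by simpa [len] using hlen false
  have hmN : (m : ℝ) ≤ N := by simpa [len] using hlen true
  have hN3 : (3 : ℝ) ≤ N := le_trans (by exact_mod_cast hn3) hnN
  have hN0 : 0 < N := by linarith
  have heN : 1 ≤ e * N := by
    have h1 : 1 / e ≤ (n : ℝ) := (Nat.le_ceil _).trans (by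
      exact_mod_cast ((le_max_left _ _).trans (le_max_right _ _)).trans hn)
    have h2 : 1 / e ≤ N := h1.trans hnN
    rw [div_le_iff₀ he0] at h2
    linarith
  have hN8 : 8 * a ≤ em * N := by
    have h1 : 8 * (a : ℝ) / em ≤ (n : ℝ) := (Nat.le_ceil _).trans (by
      exact_mod_cast ((le_max_right _ _).trans (le_max_right _ _)).trans hn)
    have h2 : 8 * (a : ℝ) / em ≤ N := h1.trans hnN
    rw [div_le_iff₀ hem0] at h2
    linarith
  -- labels
  set o : Bool → Bool := fun κ => decide (Odd (len n m κ)) with ho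
  choose lab hlab using fun κ => exists_lab (o κ) (T κ)
  have hof : o false = decide (Odd n) := by simp [ho, len]
  have hot : o true = decide (Odd m) := by simp [ho, len]
  set X : Bool → ℝ := fun κ => (1 + e) * len n m κ with hX
  have hXf : X false = (1 + e) * n := by simp [hX, len]
  have hXt : X true = (1 + e) * m := by simp [hX, len]
  set E : ℝ := e1 * N with hE
  set ecc : ℝ := ec (o false) (o true) with hecc
  have hecc1 : em ≤ ecc := hemle _ _
  have hmaxN : c * N ≤ max (X false) (X true) := by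
    have h1 := hn1 n m (((le_max_left _ _).trans (le_max_left _ _)).trans hn) (((le_max_left _ _).trans (le_max_left _ _)).trans hm)
    rw [← hNeq] at h1
    refine h1.trans (max_le_max ?_ ?_)
    · rw [hXf]; nlinarith [Nat.cast_nonneg (α := ℝ) n]
    · rw [hXt]; nlinarith [Nat.cast_nonneg (α := ℝ) m]
  have henv : Env (noneG (T false) (lab false)) (noneG (T true) (lab true)) M (X false) (X true) N ecc c := by
    refine ⟨le_rfl, ?_, ?_, ?_, ?_, ?_, ?_, ?_, ?_, hmaxN⟩
    · nlinarith
    · refine hT.mis.mono ?_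
      nlinarith
    · exact zle_noneG p n m a χ N δ e he0.le V0 T M hT false (lab false) (hlab false)
    · exact zle_noneG p n m a χ N δ e he0.le V0 T M hT true (lab true) (hlab true)
    · rw [hXf]
      have : (3 : ℝ) ≤ n := by exact_mod_cast hn3
      nlinarith
    · rw [hXt]
      have : (3 : ℝ) ≤ m := by exact_mod_cast hm3
      nlinarith
    · rw [hXf]
      have : (0 : ℝ) ≤ n := by positivity
      nlinarith
    · rw [hXt]
      have : (0 : ℝ) ≤ m := by positivity
      nlinarith
  have hU : a * ff (o false) (o true) (X false) (X true) - ecc * N ≤ V0.card := by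
    have h1 := card_num a n m p.ell e ecc N he0.le hele3 (by linarith) hNeq (hN8.trans (by nlinarith))
    rw [hXf, hXt, hof, hot]
    exact h1.trans hT.big
  obtain ⟨ι, _, cl, σ, Q, hout⟩ := hcore (o false) (o true) W _ _ M (X false) (X true) N (lab false) (lab true) V0 henv
    (lab_noneG o T lab hlab) (indLe_VV o T lab hlab M V0 a hT.ind) hU
  have hE10 : 10 * E ≤ e' * N := by
    have h1 : e1 ≤ e' / 10 := min_le_left _ _
    have h2 := mul_le_mul_of_nonneg_right h1 hN0.le
    linarith
  have hE1 : 1 ≤ E := heN.trans (mul_le_mul_of_nonneg_right hele2 hN0.le)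
  have hbig : 200 * (a + 1) * E ≤ max (X false) (X true) := by
    refine le_trans ?_ hmaxN
    have h1 : e1 ≤ c / (200 * (a + 1)) := min_le_right _ _
    rw [le_div_iff₀ (by positivity)] at h1
    have h2 := mul_le_mul_of_nonneg_right h1 hN0.le
    calc 200 * (a + 1) * E = e1 * (200 * (a + 1)) * N := by rw [hE]; ring
      _ ≤ c * N := h2
  have hsout := sout_of_out o T lab hlab M E hE1 (hT.mis.mono (mul_le_mul_of_nonneg_right hele2 hN0.le)) X a V0 hT.ind cl σ Q hout hbig
  exact ⟨ι, inferInstance, cl, Q, frame_of_sout p n m χ N δ e e' rfl (by linarith) hT hsout (fun _ => rfl) (fun _ => rfl) he0.le (by linarith) hE10 hlen⟩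

end Pool.Agent.Lib.MP_779bc2_co
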