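import Pool.Agent.Lib.MP_779bc2_co.H0Util

/-! Row H1Hall (about 170 lines): Hall decomposition -/

set_option autoImplicit false

namespace Pool.Agent.Lib.MP_779bc2_co

open Finset

variable {W : Type} [Fintype W] [DecidableEq W]

/-- Hall decomposition: `I` is independent, `nbs G I` is its neighbourhood; in every component `S`: `|S \ I| + |S ∩ nbs G I| ≤ x`, and `|S| > x` if `I` meets `S`. -/
structure Dec (G : SimpleGraph W) (x : ℝ) (I : Finset W) : Prop where
  ind : ∀ u ∈ I, ∀ w ∈ I, ¬ G.Adj u w
  bd : ∀ v, ((comp G v \ I).card : ℝ) + (comp G v ∩ nbs G I).card ≤ x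
  big : ∀ v, (comp G v ∩ I).Nonempty → x < (comp G v).card

/-- Hall's theorem with deficiency. Assume the contrary: `|A| ≤ |nbs A| + d` for all `A ⊆ S`, where `d = |S| - k - 1` (if `|S| ≤ k` take `A = ∅`). Hall's theorem (`Finset.all_card_le_biUnion_card_iff_exists_injective`) for the sets
`nbs {u} ⊔ Fin d` (in `W ⊕ Fin d`), `u ∈ S`, gives an injection; at least `|S| - d = k + 1` elements are mapped to `W`, to neighbours. Contradiction to `h`. -/
theorem hall_deficiency (G : SimpleGraph W) (S : Finset W) (k : ℕ)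
    (h : ∀ D ⊆ S, ∀ φ : W → W, Set.InjOn φ D → (∀ u ∈ D, G.Adj u (φ u)) → D.card ≤ k) :
    ∃ A ⊆ S, S.card + (nbs G A).card ≤ k + A.card := by
  classical
  by_contra hno
  push Not at hno
  have hk : k < S.card := by
    have h1 := hno ∅ (empty_subset _)
    have h2 : nbs G (∅ : Finset W) = ∅ := by
      rw [eq_empty_iff_forall_notMem]
      intro w hw
      rw [mem_nbs] at hw
      obtain ⟨u, hu, _⟩ := hw
      exact absurd hu (notMem_empty u)
    rw [h2, card_empty] at h1
    simpa using h1
  obtain ⟨d, hd⟩ : ∃ d, S.card = k + 1 + d := ⟨S.card - (k + 1), by omega⟩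
  let t : {u // u ∈ S} → Finset (W ⊕ Fin d) := fun u => (nbs G {u.1}).disjSum univ
  have hall : ∀ s : Finset {u // u ∈ S}, s.card ≤ (s.biUnion t).card := by
    intro s
    rcases s.eq_empty_or_nonempty with rfl | ⟨u0, hu0⟩
    · simp
    · have h1 := hno (s.image Subtype.val) (by
        intro w hw
        obtain ⟨u, _, rfl⟩ := mem_image.mp hw
        exact u.2)
      have h2 : (s.image Subtype.val).card = s.card := card_image_of_injective _ Subtype.val_injective
      have h3 : (nbs G (s.image Subtype.val)).disjSum (univ : Finset (Fin d)) ⊆ s.biUnion t := by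
        intro z hz
        rw [mem_biUnion]
        rcases z with z | z
        · rw [inl_mem_disjSum, mem_nbs] at hz
          obtain ⟨u, hu, huz⟩ := hz
          obtain ⟨u', hu', rfl⟩ := mem_image.mp hu
          exact ⟨u', hu', inl_mem_disjSum.mpr (mem_nbs.mpr ⟨u', mem_singleton_self _, huz⟩)⟩
        · exact ⟨u0, hu0, inr_mem_disjSum.mpr (mem_univ _)⟩
      have h4 := card_le_card h3
      rw [card_disjSum, card_univ, Fintype.card_fin] at h4
      rw [h2] at h1
      omega
  obtain ⟨f, hf, hft⟩ := (Finset.all_card_le_biUnion_card_iff_exists_injective t).mp hall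
  let D' : Finset {u // u ∈ S} := univ.filter (fun u => (f u).isLeft = true)
  let E' : Finset {u // u ∈ S} := univ.filter (fun u => ¬ (f u).isLeft = true)
  have hDE : D'.card + E'.card = S.card := by
    have h1 := card_filter_add_card_filter_not (s := (univ : Finset {u // u ∈ S}))
      (fun u => (f u).isLeft = true)
    rw [card_univ, Fintype.card_coe] at h1
    exact h1
  have hE : E'.card ≤ d := by
    have h1 : E'.image f ⊆ (univ : Finset (Fin d)).map Function.Embedding.inr := by
      intro z hz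
      obtain ⟨u, hu, rfl⟩ := mem_image.mp hz
      have h2 := (mem_filter.mp hu).2
      rw [mem_map]
      rcases hfu : f u with w | i
      · rw [hfu] at h2
        simp at h2
      · exact ⟨i, mem_univ _, rfl⟩
    have h2 := card_le_card h1
    rw [card_image_of_injective _ hf, card_map, card_univ, Fintype.card_fin] at h2
    exact h2
  let φ : W → W := fun w => if hw : w ∈ S then Sum.elim id (fun _ => w) (f ⟨w, hw⟩) else w
  have hφ : ∀ u ∈ D'.image Subtype.val, ∃ hu : u ∈ S, f ⟨u, hu⟩ = Sum.inl (φ u) := by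
    intro u hu
    obtain ⟨u', hu', rfl⟩ := mem_image.mp hu
    have h2 := (mem_filter.mp hu').2
    refine ⟨u'.2, ?_⟩
    rcases hfu : f u' with w | i
    · simp [φ, hfu]
    · rw [hfu] at h2
      simp at h2
  have hcon := h (D'.image Subtype.val) (by
      intro w hw
      obtain ⟨u, _, rfl⟩ := mem_image.mp hw
      exact u.2) φ (by
      intro u hu w hw huw
      obtain ⟨hu1, hu2⟩ := hφ u (mem_coe.mp hu)
      obtain ⟨hw1, hw2⟩ := hφ w (mem_coe.mp hw)
      rw [huw, ← hw2] at hu2
      have := hf hu2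
      exact congrArg Subtype.val this) (by
      intro u hu
      obtain ⟨hu1, hu2⟩ := hφ u hu
      have h1 := hft ⟨u, hu1⟩
      rw [hu2] at h1
      have h2 := inl_mem_disjSum.mp h1
      obtain ⟨z, hz1, hz2⟩ := mem_nbs.mp h2
      rw [mem_singleton] at hz1
      rw [hz1] at hz2
      exact hz2)
  rw [card_image_of_injective _ Subtype.val_injective] at hcon
  omega

/-- the piece of the Hall decomposition in one component -/
theorem h1_piece (G : SimpleGraph W) (x : ℝ) (hx : 1 ≤ x) (h : ZLe G x) (v : W) :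
    ∃ J ⊆ comp G v, (∀ u ∈ J, ∀ w ∈ J, ¬ G.Adj u w) ∧
      ((comp G v \ J).card : ℝ) + (nbs G J).card ≤ x ∧ (J.Nonempty → x < (comp G v).card) := by
  rcases le_or_gt ((comp G v).card : ℝ) x with hle | hlt
  · refine ⟨∅, empty_subset _, fun u hu => absurd hu (notMem_empty u), ?_,
      fun hne => absurd hne not_nonempty_empty⟩
    have h2 : nbs G (∅ : Finset W) = ∅ := by
      rw [eq_empty_iff_forall_notMem]
      intro w hw
      rw [mem_nbs] at hw
      obtain ⟨u, hu, _⟩ := hw
      exact absurd hu (notMem_empty u)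
    rw [h2]
    simpa using hle
  · obtain ⟨A, hA, hcard⟩ := hall_deficiency G (comp G v) ⌊x⌋₊ (by
      intro D hD φ hinj hadj
      apply Nat.le_floor
      refine h D φ hinj hadj ?_
      intro u hu w hw
      exact (mem_comp.mp (hD hu)).symm.trans (mem_comp.mp (hD hw)))
    refine ⟨A \ nbs G A, fun w hw => hA (mem_sdiff.mp hw).1, ?_, ?_, fun _ => hlt⟩
    · intro u hu w hw huw
      exact (mem_sdiff.mp hw).2 (mem_nbs.mpr ⟨u, (mem_sdiff.mp hu).1, huw⟩)
    · have h1 : nbs G (A \ nbs G A) ⊆ nbs G A \ A := by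
        intro w hw
        obtain ⟨u, hu, huw⟩ := mem_nbs.mp hw
        rw [mem_sdiff] at hu ⊢
        exact ⟨mem_nbs.mpr ⟨u, hu.1, huw⟩, fun hwA => hu.2 (mem_nbs.mpr ⟨w, hwA, huw.symm⟩)⟩
      have h2 := card_le_card h1
      have h3 := card_sdiff_add_card_inter A (nbs G A)
      have h4 := card_sdiff_add_card_inter (nbs G A) A
      rw [inter_comm] at h4
      have h5 : (comp G v \ (A \ nbs G A)).card + (A \ nbs G A).card = (comp G v).card :=
        card_sdiff_add_card_eq_card (fun w hw => hA (mem_sdiff.mp hw).1)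
      have h6 : (comp G v \ (A \ nbs G A)).card + (nbs G (A \ nbs G A)).card ≤ ⌊x⌋₊ := by omega
      have h7 : ((⌊x⌋₊ : ℕ) : ℝ) ≤ x := Nat.floor_le (by linarith)
      have h8 : (((comp G v \ (A \ nbs G A)).card + (nbs G (A \ nbs G A)).card : ℕ) : ℝ) ≤ (⌊x⌋₊ : ℕ) := by
        exact_mod_cast h6
      push_cast at h8
      linarith

/-- In every component `S` with `|S| > x` take `A` from `hall_deficiency` with `k = ⌊x⌋` and `I_S = A \ nbs A`; then `nbs I_S ⊆ nbs A \ A`, `nbs A ⊆ S`, so `|S \ I_S| + |nbs I_S| ≤ |S| - |A| + |A ∩ nbs A| + |nbs A \ A| ≤ x`.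
In the components with `|S| ≤ x` take `I_S = ∅`. `I` is the union of the `I_S` (choose a set for every connected component); `comp G v ∩ nbs G I = nbs G (I ∩ comp G v)`. -/
theorem hall_decomp (G : SimpleGraph W) (x : ℝ) (hx : 1 ≤ x) (h : ZLe G x) : ∃ I, Dec G x I := by
  classical
  choose J hJ1 hJ2 hJ3 hJ4 using h1_piece G x hx h
  let r : W → W := fun v => Quot.out (G.connectedComponentMk v)
  have hr : ∀ v, G.Reachable v (r v) := by
    intro v
    have h1 : G.connectedComponentMk (r v) = G.connectedComponentMk v := Quot.out_eq _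
    exact (SimpleGraph.ConnectedComponent.exact h1).symm
  have hr2 : ∀ v w, G.Reachable v w → r v = r w := by
    intro v w hvw
    simp only [r]
    rw [SimpleGraph.ConnectedComponent.sound hvw]
  have hc : ∀ v, comp G (r v) = comp G v := by
    intro v
    ext w
    rw [mem_comp, mem_comp]
    exact ⟨fun h1 => (hr v).trans h1, fun h1 => (hr v).symm.trans h1⟩
  let I : Finset W := univ.filter (fun w => w ∈ J (r w))
  have hI : ∀ v w, w ∈ comp G v → (w ∈ I ↔ w ∈ J (r v)) := by
    intro v w hw
    have h1 := hr2 v w (mem_comp.mp hw)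
    simp only [I, mem_filter, mem_univ, true_and]
    rw [h1]
  have e1 : ∀ v, comp G v \ I = comp G (r v) \ J (r v) := by
    intro v
    rw [hc]
    ext w
    simp only [mem_sdiff]
    constructor
    · rintro ⟨a, b⟩
      exact ⟨a, fun c => b ((hI v w a).mpr c)⟩
    · rintro ⟨a, b⟩
      exact ⟨a, fun c => b ((hI v w a).mp c)⟩
  have e2 : ∀ v, comp G v ∩ nbs G I = nbs G (J (r v)) := by
    intro v
    ext w
    rw [mem_inter, mem_nbs, mem_nbs]
    constructor
    · rintro ⟨a, u, hu, huw⟩
      have hu' : u ∈ comp G v := mem_comp.mpr ((mem_comp.mp a).trans huw.symm.reachable)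
      exact ⟨u, (hI v u hu').mp hu, huw⟩
    · rintro ⟨u, hu, huw⟩
      have hu' : u ∈ comp G v := by
        rw [← hc]
        exact hJ1 _ hu
      exact ⟨mem_comp.mpr ((mem_comp.mp hu').trans huw.reachable), u, (hI v u hu').mpr hu, huw⟩
  refine ⟨I, ?_, ?_, ?_⟩
  · intro u hu w hw huw
    have hu' := (hI u u (mem_comp.mpr (SimpleGraph.Reachable.refl u))).mp hu
    have hw' := (hI u w (mem_comp.mpr huw.reachable)).mp hw
    exact hJ2 _ u hu' w hw' huw
  · intro v
    rw [e1, e2]
    exact hJ3 (r v)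
  · rintro v ⟨w, hw⟩
    rw [mem_inter] at hw
    have h1 := hJ4 (r v) ⟨w, (hI v w hw.1).mp hw.2⟩
    rwa [hc] at h1

end Pool.Agent.Lib.MP_779bc2_co
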