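import Pool.Agent.Lib.MP_779bc2_co.H1Hall

/-! Row H2Dec (about 130 lines): consequences of a Hall decomposition -/

set_option autoImplicit false

namespace Pool.Agent.Lib.MP_779bc2_co

open Finset

variable {W : Type} [Fintype W] [DecidableEq W]

/-- From `bd` and `big`: `|S| = |S \ I| + |S ∩ I|`; if `S ∩ I = ∅` then also `S ∩ nbs G I = ∅`. -/
theorem Dec.lt {G : SimpleGraph W} {x : ℝ} {I : Finset W} (h : Dec G x I) (v : W) (hv : (comp G v ∩ I).Nonempty) :
    (comp G v ∩ nbs G I).card < (comp G v ∩ I).card := by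
  have h1 := h.bd v
  have h2 := h.big v hv
  have h3 : ((comp G v).card : ℝ) = (comp G v \ I).card + (comp G v ∩ I).card := by
    rw [← card_sdiff_add_card_inter (comp G v) I]
    push_cast
    ring
  have h4 : ((comp G v ∩ nbs G I).card : ℝ) < (comp G v ∩ I).card := by linarith
  exact_mod_cast h4

theorem Dec.le {G : SimpleGraph W} {x : ℝ} {I : Finset W} (h : Dec G x I) (v : W) :
    (comp G v ∩ nbs G I).card ≤ (comp G v ∩ I).card := by
  by_cases hv : (comp G v ∩ I).Nonempty
  · exact (h.lt v hv).le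
  · have h0 : comp G v ∩ nbs G I = ∅ := by
      rw [eq_empty_iff_forall_notMem]
      intro w hw
      rw [mem_inter, mem_comp, mem_nbs] at hw
      obtain ⟨hw1, u, hu, huw⟩ := hw
      refine hv ⟨u, mem_inter.mpr ⟨mem_comp.mpr ?_, hu⟩⟩
      exact hw1.trans huw.symm.reachable
    rw [h0]
    simp

/-- the inequality for unions of components -/
theorem Dec.h2_closed {G : SimpleGraph W} {x : ℝ} {I : Finset W} (h : Dec G x I) (A : Finset W) :
    (∀ u ∈ A, ∀ w, G.Reachable u w → w ∈ A) → (A ∩ nbs G I).card ≤ (A ∩ I).card := by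
  induction A using Finset.strongInduction with
  | _ A ih =>
    intro hA
    rcases A.eq_empty_or_nonempty with rfl | ⟨v, hv⟩
    · simp
    · have hsub : comp G v ⊆ A := fun w hw => hA v hv w (mem_comp.mp hw)
      have hvc : v ∈ comp G v := mem_comp.mpr (SimpleGraph.Reachable.refl v)
      have hss : A \ comp G v ⊂ A := by
        refine ⟨sdiff_subset, fun hle => ?_⟩
        exact (mem_sdiff.mp (hle hv)).2 hvc
      have h1 := ih _ hss (by
        intro u hu w huw
        rw [mem_sdiff] at hu ⊢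
        refine ⟨hA u hu.1 w huw, fun hw => hu.2 ?_⟩
        exact mem_comp.mpr ((mem_comp.mp hw).trans huw.symm))
      have h2 := h.le v
      have key : ∀ X : Finset W, (A ∩ X).card = (comp G v ∩ X).card + ((A \ comp G v) ∩ X).card := by
        intro X
        rw [← card_union_of_disjoint]
        · congr 1
          ext w
          simp only [mem_inter, mem_union, mem_sdiff]
          constructor
          · rintro ⟨a, b⟩
            by_cases hc : w ∈ comp G v
            · exact Or.inl ⟨hc, b⟩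
            · exact Or.inr ⟨⟨a, hc⟩, b⟩
          · rintro (⟨a, b⟩ | ⟨⟨a, _⟩, b⟩)
            · exact ⟨hsub a, b⟩
            · exact ⟨a, b⟩
        · rw [disjoint_left]
          intro w hw1 hw2
          rw [mem_inter] at hw1 hw2
          exact (mem_sdiff.mp hw2.1).2 hw1.1
      rw [key, key I]
      omega

/-- Sum of `Dec.le` over the components; for every component `S` the other components contribute at least `0`, so `|S ∩ I| - |S ∩ nbs I| ≤ |I| - |nbs I|`. -/
theorem Dec.diff_le {G : SimpleGraph W} {x : ℝ} {I : Finset W} (h : Dec G x I) (v : W) :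
    (comp G v ∩ I).card + (nbs G I).card ≤ I.card + (comp G v ∩ nbs G I).card := by
  have h1 := h.h2_closed (univ \ comp G v) (by
    intro u hu w huw
    rw [mem_sdiff] at hu ⊢
    refine ⟨mem_univ _, fun hw => hu.2 ?_⟩
    exact mem_comp.mpr ((mem_comp.mp hw).trans huw.symm))
  have key : ∀ X : Finset W, X.card = (comp G v ∩ X).card + ((univ \ comp G v) ∩ X).card := by
    intro X
    rw [← card_union_of_disjoint]
    · congr 1
      ext w
      simp only [mem_inter, mem_union, mem_sdiff, mem_univ, true_and]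
      tauto
    · rw [disjoint_left]
      intro w hw1 hw2
      rw [mem_inter] at hw1 hw2
      exact (mem_sdiff.mp hw2.1).2 hw1.1
  have e1 := key I
  have e2 := key (nbs G I)
  omega

theorem Dec.card_le {G : SimpleGraph W} {x : ℝ} {I : Finset W} (h : Dec G x I) : (nbs G I).card ≤ I.card := by
  have h1 := h.h2_closed univ (fun _ _ w _ => mem_univ w)
  simpa using h1

/-- strict version -/
theorem Dec.card_lt {G : SimpleGraph W} {x : ℝ} {I : Finset W} (h : Dec G x I) (hI : I.Nonempty) :
    (nbs G I).card < I.card := by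
  obtain ⟨v, hv⟩ := hI
  have h1 := h.diff_le v
  have h2 := h.lt v ⟨v, mem_inter.mpr ⟨mem_comp.mpr (SimpleGraph.Reachable.refl v), hv⟩⟩
  omega

/-- `v ∈ I`: the neighbours of `v` lie in `S ∩ nbs I ⊆ S \ I` (`I` is independent), so `2 |N(v)| ≤ |S \ I| + |S ∩ nbs I| ≤ x`. -/
theorem Dec.nb_ind {G : SimpleGraph W} {x : ℝ} {I : Finset W} (h : Dec G x I) {v : W} (hv : v ∈ I) (U : Finset W) :
    ((nb G v U).card : ℝ) ≤ x / 2 := by
  have h1 := h.bd v
  have h2 : nb G v U ⊆ comp G v ∩ nbs G I := by
    intro w hw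
    rw [mem_nb] at hw
    exact mem_inter.mpr ⟨mem_comp.mpr hw.2.reachable, mem_nbs.mpr ⟨v, hv, hw.2⟩⟩
  have h3 : nb G v U ⊆ comp G v \ I := by
    intro w hw
    rw [mem_nb] at hw
    exact mem_sdiff.mpr ⟨mem_comp.mpr hw.2.reachable, fun hwI => h.ind v hv w hwI hw.2⟩
  have h2' : ((nb G v U).card : ℝ) ≤ (comp G v ∩ nbs G I).card := by exact_mod_cast card_le_card h2
  have h3' : ((nb G v U).card : ℝ) ≤ (comp G v \ I).card := by exact_mod_cast card_le_card h3
  linarith

/-- `v ∉ I`, `v ∉ nbs I`: `v` and its neighbours lie in `S \ I`. -/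
theorem Dec.nb_rest {G : SimpleGraph W} {x : ℝ} {I : Finset W} (h : Dec G x I) {v : W} (hv : v ∉ I) (hv' : v ∉ nbs G I)
    (U : Finset W) : ((insert v (nb G v U)).card : ℝ) ≤ x := by
  have h1 := h.bd v
  have h3 : insert v (nb G v U) ⊆ comp G v \ I := by
    intro w hw
    rcases mem_insert.mp hw with rfl | hw
    · exact mem_sdiff.mpr ⟨mem_comp.mpr (SimpleGraph.Reachable.refl _), hv⟩
    · rw [mem_nb] at hw
      refine mem_sdiff.mpr ⟨mem_comp.mpr hw.2.reachable, fun hwI => hv' ?_⟩
      exact mem_nbs.mpr ⟨w, hwI, hw.2.symm⟩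
  have h3' : ((insert v (nb G v U)).card : ℝ) ≤ (comp G v \ I).card := by exact_mod_cast card_le_card h3
  have h4 : (0 : ℝ) ≤ (comp G v ∩ nbs G I).card := Nat.cast_nonneg _
  linarith

/-- elements of `I` are not isolated in `G` if `1 ≤ x` (their component has more than `x` elements) -/
theorem Dec.not_isolated {G : SimpleGraph W} {x : ℝ} {I : Finset W} (h : Dec G x I) (hx : 1 ≤ x) {v : W} (hv : v ∈ I) :
    ∃ w, G.Adj v w := by
  have hvc : v ∈ comp G v := mem_comp.mpr (SimpleGraph.Reachable.refl v)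
  have h1 := h.big v ⟨v, mem_inter.mpr ⟨hvc, hv⟩⟩
  have h2 : (1 : ℝ) < (comp G v).card := lt_of_le_of_lt hx h1
  have h3 : 1 < (comp G v).card := by exact_mod_cast h2
  obtain ⟨w, hw, hne⟩ := exists_mem_ne h3 v
  rw [mem_comp] at hw
  obtain ⟨p⟩ := hw
  cases p with
  | nil => exact absurd rfl hne
  | cons hadj _ => exact ⟨_, hadj⟩

end Pool.Agent.Lib.MP_779bc2_co
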