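import Pool.Agent.Lib.MP_779bc2_co.H0Util

/-! Row H4Koenig (about 130 lines): König's theorem for a finite set with two labellings -/

set_option autoImplicit false

namespace Pool.Agent.Lib.MP_779bc2_co

open Finset

/-- one half of the matching, from Hall's theorem and the minimality of the cover -/
theorem h4_half {W L1 L2 : Type} [DecidableEq W] [DecidableEq L1] [DecidableEq L2] (ρ : W → L1) (β : W → L2)
    (U : Finset W) (A : Finset L1) (B : Finset L2) (hcov : ∀ v ∈ U, ρ v ∈ A ∨ β v ∈ B)
    (hmin : ∀ (A' : Finset L1) (B' : Finset L2), (∀ v ∈ U, ρ v ∈ A' ∨ β v ∈ B') →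
      A.card + B.card ≤ A'.card + B'.card) :
    ∃ v : {l // l ∈ A} → W, (∀ l, v l ∈ U ∧ ρ (v l) = l.1 ∧ β (v l) ∉ B) ∧
      Function.Injective (fun l => β (v l)) := by
  classical
  let t : {l // l ∈ A} → Finset L2 := fun l => (U.filter (fun v => ρ v = l.1 ∧ β v ∉ B)).image β
  have hall : ∀ s : Finset {l // l ∈ A}, s.card ≤ (s.biUnion t).card := by
    intro s
    have h1 := hmin (A \ s.image Subtype.val) (B ∪ s.biUnion t) (by
      intro v hv
      by_cases hB : β v ∈ B
      · exact Or.inr (mem_union_left _ hB)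
      · have hA : ρ v ∈ A := (hcov v hv).resolve_right hB
        by_cases hs : ρ v ∈ s.image Subtype.val
        · right
          apply mem_union_right
          obtain ⟨l, hl, hlv⟩ := mem_image.mp hs
          exact mem_biUnion.mpr ⟨l, hl, mem_image_of_mem β (mem_filter.mpr ⟨hv, hlv.symm, hB⟩)⟩
        · exact Or.inl (mem_sdiff.mpr ⟨hA, hs⟩))
    have h2 : (s.image Subtype.val).card = s.card := card_image_of_injective _ Subtype.val_injective
    have h3 : (A \ s.image Subtype.val).card + (s.image Subtype.val).card = A.card :=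
      card_sdiff_add_card_eq_card (fun w hw => by
        obtain ⟨u, _, rfl⟩ := mem_image.mp hw
        exact u.2)
    have h4 := card_union_le B (s.biUnion t)
    omega
  obtain ⟨f, hf, hft⟩ := (Finset.all_card_le_biUnion_card_iff_exists_injective t).mp hall
  have hex : ∀ l, ∃ v, v ∈ U ∧ ρ v = l.1 ∧ β v ∉ B ∧ β v = f l := by
    intro l
    obtain ⟨v, hv, hvf⟩ := mem_image.mp (hft l)
    rw [mem_filter] at hv
    exact ⟨v, hv.1, hv.2.1, hv.2.2, hvf⟩
  choose v hv1 hv2 hv3 hv4 using hex
  refine ⟨v, fun l => ⟨hv1 l, hv2 l, hv3 l⟩, ?_⟩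
  intro l l' hll
  have h1 : β (v l) = β (v l') := hll
  rw [hv4, hv4] at h1
  exact hf h1

/-- König's theorem: the elements of `U` are the edges of a bipartite multigraph (`u` joins `ρ u` and `β u`). If it has no matching with more than `a` edges then it has a vertex cover with at most `a` vertices.
Proof by Hall's theorem, e.g.: let `A` be a minimal (cardinality) vertex cover `A1 ∪ B1` (`A1` labels `ρ`, `B1` labels `β`). By minimality and Hall's theorem there is a matching of `A1` into the labels `β` not in `B1` and a matching of `B1` into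
the labels `ρ` not in `A1`; together they are a matching with `|A1| + |B1|` edges. -/
theorem koenig_labels {W L1 L2 : Type} [DecidableEq W] [DecidableEq L1] [DecidableEq L2] (ρ : W → L1) (β : W → L2) (U : Finset W) (a : ℕ)
    (h : ∀ T ⊆ U, a < T.card → ∃ u ∈ T, ∃ w ∈ T, u ≠ w ∧ (ρ u = ρ w ∨ β u = β w)) :
    ∃ (A : Finset L1) (B : Finset L2), A.card + B.card ≤ a ∧ ∀ v ∈ U, ρ v ∈ A ∨ β v ∈ B := by
  classical
  have hex : ∃ k, ∃ (A : Finset L1) (B : Finset L2), A.card + B.card = k ∧ ∀ v ∈ U, ρ v ∈ A ∨ β v ∈ B :=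
    ⟨_, U.image ρ, ∅, rfl, fun v hv => Or.inl (mem_image_of_mem ρ hv)⟩
  obtain ⟨A, B, hAB, hcov⟩ := Nat.find_spec hex
  have hmin : ∀ (A' : Finset L1) (B' : Finset L2), (∀ v ∈ U, ρ v ∈ A' ∨ β v ∈ B') →
      A.card + B.card ≤ A'.card + B'.card := by
    intro A' B' h'
    rw [hAB]
    exact Nat.find_min' hex ⟨A', B', rfl, h'⟩
  obtain ⟨v, hv, hvi⟩ := h4_half ρ β U A B hcov hmin
  obtain ⟨w, hw, hwi⟩ := h4_half β ρ U B A (fun u hu => (hcov u hu).symm) (fun B' A' h' => by
    have := hmin A' B' (fun u hu => (h' u hu).symm)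
    omega)
  have hvinj : Function.Injective v := fun l l' hl => hvi (by simp only [hl])
  have hwinj : Function.Injective w := fun l l' hl => hwi (by simp only [hl])
  have hdisj : Disjoint (univ.image v) (univ.image w) := by
    rw [disjoint_left]
    intro z hz1 hz2
    obtain ⟨l, _, rfl⟩ := mem_image.mp hz1
    obtain ⟨m, _, hm⟩ := mem_image.mp hz2
    have h1 := (hw m).2.2
    rw [hm, (hv l).2.1] at h1
    exact h1 l.2
  have hcard : (univ.image v ∪ univ.image w).card = A.card + B.card := by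
    rw [card_union_of_disjoint hdisj, card_image_of_injective _ hvinj, card_image_of_injective _ hwinj,
      card_univ, card_univ, Fintype.card_coe, Fintype.card_coe]
  refine ⟨A, B, ?_, hcov⟩
  by_contra hlt
  push Not at hlt
  obtain ⟨x, hx, y, hy, hne, hxy⟩ := h (univ.image v ∪ univ.image w) (by
    intro z hz
    rcases mem_union.mp hz with hz | hz
    · obtain ⟨l, _, rfl⟩ := mem_image.mp hz
      exact (hv l).1
    · obtain ⟨m, _, rfl⟩ := mem_image.mp hz
      exact (hw m).1) (by rw [hcard]; exact hlt)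
  rcases mem_union.mp hx with hx | hx <;> rcases mem_union.mp hy with hy | hy
  · obtain ⟨l, _, rfl⟩ := mem_image.mp hx
    obtain ⟨m, _, rfl⟩ := mem_image.mp hy
    rcases hxy with hxy | hxy
    · rw [(hv l).2.1, (hv m).2.1] at hxy
      exact hne (congrArg v (Subtype.ext hxy))
    · exact hne (congrArg v (hvi hxy))
  · obtain ⟨l, _, rfl⟩ := mem_image.mp hx
    obtain ⟨m, _, rfl⟩ := mem_image.mp hy
    rcases hxy with hxy | hxy
    · rw [(hv l).2.1] at hxy
      exact (hw m).2.2 (hxy ▸ l.2)
    · rw [(hw m).2.1] at hxy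
      exact (hv l).2.2 (hxy.symm ▸ m.2)
  · obtain ⟨l, _, rfl⟩ := mem_image.mp hx
    obtain ⟨m, _, rfl⟩ := mem_image.mp hy
    rcases hxy with hxy | hxy
    · rw [(hv m).2.1] at hxy
      exact (hw l).2.2 (hxy.symm ▸ m.2)
    · rw [(hw l).2.1] at hxy
      exact (hv m).2.2 (hxy ▸ l.2)
  · obtain ⟨l, _, rfl⟩ := mem_image.mp hx
    obtain ⟨m, _, rfl⟩ := mem_image.mp hy
    rcases hxy with hxy | hxy
    · exact hne (congrArg w (hwi hxy))
    · rw [(hw l).2.1, (hw m).2.1] at hxy
      exact hne (congrArg w (Subtype.ext hxy))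

end Pool.Agent.Lib.MP_779bc2_co
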