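import Pool.Agent.Lib.MP_779bc2_co.H0Util

/-! Row H6Match (about 200 lines): near-cliques, matchings, (U1) -/

set_option autoImplicit false

namespace Pool.Agent.Lib.MP_779bc2_co

open Finset

variable {W : Type} [Fintype W] [DecidableEq W]

theorem h6_inv (D : Finset W) (ψ : W → W) (hinj : Set.InjOn ψ D) : ∃ inv : W → W, ∀ d ∈ D, inv (ψ d) = d := by
  classical
  refine ⟨fun w => if h : ∃ d ∈ D, ψ d = w then h.choose else w, fun d hd => ?_⟩
  have h : ∃ d' ∈ D, ψ d' = ψ d := ⟨d, hd, rfl⟩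
  have e : (fun w => if h : ∃ d ∈ D, ψ d = w then h.choose else w) (ψ d) = h.choose := dif_pos h
  rw [e]
  exact hinj h.choose_spec.1 hd h.choose_spec.2

/-- Hall's theorem for maps along edges -/
theorem h6_hall (G : SimpleGraph W) (D Q : Finset W)
    (h : ∀ A ⊆ D, A.card ≤ (Q ∩ nbs G A).card) :
    ∃ ψ : W → W, Set.InjOn ψ D ∧ ∀ d ∈ D, ψ d ∈ Q ∧ G.Adj d (ψ d) := by
  classical
  obtain ⟨f, hf, hf2⟩ := (Finset.all_card_le_biUnion_card_iff_exists_injective
    (fun d : {w // w ∈ D} => nb G d.1 Q)).1 (by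
      intro A
      have hA : A.card = (A.image Subtype.val).card := (card_image_of_injective _ Subtype.val_injective).symm
      rw [hA]
      refine (h _ ?_).trans (card_le_card ?_)
      · intro w hw
        obtain ⟨d, -, rfl⟩ := mem_image.1 hw
        exact d.2
      · intro w hw
        rw [mem_inter, mem_nbs] at hw
        obtain ⟨hwQ, u, hu, huw⟩ := hw
        obtain ⟨d, hd, rfl⟩ := mem_image.1 hu
        exact mem_biUnion.2 ⟨d, hd, mem_nb.2 ⟨hwQ, huw⟩⟩)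
  refine ⟨fun w => if hw : w ∈ D then f ⟨w, hw⟩ else w, ?_, ?_⟩
  · intro a ha b hb hab
    rw [mem_coe] at ha hb
    simp only [dif_pos ha, dif_pos hb] at hab
    have := hf hab
    exact congrArg Subtype.val this
  · intro d hd
    simp only [dif_pos hd]
    exact mem_nb.1 (hf2 ⟨d, hd⟩)

/-- Hall: every nonempty `A ⊆ Q` has at least `|Q| - r` neighbours in `Q`, and all of `Q` if `|A| > r`. -/
theorem self_map (G : SimpleGraph W) (Q : Finset W) (r : ℝ) (hnear : ∀ q ∈ Q, ((nn G q Q).card : ℝ) ≤ r)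
    (hbig : 2 * r < Q.card) : ∃ φ : W → W, Set.InjOn φ Q ∧ ∀ q ∈ Q, φ q ∈ Q ∧ G.Adj q (φ q) := by
  refine h6_hall G Q Q fun A hA => ?_
  rcases A.eq_empty_or_nonempty with rfl | ⟨a, ha⟩
  · simp
  rcases le_or_gt ((A.card : ℝ)) r with h | h
  · have h1 : ((nb G a Q).card : ℝ) + (nn G a Q).card = Q.card := by exact_mod_cast nb_add_nn G a Q
    have h2 := hnear a (hA ha)
    have h3 : (nb G a Q).card ≤ (Q ∩ nbs G A).card := by
      refine card_le_card fun w hw => ?_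
      rw [mem_nb] at hw
      exact mem_inter.2 ⟨hw.1, mem_nbs.2 ⟨a, ha, hw.2⟩⟩
    have h4 : ((nb G a Q).card : ℝ) ≤ (Q ∩ nbs G A).card := by exact_mod_cast h3
    have : (A.card : ℝ) ≤ (Q ∩ nbs G A).card := by linarith
    exact_mod_cast this
  · refine (card_le_card hA).trans (card_le_card fun w hw => ?_)
    refine mem_inter.2 ⟨hw, mem_nbs.2 ?_⟩
    by_contra hno
    push Not at hno
    have hsub : A ⊆ nn G w Q := fun u hu => mem_nn.2 ⟨hA hu, fun hadj => hno u hu hadj.symm⟩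
    have h1 : (A.card : ℝ) ≤ (nn G w Q).card := by exact_mod_cast card_le_card hsub
    linarith [hnear w hw]

/-- two elements of a near-clique have a common neighbour -/
theorem near_reach (G : SimpleGraph W) (Q : Finset W) (r : ℝ) (hnear : ∀ q ∈ Q, ((nn G q Q).card : ℝ) ≤ r)
    (hbig : 2 * r < Q.card) : ∀ q ∈ Q, ∀ q' ∈ Q, G.Reachable q q' := by
  classical
  intro q hq q' hq'
  have hex : ∃ w ∈ Q, G.Adj q w ∧ G.Adj q' w := by
    by_contra hno
    push Not at hno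
    have hsub : Q ⊆ nn G q Q ∪ nn G q' Q := by
      intro w hw
      rw [mem_union, mem_nn, mem_nn]
      by_cases h : G.Adj q w
      · exact Or.inr ⟨hw, hno w hw h⟩
      · exact Or.inl ⟨hw, h⟩
    have h1 : (Q.card : ℝ) ≤ (nn G q Q).card + (nn G q' Q).card := by
      exact_mod_cast (card_le_card hsub).trans (card_union_le _ _)
    linarith [hnear q hq, hnear q' hq']
  obtain ⟨w, -, h1, h2⟩ := hex
  exact h1.reachable.trans h2.symm.reachable

/-- greedy (or Hall) -/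
theorem match_into (G : SimpleGraph W) (D Q : Finset W) (h : ∀ d ∈ D, D.card ≤ (nb G d Q).card) :
    ∃ ψ : W → W, Set.InjOn ψ D ∧ ∀ d ∈ D, ψ d ∈ Q ∧ G.Adj d (ψ d) := by
  refine h6_hall G D Q fun A hA => ?_
  rcases A.eq_empty_or_nonempty with rfl | ⟨a, ha⟩
  · simp
  refine (card_le_card hA).trans ((h a (hA ha)).trans (card_le_card fun w hw => ?_))
  rw [mem_nb] at hw
  exact mem_inter.2 ⟨hw.1, mem_nbs.2 ⟨a, ha, hw.2⟩⟩

/-- A near-clique with more than `2r` elements has at most `x` elements (`self_map`, `near_reach`). -/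
theorem near_card_le (G : SimpleGraph W) (x : ℝ) (zG : ZLe G x) (Q : Finset W) (r : ℝ)
    (hnear : ∀ q ∈ Q, ((nn G q Q).card : ℝ) ≤ r) (hbig : 2 * r < Q.card) : (Q.card : ℝ) ≤ x := by
  obtain ⟨φ, hφ, hφ2⟩ := self_map G Q r hnear hbig
  exact zG Q φ hφ (fun q hq => (hφ2 q hq).2) (near_reach G Q r hnear hbig)

open Classical in
/-- (U1) Otherwise take a set `D` of `⌊r⌋ + 1` such vertices, match it into `Q` by `ψ` (`match_into`), let `Q1 = Q \ ψ(D)` (`|Q1| > 2r`, non-degrees at most `r`), `φ1` the `self_map` of `Q1`. The map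
`φ = ψ` on `D`, `ψ⁻¹` on `ψ(D)`, `φ1` on `Q1` is injective on `D ∪ Q`, along edges, in one component, and `|D ∪ Q| > x`. -/
theorem U1 (G : SimpleGraph W) (x : ℝ) (zG : ZLe G x) (Q : Finset W) (r : ℝ) (hr : 1 ≤ r) (hcard : x - r ≤ Q.card)
    (hnear : ∀ q ∈ Q, ((nn G q Q).card : ℝ) ≤ r) (hbig : 6 * r + 6 ≤ Q.card) :
    ((univ.filter (fun v => v ∉ Q ∧ 2 * r + 2 ≤ ((nb G v Q).card : ℝ))).card : ℝ) ≤ r + 1 := by
  by_contra hcon
  push Not at hcon
  set S := univ.filter (fun v => v ∉ Q ∧ 2 * r + 2 ≤ ((nb G v Q).card : ℝ)) with hS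
  have hr0 : 0 ≤ r := by linarith
  have hk1 : ((⌊r⌋₊ + 1 : ℕ) : ℝ) ≤ r + 1 := by
    push_cast
    linarith [Nat.floor_le hr0]
  have hk2 : r < ((⌊r⌋₊ + 1 : ℕ) : ℝ) := by
    push_cast
    exact Nat.lt_floor_add_one _
  have hkS : ⌊r⌋₊ + 1 ≤ S.card := by
    have : ((⌊r⌋₊ + 1 : ℕ) : ℝ) ≤ (S.card : ℝ) := by linarith
    exact_mod_cast this
  obtain ⟨D, hDS, hDcard⟩ := exists_subset_card_eq hkS
  have hDc : (D.card : ℝ) ≤ r + 1 := by rw [hDcard]; exact hk1
  have hDc2 : r < (D.card : ℝ) := by rw [hDcard]; exact hk2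
  have hD : ∀ d ∈ D, d ∉ Q ∧ 2 * r + 2 ≤ ((nb G d Q).card : ℝ) := fun d hd => (mem_filter.1 (hDS hd)).2
  obtain ⟨ψ, hψinj, hψ⟩ := match_into G D Q (by
    intro d hd
    have h2 := (hD d hd).2
    have : (D.card : ℝ) ≤ ((nb G d Q).card : ℝ) := by linarith
    exact_mod_cast this)
  have hPsub : D.image ψ ⊆ Q := by
    intro w hw
    obtain ⟨d, hd, rfl⟩ := mem_image.1 hw
    exact (hψ d hd).1
  set Q1 := Q \ D.image ψ with hQ1
  have hQ1card : (Q1.card : ℝ) + D.card = Q.card := by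
    have h1 := card_sdiff_add_card_eq_card hPsub
    rw [card_image_of_injOn hψinj] at h1
    exact_mod_cast h1
  have hnear1 : ∀ q ∈ Q1, ((nn G q Q1).card : ℝ) ≤ r := by
    intro q hq
    refine le_trans ?_ (hnear q (mem_sdiff.1 hq).1)
    have : nn G q Q1 ⊆ nn G q Q := by
      intro w hw
      rw [mem_nn] at hw ⊢
      exact ⟨(mem_sdiff.1 hw.1).1, hw.2⟩
    exact_mod_cast card_le_card this
  obtain ⟨φ1, hφ1inj, hφ1⟩ := self_map G Q1 r hnear1 (by linarith)
  obtain ⟨inv, hinv⟩ := h6_inv D ψ hψinj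
  let φ : W → W := fun w => if w ∈ D then ψ w else if w ∈ Q1 then φ1 w else inv w
  have e1 : ∀ d ∈ D, φ d = ψ d := fun d hd => if_pos hd
  have hQ1D : ∀ q ∈ Q1, q ∉ D := fun q hq hd => (hD q hd).1 (mem_sdiff.1 hq).1
  have e2 : ∀ q ∈ Q1, φ q = φ1 q := by
    intro q hq
    have : φ q = if q ∈ Q1 then φ1 q else inv q := if_neg (hQ1D q hq)
    rw [this, if_pos hq]
  have e3 : ∀ d ∈ D, φ (ψ d) = d := by
    intro d hd
    have h1 : ψ d ∉ D := fun h => (hD _ h).1 (hψ d hd).1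
    have h2 : ψ d ∉ Q1 := fun h => (mem_sdiff.1 h).2 (mem_image_of_mem _ hd)
    have : φ (ψ d) = if ψ d ∈ Q1 then φ1 (ψ d) else inv (ψ d) := if_neg h1
    rw [this, if_neg h2, hinv d hd]
  have hcases : ∀ w ∈ D ∪ Q, w ∈ D ∨ w ∈ Q1 ∨ ∃ d ∈ D, ψ d = w := by
    intro w hw
    rcases mem_union.1 hw with h | h
    · exact Or.inl h
    · by_cases h' : w ∈ D.image ψ
      · obtain ⟨d, hd, h2⟩ := mem_image.1 h'
        exact Or.inr (Or.inr ⟨d, hd, h2⟩)
      · exact Or.inr (Or.inl (mem_sdiff.2 ⟨h, h'⟩))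
  have hreachQ := near_reach G Q r hnear (by linarith)
  have key := zG (D ∪ Q) φ ?_ ?_ ?_
  · have hdisj : Disjoint D Q := by
      rw [disjoint_left]
      exact fun d hd => (hD d hd).1
    rw [card_union_of_disjoint hdisj] at key
    push_cast at key
    linarith
  · intro a ha b hb hab
    rcases hcases a ha with ha | ha | ⟨d, hd, rfl⟩ <;> rcases hcases b hb with hb | hb | ⟨d', hd', rfl⟩
    · rw [e1 a ha, e1 b hb] at hab
      exact hψinj ha hb hab
    · rw [e1 a ha, e2 b hb] at hab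
      exact absurd (mem_image.2 ⟨a, ha, hab⟩) (mem_sdiff.1 (hφ1 b hb).1).2
    · rw [e1 a ha, e3 d' hd'] at hab
      exact absurd (hψ a ha).1 (hab ▸ (hD d' hd').1)
    · rw [e2 a ha, e1 b hb] at hab
      exact absurd (mem_image.2 ⟨b, hb, hab.symm⟩) (mem_sdiff.1 (hφ1 a ha).1).2
    · rw [e2 a ha, e2 b hb] at hab
      exact hφ1inj ha hb hab
    · rw [e2 a ha, e3 d' hd'] at hab
      exact absurd (mem_sdiff.1 (hφ1 a ha).1).1 (hab ▸ (hD d' hd').1)
    · rw [e1 b hb, e3 d hd] at hab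
      exact absurd (hψ b hb).1 (hab ▸ (hD d hd).1)
    · rw [e2 b hb, e3 d hd] at hab
      exact absurd (mem_sdiff.1 (hφ1 b hb).1).1 (hab ▸ (hD d hd).1)
    · rw [e3 d hd, e3 d' hd'] at hab
      rw [hab]
  · intro u hu
    rcases hcases u hu with h | h | ⟨d, hd, rfl⟩
    · rw [e1 u h]; exact (hψ u h).2
    · rw [e2 u h]; exact (hφ1 u h).2
    · rw [e3 d hd]; exact (hψ d hd).2.symm
  · have hr1 : ∀ w ∈ D ∪ Q, ∃ q ∈ Q, G.Reachable w q := by
      intro w hw
      rcases mem_union.1 hw with h | h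
      · exact ⟨ψ w, (hψ w h).1, (hψ w h).2.reachable⟩
      · exact ⟨w, h, SimpleGraph.Reachable.refl _⟩
    intro u hu w hw
    obtain ⟨q, hq, h1⟩ := hr1 u hu
    obtain ⟨q', hq', h2⟩ := hr1 w hw
    exact (h1.trans (hreachQ q hq q' hq')).trans h2.symm

end Pool.Agent.Lib.MP_779bc2_co
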