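import Pool.Agent.Lib.MP_779bc2_co.H6Match

/-! Row H7Few (about 200 lines): (U1), (U2) for units, vertices of high degree -/

set_option autoImplicit false

namespace Pool.Agent.Lib.MP_779bc2_co

open Finset

section aux

variable {W : Type} [Fintype W] [DecidableEq W]

theorem h7_nb_mono {G : SimpleGraph W} {v : W} {U U' : Finset W} (h : U ⊆ U') :
    (nb G v U).card ≤ (nb G v U').card := by
  refine card_le_card fun w hw => ?_
  rw [mem_nb] at hw ⊢
  exact ⟨h hw.1, hw.2⟩

theorem h7_nn_mono {G : SimpleGraph W} {v : W} {U U' : Finset W} (h : U ⊆ U') :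
    (nn G v U).card ≤ (nn G v U').card := by
  refine card_le_card fun w hw => ?_
  rw [mem_nn] at hw ⊢
  exact ⟨h hw.1, hw.2⟩

theorem h7_nb_sdiff {G : SimpleGraph W} {v : W} {U D : Finset W} :
    (nb G v U).card ≤ (nb G v (U \ D)).card + D.card := by
  calc (nb G v U).card ≤ (nb G v (U \ D) ∪ D).card := by
        refine card_le_card fun w hw => ?_
        rw [mem_nb] at hw
        by_cases hD : w ∈ D
        · exact mem_union_right _ hD
        · exact mem_union_left _ (mem_nb.2 ⟨mem_sdiff.2 ⟨hw.1, hD⟩, hw.2⟩)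
    _ ≤ _ := card_union_le _ _

theorem h7_zle_nonneg {G : SimpleGraph W} {y : ℝ} (z : ZLe G y) : 0 ≤ y := by
  have := z ∅ id (by simp) (by simp) (by simp)
  simpa using this

/-- a matching together with its inverse -/
theorem h7_double {G : SimpleGraph W} {y : ℝ} (z : ZLe G y) (D : Finset W) (ψ : W → W)
    (hinj : Set.InjOn ψ D) (hadj : ∀ d ∈ D, G.Adj d (ψ d)) (hdisj : ∀ d ∈ D, ψ d ∉ D)
    (hreach : ∀ u ∈ D, ∀ w ∈ D, G.Reachable u w) : 2 * (D.card : ℝ) ≤ y := by
  classical
  let inv : W → W := fun w => if h : ∃ d ∈ D, ψ d = w then h.choose else w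
  have hinv : ∀ d ∈ D, inv (ψ d) = d := by
    intro d hd
    have h : ∃ d' ∈ D, ψ d' = ψ d := ⟨d, hd, rfl⟩
    have e : inv (ψ d) = h.choose := dif_pos h
    rw [e]
    exact hinj h.choose_spec.1 hd h.choose_spec.2
  let φ : W → W := fun w => if w ∈ D then ψ w else inv w
  have hφ1 : ∀ d ∈ D, φ d = ψ d := fun d hd => if_pos hd
  have hφ2 : ∀ d ∈ D, φ (ψ d) = d := fun d hd => by
    have : φ (ψ d) = inv (ψ d) := if_neg (hdisj d hd)
    rw [this, hinv d hd]
  have hcard : (D ∪ D.image ψ).card = 2 * D.card := by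
    rw [card_union_of_disjoint, card_image_of_injOn hinj, two_mul]
    rw [disjoint_left]
    intro a ha hb
    obtain ⟨d, hd, rfl⟩ := mem_image.1 hb
    exact hdisj d hd ha
  have key := z (D ∪ D.image ψ) φ ?_ ?_ ?_
  · rw [hcard] at key
    push_cast at key
    exact key
  · intro a ha b hb hab
    rw [mem_coe, mem_union, mem_image] at ha hb
    rcases ha with ha | ⟨d, hd, rfl⟩ <;> rcases hb with hb | ⟨d', hd', rfl⟩
    · rw [hφ1 a ha, hφ1 b hb] at hab
      exact hinj ha hb hab
    · rw [hφ1 a ha, hφ2 d' hd'] at hab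
      exact absurd hd' (hab ▸ hdisj a ha)
    · rw [hφ1 b hb, hφ2 d hd] at hab
      exact absurd hd (hab ▸ hdisj b hb)
    · rw [hφ2 d hd, hφ2 d' hd'] at hab
      rw [hab]
  · intro u hu
    rw [mem_union, mem_image] at hu
    rcases hu with hu | ⟨d, hd, rfl⟩
    · rw [hφ1 u hu]; exact hadj u hu
    · rw [hφ2 d hd]; exact (hadj d hd).symm
  · have hr : ∀ u ∈ D ∪ D.image ψ, ∃ d ∈ D, G.Reachable u d := by
      intro u hu
      rw [mem_union, mem_image] at hu
      rcases hu with hu | ⟨d, hd, rfl⟩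
      · exact ⟨u, hu, SimpleGraph.Reachable.refl _⟩
      · exact ⟨d, hd, (hadj d hd).symm.reachable⟩
    intro u hu w hw
    obtain ⟨d, hd, h1⟩ := hr u hu
    obtain ⟨d', hd', h2⟩ := hr w hw
    exact (h1.trans (hreach d hd d' hd')).trans h2.symm

/-- one component contains a positive proportion of the vertices of large degree -/
theorem h7_comp {G : SimpleGraph W} (δ N : ℝ) (hδ : 0 < δ) (hN : 0 < N) (hcard : (Fintype.card W : ℝ) ≤ N)
    (D : Finset W) (hD : D.Nonempty) (hdeg : ∀ v ∈ D, δ * N ≤ ((nb G v univ).card : ℝ)) :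
    ∃ v ∈ D, δ * D.card ≤ ((comp G v ∩ D).card : ℝ) := by
  classical
  by_contra hcon
  push Not at hcon
  have hDpos : (0 : ℝ) < D.card := by exact_mod_cast hD.card_pos
  have h1 : ∀ w : W, (((D.filter (fun v => G.Reachable v w)).card : ℕ) : ℝ) < δ * D.card := by
    intro w
    rcases (D.filter (fun v => G.Reachable v w)).eq_empty_or_nonempty with h | ⟨v, hv⟩
    · rw [h, card_empty]
      simpa using mul_pos hδ hDpos
    · rw [mem_filter] at hv
      refine lt_of_le_of_lt ?_ (hcon v hv.1)
      have : D.filter (fun v => G.Reachable v w) ⊆ comp G v ∩ D := by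
        intro u hu
        rw [mem_filter] at hu
        exact mem_inter.2 ⟨mem_comp.2 (hv.2.trans hu.2.symm), hu.1⟩
      exact_mod_cast card_le_card this
  have h2 : (∑ v ∈ D, ((comp G v).card : ℝ)) = ∑ w : W, ((D.filter (fun v => G.Reachable v w)).card : ℝ) := by
    have := sum_card_bipartiteAbove_eq_sum_card_bipartiteBelow (s := D) (t := (univ : Finset W))
      (fun v w => G.Reachable v w)
    have e1 : ∀ v ∈ D, bipartiteAbove (fun v w => G.Reachable v w) (univ : Finset W) v = comp G v := by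
      intro v _
      ext w
      rw [mem_comp]
      simp [bipartiteAbove]
    rw [sum_congr rfl (fun v hv => by rw [e1 v hv])] at this
    exact_mod_cast this
  have h3 : (D.card : ℝ) * (δ * N) ≤ ∑ v ∈ D, ((comp G v).card : ℝ) := by
    have : ∑ v ∈ D, δ * N ≤ ∑ v ∈ D, ((comp G v).card : ℝ) := by
      refine sum_le_sum fun v hv => (hdeg v hv).trans ?_
      have : nb G v univ ⊆ comp G v := by
        intro w hw
        rw [mem_nb] at hw
        exact mem_comp.2 hw.2.reachable
      exact_mod_cast card_le_card this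
    rwa [sum_const, nsmul_eq_mul] at this
  obtain ⟨v0, hv0⟩ := hD
  have h4 : ∑ w : W, ((D.filter (fun v => G.Reachable v w)).card : ℝ) < ∑ _w : W, δ * (D.card : ℝ) :=
    sum_lt_sum_of_nonempty ⟨v0, mem_univ _⟩ fun w _ => h1 w
  rw [sum_const, nsmul_eq_mul, card_univ] at h4
  have h5 : (Fintype.card W : ℝ) * (δ * D.card) ≤ N * (δ * D.card) :=
    mul_le_mul_of_nonneg_right hcard (mul_pos hδ hDpos).le
  rw [h2] at h3
  nlinarith

end aux

open Classical in
/-- If the bound `y` for the matchings of the components of `B` is tiny then few vertices have large `B`-degree. Let `D` be the set of the vertices with at least `δ N` neighbours, suppose `|D| > e'' N`. Every component meeting `D` has at least `δ N` elements, so there are at most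
`1/δ` of them, and one of them contains at least `δ |D|` elements of `D`; take a subset `D'` with `⌊y/2⌋ + 1` elements (`≤ e N + 1 ≤ δ e'' N`) and match it into the complement of `D'` (`match_into`, the degrees are at least `δ N - |D'| ≥ |D'|`):
the map and its inverse show `2 |D'| ≤ y`. Contradiction. -/
theorem few_high (δ e'' : ℝ) (hδ : 0 < δ) (he'' : 0 < e'') : ∃ e > (0 : ℝ), ∀ (W : Type) [Fintype W] [DecidableEq W]
    (B : SimpleGraph W) (y N : ℝ), (Fintype.card W : ℝ) ≤ N → 1 ≤ e * N → ZLe B y → y ≤ e * N →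
      ((univ.filter (fun v => δ * N ≤ ((nb B v univ).card : ℝ))).card : ℝ) ≤ e'' * N := by
  refine ⟨min (δ * e'' / 2) (δ / 3), lt_min (by positivity) (by positivity), ?_⟩
  intro W _ _ B y N hcW h1 zB hy
  set e := min (δ * e'' / 2) (δ / 3) with he
  have hepos : 0 < e := lt_min (by positivity) (by positivity)
  have he1 : e ≤ δ * e'' / 2 := min_le_left _ _
  have he2 : e ≤ δ / 3 := min_le_right _ _
  have hN : 0 < N := by
    by_contra h
    push Not at h
    nlinarith
  have hy0 : 0 ≤ y := h7_zle_nonneg zB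
  by_contra hcon
  push Not at hcon
  set D := univ.filter (fun v => δ * N ≤ ((nb B v univ).card : ℝ)) with hD
  have hDne : D.Nonempty := by
    rw [← card_pos]
    have : (0 : ℝ) < D.card := lt_of_le_of_lt (mul_pos he'' hN).le hcon
    exact_mod_cast this
  have hdeg : ∀ v ∈ D, δ * N ≤ ((nb B v univ).card : ℝ) := fun v hv => (mem_filter.1 hv).2
  obtain ⟨v, hv, hv2⟩ := h7_comp δ N hδ hN hcW D hDne hdeg
  set k := ⌊y / 2⌋₊ + 1 with hk
  have hk1 : (k : ℝ) ≤ y / 2 + 1 := by
    rw [hk]; push_cast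
    linarith [Nat.floor_le (by linarith : 0 ≤ y / 2)]
  have hk2 : y / 2 < (k : ℝ) := by
    rw [hk]; push_cast
    exact Nat.lt_floor_add_one _
  have hkD : k ≤ (comp B v ∩ D).card := by
    have : (k : ℝ) ≤ ((comp B v ∩ D).card : ℝ) := by
      have h2 : δ * (e'' * N) < δ * D.card := mul_lt_mul_of_pos_left hcon hδ
      have h3 : e * N ≤ δ * e'' / 2 * N := mul_le_mul_of_nonneg_right he1 hN.le
      nlinarith
    exact_mod_cast this
  obtain ⟨D', hD'sub, hD'card⟩ := exists_subset_card_eq hkD
  have hD'D : ∀ d ∈ D', d ∈ D := fun d hd => (mem_inter.1 (hD'sub hd)).2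
  have hD'c : ∀ d ∈ D', B.Reachable v d := fun d hd => mem_comp.1 (mem_inter.1 (hD'sub hd)).1
  obtain ⟨ψ, hψinj, hψ⟩ := match_into B D' (univ \ D') (by
    intro d hd
    have h2 := hdeg d (hD'D d hd)
    have h3 : ((nb B d univ).card : ℝ) ≤ (nb B d (univ \ D')).card + D'.card := by
      exact_mod_cast h7_nb_sdiff
    have h4 : e * N ≤ δ / 3 * N := mul_le_mul_of_nonneg_right he2 hN.le
    rw [hD'card] at h3 ⊢
    have : (k : ℝ) ≤ ((nb B d (univ \ D')).card : ℝ) := by nlinarith
    exact_mod_cast this)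
  have := h7_double zB D' ψ hψinj (fun d hd => (hψ d hd).2)
    (fun d hd => (mem_sdiff.1 (hψ d hd).1).2)
    (fun u hu w hw => (hD'c u hu).symm.trans (hD'c w hw))
  rw [hD'card] at this
  linarith

open Classical in
/-- `U1` with `r = e N`; `Q.card ≥ x - e N ≥ (c/3) N` because `c N ≤ max x y` and `y ≤ 3/2 x + e N`. -/
theorem unit_few1 (c δ e'' : ℝ) (hc : 0 < c) (hδ : 0 < δ) (he'' : 0 < e'') : ∃ e > (0 : ℝ), ∀ (W : Type) [Fintype W] [DecidableEq W]
    (R B : SimpleGraph W) (M : W → W → Prop) (x y N : ℝ), Env R B M x y N e c → ∀ Q Z, IsUnit' R B x y (e * N) Q Z →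
      ((univ.filter (fun v => v ∉ Q ∧ δ * N ≤ ((nb R v Q).card : ℝ))).card : ℝ) ≤ e'' * N := by
  have hpos : 0 < min (c / 30) (min (δ / 4) (e'' / 2)) :=
    lt_min (by positivity) (lt_min (by positivity) (by positivity))
  refine ⟨min (c / 30) (min (δ / 4) (e'' / 2)), hpos, ?_⟩
  intro W _ _ R B M x y N env Q Z hU
  set e := min (c / 30) (min (δ / 4) (e'' / 2)) with he
  have he1 : e ≤ c / 30 := min_le_left _ _
  have he2 : e ≤ δ / 4 := (min_le_right _ _).trans (min_le_left _ _)
  have he3 : e ≤ e'' / 2 := (min_le_right _ _).trans (min_le_right _ _)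
  have h1 := env.one
  have hN : 0 < N := by
    by_contra h
    push Not at h
    nlinarith
  have g1 : e * N ≤ c / 30 * N := mul_le_mul_of_nonneg_right he1 hN.le
  have g2 : e * N ≤ δ / 4 * N := mul_le_mul_of_nonneg_right he2 hN.le
  have g3 : e * N ≤ e'' / 2 * N := mul_le_mul_of_nonneg_right he3 hN.le
  have hx : c * N ≤ 3 / 2 * x + e * N := by
    refine env.big.trans (max_le ?_ hU.ratio)
    linarith [env.x2]
  have hQ := hU.cardQ
  have key := U1 R x env.zR Q (e * N) h1 hQ hU.near (by linarith)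
  refine le_trans ?_ (key.trans (by linarith))
  have hsub : (univ.filter (fun v => v ∉ Q ∧ δ * N ≤ ((nb R v Q).card : ℝ))) ⊆
      univ.filter (fun v => v ∉ Q ∧ 2 * (e * N) + 2 ≤ ((nb R v Q).card : ℝ)) := by
    intro v hv
    rw [mem_filter] at hv ⊢
    exact ⟨hv.1, hv.2.1, by linarith [hv.2.2]⟩
  exact_mod_cast card_le_card hsub

open Classical in
/-- (U2). Let `e1` be the constant of `few_high`. If `y ≤ e1 N` use `few_high`. Otherwise `|Z| ≥ y/2 - e N > 0`. Suppose the set is larger than `e'' N`; let `D` be a subset and `Z0 ⊆ Z` such that `|D| + |Z0| = ⌊y/2⌋ + 1`, `|D| ≤ e N + 2`, `D` nonempty (and `Z0` nonempty).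
`D ∪ Z0` can be matched into `Q` along `B` (Hall or greedily, first `D`, then `Z0`: the elements of `Z0` have at least `|Q| - e N ≥ ⌊y/2⌋ + 1` neighbours in `Q`, because `|Q| ≥ x - e N`, `y ≤ 3/2 x + e N`). All these vertices lie in one component of `B`
(two elements of `Z` have a common neighbour in `Q`; an element of `D` has `δ N > e N` neighbours in `Q`). The map and its inverse contradict `ZLe B y`. -/
theorem unit_few2 (c δ e'' : ℝ) (hc : 0 < c) (hδ : 0 < δ) (he'' : 0 < e'') : ∃ e > (0 : ℝ), ∀ (W : Type) [Fintype W] [DecidableEq W]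
    (R B : SimpleGraph W) (M : W → W → Prop) (x y N : ℝ), Env R B M x y N e c → ∀ Q Z, IsUnit' R B x y (e * N) Q Z →
      ((univ.filter (fun v => v ∉ Q ∧ v ∉ Z ∧ δ * N ≤ ((nb B v Q).card : ℝ))).card : ℝ) ≤ e'' * N := by
  obtain ⟨e1, he1pos, hfew⟩ := few_high δ e'' hδ he''
  have hpos : 0 < min (min (e1 / 4) (c / 40)) (min (δ / 4) (e'' / 3)) :=
    lt_min (lt_min (by positivity) (by positivity)) (lt_min (by positivity) (by positivity))
  refine ⟨min (min (e1 / 4) (c / 40)) (min (δ / 4) (e'' / 3)), hpos, ?_⟩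
  intro W _ _ R B M x y N env Q Z hU
  set e := min (min (e1 / 4) (c / 40)) (min (δ / 4) (e'' / 3)) with he
  have he0 : e ≤ e1 / 4 := (min_le_left _ _).trans (min_le_left _ _)
  have he1 : e ≤ c / 40 := (min_le_left _ _).trans (min_le_right _ _)
  have he2 : e ≤ δ / 4 := (min_le_right _ _).trans (min_le_left _ _)
  have he3 : e ≤ e'' / 3 := (min_le_right _ _).trans (min_le_right _ _)
  have h1 := env.one
  have hN : 0 < N := by
    by_contra h
    push Not at h
    nlinarith
  have g0 : e * N ≤ e1 / 4 * N := mul_le_mul_of_nonneg_right he0 hN.le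
  have g1 : e * N ≤ c / 40 * N := mul_le_mul_of_nonneg_right he1 hN.le
  have g2 : e * N ≤ δ / 4 * N := mul_le_mul_of_nonneg_right he2 hN.le
  have g3 : e * N ≤ e'' / 3 * N := mul_le_mul_of_nonneg_right he3 hN.le
  have he1N : 0 < e1 * N := mul_pos he1pos hN
  rcases le_or_gt y (e1 * N) with hy | hy
  · refine le_trans ?_ (hfew W B y N env.cardW (by linarith) env.zB hy)
    have hsub : (univ.filter (fun v => v ∉ Q ∧ v ∉ Z ∧ δ * N ≤ ((nb B v Q).card : ℝ))) ⊆
        univ.filter (fun v => δ * N ≤ ((nb B v univ).card : ℝ)) := by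
      intro v hv
      rw [mem_filter] at hv ⊢
      refine ⟨hv.1, hv.2.2.2.trans ?_⟩
      exact_mod_cast h7_nb_mono (subset_univ Q)
    exact_mod_cast card_le_card hsub
  · by_contra hcon
    push Not at hcon
    set S := univ.filter (fun v => v ∉ Q ∧ v ∉ Z ∧ δ * N ≤ ((nb B v Q).card : ℝ)) with hS
    have hx : c * N ≤ 3 / 2 * x + e * N := by
      refine env.big.trans (max_le ?_ hU.ratio)
      linarith [env.x2]
    have hQ := hU.cardQ
    have hZ := hU.cardZ
    have hy2 := env.y2
    have hrat := hU.ratio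
    have hZne : Z.Nonempty := by
      rw [← card_pos]
      have : (0 : ℝ) < Z.card := by linarith
      exact_mod_cast this
    obtain ⟨z0, hz0⟩ := hZne
    set k := ⌊y / 2⌋₊ + 1 with hk
    have hk1 : (k : ℝ) ≤ y / 2 + 1 := by
      rw [hk]; push_cast
      linarith [Nat.floor_le (by linarith : 0 ≤ y / 2)]
    have hk2 : y / 2 < (k : ℝ) := by
      rw [hk]; push_cast
      exact Nat.lt_floor_add_one _
    obtain ⟨Z0, hZ0sub, hZ0card⟩ := exists_subset_card_eq (min_le_left Z.card k)
    have hdle : k - min Z.card k ≤ S.card := by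
      have : ((k - min Z.card k : ℕ) : ℝ) ≤ (S.card : ℝ) := by
        rcases le_total Z.card k with h | h
        · rw [min_eq_left h, Nat.cast_sub h]
          linarith
        · rw [min_eq_right h, Nat.sub_self]
          exact_mod_cast Nat.zero_le _
      exact_mod_cast this
    obtain ⟨D, hDsub, hDcard⟩ := exists_subset_card_eq hdle
    have hDc : (D.card : ℝ) ≤ e * N + 1 := by
      rw [hDcard]
      rcases le_total Z.card k with h | h
      · rw [min_eq_left h, Nat.cast_sub h]
        linarith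
      · rw [min_eq_right h, Nat.sub_self]
        push_cast
        linarith
    have hDS : ∀ d ∈ D, d ∉ Q ∧ d ∉ Z ∧ δ * N ≤ ((nb B d Q).card : ℝ) := fun d hd =>
      (mem_filter.1 (hDsub hd)).2
    have hZ0Z : ∀ z ∈ Z0, z ∈ Z := fun z hz => hZ0sub hz
    have hZQ : ∀ z ∈ Z, z ∉ Q := fun z hz hq => (disjoint_left.1 hU.disj) hq hz
    obtain ⟨ψ1, hψ1inj, hψ1⟩ := match_into B D Q (by
      intro d hd
      have h2 := (hDS d hd).2.2
      have : (D.card : ℝ) ≤ ((nb B d Q).card : ℝ) := by linarith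
      exact_mod_cast this)
    have hkeyZ : ∀ z ∈ Z, (k : ℝ) ≤ ((nb B z (Q \ D.image ψ1)).card : ℝ) := by
      intro z hz
      have h2 : ((nb B z Q).card : ℝ) ≤ (nb B z (Q \ D.image ψ1)).card + (D.image ψ1).card := by
        exact_mod_cast h7_nb_sdiff
      have h3 : ((D.image ψ1).card : ℝ) ≤ D.card := by exact_mod_cast card_image_le
      have h4 : ((nb B z Q).card : ℝ) + (nn B z Q).card = Q.card := by
        exact_mod_cast nb_add_nn B z Q
      have h5 := hU.join z hz
      linarith
    have hZ0k : Z0.card ≤ k := by rw [hZ0card]; exact min_le_right _ _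
    obtain ⟨ψ2, hψ2inj, hψ2⟩ := match_into B Z0 (Q \ D.image ψ1) (by
      intro z hz
      have h2 := hkeyZ z (hZ0Z z hz)
      have h3 : k ≤ (nb B z (Q \ D.image ψ1)).card := by exact_mod_cast h2
      exact hZ0k.trans h3)
    have hdisj : Disjoint D Z0 := by
      rw [disjoint_left]
      intro d hd hz
      exact (hDS d hd).2.1 (hZ0Z d hz)
    have hcard : (D ∪ Z0).card = k := by
      rw [card_union_of_disjoint hdisj, hDcard, hZ0card]
      have := min_le_right Z.card k
      omega
    let ψ : W → W := fun w => if w ∈ D then ψ1 w else ψ2 w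
    have hψD : ∀ d ∈ D, ψ d = ψ1 d := fun d hd => if_pos hd
    have hψZ : ∀ z ∈ Z0, ψ z = ψ2 z := fun z hz => if_neg fun hd => (disjoint_left.1 hdisj) hd hz
    have hψQ : ∀ w ∈ D ∪ Z0, ψ w ∈ Q := by
      intro w hw
      rcases mem_union.1 hw with hw | hw
      · rw [hψD w hw]; exact (hψ1 w hw).1
      · rw [hψZ w hw]; exact (mem_sdiff.1 (hψ2 w hw).1).1
    have hreach0 : ∀ w ∈ D ∪ Z0, B.Reachable w z0 := by
      intro w hw
      have hex : ∃ q ∈ Q, B.Adj w q ∧ B.Adj z0 q := by
        by_contra hno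
        push Not at hno
        have hsub : nb B w Q ⊆ nn B z0 Q := by
          intro q hq
          rw [mem_nb] at hq
          exact mem_nn.2 ⟨hq.1, hno q hq.1 hq.2⟩
        have h2 : ((nb B w Q).card : ℝ) ≤ (nn B z0 Q).card := by exact_mod_cast card_le_card hsub
        have h3 := hU.join z0 hz0
        rcases mem_union.1 hw with hw | hw
        · have h4 := (hDS w hw).2.2
          linarith
        · have h4 : ((nb B w Q).card : ℝ) + (nn B w Q).card = Q.card := by
            exact_mod_cast nb_add_nn B w Q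
          have h5 := hU.join w (hZ0Z w hw)
          linarith
      obtain ⟨q, -, h2, h3⟩ := hex
      exact h2.reachable.trans h3.symm.reachable
    have := h7_double env.zB (D ∪ Z0) ψ ?_ ?_ ?_ ?_
    · rw [hcard] at this
      linarith
    · intro a ha b hb hab
      rw [mem_coe, mem_union] at ha hb
      rcases ha with ha | ha <;> rcases hb with hb | hb
      · rw [hψD a ha, hψD b hb] at hab
        exact hψ1inj ha hb hab
      · rw [hψD a ha, hψZ b hb] at hab
        exact absurd (mem_image.2 ⟨a, ha, hab⟩) (mem_sdiff.1 (hψ2 b hb).1).2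
      · rw [hψZ a ha, hψD b hb] at hab
        exact absurd (mem_image.2 ⟨b, hb, hab.symm⟩) (mem_sdiff.1 (hψ2 a ha).1).2
      · rw [hψZ a ha, hψZ b hb] at hab
        exact hψ2inj ha hb hab
    · intro w hw
      rcases mem_union.1 hw with hw | hw
      · rw [hψD w hw]; exact (hψ1 w hw).2
      · rw [hψZ w hw]; exact (hψ2 w hw).2
    · intro w hw hmem
      have h2 := hψQ w hw
      rcases mem_union.1 hmem with h3 | h3
      · exact (hDS _ h3).1 h2
      · exact hZQ _ (hZ0Z _ h3) h2
    · intro u hu w hw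
      exact (hreach0 u hu).trans (hreach0 w hw).symm

open Classical in
/-- Removing at most `e N` elements from `Q` keeps a unit (with a larger error). -/
theorem unit_shrink {W : Type} [Fintype W] [DecidableEq W] (R B : SimpleGraph W) (x y E E1 : ℝ) (hE : 0 ≤ E) (hE1 : 0 ≤ E1) (Q Z Q' : Finset W)
    (h : IsUnit' R B x y E Q Z) (hQ' : Q' ⊆ Q) (hc : ((Q \ Q').card : ℝ) ≤ E1) : IsUnit' R B x y (E + E1) Q' Z := by
  have h1 : ((Q \ Q').card : ℝ) + Q'.card = Q.card := by
    exact_mod_cast card_sdiff_add_card_eq_card hQ'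
  refine ⟨?_, ?_, ?_, ?_, ?_, ?_, ?_⟩
  · linarith [h.cardQ]
  · linarith [h.cardZ]
  · exact disjoint_of_subset_left hQ' h.disj
  · intro q hq
    have h2 : ((nn R q Q').card : ℝ) ≤ (nn R q Q).card := by exact_mod_cast h7_nn_mono hQ'
    linarith [h.near q (hQ' hq)]
  · intro q hq
    have h2 : ((nb B q Q').card : ℝ) ≤ (nb B q Q).card := by exact_mod_cast h7_nb_mono hQ'
    linarith [h.few q (hQ' hq)]
  · intro z hz
    have h2 : ((nn B z Q').card : ℝ) ≤ (nn B z Q).card := by exact_mod_cast h7_nn_mono hQ'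
    linarith [h.join z hz]
  · linarith [h.ratio]

end Pool.Agent.Lib.MP_779bc2_co
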