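import Pool.Agent.Lib.MP_779bc2_co.Defs

/-!
# MP_779bc2_co, Part IV: the statement in terms of Mathlib's edge labellings
-/

set_option autoImplicit false

namespace Pool.Agent.Lib.MP_779bc2_co

open SimpleGraph

/-- The graph `H` contains the graph which is forbidden in the given colour: `C_n`, `C_m`, `K_{b_k,c_k}`, `C_{2 d_j+1}`. -/
def Contains (n m : ℕ) {s t : ℕ} (b c : Fin s → ℕ) (d : Fin t → ℕ) {W : Type}
    (H : SimpleGraph W) : Col s t → Prop
  | .long false => cycleGraph n ⊑ H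
  | .long true => cycleGraph m ⊑ H
  | .bip k => completeBipartiteGraph (Fin (b k)) (Fin (c k)) ⊑ H
  | .odd j => cycleGraph (2 * d j + 1) ⊑ H

/-- The Ramsey number `r(C_n, C_m, K_{b_1,c_1}, …, K_{b_s,c_s}, C_{2d_1+1}, …, C_{2d_t+1})`. -/
noncomputable def ramsey (n m : ℕ) {s t : ℕ} (b c : Fin s → ℕ) (d : Fin t → ℕ) : ℕ :=
  sInf {r | ∀ χ : TopEdgeLabeling (Fin r) (Col s t), ∃ i, Contains n m b c d (χ.labelGraph i) i}

/-- `r(≤ [C])`: the least `r` such that every `t`-colouring of the edges of `K_r` contains, for some `j`, an odd cycle of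
length at most `2 d_j + 1` in colour `j`. -/
noncomputable def oddRamsey {t : ℕ} (d : Fin t → ℕ) : ℕ :=
  sInf {r | ∀ χ : TopEdgeLabeling (Fin r) (Fin t), ∃ j, ∃ g, 1 ≤ g ∧ g ≤ d j ∧
    cycleGraph (2 * g + 1) ⊑ χ.labelGraph j}

end Pool.Agent.Lib.MP_779bc2_co
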