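import Pool.Agent.Lib.MP_779bc2_co.L1Stmt

/-!
# MP_779bc2_co, Part IV: bridges between the list forms and Mathlib's containment
-/

set_option autoImplicit false

namespace Pool.Agent.Lib.MP_779bc2_co

open SimpleGraph

variable {W : Type}

/-- `HasCyc` and containment of a cycle graph. -/
theorem l2_hasCyc_iff {G : W → W → Prop} (hG : ∀ u v, G u v → G v u) {H : SimpleGraph W}
    (hH : ∀ u v, H.Adj u v ↔ u ≠ v ∧ G u v) {n : ℕ} (hn : 3 ≤ n) :
    HasCyc G n ↔ cycleGraph n ⊑ H := by
  constructor
  · rintro ⟨l, hl, hnd, hch, hlast⟩
    subst hl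
    have hchain := List.isChain_iff_getElem.1 hch
    have key : ∀ i j : Fin l.length, ((j : ℕ) = i + 1 ∨ ((i : ℕ) = l.length - 1 ∧ (j : ℕ) = 0)) →
        G l[i] l[j] := by
      rintro ⟨i, hi⟩ ⟨j, hj⟩ h
      simp only at h
      rcases h with h | ⟨h1, h2⟩
      · subst h
        exact hchain i hj
      · subst h2
        have hne : l ≠ [] := by rintro rfl; simp at hn
        have e1 : l.head? = some l[0] := by
          rw [List.head?_eq_getElem?]; simp
        have e2 : l.getLast? = some l[i] := by
          rw [List.getLast?_eq_getElem?]; subst h1; simp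
        exact hlast _ _ e1 e2
    refine ⟨⟨fun i => l[i], ?_⟩, ?_⟩
    · intro i j hij
      rw [hH]
      rw [cycleGraph_adj'] at hij
      have hne : i ≠ j := by
        rintro rfl
        rw [Fin.sub_val_of_le le_rfl] at hij
        omega
      refine ⟨fun h => hne (Fin.ext ((hnd.getElem_inj_iff).1 h)), ?_⟩
      rcases hij with h | h
      · apply hG
        apply key
        have := Fin.coe_sub_iff_le (a := i) (b := j)
        by_cases hle : j ≤ i
        · left
          rw [Fin.sub_val_of_le hle] at h
          have : (j : ℕ) ≤ i := hle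
          omega
        · right
          have h3 := Fin.coe_sub_iff_lt.2 (not_le.1 hle)
          have h4 : (i : ℕ) < j := not_le.1 hle
          have := j.isLt
          omega
      · apply key
        by_cases hle : i ≤ j
        · left
          rw [Fin.sub_val_of_le hle] at h
          have : (i : ℕ) ≤ j := hle
          omega
        · right
          have h3 := Fin.coe_sub_iff_lt.2 (not_le.1 hle)
          have h4 : (j : ℕ) < i := not_le.1 hle
          have := i.isLt
          omega
    · intro i j hij
      exact Fin.ext ((hnd.getElem_inj_iff).1 hij)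
  · rintro ⟨f⟩
    have hinj : Function.Injective f := f.injective
    have hadj : ∀ i j : Fin n, (cycleGraph n).Adj i j → G (f i) (f j) := fun i j h =>
      ((hH _ _).1 (f.toHom.map_adj h)).2
    refine ⟨List.ofFn f, by simp, ?_, ?_, ?_⟩
    · exact List.nodup_ofFn.2 hinj
    · rw [List.isChain_iff_getElem]
      intro i hi
      simp only [List.length_ofFn] at hi
      simp only [List.getElem_ofFn]
      apply hadj
      rw [cycleGraph_adj']
      right
      rw [Fin.sub_val_of_le (by simp [Fin.le_def])]
      simp
    · intro a b ha hb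
      rw [List.head?_eq_getElem?] at ha
      rw [List.getLast?_eq_getElem?] at hb
      simp only [List.length_ofFn] at hb
      rw [List.getElem?_eq_getElem (by simp; omega)] at ha
      rw [List.getElem?_eq_getElem (by simp; omega)] at hb
      simp only [List.getElem_ofFn, Option.some.injEq] at ha hb
      rw [← ha, ← hb]
      apply hadj
      rw [cycleGraph_adj']
      right
      have h3 := Fin.coe_sub_iff_lt.2 (show (⟨0, by omega⟩ : Fin n) < ⟨n - 1, by omega⟩ by
        simp [Fin.lt_def]; omega)
      rw [h3]
      simp
      omega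

/-- `HasBip` and containment of a complete bipartite graph. -/
theorem l2_hasBip_iff {G : W → W → Prop} (hG : ∀ u v, G u v → G v u) {H : SimpleGraph W}
    (hH : ∀ u v, H.Adj u v ↔ u ≠ v ∧ G u v) {b c : ℕ} :
    HasBip G b c ↔ completeBipartiteGraph (Fin b) (Fin c) ⊑ H := by
  classical
  constructor
  · rintro ⟨A, C, hA, hC, hd, h⟩
    let eA : Fin b ≃ A := (Fin.castOrderIso hA.symm).toEquiv.trans A.equivFin.symm
    let eC : Fin c ≃ C := (Fin.castOrderIso hC.symm).toEquiv.trans C.equivFin.symm
    have hne : ∀ x y, (eA x : W) ≠ eC y := fun x y hxy =>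
      (Finset.disjoint_left.1 hd) (eA x).2 (hxy ▸ (eC y).2)
    refine ⟨⟨fun v => Sum.elim (fun x => (eA x : W)) (fun y => (eC y : W)) v, ?_⟩, ?_⟩
    · rintro (x | x) (y | y) hxy
      · simp [completeBipartiteGraph] at hxy
      · rw [hH]
        exact ⟨hne x y, h _ (eA x).2 _ (eC y).2⟩
      · rw [hH]
        exact ⟨(hne y x).symm, hG _ _ (h _ (eA y).2 _ (eC x).2)⟩
      · simp [completeBipartiteGraph] at hxy
    · rintro (x | x) (y | y) hxy
      · exact congrArg Sum.inl (eA.injective (Subtype.ext hxy))
      · exact absurd hxy (hne x y)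
      · exact absurd hxy.symm (hne y x)
      · exact congrArg Sum.inr (eC.injective (Subtype.ext hxy))
  · rintro ⟨f⟩
    have hinj : Function.Injective f := f.injective
    refine ⟨Finset.univ.image fun x : Fin b => f (Sum.inl x),
      Finset.univ.image fun x : Fin c => f (Sum.inr x), ?_, ?_, ?_, ?_⟩
    · rw [Finset.card_image_of_injective _ (fun x y h => Sum.inl_injective (hinj h))]; simp
    · rw [Finset.card_image_of_injective _ (fun x y h => Sum.inr_injective (hinj h))]; simp
    · rw [Finset.disjoint_left]
      intro z h1 h2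
      simp only [Finset.mem_image, Finset.mem_univ, true_and] at h1 h2
      obtain ⟨x, rfl⟩ := h1
      obtain ⟨y, hy⟩ := h2
      exact absurd (hinj hy) (by simp)
    · intro u hu w hw
      simp only [Finset.mem_image, Finset.mem_univ, true_and] at hu hw
      obtain ⟨x, rfl⟩ := hu
      obtain ⟨y, rfl⟩ := hw
      exact ((hH _ _).1 (f.toHom.map_adj (by simp [completeBipartiteGraph]))).2

/-- decomposition of a list with a repeated element -/
theorem l2_exists_dup : ∀ L : List W, ¬ L.Nodup → ∃ a X Y Z, L = X ++ a :: (Y ++ a :: Z)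
  | [], h => absurd List.nodup_nil h
  | x :: L, h => by
    by_cases hx : x ∈ L
    · obtain ⟨Y, Z, rfl⟩ := List.append_of_mem hx
      exact ⟨x, [], Y, Z, rfl⟩
    · have : ¬ L.Nodup := fun hn => h (List.nodup_cons.2 ⟨hx, hn⟩)
      obtain ⟨a, X, Y, Z, rfl⟩ := l2_exists_dup L this
      exact ⟨a, x :: X, Y, Z, rfl⟩

/-- an odd closed walk contains an odd cycle -/
theorem l2_odd_cyc {G : W → W → Prop} (irr : ∀ u, ¬ G u u) : ∀ (N : ℕ) (L : List W), L.length ≤ N →
    Odd L.length → L.IsChain G → (∀ a b, L.head? = some a → L.getLast? = some b → G b a) →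
      ∃ g, 1 ≤ g ∧ 2 * g + 1 ≤ L.length ∧ HasCyc G (2 * g + 1) := by
  intro N
  induction N with
  | zero =>
    intro L hL hodd
    exfalso
    have : L.length = 0 := by omega
    rw [this] at hodd
    simp at hodd
  | succ N ih =>
    intro L hL hodd hch hlast
    by_cases hnd : L.Nodup
    · obtain ⟨g, hg⟩ := hodd
      refine ⟨g, ?_, by omega, L, by omega, hnd, hch, hlast⟩
      by_contra h0
      have h1 : L.length = 1 := by omega
      obtain ⟨a, rfl⟩ := List.length_eq_one_iff.1 h1
      exact irr a (hlast a a rfl rfl)
    · obtain ⟨a, X, Y, Z, rfl⟩ := l2_exists_dup L hnd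
      have hlen : (X ++ a :: (Y ++ a :: Z)).length = (X ++ a :: Z).length + (a :: Y).length := by
        simp; omega
      have hpos1 : 1 ≤ (X ++ a :: Z).length := by simp; omega
      have hpos2 : 1 ≤ (a :: Y).length := by simp
      rw [List.isChain_append] at hch
      obtain ⟨hX, hYZ, hXa⟩ := hch
      have hYZ' : List.IsChain G ((a :: Y) ++ (a :: Z)) := by simpa using hYZ
      rw [List.isChain_append] at hYZ'
      obtain ⟨hY, hZ, hYa⟩ := hYZ'
      -- the two closed walks
      have hA : List.IsChain G (X ++ a :: Z) := by
        rw [List.isChain_append]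
        refine ⟨hX, hZ, ?_⟩
        intro x hx y hy
        exact hXa x hx y (by simpa using hy)
      have hAl : ∀ u v, (X ++ a :: Z).head? = some u → (X ++ a :: Z).getLast? = some v → G v u := by
        intro u v hu hv
        apply hlast u v
        · cases X <;> simpa using hu
        · rw [List.getLast?_append] at hv ⊢
          have e : (a :: (Y ++ a :: Z)).getLast? = (a :: Z).getLast? := by
            rw [← List.cons_append, List.getLast?_append, List.getLast?_cons, Option.some_or]
          rw [e]
          exact hv
      have hBl : ∀ u v, (a :: Y).head? = some u → (a :: Y).getLast? = some v → G v u := by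
        intro u v hu hv
        simp only [List.head?_cons, Option.some.injEq] at hu
        subst hu
        exact hYa v (by simpa using hv) _ (by simp)
      rw [hlen] at hodd hL
      rcases Nat.even_or_odd (a :: Y).length with he | ho
      · have hoA : Odd (X ++ a :: Z).length := by
          rw [Nat.odd_add] at hodd
          exact hodd.2 he
        obtain ⟨g, h1, h2, h3⟩ := ih (X ++ a :: Z) (by omega) hoA hA hAl
        exact ⟨g, h1, by rw [hlen]; omega, h3⟩
      · obtain ⟨g, h1, h2, h3⟩ := ih (a :: Y) (by omega) ho hY hBl
        exact ⟨g, h1, by rw [hlen]; omega, h3⟩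

end Pool.Agent.Lib.MP_779bc2_co
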