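import Pool.Agent.Lib.MP_779bc2_co.L3Lower

/-!
# MP_779bc2_co, Part IV: the colourings of the lower bound
-/

set_option autoImplicit false

namespace Pool.Agent.Lib.MP_779bc2_co

open SimpleGraph Finset

/-- An inner colouring: `χ` on `X` uses only the colours `long i`, `bip k`; every blow-up of it is free of the forbidden
graphs. -/
structure L3Inner {X : Type} (p : Pm) (n m : ℕ) (χ : X → X → Col p.s p.t) : Prop where
  symm : ∀ u v, χ u v = χ v u
  noOdd : ∀ u v j, χ u v ≠ .odd j
  long : ∀ (a : ℕ) i, ¬ HasCyc (fun u v : Fin a × X => u.1 = v.1 ∧ χ u.2 v.2 = .long i) (len n m i)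
  bip : ∀ (a : ℕ) k, ¬ HasBip (fun u v : Fin a × X => u.1 = v.1 ∧ χ u.2 v.2 = .bip k) (p.b k) (p.c k)

/-- vertices of the small parts -/
abbrev L3S (p : Pm) : Type := Σ k : Fin p.s, Fin (p.b k - 1)

/-- colour of an edge given the optional indices of the small parts of its ends -/
def l3col {p : Pm} (o o' : Option (Fin p.s)) (y : Col p.s p.t) : Col p.s p.t :=
  match o, o' with
  | some k, some k' => .bip (min k k')
  | some k, none => .bip k
  | none, some k => .bip k
  | none, none => y

theorem l3col_symm {p : Pm} (o o' : Option (Fin p.s)) (y : Col p.s p.t) :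
    l3col o o' y = l3col o' o y := by
  cases o <;> cases o' <;> simp [l3col, min_comm]

theorem l3col_bip {p : Pm} {o o' : Option (Fin p.s)} {y : Col p.s p.t} {k : Fin p.s}
    (hy : ∀ k, y ≠ .bip k) (h : l3col o o' y = .bip k) : o = some k ∨ o' = some k := by
  cases o with
  | none =>
    cases o' with
    | none => exact absurd h (hy k)
    | some k' => right; simp only [l3col, Col.bip.injEq] at h; rw [h]
  | some k1 =>
    cases o' with
    | none => left; simp only [l3col, Col.bip.injEq] at h; rw [h]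
    | some k' =>
      simp only [l3col, Col.bip.injEq] at h
      rcases min_choice k1 k' with h1 | h1
      · left; rw [← h, h1]
      · right; rw [← h, h1]

theorem l3col_long {p : Pm} {o o' : Option (Fin p.s)} {y : Col p.s p.t} {i : Bool}
    (h : l3col o o' y = .long i) : o = none ∧ o' = none ∧ y = .long i := by
  cases o <;> cases o' <;> simp_all [l3col]

theorem l3col_odd {p : Pm} {o o' : Option (Fin p.s)} {y : Col p.s p.t} {j : Fin p.t}
    (h : l3col o o' y = .odd j) : y = .odd j := by
  cases o <;> cases o' <;> simp_all [l3col]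

/-- cardinality of a set of a class which injects into `Fin N` -/
theorem l3_card_le {X : Type} (S : Finset X) (N : ℕ) (f : X → Option (Fin N))
    (h1 : ∀ w ∈ S, f w ≠ none) (h2 : ∀ w ∈ S, ∀ w' ∈ S, f w = f w' → w = w') : S.card ≤ N := by
  classical
  have h3 : (S.image f).card = S.card := Finset.card_image_of_injOn (fun w hw w' hw' h => h2 w hw w' hw' h)
  have h4 : S.image f ⊆ (Finset.univ : Finset (Fin N)).map ⟨some, Option.some_injective _⟩ := by
    intro o ho
    obtain ⟨w, hw, rfl⟩ := Finset.mem_image.1 ho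
    obtain ⟨x, hx⟩ := Option.ne_none_iff_exists'.1 (h1 w hw)
    rw [hx]
    simp
  calc S.card = (S.image f).card := h3.symm
    _ ≤ _ := Finset.card_le_card h4
    _ = N := by simp

/-! ### first type -/

/-- the vertex set of the first type -/
abbrev L3X (p : Pm) (n m : ℕ) (i : Bool) : Type :=
  Fin (len n m i - 1) ⊕ Fin ((len n m (!i) + 1) / 2 - 1) ⊕ L3S p

/-- index of the small part -/
def l3o {p : Pm} {n m : ℕ} {i : Bool} : L3X p n m i → Option (Fin p.s)
  | .inr (.inr ⟨k, _⟩) => some k
  | _ => none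

/-- the colouring of the first type -/
def l3chi (p : Pm) (n m : ℕ) (i : Bool) (u v : L3X p n m i) : Col p.s p.t :=
  l3col (l3o u) (l3o v) (.long (match u, v with
    | .inl _, .inl _ => i
    | _, _ => !i))

theorem l3_fst (p : Pm) {n m : ℕ} (hn : 3 ≤ n) (hm : 3 ≤ m) (i : Bool) :
    L3Inner p n m (l3chi p n m i) := by
  have hlen : ∀ i, 3 ≤ len n m i := by intro i; unfold len; split <;> assumption
  have hsym : ∀ u v, l3chi p n m i u v = l3chi p n m i v u := by
    intro u v
    unfold l3chi
    rw [l3col_symm]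
    congr 2
    rcases u with u | u | u <;> rcases v with v | v | v <;> rfl
  refine ⟨hsym, ?_, ?_, ?_⟩
  · intro u v j h
    have := l3col_odd h
    simp at this
  · intro a i'
    by_cases hi : i' = i
    · subst hi
      refine l3_noCyc_small (cls := fun w : Fin a × L3X p n m i' => w.1)
        (P := fun w => ∃ x, w.2 = .inl x) (N := len n m i' - 1)
        (by have := hlen i'; omega) (by have := hlen i'; omega) ?_ ?_
      · rintro ⟨u1, u⟩ ⟨v1, v⟩ ⟨h1, h2⟩
        refine ⟨h1, ?_⟩
        obtain ⟨h3, h4, h5⟩ := l3col_long h2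
        clear h2
        rcases u with u | u | ⟨k, u⟩ <;> rcases v with v | v | ⟨k', v⟩ <;>
          first
          | exact ⟨⟨_, rfl⟩, ⟨_, rfl⟩⟩
          | (simp [l3o] at h3; done)
          | (simp [l3o] at h4; done)
          | simp at h5
      · intro c S hS
        refine l3_card_le S _ (fun w => match w.2 with | .inl x => some x | _ => none) ?_ ?_
        · rintro ⟨w1, w⟩ hw
          obtain ⟨⟨x, hx⟩, -⟩ := hS _ hw
          simp only at hx
          subst hx
          simp
        · rintro ⟨w1, w⟩ hw ⟨w1', w'⟩ hw' h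
          obtain ⟨⟨x, hx⟩, h1⟩ := hS _ hw
          obtain ⟨⟨x', hx'⟩, h1'⟩ := hS _ hw'
          simp only at hx hx' h1 h1'
          subst hx hx' h1 h1'
          simpa using h
    · have hi' : i' = !i := by cases i <;> cases i' <;> simp_all
      subst hi'
      refine l3_noCyc_cover (cls := fun w : Fin a × L3X p n m i => w.1)
        (Z := fun w => ∃ x, w.2 = .inr (.inl x)) (N := (len n m (!i) + 1) / 2 - 1)
        (by have := hlen (!i); omega) ?_ ?_ ?_
      · rintro ⟨u1, u⟩ ⟨v1, v⟩ ⟨h1, h2⟩
        refine ⟨h1, ?_⟩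
        obtain ⟨h3, h4, h5⟩ := l3col_long h2
        clear h2
        rcases u with u | u | ⟨k, u⟩ <;> rcases v with v | v | ⟨k', v⟩ <;>
          first
          | exact Or.inl ⟨_, rfl⟩
          | exact Or.inr ⟨_, rfl⟩
          | (simp [l3o] at h3; done)
          | (simp [l3o] at h4; done)
          | simp at h5
      · rintro u v ⟨h1, h2⟩
        exact ⟨h1.symm, by rw [hsym]; exact h2⟩
      · intro c S hS
        refine l3_card_le S _
          (fun w => match w.2 with | .inr (.inl x) => some x | _ => none) ?_ ?_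
        · rintro ⟨w1, w⟩ hw
          obtain ⟨⟨x, hx⟩, -⟩ := hS _ hw
          simp only at hx
          subst hx
          simp
        · rintro ⟨w1, w⟩ hw ⟨w1', w'⟩ hw' h
          obtain ⟨⟨x, hx⟩, h1⟩ := hS _ hw
          obtain ⟨⟨x', hx'⟩, h1'⟩ := hS _ hw'
          simp only at hx hx' h1 h1'
          subst hx hx' h1 h1'
          simpa using h
  · intro a k
    refine l3_noBip (cls := fun w : Fin a × L3X p n m i => w.1)
      (S := fun w => l3o w.2 = some k) (p.hb k) (p.hbc k) ?_ ?_
    · rintro ⟨u1, u⟩ ⟨v1, v⟩ ⟨h1, h2⟩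
      exact ⟨h1, l3col_bip (by intro k; simp) h2⟩
    · intro c S hS
      have hex : ∀ w : L3X p n m i, l3o w = some k → ∃ x : Fin (p.b k - 1), w = .inr (.inr ⟨k, x⟩) := by
        rintro (w | w | ⟨k', x⟩) h
        · simp [l3o] at h
        · simp [l3o] at h
        · simp only [l3o, Option.some.injEq] at h
          subst h
          exact ⟨x, rfl⟩
      refine l3_card_le S _
        (fun w => match w.2 with | .inr (.inr ⟨k', x⟩) => (if h : k' = k then some (h ▸ x) else none) | _ => none) ?_ ?_
      · rintro ⟨w1, w⟩ hw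
        obtain ⟨hx, -⟩ := hS _ hw
        obtain ⟨x, rfl⟩ := hex _ hx
        simp
      · rintro ⟨w1, w⟩ hw ⟨w1', w'⟩ hw' h
        obtain ⟨hx, h1⟩ := hS _ hw
        obtain ⟨hx', h1'⟩ := hS _ hw'
        obtain ⟨x, rfl⟩ := hex _ hx
        obtain ⟨x', rfl⟩ := hex _ hx'
        simp only at h1 h1'
        subst h1 h1'
        simpa using h

theorem l3_fst_card (p : Pm) {n m : ℕ} (hn : 3 ≤ n) (hm : 3 ≤ m) (i : Bool) :
    Fintype.card (L3X p n m i) = len n m i + (len n m (!i) + 1) / 2 + p.ell - 2 := by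
  have hlen : ∀ i, 3 ≤ len n m i := by intro i; unfold len; split <;> assumption
  have h1 := hlen i
  have h2 := hlen (!i)
  simp only [L3X, Fintype.card_sum, Fintype.card_fin, L3S, Fintype.card_sigma, Pm.ell]
  omega

/-! ### second type -/

/-- the vertex set of the second type -/
abbrev L3Y (p : Pm) (n m : ℕ) (i : Bool) : Type :=
  Bool × (Fin (len n m i - 1) ⊕ L3S p)

/-- index of the small part -/
def l3o' {p : Pm} {n m : ℕ} {i : Bool} : Fin (len n m i - 1) ⊕ L3S p → Option (Fin p.s)
  | .inr ⟨k, _⟩ => some k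
  | _ => none

/-- the colouring of the second type -/
def l3chi' (p : Pm) (n m : ℕ) (i : Bool) (u v : L3Y p n m i) : Col p.s p.t :=
  if u.1 = v.1 then l3col (l3o' u.2) (l3o' v.2) (.long i) else .long (!i)

theorem l3_snd (p : Pm) {n m : ℕ} (hn : 3 ≤ n) (hm : 3 ≤ m) (i : Bool) (ho : Odd (len n m (!i))) :
    L3Inner p n m (l3chi' p n m i) := by
  have hlen : ∀ i, 3 ≤ len n m i := by intro i; unfold len; split <;> assumption
  have hsym : ∀ u v, l3chi' p n m i u v = l3chi' p n m i v u := by
    intro u v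
    unfold l3chi'
    rw [l3col_symm]
    by_cases h : u.1 = v.1
    · rw [if_pos h, if_pos h.symm]
    · rw [if_neg h, if_neg (fun h' => h h'.symm)]
  refine ⟨hsym, ?_, ?_, ?_⟩
  · intro u v j h
    unfold l3chi' at h
    split at h
    · have := l3col_odd h
      simp at this
    · simp at h
  · intro a i'
    by_cases hi : i' = i
    · subst hi
      refine l3_noCyc_small (cls := fun w : Fin a × L3Y p n m i' => (w.1, w.2.1))
        (P := fun w => ∃ x, w.2.2 = .inl x) (N := len n m i' - 1)
        (by have := hlen i'; omega) (by have := hlen i'; omega) ?_ ?_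
      · rintro ⟨u1, u2, u⟩ ⟨v1, v2, v⟩ ⟨h1, h2⟩
        simp only at h1
        subst h1
        unfold l3chi' at h2
        split at h2
        · rename_i h4
          simp only at h4
          subst h4
          have h3 := l3col_long h2
          refine ⟨rfl, ?_⟩
          rcases u with u | u <;> rcases v with v | v <;> simp_all [l3o']
        · simp at h2
      · intro c S hS
        refine l3_card_le S _ (fun w => match w.2.2 with | .inl x => some x | _ => none) ?_ ?_
        · rintro ⟨w1, w2, w⟩ hw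
          obtain ⟨⟨x, hx⟩, -⟩ := hS _ hw
          simp only at hx
          subst hx
          simp
        · rintro ⟨w1, w2, w⟩ hw ⟨w1', w2', w'⟩ hw' h
          obtain ⟨⟨x, hx⟩, h1⟩ := hS _ hw
          obtain ⟨⟨x', hx'⟩, h1'⟩ := hS _ hw'
          simp only at hx hx' h1 h1'
          subst hx hx' h1
          simp only [Prod.mk.injEq] at h1'
          obtain ⟨rfl, rfl⟩ := h1'
          simpa using h
    · have hi' : i' = !i := by cases i <;> cases i' <;> simp_all
      subst hi'
      refine l3_noCyc_side (side := fun w : Fin a × L3Y p n m i => w.2.1) ?_ ho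
      rintro ⟨u1, u2, u⟩ ⟨v1, v2, v⟩ ⟨h1, h2⟩
      simp only
      intro h4
      subst h4
      unfold l3chi' at h2
      rw [if_pos rfl] at h2
      have h3 := l3col_long h2
      simp at h3
  · intro a k
    refine l3_noBip (cls := fun w : Fin a × L3Y p n m i => (w.1, w.2.1))
      (S := fun w => l3o' w.2.2 = some k) (p.hb k) (p.hbc k) ?_ ?_
    · rintro ⟨u1, u2, u⟩ ⟨v1, v2, v⟩ ⟨h1, h2⟩
      simp only at h1
      subst h1
      unfold l3chi' at h2
      split at h2
      · rename_i h4
        simp only at h4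
        subst h4
        exact ⟨rfl, l3col_bip (by intro k; simp) h2⟩
      · simp at h2
    · intro c S hS
      have hex : ∀ w : Fin (len n m i - 1) ⊕ L3S p, l3o' w = some k →
          ∃ x : Fin (p.b k - 1), w = .inr ⟨k, x⟩ := by
        rintro (w | ⟨k', x⟩) h
        · simp [l3o'] at h
        · simp only [l3o', Option.some.injEq] at h
          subst h
          exact ⟨x, rfl⟩
      refine l3_card_le S _
        (fun w => match w.2.2 with | .inr ⟨k', x⟩ => (if h : k' = k then some (h ▸ x) else none) | _ => none) ?_ ?_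
      · rintro ⟨w1, w2, w⟩ hw
        obtain ⟨hx, -⟩ := hS _ hw
        obtain ⟨x, rfl⟩ := hex _ hx
        simp
      · rintro ⟨w1, w2, w⟩ hw ⟨w1', w2', w'⟩ hw' h
        obtain ⟨hx, h1⟩ := hS _ hw
        obtain ⟨hx', h1'⟩ := hS _ hw'
        obtain ⟨x, rfl⟩ := hex _ hx
        obtain ⟨x', rfl⟩ := hex _ hx'
        simp only at h1 h1'
        subst h1
        simp only [Prod.mk.injEq] at h1'
        obtain ⟨rfl, rfl⟩ := h1'
        simpa using h

theorem l3_snd_card (p : Pm) {n m : ℕ} (hn : 3 ≤ n) (hm : 3 ≤ m) (i : Bool) :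
    Fintype.card (L3Y p n m i) = 2 * (len n m i + p.ell - 1) := by
  have hlen : ∀ i, 3 ≤ len n m i := by intro i; unfold len; split <;> assumption
  have h1 := hlen i
  simp only [L3Y, Fintype.card_prod, Fintype.card_bool, Fintype.card_sum, Fintype.card_fin, L3S,
    Fintype.card_sigma, Pm.ell]
  congr 1
  omega

/-- an inner colouring with `Fval` vertices -/
theorem l3_exists_inner (p : Pm) {n m : ℕ} (hn : 3 ≤ n) (hm : 3 ≤ m) :
    ∃ (X : Type) (_ : Fintype X) (χ : X → X → Col p.s p.t),
      Fintype.card X = Fval n m p.ell ∧ L3Inner p n m χ := by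
  have hA := l3_fst_card p hn hm false
  have hB := l3_fst_card p hn hm true
  have hC := l3_snd_card p hn hm false
  have hD := l3_snd_card p hn hm true
  simp only [len, Bool.not_false, Bool.not_true, if_true, Bool.false_eq_true, if_false] at hA hB hC hD
  have key : ∀ z, (z = n + (m + 1) / 2 + p.ell - 2 ∨ z = m + (n + 1) / 2 + p.ell - 2 ∨
      (Odd m ∧ z = 2 * (n + p.ell - 1)) ∨ (Odd n ∧ z = 2 * (m + p.ell - 1))) →
      ∃ (X : Type) (_ : Fintype X) (χ : X → X → Col p.s p.t), Fintype.card X = z ∧ L3Inner p n m χ := by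
    rintro z (rfl | rfl | ⟨ho, rfl⟩ | ⟨ho, rfl⟩)
    · exact ⟨_, _, _, hA, l3_fst p hn hm false⟩
    · exact ⟨_, _, _, hB, l3_fst p hn hm true⟩
    · exact ⟨_, _, _, hC, l3_snd p hn hm false (by simpa [len] using ho)⟩
    · exact ⟨_, _, _, hD, l3_snd p hn hm true (by simpa [len] using ho)⟩
  apply key
  unfold Fval
  by_cases h1 : Odd m <;> by_cases h2 : Odd n <;> simp only [h1, h2, if_true, if_false, true_and, false_and, or_false, false_or] <;> omega

/-! ### the blow-up -/

theorem l3_lower (p : Pm) {n m : ℕ} (hn : 3 ≤ n) (hm : 3 ≤ m) (a : ℕ)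
    (κ : TopEdgeLabeling (Fin a) (Fin p.t))
    (hκ : ∀ j g, 1 ≤ g → g ≤ p.d j → ¬ (cycleGraph (2 * g + 1) ⊑ κ.labelGraph j)) :
    ∃ (X : Type) (_ : Fintype X) (χ : X → X → Col p.s p.t),
      Fintype.card X = a * Fval n m p.ell ∧ Free p n m χ := by
  classical
  obtain ⟨X, _, χ, hX, hχ⟩ := l3_exists_inner p hn hm
  let φ : Fin a × X → Fin a × X → Col p.s p.t := fun u v =>
    if h : u.1 ≠ v.1 then .odd (κ.get u.1 v.1 h) else χ u.2 v.2
  have hφ1 : ∀ u v : Fin a × X, ∀ i, φ u v = .long i → u.1 = v.1 ∧ χ u.2 v.2 = .long i := by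
    intro u v i h
    by_cases h1 : u.1 = v.1
    · simp only [φ, h1, ne_eq, not_true_eq_false, dite_false] at h
      exact ⟨h1, h⟩
    · simp only [φ, ne_eq, h1, not_false_eq_true, dite_true] at h
      simp at h
  have hφ2 : ∀ u v : Fin a × X, ∀ k, φ u v = .bip k → u.1 = v.1 ∧ χ u.2 v.2 = .bip k := by
    intro u v i h
    by_cases h1 : u.1 = v.1
    · simp only [φ, h1, ne_eq, not_true_eq_false, dite_false] at h
      exact ⟨h1, h⟩
    · simp only [φ, ne_eq, h1, not_false_eq_true, dite_true] at h
      simp at h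
  have hφ3 : ∀ u v : Fin a × X, ∀ j, φ u v = .odd j → ∃ h : u.1 ≠ v.1, κ.get u.1 v.1 h = j := by
    intro u v j h
    by_cases h1 : u.1 = v.1
    · simp only [φ, h1, ne_eq, not_true_eq_false, dite_false] at h
      exact absurd h (hχ.noOdd _ _ _)
    · simp only [φ, ne_eq, h1, not_false_eq_true, dite_true] at h
      exact ⟨h1, by simpa using h⟩
  refine ⟨Fin a × X, inferInstance, φ, by rw [Fintype.card_prod, Fintype.card_fin, hX], ?_⟩
  refine ⟨?_, ?_, ?_, ?_⟩
  · intro u v
    by_cases h1 : u.1 = v.1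
    · simp only [φ, h1, ne_eq, not_true_eq_false, dite_false]
      exact hχ.symm _ _
    · have h2 : v.1 ≠ u.1 := fun h => h1 h.symm
      simp only [φ, ne_eq, h1, h2, not_false_eq_true, dite_true]
      rw [EdgeLabeling.get_comm]
  · rintro i ⟨l, hl, hnd, hch, hlast⟩
    exact hχ.long a i ⟨l, hl, hnd, hch.imp fun u v h => hφ1 u v i h,
      fun u v hu hv => hφ1 _ _ i (hlast u v hu hv)⟩
  · rintro k ⟨A, C, hA, hC, hd, h⟩
    exact hχ.bip a k ⟨A, C, hA, hC, hd, fun u hu v hv => hφ2 u v k (h u hu v hv)⟩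
  · rintro j ⟨l, hl, hnd, hch, hlast⟩
    let G : Fin a → Fin a → Prop := fun u v => ∃ h : u ≠ v, κ.get u v h = j
    have hG1 : ∀ u v, G u v → G v u := by
      rintro u v ⟨h, h'⟩
      exact ⟨h.symm, by rw [EdgeLabeling.get_comm]; exact h'⟩
    have hch' : (l.map Prod.fst).IsChain G := by
      rw [List.isChain_map]
      exact hch.imp fun u v h => hφ3 u v j h
    have hlast' : ∀ u v, (l.map Prod.fst).head? = some u → (l.map Prod.fst).getLast? = some v → G v u := by
      intro u v hu hv
      rw [List.head?_map] at hu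
      rw [List.getLast?_map] at hv
      obtain ⟨x, hx, rfl⟩ := Option.map_eq_some_iff.1 hu
      obtain ⟨y, hy, rfl⟩ := Option.map_eq_some_iff.1 hv
      exact hφ3 _ _ j (hlast x y hx hy)
    obtain ⟨g, hg1, hg2, hg3⟩ := l2_odd_cyc (G := G) (fun u h => h.1 rfl) _ (l.map Prod.fst) le_rfl
      (by rw [List.length_map, hl]; exact ⟨p.d j, rfl⟩) hch' hlast'
    rw [List.length_map, hl] at hg2
    refine hκ j g hg1 (by omega) ?_
    rw [← l2_hasCyc_iff (G := G) hG1 (by
      intro u v
      rw [TopEdgeLabeling.labelGraph_adj]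
      constructor
      · rintro ⟨h, h'⟩
        exact ⟨h, h, h'⟩
      · rintro ⟨h, h', h''⟩
        exact ⟨h', h''⟩) (by omega)]
    exact hg3

end Pool.Agent.Lib.MP_779bc2_co
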