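import Pool.Agent.Lib.MP_779bc2_co.L2Bridge

/-!
# MP_779bc2_co, Part IV: the lower bound
-/

set_option autoImplicit false

namespace Pool.Agent.Lib.MP_779bc2_co

open SimpleGraph Finset

section lists

variable {W K : Type} {G : W → W → Prop}

/-- all elements of a chain are in one class -/
theorem l3_chain_cls {cls : W → K} (h : ∀ u v, G u v → cls u = cls v) :
    ∀ (l : List W) (x : W), (x :: l).IsChain G → ∀ u ∈ x :: l, cls u = cls x
  | [], x, _, u, hu => by simp at hu; rw [hu]
  | y :: l, x, hch, u, hu => by
    rw [List.isChain_cons_cons] at hch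
    rcases List.mem_cons.1 hu with rfl | hu
    · rfl
    · rw [l3_chain_cls h l y hch.2 u hu, h x y hch.1]

/-- a class of at most `N` elements containing all edges has no cycle with more than `N` elements -/
theorem l3_noCyc_small [Fintype W] {cls : W → K} {P : W → Prop} {N n : ℕ} (hn : N < n) (h2 : 2 ≤ n)
    (h : ∀ u v, G u v → cls u = cls v ∧ P u ∧ P v)
    (hP : ∀ c, ∀ S : Finset W, (∀ w ∈ S, P w ∧ cls w = c) → S.card ≤ N) : ¬ HasCyc G n := by
  classical
  rintro ⟨l, hl, hnd, hch, -⟩
  match l, hl, hnd, hch with
  | [], hl, _, _ => simp at hl; omega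
  | [x], hl, _, _ => simp at hl; omega
  | x :: y :: l, hl, hnd, hch =>
    have hc := l3_chain_cls (fun u v huv => (h u v huv).1) _ x hch
    have hPx : ∀ (l : List W) (y x : W), (x :: y :: l).IsChain G → ∀ w ∈ x :: y :: l, P w := by
      intro l
      induction l with
      | nil =>
        intro y x hch w hw
        rw [List.isChain_cons_cons] at hch
        have := h x y hch.1
        simp at hw
        rcases hw with rfl | rfl
        · exact this.2.1
        · exact this.2.2
      | cons z l ih =>
        intro y x hch w hw
        rw [List.isChain_cons_cons] at hch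
        rcases List.mem_cons.1 hw with rfl | hw
        · exact (h _ y hch.1).2.1
        · exact ih z y hch.2 w hw
    have hcard := hP (cls x) (x :: y :: l).toFinset (fun w hw => by
      rw [List.mem_toFinset] at hw
      exact ⟨hPx l y x hch w hw, hc w hw⟩)
    rw [List.toFinset_card_of_nodup hnd, hl] at hcard
    omega

open Classical in
/-- a chain all of whose edges have an end in `Z` -/
theorem l3_chain_cover {Z : W → Prop} (h : ∀ u v, G u v → Z u ∨ Z v) :
    ∀ l : List W, l.IsChain G → l.length ≤ 2 * (l.filter fun w => decide (Z w)).length + 1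
  | [], _ => by simp
  | [x], _ => by simp
  | x :: y :: l, hch => by
    rw [List.isChain_cons_cons] at hch
    by_cases hx : Z x
    · have := l3_chain_cover h (y :: l) hch.2
      rw [List.filter_cons_of_pos (by simpa using hx)]
      simp only [List.length_cons] at this ⊢
      omega
    · have hy : Z y := (h x y hch.1).resolve_left hx
      have hl : l.IsChain G := hch.2.tail
      have := l3_chain_cover h l hl
      rw [List.filter_cons_of_neg (by simpa using hx), List.filter_cons_of_pos (by simpa using hy)]
      simp only [List.length_cons] at this ⊢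
      omega

open Classical in
theorem l3_chain_cover' {Z : W → Prop} (h : ∀ u v, G u v → Z u ∨ Z v) (x : W) (l : List W)
    (hx : Z x) (hch : (x :: l).IsChain G) :
    (x :: l).length ≤ 2 * ((x :: l).filter fun w => decide (Z w)).length := by
  have := l3_chain_cover h l hch.tail
  rw [List.filter_cons_of_pos (by simpa using hx)]
  simp only [List.length_cons]
  omega

/-- a cycle all of whose edges have an end in `Z` -/
theorem l3_noCyc_cover [Fintype W] {cls : W → K} {Z : W → Prop} {N m : ℕ} (hN : 2 * N < m)
    (h : ∀ u v, G u v → cls u = cls v ∧ (Z u ∨ Z v)) (hG : ∀ u v, G u v → G v u)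
    (hZ : ∀ c, ∀ S : Finset W, (∀ w ∈ S, Z w ∧ cls w = c) → S.card ≤ N) : ¬ HasCyc G m := by
  classical
  rintro ⟨l, hl, hnd, hch, hlast⟩
  have hne : l ≠ [] := by rintro rfl; simp at hl; omega
  obtain ⟨x, l', rfl⟩ := List.exists_cons_of_ne_nil hne
  have hc := l3_chain_cls (fun u v huv => (h u v huv).1) _ x hch
  have hcard := hZ (cls x) ((x :: l').filter fun w => decide (Z w)).toFinset (fun w hw => by
    rw [List.mem_toFinset, List.mem_filter] at hw
    exact ⟨by simpa using hw.2, hc w hw.1⟩)
  rw [List.toFinset_card_of_nodup (hnd.filter _)] at hcard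
  have hgl : ∃ z, (x :: l').getLast? = some z := ⟨_, List.getLast?_eq_getLast_of_ne_nil (by simp)⟩
  obtain ⟨z, hz⟩ := hgl
  have hzx := hlast x z rfl hz
  rcases (h z x hzx).2 with h1 | h1
  · -- reverse
    have hr : ((x :: l').reverse).IsChain G := by
      rw [List.isChain_reverse]
      exact hch.imp fun a b hab => hG a b hab
    have hrz : (x :: l').reverse.head? = some z := by rw [List.head?_reverse, hz]
    have hl2 : (x :: l').reverse.length = m := by rw [List.length_reverse, hl]
    have hf : (((x :: l').reverse).filter fun w => decide (Z w)).length ≤ N := by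
      rw [List.filter_reverse, List.length_reverse]; exact hcard
    revert hr hrz hl2 hf
    generalize (x :: l').reverse = L
    intro hr hrz hl2 hf
    cases L with
    | nil => simp at hrz
    | cons w L =>
      simp only [List.head?_cons, Option.some.injEq] at hrz
      subst hrz
      have := l3_chain_cover' (fun u v huv => (h u v huv).2) w L h1 hr
      omega
  · have := l3_chain_cover' (fun u v huv => (h u v huv).2) x l' h1 hch
    omega

theorem l3_side {side : W → Bool} (h : ∀ u v, G u v → side u ≠ side v) :
    ∀ (l : List W) (x : W), (x :: l).IsChain G → ∀ z, (x :: l).getLast? = some z →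
      (side z = side x ↔ Even l.length)
  | [], x, _, z, hz => by simp at hz; subst hz; simp
  | y :: l, x, hch, z, hz => by
    rw [List.isChain_cons_cons] at hch
    have h1 := l3_side h l y hch.2 z (by simpa [List.getLast?_cons_cons] using hz)
    have h2 := h x y hch.1
    rw [List.length_cons, Nat.even_add_one, ← h1]
    revert h2
    cases side z <;> cases side x <;> cases side y <;> simp

/-- bipartite relations have no odd cycles -/
theorem l3_noCyc_side {side : W → Bool} (h : ∀ u v, G u v → side u ≠ side v) {m : ℕ}
    (hm : Odd m) : ¬ HasCyc G m := by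
  rintro ⟨l, hl, hnd, hch, hlast⟩
  have hne : l ≠ [] := by rintro rfl; simp at hl; subst hl; simp at hm
  obtain ⟨x, l', rfl⟩ := List.exists_cons_of_ne_nil hne
  obtain ⟨z, hz⟩ : ∃ z, (x :: l').getLast? = some z :=
    ⟨_, List.getLast?_eq_getLast_of_ne_nil (by simp)⟩
  have h1 := (l3_side h l' x hch z hz).2 (by
    rw [List.length_cons] at hl
    subst hl
    rcases Nat.even_or_odd l'.length with h | h
    · exact h
    · exfalso
      have := h.add_one
      exact (Nat.not_even_iff_odd.2 hm) this)
  exact h _ _ (hlast x z rfl hz) h1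

/-- small cover of all edges: no `K_{b,c}` -/
theorem l3_noBip [Fintype W] {cls : W → K} {S : W → Prop} {b c : ℕ} (hb : 1 ≤ b) (hbc : b ≤ c)
    (h : ∀ u v, G u v → cls u = cls v ∧ (S u ∨ S v))
    (hS : ∀ k, ∀ T : Finset W, (∀ w ∈ T, S w ∧ cls w = k) → T.card ≤ b - 1) : ¬ HasBip G b c := by
  classical
  rintro ⟨A, C, hA, hC, -, hAC⟩
  by_cases h1 : ∀ u ∈ A, S u
  · have hCn : C.Nonempty := by rw [← Finset.card_pos]; omega
    obtain ⟨w, hw⟩ := hCn
    have := hS (cls w) A (fun u hu => ⟨h1 u hu, (h u w (hAC u hu w hw)).1⟩)
    omega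
  · push Not at h1
    obtain ⟨u, hu, hSu⟩ := h1
    have := hS (cls u) C (fun w hw =>
      ⟨((h u w (hAC u hu w hw)).2).resolve_left hSu, ((h u w (hAC u hu w hw)).1).symm⟩)
    omega

end lists

end Pool.Agent.Lib.MP_779bc2_co
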