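import Pool.Agent.Lib.MP_779bc2_co.L3Inner

/-!
# MP_779bc2_co, Part IV: the number `r(≤[C])`
-/

set_option autoImplicit false

namespace Pool.Agent.Lib.MP_779bc2_co

open SimpleGraph Finset

/-- multicolour Ramsey theorem for triangles -/
theorem l4_triangle (t : ℕ) : ∀ s : ℕ, ∃ N : ℕ, ∀ S : Finset (Fin t), S.card = s →
    ∀ (V : Type) (χ : TopEdgeLabeling V (Fin t)) (A : Finset V), N ≤ A.card →
      (∀ u ∈ A, ∀ v ∈ A, ∀ h : u ≠ v, χ.get u v h ∈ S) →
      ∃ (j : Fin t) (x y z : V) (hxy : x ≠ y) (hyz : y ≠ z) (hzx : z ≠ x),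
        χ.get x y hxy = j ∧ χ.get y z hyz = j ∧ χ.get z x hzx = j := by
  classical
  intro s
  induction s with
  | zero =>
    refine ⟨2, fun S hS V χ A hA h => ?_⟩
    rw [Finset.card_eq_zero] at hS
    subst hS
    obtain ⟨u, hu, v, hv, huv⟩ := Finset.one_lt_card.1 (show 1 < A.card by omega)
    exact absurd (h u hu v hv huv) (by simp)
  | succ s ih =>
    obtain ⟨N, hN⟩ := ih
    refine ⟨(s + 1) * N + 2, fun S hS V χ A hA h => ?_⟩
    have hne : A.Nonempty := by rw [← Finset.card_pos]; omega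
    obtain ⟨v, hv⟩ := hne
    have hcard : (A.erase v).card = A.card - 1 := Finset.card_erase_of_mem hv
    -- neighbours of colour `j`
    let B : Fin t → Finset V := fun j => (A.erase v).filter (fun w => ∃ h : v ≠ w, χ.get v w h = j)
    have hsub : A.erase v ⊆ S.biUnion B := by
      intro w hw
      have hwv : v ≠ w := fun h' => (Finset.mem_erase.1 hw).1 h'.symm
      refine Finset.mem_biUnion.2 ⟨χ.get v w hwv, h v hv w (Finset.mem_erase.1 hw).2 hwv, ?_⟩
      exact Finset.mem_filter.2 ⟨hw, hwv, rfl⟩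
    have hex : ∃ j ∈ S, N ≤ (B j).card := by
      by_contra hcon
      push Not at hcon
      have h1 := Finset.card_le_card hsub
      have h2 : (S.biUnion B).card ≤ ∑ j ∈ S, (B j).card := Finset.card_biUnion_le
      have h3 : ∑ j ∈ S, (B j).card ≤ S.card • N := Finset.sum_le_card_nsmul _ _ _ fun j hj => (hcon j hj).le
      rw [hS, smul_eq_mul] at h3
      omega
    obtain ⟨j, hj, hB⟩ := hex
    by_cases hcase : ∃ x ∈ B j, ∃ y ∈ B j, ∃ h : x ≠ y, χ.get x y h = j
    · obtain ⟨x, hx, y, hy, hxy, hc⟩ := hcase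
      obtain ⟨_, hvx, hx'⟩ := Finset.mem_filter.1 hx
      obtain ⟨_, hvy, hy'⟩ := Finset.mem_filter.1 hy
      refine ⟨j, v, x, y, hvx, hxy, hvy.symm, hx', hc, ?_⟩
      rw [EdgeLabeling.get_comm]
      exact hy'
    · push Not at hcase
      refine hN (S.erase j) (by rw [Finset.card_erase_of_mem hj, hS]; simp) V χ (B j) hB ?_
      intro x hx y hy hxy
      refine Finset.mem_erase.2 ⟨hcase x hx y hy hxy, ?_⟩
      exact h x (Finset.mem_erase.1 (Finset.mem_filter.1 hx).1).2 y
        (Finset.mem_erase.1 (Finset.mem_filter.1 hy).1).2 hxy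

/-- the property defining `oddRamsey` -/
def L4P {t : ℕ} (d : Fin t → ℕ) (r : ℕ) : Prop :=
  ∀ χ : TopEdgeLabeling (Fin r) (Fin t), ∃ j, ∃ g, 1 ≤ g ∧ g ≤ d j ∧
    cycleGraph (2 * g + 1) ⊑ χ.labelGraph j

theorem l4_iff {V : Type} {t : ℕ} (χ : TopEdgeLabeling V (Fin t)) (j : Fin t) {n : ℕ} (hn : 3 ≤ n) :
    HasCyc (fun u v => ∃ h : u ≠ v, χ.get u v h = j) n ↔ cycleGraph n ⊑ χ.labelGraph j := by
  apply l2_hasCyc_iff _ _ hn
  · rintro u v ⟨h, h'⟩
    exact ⟨h.symm, by rw [EdgeLabeling.get_comm]; exact h'⟩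
  · intro u v
    rw [TopEdgeLabeling.labelGraph_adj]
    constructor
    · rintro ⟨h, h'⟩
      exact ⟨h, h, h'⟩
    · rintro ⟨h, h', h''⟩
      exact ⟨h', h''⟩

theorem l4_nonempty {t : ℕ} (d : Fin t → ℕ) (hd : ∀ j, 1 ≤ d j) : ∃ r, L4P d r := by
  obtain ⟨N, hN⟩ := l4_triangle t t
  refine ⟨N, fun χ => ?_⟩
  obtain ⟨j, x, y, z, hxy, hyz, hzx, h1, h2, h3⟩ := hN Finset.univ (by simp) (Fin N) χ Finset.univ (by simp)
    (fun u _ v _ h => Finset.mem_univ _)
  refine ⟨j, 1, le_rfl, hd j, ?_⟩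
  rw [← l4_iff χ j (by norm_num)]
  refine ⟨[x, y, z], rfl, ?_, ?_, ?_⟩
  · simp only [List.nodup_cons, List.mem_cons, List.not_mem_nil, or_false, not_or, List.nodup_nil,
      and_true, not_false_eq_true]
    exact ⟨⟨hxy, hzx.symm⟩, hyz⟩
  · rw [List.isChain_cons_cons, List.isChain_cons_cons]
    exact ⟨⟨hxy, h1⟩, ⟨hyz, h2⟩, by simp⟩
  · intro a b ha hb
    simp only [List.head?_cons, Option.some.injEq] at ha
    simp only [List.getLast?_cons_cons, List.getLast?_singleton, Option.some.injEq] at hb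
    subst ha hb
    exact ⟨hzx, h3⟩

theorem l4_two_le {t : ℕ} (d : Fin t → ℕ) (r : ℕ) (h : L4P d r) : 2 ≤ r := by
  by_contra hr
  have hsub : Subsingleton (Fin r) := Fin.subsingleton_iff_le_one.2 (by omega)
  obtain ⟨j, g, h1, h2, ⟨f⟩⟩ := h (EdgeLabeling.mk (fun x y hxy => absurd (Subsingleton.elim x y) hxy)
    (fun x y hxy => absurd (Subsingleton.elim x y) hxy))
  have hinj := f.injective
  have := Fintype.card_le_of_injective _ hinj
  simp only [Fintype.card_fin] at this
  omega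

theorem l4_two_le_oddRamsey {t : ℕ} (d : Fin t → ℕ) (hd : ∀ j, 1 ≤ d j) : 2 ≤ oddRamsey d :=
  l4_two_le d _ (Nat.sInf_mem (s := {r | L4P d r}) (l4_nonempty d hd))

/-- `oddRamsey d` has its defining property -/
theorem l4_mem {t : ℕ} (d : Fin t → ℕ) (hd : ∀ j, 1 ≤ d j) : L4P d (oddRamsey d) :=
  Nat.sInf_mem (s := {r | L4P d r}) (l4_nonempty d hd)

theorem l4_oddProp (p : Pm) : OddProp p (oddRamsey p.d - 1) := by
  intro κ hκ
  have h2 := l4_two_le_oddRamsey p.d p.hd
  have h : L4P p.d (oddRamsey p.d - 1 + 1) := by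
    rw [Nat.sub_add_cancel (by omega)]
    exact l4_mem p.d p.hd
  obtain ⟨j, g, h1, h3, h4⟩ := h (EdgeLabeling.mk (fun x y _ => κ x y) (fun x y _ => hκ y x))
  refine ⟨j, g, h1, h3, ?_⟩
  rw [← l4_iff _ j (by omega)] at h4
  obtain ⟨l, hl, hnd, hch, hlast⟩ := h4
  exact ⟨l, hl, hnd, hch.imp fun u v h => h.2, fun u v hu hv => (hlast u v hu hv).2⟩

/-- a labelling of `K_a`, `a = r(≤[C]) - 1`, without short odd cycles -/
theorem l4_exists_kappa {t : ℕ} (d : Fin t → ℕ) (hd : ∀ j, 1 ≤ d j) :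
    ∃ κ : TopEdgeLabeling (Fin (oddRamsey d - 1)) (Fin t),
      ∀ j g, 1 ≤ g → g ≤ d j → ¬ (cycleGraph (2 * g + 1) ⊑ κ.labelGraph j) := by
  have h2 := l4_two_le_oddRamsey d hd
  have h : ¬ L4P d (oddRamsey d - 1) :=
    Nat.notMem_of_lt_sInf (s := {r | L4P d r}) (show oddRamsey d - 1 < oddRamsey d by omega)
  unfold L4P at h
  push Not at h
  obtain ⟨κ, hκ⟩ := h
  refine ⟨κ, fun j g h1 h3 h4 => ?_⟩
  obtain ⟨f⟩ := h4
  exact (hκ j g h1 h3).false f

/-! ### the value `2^t + 1` for long odd cycles -/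

theorem l4_upper {t : ℕ} (d : Fin t → ℕ) (hd : ∀ j, 2 ^ (t - 1) ≤ d j) : L4P d (2 ^ t + 1) := by
  classical
  intro χ
  by_cases hcol : ∀ j, (χ.labelGraph j).Colorable 2
  · exfalso
    have hinj : Function.Injective (fun v : Fin (2 ^ t + 1) => fun j : Fin t => (hcol j).some v) := by
      intro u v huv
      by_contra hne
      have h1 := congrFun huv (χ.get u v hne)
      have h2 : (χ.labelGraph (χ.get u v hne)).Adj u v := by
        rw [TopEdgeLabeling.labelGraph_adj]
        exact ⟨hne, rfl⟩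
      exact ((hcol (χ.get u v hne)).some.valid h2) h1
    have := Fintype.card_le_of_injective _ hinj
    simp at this
  · push Not at hcol
    obtain ⟨j, hj⟩ := hcol
    rw [two_colorable_iff_forall_loop_even] at hj
    push Not at hj
    obtain ⟨u, w, hw⟩ := hj
    rw [Nat.not_even_iff_odd] at hw
    have hG : ∀ u v, (χ.labelGraph j).Adj u v → ∃ h : u ≠ v, χ.get u v h = j := fun u v h =>
      (TopEdgeLabeling.labelGraph_adj u v).1 h
    cases w with
    | nil => simp at hw
    | @cons _ v _ hadj q =>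
      have hch : q.support.IsChain (fun u v => ∃ h : u ≠ v, χ.get u v h = j) :=
        q.isChain_adj_support.imp fun a b h => hG a b h
      have hlast : ∀ a b, q.support.head? = some a → q.support.getLast? = some b →
          ∃ h : b ≠ a, χ.get b a h = j := by
        intro a b ha hb
        have e1 : q.support.head? = some v := by
          rw [List.head?_eq_some_head (q.support_ne_nil), Walk.head_support]
        have e2 : q.support.getLast? = some u := by
          rw [List.getLast?_eq_some_getLast (q.support_ne_nil), Walk.getLast_support]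
        rw [e1] at ha
        rw [e2] at hb
        simp only [Option.some.injEq] at ha hb
        subst ha hb
        exact hG _ _ hadj
      obtain ⟨g, h1, h2, h3⟩ := l2_odd_cyc (fun u h => h.1 rfl) _ q.support le_rfl
        (by rw [Walk.length_support]; simpa using hw) hch hlast
      have h4 : 2 * g + 1 ≤ 2 ^ t + 1 := by
        obtain ⟨l, hl, hnd, -, -⟩ := h3
        have := hnd.length_le_card
        rw [hl, Fintype.card_fin] at this
        exact this
      refine ⟨j, g, h1, ?_, (l4_iff χ j (by omega)).1 h3⟩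
      refine le_trans ?_ (hd j)
      have ht : 1 ≤ t := by have := j.isLt; omega
      obtain ⟨t', rfl⟩ : ∃ t', t = t' + 1 := ⟨t - 1, by omega⟩
      simp only [Nat.add_sub_cancel, pow_succ] at *
      omega

theorem l4_lower {t : ℕ} (d : Fin t → ℕ) {r : ℕ} (hr : L4P d r) : 2 ^ t + 1 ≤ r := by
  classical
  by_contra hlt
  have hcard : Fintype.card (Fin r) ≤ Fintype.card (Fin t → Bool) := by simp; omega
  obtain ⟨f⟩ := Function.Embedding.nonempty_of_card_le hcard
  have hex : ∀ x y : Fin r, x ≠ y → ∃ j, f x j ≠ f y j := by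
    intro x y hxy
    by_contra hcon
    push Not at hcon
    exact hxy (f.injective (funext hcon))
  let b : Fin r → Fin r → Finset (Fin t) := fun x y => Finset.univ.filter fun j => f x j ≠ f y j
  have hb : ∀ x y, x ≠ y → (b x y).Nonempty := by
    intro x y hxy
    obtain ⟨j, hj⟩ := hex x y hxy
    exact ⟨j, Finset.mem_filter.2 ⟨Finset.mem_univ _, hj⟩⟩
  have hbs : ∀ x y, b x y = b y x := by
    intro x y
    ext j
    simp only [b, Finset.mem_filter, Finset.mem_univ, true_and]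
    exact ne_comm
  obtain ⟨j, g, h1, h2, h3⟩ := hr (EdgeLabeling.mk (fun x y hxy => (b x y).min' (hb x y hxy))
    (fun x y hxy => by
      congr 1
      exact hbs y x))
  rw [← l4_iff _ j (by omega)] at h3
  refine l3_noCyc_side (side := fun x => f x j) ?_ ⟨g, rfl⟩ h3
  rintro x y ⟨h, h'⟩
  have h4 := Finset.min'_mem (b x y) (hb x y h)
  have h5 : (b x y).min' (hb x y h) = j := h'
  rw [h5] at h4
  exact (Finset.mem_filter.1 h4).2

theorem l4_oddRamsey_eq {t : ℕ} (d : Fin t → ℕ) (hd : ∀ j, 2 ^ (t - 1) ≤ d j) :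
    oddRamsey d = 2 ^ t + 1 := by
  apply le_antisymm
  · exact Nat.sInf_le (s := {r | L4P d r}) (l4_upper d hd)
  · exact l4_lower d (l4_mem d fun j => le_trans Nat.one_le_two_pow (hd j))

end Pool.Agent.Lib.MP_779bc2_co
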