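import Pool.Agent.Lib.MP_779bc2_co.Defs

/-!
# MP_779bc2_co: `card_le_max`
-/

set_option autoImplicit false

namespace Pool.Agent.Lib.MP_779bc2_co

theorem l6_Fval_le (n m l : ℕ) : Fval n m l ≤ 2 * max n m + 2 * l := by
  unfold Fval
  by_cases h1 : Odd m <;> by_cases h2 : Odd n <;> simp only [h1, h2, if_true, if_false] <;> omega

/-- `F ≤ 2 max(n,m) + 2 ℓ`, so that `N = a F + 1 ≤ 4 a max(n,m)` for large `n`, `m`. -/
theorem card_le_max' (a l : ℕ) (ha : 1 ≤ a) : ∃ n0 : ℕ, ∀ n m : ℕ, n0 ≤ n → n0 ≤ m →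
    (1 / (4 * a) : ℝ) * ((a * Fval n m l + 1 : ℕ) : ℝ) ≤ max (n : ℝ) m := by
  refine ⟨l + 1, fun n m hn hm => ?_⟩
  have h1 := l6_Fval_le n m l
  have h2 : a * Fval n m l + 1 ≤ 4 * a * max n m := by
    have h3 : l + 1 ≤ max n m := le_trans hn (le_max_left _ _)
    calc a * Fval n m l + 1 ≤ a * (2 * max n m + 2 * l) + a := by
          apply Nat.add_le_add (Nat.mul_le_mul_left _ h1) ha
      _ = a * (2 * max n m + 2 * l + 1) := by ring
      _ ≤ a * (4 * max n m) := Nat.mul_le_mul_left _ (by omega)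
      _ = 4 * a * max n m := by ring
  have h4 : ((a * Fval n m l + 1 : ℕ) : ℝ) ≤ 4 * a * max (n : ℝ) m := by
    calc ((a * Fval n m l + 1 : ℕ) : ℝ) ≤ ((4 * a * max n m : ℕ) : ℝ) := by exact_mod_cast h2
      _ = 4 * a * max (n : ℝ) m := by push_cast; rfl
  have ha' : (0 : ℝ) < 4 * a := by
    have : (1 : ℝ) ≤ a := by exact_mod_cast ha
    linarith
  rw [div_mul_eq_mul_div, one_mul, div_le_iff₀ ha']
  linarith

end Pool.Agent.Lib.MP_779bc2_co
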