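import Pool.Agent.Lib.MP_779bc2_co.X4Ins

/-! Row X4Ham (about 220 lines): Hamilton cycle in a nearly complete graph with a few vertices of smaller degree -/

set_option autoImplicit false

namespace Pool.Agent.Lib.MP_779bc2_co

open Finset

open Classical in
/-- pick an element of `H` which is not bad and not used -/
theorem x4_pick {W : Type} [DecidableEq W] (H : Finset W) (bad : W → Prop) (used : List W)
    (h : (H.filter bad).card + used.length < H.card) : ∃ x ∈ H, ¬ bad x ∧ x ∉ used := by
  by_contra hno
  push Not at hno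
  have hsub : H ⊆ H.filter bad ∪ used.toFinset := by
    intro x hx
    by_cases hb : bad x
    · exact Finset.mem_union_left _ (Finset.mem_filter.2 ⟨hx, hb⟩)
    · exact Finset.mem_union_right _ (List.mem_toFinset.2 (hno x hx hb))
  have h1 := Finset.card_le_card hsub
  have h2 := Finset.card_union_le (H.filter bad) used.toFinset
  have h3 := List.toFinset_card_le used
  omega

open Classical in
/-- pick a neighbour of `l` in `H` which is not used -/
theorem x4_pick' {W : Type} [DecidableEq W] (G : W → W → Prop) (H : Finset W) (l : W) (used : List W)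
    (h : used.length < (H.filter (fun u => G l u)).card) : ∃ x ∈ H, G l x ∧ x ∉ used := by
  by_contra hno
  push Not at hno
  have hsub : H.filter (fun u => G l u) ⊆ used.toFinset := by
    intro x hx
    rw [Finset.mem_filter] at hx
    exact List.mem_toFinset.2 (hno x hx.1 hx.2)
  have h1 := Finset.card_le_card hsub
  have h3 := List.toFinset_card_le used
  omega

open Classical in
/-- a common neighbour of two vertices of `H` -/
theorem x4_common {W : Type} [DecidableEq W] (G : W → W → Prop) (H : Finset W) (κ : ℕ)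
    (hH : ∀ h ∈ H, (H.filter (fun u => ¬ G h u)).card ≤ κ) (a b : W) (ha : a ∈ H) (hb : b ∈ H) (used : List W)
    (h : 2 * κ + used.length < H.card) : ∃ x ∈ H, G a x ∧ G b x ∧ x ∉ used := by
  have h1 : (H.filter (fun u => ¬ G a u ∨ ¬ G b u)).card ≤ 2 * κ := by
    rw [Finset.filter_or]
    refine (Finset.card_union_le _ _).trans ?_
    have := hH a ha
    have := hH b hb
    omega
  obtain ⟨x, hx, hnb, hu⟩ := x4_pick H (fun u => ¬ G a u ∨ ¬ G b u) used
    (lt_of_le_of_lt (Nat.add_le_add_right (by convert h1) _) h)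
  push Not at hnb
  exact ⟨x, hx, hnb.1, hnb.2, hu⟩

open Classical in
/-- the path through all vertices of `L'` -/
theorem x4_path {W : Type} [DecidableEq W] (G : W → W → Prop) (hG : ∀ u w, G u w → G w u) (H L : Finset W) (κ lam : ℕ)
    (hdisj : Disjoint H L) (hL : L.card ≤ lam) (hH : ∀ h ∈ H, (H.filter (fun u => ¬ G h u)).card ≤ κ)
    (hl : ∀ l ∈ L, 4 * lam + 2 ≤ (H.filter (fun u => G l u)).card) (hbig : 8 * κ + 8 * lam + 20 ≤ H.card)
    (h0 : W) (hh0 : h0 ∈ H) :
    ∀ L' : Finset W, L' ⊆ L → ∃ (a : W) (t : List W), a ∈ H ∧ (a :: t).Nodup ∧ (a :: t).IsChain G ∧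
      (a :: t).getLast? = some h0 ∧ (∀ u ∈ a :: t, u ∈ H ∪ L') ∧ (∀ l ∈ L', l ∈ a :: t) ∧
      (a :: t).length ≤ 4 * L'.card + 1 := by
  intro L'
  induction L' using Finset.induction_on with
  | empty =>
    intro _
    refine ⟨h0, [], hh0, by simp, by simp, by simp, ?_, by simp, by simp⟩
    intro u hu
    simp at hu
    subst hu
    simp [hh0]
  | insert l L' hlL' ih =>
    intro hsub
    obtain ⟨a, t, haH, hnd, hch, hlast, hmem, hcont, hlen⟩ := ih (fun x hx => hsub (Finset.mem_insert_of_mem hx))
    have hlL : l ∈ L := hsub (Finset.mem_insert_self _ _)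
    have hcard : L'.card + 1 ≤ lam := by
      have := Finset.card_le_card hsub
      rw [Finset.card_insert_of_notMem hlL'] at this
      omega
    have hlH : l ∉ H := fun h => (Finset.disjoint_left.1 hdisj h hlL)
    have hlp : l ∉ a :: t := by
      intro h
      rcases Finset.mem_union.1 (hmem l h) with h | h
      · exact hlH h
      · exact hlL' h
    have hln := hl l hlL
    obtain ⟨h', hh'H, hlh', hh'⟩ := x4_pick' G H l (a :: t) (by omega)
    obtain ⟨h, hhH, hlh, hh⟩ := x4_pick' G H l (h' :: a :: t) (by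
      have : (h' :: a :: t).length = (a :: t).length + 1 := rfl
      omega)
    obtain ⟨m, hmH, hh'm, ham, hm⟩ := x4_common G H κ hH h' a hh'H haH (h :: h' :: a :: t) (by
      have : (h :: h' :: a :: t).length = (a :: t).length + 2 := rfl
      omega)
    have hml : m ≠ l := fun e => hlH (e ▸ hmH)
    have hhl : h ≠ l := fun e => hlH (e ▸ hhH)
    have hh'l : h' ≠ l := fun e => hlH (e ▸ hh'H)
    have hmh : m ≠ h := fun e => hm (by simp [e])
    have hmh' : m ≠ h' := fun e => hm (by simp [e])
    have hmp : m ∉ a :: t := fun e => hm (by simp only [List.mem_cons] at e ⊢; tauto)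
    have hhh' : h ≠ h' := fun e => hh (by simp [e])
    have hhp : h ∉ a :: t := fun e => hh (by simp only [List.mem_cons] at e ⊢; tauto)
    refine ⟨h, l :: h' :: m :: a :: t, hhH, ?_, ?_, ?_, ?_, ?_, ?_⟩
    · refine List.nodup_cons.2 ⟨?_, List.nodup_cons.2 ⟨?_, List.nodup_cons.2 ⟨?_, List.nodup_cons.2 ⟨hmp, hnd⟩⟩⟩⟩
      · simp only [List.mem_cons, not_or] at hhp ⊢
        exact ⟨hhl, hhh', fun e => hmh e.symm, hhp.1, hhp.2⟩
      · simp only [List.mem_cons, not_or] at hlp ⊢
        exact ⟨fun e => hh'l e.symm, fun e => hml e.symm, hlp.1, hlp.2⟩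
      · simp only [List.mem_cons, not_or] at hh' ⊢
        exact ⟨fun e => hmh' e.symm, hh'.1, hh'.2⟩
    · refine List.isChain_cons_cons.2 ⟨hG _ _ hlh, List.isChain_cons_cons.2 ⟨hlh', List.isChain_cons_cons.2
        ⟨hh'm, List.isChain_cons_cons.2 ⟨hG _ _ ham, hch⟩⟩⟩⟩
    · rw [← hlast]
      simp [List.getLast?_cons_cons]
    · intro u hu
      simp only [List.mem_cons] at hu
      rcases hu with rfl | rfl | rfl | rfl | hu | hu
      · exact Finset.mem_union_left _ hhH
      · exact Finset.mem_union_right _ (Finset.mem_insert_self _ _)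
      · exact Finset.mem_union_left _ hh'H
      · exact Finset.mem_union_left _ hmH
      · subst hu
        exact Finset.mem_union_left _ haH
      · rcases Finset.mem_union.1 (hmem u (List.mem_cons_of_mem _ hu)) with h1 | h1
        · exact Finset.mem_union_left _ h1
        · exact Finset.mem_union_right _ (Finset.mem_insert_of_mem h1)
    · intro x hx
      rcases Finset.mem_insert.1 hx with rfl | hx
      · simp
      · have := hcont x hx
        simp only [List.mem_cons] at this ⊢
        tauto
    · rw [Finset.card_insert_of_notMem hlL']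
      simp only [List.length_cons] at hlen ⊢
      omega

open Classical in
/-- greedy extension inside `H` -/
theorem x4_extend {W : Type} [DecidableEq W] (G : W → W → Prop) (hG : ∀ u w, G u w → G w u) (H : Finset W) (κ : ℕ)
    (hH : ∀ h ∈ H, (H.filter (fun u => ¬ G h u)).card ≤ κ) (a : W) (t : List W) (ha : a ∈ H) (hnd : (a :: t).Nodup)
    (hch : (a :: t).IsChain G) :
    ∀ k, κ + (a :: t).length + k < H.card → ∃ s : List W, s.length = k ∧ (∀ u ∈ s, u ∈ H) ∧
      (s ++ a :: t).Nodup ∧ (s ++ a :: t).IsChain G := by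
  intro k
  induction k with
  | zero =>
    intro _
    exact ⟨[], rfl, by simp, hnd, hch⟩
  | succ k ih =>
    intro hk
    obtain ⟨s, hs, hsH, hsn, hsc⟩ := ih (by omega)
    have hhead : ∃ b t', s ++ a :: t = b :: t' ∧ b ∈ H := by
      cases s with
      | nil => exact ⟨a, t, rfl, ha⟩
      | cons b s' => exact ⟨b, s' ++ a :: t, rfl, hsH b (by simp)⟩
    obtain ⟨b, t', he, hb⟩ := hhead
    obtain ⟨x, hx, hnb, hu⟩ := x4_pick H (fun u => ¬ G b u) (s ++ a :: t) (by
      refine lt_of_le_of_lt (Nat.add_le_add_right (by convert hH b hb) _) ?_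
      rw [List.length_append, hs]
      omega)
    push Not at hnb
    refine ⟨x :: s, by simp [hs], ?_, ?_, ?_⟩
    · intro u hu'
      rcases List.mem_cons.1 hu' with rfl | h
      · exact hx
      · exact hsH u h
    · exact List.nodup_cons.2 ⟨hu, hsn⟩
    · show (x :: (s ++ a :: t)).IsChain G
      rw [he] at hsc ⊢
      exact List.isChain_cons_cons.2 ⟨hG _ _ hnb, hsc⟩

open Classical in
/-- insertion of all remaining vertices of `H` -/
theorem x4_fill {W : Type} [DecidableEq W] (G : W → W → Prop) (hG : ∀ u w, G u w → G w u) (H : Finset W) (κ : ℕ)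
    (hH : ∀ h ∈ H, (H.filter (fun u => ¬ G h u)).card ≤ κ) (r : List W) :
    ∀ (n : ℕ) (s : List W), IsCyc G (s ++ r) → (∀ u ∈ s, u ∈ H) → 2 * κ + 2 ≤ s.length →
      (H \ (s ++ r).toFinset).card = n → ∃ s' : List W, IsCyc G (s' ++ r) ∧ (∀ u ∈ s', u ∈ H) ∧ ∀ u ∈ H, u ∈ s' ++ r := by
  intro n
  induction n with
  | zero =>
    intro s hc hs _ hn
    refine ⟨s, hc, hs, ?_⟩
    intro u hu
    by_contra hno
    have : u ∈ H \ (s ++ r).toFinset := Finset.mem_sdiff.2 ⟨hu, fun h => hno (List.mem_toFinset.1 h)⟩
    rw [Finset.card_eq_zero.1 hn] at this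
    exact absurd this (Finset.notMem_empty _)
  | succ n ih =>
    intro s hc hs hlen hn
    have hne : (H \ (s ++ r).toFinset).Nonempty := by
      rw [← Finset.card_pos]; omega
    obtain ⟨w, hw⟩ := hne
    rw [Finset.mem_sdiff] at hw
    obtain ⟨s', hc', hl', hm'⟩ := ham_insert G hG H κ s r hc hs hlen w (fun h => hw.2 (List.mem_toFinset.2 h)) (hH w hw.1)
    refine ih s' hc' ?_ (by omega) ?_
    · intro u hu
      rcases (hm' u).1 hu with h | rfl
      · exact hs u h
      · exact hw.1
    · have he : H \ (s' ++ r).toFinset = (H \ (s ++ r).toFinset).erase w := by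
        ext u
        simp only [Finset.mem_sdiff, List.mem_toFinset, List.mem_append, Finset.mem_erase, hm']
        tauto
      rw [he, Finset.card_erase_of_mem (Finset.mem_sdiff.2 hw), hn]
      rfl

open Classical in
/-- Start: choose for every `l ∈ L` two neighbours in `H`, all different (greedily: `4 λ + 2` neighbours), giving pieces `h_l, l, h'_l`; connect the pieces by middle vertices of `H` (common neighbours of the ends, at most
`2κ` non-neighbours, at most `4λ` used vertices) to one path (no piece if `L` is empty: start with any vertex of `H`); extend the path by `2κ+2` further vertices of `H` greedily, and choose one more vertex of `H` adjacent to both ends: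
a cycle `s ++ r` with `s` inside `H`, `|s| ≥ 2κ+2`, containing `L`. Then insert the remaining vertices of `H` one by one (`ham_insert`). -/
theorem ham {W : Type} [DecidableEq W] (G : W → W → Prop) (hG : ∀ u w, G u w → G w u) (H L : Finset W) (κ lam : ℕ)
    (hdisj : Disjoint H L) (hL : L.card ≤ lam) (hH : ∀ h ∈ H, (H.filter (fun u => ¬ G h u)).card ≤ κ)
    (hl : ∀ l ∈ L, 4 * lam + 2 ≤ (H.filter (fun u => G l u)).card) (hbig : 8 * κ + 8 * lam + 20 ≤ H.card) :
    HasCyc G (H.card + L.card) := by
  have hne : H.Nonempty := by rw [← Finset.card_pos]; omega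
  obtain ⟨h0, hh0⟩ := hne
  obtain ⟨a, t, haH, hnd, hch, hlast, hmem, hcont, hlen⟩ :=
    x4_path G hG H L κ lam hdisj hL hH hl hbig h0 hh0 L (Finset.Subset.refl _)
  obtain ⟨s, hs, hsH, hsn, hsc⟩ := x4_extend G hG H κ hH a t haH hnd hch (2 * κ + 2) (by omega)
  have hhead : ∃ b t', s ++ a :: t = b :: t' ∧ b ∈ H := by
    cases s with
    | nil => exact ⟨a, t, rfl, haH⟩
    | cons b s' => exact ⟨b, s' ++ a :: t, rfl, hsH b (by simp)⟩
  obtain ⟨b, t', he, hb⟩ := hhead
  obtain ⟨y, hyH, hby, h0y, hyu⟩ := x4_common G H κ hH b h0 hb hh0 (s ++ a :: t) (by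
    rw [List.length_append, hs]; omega)
  have hcyc : IsCyc G ((y :: s) ++ (a :: t)) := by
    refine ⟨List.nodup_cons.2 ⟨hyu, hsn⟩, ?_, ?_⟩
    · show (y :: (s ++ a :: t)).IsChain G
      rw [he] at hsc ⊢
      exact List.isChain_cons_cons.2 ⟨hG _ _ hby, hsc⟩
    · intro u v hu hv
      have hu' : y = u := by simpa using hu
      have hv' : h0 = v := by
        rw [List.getLast?_append_of_ne_nil _ (by simp), hlast] at hv
        exact Option.some.inj hv
      subst hu' hv'
      exact h0y
  obtain ⟨s', hc', hs', hall⟩ := x4_fill G hG H κ hH (a :: t) _ (y :: s) hcyc (by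
    intro u hu
    rcases List.mem_cons.1 hu with rfl | h
    · exact hyH
    · exact hsH u h) (by simp [hs]) rfl
  refine ⟨s' ++ (a :: t), ?_, hc'⟩
  rw [← List.toFinset_card_of_nodup hc'.1, ← Finset.card_union_of_disjoint hdisj]
  congr 1
  ext u
  rw [List.mem_toFinset, Finset.mem_union]
  constructor
  · intro hu
    rcases List.mem_append.1 hu with h | h
    · exact Or.inl (hs' u h)
    · exact Finset.mem_union.1 (hmem u h)
  · intro hu
    rcases hu with h | h
    · exact hall u h
    · exact List.mem_append.2 (Or.inr (hcont u h))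

end Pool.Agent.Lib.MP_779bc2_co
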