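import Pool.Agent.Lib.MP_779bc2_co.X7Defs
import Pool.Agent.Lib.MP_779bc2_co.X4Ham

/-! Row X7Alpha (about 130 lines) -/

set_option autoImplicit false

namespace Pool.Agent.Lib.MP_779bc2_co

open Finset

open Classical in
/-- the combinatorial core -/
theorem x7a_core {W : Type} [DecidableEq W] (G : W → W → Prop) (hG : ∀ u w, G u w → G w u) (Q T A : Finset W)
    (L : ℕ) (ρ x y : ℝ) (hx : 0 ≤ x) (hρ : 0 ≤ ρ) (hTQ : T ⊆ Q) (hTA : T ⊆ A)
    (hTt : ∀ q ∈ T, ((Q.filter (fun w => ¬ G q w)).card : ℝ) ≤ ρ) (hQT : ((Q \ T).card : ℝ) ≤ x)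
    (hA : ∀ v ∈ A, y ≤ ((Q.filter (fun w => G v w)).card : ℝ)) (hL : L ≤ A.card)
    (hTL : (L : ℝ) ≤ T.card + 2 * x) (h1 : 4 * (2 * x) + 2 ≤ y - x) (h2 : 8 * ρ + 8 * (2 * x) + 20 ≤ T.card)
    (h3 : 8 * ρ + 8 * (2 * x) + 20 ≤ (L : ℝ)) : HasCyc G L := by
  -- choose H
  obtain ⟨H, hHT, hHc⟩ := Finset.exists_subset_card_eq (s := T) (n := min L T.card) (min_le_right _ _)
  have hKex : ∃ K ⊆ A \ T, K.card = L - H.card := by
    apply Finset.exists_subset_card_eq
    rw [Finset.card_sdiff_of_subset hTA, hHc]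
    rcases le_total L T.card with h | h
    · rw [min_eq_left h]; omega
    · rw [min_eq_right h]; omega
  obtain ⟨K, hKA, hKc⟩ := hKex
  have hHL : H.card ≤ L := by rw [hHc]; exact min_le_left _ _
  have hdisj : Disjoint H K := by
    rw [Finset.disjoint_left]
    intro v hv hvK
    exact (Finset.mem_sdiff.mp (hKA hvK)).2 (hHT hv)
  have hfl : ((⌊ρ⌋₊ : ℕ) : ℝ) ≤ ρ := Nat.floor_le hρ
  have hfl2 : ((⌊2 * x⌋₊ : ℕ) : ℝ) ≤ 2 * x := Nat.floor_le (by linarith)
  have hres : HasCyc G (H.card + K.card) := by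
    apply ham G hG H K ⌊ρ⌋₊ ⌊2 * x⌋₊ hdisj
    · apply Nat.le_floor
      rw [hKc, Nat.cast_sub hHL, hHc]
      rcases le_total L T.card with h | h
      · rw [min_eq_left h]; linarith
      · rw [min_eq_right h]; linarith
    · intro h hh
      apply Nat.le_floor
      refine le_trans ?_ (hTt h (hHT hh))
      exact_mod_cast Finset.card_le_card (Finset.filter_subset_filter _ (hHT.trans hTQ))
    · intro l hl
      have hlA : l ∈ A := (Finset.mem_sdiff.mp (hKA hl)).1
      have hKpos : 0 < K.card := Finset.card_pos.mpr ⟨l, hl⟩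
      have hHeq : H = T := by
        apply Finset.eq_of_subset_of_card_le hHT
        rw [hHc]
        rcases le_total L T.card with h | h
        · rw [hKc, hHc, min_eq_left h] at hKpos; omega
        · rw [min_eq_right h]
      rw [hHeq]
      have hsub : Q.filter (fun w => G l w) ⊆ T.filter (fun w => G l w) ∪ (Q \ T) := by
        intro w hw
        obtain ⟨hwQ, hwG⟩ := Finset.mem_filter.mp hw
        by_cases hwT : w ∈ T
        · exact Finset.mem_union_left _ (Finset.mem_filter.mpr ⟨hwT, hwG⟩)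
        · exact Finset.mem_union_right _ (Finset.mem_sdiff.mpr ⟨hwQ, hwT⟩)
      have hc1 : ((Q.filter (fun w => G l w)).card : ℝ) ≤
          ((T.filter (fun w => G l w)).card : ℝ) + ((Q \ T).card : ℝ) := by
        exact_mod_cast (Finset.card_le_card hsub).trans (Finset.card_union_le _ _)
      have hc2 := hA l hlA
      have hc3 : (4 * (⌊2 * x⌋₊ : ℝ) + 2) ≤ ((T.filter (fun w => G l w)).card : ℝ) := by linarith
      exact_mod_cast hc3
    · have hcH : 8 * ρ + 8 * (2 * x) + 20 ≤ (H.card : ℝ) := by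
        rw [hHc]
        rcases le_total L T.card with h | h
        · rw [min_eq_left h]; exact h3
        · rw [min_eq_right h]; exact h2
      have : (8 * (⌊ρ⌋₊ : ℝ) + 8 * (⌊2 * x⌋₊ : ℝ) + 20) ≤ (H.card : ℝ) := by linarith
      exact_mod_cast this
  have hsum : H.card + K.card = L := by rw [hKc]; omega
  rwa [hsum] at hres

theorem x7a_mono {p : Pm} {n m a : ℕ} {W : Type} [Fintype W] [DecidableEq W] {χ : W → W → Col p.s p.t} {N δ e e' : ℝ}
    {ι : Type} [Fintype ι] {cl : ι → Bool} {Q : ι → Finset W} (hN : 0 ≤ N) (he : e ≤ e')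
    (h : Frame p n m a χ N δ e cl Q) : Frame p n m a χ N δ e' cl Q where
  disj := h.disj
  size i := by have := h.size i; nlinarith
  sel v := by
    obtain ⟨J, h1, h2, h3⟩ := h.sel v
    refine ⟨J, h1, h2, fun i hi j hj hij => (h3 i hi j hj hij).trans ?_⟩
    nlinarith [sq_nonneg N]
  own i j hij := (h.own i j hij).trans (by nlinarith [sq_nonneg N])
  inner i := (h.inner i).trans (by nlinarith [sq_nonneg N])
  ratio i := (h.ratio i).trans (by nlinarith)
  count := h.count

theorem x7a_k3_le (p : Pm) {c : ℝ} (hc : 0 < c) : 400 * k3 p c ≤ c := by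
  unfold k3
  rw [mul_div_assoc', div_le_iff₀ (by positivity)]
  have : (0 : ℝ) ≤ p.ell := Nat.cast_nonneg _
  nlinarith

theorem x7a_k1 (p : Pm) (c : ℝ) : ((p.t : ℝ) + 1) * k1 p c = k3 p c / 8 := by
  unfold k1
  have : ((p.t : ℝ) + 1) ≠ 0 := by positivity
  field_simp

/-- Suppose `|clA i| ≥ L := len (cl i)`. Let `e`, `n1` be such that `typical` holds with `e3 = kT` and `e ≤ kT`. Let `T` be the set of the `q ∈ Q i` which are typical
(`Typ ((tδ+kT) N)`) and assigned to `i`; `T ⊆ clA i`, as such a `q` has at least `|Q i| - (tδ+kT)N ≥ k2 N` edges of colour `long (cl i)` to `Q i` (`len_lower`: `|Q i| ≥ (c/2 - e) N`). `|T| ≥ |Q i| - kT N ≥ L - (e + kT) N`.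
If `|T| ≥ L` let `H ⊆ T` with `|H| = L` and `K = ∅`, otherwise `H = T` and `K ⊆ clA i \ T` with `|K| = L - |T| ≤ 2 kT N`. Apply `ham` with `κ = ⌊(tδ+kT)N⌋` and `lam = ⌊2 kT N⌋`: elements of `K` have at least
`k2 N - kT N ≥ 4 lam + 2` neighbours in `T` (`k2 = 20 kT`), `|H| ≥ (c/2 - 2kT) N ≥ 8 κ + 8 lam + 20`. We get a cycle of length `L` in colour `long (cl i)`. -/
theorem alpha_le (p : Pm) (a : ℕ) (ha1 : 1 ≤ a) (c : ℝ) (hc : 0 < c) : ∃ e0 > (0 : ℝ), ∀ e > (0 : ℝ), e ≤ e0 → ∃ n1 : ℕ,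
    ∀ (W : Type) [Fintype W] [DecidableEq W], n1 ≤ Fintype.card W → ∀ (n m : ℕ), n1 ≤ n → n1 ≤ m →
      c * Fintype.card W ≤ max (n : ℝ) m → ∀ (χ : W → W → Col p.s p.t), Free p n m χ →
      ∀ (ι : Type) [Fintype ι] (cl : ι → Bool) (Q : ι → Finset W), Frame p n m a χ (Fintype.card W) (k1 p c) e cl Q →
      ∀ f : W → ι, (∀ v, Asg p n m χ (Fintype.card W) (k1 p c) (cl (f v)) (Q (f v)) v) → ∀ i,
        (clA p c χ cl Q f i).card ≤ len n m (cl i) - 1 := by
  have hk3 := k3_pos p hc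
  have hk3c := x7a_k3_le p hc
  have hk1 := k1_pos p hc
  have hkT := kT_pos p hc
  have hk1e := x7a_k1 p c
  have hkTe : kT p c = k3 p c / 160 := rfl
  have hk2e : k2 p c = k3 p c / 8 := rfl
  have htk1 : (p.t : ℝ) * k1 p c ≤ k3 p c / 8 := by nlinarith
  obtain ⟨et, het, n1t, htyp⟩ := typical p a ha1 c (k1 p c) (kT p c) hc hk1 hkT (by rw [hk1e]; linarith)
  refine ⟨min et (kT p c), lt_min het hkT, fun e he hee => ?_⟩
  have he1 : e ≤ et := hee.trans (min_le_left _ _)
  have he2 : e ≤ kT p c := hee.trans (min_le_right _ _)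
  obtain ⟨n2, hn2⟩ := exists_nat_gt (100 / kT p c)
  refine ⟨max (max n1t n2) 1, ?_⟩
  intro W _ _ hW n m hn hm hmax χ hfree ι _ cl Q hF f hf i
  classical
  set N : ℝ := (Fintype.card W : ℝ) with hNdef
  have hNn2 : (n2 : ℝ) ≤ N := by
    rw [hNdef]; exact_mod_cast ((le_max_right _ _).trans (le_max_left _ _)).trans hW
  have hNbig : 100 ≤ kT p c * N := by
    have h1 : 100 / kT p c ≤ N := hn2.le.trans hNn2
    rwa [div_le_iff₀ hkT, mul_comm] at h1
  have hN0 : 0 ≤ N := Nat.cast_nonneg _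
  have hWt : n1t ≤ Fintype.card W := ((le_max_left _ _).trans (le_max_left _ _)).trans hW
  have hlow := len_lower p n m a c N (k1 p c) e hc (by linarith) hN0 hmax W χ ι cl Q hF i
  have hT := htyp W hWt n m hmax χ hfree ι cl Q (x7a_mono hN0 he1 hF) f hf i
  by_contra hcon
  push Not at hcon
  have hLA : len n m (cl i) ≤ (clA p c χ cl Q f i).card := by omega
  apply hfree.long (cl i)
  set ρ : ℝ := (p.t * k1 p c + kT p c) * N with hρdef
  set T : Finset W := (Typ p χ ρ (cl i) (Q i)).filter (fun q => f q = i) with hTdef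
  have hρ0 : 0 ≤ ρ := by rw [hρdef]; positivity
  have hρle : ρ ≤ (k3 p c / 8 + kT p c) * N := by
    rw [hρdef]; exact mul_le_mul_of_nonneg_right (by linarith) hN0
  have hkN : k3 p c * N = 160 * (kT p c * N) := by rw [hkTe]; ring
  have hcN : 400 * (k3 p c * N) ≤ c * N := by nlinarith
  have heN : e * N ≤ kT p c * N := mul_le_mul_of_nonneg_right he2 hN0
  have hsize := hF.size i
  have hTQ : T ⊆ Q i := fun q hq => (Finset.mem_filter.mp (Finset.mem_filter.mp hq).1).1
  have hTt : ∀ q ∈ T, (((Q i).filter (fun w => ¬ (χ q w = .long (cl i)))).card : ℝ) ≤ ρ := fun q hq =>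
    (Finset.mem_filter.mp (Finset.mem_filter.mp hq).1).2
  have hTi : ∀ q ∈ T, f q = i := fun q hq => (Finset.mem_filter.mp hq).2
  have hQcard : ((Q i).card : ℝ) ≤ T.card + kT p c * N := by
    have h1 : ((Q i).card : ℝ) = ((Q i \ T).card : ℝ) + T.card := by
      exact_mod_cast (Finset.card_sdiff_add_card_eq_card hTQ).symm
    rw [h1]
    linarith
  have hTA : T ⊆ clA p c χ cl Q f i := by
    intro q hq
    unfold clA
    rw [Finset.mem_filter]
    refine ⟨Finset.mem_univ _, hTi q hq, ?_⟩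
    unfold dg
    have h1 := hTt q hq
    have h2 := Finset.card_filter_add_card_filter_not (s := Q i) (fun w => χ q w = Col.long (cl i))
    have h3 : (((Q i).filter (fun w => χ q w = .long (cl i))).card : ℝ) +
        (((Q i).filter (fun w => ¬ (χ q w = .long (cl i)))).card : ℝ) = (Q i).card := by
      exact_mod_cast h2
    rw [hk2e]
    have h4 : c / 2 * N = c * N / 2 := by ring
    have h5 : (k3 p c / 8 + kT p c) * N = k3 p c * N / 8 + kT p c * N := by ring
    have h6 : k3 p c / 8 * N = k3 p c * N / 8 := by ring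
    rw [h6]
    linarith
  have h4 : c / 2 * N = c * N / 2 := by ring
  have h5 : (k3 p c / 8 + kT p c) * N = k3 p c * N / 8 + kT p c * N := by ring
  apply x7a_core (fun u w => χ u w = .long (cl i)) (fun u w h => by rw [hfree.symm]; exact h) (Q i) T
    (clA p c χ cl Q f i) (len n m (cl i)) ρ (kT p c * N) (k2 p c * N) (by positivity) hρ0 hTQ hTA
    (fun q hq => by convert hTt q hq) hT ?_ hLA
  · linarith
  · rw [hk2e]
    have h6 : k3 p c / 8 * N = k3 p c * N / 8 := by ring
    rw [h6]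
    linarith
  · linarith
  · linarith
  · intro v hv
    have := (Finset.mem_filter.mp hv).2.2
    unfold dg at this
    convert this

end Pool.Agent.Lib.MP_779bc2_co
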