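import Pool.Agent.Lib.MP_779bc2_co.Defs

/-! Row X5Alt (about 170 lines): alternating cycle -/

set_option autoImplicit false

namespace Pool.Agent.Lib.MP_779bc2_co

open Finset

theorem x5_enum {W : Type} (S : Finset W) (w0 : W) : ∃ X : ℕ → W, (∀ i, i < S.card → X i ∈ S) ∧
    ∀ i j, i < S.card → j < S.card → X i = X j → i = j := by
  classical
  refine ⟨fun i => if h : i < S.card then (S.equivFin.symm ⟨i, h⟩ : W) else w0, ?_, ?_⟩
  · intro i hi
    simp only [hi, dif_pos]
    exact (S.equivFin.symm ⟨i, hi⟩).2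
  · intro i j hi hj h
    simp only [hi, hj, dif_pos] at h
    have := S.equivFin.symm.injective (Subtype.ext h)
    simpa using this

theorem x5_arr {W : Type} (S0 S1 : Finset W) (hdisj : Disjoint S0 S1) (hk : S0.card + 2 ≤ S1.card) :
    ∃ z : ℕ → W, (∀ i, i < S0.card + S1.card → z i ∈ S0 ∨ z i ∈ S1) ∧
      (∀ i j, i < S0.card + S1.card → j < S0.card + S1.card → z i = z j → i = j) ∧
      (∀ i, i < S0.card + S1.card → z i ∈ S1 ∨ z ((i + 1) % (S0.card + S1.card)) ∈ S1) := by
  classical
  obtain ⟨w0, hw0⟩ : S1.Nonempty := by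
    rw [← Finset.card_pos]; omega
  obtain ⟨X, hX, hXi⟩ := x5_enum S0 w0
  obtain ⟨Y, hY, hYi⟩ := x5_enum S1 w0
  obtain ⟨a, ha⟩ : ∃ a, a = S0.card := ⟨_, rfl⟩
  obtain ⟨b, hb⟩ : ∃ b, b = S1.card := ⟨_, rfl⟩
  rw [← ha] at hX hXi hk ⊢
  rw [← hb] at hY hYi hk ⊢
  have hne : ∀ i j, i < a → j < b → X i ≠ Y j := by
    intro i j hi hj h
    exact Finset.disjoint_left.1 hdisj (hX i hi) (h ▸ hY j hj)
  let f : ℕ → ℕ := fun i => if i < 2 * a then i / 2 else i - a
  let z : ℕ → W := fun i => if i < 2 * a ∧ i % 2 = 0 then X (i / 2) else Y (f i)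
  have hz0 : ∀ i, i < 2 * a ∧ i % 2 = 0 → z i = X (i / 2) := fun i h => if_pos h
  have hz1 : ∀ i, ¬ (i < 2 * a ∧ i % 2 = 0) → z i = Y (f i) := fun i h => if_neg h
  have hf : ∀ i, i < a + b → f i < b := by
    intro i hi
    change (if i < 2 * a then i / 2 else i - a) < b
    split_ifs <;> omega
  have hfi : ∀ i j, ¬ (i < 2 * a ∧ i % 2 = 0) → ¬ (j < 2 * a ∧ j % 2 = 0) → f i = f j → i = j := by
    intro i j h1 h2 h
    change (if i < 2 * a then i / 2 else i - a) = (if j < 2 * a then j / 2 else j - a) at h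
    split_ifs at h <;> omega
  have hS1 : ∀ i, i < a + b → ¬ (i < 2 * a ∧ i % 2 = 0) → z i ∈ S1 := by
    intro i hi h
    rw [hz1 i h]
    exact hY _ (hf i hi)
  refine ⟨z, ?_, ?_, ?_⟩
  · intro i hi
    by_cases h : i < 2 * a ∧ i % 2 = 0
    · left
      rw [hz0 i h]
      exact hX _ (by omega)
    · exact Or.inr (hS1 i hi h)
  · intro i j hi hj h
    by_cases h1 : i < 2 * a ∧ i % 2 = 0
    · by_cases h2 : j < 2 * a ∧ j % 2 = 0
      · rw [hz0 i h1, hz0 j h2] at h
        have := hXi _ _ (by omega) (by omega) h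
        omega
      · rw [hz0 i h1, hz1 j h2] at h
        exact absurd h (hne _ _ (by omega) (hf j hj))
    · by_cases h2 : j < 2 * a ∧ j % 2 = 0
      · rw [hz1 i h1, hz0 j h2] at h
        exact absurd h.symm (hne _ _ (by omega) (hf i hi))
      · rw [hz1 i h1, hz1 j h2] at h
        exact hfi i j h1 h2 (hYi _ _ (hf i hi) (hf j hj) h)
  · intro i hi
    by_cases h1 : i < 2 * a ∧ i % 2 = 0
    · right
      have hm : (i + 1) % (a + b) = i + 1 := Nat.mod_eq_of_lt (by omega)
      rw [hm]
      exact hS1 _ (by omega) (by omega)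
    · exact Or.inl (hS1 i hi h1)

open Classical in
/-- Arrange `S = S0 ∪ S1`, `h = |S|`, in a cyclic order in which no two elements of `S0` are neighbours (`|S0| ≤ |S1|`; e.g. the list `x₁ y₁ x₂ y₂ ... x_k y_k y_{k+1} ...` with `xᵢ ∈ S0`, `yᵢ ∈ S1`). For consecutive
`z, z'` choose a common neighbour `q ∈ Q`, all different: first for the at most `2K` pairs with an element of `S0` (at least `κ + 2K + 2 - κ` common neighbours), then for the pairs in `S1` (at least
`|Q| - 2κ ≥ h` common neighbours). The result is a cycle `z₁ q₁ z₂ q₂ ... z_h q_h` of length `2h`. -/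
theorem alt {W : Type} [DecidableEq W] (G : W → W → Prop) (hG : ∀ u w, G u w → G w u) (S0 S1 Q : Finset W) (κ K : ℕ)
    (hdisj : Disjoint S0 S1) (hQ0 : Disjoint S0 Q) (hQ1 : Disjoint S1 Q) (hK : S0.card ≤ K) (hK1 : K + 2 ≤ S1.card)
    (h1 : ∀ z ∈ S1, (Q.filter (fun w => ¬ G z w)).card ≤ κ)
    (h0 : ∀ z ∈ S0, κ + 2 * K + 2 ≤ (Q.filter (fun w => G z w)).card)
    (hQ : 2 * κ + (S0.card + S1.card) ≤ Q.card) :
    HasCyc G (2 * (S0.card + S1.card)) := by
  obtain ⟨z, hz, hzi, hzc⟩ := x5_arr S0 S1 hdisj (by omega)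
  obtain ⟨h, hh⟩ : ∃ h, h = S0.card + S1.card := ⟨_, rfl⟩
  rw [← hh] at hz hzi hzc hQ ⊢
  have hpos : 2 ≤ h := by omega
  let nx : ℕ → ℕ := fun i => (i + 1) % h
  have hnx : ∀ i, nx i < h := fun i => Nat.mod_lt _ (by omega)
  have hnxi : ∀ i j, i < h → j < h → nx i = nx j → i = j := by
    intro i j hi hj hij
    change (i + 1) % h = (j + 1) % h at hij
    rcases Nat.lt_or_ge (i + 1) h with hi' | hi' <;> rcases Nat.lt_or_ge (j + 1) h with hj' | hj'
    · rw [Nat.mod_eq_of_lt hi', Nat.mod_eq_of_lt hj'] at hij; omega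
    · have : j + 1 = h := by omega
      rw [Nat.mod_eq_of_lt hi', this, Nat.mod_self] at hij; omega
    · have : i + 1 = h := by omega
      rw [Nat.mod_eq_of_lt hj', this, Nat.mod_self] at hij; omega
    · omega
  -- number of indices with an element of S0
  have hcnt : ∀ (g : ℕ → ℕ), (∀ i, i < h → g i < h) → (∀ i j, i < h → j < h → g i = g j → i = j) →
      ((univ : Finset (Fin h)).filter (fun i : Fin h => z (g i) ∈ S0)).card ≤ S0.card := by
    intro g hg hgi
    refine Finset.card_le_card_of_injOn (fun i => z (g i)) ?_ ?_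
    · intro i hi
      simpa using hi
    · intro i _ j _ hij
      exact Fin.ext (hgi _ _ i.2 j.2 (hzi _ _ (hg _ i.2) (hg _ j.2) hij))
  have hc1 := hcnt id (fun i hi => hi) (fun i j _ _ hij => hij)
  have hc2 := hcnt nx (fun i _ => hnx i) hnxi
  -- the common neighbours
  let t : Fin h → Finset W := fun i => Q.filter (fun w => G (z i) w ∧ G (z (nx i)) w)
  -- pairs in S1
  have ht1 : ∀ i : Fin h, z i ∈ S1 → z (nx i) ∈ S1 → h ≤ (t i).card := by
    intro i ha hb
    have hsub : Q ⊆ t i ∪ (Q.filter (fun w => ¬ G (z i) w) ∪ Q.filter (fun w => ¬ G (z (nx i)) w)) := by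
      intro w hw
      simp only [t, Finset.mem_union, Finset.mem_filter]
      tauto
    have h2 := Finset.card_le_card hsub
    have h3 := Finset.card_union_le (t i) (Q.filter (fun w => ¬ G (z i) w) ∪ Q.filter (fun w => ¬ G (z (nx i)) w))
    have h4 := Finset.card_union_le (Q.filter (fun w => ¬ G (z i) w)) (Q.filter (fun w => ¬ G (z (nx i)) w))
    have h5 := h1 _ ha
    have h6 := h1 _ hb
    omega
  have hmix : ∀ u v, u ∈ S0 → v ∈ S1 → 2 * K + 2 ≤ (Q.filter (fun w => G u w ∧ G v w)).card := by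
    intro u v hu hv
    have hsub : Q.filter (fun w => G u w) ⊆ Q.filter (fun w => G u w ∧ G v w) ∪ Q.filter (fun w => ¬ G v w) := by
      intro w hw
      simp only [Finset.mem_union, Finset.mem_filter] at hw ⊢
      tauto
    have h2 := Finset.card_le_card hsub
    have h3 := Finset.card_union_le (Q.filter (fun w => G u w ∧ G v w)) (Q.filter (fun w => ¬ G v w))
    have h5 := h1 _ hv
    have h6 := h0 _ hu
    omega
  have ht0 : ∀ i : Fin h, 2 * K + 2 ≤ (t i).card ∨ h ≤ (t i).card := by
    intro i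
    rcases hz i i.2 with ha | ha
    · rcases hzc i i.2 with hb | hb
      · exact absurd hb (Finset.disjoint_left.1 hdisj ha)
      · exact Or.inl (hmix _ _ ha hb)
    · rcases hz (nx i) (hnx i) with hb | hb
      · left
        have h2 := hmix _ _ hb ha
        have : Q.filter (fun w => G (z (nx i)) w ∧ G (z i) w) = t i := by
          simp only [t, and_comm]
        rwa [this] at h2
      · exact Or.inr (ht1 i ha hb)
  have hall : ∀ s : Finset (Fin h), s.card ≤ (s.biUnion t).card := by
    intro s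
    have hsh : s.card ≤ h := by
      have := Finset.card_le_univ s
      simpa using this
    by_cases hs : ∃ i ∈ s, h ≤ (t i).card
    · obtain ⟨i, hi, hti⟩ := hs
      exact hsh.trans (hti.trans (Finset.card_le_card (Finset.subset_biUnion_of_mem t hi)))
    · push Not at hs
      rcases s.eq_empty_or_nonempty with rfl | ⟨i, hi⟩
      · simp
      · have h2 : 2 * K + 2 ≤ (t i).card := by
          rcases ht0 i with h | h
          · exact h
          · exact absurd h (not_le.2 (hs i hi))
        have h3 : s ⊆ (univ : Finset (Fin h)).filter (fun i : Fin h => z i ∈ S0) ∪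
            (univ : Finset (Fin h)).filter (fun i : Fin h => z (nx i) ∈ S0) := by
          intro j hj
          simp only [Finset.mem_union, Finset.mem_filter, Finset.mem_univ, true_and]
          by_contra hcon
          push Not at hcon
          have ha : z j ∈ S1 := (hz j j.2).resolve_left hcon.1
          have hb : z (nx j) ∈ S1 := (hz _ (hnx j)).resolve_left hcon.2
          exact absurd (ht1 j ha hb) (not_le.2 (hs j hj))
        have h4 := Finset.card_le_card h3
        have h5 := Finset.card_union_le ((univ : Finset (Fin h)).filter (fun i : Fin h => z i ∈ S0))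
            ((univ : Finset (Fin h)).filter (fun i : Fin h => z (nx i) ∈ S0))
        have h6 := Finset.card_le_card (Finset.subset_biUnion_of_mem t hi)
        have hc1' : ((univ : Finset (Fin h)).filter (fun i : Fin h => z i ∈ S0)).card ≤ S0.card := hc1
        omega
  obtain ⟨q, hqi, hq⟩ := (Finset.all_card_le_biUnion_card_iff_exists_injective t).1 hall
  have hqQ : ∀ i, q i ∈ Q := fun i => (Finset.mem_filter.1 (hq i)).1
  have hqa : ∀ i : Fin h, G (z i) (q i) := fun i => (Finset.mem_filter.1 (hq i)).2.1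
  have hqb : ∀ i : Fin h, G (z (nx i)) (q i) := fun i => (Finset.mem_filter.1 (hq i)).2.2
  have hzQ : ∀ i, i < h → z i ∉ Q := by
    intro i hi hc
    rcases hz i hi with h' | h'
    · exact Finset.disjoint_left.1 hQ0 h' hc
    · exact Finset.disjoint_left.1 hQ1 h' hc
  let f : Fin (2 * h) → W := fun j => if j.1 % 2 = 0 then z (j.1 / 2) else q ⟨j.1 / 2, by omega⟩
  have hf0 : ∀ j : Fin (2 * h), j.1 % 2 = 0 → f j = z (j.1 / 2) := fun j hj => if_pos hj
  have hf1 : ∀ j : Fin (2 * h), ¬ j.1 % 2 = 0 → f j = q ⟨j.1 / 2, by omega⟩ := fun j hj => if_neg hj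
  have hfi : Function.Injective f := by
    intro i j hij
    have hi2 := i.2
    have hj2 := j.2
    by_cases hi : i.1 % 2 = 0 <;> by_cases hj : j.1 % 2 = 0
    · rw [hf0 i hi, hf0 j hj] at hij
      have := hzi _ _ (by omega) (by omega) hij
      exact Fin.ext (by omega)
    · rw [hf0 i hi, hf1 j hj] at hij
      exact absurd (hij ▸ hqQ _) (hzQ _ (by omega))
    · rw [hf1 i hi, hf0 j hj] at hij
      exact absurd (hij.symm ▸ hqQ _) (hzQ _ (by omega))
    · rw [hf1 i hi, hf1 j hj] at hij
      have := Fin.ext_iff.1 (hqi hij)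
      simp only at this
      exact Fin.ext (by omega)
  refine ⟨List.ofFn f, List.length_ofFn, List.nodup_ofFn.2 hfi, ?_, ?_⟩
  · rw [List.isChain_iff_getElem]
    intro i hi
    rw [List.length_ofFn] at hi
    rw [List.getElem_ofFn, List.getElem_ofFn]
    by_cases he : i % 2 = 0
    · rw [hf0 ⟨i, by omega⟩ he, hf1 ⟨i + 1, hi⟩ (by simp only; omega)]
      have h2 : (i + 1) / 2 = i / 2 := by omega
      have h3 := hqa ⟨i / 2, by omega⟩
      simp only [h2]
      exact h3
    · rw [hf1 ⟨i, by omega⟩ he, hf0 ⟨i + 1, hi⟩ (by simp only; omega)]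
      have h3 := hqb ⟨i / 2, by omega⟩
      have h2 : nx (i / 2) = (i + 1) / 2 := by
        change (i / 2 + 1) % h = _
        rw [Nat.mod_eq_of_lt (by omega)]
        omega
      simp only [h2] at h3
      exact hG _ _ h3
  · intro a b ha hb
    have hne : List.ofFn f ≠ [] := by
      intro hc
      have := congrArg List.length hc
      rw [List.length_ofFn] at this
      simp at this
      omega
    rw [List.head?_eq_getElem?, List.getElem?_eq_getElem (by rw [List.length_ofFn]; omega)] at ha
    rw [List.getLast?_eq_getElem?, List.length_ofFn, List.getElem?_eq_getElem (by rw [List.length_ofFn]; omega)] at hb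
    simp only [Option.some.injEq, List.getElem_ofFn] at ha hb
    rw [← ha, ← hb, hf0 ⟨0, by omega⟩ rfl, hf1 ⟨2 * h - 1, by omega⟩ (by simp only; omega)]
    have h3 := hqb ⟨h - 1, by omega⟩
    have h2 : nx (h - 1) = 0 := by
      change (h - 1 + 1) % h = 0
      rw [Nat.sub_add_cancel (by omega), Nat.mod_self]
    have h4 : (2 * h - 1) / 2 = h - 1 := by omega
    simp only [h2] at h3
    simp only [h4, Nat.zero_div]
    exact hG _ _ h3

end Pool.Agent.Lib.MP_779bc2_co
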