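import Pool.Agent.Lib.MP_779bc2_co.X7Defs
import Pool.Agent.Lib.MP_779bc2_co.X5Alt

/-! Row X7Beta (about 170 lines) -/

set_option autoImplicit false

namespace Pool.Agent.Lib.MP_779bc2_co

open Finset

theorem x7b_mono {W : Type} [Fintype W] [DecidableEq W] {p : Pm} {n m a : ℕ} {χ : W → W → Col p.s p.t} {N δ e e' : ℝ}
    {ι : Type} [Fintype ι] {cl : ι → Bool} {Q : ι → Finset W} (hN : 0 ≤ N) (he : e ≤ e')
    (h : Frame p n m a χ N δ e cl Q) : Frame p n m a χ N δ e' cl Q := by
  have h1 : e * N ≤ e' * N := mul_le_mul_of_nonneg_right he hN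
  have h2 : e * N ^ 2 ≤ e' * N ^ 2 := mul_le_mul_of_nonneg_right he (by positivity)
  refine ⟨h.disj, ?_, ?_, ?_, ?_, ?_, h.count⟩
  · intro i
    have := h.size i
    linarith
  · intro v
    obtain ⟨J, hJ, h3, h4⟩ := h.sel v
    exact ⟨J, hJ, h3, fun i hi j hj hij => (h4 i hi j hj hij).trans h2⟩
  · intro i j hij
    exact (h.own i j hij).trans h2
  · intro i
    exact (h.inner i).trans h2
  · intro i
    have := h.ratio i
    linarith

open Classical in
theorem x7b_bip (p : Pm) (δ : ℝ) (hδ : 0 < δ) : ∃ K n1 : ℕ, ∀ (W : Type) [Fintype W] [DecidableEq W],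
    n1 ≤ Fintype.card W → ∀ (n m : ℕ) (χ : W → W → Col p.s p.t), Free p n m χ → ∀ (S Q : Finset W),
      (S.filter (fun v => ∃ k, δ * Fintype.card W ≤ dg χ (.bip k) v Q)).card ≤ K := by
  choose K0 n1 hk using fun k => kst (p.b k) (p.c k) δ hδ
  refine ⟨∑ k, K0 k, ∑ k, n1 k, ?_⟩
  intro W _ _ hW n m χ hf S Q
  have hsub : S.filter (fun v => ∃ k, δ * Fintype.card W ≤ dg χ (.bip k) v Q) ⊆
      univ.biUnion (fun k => S.filter (fun v => δ * Fintype.card W ≤ dg χ (.bip k) v Q)) := by
    intro v hv
    simp only [mem_filter, mem_biUnion, mem_univ, true_and] at hv ⊢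
    obtain ⟨h1, k, h2⟩ := hv
    exact ⟨k, h1, h2⟩
  refine (card_le_card hsub).trans (card_biUnion_le.trans (sum_le_sum fun k _ => ?_))
  by_contra hcon
  push Not at hcon
  have hn : n1 k ≤ ∑ k, n1 k := single_le_sum (f := n1) (fun _ _ => Nat.zero_le _) (mem_univ k)
  obtain ⟨A, hA, C, hC, hA1, hC1, hd, hG⟩ := hk k W (Fintype.card W : ℝ) (by exact_mod_cast hn.trans hW)
    (fun u w => χ u w = .bip k) (S.filter (fun v => δ * Fintype.card W ≤ dg χ (.bip k) v Q)) Q
    (by exact_mod_cast card_le_univ Q) hcon.le (fun v hv => by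
      have := (mem_filter.mp hv).2
      unfold dg at this
      convert this)
  exact hf.bip k ⟨A, C, hA1, hC1, hd, hG⟩

open Classical in
theorem x7b_non {p : Pm} {W : Type} [Fintype W] [DecidableEq W] (χ : W → W → Col p.s p.t) (z : W) (Q Q' : Finset W)
    (hQ' : Q' ⊆ Q) (κ : Bool) (A B D : ℝ) (h1 : dg χ (.long κ) z Q ≤ A) (h2 : ∀ j, dg χ (.odd j) z Q ≤ B)
    (h3 : ∀ k, dg χ (.bip k) z Q ≤ D) :
    ((Q'.filter (fun w => ¬ χ z w = .long (!κ))).card : ℝ) ≤ A + p.t * B + p.s * D := by
  have hsub : Q'.filter (fun w => ¬ χ z w = .long (!κ)) ⊆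
      (Q.filter (fun w => χ z w = .long κ) ∪ univ.biUnion (fun j => Q.filter (fun w => χ z w = .odd j))) ∪
        univ.biUnion (fun k => Q.filter (fun w => χ z w = .bip k)) := by
    intro w hw
    simp only [mem_filter, mem_union, mem_biUnion, mem_univ, true_and] at hw ⊢
    have hwQ := hQ' hw.1
    rcases hc : χ z w with i | k | j
    · left; left
      refine ⟨hwQ, ?_⟩
      have : i ≠ !κ := fun h => hw.2 (by rw [hc, h])
      have h4 : i = κ := by
        cases i <;> cases κ <;> simp_all
      rw [h4]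
    · right
      exact ⟨k, hwQ, rfl⟩
    · left; right
      exact ⟨j, hwQ, rfl⟩
  have e1 : ((univ.biUnion (fun j => Q.filter (fun w => χ z w = .odd j))).card : ℝ) ≤ p.t * B := by
    calc ((univ.biUnion (fun j => Q.filter (fun w => χ z w = .odd j))).card : ℝ)
        ≤ ((∑ j, (Q.filter (fun w => χ z w = .odd j)).card : ℕ) : ℝ) := by exact_mod_cast card_biUnion_le
      _ = ∑ j, ((Q.filter (fun w => χ z w = .odd j)).card : ℝ) := by push_cast; rfl
      _ ≤ ∑ _j : Fin p.t, B := sum_le_sum fun j _ => by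
          have := h2 j
          unfold dg at this
          convert this
      _ = p.t * B := by simp
  have e2 : ((univ.biUnion (fun k => Q.filter (fun w => χ z w = .bip k))).card : ℝ) ≤ p.s * D := by
    calc ((univ.biUnion (fun k => Q.filter (fun w => χ z w = .bip k))).card : ℝ)
        ≤ ((∑ k, (Q.filter (fun w => χ z w = .bip k)).card : ℕ) : ℝ) := by exact_mod_cast card_biUnion_le
      _ = ∑ k, ((Q.filter (fun w => χ z w = .bip k)).card : ℝ) := by push_cast; rfl
      _ ≤ ∑ _k : Fin p.s, D := sum_le_sum fun k _ => by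
          have := h3 k
          unfold dg at this
          convert this
      _ = p.s * D := by simp
  have e3 : ((Q.filter (fun w => χ z w = .long κ)).card : ℝ) ≤ A := by
    unfold dg at h1
    convert h1
  have e4 := card_le_card hsub
  have e5 := card_union_le (Q.filter (fun w => χ z w = .long κ) ∪ univ.biUnion (fun j => Q.filter (fun w => χ z w = .odd j)))
    (univ.biUnion (fun k => Q.filter (fun w => χ z w = .bip k)))
  have e6 := card_union_le (Q.filter (fun w => χ z w = .long κ)) (univ.biUnion (fun j => Q.filter (fun w => χ z w = .odd j)))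
  have e7 : ((Q'.filter (fun w => ¬ χ z w = .long (!κ))).card : ℝ) ≤
      (Q.filter (fun w => χ z w = .long κ)).card + (univ.biUnion (fun j => Q.filter (fun w => χ z w = .odd j))).card +
        (univ.biUnion (fun k => Q.filter (fun w => χ z w = .bip k))).card := by
    exact_mod_cast e4.trans (e5.trans (Nat.add_le_add_right e6 _))
  linarith

/-- Suppose `L' = len (!cl i)` is even and `clB i` has a subset `S` with `L'/2` elements. Let `G u w = (χ u w = long (!cl i))`. `S0` = elements of `S` with at least `kB N` edges of some colour `bip k` to `Q i`: by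
`kst` (and `Free.bip`) `|S0| ≤ K := s K0`; `S1 = S \ S0`; `Q = Q i \ S`. By `typical` (`e3 = kT`) all but `kT N` elements `q` of `Q i` satisfy: at least `|Q i| - (tδ+kT) N ≥ k2 N` edges of colour `long (cl i)`, so they are
not in `clB i`: `|Q i ∩ S| ≤ kT N`. `κ = ⌊(t k1 + k2 + s kB) N⌋ ≤ (3/8) k3 N`. For `z ∈ S1` at most `κ` elements of `Q` are not joined by `G`; for `z ∈ S0` at least `(k3 - kT) N ≥ κ + 2K + 2` are;
`|Q| ≥ len (cl i) - (e + kT) N ≥ 2κ + L'/2`, because `L'/2 ≤ (3/4) len (cl i) + (e/2) N` and `len (cl i) ≥ (c/2) N` (`len_lower`); `|S1| ≥ K + 2` for large `L'`. `alt` gives a cycle of length `L'`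
in colour `long (!cl i)`. -/
theorem beta_le (p : Pm) (a : ℕ) (ha1 : 1 ≤ a) (c : ℝ) (hc : 0 < c) : ∃ e0 > (0 : ℝ), ∀ e > (0 : ℝ), e ≤ e0 → ∃ n1 : ℕ,
    ∀ (W : Type) [Fintype W] [DecidableEq W], n1 ≤ Fintype.card W → ∀ (n m : ℕ), n1 ≤ n → n1 ≤ m →
      c * Fintype.card W ≤ max (n : ℝ) m → ∀ (χ : W → W → Col p.s p.t), Free p n m χ →
      ∀ (ι : Type) [Fintype ι] (cl : ι → Bool) (Q : ι → Finset W), Frame p n m a χ (Fintype.card W) (k1 p c) e cl Q →
      ∀ f : W → ι, (∀ v, Asg p n m χ (Fintype.card W) (k1 p c) (cl (f v)) (Q (f v)) v) → ∀ i,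
        Even (len n m (!cl i)) → (clB p c χ cl Q f i).card ≤ len n m (!cl i) / 2 - 1 := by
  classical
  -- constants
  have hk3 := k3_pos p hc
  have hk1 := k1_pos p hc
  have hk2 := k2_pos p hc
  have hkB := kB_pos p hc
  have hkT := kT_pos p hc
  have c3 : k3 p c ≤ c / 400 := by
    unfold k3
    have : (0 : ℝ) ≤ p.ell := Nat.cast_nonneg _
    apply div_le_div_of_nonneg_left hc.le (by norm_num)
    linarith
  have c1 : ((p.t : ℝ) + 1) * k1 p c = k3 p c / 8 := by
    unfold k1
    have : (0 : ℝ) < p.t + 1 := by positivity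
    field_simp
  have cB : ((p.s : ℝ) + 1) * kB p c = k3 p c / 8 := by
    unfold kB
    have : (0 : ℝ) < p.s + 1 := by positivity
    field_simp
  have c2 : k2 p c = k3 p c / 8 := rfl
  have cT : kT p c = k3 p c / 160 := rfl
  obtain ⟨et, het, nt, htyp⟩ := typical p a ha1 c (k1 p c) (kT p c) hc hk1 hkT (by rw [c1]; linarith)
  obtain ⟨K, nb, hbip⟩ := x7b_bip p (kB p c) hkB
  refine ⟨min et (c / 100), lt_min het (by positivity), ?_⟩
  intro e he hee
  have hee1 : e ≤ et := hee.trans (min_le_left _ _)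
  have hee2 : e ≤ c / 100 := hee.trans (min_le_right _ _)
  obtain ⟨nK, hnK⟩ := exists_nat_ge ((2 * (K : ℝ) + 2) / (k3 p c / 2))
  refine ⟨nt + nb + nK + (4 * K + 4), ?_⟩
  intro W _ _ hW n m hn hm hmax χ hfree ι _ cl Q hF f hAsg i hev
  set N : ℝ := (Fintype.card W : ℝ) with hNdef
  have hN0 : 0 ≤ N := Nat.cast_nonneg _
  have hNK : 2 * (K : ℝ) + 2 ≤ k3 p c / 2 * N := by
    have h1 : (nK : ℝ) ≤ N := by
      have h0 : nK ≤ Fintype.card W := by omega
      rw [hNdef]
      exact Nat.cast_le.mpr h0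
    have h2 := hnK.trans h1
    rw [div_le_iff₀ (by positivity)] at h2
    linarith
  have hL' : 4 * K + 4 ≤ len n m (!cl i) := by
    unfold len
    split <;> omega
  have hlow := len_lower p n m a c N (k1 p c) e hc (by linarith) hN0 hmax W χ ι cl Q hF i
  have hsize := hF.size i
  have hratio := hF.ratio i
  have hty := htyp W (by omega) n m hmax χ hfree ι cl Q (x7b_mono hN0 hee1 hF) f hAsg i
  by_contra hcon
  push Not at hcon
  have hcard : len n m (!cl i) / 2 ≤ (clB p c χ cl Q f i).card := by omega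
  obtain ⟨S, hS, hScard⟩ := exists_subset_card_eq hcard
  set S0 := S.filter (fun v => ∃ k, kB p c * Fintype.card W ≤ dg χ (.bip k) v (Q i)) with hS0
  have hS0K : S0.card ≤ K := hbip W (by omega) n m χ hfree S (Q i)
  have hsum : S0.card + (S \ S0).card = len n m (!cl i) / 2 := by
    rw [← hScard, add_comm]
    exact card_sdiff_add_card_eq_card (filter_subset _ _)
  -- elements of `Q i ∩ S`
  have hQS : ((Q i ∩ S).card : ℝ) ≤ kT p c * N := by
    refine le_trans ?_ hty
    have : Q i ∩ S ⊆ (Q i) \ ((Typ p χ ((p.t * k1 p c + kT p c) * N) (cl i) (Q i)).filter (fun q => f q = i)) := by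
      intro q hq
      rw [mem_inter] at hq
      rw [mem_sdiff]
      refine ⟨hq.1, fun hq2 => ?_⟩
      have hqB := hS hq.2
      unfold clB at hqB
      rw [mem_filter] at hqB
      have hqT := (mem_filter.mp hq2).1
      unfold Typ at hqT
      have h3 := (mem_filter.mp hqT).2
      have h4 : dg χ (.long (cl i)) q (Q i) < k2 p c * N := hqB.2.2.1
      unfold dg at h4
      have h5 : ((Q i).filter (fun w => χ q w = .long (cl i))).card +
          ((Q i).filter (fun w => χ q w ≠ .long (cl i))).card = (Q i).card :=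
        card_filter_add_card_filter_not _
      have h6 : (((Q i).filter (fun w => χ q w = .long (cl i))).card : ℝ) +
          (((Q i).filter (fun w => χ q w ≠ .long (cl i))).card : ℝ) = ((Q i).card : ℝ) := by
        exact_mod_cast h5
      have h4' : (((Q i).filter (fun w => χ q w = .long (cl i))).card : ℝ) < k2 p c * N := by
        convert h4
      have h3' : (((Q i).filter (fun w => χ q w ≠ .long (cl i))).card : ℝ) ≤ (p.t * k1 p c + kT p c) * N := by
        convert h3
      have h7 : (p.t * k1 p c + kT p c) * N ≤ (c / 8) * N :=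
        mul_le_mul_of_nonneg_right (by nlinarith) hN0
      have h8 : k2 p c * N ≤ c / 8 * N := mul_le_mul_of_nonneg_right (by linarith) hN0
      have h9 : e * N ≤ c / 100 * N := mul_le_mul_of_nonneg_right hee2 hN0
      have h10 : 0 ≤ c * N := by positivity
      linarith
    exact_mod_cast card_le_card this
  -- the parameter `κ`
  set κ : ℕ := ⌊(k2 p c + p.t * k1 p c + p.s * kB p c) * N⌋₊ with hκ
  have hκle : (κ : ℝ) ≤ 3 / 8 * k3 p c * N := by
    refine (Nat.floor_le ?_).trans ?_
    · positivity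
    · refine mul_le_mul_of_nonneg_right ?_ hN0
      have : p.t * k1 p c ≤ k3 p c / 8 := by linarith
      have : p.s * kB p c ≤ k3 p c / 8 := by linarith
      linarith
  have hsd : (((Q i) \ S).card : ℝ) = (Q i).card - (Q i ∩ S).card := by
    have := card_sdiff_add_card_inter (Q i) S
    have h : (((Q i) \ S).card : ℝ) + ((Q i ∩ S).card : ℝ) = (Q i).card := by exact_mod_cast this
    linarith
  have h3c : k3 p c * N ≤ c / 400 * N := mul_le_mul_of_nonneg_right c3 hN0
  have hec : e * N ≤ c / 100 * N := mul_le_mul_of_nonneg_right hee2 hN0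
  have hcN : 0 ≤ c * N := by positivity
  have h3N : 0 ≤ k3 p c * N := by positivity
  have hL'2 : ((len n m (!cl i) / 2 : ℕ) : ℝ) ≤ (len n m (!cl i) : ℝ) / 2 := Nat.cast_div_le
  have key := alt (fun u w => χ u w = Col.long (!cl i)) (fun u w h => by rw [hfree.symm w u]; exact h)
    S0 (S \ S0) ((Q i) \ S) κ K disjoint_sdiff
    (disjoint_sdiff.mono_left (filter_subset _ _))
    (disjoint_sdiff.mono_left sdiff_subset) hS0K (by omega)
    (fun z hz => by
      rw [mem_sdiff] at hz
      have hzB := hS hz.1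
      unfold clB at hzB
      rw [mem_filter] at hzB
      obtain ⟨-, hfz, hz1, hz2⟩ := hzB
      have hA := hAsg z
      rw [hfz] at hA
      have h0 := x7b_non χ z (Q i) ((Q i) \ S) sdiff_subset (cl i) (k2 p c * N) (k1 p c * N) (kB p c * N) hz1.le
        (fun j => by
          have := (hA.1 j).le
          unfold dg
          convert this)
        (fun k => by
          by_contra hk
          push Not at hk
          exact hz.2 (mem_filter.mpr ⟨hz.1, k, hk.le⟩))
      have h1 : k2 p c * N + p.t * (k1 p c * N) + p.s * (kB p c * N) = (k2 p c + p.t * k1 p c + p.s * kB p c) * N := by ring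
      rw [h1] at h0
      have h2 := Nat.le_floor h0
      convert h2)
    (fun z hz => by
      have hzS : z ∈ S := (mem_filter.mp hz).1
      have hzB := hS hzS
      unfold clB at hzB
      rw [mem_filter] at hzB
      obtain ⟨-, hfz, hz1, hz2⟩ := hzB
      unfold dg at hz2
      have hz2' : k3 p c * N ≤ (((Q i).filter (fun w => χ z w = .long (!cl i))).card : ℝ) := by
        convert hz2
      have h5 : (Q i).filter (fun w => χ z w = .long (!cl i)) ⊆
          ((Q i) \ S).filter (fun w => χ z w = .long (!cl i)) ∪ (Q i ∩ S) := by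
        intro w hw
        rw [mem_filter] at hw
        rw [mem_union, mem_filter, mem_sdiff, mem_inter]
        by_cases hwS : w ∈ S
        · right; exact ⟨hw.1, hwS⟩
        · left; exact ⟨⟨hw.1, hwS⟩, hw.2⟩
      have h6 : (((Q i).filter (fun w => χ z w = .long (!cl i))).card : ℝ) ≤
          (((Q i) \ S).filter (fun w => χ z w = .long (!cl i))).card + (Q i ∩ S).card := by
        exact_mod_cast (card_le_card h5).trans (card_union_le _ _)
      have h7 : ((κ + 2 * K + 2 : ℕ) : ℝ) ≤ ((((Q i) \ S).filter (fun w => χ z w = .long (!cl i))).card : ℝ) := by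
        push_cast
        rw [cT] at hQS
        linarith
      have h8 := Nat.cast_le.mp h7
      convert h8)
    (by
      rw [hsum]
      have h7 : ((2 * κ + len n m (!cl i) / 2 : ℕ) : ℝ) ≤ (((Q i) \ S).card : ℝ) := by
        push_cast
        rw [hsd]
        rw [cT] at hQS
        have : ((len n m (!cl i) / 2 : ℕ) : ℝ) ≤ (len n m (!cl i) : ℝ) / 2 := hL'2
        linarith
      exact_mod_cast h7)
  rw [hsum, Nat.mul_div_cancel' hev.two_dvd] at key
  exact hfree.long _ key

end Pool.Agent.Lib.MP_779bc2_co
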