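import Pool.Agent.Lib.MP_779bc2_co.Defs

/-! Row X6Bonly (about 110 lines): `ℓ+1` vertices with almost all edges of colours `bip` -/

set_option autoImplicit false

namespace Pool.Agent.Lib.MP_779bc2_co

open Finset

open Classical in
/-- At least `|Q| - (ℓ+1) ρ - (ℓ+1) ≥ n2 - (ℓ+1)` elements `w ∈ Q \ S` are joined to all `ℓ+1` elements of `S` in colours `bip`. For each of them, `∑_k #{v ∈ S : χ v w = bip k} = ℓ+1 > ∑_k (b_k - 1)`, so there are `k` and a
`b_k`-subset of `S` joined to `w` in colour `bip k`. There are at most `s 2^(ℓ+1)` pairs (k, subset), so one of them is chosen at least `max_k c_k` times if `n2 = (ℓ+1) + s 2^(ℓ+1) (∑ c_k) + 1`. -/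
theorem bonly (p : Pm) : ∃ n2 : ℕ, ∀ (W : Type) [Fintype W] [DecidableEq W] (χ : W → W → Col p.s p.t), (∀ u w, χ u w = χ w u) →
    ∀ (S Q : Finset W) (ρ : ℝ), S.card = p.ell + 1 →
    (∀ v ∈ S, ((Q.filter (fun w => ¬ ∃ k, χ v w = .bip k)).card : ℝ) ≤ ρ) →
    ((p.ell : ℝ) + 1) * ρ + n2 ≤ Q.card → ∃ k, HasBip (fun u w => χ u w = .bip k) (p.b k) (p.c k) := by
  refine ⟨(p.ell + 1) + p.s * 2 ^ (p.ell + 1) * (∑ k, p.c k) + 1, ?_⟩
  intro W _ _ χ hsymm S Q ρ hS hρ hQ
  by_contra hcon
  push Not at hcon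
  -- the good vertices
  set good : Finset W := (Q \ S).filter (fun w => ∀ v ∈ S, ∃ k, χ v w = .bip k) with hgood
  set bad : W → Finset W := fun v => Q.filter (fun w => ¬ ∃ k, χ v w = .bip k) with hbad
  have hsub : Q ⊆ good ∪ (S ∪ S.biUnion bad) := by
    intro w hw
    by_cases h1 : w ∈ S
    · exact mem_union_right _ (mem_union_left _ h1)
    · by_cases h2 : ∀ v ∈ S, ∃ k, χ v w = .bip k
      · refine mem_union_left _ ?_
        rw [hgood, mem_filter, mem_sdiff]
        exact ⟨⟨hw, h1⟩, h2⟩
      · push Not at h2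
        obtain ⟨v, hv, h3⟩ := h2
        refine mem_union_right _ (mem_union_right _ ?_)
        rw [mem_biUnion]
        refine ⟨v, hv, ?_⟩
        rw [hbad]
        simp only [mem_filter]
        exact ⟨hw, by push Not; exact h3⟩
  have hcard1 : (Q.card : ℝ) ≤ good.card + ((p.ell : ℝ) + 1) + ((p.ell : ℝ) + 1) * ρ := by
    have h1 : Q.card ≤ good.card + (S.card + (S.biUnion bad).card) :=
      (card_le_card hsub).trans ((card_union_le _ _).trans
        (Nat.add_le_add_left (card_union_le _ _) _))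
    have h2 : ((S.biUnion bad).card : ℝ) ≤ ((p.ell : ℝ) + 1) * ρ := by
      have h3 : ((S.biUnion bad).card : ℝ) ≤ ∑ v ∈ S, ((bad v).card : ℝ) := by
        exact_mod_cast card_biUnion_le
      have h4 : ∑ v ∈ S, ((bad v).card : ℝ) ≤ S.card • ρ := sum_le_card_nsmul _ _ _ hρ
      rw [nsmul_eq_mul, hS] at h4
      push_cast at h4
      exact h3.trans h4
    have h5 : (Q.card : ℝ) ≤ good.card + (S.card + (S.biUnion bad).card) := by exact_mod_cast h1
    rw [hS] at h5
    push_cast at h5
    linarith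
  have hcard2 : p.s * 2 ^ (p.ell + 1) * (∑ k, p.c k) < good.card := by
    have h1 : ((p.s * 2 ^ (p.ell + 1) * (∑ k, p.c k) : ℕ) : ℝ) < good.card := by
      push_cast at hQ ⊢
      linarith
    exact_mod_cast h1
  -- the index set
  set P : Finset (Fin p.s × Finset W) :=
    ((univ : Finset (Fin p.s)) ×ˢ S.powerset).filter (fun q => q.2.card = p.b q.1) with hP
  set F : Fin p.s × Finset W → Finset W := fun q => good.filter (fun w => ∀ v ∈ q.2, χ v w = .bip q.1)
    with hF
  have hPcard : P.card ≤ p.s * 2 ^ (p.ell + 1) := by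
    refine (card_filter_le _ _).trans ?_
    rw [card_product, card_powerset, card_univ, Fintype.card_fin, hS]
  have hFcard : ∀ q ∈ P, (F q).card ≤ ∑ k, p.c k := by
    intro q hq
    by_contra hlt
    push Not at hlt
    have h1 : p.c q.1 ≤ (F q).card :=
      (single_le_sum (f := fun k => p.c k) (fun _ _ => Nat.zero_le _) (mem_univ q.1)).trans hlt.le
    obtain ⟨t, ht, htc⟩ := exists_subset_card_eq h1
    rw [hP, mem_filter, mem_product, mem_powerset] at hq
    refine hcon q.1 ⟨q.2, t, hq.2, htc, ?_, ?_⟩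
    · rw [disjoint_left]
      intro w hw hw'
      have h2 := ht hw'
      rw [hF] at h2
      simp only [mem_filter] at h2
      have h3 := h2.1
      rw [hgood, mem_filter, mem_sdiff] at h3
      exact h3.1.2 (hq.1.2 hw)
    · intro u hu w hw
      have h2 := ht hw
      rw [hF] at h2
      simp only [mem_filter] at h2
      exact h2.2 u hu
  have hcov : good ⊆ P.biUnion F := by
    intro w hw
    have hw2 := hw
    rw [hgood, mem_filter] at hw2
    -- some colour class is large
    have hex : ∃ k, p.b k ≤ (S.filter (fun v => χ v w = .bip k)).card := by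
      by_contra hno
      push Not at hno
      have h1 : S ⊆ (univ : Finset (Fin p.s)).biUnion (fun k => S.filter (fun v => χ v w = .bip k)) := by
        intro v hv
        obtain ⟨k, hk⟩ := hw2.2 v hv
        rw [mem_biUnion]
        exact ⟨k, mem_univ _, mem_filter.2 ⟨hv, hk⟩⟩
      have h2 : S.card ≤ ∑ k, (p.b k - 1) := by
        refine (card_le_card h1).trans (card_biUnion_le.trans (sum_le_sum ?_))
        intro k _
        exact Nat.le_sub_one_of_lt (hno k)
      have h3 : p.ell = ∑ k, (p.b k - 1) := rfl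
      omega
    obtain ⟨k, hk⟩ := hex
    obtain ⟨t, ht, htc⟩ := exists_subset_card_eq hk
    rw [mem_biUnion]
    refine ⟨(k, t), ?_, ?_⟩
    · rw [hP, mem_filter, mem_product, mem_powerset]
      exact ⟨⟨mem_univ _, ht.trans (filter_subset _ _)⟩, htc⟩
    · rw [hF]
      simp only [mem_filter]
      exact ⟨hw, fun v hv => (mem_filter.1 (ht hv)).2⟩
  have h1 : good.card ≤ P.card * (∑ k, p.c k) := by
    refine (card_le_card hcov).trans (card_biUnion_le.trans ?_)
    have := sum_le_card_nsmul P (fun q => (F q).card) _ hFcard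
    simpa using this
  have h2 : P.card * (∑ k, p.c k) ≤ p.s * 2 ^ (p.ell + 1) * (∑ k, p.c k) :=
    Nat.mul_le_mul_right _ hPcard
  omega

end Pool.Agent.Lib.MP_779bc2_co
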