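import Pool.Agent.Lib.MP_779bc2_co.X7Defs
import Pool.Agent.Lib.MP_779bc2_co.X6Bonly

/-! Row X7Gamma (about 90 lines) -/

set_option autoImplicit false

namespace Pool.Agent.Lib.MP_779bc2_co

open Finset

open Classical in
theorem x7g_non {p : Pm} {W : Type} [Fintype W] [DecidableEq W] (χ : W → W → Col p.s p.t) (z : W) (Q : Finset W)
    (κ : Bool) (A B D : ℝ) (h1 : dg χ (.long κ) z Q ≤ A) (h2 : ∀ j, dg χ (.odd j) z Q ≤ B)
    (h3 : dg χ (.long (!κ)) z Q ≤ D) :
    ((Q.filter (fun w => ¬ ∃ k, χ z w = .bip k)).card : ℝ) ≤ A + p.t * B + D := by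
  have hsub : Q.filter (fun w => ¬ ∃ k, χ z w = .bip k) ⊆
      (Q.filter (fun w => χ z w = .long κ) ∪ univ.biUnion (fun j => Q.filter (fun w => χ z w = .odd j))) ∪
        Q.filter (fun w => χ z w = .long (!κ)) := by
    intro w hw
    simp only [mem_filter, mem_union, mem_biUnion, mem_univ, true_and] at hw ⊢
    obtain ⟨hwQ, hw2⟩ := hw
    rcases hc : χ z w with i | k | j
    · by_cases hi : i = κ
      · left; left; exact ⟨hwQ, by rw [hi]⟩
      · right
        have h4 : i = !κ := by cases i <;> cases κ <;> simp_all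
        exact ⟨hwQ, by rw [h4]⟩
    · exact absurd ⟨k, hc⟩ hw2
    · left; right; exact ⟨j, hwQ, rfl⟩
  have e1 : ((univ.biUnion (fun j => Q.filter (fun w => χ z w = .odd j))).card : ℝ) ≤ p.t * B := by
    calc ((univ.biUnion (fun j => Q.filter (fun w => χ z w = .odd j))).card : ℝ)
        ≤ ((∑ j, (Q.filter (fun w => χ z w = .odd j)).card : ℕ) : ℝ) := by exact_mod_cast card_biUnion_le
      _ = ∑ j, ((Q.filter (fun w => χ z w = .odd j)).card : ℝ) := by push_cast; rfl
      _ ≤ ∑ _j : Fin p.t, B := sum_le_sum fun j _ => by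
          have := h2 j
          unfold dg at this
          convert this
      _ = p.t * B := by simp
  have e3 : ((Q.filter (fun w => χ z w = .long κ)).card : ℝ) ≤ A := by
    unfold dg at h1
    convert h1
  have e3' : ((Q.filter (fun w => χ z w = .long (!κ))).card : ℝ) ≤ D := by
    unfold dg at h3
    convert h3
  have e4 := card_le_card hsub
  have e5 := card_union_le (Q.filter (fun w => χ z w = .long κ) ∪ univ.biUnion (fun j => Q.filter (fun w => χ z w = .odd j)))
    (Q.filter (fun w => χ z w = .long (!κ)))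
  have e6 := card_union_le (Q.filter (fun w => χ z w = .long κ)) (univ.biUnion (fun j => Q.filter (fun w => χ z w = .odd j)))
  have e7 : ((Q.filter (fun w => ¬ ∃ k, χ z w = .bip k)).card : ℝ) ≤
      (Q.filter (fun w => χ z w = .long κ)).card + (univ.biUnion (fun j => Q.filter (fun w => χ z w = .odd j))).card +
        (Q.filter (fun w => χ z w = .long (!κ))).card := by
    exact_mod_cast e4.trans (e5.trans (Nat.add_le_add_right e6 _))
  linarith

/-- An `(ℓ+1)`-subset `S` of `clC i`: every `v ∈ S` has at most `(t k1 + k2 + k3) N ≤ (5/4) k3 N` edges to `Q i` which are not of a colour `bip k`, and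
`(ℓ+1) (5/4) k3 N + n2 ≤ (c/160) N + n2 ≤ (c/2 - e) N ≤ |Q i|` (`len_lower`, `Frame.size`). `bonly` gives a `K_{b_k,c_k}`. -/
theorem gamma_le (p : Pm) (a : ℕ) (ha1 : 1 ≤ a) (c : ℝ) (hc : 0 < c) : ∃ e0 > (0 : ℝ), ∀ e > (0 : ℝ), e ≤ e0 → ∃ n1 : ℕ,
    ∀ (W : Type) [Fintype W] [DecidableEq W], n1 ≤ Fintype.card W → ∀ (n m : ℕ), n1 ≤ n → n1 ≤ m →
      c * Fintype.card W ≤ max (n : ℝ) m → ∀ (χ : W → W → Col p.s p.t), Free p n m χ →
      ∀ (ι : Type) [Fintype ι] (cl : ι → Bool) (Q : ι → Finset W), Frame p n m a χ (Fintype.card W) (k1 p c) e cl Q →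
      ∀ f : W → ι, (∀ v, Asg p n m χ (Fintype.card W) (k1 p c) (cl (f v)) (Q (f v)) v) → ∀ i,
        (clC p c χ cl Q f i).card ≤ p.ell := by
  classical
  have hk3 := k3_pos p hc
  have hk1 := k1_pos p hc
  have c1 : ((p.t : ℝ) + 1) * k1 p c = k3 p c / 8 := by
    unfold k1
    have : (0 : ℝ) < p.t + 1 := by positivity
    field_simp
  have c2 : k2 p c = k3 p c / 8 := rfl
  have hl : (0 : ℝ) ≤ p.ell := Nat.cast_nonneg _
  have c4 : ((p.ell : ℝ) + 1) * k3 p c ≤ c / 200 := by
    unfold k3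
    rw [mul_div_assoc', div_le_div_iff₀ (by positivity) (by norm_num)]
    nlinarith
  obtain ⟨n2, hbon⟩ := bonly p
  refine ⟨c / 100, by positivity, ?_⟩
  intro e he hee
  obtain ⟨nK, hnK⟩ := exists_nat_ge ((n2 : ℝ) / (c / 4))
  refine ⟨nK, ?_⟩
  intro W _ _ hW n m hn hm hmax χ hfree ι _ cl Q hF f hAsg i
  set N : ℝ := (Fintype.card W : ℝ) with hNdef
  have hN0 : 0 ≤ N := Nat.cast_nonneg _
  have hNK : (n2 : ℝ) ≤ c / 4 * N := by
    have h1 : (nK : ℝ) ≤ N := by
      rw [hNdef]
      exact Nat.cast_le.mpr hW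
    have h2 := hnK.trans h1
    rw [div_le_iff₀ (by positivity)] at h2
    linarith
  have hlow := len_lower p n m a c N (k1 p c) e hc (by linarith) hN0 hmax W χ ι cl Q hF i
  have hsize := hF.size i
  by_contra hcon
  push Not at hcon
  obtain ⟨S, hS, hScard⟩ := exists_subset_card_eq (Nat.succ_le_of_lt hcon)
  obtain ⟨k, hk⟩ := hbon W χ hfree.symm S (Q i) (5 / 4 * k3 p c * N) hScard (by
      intro v hv
      have hvC := hS hv
      unfold clC at hvC
      rw [mem_filter] at hvC
      obtain ⟨-, hfv, hv1, hv2⟩ := hvC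
      have hA := hAsg v
      rw [hfv] at hA
      have h0 := x7g_non χ v (Q i) (cl i) (k2 p c * N) (k1 p c * N) (k3 p c * N) hv1.le
        (fun j => by
          have := (hA.1 j).le
          unfold dg
          convert this) hv2.le
      have h1 : k2 p c * N + p.t * (k1 p c * N) + k3 p c * N = (k2 p c + p.t * k1 p c + k3 p c) * N := by ring
      rw [h1] at h0
      have h2 : (k2 p c + p.t * k1 p c + k3 p c) * N ≤ 5 / 4 * k3 p c * N := by
        refine mul_le_mul_of_nonneg_right ?_ hN0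
        linarith
      have h3 := h0.trans h2
      convert h3)
    (by
      have hcN : 0 ≤ c * N := by positivity
      have h1 : ((p.ell : ℝ) + 1) * (5 / 4 * k3 p c * N) ≤ 5 / 4 * (c / 200) * N := by
        have : ((p.ell : ℝ) + 1) * (5 / 4 * k3 p c * N) = 5 / 4 * (((p.ell : ℝ) + 1) * k3 p c) * N := by ring
        rw [this]
        refine mul_le_mul_of_nonneg_right ?_ hN0
        linarith
      have hec : e * N ≤ c / 100 * N := mul_le_mul_of_nonneg_right hee hN0
      linarith)
  exact hfree.bip k hk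

end Pool.Agent.Lib.MP_779bc2_co
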