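import Pool.Agent.Lib.MP_779bc2_co.X1Assign
import Pool.Agent.Lib.MP_779bc2_co.X7Alpha
import Pool.Agent.Lib.MP_779bc2_co.X7Beta
import Pool.Agent.Lib.MP_779bc2_co.X7Gamma

/-! Part III: assembly -/

set_option autoImplicit false

namespace Pool.Agent.Lib.MP_779bc2_co

open Finset

/-- plain cliques: `cap ≤ F`; sided cliques: `2 cap ≤ F`. -/
theorem cap_le (p : Pm) (n m : ℕ) (hn : 4 ≤ n) (hm : 4 ≤ m) (κ : Bool) :
    (Even (len n m (!κ)) → cap p n m κ ≤ Fval n m p.ell) ∧
      (Odd (len n m (!κ)) → 2 * cap p n m κ ≤ Fval n m p.ell) := by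
  unfold cap Fval
  refine ⟨fun h => ?_, fun h => ?_⟩
  · rw [if_pos h]
    cases κ
    · refine le_trans ?_ ((le_max_left _ _).trans (le_max_left _ _))
      simp only [len, Bool.not_false, if_true, Bool.false_eq_true, if_false] at h ⊢
      obtain ⟨r, hr⟩ := h
      omega
    · refine le_trans ?_ ((le_max_right _ _).trans (le_max_left _ _))
      simp only [len, Bool.not_true, if_true, Bool.false_eq_true, if_false] at h ⊢
      obtain ⟨r, hr⟩ := h
      omega
  · have h' : ¬ Even (len n m (!κ)) := Nat.not_even_iff_odd.mpr h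
    rw [if_neg h']
    cases κ
    · refine le_trans ?_ ((le_max_left _ _).trans (le_max_right _ _))
      simp only [len, Bool.not_false, if_true, Bool.false_eq_true, if_false] at h ⊢
      rw [if_pos h]
      omega
    · refine le_trans ?_ ((le_max_right _ _).trans (le_max_right _ _))
      simp only [len, Bool.not_true, if_true, Bool.false_eq_true, if_false] at h ⊢
      rw [if_pos h]
      omega

theorem fiber_le (p : Pm) (n m : ℕ) (hn : 4 ≤ n) (hm : 4 ≤ m) (c : ℝ) (hc : 0 < c) {W : Type} [Fintype W] [DecidableEq W]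
    (hW : 0 < Fintype.card W)
    (χ : W → W → Col p.s p.t) {ι : Type} [Fintype ι] [DecidableEq ι] (cl : ι → Bool) (Q : ι → Finset W) (f : W → ι)
    (hf : ∀ v, Asg p n m χ (Fintype.card W) (k1 p c) (cl (f v)) (Q (f v)) v) (i : ι)
    (hA : (clA p c χ cl Q f i).card ≤ len n m (cl i) - 1)
    (hB : Even (len n m (!cl i)) → (clB p c χ cl Q f i).card ≤ len n m (!cl i) / 2 - 1)
    (hC : (clC p c χ cl Q f i).card ≤ p.ell) :
    (univ.filter (fun v => f v = i)).card ≤ cap p n m (cl i) := by
  classical
  have hsub : univ.filter (fun v => f v = i) ⊆ clA p c χ cl Q f i ∪ (clB p c χ cl Q f i ∪ clC p c χ cl Q f i) := by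
    intro v hv
    rw [mem_filter] at hv
    simp only [clA, clB, clC, mem_union, mem_filter, mem_univ, true_and]
    by_cases h1 : k2 p c * Fintype.card W ≤ dg χ (.long (cl i)) v (Q i)
    · exact Or.inl ⟨hv.2, h1⟩
    · rw [not_le] at h1
      by_cases h2 : k3 p c * Fintype.card W ≤ dg χ (.long (!cl i)) v (Q i)
      · exact Or.inr (Or.inl ⟨hv.2, h1, h2⟩)
      · exact Or.inr (Or.inr ⟨hv.2, h1, not_le.mp h2⟩)
  have h1 := (card_le_card hsub).trans ((card_union_le _ _).trans (Nat.add_le_add_left (card_union_le _ _) _))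
  unfold cap
  by_cases he : Even (len n m (!cl i))
  · rw [if_pos he]
    have := hB he
    omega
  · rw [if_neg he]
    have ho : Odd (len n m (!cl i)) := Nat.not_even_iff_odd.mp he
    have hempty : clB p c χ cl Q f i = ∅ := by
      apply Finset.eq_empty_of_forall_notMem
      intro v hv
      simp only [clB, mem_filter, mem_univ, true_and] at hv
      obtain ⟨hvi, _, h3⟩ := hv
      have h4 := (hf v).2
      rw [hvi] at h4
      have h5 := h4 ho
      have h6 : k1 p c ≤ k3 p c := by
        unfold k1
        apply div_le_self (k3_pos p hc).le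
        have : (0 : ℝ) ≤ p.t := Nat.cast_nonneg _
        linarith
      have h7 : k1 p c * (Fintype.card W : ℝ) ≤ k3 p c * Fintype.card W :=
        mul_le_mul_of_nonneg_right h6 (Nat.cast_nonneg _)
      unfold dg at h3
      linarith
    rw [hempty, card_empty] at h1
    omega

theorem exact_bound' (p : Pm) (a : ℕ) (ha : OddProp p a) (ha1 : 1 ≤ a) (c : ℝ) (hc : 0 < c) :
    ∃ δ > (0 : ℝ), ∃ e > (0 : ℝ), ∃ n0 : ℕ, ∀ n m : ℕ, n0 ≤ n → n0 ≤ m →
      ∀ (W : Type) [Fintype W] [DecidableEq W], c * Fintype.card W ≤ max (n : ℝ) m →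
      ∀ χ : W → W → Col p.s p.t, Free p n m χ →
      ∀ (ι : Type) [Fintype ι] (cl : ι → Bool) (Q : ι → Finset W),
        Frame p n m a χ (Fintype.card W) δ e cl Q → Fintype.card W ≤ a * Fval n m p.ell := by
  classical
  obtain ⟨e1, he1, n1, h1⟩ := assign p a ha ha1 (k1 p c) (k1_pos p hc)
  obtain ⟨eA, heA, hA⟩ := alpha_le p a ha1 c hc
  obtain ⟨eB, heB, hB⟩ := beta_le p a ha1 c hc
  obtain ⟨eC, heC, hC⟩ := gamma_le p a ha1 c hc
  set e := min (min e1 eA) (min eB eC) with he
  have hepos : 0 < e := by positivity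
  obtain ⟨nA, hA⟩ := hA e hepos ((min_le_left _ _).trans (min_le_right _ _))
  obtain ⟨nB, hB⟩ := hB e hepos ((min_le_right _ _).trans (min_le_left _ _))
  obtain ⟨nC, hC⟩ := hC e hepos ((min_le_right _ _).trans (min_le_right _ _))
  refine ⟨k1 p c, k1_pos p hc, e, hepos, max (max n1 nA) (max nB nC) + 4, fun n m hn hm W _ _ hmax χ hfree ι _ cl Q hfr => ?_⟩
  by_cases hbig : Fintype.card W ≤ max (max n1 nA) (max nB nC) + 1
  · have hF : n - 2 ≤ a * Fval n m p.ell := by
      have : n - 2 ≤ Fval n m p.ell := by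
        unfold Fval
        have : n - 2 ≤ n + (m + 1) / 2 + p.ell - 2 := by omega
        exact this.trans ((le_max_left _ _).trans (le_max_left _ _))
      calc n - 2 ≤ 1 * Fval n m p.ell := by omega
        _ ≤ a * Fval n m p.ell := Nat.mul_le_mul_right _ ha1
    omega
  · have hfr1 : Frame p n m a χ (Fintype.card W) (k1 p c) e1 cl Q := by
      have hle : e ≤ e1 := (min_le_left _ _).trans (min_le_left _ _)
      have hN : (0 : ℝ) ≤ Fintype.card W := Nat.cast_nonneg _
      have m1 : e * (Fintype.card W : ℝ) ≤ e1 * Fintype.card W := mul_le_mul_of_nonneg_right hle hN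
      have m2 : e * (Fintype.card W : ℝ) ^ 2 ≤ e1 * (Fintype.card W : ℝ) ^ 2 := mul_le_mul_of_nonneg_right hle (by positivity)
      refine ⟨hfr.disj, fun i => ?_, fun v => ?_, fun i j hij => (hfr.own i j hij).trans m2, fun i => (hfr.inner i).trans m2,
        fun i => (hfr.ratio i).trans (by linarith), hfr.count⟩
      · have := hfr.size i; linarith
      · obtain ⟨J, hJ, hJ1, hJ2⟩ := hfr.sel v
        exact ⟨J, hJ, hJ1, fun i hi j hj hij => (hJ2 i hi j hj hij).trans m2⟩
    have hasg : ∀ v, ∃ i, Asg p n m χ (Fintype.card W) (k1 p c) (cl i) (Q i) v :=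
      h1 W (by omega) n m χ hfree ι cl Q hfr1
    choose f hf using hasg
    have hfib : ∀ i, (univ.filter (fun v => f v = i)).card ≤ cap p n m (cl i) := fun i =>
      fiber_le p n m (by omega) (by omega) c hc (by omega) χ cl Q f hf i
        (hA W (by omega) n m (by omega) (by omega) hmax χ hfree ι cl Q hfr f hf i)
        (hB W (by omega) n m (by omega) (by omega) hmax χ hfree ι cl Q hfr f hf i)
        (hC W (by omega) n m (by omega) (by omega) hmax χ hfree ι cl Q hfr f hf i)
    have hcard : Fintype.card W = ∑ i, (univ.filter (fun v => f v = i)).card := by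
      rw [← card_univ, card_eq_sum_card_fiberwise (f := f) (t := univ) (fun _ _ => mem_univ _)]
    set F := Fval n m p.ell
    have h2 : 2 * Fintype.card W ≤ 2 * (a * F) := by
      rw [hcard, mul_sum]
      have hsplit : ∑ i, 2 * (univ.filter (fun v => f v = i)).card
          ≤ ∑ i, (if Even (len n m (!cl i)) then 2 * F else F) := by
        apply sum_le_sum
        intro i _
        have := hfib i
        have hcl := cap_le p n m (by omega) (by omega) (cl i)
        split_ifs with hev
        · have := hcl.1 hev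
          omega
        · have := hcl.2 (Nat.not_even_iff_odd.mp hev)
          omega
      refine hsplit.trans ?_
      rw [sum_ite, sum_const, sum_const, smul_eq_mul, smul_eq_mul]
      have hodd : (univ.filter (fun i => ¬ Even (len n m (!cl i)))).card = (univ.filter (fun i => Odd (len n m (!cl i)))).card := by
        congr 1
        ext i
        simp
      rw [hodd]
      have hcount := hfr.count
      nlinarith [hcount, Nat.zero_le F]
    omega

end Pool.Agent.Lib.MP_779bc2_co
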