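import Pool.Agent.Lib.MP_779bc2_co.I.Assembly
import Pool.Agent.Lib.MP_779bc2_co.FrameOfTpl
import Pool.Agent.Lib.MP_779bc2_co.X8Exact
import Pool.Agent.Lib.MP_779bc2_co.L6CardMax

/-!
# MP_779bc2_co: the four parts and the upper bound

Part I: `exists_tpl'` (regularity lemma for two graphs, reduced graph, embedding of long cycles).
Part II: `frame_of_tpl'` (structure of the template).
Part III: `exact_bound'` (exact counting in the neighbourhood of the extremal structure).
Part IV: lower bound and translation (`L5Final.lean`).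
-/

set_option autoImplicit false

namespace Pool.Agent.Lib.MP_779bc2_co

open Finset

/-- The upper bound. -/
theorem upper (p : Pm) (a : ℕ) (ha : OddProp p a) (ha1 : 1 ≤ a) :
    ∃ n0 : ℕ, ∀ n m : ℕ, n0 ≤ n → n0 ≤ m → ∀ (W : Type) [Fintype W] [DecidableEq W],
      Fintype.card W = a * Fval n m p.ell + 1 → ∀ χ : W → W → Col p.s p.t, ¬ Free p n m χ := by
  have hc : (0 : ℝ) < 1 / (4 * a) := by positivity
  obtain ⟨δ, hδ, e', he', n3, h3⟩ := exact_bound' p a ha ha1 (1 / (4 * a)) hc
  obtain ⟨e, he, n2, h2⟩ := frame_of_tpl' card_le_max' p a ha1 δ e' he'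
  obtain ⟨n1, h1⟩ := exists_tpl' p a ha ha1 δ e hδ he
  obtain ⟨n4, h4⟩ := card_le_max' a p.ell ha1
  refine ⟨max (max n1 n2) (max n3 n4) + 2, fun n m hn hm W _ _ hW χ hfree => ?_⟩
  have hF : n - 2 ≤ a * Fval n m p.ell := by
    have : n - 2 ≤ Fval n m p.ell := by
      unfold Fval
      have : n - 2 ≤ n + (m + 1) / 2 + p.ell - 2 := by omega
      exact this.trans ((le_max_left _ _).trans (le_max_left _ _))
    calc n - 2 ≤ 1 * Fval n m p.ell := by omega
      _ ≤ a * Fval n m p.ell := Nat.mul_le_mul_right _ ha1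
  obtain ⟨V0, T, M, hT⟩ := h1 n m (by omega) (by omega) W (by omega) χ hfree
  obtain ⟨ι, _, cl, Q, hfr⟩ := h2 n m (by omega) (by omega) W hW χ hfree V0 T M hT
  have hmax : (1 / (4 * a) : ℝ) * Fintype.card W ≤ max (n : ℝ) m := by
    rw [hW]; exact h4 n m (by omega) (by omega)
  have := h3 n m (by omega) (by omega) W hmax χ hfree ι cl Q hfr
  omega

end Pool.Agent.Lib.MP_779bc2_co
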