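import Pool.Agent.Lib.MP_779bc2_co.L4Rle
import Pool.Agent.Lib.MP_779bc2_co.Main

/-!
# MP_779bc2_co, Part IV: the final theorem from the upper bound
-/

set_option autoImplicit false

namespace Pool.Agent.Lib.MP_779bc2_co

open SimpleGraph Finset

/-- `Free` in terms of labellings -/
theorem l5_free_iff {W : Type} (p : Pm) {n m : ℕ} (hn : 3 ≤ n) (hm : 3 ≤ m)
    (φ : W → W → Col p.s p.t) (χ : TopEdgeLabeling W (Col p.s p.t)) (hφ : ∀ u v, φ u v = φ v u)
    (h : ∀ u v (huv : u ≠ v), φ u v = χ.get u v huv) :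
    Free p n m φ ↔ ∀ i, ¬ Contains n m p.b p.c p.d (χ.labelGraph i) i := by
  have hlen : ∀ i, 3 ≤ len n m i := by intro i; unfold len; split <;> assumption
  have hadj : ∀ i u v, (χ.labelGraph i).Adj u v ↔ u ≠ v ∧ φ u v = i := by
    intro i u v
    rw [TopEdgeLabeling.labelGraph_adj]
    constructor
    · rintro ⟨h1, h2⟩
      exact ⟨h1, by rw [h u v h1, h2]⟩
    · rintro ⟨h1, h2⟩
      exact ⟨h1, by rw [← h u v h1, h2]⟩
  have hs : ∀ i u v, φ u v = i → φ v u = i := fun i u v h => by rw [hφ]; exact h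
  have hL : ∀ i, HasCyc (fun u v => φ u v = .long i) (len n m i) ↔
      Contains n m p.b p.c p.d (χ.labelGraph (.long i)) (.long i) := by
    intro i
    rw [l2_hasCyc_iff (hs _) (hadj _) (hlen i)]
    cases i <;> rfl
  have hB : ∀ k, HasBip (fun u v => φ u v = .bip k) (p.b k) (p.c k) ↔
      Contains n m p.b p.c p.d (χ.labelGraph (.bip k)) (.bip k) := by
    intro k
    rw [l2_hasBip_iff (hs _) (hadj _)]
    rfl
  have hO : ∀ j, HasCyc (fun u v => φ u v = .odd j) (2 * p.d j + 1) ↔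
      Contains n m p.b p.c p.d (χ.labelGraph (.odd j)) (.odd j) := by
    intro j
    rw [l2_hasCyc_iff (hs _) (hadj _) (by have := p.hd j; omega)]
    rfl
  constructor
  · rintro ⟨-, h1, h2, h3⟩ i
    cases i with
    | long i => exact fun h' => h1 i ((hL i).2 h')
    | bip k => exact fun h' => h2 k ((hB k).2 h')
    | odd j => exact fun h' => h3 j ((hO j).2 h')
  · intro h'
    exact ⟨hφ, fun i h1 => h' _ ((hL i).1 h1), fun k h1 => h' _ ((hB k).1 h1),
      fun j h1 => h' _ ((hO j).1 h1)⟩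

/-- pulling back along an injection -/
theorem l5_free_comap {W V : Type} (p : Pm) {n m : ℕ} (φ : W → W → Col p.s p.t) (h : Free p n m φ)
    (f : V ↪ W) : Free p n m (fun u v => φ (f u) (f v)) := by
  classical
  have hcyc : ∀ (c : Col p.s p.t) N, HasCyc (fun u v => φ (f u) (f v) = c) N →
      HasCyc (fun u v => φ u v = c) N := by
    rintro c N ⟨l, hl, hnd, hch, hlast⟩
    refine ⟨l.map f, by simpa using hl, hnd.map f.injective, ?_, ?_⟩
    · rw [List.isChain_map]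
      exact hch
    · intro u v hu hv
      rw [List.head?_map] at hu
      rw [List.getLast?_map] at hv
      obtain ⟨x, hx, rfl⟩ := Option.map_eq_some_iff.1 hu
      obtain ⟨y, hy, rfl⟩ := Option.map_eq_some_iff.1 hv
      exact hlast x y hx hy
  refine ⟨fun u v => h.symm _ _, fun i h1 => h.long i (hcyc _ _ h1), ?_,
    fun j h1 => h.odd j (hcyc _ _ h1)⟩
  rintro k ⟨A, C, hA, hC, hd, hAC⟩
  refine h.bip k ⟨A.map f, C.map f, by simpa using hA, by simpa using hC, ?_, ?_⟩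
  · rw [Finset.disjoint_map]; exact hd
  · intro u hu w hw
    obtain ⟨x, hx, rfl⟩ := Finset.mem_map.1 hu
    obtain ⟨y, hy, rfl⟩ := Finset.mem_map.1 hw
    exact hAC x hx y hy

/-- the lower bound, for all `n, m ≥ 3` -/
theorem l5_lower {s t : ℕ} (b c : Fin s → ℕ) (d : Fin t → ℕ) (hb : ∀ k, 1 ≤ b k)
    (hbc : ∀ k, b k ≤ c k) (hd : ∀ j, 1 ≤ d j) {n m : ℕ} (hn : 3 ≤ n) (hm : 3 ≤ m) (r : ℕ)
    (hr : ∀ χ : TopEdgeLabeling (Fin r) (Col s t), ∃ i, Contains n m b c d (χ.labelGraph i) i) :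
    (oddRamsey d - 1) * Fval n m (∑ k, (b k - 1)) + 1 ≤ r := by
  by_contra hlt
  let p : Pm := ⟨s, t, b, c, d, hb, hbc, hd⟩
  obtain ⟨κ, hκ⟩ := l4_exists_kappa d hd
  obtain ⟨X, _, φ, hX, hφ⟩ := l3_lower p hn hm (oddRamsey d - 1) κ hκ
  have hcard : Fintype.card (Fin r) ≤ Fintype.card X := by
    rw [hX, Fintype.card_fin]
    have : p.ell = ∑ k, (b k - 1) := rfl
    rw [this]
    omega
  obtain ⟨f⟩ := Function.Embedding.nonempty_of_card_le hcard
  have hφ' := l5_free_comap p φ hφ f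
  obtain ⟨i, hi⟩ := hr (EdgeLabeling.mk (fun x y _ => φ (f x) (f y)) (fun x y _ => hφ.symm _ _))
  exact (l5_free_iff p hn hm _ (EdgeLabeling.mk (fun x y _ => φ (f x) (f y))
    (fun x y _ => hφ.symm _ _)) hφ'.symm (fun u v huv => rfl)).1 hφ' i hi

/-- THE MAIN THEOREM: for fixed `[B]`, `[C]` and all sufficiently large `n`, `m`,
`r(C_n, C_m, [B], [C]) = (r(≤[C]) - 1) F + 1` with
`F = max {n + ⌈m/2⌉ + ℓ - 2, m + ⌈n/2⌉ + ℓ - 2, 2 (n + ℓ - 1) if m odd, 2 (m + ℓ - 1) if n odd}`. -/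
theorem l5_main {s t : ℕ} (b c : Fin s → ℕ) (d : Fin t → ℕ) (hb : ∀ k, 1 ≤ b k)
    (hbc : ∀ k, b k ≤ c k) (hd : ∀ j, 1 ≤ d j) :
    ∃ n0 : ℕ, ∀ n m : ℕ, n0 ≤ n → n0 ≤ m →
      ramsey n m b c d = (oddRamsey d - 1) * Fval n m (∑ k, (b k - 1)) + 1 := by
  classical
  let p : Pm := ⟨s, t, b, c, d, hb, hbc, hd⟩
  have h2 := l4_two_le_oddRamsey d hd
  obtain ⟨n0, hn0⟩ := upper p (oddRamsey d - 1) (l4_oddProp p) (by omega)
  refine ⟨max n0 3, fun n m hn hm => ?_⟩
  have hn3 : 3 ≤ n := le_trans (le_max_right _ _) hn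
  have hm3 : 3 ≤ m := le_trans (le_max_right _ _) hm
  have hmem : ∀ χ : TopEdgeLabeling (Fin ((oddRamsey d - 1) * Fval n m (∑ k, (b k - 1)) + 1))
      (Col s t), ∃ i, Contains n m b c d (χ.labelGraph i) i := by
    intro χ
    by_contra hcon
    push Not at hcon
    let φ : Fin ((oddRamsey d - 1) * Fval n m (∑ k, (b k - 1)) + 1) →
        Fin ((oddRamsey d - 1) * Fval n m (∑ k, (b k - 1)) + 1) → Col p.s p.t := fun u v =>
      if h : u ≠ v then χ.get u v h else .long false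
    have hφs : ∀ u v, φ u v = φ v u := by
      intro u v
      by_cases h : u = v
      · subst h; rfl
      · have h' : v ≠ u := fun h' => h h'.symm
        simp only [φ, ne_eq, h, h', not_false_eq_true, dite_true]
        rw [EdgeLabeling.get_comm]
    have hφg : ∀ u v (huv : u ≠ v), φ u v = χ.get u v huv := by
      intro u v huv
      simp only [φ, huv, dite_true, ne_eq, not_false_eq_true]
    exact hn0 n m (le_trans (le_max_left _ _) hn) (le_trans (le_max_left _ _) hm) _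
      (by rw [Fintype.card_fin]; rfl) φ ((l5_free_iff p hn3 hm3 φ χ hφs hφg).2 hcon)
  apply le_antisymm
  · exact Nat.sInf_le hmem
  · have hne : {r | ∀ χ : TopEdgeLabeling (Fin r) (Col s t),
        ∃ i, Contains n m b c d (χ.labelGraph i) i}.Nonempty := ⟨_, hmem⟩
    exact l5_lower b c d hb hbc hd hn3 hm3 _ (Nat.sInf_mem hne)

/-- The case of long odd cycles in `[C]`: the explicit value. -/
theorem l5_explicit {s t : ℕ} (b c : Fin s → ℕ) (d : Fin t → ℕ) (hb : ∀ k, 1 ≤ b k)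
    (hbc : ∀ k, b k ≤ c k) (hd : ∀ j, 2 ^ (t - 1) ≤ d j) :
    ∃ n0 : ℕ, ∀ n m : ℕ, n0 ≤ n → n0 ≤ m →
      ramsey n m b c d = 2 ^ t * Fval n m (∑ k, (b k - 1)) + 1 := by
  obtain ⟨n0, h⟩ := l5_main b c d hb hbc (fun j => le_trans Nat.one_le_two_pow (hd j))
  refine ⟨n0, fun n m hn hm => ?_⟩
  rw [h n m hn hm, l4_oddRamsey_eq d hd]
  simp

end Pool.Agent.Lib.MP_779bc2_co
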