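import Pool.Agent.Lib.MP_779bc2_co.ODefs
import Pool.Agent.Lib.MP_779bc2_co.H0Util

/-! Row O9Pick (about 60 lines): transversals -/

set_option autoImplicit false

namespace Pool.Agent.Lib.MP_779bc2_co

open Finset

variable {W : Type} [Fintype W] [DecidableEq W]

/-- Induction on `I`: the elements of `F` and the elements chosen before are `M`-related to at most `(|F| + |I|) μ < |Q i|` vertices. -/
theorem pick_transversal [Nonempty W] (M : W → W → Prop) (μ : ℝ) (hM : MisLe M μ) {ι : Type} [DecidableEq ι] (I : Finset ι) (Q : ι → Finset W)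
    (F : Finset W) (hQ : ∀ i ∈ I, ((F.card : ℝ) + I.card) * μ < (Q i).card) :
    ∃ f : ι → W, (∀ i ∈ I, f i ∈ Q i ∧ ∀ v ∈ F, ¬ M (f i) v) ∧ ∀ i ∈ I, ∀ j ∈ I, i ≠ j → ¬ M (f i) (f j) := by
  classical
  have hμ : 0 ≤ μ := le_trans (Nat.cast_nonneg _) (hM.card (Classical.arbitrary W))
  induction I using Finset.induction_on with
  | empty => exact ⟨fun _ => Classical.arbitrary W, by simp, by simp⟩
  | insert i I hi ih =>
    obtain ⟨f, hf1, hf2⟩ := ih (fun j hj => by
      refine lt_of_le_of_lt ?_ (hQ j (mem_insert_of_mem hj))
      rw [card_insert_of_notMem hi]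
      push_cast
      nlinarith)
    have hQi := hQ i (mem_insert_self _ _)
    rw [card_insert_of_notMem hi] at hQi
    push_cast at hQi
    have hcard : ((F ∪ I.image f).card : ℝ) ≤ (F.card : ℝ) + I.card := by
      have h1 := card_union_le F (I.image f)
      have h2 := card_image_le (s := I) (f := f)
      exact_mod_cast h1.trans (by omega)
    have hbad : (((F ∪ I.image f).biUnion (fun v => univ.filter (fun w => M v w))).card : ℝ)
        ≤ ((F ∪ I.image f).card : ℝ) * μ := by
      have h1 := card_biUnion_le (s := F ∪ I.image f) (t := fun v => univ.filter (fun w => M v w))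
      have h2 : (((F ∪ I.image f).biUnion (fun v => univ.filter (fun w => M v w))).card : ℝ) ≤
          ∑ v ∈ F ∪ I.image f, ((univ.filter (fun w => M v w)).card : ℝ) := by exact_mod_cast h1
      refine h2.trans ?_
      rw [← nsmul_eq_mul]
      exact sum_le_card_nsmul _ _ _ (fun v _ => hM.card v)
    have hlt : ((F ∪ I.image f).biUnion (fun v => univ.filter (fun w => M v w))).card < (Q i).card := by
      have h3 : ((F ∪ I.image f).card : ℝ) * μ ≤ ((F.card : ℝ) + I.card) * μ :=
        mul_le_mul_of_nonneg_right hcard hμ
      have h4 : (((F ∪ I.image f).biUnion (fun v => univ.filter (fun w => M v w))).card : ℝ) < (Q i).card := by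
        nlinarith
      exact_mod_cast h4
    obtain ⟨v, hv, hvn⟩ := exists_mem_notMem_of_card_lt_card hlt
    have hvn' : ∀ z ∈ F ∪ I.image f, ¬ M z v := fun z hz hz' =>
      hvn (mem_biUnion.2 ⟨z, hz, mem_filter.2 ⟨mem_univ _, hz'⟩⟩)
    have hne : ∀ j ∈ I, j ≠ i := fun j hj h => hi (h ▸ hj)
    refine ⟨Function.update f i v, ?_, ?_⟩
    · intro j hj
      rcases mem_insert.1 hj with rfl | hj
      · rw [Function.update_self]
        exact ⟨hv, fun z hz hz' => hvn' z (mem_union_left _ hz) (hM.symm _ _ hz')⟩
      · rw [Function.update_of_ne (hne j hj)]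
        exact hf1 j hj
    · intro j hj k hk hjk
      rcases mem_insert.1 hj with hji | hj
      · rcases mem_insert.1 hk with hki | hk
        · exact absurd (hji.trans hki.symm) hjk
        · rw [hji, Function.update_self, Function.update_of_ne (hne k hk)]
          exact fun h => hvn' _ (mem_union_right _ (mem_image_of_mem f hk)) (hM.symm _ _ h)
      · rcases mem_insert.1 hk with hki | hk
        · rw [hki, Function.update_self, Function.update_of_ne (hne j hj)]
          exact fun h => hvn' _ (mem_union_right _ (mem_image_of_mem f hj)) h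
        · rw [Function.update_of_ne (hne j hj), Function.update_of_ne (hne k hk)]
          exact hf2 j hj k hk hjk

end Pool.Agent.Lib.MP_779bc2_co
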