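import Pool.Agent.Lib.MP_779bc2_co.O7World
import Pool.Agent.Lib.MP_779bc2_co.O9Pick

/-! Row O10Near (about 180 lines): the sets `oQ` are nearly cliques and there are no edges between different ones -/

set_option autoImplicit false

namespace Pool.Agent.Lib.MP_779bc2_co

open Finset

variable {W : Type} [Fintype W] [DecidableEq W]

theorem o10_8a (a : ℕ) : (8 : ℝ) * a ≤ kap3 a ∧ (a : ℝ) + 1 ≤ kap3 a := by
  have h1 : (a : ℝ) ≤ (a : ℝ) * a := by
    rcases Nat.eq_zero_or_pos a with rfl | h
    · simp
    · have : (1 : ℝ) ≤ a := by exact_mod_cast h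
      nlinarith
  have h2 : (0 : ℝ) < 2 ^ (a + 1) := by positivity
  have h3 : (0 : ℝ) ≤ a := Nat.cast_nonneg a
  unfold kap3 kap
  constructor <;> nlinarith

theorem o10_inl {R B : SimpleGraph W} {lr lb : W → Option Bool} {U : Finset W} {p q : ℕ}
    {gR : Bool → Fin p → W} {gB : Bool → Fin q → W} {s : Bool} {i : Fin p} {u : W} :
    u ∈ oQ R B lr lb U gR gB (s, .inl i) ↔ (u ∈ U ∧ lr u = none ∧ lb u = some s) ∧ R.Reachable (gR s i) u := by
  rw [oQ, mem_inter, oA, mem_filter, mem_comp]

theorem o10_inr {R B : SimpleGraph W} {lr lb : W → Option Bool} {U : Finset W} {p q : ℕ}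
    {gR : Bool → Fin p → W} {gB : Bool → Fin q → W} {s : Bool} {i : Fin q} {u : W} :
    u ∈ oQ R B lr lb U gR gB (s, .inr i) ↔ (u ∈ U ∧ lr u = some s ∧ lb u = none) ∧ B.Reachable (gB s i) u := by
  rw [oQ, mem_inter, oB, mem_filter, mem_comp]

/-- if `p > 0` then `x ≥ max x y - ..`, because a component of `R` has at most `x + 8 a μ` vertices; similarly for `q`, `y`. -/
theorem oo_x_large (R B : SimpleGraph W) (M : W → W → Prop) (x y N e : ℝ) (lr lb : W → Option Bool) (U : Finset W) (a p q : ℕ)
    (gR : Bool → Fin p → W) (gB : Bool → Fin q → W) (h : OStr R B M x y N e lr lb U a p q gR gB) :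
    (0 < p → max x y - (kap3 a + 8 * a) * (e * N) ≤ x) ∧ (0 < q → max x y - (kap3 a + 8 * a) * (e * N) ≤ y) := by
  constructor
  · intro hp
    have h1 := h.card (true, .inl ⟨0, hp⟩)
    have h2 : ((oQ R B lr lb U gR gB (true, .inl ⟨0, hp⟩)).card : ℝ) ≤ (comp R (gR true ⟨0, hp⟩)).card := by
      exact_mod_cast card_le_card (by rw [oQ]; exact inter_subset_right)
    have h3 := h.sR (gR true ⟨0, hp⟩)
    linarith
  · intro hp
    have h1 := h.card (true, .inr ⟨0, hp⟩)
    have h2 : ((oQ R B lr lb U gR gB (true, .inr ⟨0, hp⟩)).card : ℝ) ≤ (comp B (gB true ⟨0, hp⟩)).card := by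
      exact_mod_cast card_le_card (by rw [oQ]; exact inter_subset_right)
    have h3 := h.sB (gB true ⟨0, hp⟩)
    linarith

/-- Cases: a red and a blue clique: the elements of the red one have a blue label (so are isolated in `B`), those of the blue one a red label. Two red ones of the same side `s`: different components (`sepR`).
Two red ones of different sides: the labels `lb` are different; the components of `R` are different, because otherwise this component had at least `2 (max x y - kap3 μ) > x + 8 a μ` vertices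
(`8 a ≤ kap3 a`, `big`). The same for blue. -/
theorem oo_cross (R B : SimpleGraph W) (M : W → W → Prop) (x y N e : ℝ) (lr lb : W → Option Bool) (U : Finset W) (a p q : ℕ)
    (gR : Bool → Fin p → W) (gB : Bool → Fin q → W) (h : OStr R B M x y N e lr lb U a p q gR gB)
    (i j : Bool × (Fin p ⊕ Fin q)) (hij : i ≠ j) (u w : W) (hu : u ∈ oQ R B lr lb U gR gB i) (hw : w ∈ oQ R B lr lb U gR gB j) :
    u ≠ w ∧ ¬ R.Adj u w ∧ ¬ B.Adj u w := by
  have h8 := (o10_8a a).1
  have hmu := h.env.one
  have hbig := h.big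
  have hk := kap3_nonneg a
  have hxm : x ≤ max x y := le_max_left _ _
  have hym : y ≤ max x y := le_max_right _ _
  rcases i with ⟨s, i | i⟩ <;> rcases j with ⟨s', j | j⟩
  · rw [o10_inl] at hu hw
    obtain ⟨⟨hu1, hu2, hu3⟩, hu4⟩ := hu
    obtain ⟨⟨hw1, hw2, hw3⟩, hw4⟩ := hw
    have hnr : ¬ R.Reachable (gR s i) (gR s' j) := by
      by_cases hs : s = s'
      · subst hs
        exact h.sepR s i j (fun hh => hij (by rw [hh]))
      · intro hr
        have c1 := h.card (s, .inl i)
        have c2 := h.card (s', .inl j)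
        have c3 := h.sR (gR s i)
        have hdis : Disjoint (oQ R B lr lb U gR gB (s, .inl i)) (oQ R B lr lb U gR gB (s', .inl j)) := by
          rw [disjoint_left]
          intro v hv hv'
          rw [o10_inl] at hv hv'
          exact hs (Option.some_injective _ (hv.1.2.2.symm.trans hv'.1.2.2))
        have hsub : oQ R B lr lb U gR gB (s, .inl i) ∪ oQ R B lr lb U gR gB (s', .inl j) ⊆ comp R (gR s i) := by
          apply union_subset
          · intro v hv
            rw [o10_inl] at hv
            exact mem_comp.2 hv.2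
          · intro v hv
            rw [o10_inl] at hv
            exact mem_comp.2 (hr.trans hv.2)
        have c4 := card_le_card hsub
        rw [card_union_of_disjoint hdis] at c4
        have c5 : ((oQ R B lr lb U gR gB (s, .inl i)).card : ℝ) + (oQ R B lr lb U gR gB (s', .inl j)).card ≤
          (comp R (gR s i)).card := by exact_mod_cast c4
        nlinarith
    refine ⟨?_, ?_, ?_⟩
    · rintro rfl
      exact hnr (hu4.trans hw4.symm)
    · intro hadj
      exact hnr ((hu4.trans hadj.reachable).trans hw4.symm)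
    · intro hadj
      have := (h.env.lab.badj _ _ hadj).1
      rw [hu3] at this
      exact absurd this (by simp)
  · rw [o10_inl] at hu
    rw [o10_inr] at hw
    obtain ⟨⟨hu1, hu2, hu3⟩, hu4⟩ := hu
    obtain ⟨⟨hw1, hw2, hw3⟩, hw4⟩ := hw
    refine ⟨?_, ?_, ?_⟩
    · rintro rfl
      rw [hu2] at hw2
      exact absurd hw2 (by simp)
    · intro hadj
      have := (h.env.lab.radj _ _ hadj).2
      rw [hw2] at this
      exact absurd this (by simp)
    · intro hadj
      have := (h.env.lab.badj _ _ hadj).1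
      rw [hu3] at this
      exact absurd this (by simp)
  · rw [o10_inr] at hu
    rw [o10_inl] at hw
    obtain ⟨⟨hu1, hu2, hu3⟩, hu4⟩ := hu
    obtain ⟨⟨hw1, hw2, hw3⟩, hw4⟩ := hw
    refine ⟨?_, ?_, ?_⟩
    · rintro rfl
      rw [hu2] at hw2
      exact absurd hw2 (by simp)
    · intro hadj
      have := (h.env.lab.radj _ _ hadj).1
      rw [hu2] at this
      exact absurd this (by simp)
    · intro hadj
      have := (h.env.lab.badj _ _ hadj).2
      rw [hw3] at this
      exact absurd this (by simp)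
  · rw [o10_inr] at hu hw
    obtain ⟨⟨hu1, hu2, hu3⟩, hu4⟩ := hu
    obtain ⟨⟨hw1, hw2, hw3⟩, hw4⟩ := hw
    have hnr : ¬ B.Reachable (gB s i) (gB s' j) := by
      by_cases hs : s = s'
      · subst hs
        exact h.sepB s i j (fun hh => hij (by rw [hh]))
      · intro hr
        have c1 := h.card (s, .inr i)
        have c2 := h.card (s', .inr j)
        have c3 := h.sB (gB s i)
        have hdis : Disjoint (oQ R B lr lb U gR gB (s, .inr i)) (oQ R B lr lb U gR gB (s', .inr j)) := by
          rw [disjoint_left]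
          intro v hv hv'
          rw [o10_inr] at hv hv'
          exact hs (Option.some_injective _ (hv.1.2.1.symm.trans hv'.1.2.1))
        have hsub : oQ R B lr lb U gR gB (s, .inr i) ∪ oQ R B lr lb U gR gB (s', .inr j) ⊆ comp B (gB s i) := by
          apply union_subset
          · intro v hv
            rw [o10_inr] at hv
            exact mem_comp.2 hv.2
          · intro v hv
            rw [o10_inr] at hv
            exact mem_comp.2 (hr.trans hv.2)
        have c4 := card_le_card hsub
        rw [card_union_of_disjoint hdis] at c4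
        have c5 : ((oQ R B lr lb U gR gB (s, .inr i)).card : ℝ) + (oQ R B lr lb U gR gB (s', .inr j)).card ≤
          (comp B (gB s i)).card := by exact_mod_cast c4
        nlinarith
    refine ⟨?_, ?_, ?_⟩
    · rintro rfl
      exact hnr (hu4.trans hw4.symm)
    · intro hadj
      have := (h.env.lab.radj _ _ hadj).1
      rw [hu2] at this
      exact absurd this (by simp)
    · intro hadj
      exact hnr ((hu4.trans hadj.reachable).trans hw4.symm)

theorem o10_VV {R B : SimpleGraph W} {lr lb : W → Option Bool} {U : Finset W} {p q : ℕ}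
    {gR : Bool → Fin p → W} {gB : Bool → Fin q → W} {s : Bool} {k : Fin p ⊕ Fin q} {u : W}
    (hu : u ∈ oQ R B lr lb U gR gB (s, k)) : u ∈ VV lr lb U s s := by
  rw [VV, mem_filter]
  rcases k with k | k
  · rw [o10_inl] at hu
    exact ⟨hu.1.1, Or.inl hu.1.2.1, Or.inr hu.1.2.2⟩
  · rw [o10_inr] at hu
    exact ⟨hu.1.1, Or.inr hu.1.2.1, Or.inl hu.1.2.2⟩

/-- Suppose `u ≠ w` in `oQ (s, k)` are not adjacent (for the colour of the clique; the other colour has no edges at `u`) and not `M`-related. Let `I` be the set of the indices `(s, k')`, `k' ≠ k`; `|I| = a - 1`. By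
`pick_transversal` (`F = {u, w}`, `(a + 1) μ < |Q i|` by `card` and `big`) there are `f i ∈ oQ i`, pairwise non-`M` and non-`M` to `u`, `w`. With `oo_cross`, `{u, w} ∪ f(I) ⊆ VV lr lb U s s` has `a + 1` elements
and contradicts `OEnv.ind s s`. -/
theorem oo_near (R B : SimpleGraph W) (M : W → W → Prop) (x y N e : ℝ) (lr lb : W → Option Bool) (U : Finset W) (a p q : ℕ)
    (gR : Bool → Fin p → W) (gB : Bool → Fin q → W) (h : OStr R B M x y N e lr lb U a p q gR gB)
    (s : Bool) (k : Fin p ⊕ Fin q) (u w : W) (hu : u ∈ oQ R B lr lb U gR gB (s, k)) (hw : w ∈ oQ R B lr lb U gR gB (s, k))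
    (huw : u ≠ w) (hM : ¬ M u w) : R.Adj u w ∨ B.Adj u w := by
  by_contra hcon
  rw [not_or] at hcon
  haveI : Nonempty W := ⟨u⟩
  have hka := (o10_8a a).2
  have hmu := h.env.one
  have hbig := h.big
  have hk := kap3_nonneg a
  set I : Finset (Fin p ⊕ Fin q) := univ.erase k with hI
  have hIc : I.card + 1 = a := by
    have h1 : I.card = (univ : Finset (Fin p ⊕ Fin q)).card - 1 := card_erase_of_mem (mem_univ k)
    have h2 : (univ : Finset (Fin p ⊕ Fin q)).card = a := by
      rw [card_univ, Fintype.card_sum, Fintype.card_fin, Fintype.card_fin, h.pq]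
    have h3 : 0 < (univ : Finset (Fin p ⊕ Fin q)).card := card_pos.2 ⟨k, mem_univ k⟩
    omega
  have hF : ({u, w} : Finset W).card = 2 := card_pair huw
  obtain ⟨f, hf1, hf2⟩ := pick_transversal M (e * N) h.env.mis I (fun k' => oQ R B lr lb U gR gB (s, k')) {u, w} (by
    intro k' _
    have c := h.card (s, k')
    rw [hF]
    have : (I.card : ℝ) + 1 = a := by exact_mod_cast hIc
    have h5 : ((2 : ℕ) : ℝ) + I.card = a + 1 := by push_cast; linarith
    rw [h5]
    nlinarith)
  have hIk : ∀ k' ∈ I, k' ≠ k := fun k' hk' => (mem_erase.1 hk').1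
  have hfu : ∀ k' ∈ I, f k' ≠ u ∧ ¬ R.Adj (f k') u ∧ ¬ B.Adj (f k') u := fun k' hk' =>
    oo_cross R B M x y N e lr lb U a p q gR gB h (s, k') (s, k) (fun hh => hIk k' hk' (Prod.ext_iff.1 hh).2) _ _
      (hf1 k' hk').1 hu
  have hfw : ∀ k' ∈ I, f k' ≠ w ∧ ¬ R.Adj (f k') w ∧ ¬ B.Adj (f k') w := fun k' hk' =>
    oo_cross R B M x y N e lr lb U a p q gR gB h (s, k') (s, k) (fun hh => hIk k' hk' (Prod.ext_iff.1 hh).2) _ _
      (hf1 k' hk').1 hw
  have hff : ∀ k' ∈ I, ∀ k'' ∈ I, k' ≠ k'' → f k' ≠ f k'' ∧ ¬ R.Adj (f k') (f k'') ∧ ¬ B.Adj (f k') (f k'') :=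
    fun k' hk' k'' hk'' hne =>
    oo_cross R B M x y N e lr lb U a p q gR gB h (s, k') (s, k'') (fun hh => hne (Prod.ext_iff.1 hh).2) _ _
      (hf1 k' hk').1 (hf1 k'' hk'').1
  have hinj : Set.InjOn f I := by
    intro k' hk' k'' hk'' heq
    by_contra hne
    exact (hff k' hk' k'' hk'' hne).1 heq
  have hTc : (({u, w} : Finset W) ∪ I.image f).card = a + 1 := by
    rw [card_union_of_disjoint, hF, card_image_of_injOn hinj]
    · omega
    · rw [disjoint_left]
      intro z hz hz'
      obtain ⟨k', hk', rfl⟩ := mem_image.1 hz'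
      rcases mem_insert.1 hz with hz | hz
      · exact (hfu k' hk').1 hz
      · exact (hfw k' hk').1 (mem_singleton.1 hz)
  have hTs : ({u, w} : Finset W) ∪ I.image f ⊆ VV lr lb U s s := by
    intro z hz
    rcases mem_union.1 hz with hz | hz
    · rcases mem_insert.1 hz with rfl | hz
      · exact o10_VV hu
      · rw [mem_singleton.1 hz]; exact o10_VV hw
    · obtain ⟨k', hk', rfl⟩ := mem_image.1 hz
      exact o10_VV (hf1 k' hk').1
  obtain ⟨z, hz, z', hz', hne, hrel⟩ := h.env.ind s s _ hTs (by rw [hTc]; omega)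
  have hMs := h.env.mis.symm
  have key : ∀ k' ∈ I, ∀ v ∈ ({u, w} : Finset W), ¬ M (f k') v ∧ ¬ M v (f k') ∧
      ¬ R.Adj (f k') v ∧ ¬ R.Adj v (f k') ∧ ¬ B.Adj (f k') v ∧ ¬ B.Adj v (f k') := by
    intro k' hk' v hv
    have hm := (hf1 k' hk').2 v hv
    have hc : ¬ R.Adj (f k') v ∧ ¬ B.Adj (f k') v := by
      rcases mem_insert.1 hv with rfl | hv
      · exact (hfu k' hk').2
      · rw [mem_singleton.1 hv]; exact (hfw k' hk').2
    exact ⟨hm, fun h' => hm (hMs _ _ h'), hc.1, fun h' => hc.1 h'.symm, hc.2, fun h' => hc.2 h'.symm⟩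
  rcases mem_union.1 hz with hz | hz
  · rcases mem_union.1 hz' with hz' | hz'
    · have hpair : (z = u ∧ z' = w) ∨ (z = w ∧ z' = u) := by
        rcases mem_insert.1 hz with hz | hz <;> rcases mem_insert.1 hz' with hz' | hz'
        · exact absurd (hz.trans hz'.symm) hne
        · exact Or.inl ⟨hz, mem_singleton.1 hz'⟩
        · exact Or.inr ⟨mem_singleton.1 hz, hz'⟩
        · exact absurd ((mem_singleton.1 hz).trans (mem_singleton.1 hz').symm) hne
      rcases hpair with ⟨rfl, rfl⟩ | ⟨rfl, rfl⟩
      · rcases hrel with h1 | h1 | h1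
        · exact hM h1
        · exact hcon.1 h1
        · exact hcon.2 h1
      · rcases hrel with h1 | h1 | h1
        · exact hM (hMs _ _ h1)
        · exact hcon.1 h1.symm
        · exact hcon.2 h1.symm
    · obtain ⟨k', hk', rfl⟩ := mem_image.1 hz'
      have := key k' hk' z hz
      tauto
  · obtain ⟨k', hk', rfl⟩ := mem_image.1 hz
    rcases mem_union.1 hz' with hz' | hz'
    · have := key k' hk' z' hz'
      tauto
    · obtain ⟨k'', hk'', rfl⟩ := mem_image.1 hz'
      have hkk : k' ≠ k'' := fun hh => hne (by rw [hh])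
      have h1 := hff k' hk' k'' hk'' hkk
      have h2 := hf2 k' hk' k'' hk'' hkk
      tauto

end Pool.Agent.Lib.MP_779bc2_co
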