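import Pool.Agent.Lib.MP_779bc2_co.ODefs
import Pool.Agent.Lib.MP_779bc2_co.H5Cover

/-! Row O2Ind: independent sets are small (done) -/

set_option autoImplicit false

namespace Pool.Agent.Lib.MP_779bc2_co

open Finset

variable {W : Type} [Fintype W] [DecidableEq W]

/-- the elements of `oD σ τ ⊆ VV σ τ` are isolated in both graphs -/
theorem oD_card (R B : SimpleGraph W) (M : W → W → Prop) (x y N e : ℝ) (lr lb : W → Option Bool) (U : Finset W) (a : ℕ)
    (h : OEnv R B M x y N e lr lb U a) (σ τ : Bool) : ((oD lr lb U σ τ).card : ℝ) ≤ a * (e * N) := by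
  classical
  refine ind_card_le R B M (e * N) (by linarith [h.one]) h.mis (VV lr lb U σ τ) a (h.ind σ τ) _ ?_ ?_
  · intro v hv
    unfold oD at hv
    unfold VV
    rw [mem_filter] at hv ⊢
    exact ⟨hv.1, Or.inr hv.2.1, Or.inr hv.2.2⟩
  · intro u hu w _
    unfold oD at hu
    rw [mem_filter] at hu
    refine ⟨fun hh => ?_, fun hh => ?_⟩
    · have := (h.lab.radj u w hh).1
      rw [hu.2.1] at this
      exact absurd this (by simp)
    · have := (h.lab.badj u w hh).1
      rw [hu.2.2] at this
      exact absurd this (by simp)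

/-- `J` is the union of its intersections with the four sets `VV σ τ`. -/
theorem indep_card4 (R B : SimpleGraph W) (M : W → W → Prop) (x y N e : ℝ) (lr lb : W → Option Bool) (U : Finset W) (a : ℕ)
    (h : OEnv R B M x y N e lr lb U a) (J : Finset W) (hJU : J ⊆ U) (hJ : ∀ u ∈ J, ∀ w ∈ J, ¬ R.Adj u w ∧ ¬ B.Adj u w) :
    (J.card : ℝ) ≤ 4 * a * (e * N) := by
  classical
  have hb : ∀ σ τ, (((J ∩ VV lr lb U σ τ)).card : ℝ) ≤ a * (e * N) := fun σ τ =>
    ind_card_le R B M (e * N) (by linarith [h.one]) h.mis (VV lr lb U σ τ) a (h.ind σ τ) _ inter_subset_right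
      (fun u hu w hw => hJ u (mem_inter.mp hu).1 w (mem_inter.mp hw).1)
  have hsub : J ⊆ ((J ∩ VV lr lb U true true) ∪ (J ∩ VV lr lb U true false)) ∪
      ((J ∩ VV lr lb U false true) ∪ (J ∩ VV lr lb U false false)) := by
    intro v hv
    have hvU := hJU hv
    simp only [mem_union, mem_inter, VV, mem_filter]
    rcases hr : lr v with _ | b1 <;> rcases hb' : lb v with _ | b2
    · simp [hv, hvU]
    · cases b2 <;> simp [hv, hvU]
    · cases b1 <;> simp [hv, hvU]
    · cases b1 <;> cases b2 <;> simp [hv, hvU]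
  have h1 := (card_le_card hsub).trans ((card_union_le _ _).trans (Nat.add_le_add (card_union_le _ _) (card_union_le _ _)))
  have h2 : (J.card : ℝ) ≤ ((J ∩ VV lr lb U true true).card + (J ∩ VV lr lb U true false).card : ℝ) +
      ((J ∩ VV lr lb U false true).card + (J ∩ VV lr lb U false false).card : ℝ) := by exact_mod_cast h1
  have := hb true true
  have := hb true false
  have := hb false true
  have := hb false false
  linarith

end Pool.Agent.Lib.MP_779bc2_co
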