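import Pool.Agent.Lib.MP_779bc2_co.O1Res

/-! Row O4Del (about 90 lines): deletion of a closed neighbourhood -/

set_option autoImplicit false

namespace Pool.Agent.Lib.MP_779bc2_co

open Finset

variable {W : Type} [Fintype W] [DecidableEq W]

/-- `U' = U \ (cnb R B v U ∪ {w | M v w})`. If `T ⊆ VV lr lb U' σ τ` has more than `a` elements then `insert v T ⊆ VV lr lb U σ τ` has more than `a+1` elements, so two different elements of it are
related (by `M`, `R` or `B`); `v` is not related to the elements of `T ⊆ U'`, so both are in `T`. (`M` symmetric.) -/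
theorem oo_delete (R B : SimpleGraph W) (M : W → W → Prop) (x y N e : ℝ) (lr lb : W → Option Bool) (U : Finset W) (a : ℕ)
    (h : OEnv R B M x y N e lr lb U (a + 1)) (v : W) (hv : v ∈ U) (hr : lr v = none) (hb : lb v = none) (z : ℝ)
    (hz : ((cnb R B v U).card : ℝ) ≤ z) :
    ∃ U' ⊆ U, (U.card : ℝ) ≤ U'.card + z + e * N ∧ OEnv (res R U') (res B U') M x y N e lr lb U' a := by
  classical
  set Mv : Finset W := univ.filter (fun w => M v w) with hMv
  set U' : Finset W := U \ (cnb R B v U ∪ Mv) with hU'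
  have hsub : U' ⊆ U := sdiff_subset
  have hrel : ∀ w ∈ U', w ≠ v ∧ ¬ M v w ∧ ¬ M w v ∧ ¬ R.Adj v w ∧ ¬ B.Adj v w := by
    intro w hw
    rw [hU', mem_sdiff, mem_union, mem_cnb, hMv, mem_filter] at hw
    obtain ⟨hwU, hw⟩ := hw
    push Not at hw
    have hM : ¬ M v w := fun hM => hw.2 (mem_univ _) hM
    refine ⟨hw.1.1, hM, fun hM' => hM (h.mis.symm w v hM'), fun hh => ?_, fun hh => ?_⟩
    · exact (hw.1.2 hwU).1 hh
    · exact (hw.1.2 hwU).2 hh
  refine ⟨U', hsub, ?_, ?_⟩
  · have h1 : U ⊆ U' ∪ (cnb R B v U ∪ Mv) := by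
      intro w hw
      rw [mem_union, hU', mem_sdiff]
      by_cases hh : w ∈ cnb R B v U ∪ Mv
      · exact Or.inr hh
      · exact Or.inl ⟨hw, hh⟩
    have h2 := (card_le_card h1).trans ((card_union_le _ _).trans (Nat.add_le_add_left (card_union_le _ _) _))
    have h3 : (U.card : ℝ) ≤ U'.card + ((cnb R B v U).card + Mv.card) := by exact_mod_cast h2
    have h4 : (Mv.card : ℝ) ≤ e * N := by
      have := h.mis.card v
      rw [hMv]
      convert this
    linarith
  · refine ⟨h.one, h.mis, h.zR.res U', h.zB.res U', h.x2, h.y2,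
      ⟨h.lab.rnone, h.lab.bnone, fun u w huw => h.lab.radj u w huw.2.2, fun u w huw => h.lab.badj u w huw.2.2⟩,
      fun σ τ => ?_, fun _ _ huw => ⟨huw.1, huw.2.1⟩, fun _ _ huw => ⟨huw.1, huw.2.1⟩⟩
    apply indLe_res R B M U' (VV lr lb U' σ τ) a (filter_subset _ _)
    refine IndLe.del (h.ind σ τ) v ?_ ?_ ?_
    · unfold VV
      rw [mem_filter]
      exact ⟨hv, Or.inl hr, Or.inl hb⟩
    · intro w hw
      unfold VV at hw ⊢
      rw [mem_filter] at hw ⊢
      exact ⟨hsub hw.1, hw.2⟩
    · intro w hw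
      unfold VV at hw
      rw [mem_filter] at hw
      exact hrel w hw.1

end Pool.Agent.Lib.MP_779bc2_co
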