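import Pool.Agent.Lib.MP_779bc2_co.CDefs

/-!
# Part II, both cycles odd: environment and classes of vertices
-/

set_option autoImplicit false

namespace Pool.Agent.Lib.MP_779bc2_co

open Finset

variable {W : Type} [Fintype W] [DecidableEq W]

/-- environment of the both-odd case; the edges of `R` and `B` lie inside `U` -/
structure OEnv (R B : SimpleGraph W) (M : W → W → Prop) (x y N e : ℝ) (lr lb : W → Option Bool) (U : Finset W)
    (a : ℕ) : Prop where
  one : 1 ≤ e * N
  mis : MisLe M (e * N)
  zR : ZLe R x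
  zB : ZLe B y
  x2 : 2 ≤ x
  y2 : 2 ≤ y
  lab : Lab true true R B lr lb
  ind : ∀ σ τ, IndLe R B M (VV lr lb U σ τ) a
  supR : ∀ u w, R.Adj u w → u ∈ U ∧ w ∈ U
  supB : ∀ u w, B.Adj u w → u ∈ U ∧ w ∈ U

/-- vertices of `U` without labels -/
def oP (lr lb : W → Option Bool) (U : Finset W) : Finset W := U.filter (fun v => lr v = none ∧ lb v = none)
/-- red type, blue label `τ` -/
def oA (lr lb : W → Option Bool) (U : Finset W) (τ : Bool) : Finset W := U.filter (fun v => lr v = none ∧ lb v = some τ)
/-- blue type, red label `σ` -/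
def oB (lr lb : W → Option Bool) (U : Finset W) (σ : Bool) : Finset W := U.filter (fun v => lr v = some σ ∧ lb v = none)
/-- both labels -/
def oD (lr lb : W → Option Bool) (U : Finset W) (σ τ : Bool) : Finset W :=
  U.filter (fun v => lr v = some σ ∧ lb v = some τ)

/-- all components of `G` have at most `z` vertices -/
def SmallComps (G : SimpleGraph W) (z : ℝ) : Prop := ∀ v, ((comp G v).card : ℝ) ≤ z

open Classical in
/-- the vertices of `V` which are neither in one of the components of `R` of the elements of `P` nor in one of the components of `B` of the elements of `Q` -/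
noncomputable def unc (R B : SimpleGraph W) (V P Q : Finset W) : Finset W :=
  V.filter (fun v => (∀ u ∈ P, ¬ R.Reachable u v) ∧ ∀ u ∈ Q, ¬ B.Reachable u v)

/-- `P`, `Q`: representatives of different components of `R`, of `B`, covering `V` up to at most `z` vertices -/
structure Cov (R B : SimpleGraph W) (V P Q : Finset W) (z : ℝ) : Prop where
  unc : ((unc R B V P Q).card : ℝ) ≤ z
  dR : ∀ u ∈ P, ∀ w ∈ P, u ≠ w → ¬ R.Reachable u w
  dB : ∀ u ∈ Q, ∀ w ∈ Q, u ≠ w → ¬ B.Reachable u w

/-- constants of the both-odd case (in units of `μ = e N`) -/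
noncomputable def kap (a : ℕ) : ℝ := a * (8 * a) + 2 ^ (a + 1)
noncomputable def kap3 (a : ℕ) : ℝ := 5 * kap a + 7 * a + 2

theorem kap_nonneg (a : ℕ) : 0 ≤ kap a := by unfold kap; positivity
theorem kap3_nonneg (a : ℕ) : 0 ≤ kap3 a := by have := kap_nonneg a; unfold kap3; positivity

/-- the cliques: red ones with blue label `s` (index `(s, inl i)`), blue ones with red label `s` (index `(s, inr j)`) -/
noncomputable def oQ (R B : SimpleGraph W) (lr lb : W → Option Bool) (U : Finset W) {p q : ℕ} (gR : Bool → Fin p → W)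
    (gB : Bool → Fin q → W) : Bool × (Fin p ⊕ Fin q) → Finset W
  | (s, .inl i) => oA lr lb U s ∩ comp R (gR s i)
  | (s, .inr j) => oB lr lb U s ∩ comp B (gB s j)

/-- the extremal structure in the both-odd case -/
structure OStr (R B : SimpleGraph W) (M : W → W → Prop) (x y N e : ℝ) (lr lb : W → Option Bool) (U : Finset W)
    (a p q : ℕ) (gR : Bool → Fin p → W) (gB : Bool → Fin q → W) : Prop where
  env : OEnv R B M x y N e lr lb U a
  pq : p + q = a
  sR : SmallComps R (x + 8 * a * (e * N))
  sB : SmallComps B (y + 8 * a * (e * N))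
  sepR : ∀ s i j, i ≠ j → ¬ R.Reachable (gR s i) (gR s j)
  sepB : ∀ s i j, i ≠ j → ¬ B.Reachable (gB s i) (gB s j)
  card : ∀ i, max x y - kap3 a * (e * N) ≤ (oQ R B lr lb U gR gB i).card
  big : (4 * kap3 a + 20) * (e * N) < max x y

end Pool.Agent.Lib.MP_779bc2_co
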