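import Pool.Agent.Lib.MP_779bc2_co.H3Key
import Pool.Agent.Lib.MP_779bc2_co.H5Cover
import Pool.Agent.Lib.MP_779bc2_co.H7Few

/-! S1: configuration -/

set_option autoImplicit false

namespace Pool.Agent.Lib.MP_779bc2_co

open Finset

variable {W : Type} [Fintype W] [DecidableEq W]

/-- `U` is complete up to `M`; `I0 ∪ C0 ∪ T0` is (up to `r` elements) `U`, coming from the Hall decomposition of the main component of `R`. -/
structure S1Cfg (R B : SimpleGraph W) (M : W → W → Prop) (x y r : ℝ) (U I0 C0 T0 : Finset W) : Prop where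
  subI : I0 ⊆ U
  subC : C0 ⊆ U
  subT : T0 ⊆ U
  dIC : Disjoint I0 C0
  dIT : Disjoint I0 T0
  dCT : Disjoint C0 T0
  cov : ((U \ (I0 ∪ C0 ∪ T0)).card : ℝ) ≤ r
  bd : (C0.card : ℝ) + 2 * T0.card ≤ x
  noR : ∀ u ∈ I0, ∀ w ∈ I0 ∪ C0, ¬ R.Adj u w
  compl : ∀ u ∈ U, ∀ w ∈ U, M u w ∨ R.Adj u w ∨ B.Adj u w
  big : th x y - r ≤ U.card

end Pool.Agent.Lib.MP_779bc2_co
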