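import Pool.Agent.Lib.MP_779bc2_co.S0Cfg

/-! Row S1b (about 180 lines): the case `|C0| ≤ |I0|` of S1 -/

set_option autoImplicit false

namespace Pool.Agent.Lib.MP_779bc2_co

open Finset

/-- matching of `D` into `Q`, its inverse, and a permutation-like map of the rest of `Q` -/
theorem s1b_glue {W : Type} [Fintype W] [DecidableEq W] (G : SimpleGraph W) (x : ℝ) (zG : ZLe G x) (D Q : Finset W)
    (hdis : Disjoint D Q) (ψ : W → W) (hψinj : Set.InjOn ψ D) (hψ : ∀ d ∈ D, ψ d ∈ Q ∧ G.Adj d (ψ d))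
    (φ1 : W → W) (hφ1inj : Set.InjOn φ1 (Q \ D.image ψ : Finset W))
    (hφ1 : ∀ q ∈ Q \ D.image ψ, φ1 q ∈ Q \ D.image ψ ∧ G.Adj q (φ1 q))
    (hreachQ : ∀ q ∈ Q, ∀ q' ∈ Q, G.Reachable q q') : (D.card : ℝ) + Q.card ≤ x := by
  classical
  have hD : ∀ d ∈ D, d ∉ Q := fun d hd => (disjoint_left.1 hdis) hd
  set Q1 := Q \ D.image ψ with hQ1
  have hinv : ∃ inv : W → W, ∀ d ∈ D, inv (ψ d) = d := by
    refine ⟨fun w => if h : ∃ d ∈ D, ψ d = w then h.choose else w, fun d hd => ?_⟩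
    have h : ∃ d' ∈ D, ψ d' = ψ d := ⟨d, hd, rfl⟩
    have e : (fun w => if h : ∃ d ∈ D, ψ d = w then h.choose else w) (ψ d) = h.choose := dif_pos h
    rw [e]
    exact hψinj h.choose_spec.1 hd h.choose_spec.2
  obtain ⟨inv, hinv⟩ := hinv
  let φ : W → W := fun w => if w ∈ D then ψ w else if w ∈ Q1 then φ1 w else inv w
  have e1 : ∀ d ∈ D, φ d = ψ d := fun d hd => if_pos hd
  have hQ1D : ∀ q ∈ Q1, q ∉ D := fun q hq hd => hD q hd (mem_sdiff.1 hq).1
  have e2 : ∀ q ∈ Q1, φ q = φ1 q := by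
    intro q hq
    have : φ q = if q ∈ Q1 then φ1 q else inv q := if_neg (hQ1D q hq)
    rw [this, if_pos hq]
  have e3 : ∀ d ∈ D, φ (ψ d) = d := by
    intro d hd
    have h1 : ψ d ∉ D := fun h => hD _ h (hψ d hd).1
    have h2 : ψ d ∉ Q1 := fun h => (mem_sdiff.1 h).2 (mem_image_of_mem _ hd)
    have : φ (ψ d) = if ψ d ∈ Q1 then φ1 (ψ d) else inv (ψ d) := if_neg h1
    rw [this, if_neg h2, hinv d hd]
  have hcases : ∀ w ∈ D ∪ Q, w ∈ D ∨ w ∈ Q1 ∨ ∃ d ∈ D, ψ d = w := by
    intro w hw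
    rcases mem_union.1 hw with h | h
    · exact Or.inl h
    · by_cases h' : w ∈ D.image ψ
      · obtain ⟨d, hd, h2⟩ := mem_image.1 h'
        exact Or.inr (Or.inr ⟨d, hd, h2⟩)
      · exact Or.inr (Or.inl (mem_sdiff.2 ⟨h, h'⟩))
  have key := zG (D ∪ Q) φ ?_ ?_ ?_
  · rw [card_union_of_disjoint hdis] at key
    push_cast at key
    linarith
  · intro a ha b hb hab
    rcases hcases a ha with ha | ha | ⟨d, hd, rfl⟩ <;> rcases hcases b hb with hb | hb | ⟨d', hd', rfl⟩
    · rw [e1 a ha, e1 b hb] at hab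
      exact hψinj ha hb hab
    · rw [e1 a ha, e2 b hb] at hab
      exact absurd (mem_image.2 ⟨a, ha, hab⟩) (mem_sdiff.1 (hφ1 b hb).1).2
    · rw [e1 a ha, e3 d' hd'] at hab
      exact absurd (hψ a ha).1 (hab ▸ hD d' hd')
    · rw [e2 a ha, e1 b hb] at hab
      exact absurd (mem_image.2 ⟨b, hb, hab.symm⟩) (mem_sdiff.1 (hφ1 a ha).1).2
    · rw [e2 a ha, e2 b hb] at hab
      exact hφ1inj ha hb hab
    · rw [e2 a ha, e3 d' hd'] at hab
      exact absurd (mem_sdiff.1 (hφ1 a ha).1).1 (hab ▸ hD d' hd')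
    · rw [e1 b hb, e3 d hd] at hab
      exact absurd (hψ b hb).1 (hab ▸ hD d hd)
    · rw [e2 b hb, e3 d hd] at hab
      exact absurd (mem_sdiff.1 (hφ1 b hb).1).1 (hab ▸ hD d hd)
    · rw [e3 d hd, e3 d' hd'] at hab
      rw [hab]
  · intro u hu
    rcases hcases u hu with h | h | ⟨d, hd, rfl⟩
    · rw [e1 u h]; exact (hψ u h).2
    · rw [e2 u h]; exact (hφ1 u h).2
    · rw [e3 d hd]; exact (hψ d hd).2.symm
  · have hr1 : ∀ w ∈ D ∪ Q, ∃ q ∈ Q, G.Reachable w q := by
      intro w hw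
      rcases mem_union.1 hw with h | h
      · exact ⟨ψ w, (hψ w h).1, (hψ w h).2.reachable⟩
      · exact ⟨w, h, SimpleGraph.Reachable.refl _⟩
    intro u hu w hw
    obtain ⟨q, hq, h1⟩ := hr1 u hu
    obtain ⟨q', hq', h2⟩ := hr1 w hw
    exact (h1.trans (hreachQ q hq q' hq')).trans h2.symm

/-- weaker form of `S1Cfg`: only the pairs with an element of `I0` have to be complete -/
structure S1CfgB {W : Type} [Fintype W] [DecidableEq W] (R B : SimpleGraph W) (M : W → W → Prop) (x y r : ℝ) (U I0 C0 T0 : Finset W) : Prop where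
  subI : I0 ⊆ U
  subC : C0 ⊆ U
  subT : T0 ⊆ U
  dIC : Disjoint I0 C0
  dIT : Disjoint I0 T0
  dCT : Disjoint C0 T0
  cov : ((U \ (I0 ∪ C0 ∪ T0)).card : ℝ) ≤ r
  bd : (C0.card : ℝ) + 2 * T0.card ≤ x
  noR : ∀ u ∈ I0, ∀ w ∈ I0 ∪ C0, ¬ R.Adj u w
  compl : ∀ u ∈ U, ∀ w ∈ I0, M u w ∨ R.Adj u w ∨ B.Adj u w
  big : th x y - r ≤ U.card

/-- Let `r = e N ≥ 1` (also the bound for the degrees of `M`), `e` small compared with `c`, `e'`.
(0) `nn B u I0` has at most `r` elements for `u ∈ I0 ∪ C0` (`noR`, `compl`).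
(1) `|U| ≤ |I0| + |C0| + |T0| + r ≤ 2|I0| + x/2 + r` and `|U| ≥ x + y/2 - r`, so `|I0| ≥ (x + y)/4 - r ≥ c N/4 - r`, much larger than `r`.
(2) `|I0| + |C0| ≤ y + 3r + 2`: take `C' ⊆ C0` with `|C'| = min |C0| (|I0| - ⌈3r⌉ - 1)`, match it into `I0` by `B` (`match_into`, image `ψ(C')`), use the inverse on `ψ(C')` and `self_map` on `I0 \ ψ(C')`; everything lies in one
component of `B` (`near_reach`). So `|C'| + |I0| ≤ y`.
(3) `|U| ≤ y + |T0| + 4r + 2 ≤ y + x/2 + 4r + 2`; with `|U| ≥ y + x/2 - r`: `|T0| ≥ x/2 - 5r - 2`, `|C0| ≤ x - 2|T0| ≤ 10 r + 4`, `|I0| ≥ y - 12 r - 4`; with `|U| ≥ x + y/2 - r`: `x ≤ y + 10 r + 4`.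
(4) `Q = I0` (near-clique of `B`, independent in `R`), `Z = {z ∈ T0 : |nn R z I0| ≤ e' N}`; if `z ∈ T0 \ Z` then `z` has at least `e' N - r` `B`-neighbours in `I0`; by `U1` (graph `B`, bound `y`, `r' = 12 r + 5`) there are at most `r' + 1` such `z`. -/
theorem S1_b_gen (c e' : ℝ) (hc : 0 < c) (he' : 0 < e') : ∃ e > (0 : ℝ), ∀ (W : Type) [Fintype W] [DecidableEq W]
    (R B : SimpleGraph W) (M : W → W → Prop) (x y N : ℝ), Env R B M x y N e c → ∀ U I0 C0 T0 : Finset W,
      S1CfgB R B M x y (e * N) U I0 C0 T0 → C0.card ≤ I0.card →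
        ∃ Z ⊆ U, IsUnit' B R y x (e' * N) I0 Z ∧ (U.card : ℝ) ≤ y + x / 2 + e' * N := by
  classical
  refine ⟨min (c / 400) (e' / 40), lt_min (by positivity) (by positivity), ?_⟩
  intro W _ _ R B M x y N env U I0 C0 T0 cfg hCI
  set e := min (c / 400) (e' / 40) with he
  have hepos : 0 < e := lt_min (by positivity) (by positivity)
  have he1 : e ≤ c / 400 := min_le_left _ _
  have he2 : e ≤ e' / 40 := min_le_right _ _
  have h1 := env.one
  have hN : 0 < N := by
    by_contra h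
    push Not at h
    nlinarith
  have g1 : e * N ≤ c / 400 * N := mul_le_mul_of_nonneg_right he1 hN.le
  have g2 : e * N ≤ e' / 40 * N := mul_le_mul_of_nonneg_right he2 hN.le
  set r := e * N with hr
  have hbig := env.big
  have hx2 := env.x2
  have hy2 := env.y2
  have hxy : c * N ≤ x + y := hbig.trans (max_le (by linarith) (by linarith))
  -- (0)
  have h0 : ∀ u ∈ I0 ∪ C0, ((nn B u I0).card : ℝ) ≤ r := by
    intro u hu
    refine le_trans ?_ (env.mis.card u)
    have hsub : nn B u I0 ⊆ univ.filter (fun w => M u w) := by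
      intro w hw
      rw [mem_nn] at hw
      refine mem_filter.2 ⟨mem_univ _, ?_⟩
      have huU : u ∈ U := by
        rcases mem_union.1 hu with h | h
        · exact cfg.subI h
        · exact cfg.subC h
      rcases cfg.compl u huU w hw.1 with h | h | h
      · exact h
      · exact absurd h.symm (cfg.noR w hw.1 u hu)
      · exact absurd h hw.2
    exact_mod_cast card_le_card hsub
  -- (1)
  have hcov := cfg.cov
  have hbd := cfg.bd
  have hUcard : (U.card : ℝ) ≤ I0.card + C0.card + T0.card + r := by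
    have hs : U ⊆ (U \ (I0 ∪ C0 ∪ T0)) ∪ (I0 ∪ C0 ∪ T0) := by
      intro w hw
      by_cases h : w ∈ I0 ∪ C0 ∪ T0
      · exact mem_union_right _ h
      · exact mem_union_left _ (mem_sdiff.2 ⟨hw, h⟩)
    have h2 : (U.card : ℝ) ≤ (U \ (I0 ∪ C0 ∪ T0)).card + (I0 ∪ C0 ∪ T0).card := by
      exact_mod_cast (card_le_card hs).trans (card_union_le _ _)
    have h3 : ((I0 ∪ C0 ∪ T0).card : ℝ) ≤ I0.card + C0.card + T0.card := by
      have a1 := card_union_le (I0 ∪ C0) T0
      have a2 := card_union_le I0 C0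
      exact_mod_cast a1.trans (by omega)
    linarith
  have hth1 : x + y / 2 - r ≤ U.card := by
    linarith [cfg.big, le_th_left x y]
  have hth2 : y + x / 2 - r ≤ U.card := by
    linarith [cfg.big, le_th_right x y]
  have hCI' : (C0.card : ℝ) ≤ I0.card := by exact_mod_cast hCI
  have hI0 : 112 * r ≤ I0.card := by linarith
  -- (2)
  have hsum : (I0.card : ℝ) + C0.card ≤ y + 3 * r + 2 := by
    set t := ⌈3 * r⌉₊ + 1 with ht
    have ht1 : (t : ℝ) ≤ 3 * r + 2 := by
      rw [ht]; push_cast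
      have := Nat.ceil_lt_add_one (by linarith : 0 ≤ 3 * r)
      linarith
    have ht2 : 3 * r + 1 ≤ (t : ℝ) := by
      rw [ht]; push_cast
      linarith [Nat.le_ceil (3 * r)]
    have htI : t ≤ I0.card := by
      have : (t : ℝ) ≤ I0.card := by linarith
      exact_mod_cast this
    obtain ⟨C', hC'sub, hC'card⟩ := exists_subset_card_eq (min_le_left C0.card (I0.card - t))
    have hC'2 : (C'.card : ℝ) + t ≤ I0.card := by
      have : C'.card + t ≤ I0.card := by
        rw [hC'card]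
        have := min_le_right C0.card (I0.card - t)
        omega
      exact_mod_cast this
    have hC'0 : ∀ d ∈ C', d ∈ I0 ∪ C0 := fun d hd => mem_union_right _ (hC'sub hd)
    obtain ⟨ψ, hψinj, hψ⟩ := match_into B C' I0 (by
      intro d hd
      have a1 : ((nb B d I0).card : ℝ) + (nn B d I0).card = I0.card := by exact_mod_cast nb_add_nn B d I0
      have a2 := h0 d (hC'0 d hd)
      have : (C'.card : ℝ) ≤ ((nb B d I0).card : ℝ) := by linarith
      exact_mod_cast this)
    have hPsub : C'.image ψ ⊆ I0 := by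
      intro w hw
      obtain ⟨d, hd, rfl⟩ := mem_image.1 hw
      exact (hψ d hd).1
    have hQ1card : ((I0 \ C'.image ψ).card : ℝ) + C'.card = I0.card := by
      have a1 := card_sdiff_add_card_eq_card hPsub
      rw [card_image_of_injOn hψinj] at a1
      exact_mod_cast a1
    obtain ⟨φ1, hφ1inj, hφ1⟩ := self_map B (I0 \ C'.image ψ) r (by
      intro q hq
      refine le_trans ?_ (h0 q (mem_union_left _ (mem_sdiff.1 hq).1))
      have : nn B q (I0 \ C'.image ψ) ⊆ nn B q I0 := by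
        intro w hw
        rw [mem_nn] at hw ⊢
        exact ⟨(mem_sdiff.1 hw.1).1, hw.2⟩
      exact_mod_cast card_le_card this) (by linarith)
    have hdis : Disjoint C' I0 := (disjoint_of_subset_right hC'sub cfg.dIC).symm
    have hglue := s1b_glue B y env.zB C' I0 hdis ψ hψinj hψ φ1 hφ1inj hφ1
      (near_reach B I0 r (fun q hq => h0 q (mem_union_left _ hq)) (by linarith))
    rcases le_total C0.card (I0.card - t) with h | h
    · rw [min_eq_left h] at hC'card
      rw [hC'card] at hglue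
      linarith
    · rw [min_eq_right h] at hC'card
      have : (C'.card : ℝ) = I0.card - t := by
        rw [hC'card, Nat.cast_sub htI]
      linarith
  -- (3)
  have hT0 : x / 2 - 5 * r - 2 ≤ T0.card := by linarith
  have hC0 : (C0.card : ℝ) ≤ 10 * r + 4 := by linarith
  have hI0y : y - 7 * r - 2 ≤ I0.card := by linarith
  have hxy2 : x ≤ y + 10 * r + 4 := by linarith
  -- (4)
  have hU1 := U1 B y env.zB I0 (12 * r + 5) (by linarith) (by linarith)
    (fun q hq => (h0 q (mem_union_left _ hq)).trans (by linarith)) (by linarith)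
  set Z := T0.filter (fun z => ((nn R z I0).card : ℝ) ≤ e' * N) with hZ
  have hZT : Z ⊆ T0 := filter_subset _ _
  have hTZ : ((T0 \ Z).card : ℝ) ≤ 12 * r + 6 := by
    refine le_trans ?_ (hU1.trans (by linarith))
    have hsub : T0 \ Z ⊆ univ.filter (fun v => v ∉ I0 ∧ 2 * (12 * r + 5) + 2 ≤ ((nb B v I0).card : ℝ)) := by
      intro z hz
      rw [mem_sdiff, hZ, mem_filter, not_and, not_le] at hz
      obtain ⟨hzT, hz2⟩ := hz
      have hz3 := hz2 hzT
      refine mem_filter.2 ⟨mem_univ _, fun h => (disjoint_left.1 cfg.dIT) h hzT, ?_⟩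
      have hsub2 : nn R z I0 ⊆ nb B z I0 ∪ univ.filter (fun w => M z w) := by
        intro w hw
        rw [mem_nn] at hw
        rcases cfg.compl z (cfg.subT hzT) w hw.1 with h | h | h
        · exact mem_union_right _ (mem_filter.2 ⟨mem_univ _, h⟩)
        · exact absurd h hw.2
        · exact mem_union_left _ (mem_nb.2 ⟨hw.1, h⟩)
      have a1 : ((nn R z I0).card : ℝ) ≤ (nb B z I0).card + (univ.filter (fun w => M z w)).card := by
        exact_mod_cast (card_le_card hsub2).trans (card_union_le _ _)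
      have a2 := env.mis.card z
      linarith
    exact_mod_cast card_le_card hsub
  have hZcard : ((T0 \ Z).card : ℝ) + Z.card = T0.card := by
    exact_mod_cast card_sdiff_add_card_eq_card hZT
  refine ⟨Z, hZT.trans cfg.subT, ⟨by linarith, by linarith, disjoint_of_subset_right hZT cfg.dIT, ?_, ?_, ?_, by linarith⟩, by linarith⟩
  · intro q hq
    have := h0 q (mem_union_left _ hq)
    linarith
  · intro q hq
    have : nb R q I0 = ∅ := by
      rw [eq_empty_iff_forall_notMem]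
      intro w hw
      rw [mem_nb] at hw
      exact cfg.noR q hq w (mem_union_left _ hw.1) hw.2
    rw [this, card_empty]
    push_cast
    linarith
  · intro z hz
    exact (mem_filter.1 hz).2

theorem S1_b (c e' : ℝ) (hc : 0 < c) (he' : 0 < e') : ∃ e > (0 : ℝ), ∀ (W : Type) [Fintype W] [DecidableEq W]
    (R B : SimpleGraph W) (M : W → W → Prop) (x y N : ℝ), Env R B M x y N e c → ∀ U I0 C0 T0 : Finset W,
      S1Cfg R B M x y (e * N) U I0 C0 T0 → C0.card ≤ I0.card →
        ∃ Z ⊆ U, IsUnit' B R y x (e' * N) I0 Z ∧ (U.card : ℝ) ≤ y + x / 2 + e' * N := by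
  obtain ⟨e, he, h⟩ := S1_b_gen c e' hc he'
  refine ⟨e, he, fun W _ _ R B M x y N henv U I0 C0 T0 cfg hle => ?_⟩
  exact h W R B M x y N henv U I0 C0 T0
    ⟨cfg.subI, cfg.subC, cfg.subT, cfg.dIC, cfg.dIT, cfg.dCT, cfg.cov, cfg.bd, cfg.noR,
      fun u hu w hw => cfg.compl u hu w (cfg.subI hw), cfg.big⟩ hle

end Pool.Agent.Lib.MP_779bc2_co
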