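import Pool.Agent.Lib.MP_779bc2_co.S0Cfg

/-! Row S1c (about 250 lines): the case `|C0| > |I0|` of S1 -/

set_option autoImplicit false

namespace Pool.Agent.Lib.MP_779bc2_co

open Finset

/-- A matching from `D` to the complement of `D` and its inverse. -/
theorem s1c_double {W : Type} [Fintype W] [DecidableEq W] (B : SimpleGraph W) (y : ℝ) (zB : ZLe B y) (D : Finset W)
    (ψ : W → W) (hinj : Set.InjOn ψ D) (hadj : ∀ d ∈ D, B.Adj d (ψ d)) (hdisj : ∀ d ∈ D, ψ d ∉ D)
    (hreach : ∀ u ∈ D, ∀ w ∈ D, B.Reachable u w) : 2 * (D.card : ℝ) ≤ y := by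
  have hex : ∀ w ∈ D.image ψ, ∃ d, d ∈ D ∧ ψ d = w := fun w hw => by
    obtain ⟨d, hd, h⟩ := mem_image.mp hw
    exact ⟨d, hd, h⟩
  choose! g hg using hex
  have hcard : (D ∪ D.image ψ).card = 2 * D.card := by
    rw [card_union_of_disjoint, card_image_of_injOn hinj]
    · ring
    · rw [disjoint_right]
      intro w hw hwD
      obtain ⟨d, hd, h⟩ := mem_image.mp hw
      exact hdisj d hd (h ▸ hwD)
  have h := zB (D ∪ D.image ψ) (fun w => if w ∈ D then ψ w else g w) ?_ ?_ ?_
  · rw [hcard] at h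
    push_cast at h
    exact h
  · intro a ha b hb hab
    simp only at hab
    rw [mem_coe, mem_union] at ha hb
    by_cases haD : a ∈ D
    · by_cases hbD : b ∈ D
      · rw [if_pos haD, if_pos hbD] at hab
        exact hinj haD hbD hab
      · rw [if_pos haD, if_neg hbD] at hab
        have hb' := hg b (hb.resolve_left hbD)
        exact absurd (hab ▸ hb'.1) (hdisj a haD)
    · by_cases hbD : b ∈ D
      · rw [if_neg haD, if_pos hbD] at hab
        have ha' := hg a (ha.resolve_left haD)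
        exact absurd (hab ▸ ha'.1) (hdisj b hbD)
      · rw [if_neg haD, if_neg hbD] at hab
        have ha' := hg a (ha.resolve_left haD)
        have hb' := hg b (hb.resolve_left hbD)
        rw [← ha'.2, ← hb'.2, hab]
  · intro u hu
    rw [mem_union] at hu
    by_cases huD : u ∈ D
    · simp only [if_pos huD]
      exact hadj u huD
    · simp only [if_neg huD]
      have hu' := hg u (hu.resolve_left huD)
      have := (hadj _ hu'.1).symm
      rwa [hu'.2] at this
  · have key : ∀ u ∈ D ∪ D.image ψ, ∃ d ∈ D, B.Reachable u d := by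
      intro u hu
      rw [mem_union] at hu
      by_cases huD : u ∈ D
      · exact ⟨u, huD, SimpleGraph.Reachable.refl _⟩
      · have hu' := hg u (hu.resolve_left huD)
        refine ⟨g u, hu'.1, ?_⟩
        have := (hadj _ hu'.1).symm
        rw [hu'.2] at this
        exact this.reachable
    intro u hu w hw
    obtain ⟨d, hd, h1⟩ := key u hu
    obtain ⟨d', hd', h2⟩ := key w hw
    exact (h1.trans (hreach d hd d' hd')).trans h2.symm

theorem s1c_comp_sub {W : Type} [Fintype W] [DecidableEq W] (B : SimpleGraph W) (U : Finset W) (v : W) (hv : v ∈ U) :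
    comp (res B U) v ⊆ U := by
  intro w hw
  rw [mem_comp] at hw
  obtain ⟨p⟩ := hw
  induction p with
  | nil => exact hv
  | cons h _ ih => exact ih h.2.1

open Classical in
/-- Let `r = e N ≥ 1` (also the bound for the degrees of `M`), `e` small compared with `c`, `e'`, `e1`.
(0) `nn B u (I0 ∪ C0)` has at most `r` elements for `u ∈ I0`.
(1) `|I0| ≥ |U| - |C0| - |T0| - r ≥ |U| - x + |T0| - r`, so `|I0| ≥ y/2 + |T0| - 2r` and `|I0| ≥ y - x/2 + |T0| - 2r`; `|I0| ≥ e1 N/2 - 2r > 2r + 2`.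
(2) `|I0| ≤ y/2 + r + 1`: match a subset `I' ⊆ I0` with `⌊|I0| - r⌋` elements into `C0` by `B` (`|nb B u C0| ≥ |C0| - r ≥ |I0| - r`); the map and its inverse give `2 |I'| ≤ y` (one component: `near_reach` for `I0`).
(3) `|T0| ≤ 3r + 1`, `y ≤ x + 6r + 2`, `|C0| ≥ |U| - |I0| - |T0| - r ≥ x - 6r - 2`, `x ≥ c N/2`.
(4) Let `B' = res B U`, `J` a Hall decomposition of `B'` with bound `y` (`hall_decomp`, `ZLe.res`), `S'` the component of `B'` containing `I0` and `C0` (every `u ∈ C0` has a `B`-neighbour in `I0`), `T* = S' ∩ nbs B' J`. `|S'| ≥ |U| - |T0| - r`,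
`|S' ∩ J| ≥ |S'| - y + |T*| ≥ x - y/2 - 5r - 1 + |T*| ≥ x/2 - 8r - 2 + |T*|`.
(5) If `|J ∩ C0| ≤ r` then `|J ∩ I0| ≥ x/2 - 8r - 2 - r - (3r+1) - r > r`; but for `u, w ∈ J ∩ I0`, `u ≠ w`: not `R` (`noR`), not `B` (`J` independent), so `M u w`: `|J ∩ I0| ≤ r`. Contradiction.
(6) So `|J ∩ C0| > r`, every `u ∈ I0` has a `B`-neighbour in `J ∩ C0`, hence `I0 ⊆ T*`, `|T*| ≥ y/2 - 2r`; `C* = S' \ J \ T*`: `|C*| + 2|T*| ≤ y`, so `|T*| ≤ y/2`, `|C*| ≤ 4r`, `|S' ∩ J| ≥ x - 9r - 1`.
(7) `Q = S' ∩ J` (`B`-independent, so nearly complete in `R`), `Z = {z ∈ T* : |nn B z Q| ≤ e' N}`; the other `z ∈ T*` have at least `e' N - r` `R`-neighbours in `Q`: at most `9r + 3` of them by `U1` (graph `R`, bound `x`, `r' = 9r + 2`).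
`|U| ≤ |S'| + |T0| + r ≤ |Q| + |T*| + |C*| + 4r + 1 ≤ x + y/2 + 8r + 1` (`near_card_le`). -/
theorem S1_c (c e' e1 : ℝ) (hc : 0 < c) (he' : 0 < e') (he1 : 0 < e1) : ∃ e > (0 : ℝ), ∀ (W : Type) [Fintype W] [DecidableEq W]
    (R B : SimpleGraph W) (M : W → W → Prop) (x y N : ℝ), Env R B M x y N e c → e1 * N < y → ∀ U I0 C0 T0 : Finset W,
      S1Cfg R B M x y (e * N) U I0 C0 T0 → I0.card < C0.card →
        ∃ Q ⊆ U, ∃ Z ⊆ U, IsUnit' R B x y (e' * N) Q Z ∧ (U.card : ℝ) ≤ x + y / 2 + e' * N := by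
  set e : ℝ := min (e' / 20) (min (e1 / 20) (c / 200)) with he
  have he0 : 0 < e := by positivity
  have hee' : e ≤ e' / 20 := min_le_left _ _
  have hee1 : e ≤ e1 / 20 := (min_le_right _ _).trans (min_le_left _ _)
  have hec : e ≤ c / 200 := (min_le_right _ _).trans (min_le_right _ _)
  refine ⟨e, he0, ?_⟩
  intro W _ _ R B M x y N hE hy U I0 C0 T0 hS hIC
  have hN : 0 ≤ N := hE.N_nonneg
  have hr1 := hE.one
  set r : ℝ := e * N with hr
  have hr' : 20 * r ≤ e' * N := by
    have := mul_le_mul_of_nonneg_right hee' hN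
    linarith
  have hr1' : 20 * r ≤ e1 * N := by
    have := mul_le_mul_of_nonneg_right hee1 hN
    linarith
  have hrc : 200 * r ≤ c * N := by
    have := mul_le_mul_of_nonneg_right hec hN
    linarith
  have hMcard : ∀ (v : W) (A : Finset W), (∀ w ∈ A, M v w) → (A.card : ℝ) ≤ r := by
    intro v A hA
    refine le_trans ?_ (hE.mis.card v)
    exact_mod_cast card_le_card fun w hw => mem_filter.mpr ⟨mem_univ _, hA w hw⟩
  -- (0)
  have hn0 : ∀ u ∈ I0, ∀ A ⊆ I0 ∪ C0, ((nn B u A).card : ℝ) ≤ r := by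
    intro u hu A hA
    refine hMcard u _ fun w hw => ?_
    rw [mem_nn] at hw
    have hw' := hA hw.1
    have hwU : w ∈ U := by
      rcases mem_union.mp hw' with h | h
      · exact hS.subI h
      · exact hS.subC h
    rcases hS.compl u (hS.subI hu) w hwU with h | h | h
    · exact h
    · exact absurd h (hS.noR u hu w hw')
    · exact absurd h hw.2
  have hn1 : ∀ u ∈ C0, ((nn B u I0).card : ℝ) ≤ r := by
    intro u hu
    refine hMcard u _ fun w hw => ?_
    rw [mem_nn] at hw
    rcases hS.compl u (hS.subC hu) w (hS.subI hw.1) with h | h | h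
    · exact h
    · exact absurd h.symm (hS.noR w hw.1 u (mem_union_right _ hu))
    · exact absurd h hw.2
  -- sizes
  have hsplit : (U.card : ℝ) ≤ I0.card + C0.card + T0.card + r := by
    have h1 : U.card ≤ (U \ (I0 ∪ C0 ∪ T0)).card + (I0 ∪ C0 ∪ T0).card := card_le_card_sdiff_add_card
    have h2 : (I0 ∪ C0 ∪ T0).card ≤ I0.card + C0.card + T0.card :=
      (card_union_le _ _).trans (Nat.add_le_add_right (card_union_le _ _) _)
    have h3 : (U.card : ℝ) ≤ (U \ (I0 ∪ C0 ∪ T0)).card + (I0.card + C0.card + T0.card) := by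
      exact_mod_cast h1.trans (Nat.add_le_add_left h2 _)
    have := hS.cov
    linarith
  have hbd := hS.bd
  have hbig1 : x + y / 2 - r ≤ U.card := by
    have := le_th_left x y
    have := hS.big
    linarith
  have hbig2 : y + x / 2 - r ≤ U.card := by
    have := le_th_right x y
    have := hS.big
    linarith
  have hIC' : (I0.card : ℝ) < C0.card := by exact_mod_cast hIC
  -- (1)
  have hI1 : y / 2 + T0.card - 2 * r ≤ I0.card := by linarith
  have hI2 : y - x / 2 + T0.card - 2 * r ≤ I0.card := by linarith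
  have hT0 : (0 : ℝ) ≤ T0.card := Nat.cast_nonneg _
  have hIbig : 2 * r + 2 < I0.card := by linarith
  have hnearI : ∀ q ∈ I0, ((nn B q I0).card : ℝ) ≤ r := fun q hq => hn0 q hq I0 subset_union_left
  have hreachI : ∀ q ∈ I0, ∀ q' ∈ I0, B.Reachable q q' := near_reach B I0 r hnearI (by linarith)
  -- (2)
  have hI3 : (I0.card : ℝ) ≤ y / 2 + r + 1 := by
    have hpos : 0 ≤ (I0.card : ℝ) - r := by linarith
    have hfl := Nat.floor_le hpos
    have hfl' := Nat.lt_floor_add_one ((I0.card : ℝ) - r)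
    have hle : ⌊(I0.card : ℝ) - r⌋₊ ≤ I0.card := by
      have : (⌊(I0.card : ℝ) - r⌋₊ : ℝ) ≤ I0.card := by linarith
      exact_mod_cast this
    obtain ⟨D, hDI, hDc⟩ := exists_subset_card_eq hle
    obtain ⟨ψ, hψi, hψ⟩ := match_into B D C0 (by
      intro d hd
      have h1 := hn0 d (hDI hd) C0 subset_union_right
      have h2 : ((nb B d C0).card : ℝ) + (nn B d C0).card = C0.card := by
        exact_mod_cast nb_add_nn B d C0
      have h3 : (D.card : ℝ) ≤ (nb B d C0).card := by
        rw [hDc]; linarith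
      exact_mod_cast h3)
    have h := s1c_double B y hE.zB D ψ hψi (fun d hd => (hψ d hd).2)
      (fun d hd h => (disjoint_left.mp hS.dIC) (hDI h) (hψ d hd).1)
      (fun u hu w hw => hreachI u (hDI hu) w (hDI hw))
    rw [hDc] at h
    linarith
  -- (3)
  have hT1 : (T0.card : ℝ) ≤ 3 * r + 1 := by linarith
  have hyx : y ≤ x + 6 * r + 2 := by linarith
  have hxN : c * N ≤ 2 * x := by
    have := hE.big
    rcases max_cases x y with ⟨h1, _⟩ | ⟨h1, _⟩ <;> rw [h1] at this <;> linarith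
  -- (4)
  obtain ⟨J, hJ⟩ := hall_decomp (res B U) y (by linarith [hE.y2]) (hE.zB.res U)
  obtain ⟨v0, hv0⟩ : I0.Nonempty := by
    rw [← card_pos]
    have : (0 : ℝ) < I0.card := by linarith
    exact_mod_cast this
  set S := comp (res B U) v0 with hSdef
  have hSU : S ⊆ U := s1c_comp_sub B U v0 (hS.subI hv0)
  have hresnn : ∀ u ∈ U, ∀ A ⊆ U, nn (res B U) u A ⊆ nn B u A := by
    intro u hu A hA w hw
    rw [mem_nn] at hw ⊢
    exact ⟨hw.1, fun h => hw.2 ⟨hu, hA hw.1, h⟩⟩
  have hreachI' : ∀ q ∈ I0, ∀ q' ∈ I0, (res B U).Reachable q q' := by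
    refine near_reach (res B U) I0 r (fun q hq => le_trans ?_ (hnearI q hq)) (by linarith)
    exact_mod_cast card_le_card (hresnn q (hS.subI hq) I0 hS.subI)
  have hIS : I0 ⊆ S := fun w hw => mem_comp.mpr (hreachI' v0 hv0 w hw)
  have hCS : C0 ⊆ S := by
    intro u hu
    have h1 := hn1 u hu
    have h2 : ((nb B u I0).card : ℝ) + (nn B u I0).card = I0.card := by
      exact_mod_cast nb_add_nn B u I0
    have h3 : (nb B u I0).Nonempty := by
      rw [← card_pos]
      have : (0 : ℝ) < (nb B u I0).card := by linarith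
      exact_mod_cast this
    obtain ⟨w, hw⟩ := h3
    rw [mem_nb] at hw
    have h4 : (res B U).Adj w u := ⟨hS.subI hw.1, hS.subC hu, hw.2.symm⟩
    exact mem_comp.mpr ((hreachI' v0 hv0 w hw.1).trans h4.reachable)
  have hrest : ((U \ (I0 ∪ C0)).card : ℝ) ≤ T0.card + r := by
    have h1 : (U \ (I0 ∪ C0)) ⊆ T0 ∪ (U \ (I0 ∪ C0 ∪ T0)) := by
      intro w hw
      simp only [mem_sdiff, mem_union, not_or] at hw ⊢
      tauto
    have h2 : ((U \ (I0 ∪ C0)).card : ℝ) ≤ T0.card + (U \ (I0 ∪ C0 ∪ T0)).card := by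
      exact_mod_cast (card_le_card h1).trans (card_union_le _ _)
    have := hS.cov
    linarith
  have hUS : (U.card : ℝ) ≤ S.card + T0.card + r := by
    have h1 : (U.card : ℝ) ≤ (U \ S).card + S.card := by exact_mod_cast card_le_card_sdiff_add_card
    have h2 : ((U \ S).card : ℝ) ≤ (U \ (I0 ∪ C0)).card := by
      exact_mod_cast card_le_card (sdiff_subset_sdiff (Subset.refl _) (union_subset hIS hCS))
    linarith
  set Tt := S ∩ nbs (res B U) J with hTt
  have hJbd : ((S \ J).card : ℝ) + Tt.card ≤ y := hJ.bd v0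
  have hQS : ((S ∩ J).card : ℝ) + (S \ J).card = S.card := by
    exact_mod_cast card_inter_add_card_sdiff S J
  have hQ0 : x / 2 - 8 * r - 2 ≤ (S ∩ J).card := by
    have : (0 : ℝ) ≤ Tt.card := Nat.cast_nonneg _
    linarith
  -- (5)
  have hJind : ∀ u ∈ J, ∀ w ∈ J, u ∈ U → w ∈ U → ¬ B.Adj u w :=
    fun u hu w hw huU hwU h => hJ.ind u hu w hw ⟨huU, hwU, h⟩
  have hJC : r < (J ∩ C0).card := by
    by_contra hcon
    rw [not_lt] at hcon
    have h1 : S ∩ J ⊆ (J ∩ I0) ∪ (J ∩ C0) ∪ (U \ (I0 ∪ C0)) := by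
      intro w hw
      have hwU : w ∈ U := hSU (mem_inter.mp hw).1
      have hwJ : w ∈ J := (mem_inter.mp hw).2
      simp only [mem_sdiff, mem_union, mem_inter, not_or]
      tauto
    have h2 : ((S ∩ J).card : ℝ) ≤ (J ∩ I0).card + (J ∩ C0).card + (U \ (I0 ∪ C0)).card := by
      exact_mod_cast (card_le_card h1).trans
        ((card_union_le _ _).trans (Nat.add_le_add_right (card_union_le _ _) _))
    have h3 : r < (J ∩ I0).card := by linarith
    have h4 : (J ∩ I0).Nonempty := by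
      rw [← card_pos]
      have : (0 : ℝ) < (J ∩ I0).card := by linarith
      exact_mod_cast this
    obtain ⟨u, hu⟩ := h4
    have h5 := hMcard u (J ∩ I0) (fun w hw => by
      rw [mem_inter] at hu hw
      have huU := hS.subI hu.2
      have hwU := hS.subI hw.2
      rcases hS.compl u huU w hwU with h | h | h
      · exact h
      · exact absurd h (hS.noR u hu.2 w (mem_union_left _ hw.2))
      · exact absurd h (hJind u hu.1 w hw.1 huU hwU))
    linarith
  -- (6)
  have hIT : I0 ⊆ Tt := by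
    intro u hu
    have h1 := hn0 u hu (J ∩ C0) (inter_subset_right.trans subset_union_right)
    have h2 : ((nb B u (J ∩ C0)).card : ℝ) + (nn B u (J ∩ C0)).card = (J ∩ C0).card := by
      exact_mod_cast nb_add_nn B u (J ∩ C0)
    have h3 : (nb B u (J ∩ C0)).Nonempty := by
      rw [← card_pos]
      have : (0 : ℝ) < (nb B u (J ∩ C0)).card := by linarith
      exact_mod_cast this
    obtain ⟨w, hw⟩ := h3
    rw [mem_nb, mem_inter] at hw
    refine mem_inter.mpr ⟨hIS hu, mem_nbs.mpr ⟨w, hw.1.1, hS.subC hw.1.2, hS.subI hu, hw.2.symm⟩⟩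
  have hTtc : (I0.card : ℝ) ≤ Tt.card := by exact_mod_cast card_le_card hIT
  have hTtJ : ∀ z ∈ Tt, z ∉ J := by
    intro z hz hzJ
    obtain ⟨_, h2⟩ := mem_inter.mp hz
    obtain ⟨u, hu, hadj⟩ := mem_nbs.mp h2
    exact hJ.ind u hu z hzJ hadj
  -- (7)
  set Q := S ∩ J with hQdef
  have hQc : x - 4 * r ≤ Q.card := by linarith
  have hQU : Q ⊆ U := inter_subset_left.trans hSU
  have hQind : ∀ u ∈ Q, ∀ w ∈ Q, ¬ B.Adj u w := fun u hu w hw =>
    hJind u (mem_inter.mp hu).2 w (mem_inter.mp hw).2 (hQU hu) (hQU hw)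
  have hnearQ : ∀ q ∈ Q, ((nn R q Q).card : ℝ) ≤ r := by
    intro q hq
    refine hMcard q _ fun w hw => ?_
    rw [mem_nn] at hw
    rcases hS.compl q (hQU hq) w (hQU hw.1) with h | h | h
    · exact h
    · exact absurd h hw.2
    · exact absurd h (hQind q hq w hw.1)
  have hQx : (Q.card : ℝ) ≤ x := near_card_le R x hE.zR Q r hnearQ (by linarith)
  set Z := Tt.filter (fun z => ((nn B z Q).card : ℝ) ≤ e' * N) with hZ
  have hTtU : Tt ⊆ U := inter_subset_left.trans hSU
  have hbadc : ((Tt.filter (fun z => ¬ ((nn B z Q).card : ℝ) ≤ e' * N)).card : ℝ) ≤ 4 * r + 1 := by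
    refine le_trans ?_ (U1 R x hE.zR Q (4 * r) (by linarith) hQc
      (fun q hq => (hnearQ q hq).trans (by linarith)) (by linarith))
    have hsub : Tt.filter (fun z => ¬ ((nn B z Q).card : ℝ) ≤ e' * N) ⊆
        univ.filter (fun v => v ∉ Q ∧ 2 * (4 * r) + 2 ≤ ((nb R v Q).card : ℝ)) := by
      intro z hz
      obtain ⟨hzT, hzn⟩ := mem_filter.mp hz
      rw [not_le] at hzn
      refine mem_filter.mpr ⟨mem_univ _, fun hzQ => hTtJ z hzT (mem_inter.mp hzQ).2, ?_⟩
      have h1 : nn B z Q ⊆ nb R z Q ∪ (nn B z Q).filter (fun w => M z w) := by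
        intro w hw
        rw [mem_nn] at hw
        rcases hS.compl z (hTtU hzT) w (hQU hw.1) with h | h | h
        · exact mem_union_right _ (mem_filter.mpr ⟨mem_nn.mpr hw, h⟩)
        · exact mem_union_left _ (mem_nb.mpr ⟨hw.1, h⟩)
        · exact absurd h hw.2
      have h2 : ((nn B z Q).card : ℝ) ≤ (nb R z Q).card + ((nn B z Q).filter (fun w => M z w)).card := by
        exact_mod_cast (card_le_card h1).trans (card_union_le _ _)
      have h3 := hMcard z ((nn B z Q).filter (fun w => M z w)) (fun w hw => (mem_filter.mp hw).2)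
      linarith
    exact_mod_cast card_le_card hsub
  have hZc : (Z.card : ℝ) + (Tt.filter (fun z => ¬ ((nn B z Q).card : ℝ) ≤ e' * N)).card = Tt.card := by
    exact_mod_cast Finset.card_filter_add_card_filter_not (s := Tt) (fun z => ((nn B z Q).card : ℝ) ≤ e' * N)
  refine ⟨Q, hQU, Z, (filter_subset _ _).trans hTtU, ?_, ?_⟩
  · refine ⟨by linarith, by linarith, ?_, fun q hq => (hnearQ q hq).trans (by linarith), ?_, ?_, by linarith [hE.x2]⟩
    · rw [disjoint_left]
      intro q hq hqZ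
      exact hTtJ q (mem_filter.mp hqZ).1 (mem_inter.mp hq).2
    · intro q hq
      have : nb B q Q = ∅ := by
        rw [eq_empty_iff_forall_notMem]
        intro w hw
        rw [mem_nb] at hw
        exact hQind q hq w hw.1 hw.2
      rw [this]
      simp
      linarith
    · intro z hz
      exact (mem_filter.mp hz).2
  · linarith

end Pool.Agent.Lib.MP_779bc2_co
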