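import Pool.Agent.Lib.MP_779bc2_co.S1a
import Pool.Agent.Lib.MP_779bc2_co.S1b
import Pool.Agent.Lib.MP_779bc2_co.S1c

/-! Row S1 (about 150 lines): one unit in a set which is complete up to `M` -/

set_option autoImplicit false

namespace Pool.Agent.Lib.MP_779bc2_co

open Finset

theorem s1_notMem {W : Type} [Fintype W] [DecidableEq W] (G : SimpleGraph W) (U : Finset W) (v w : W)
    (hv : v ∉ U) (h : (res G U).Reachable v w) : w = v := by
  obtain ⟨p⟩ := h
  cases p with
  | nil => rfl
  | cons hadj _ => exact absurd hadj.1 hv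

theorem s1_mem {W : Type} [Fintype W] [DecidableEq W] (G : SimpleGraph W) (U : Finset W) (v w : W)
    (hv : v ∈ U) (h : (res G U).Reachable v w) : w ∈ U := by
  by_contra hw
  have := s1_notMem G U w v hw h.symm
  exact hw (this ▸ hv)

theorem s1_big {W : Type} [Fintype W] [DecidableEq W] {R B : SimpleGraph W} {M : W → W → Prop} {x y N e c : ℝ}
    (h : Env R B M x y N e c) : c * N ≤ th x y := by
  have h1 := h.big
  have hx := h.x2
  have hy := h.y2
  have h2 := le_th_left x y
  have h3 := le_th_right x y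
  rcases le_total x y with hxy | hxy
  · rw [max_eq_right hxy] at h1; linarith
  · rw [max_eq_left hxy] at h1; linarith

theorem s1_cfg {W : Type} [Fintype W] [DecidableEq W] (R B : SimpleGraph W) (M : W → W → Prop) (x y r : ℝ)
    (U I : Finset W) (hI : Dec (res R U) x I) (v0 : W) (hv0 : v0 ∈ U)
    (hcov : ((U \ comp (res R U) v0).card : ℝ) ≤ r)
    (hcompl : ∀ u ∈ U, ∀ w ∈ U, M u w ∨ R.Adj u w ∨ B.Adj u w) (hbig : th x y - r ≤ U.card) :
    S1Cfg R B M x y r U (comp (res R U) v0 ∩ I) ((comp (res R U) v0 \ I) \ nbs (res R U) I)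
      (comp (res R U) v0 ∩ nbs (res R U) I) := by
  have hSU : ∀ w ∈ comp (res R U) v0, w ∈ U := fun w hw => s1_mem R U v0 w hv0 (mem_comp.mp hw)
  have hdis : ∀ w, w ∈ I → w ∉ nbs (res R U) I := by
    intro w hw hw'
    obtain ⟨u, hu, hadj⟩ := mem_nbs.mp hw'
    exact hI.ind u hu w hw hadj
  refine ⟨?_, ?_, ?_, ?_, ?_, ?_, ?_, ?_, ?_, hcompl, hbig⟩
  · intro w hw
    exact hSU w (mem_inter.mp hw).1
  · intro w hw
    exact hSU w (mem_sdiff.mp (mem_sdiff.mp hw).1).1
  · intro w hw
    exact hSU w (mem_inter.mp hw).1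
  · rw [disjoint_left]
    intro w hw hw'
    exact (mem_sdiff.mp (mem_sdiff.mp hw').1).2 (mem_inter.mp hw).2
  · rw [disjoint_left]
    intro w hw hw'
    exact hdis w (mem_inter.mp hw).2 (mem_inter.mp hw').2
  · rw [disjoint_left]
    intro w hw hw'
    exact (mem_sdiff.mp hw).2 (mem_inter.mp hw').2
  · refine le_trans ?_ hcov
    exact_mod_cast card_le_card (by
      intro w hw
      rw [mem_sdiff] at hw ⊢
      refine ⟨hw.1, fun hS => hw.2 ?_⟩
      rw [mem_union, mem_union, mem_inter, mem_sdiff, mem_sdiff, mem_inter]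
      tauto)
  · have hb := hI.bd v0
    have hsplit : (comp (res R U) v0 \ I).card =
        ((comp (res R U) v0 \ I) \ nbs (res R U) I).card + (comp (res R U) v0 ∩ nbs (res R U) I).card := by
      rw [← card_union_of_disjoint]
      · congr 1
        ext w
        rw [mem_union, mem_sdiff, mem_sdiff, mem_sdiff, mem_inter]
        have := hdis w
        tauto
      · rw [disjoint_left]
        intro w hw hw'
        exact (mem_sdiff.mp hw).2 (mem_inter.mp hw').2
    rw [hsplit] at hb
    push_cast at hb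
    linarith
  · intro u hu w hw hadj
    have huS := (mem_inter.mp hu).1
    have huI := (mem_inter.mp hu).2
    rcases mem_union.mp hw with hw | hw
    · have hadj' : (res R U).Adj u w := ⟨hSU u huS, hSU w (mem_inter.mp hw).1, hadj⟩
      exact hI.ind u huI w (mem_inter.mp hw).2 hadj'
    · have hadj' : (res R U).Adj u w := ⟨hSU u huS, hSU w (mem_sdiff.mp (mem_sdiff.mp hw).1).1, hadj⟩
      exact (mem_sdiff.mp hw).2 (mem_nbs.mpr ⟨u, huI, hadj'⟩)

/-- One component of `R' = res R U` covers `U` up to `4 e N` elements. If `y ≤ e1 N` (`e1` from `S1_tiny`): `S1_tiny`. Otherwise let `I` be a Hall decomposition of `R'` (bound `x`), `S = comp R' v0` (`S ⊆ U`, because `v0 ∈ U`: otherwise `S = {v0}` and `|U| ≤ 4 e N`),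
`I0 = S ∩ I`, `T0 = S ∩ nbs R' I`, `C0 = S \ I \ nbs R' I`: this is an `S1Cfg` with `r = 5 e N`. Apply `S1_b` or `S1_c` (with a smaller constant, `Env.mono`). -/
theorem S1_half (c e' : ℝ) (hc : 0 < c) (he' : 0 < e') : ∃ e > (0 : ℝ), ∀ (W : Type) [Fintype W] [DecidableEq W]
    (R B : SimpleGraph W) (M : W → W → Prop) (x y N : ℝ), Env R B M x y N e c → ∀ U : Finset W,
      (∀ u ∈ U, ∀ w ∈ U, M u w ∨ R.Adj u w ∨ B.Adj u w) → th x y - e * N ≤ U.card →
      (∃ v0, ((U \ comp (res R U) v0).card : ℝ) ≤ 4 * (e * N)) →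
        ∃ Q ⊆ U, ∃ Z ⊆ U, (IsUnit' R B x y (e' * N) Q Z ∧ (U.card : ℝ) ≤ x + y / 2 + e' * N) ∨
          (IsUnit' B R y x (e' * N) Q Z ∧ (U.card : ℝ) ≤ y + x / 2 + e' * N) := by
  obtain ⟨e1, he1, htiny⟩ := S1_tiny c e' hc he'
  obtain ⟨eb, heb, hSb⟩ := S1_b c e' hc he'
  obtain ⟨ec, hec, hSc⟩ := S1_c c e' e1 hc he' he1
  obtain ⟨e, he, h1, h2, h3, h4⟩ : ∃ e : ℝ, 0 < e ∧ e ≤ e1 ∧ 5 * e ≤ eb ∧ 5 * e ≤ ec ∧ 5 * e < c := by
    refine ⟨min (min e1 c) (min eb ec) / 6, by positivity, ?_, ?_, ?_, ?_⟩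
    · have := min_le_left (min e1 c) (min eb ec)
      have := min_le_left e1 c
      linarith
    · have := min_le_right (min e1 c) (min eb ec)
      have := min_le_left eb ec
      linarith
    · have := min_le_right (min e1 c) (min eb ec)
      have := min_le_right eb ec
      linarith
    · have h0 : 0 < min (min e1 c) (min eb ec) := by positivity
      have := min_le_left (min e1 c) (min eb ec)
      have := min_le_right e1 c
      linarith
  refine ⟨e, he, fun W _ _ R B M x y N hEnv U hcompl hU ⟨v0, hv0⟩ => ?_⟩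
  have hN : 0 < N := by
    have := hEnv.one
    by_contra hneg
    have : e * N ≤ 0 := mul_nonpos_of_nonneg_of_nonpos he.le (not_lt.mp hneg)
    linarith
  by_cases hy : y ≤ e1 * N
  · obtain ⟨Q, hQ, hunit, hcard⟩ := htiny W R B M x y N (hEnv.mono h1) hy U hcompl (by
      have : e * N ≤ e1 * N := by gcongr
      linarith)
    exact ⟨Q, hQ, ∅, empty_subset _, Or.inl ⟨hunit, hcard⟩⟩
  · have hy' : e1 * N < y := not_le.mp hy
    have hv0U : v0 ∈ U := by
      by_contra hv
      have hsub : U ⊆ U \ comp (res R U) v0 := by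
        intro w hw
        rw [mem_sdiff]
        refine ⟨hw, fun hwc => ?_⟩
        have := s1_notMem R U v0 w hv (mem_comp.mp hwc)
        exact hv (this ▸ hw)
      have hc1 : (U.card : ℝ) ≤ ((U \ comp (res R U) v0).card : ℝ) := by
        exact_mod_cast card_le_card hsub
      have hb := s1_big hEnv
      have h5 : 5 * e * N < c * N := by gcongr
      linarith
    obtain ⟨I, hI⟩ := hall_decomp (res R U) x (by linarith [hEnv.x2]) (hEnv.zR.res U)
    have hcfg : ∀ r : ℝ, 5 * (e * N) ≤ r → S1Cfg R B M x y r U (comp (res R U) v0 ∩ I)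
        ((comp (res R U) v0 \ I) \ nbs (res R U) I) (comp (res R U) v0 ∩ nbs (res R U) I) := by
      intro r hr
      have heN : 0 < e * N := mul_pos he hN
      exact s1_cfg R B M x y r U I hI v0 hv0U (by linarith) hcompl (by linarith)
    rcases le_or_gt ((comp (res R U) v0 \ I) \ nbs (res R U) I).card (comp (res R U) v0 ∩ I).card with hle | hlt
    · have hr : 5 * (e * N) ≤ eb * N := by
        have : 5 * e * N ≤ eb * N := by gcongr
        linarith
      obtain ⟨Z, hZ, hunit, hcard⟩ := hSb W R B M x y N (hEnv.mono (by linarith)) U _ _ _ (hcfg _ hr) hle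
      exact ⟨_, (hcfg _ hr).subI, Z, hZ, Or.inr ⟨hunit, hcard⟩⟩
    · have hr : 5 * (e * N) ≤ ec * N := by
        have : 5 * e * N ≤ ec * N := by gcongr
        linarith
      obtain ⟨Q, hQ, Z, hZ, hunit, hcard⟩ :=
        hSc W R B M x y N (hEnv.mono (by linarith)) hy' U _ _ _ (hcfg _ hr) hlt
      exact ⟨Q, hQ, Z, hZ, Or.inl ⟨hunit, hcard⟩⟩

/-- `cover_comps` for `res R U`, `res B U` with `a = 1` (`IndLe` because `U` is complete up to `M`; `M u u` holds): one component of `res R U` or of `res B U` covers `U` up to `4 e N` elements (no component at all is impossible, `|U| ≥ c N - e N > 4 e N`).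
Then `S1_half` or `S1_half` with the colours exchanged (`Env.swap`, `th_comm`). -/
theorem S1 (c e' : ℝ) (hc : 0 < c) (he' : 0 < e') : ∃ e > (0 : ℝ), ∀ (W : Type) [Fintype W] [DecidableEq W]
    (R B : SimpleGraph W) (M : W → W → Prop) (x y N : ℝ), Env R B M x y N e c → ∀ U : Finset W,
      (∀ u ∈ U, ∀ w ∈ U, M u w ∨ R.Adj u w ∨ B.Adj u w) → th x y - e * N ≤ U.card →
        ∃ Q ⊆ U, ∃ Z ⊆ U, (IsUnit' R B x y (e' * N) Q Z ∧ (U.card : ℝ) ≤ x + y / 2 + e' * N) ∨
          (IsUnit' B R y x (e' * N) Q Z ∧ (U.card : ℝ) ≤ y + x / 2 + e' * N) := by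
  classical
  obtain ⟨eh, heh, hhalf⟩ := S1_half c e' hc he'
  obtain ⟨e, he, h1, h4⟩ : ∃ e : ℝ, 0 < e ∧ e ≤ eh ∧ 5 * e < c := by
    refine ⟨min eh c / 6, by positivity, ?_, ?_⟩
    · have := min_le_left eh c
      linarith
    · have := min_le_right eh c
      linarith
  refine ⟨e, he, fun W _ _ R B M x y N hEnv U hcompl hU => ?_⟩
  have hN : 0 < N := by
    have := hEnv.one
    by_contra hneg
    have : e * N ≤ 0 := mul_nonpos_of_nonneg_of_nonpos he.le (not_lt.mp hneg)
    linarith
  have hmono : e * N ≤ eh * N := by gcongr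
  have hind : IndLe (res R U) (res B U) M U 1 := by
    intro T hT hcard
    obtain ⟨u, hu, w, hw, hne⟩ := one_lt_card.mp hcard
    refine ⟨u, hu, w, hw, hne, ?_⟩
    rcases hcompl u (hT hu) w (hT hw) with h | h | h
    · exact Or.inl h
    · exact Or.inr (Or.inl ⟨hT hu, hT hw, h⟩)
    · exact Or.inr (Or.inr ⟨hT hu, hT hw, h⟩)
  obtain ⟨A, D, hAD, -, -, hcov⟩ := cover_comps (res R U) (res B U) M (e * N) (by linarith [hEnv.one]) hEnv.mis U 1 hind
  have h22 : (2 : ℝ) ^ (1 + 1) * (e * N) = 4 * (e * N) := by norm_num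
  rw [h22] at hcov
  rcases A.eq_empty_or_nonempty with hA | ⟨a, ha⟩
  · rcases D.eq_empty_or_nonempty with hD | ⟨d, hd⟩
    · exfalso
      subst hA hD
      have hfil : U ⊆ U.filter (fun v => (∀ u ∈ (∅ : Finset W), ¬ (res R U).Reachable u v) ∧
          (∀ u ∈ (∅ : Finset W), ¬ (res B U).Reachable u v)) := by
        intro w hw
        rw [mem_filter]
        exact ⟨hw, fun u hu => absurd hu (notMem_empty u), fun u hu => absurd hu (notMem_empty u)⟩
      have hc1 : (U.card : ℝ) ≤ 4 * (e * N) := by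
        refine le_trans ?_ hcov
        exact_mod_cast card_le_card hfil
      have hb := s1_big hEnv
      have h5 : 5 * e * N < c * N := by gcongr
      linarith
    · have hD1 : D = {d} := by
        have hpos : 0 < D.card := card_pos.mpr ⟨d, hd⟩
        obtain ⟨d', hd'⟩ := card_eq_one.mp (by omega : D.card = 1)
        rw [hd'] at hd ⊢
        rw [mem_singleton.mp hd]
      subst hA hD1
      have hv0 : ((U \ comp (res B U) d).card : ℝ) ≤ 4 * (eh * N) := by
        refine le_trans (le_trans ?_ hcov) (by linarith)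
        exact_mod_cast card_le_card (by
          intro w hw
          rw [mem_sdiff] at hw
          rw [mem_filter]
          refine ⟨hw.1, fun u hu => absurd hu (notMem_empty u), fun u hu hr => hw.2 ?_⟩
          rw [mem_singleton.mp hu] at hr
          exact mem_comp.mpr hr)
      obtain ⟨Q, hQ, Z, hZ, hor⟩ := hhalf W B R M y x N (hEnv.swap.mono h1) U
        (fun u hu w hw => by have := hcompl u hu w hw; tauto) (by rw [th_comm]; linarith) ⟨d, hv0⟩
      exact ⟨Q, hQ, Z, hZ, hor.symm⟩
  · have hA1 : A = {a} := by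
      have hpos : 0 < A.card := card_pos.mpr ⟨a, ha⟩
      obtain ⟨a', ha'⟩ := card_eq_one.mp (by omega : A.card = 1)
      rw [ha'] at ha ⊢
      rw [mem_singleton.mp ha]
    have hD0 : D = ∅ := by
      have hpos : 0 < A.card := card_pos.mpr ⟨a, ha⟩
      exact card_eq_zero.mp (by omega)
    subst hA1 hD0
    have hv0 : ((U \ comp (res R U) a).card : ℝ) ≤ 4 * (eh * N) := by
      refine le_trans (le_trans ?_ hcov) (by linarith)
      exact_mod_cast card_le_card (by
        intro w hw
        rw [mem_sdiff] at hw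
        rw [mem_filter]
        refine ⟨hw.1, fun u hu hr => hw.2 ?_, fun u hu => absurd hu (notMem_empty u)⟩
        rw [mem_singleton.mp hu] at hr
        exact mem_comp.mpr hr)
    exact hhalf W R B M x y N (hEnv.mono h1) U hcompl (by linarith) ⟨a, hv0⟩

end Pool.Agent.Lib.MP_779bc2_co
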