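import Pool.Agent.Lib.MP_779bc2_co.S0Cfg

/-! Row S1a (about 90 lines): tiny `y` -/

set_option autoImplicit false

namespace Pool.Agent.Lib.MP_779bc2_co

open Finset

/-- `few_high` with `δ = e'' = e'/4`: `D = {v : δ N ≤ |nb B v univ|}` has at most `e'' N` elements. `Q = U \ D`, `Z = ∅`. For `q ∈ Q` an element `w ∈ Q` which is not an `R`-neighbour is `M`-related or a `B`-neighbour: at most `(e1 + δ) N`.
`|Q| ≥ th x y - e1 N - e'' N ≥ x - e' N`. `|U| ≤ |Q| + e'' N ≤ x + e'' N` by `near_card_le` (`x ≥ c N` because `y ≤ e1 N < c N`). -/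
theorem S1_tiny (c e' : ℝ) (hc : 0 < c) (he' : 0 < e') : ∃ e1 > (0 : ℝ), ∀ (W : Type) [Fintype W] [DecidableEq W]
    (R B : SimpleGraph W) (M : W → W → Prop) (x y N : ℝ), Env R B M x y N e1 c → y ≤ e1 * N → ∀ U : Finset W,
      (∀ u ∈ U, ∀ w ∈ U, M u w ∨ R.Adj u w ∨ B.Adj u w) → th x y - e1 * N ≤ U.card →
        ∃ Q ⊆ U, IsUnit' R B x y (e' * N) Q ∅ ∧ (U.card : ℝ) ≤ x + y / 2 + e' * N := by
  classical
  obtain ⟨δ, hδ, hδ1, hδ2⟩ : ∃ δ : ℝ, 0 < δ ∧ 8 * δ ≤ e' ∧ 8 * δ ≤ c := by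
    refine ⟨min e' c / 8, by positivity, ?_, ?_⟩
    · linarith [min_le_left e' c]
    · linarith [min_le_right e' c]
  obtain ⟨ef, hef, hfew⟩ := few_high δ δ hδ hδ
  obtain ⟨e1, he1, h1, h2⟩ : ∃ e1 : ℝ, 0 < e1 ∧ e1 ≤ ef ∧ e1 ≤ δ :=
    ⟨min ef δ, by positivity, min_le_left _ _, min_le_right _ _⟩
  refine ⟨e1, he1, fun W _ _ R B M x y N hEnv hy U hcompl hU => ?_⟩
  have hN : 0 < N := by
    have := hEnv.one
    by_contra hneg
    have : e1 * N ≤ 0 := mul_nonpos_of_nonneg_of_nonpos he1.le (not_lt.mp hneg)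
    linarith
  have hm1 : e1 * N ≤ ef * N := by gcongr
  have hm2 : e1 * N ≤ δ * N := by gcongr
  have hm3 : 8 * (δ * N) ≤ e' * N := by
    have : 8 * δ * N ≤ e' * N := by gcongr
    linarith
  have hm4 : 8 * (δ * N) ≤ c * N := by
    have : 8 * δ * N ≤ c * N := by gcongr
    linarith
  have hδN : 0 < δ * N := mul_pos hδ hN
  have hx2 := hEnv.x2
  have hy2 := hEnv.y2
  have hD := hfew W B y N hEnv.cardW (hEnv.one.trans hm1) hEnv.zB (hy.trans hm1)
  obtain ⟨D, hDdef⟩ : ∃ D : Finset W, D = univ.filter (fun v => δ * N ≤ ((nb B v univ).card : ℝ)) := ⟨_, rfl⟩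
  rw [← hDdef] at hD
  have hxc : c * N ≤ x := by
    have hb := hEnv.big
    rcases le_total x y with hxy | hxy
    · rw [max_eq_right hxy] at hb; linarith
    · rw [max_eq_left hxy] at hb; exact hb
  have hQcard : (U.card : ℝ) ≤ ((U \ D).card : ℝ) + (D.card : ℝ) := by
    have : U.card ≤ (U \ D).card + D.card := by
      rw [← card_union_of_disjoint sdiff_disjoint]
      exact card_le_card (by
        intro w hw
        rw [mem_union, mem_sdiff]
        tauto)
    exact_mod_cast this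
  have hBdeg : ∀ q ∈ U \ D, ((nb B q univ).card : ℝ) < δ * N := by
    intro q hq
    have h := (mem_sdiff.mp hq).2
    rw [hDdef, mem_filter] at h
    by_contra hcon
    exact h ⟨mem_univ _, not_lt.mp hcon⟩
  have hnear : ∀ q ∈ U \ D, ((nn R q (U \ D)).card : ℝ) ≤ 2 * (δ * N) := by
    intro q hq
    have hsub : nn R q (U \ D) ⊆ (univ.filter (fun w => M q w)) ∪ nb B q univ := by
      intro w hw
      rw [mem_nn] at hw
      rw [mem_union, mem_filter, mem_nb]
      rcases hcompl q (mem_sdiff.mp hq).1 w (mem_sdiff.mp hw.1).1 with h | h | h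
      · exact Or.inl ⟨mem_univ _, h⟩
      · exact absurd h hw.2
      · exact Or.inr ⟨mem_univ _, h⟩
    have hc1 : (nn R q (U \ D)).card ≤ (univ.filter (fun w => M q w)).card + (nb B q univ).card :=
      (card_le_card hsub).trans (card_union_le _ _)
    have hc2 : ((nn R q (U \ D)).card : ℝ) ≤ ((univ.filter (fun w => M q w)).card : ℝ) + (nb B q univ).card := by
      exact_mod_cast hc1
    have hc3 : ((univ.filter (fun w => M q w)).card : ℝ) ≤ e1 * N := hEnv.mis.card q
    have := hBdeg q hq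
    linarith
  have hthx : x + y / 2 ≤ th x y := le_th_left x y
  have hQx : ((U \ D).card : ℝ) ≤ x := by
    refine near_card_le R x hEnv.zR (U \ D) (2 * (δ * N)) hnear ?_
    linarith
  refine ⟨U \ D, sdiff_subset, ⟨by linarith, ?_, disjoint_empty_right _, ?_, ?_, ?_, by linarith⟩, by linarith⟩
  · simp only [card_empty, Nat.cast_zero]
    linarith
  · intro q hq
    exact (hnear q hq).trans (by linarith)
  · intro q hq
    have hsub : nb B q (U \ D) ⊆ nb B q univ := by
      intro w hw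
      rw [mem_nb] at hw ⊢
      exact ⟨mem_univ _, hw.2⟩
    have hc1 : ((nb B q (U \ D)).card : ℝ) ≤ ((nb B q univ).card : ℝ) := by
      exact_mod_cast card_le_card hsub
    have := hBdeg q hq
    linarith
  · intro z hz
    exact absurd hz (notMem_empty z)

end Pool.Agent.Lib.MP_779bc2_co
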