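import Pool.Agent.Lib.MP_779bc2_co.Defs

/-! Row X0Kst (about 130 lines): dense implies `K_{b,c}`; the colours `bip k` are sparse -/

set_option autoImplicit false

namespace Pool.Agent.Lib.MP_779bc2_co

open Finset

open Classical in
/-- double counting -/
theorem x0_double {W : Type} (G : W → W → Prop) (S Q : Finset W) :
    ∑ w ∈ Q, (S.filter (fun v => G v w)).card = ∑ v ∈ S, (Q.filter (fun w => G v w)).card := by
  simp only [Finset.card_filter]
  exact Finset.sum_comm

open Classical in
/-- Take `K0 ≥ 2 b / δ + 1`. Fix `S' ⊆ S` with exactly `K0` elements. `∑_{w ∈ Q} #{v ∈ S' : G v w} ≥ K0 δ N`, and this sum is at most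
`K0 #{w ∈ Q : at least b of the v ∈ S'} + b |Q|`, hence at least `δ N / 2` elements `w ∈ Q` are related to at least `b` elements of `S'`;
choose a `b`-subset for each of them; by the pigeonhole principle one subset `A` is chosen at least `δ N / (2 (K0 choose b)) ≥ b + c` times;
remove the elements of `A`. (`b = 0` is trivial or included.) -/
theorem kst (b c : ℕ) (δ : ℝ) (hδ : 0 < δ) : ∃ K0 n1 : ℕ, ∀ (W : Type) [Fintype W] [DecidableEq W] (N : ℝ),
    (n1 : ℝ) ≤ N → ∀ (G : W → W → Prop) (S Q : Finset W), (Q.card : ℝ) ≤ N → K0 ≤ S.card →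
    (∀ v ∈ S, δ * N ≤ ((Q.filter (fun w => G v w)).card : ℝ)) →
      ∃ A ⊆ S, ∃ C ⊆ Q, A.card = b ∧ C.card = c ∧ Disjoint A C ∧ ∀ u ∈ A, ∀ w ∈ C, G u w := by
  obtain ⟨K0, hK0⟩ := exists_nat_ge (2 * (b : ℝ) / δ + 1 + b)
  have hb0 : (0 : ℝ) ≤ b := Nat.cast_nonneg _
  have hK1 : (b : ℝ) ≤ K0 * δ / 2 := by
    have h1 : 2 * (b : ℝ) / δ ≤ K0 := by linarith
    rw [div_le_iff₀ hδ] at h1
    linarith
  have hK2 : (1 : ℝ) ≤ K0 := by
    have : 0 ≤ 2 * (b : ℝ) / δ := by positivity
    linarith
  have hKb : b ≤ K0 := by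
    have : 0 ≤ 2 * (b : ℝ) / δ := by positivity
    have h1 : (b : ℝ) ≤ K0 := by linarith
    exact_mod_cast h1
  obtain ⟨n1, hn1⟩ := exists_nat_ge (2 * ((K0.choose b : ℕ) * ((b : ℝ) + c)) / δ)
  refine ⟨K0, n1, ?_⟩
  intro W _ _ N hN G S Q hQ hS hG
  have hN0 : 0 ≤ N := le_trans (Nat.cast_nonneg _) hN
  obtain ⟨S', hS'S, hS'c⟩ := Finset.exists_subset_card_eq hS
  -- the popular elements
  set P : Finset W := Q.filter (fun w => b ≤ (S'.filter (fun v => G v w)).card) with hP
  have hsum : (K0 : ℝ) * (δ * N) ≤ ∑ w ∈ Q, ((S'.filter (fun v => G v w)).card : ℝ) := by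
    have h1 := x0_double G S' Q
    have h2 : (∑ w ∈ Q, ((S'.filter (fun v => G v w)).card : ℝ)) =
        ∑ v ∈ S', ((Q.filter (fun w => G v w)).card : ℝ) := by exact_mod_cast h1
    rw [h2]
    calc (K0 : ℝ) * (δ * N) = ∑ _v ∈ S', δ * N := by
          rw [Finset.sum_const, hS'c, nsmul_eq_mul]
      _ ≤ _ := Finset.sum_le_sum (fun v hv => hG v (hS'S hv))
  have hup : ∑ w ∈ Q, ((S'.filter (fun v => G v w)).card : ℝ) ≤ K0 * P.card + b * N := by
    have h1 : ∀ w ∈ Q, ((S'.filter (fun v => G v w)).card : ℝ) ≤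
        (if b ≤ (S'.filter (fun v => G v w)).card then (K0 : ℝ) else 0) + b := by
      intro w _
      split_ifs with h
      · have h2 : (S'.filter (fun v => G v w)).card ≤ K0 := by
          rw [← hS'c]
          exact Finset.card_filter_le _ _
        have h3 : ((S'.filter (fun v => G v w)).card : ℝ) ≤ K0 := by exact_mod_cast h2
        have h4 : (0 : ℝ) ≤ b := Nat.cast_nonneg _
        linarith
      · push Not at h
        have h3 : ((S'.filter (fun v => G v w)).card : ℝ) ≤ b := by exact_mod_cast h.le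
        linarith
    refine (Finset.sum_le_sum h1).trans ?_
    rw [Finset.sum_add_distrib, Finset.sum_const, nsmul_eq_mul, ← Finset.sum_filter,
      Finset.sum_const, nsmul_eq_mul]
    have h5 : (Q.card : ℝ) * b ≤ b * N := by
      rw [mul_comm]
      exact mul_le_mul_of_nonneg_left hQ (Nat.cast_nonneg _)
    have h6 : ((Q.filter (fun w => b ≤ (S'.filter (fun v => G v w)).card)).card : ℝ) * K0 =
        K0 * P.card := by rw [hP, mul_comm]
    linarith
  have hPc : δ * N / 2 ≤ P.card := by
    have h1 : (K0 : ℝ) * (δ * N) ≤ K0 * P.card + K0 * δ / 2 * N :=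
      (hsum.trans hup).trans (by
        have := mul_le_mul_of_nonneg_right hK1 hN0
        linarith)
    have h2 : (K0 : ℝ) * (δ * N / 2) ≤ K0 * P.card := by linarith
    exact le_of_mul_le_mul_left h2 (by linarith)
  have hch : ∀ w : W, ∃ A : Finset W, w ∈ P → A ⊆ S'.filter (fun v => G v w) ∧ A.card = b := by
    intro w
    by_cases hw : w ∈ P
    · obtain ⟨A, hA, hAc⟩ := Finset.exists_subset_card_eq (Finset.mem_filter.1 hw).2
      exact ⟨A, fun _ => ⟨hA, hAc⟩⟩
    · exact ⟨∅, fun h => absurd h hw⟩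
  choose f hf using hch
  have hmaps : ∀ w ∈ P, f w ∈ S'.powersetCard b := by
    intro w hw
    rw [Finset.mem_powersetCard]
    exact ⟨(hf w hw).1.trans (Finset.filter_subset _ _), (hf w hw).2⟩
  have hcard : (S'.powersetCard b).card * (b + c) ≤ P.card := by
    rw [Finset.card_powersetCard, hS'c]
    have h1 : 2 * ((K0.choose b : ℕ) * ((b : ℝ) + c)) ≤ n1 * δ := by
      rwa [div_le_iff₀ hδ] at hn1
    have h2 : (n1 : ℝ) * δ ≤ N * δ := mul_le_mul_of_nonneg_right hN hδ.le
    have h3 : ((K0.choose b * (b + c) : ℕ) : ℝ) ≤ P.card := by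
      push_cast
      linarith
    exact_mod_cast h3
  have hne : (S'.powersetCard b).Nonempty := by
    rw [← Finset.card_pos, Finset.card_powersetCard, hS'c]
    exact Nat.choose_pos hKb
  obtain ⟨A, hA, hAf⟩ := Finset.exists_le_card_fiber_of_mul_le_card_of_maps_to hmaps hne hcard
  rw [Finset.mem_powersetCard] at hA
  have hcle : c ≤ ((P.filter (fun w => f w = A)) \ A).card := by
    have h1 := Finset.le_card_sdiff A (P.filter (fun w => f w = A))
    rw [hA.2] at h1
    omega
  obtain ⟨C, hC, hCc⟩ := Finset.exists_subset_card_eq hcle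
  refine ⟨A, hA.1.trans hS'S, C, ?_, hA.2, hCc, ?_, ?_⟩
  · intro w hw
    have h1 := Finset.mem_sdiff.1 (hC hw)
    exact (Finset.mem_filter.1 (Finset.mem_filter.1 h1.1).1).1
  · rw [Finset.disjoint_left]
    intro w hwA hwC
    exact (Finset.mem_sdiff.1 (hC hwC)).2 hwA
  · intro u hu w hw
    have h1 := Finset.mem_sdiff.1 (hC hw)
    have h2 := Finset.mem_filter.1 h1.1
    have h3 := (hf w h2.1).1
    rw [h2.2] at h3
    exact (Finset.mem_filter.1 (h3 hu)).2

/-- For every `k` the set of the vertices with at least `(e/2) N` edges of colour `bip k` has fewer than `K0` elements (`kst` with `Q = univ`), so the number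
of pairs of colour `bip k` is at most `K0 N + (e/2) N² ≤ e N²`. Take the maximum over `k : Fin p.s` of the constants. -/
theorem bip_sparse (p : Pm) (e : ℝ) (he : 0 < e) : ∃ n1 : ℕ, ∀ (W : Type) [Fintype W] [DecidableEq W],
    n1 ≤ Fintype.card W → ∀ (n m : ℕ) (χ : W → W → Col p.s p.t), Free p n m χ →
      ∀ k, prs (fun u w => χ u w = .bip k) univ univ ≤ e * (Fintype.card W : ℝ) ^ 2 := by
  classical
  have he2 : 0 < e / 2 := by linarith
  choose K0 n1 hk using fun k : Fin p.s => kst (p.b k) (p.c k) (e / 2) he2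
  choose n2 hn2 using fun k : Fin p.s => exists_nat_ge (2 * (K0 k : ℝ) / e)
  refine ⟨Finset.univ.sup (fun k => max (n1 k) (n2 k)), ?_⟩
  intro W _ _ hW n m χ hF k
  have hle : max (n1 k) (n2 k) ≤ Fintype.card W :=
    (Finset.le_sup (f := fun k => max (n1 k) (n2 k)) (Finset.mem_univ k)).trans hW
  set N : ℝ := (Fintype.card W : ℝ) with hN
  have hN1 : (n1 k : ℝ) ≤ N := by
    rw [hN]
    exact_mod_cast (le_max_left _ _).trans hle
  have hN2 : (n2 k : ℝ) ≤ N := by
    rw [hN]
    exact_mod_cast (le_max_right _ _).trans hle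
  have hN0 : 0 ≤ N := Nat.cast_nonneg _
  set S : Finset W := univ.filter (fun v =>
    e / 2 * N ≤ (((univ : Finset W).filter (fun w => χ v w = .bip k)).card : ℝ)) with hS
  have hSc : S.card < K0 k := by
    by_contra hcon
    push Not at hcon
    obtain ⟨A, _, C, _, hA, hC, hd, hG⟩ := hk k W N hN1 (fun u w => χ u w = .bip k) S univ
      (by rw [Finset.card_univ]) hcon (by
        intro v hv
        have h9 := (Finset.mem_filter.1 hv).2
        refine h9.trans (le_of_eq (congrArg (fun x : ℕ => (x : ℝ)) (congrArg Finset.card ?_)))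
        ext w
        simp only [Finset.mem_filter])
    exact hF.bip k ⟨A, C, hA, hC, hd, hG⟩
  have hprs : prs (fun u w => χ u w = .bip k) univ univ =
      ∑ u : W, ((univ.filter (fun w => χ u w = .bip k)).card : ℝ) := by
    unfold prs
    rw [Finset.univ_product_univ]
    rw [Finset.card_filter]
    push_cast
    rw [Fintype.sum_prod_type]
    refine Finset.sum_congr rfl (fun u _ => ?_)
    rw [Finset.card_filter]
    push_cast
    rfl
  rw [hprs]
  have hb : ∀ u ∈ (univ : Finset W), ((univ.filter (fun w => χ u w = .bip k)).card : ℝ) ≤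
      (if u ∈ S then N else 0) + e / 2 * N := by
    intro u _
    split_ifs with h
    · have h1 : ((univ.filter (fun w => χ u w = .bip k)).card : ℝ) ≤ N := by
        rw [hN]
        exact_mod_cast (Finset.card_filter_le _ _).trans_eq Finset.card_univ
      have : 0 ≤ e / 2 * N := mul_nonneg he2.le hN0
      linarith
    · have h1 : ¬ (e / 2 * N ≤ (((univ : Finset W).filter (fun w => χ u w = .bip k)).card : ℝ)) :=
        fun h2 => h (Finset.mem_filter.2 ⟨Finset.mem_univ u, h2⟩)
      push Not at h1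
      linarith
  refine (Finset.sum_le_sum hb).trans ?_
  rw [Finset.sum_add_distrib, Finset.sum_const, nsmul_eq_mul, ← Finset.sum_filter,
    Finset.sum_const, nsmul_eq_mul, Finset.card_univ, Finset.filter_mem_eq_inter,
    Finset.univ_inter, ← hN]
  have h1 : (S.card : ℝ) ≤ K0 k := by exact_mod_cast hSc.le
  have h2 : (K0 k : ℝ) ≤ e / 2 * N := by
    have h3 := (hn2 k).trans hN2
    rw [div_le_iff₀ he] at h3
    linarith
  have h4 : (S.card : ℝ) * N ≤ e / 2 * N * N := mul_le_mul_of_nonneg_right (h1.trans h2) hN0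
  nlinarith

end Pool.Agent.Lib.MP_779bc2_co
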