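import Pool.Agent.Lib.MP_779bc2_co.Defs

/-! Row X1Cyc (about 180 lines): blow-up of an odd cycle -/

set_option autoImplicit false

namespace Pool.Agent.Lib.MP_779bc2_co

open Finset

/-- a cycle as a periodic sequence -/
theorem x1c_fun {V : Type} [Inhabited V] {G : V → V → Prop} {m : ℕ} (hm : 1 ≤ m)
    (h : HasCyc G m) : ∃ z : ℕ → V, (∀ k, G (z (k % m)) (z ((k + 1) % m))) ∧
      (∀ k k', k < m → k' < m → z k = z k' → k = k') := by
  obtain ⟨l, hl, hnd, hch, hcl⟩ := h
  refine ⟨fun k => l.getD k default, ?_, ?_⟩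
  · intro k
    have hk : k % m < m := Nat.mod_lt _ (by omega)
    rw [List.isChain_iff_getElem] at hch
    by_cases h1 : k % m + 1 < m
    · have e : (k + 1) % m = k % m + 1 := by
        rw [Nat.add_mod, Nat.mod_eq_of_lt (show 1 < m by omega), Nat.mod_eq_of_lt h1]
      rw [e]
      have h2 := hch (k % m) (by omega)
      simp only [List.getD_eq_getElem?_getD]
      rw [List.getElem?_eq_getElem (by omega), List.getElem?_eq_getElem (by omega)]
      exact h2
    · have e0 : k % m = m - 1 := by omega
      have e : (k + 1) % m = 0 := by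
        rcases Nat.lt_or_ge 1 m with h2 | h2
        · rw [Nat.add_mod, Nat.mod_eq_of_lt h2, e0, Nat.sub_add_cancel hm, Nat.mod_self]
        · have : m = 1 := by omega
          subst this
          exact Nat.mod_one _
      rw [e, e0]
      simp only [List.getD_eq_getElem?_getD]
      rw [List.getElem?_eq_getElem (by omega), List.getElem?_eq_getElem (by omega)]
      have hh : l.head? = some l[0] := by
        rw [List.head?_eq_getElem?, List.getElem?_eq_getElem (by omega)]
      have hg : l.getLast? = some (l[m - 1]'(by omega)) := by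
        rw [List.getLast?_eq_getElem?, show l.length - 1 = m - 1 by omega,
          List.getElem?_eq_getElem (by omega)]
      exact hcl _ _ hh hg
  · intro k k' hk hk' he
    simp only [List.getD_eq_getElem?_getD] at he
    rw [List.getElem?_eq_getElem (by omega), List.getElem?_eq_getElem (by omega)] at he
    exact (hnd.getElem_inj_iff).1 he

/-- a cycle from a sequence -/
theorem x1c_list {W : Type} {G : W → W → Prop} (f : ℕ → W) (n : ℕ)
    (hinj : ∀ k k', k < n + 1 → k' < n + 1 → f k = f k' → k = k')
    (hch : ∀ k, k < n → G (f k) (f (k + 1))) (hcl : G (f n) (f 0)) : HasCyc G (n + 1) := by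
  refine ⟨(List.range (n + 1)).map f, by simp, ?_, ?_, ?_⟩
  · refine List.Nodup.map_on ?_ List.nodup_range
    intro x hx y hy hxy
    rw [List.mem_range] at hx hy
    exact hinj x y hx hy hxy
  · rw [List.isChain_iff_getElem]
    intro i hi
    simp only [List.length_map, List.length_range] at hi
    simp only [List.getElem_map, List.getElem_range]
    exact hch i (by omega)
  · intro x y hx hy
    have h1 : ((List.range (n + 1)).map f).head? = some (f 0) := by
      rw [List.head?_eq_getElem?]
      simp
    have h2 : ((List.range (n + 1)).map f).getLast? = some (f n) := by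
      rw [List.getLast?_eq_getElem?]
      simp
    rw [h1] at hx
    rw [h2] at hy
    cases hx
    cases hy
    exact hcl

/-- representatives in a set -/
theorem x1c_reps {W : Type} (S : Finset W) (N : ℕ) (h : N ≤ S.card) (hN : 0 < N) :
    ∃ φ : ℕ → W, (∀ r, r < N → φ r ∈ S) ∧ ∀ r r', r < N → r' < N → φ r = φ r' → r = r' := by
  have hc : Fintype.card (Fin N) ≤ Fintype.card S := by simpa using h
  obtain ⟨e⟩ := Function.Embedding.nonempty_of_card_le hc
  refine ⟨fun r => if hr : r < N then (e ⟨r, hr⟩ : W) else (e ⟨0, hN⟩ : W), ?_, ?_⟩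
  · intro r hr
    simp only [hr, dif_pos]
    exact (e ⟨r, hr⟩).2
  · intro r r' hr hr' he
    simp only [hr, hr', dif_pos] at he
    have := e.injective (Subtype.ext he)
    exact Fin.mk.inj_iff.1 this

/-- The colouring of `K_{a+1}` on `Fin (a+1)` (`0` stands for `v`, `i.succ` for `A i`; colours `jv i`, `jj i j`) contains a cycle of odd length
`2g+1 ≤ 2 d_j + 1` in some colour `j` (`OddProp`). Rotate the list so that its first two vertices `i₀, i₁` are not `0` (the cycle has at least three edges and at most two of them contain `0`). Replace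
it by the closed sequence `i₀ i₁ i₀ i₁ ... i₀ i₁ i₂ ... i_{2g}` of length `2 d_j + 1` (`0` occurs at most once) and choose
distinct representatives: every `A i` is used at most `d_j + 1` times. -/
theorem odd_cycle_blowup (p : Pm) (a : ℕ) (ha : OddProp p a) (ha1 : 1 ≤ a) (W : Type) [DecidableEq W]
    (χ : W → W → Col p.s p.t)
    (hs : ∀ u w, χ u w = χ w u) (v : W) (A : Fin a → Finset W) (hv : ∀ i, v ∉ A i)
    (hd : ∀ i j, i ≠ j → Disjoint (A i) (A j)) (hc : ∀ i j, p.d j + 2 ≤ (A i).card)
    (jv : Fin a → Fin p.t) (hjv : ∀ i, ∀ w ∈ A i, χ v w = .odd (jv i))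
    (hjj : ∀ i j, i ≠ j → ∃ x, ∀ u ∈ A i, ∀ w ∈ A j, χ u w = .odd x) :
    ∃ j, HasCyc (fun u w => χ u w = .odd j) (2 * p.d j + 1) := by
  classical
  set c0 : Fin p.t := jv ⟨0, ha1⟩ with hc0
  -- the colouring of `K_{a+1}`
  set κ' : Fin a → Fin a → Fin p.t := fun i j =>
    if h : i < j then Classical.choose (hjj i j h.ne)
    else if h : j < i then Classical.choose (hjj j i h.ne) else c0 with hκ'
  have hκ's : ∀ i j, κ' i j = κ' j i := by
    intro i j
    simp only [hκ']
    rcases lt_trichotomy i j with h | h | h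
    · rw [dif_pos h, dif_neg h.not_gt, dif_pos h]
    · subst h; rfl
    · rw [dif_neg h.not_gt, dif_pos h, dif_pos h]
  have hκ'c : ∀ i j, i ≠ j → ∀ u ∈ A i, ∀ w ∈ A j, χ u w = .odd (κ' i j) := by
    intro i j hij u hu w hw
    simp only [hκ']
    rcases lt_or_gt_of_ne hij with h | h
    · rw [dif_pos h]
      exact Classical.choose_spec (hjj i j h.ne) u hu w hw
    · rw [dif_neg h.not_gt, dif_pos h, hs]
      exact Classical.choose_spec (hjj j i h.ne) w hw u hu
  set κ : Fin (a + 1) → Fin (a + 1) → Fin p.t := fun x y =>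
    Fin.cases (Fin.cases c0 (fun j => jv j) y) (fun i => Fin.cases (jv i) (fun j => κ' i j) y) x
    with hκ
  have hκs : ∀ x y, κ x y = κ y x := by
    intro x y
    refine Fin.cases ?_ (fun i => ?_) x <;> refine Fin.cases ?_ (fun j => ?_) y
    · rfl
    · rfl
    · rfl
    · exact hκ's i j
  -- the sets
  set B : Fin (a + 1) → Finset W := fun x => Fin.cases {v} (fun i => A i) x with hB
  have hBd : ∀ x y, x ≠ y → Disjoint (B x) (B y) := by
    intro x y
    refine Fin.cases ?_ (fun i => ?_) x <;> refine Fin.cases ?_ (fun j => ?_) y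
    · intro h; exact absurd rfl h
    · intro _
      show Disjoint {v} (A j)
      exact Finset.disjoint_singleton_left.2 (hv j)
    · intro _
      show Disjoint (A i) {v}
      exact Finset.disjoint_singleton_right.2 (hv i)
    · intro h
      exact hd i j fun e => h (by rw [e])
  have hBc : ∀ x y, x ≠ y → ∀ u ∈ B x, ∀ w ∈ B y, χ u w = .odd (κ x y) := by
    intro x y
    refine Fin.cases ?_ (fun i => ?_) x <;> refine Fin.cases ?_ (fun j => ?_) y
    · intro h; exact absurd rfl h
    · intro _ u hu w hw
      have : u = v := Finset.mem_singleton.1 hu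
      subst this
      exact hjv j w hw
    · intro _ u hu w hw
      have : w = v := Finset.mem_singleton.1 hw
      subst this
      rw [hs]
      exact hjv i u hu
    · intro h u hu w hw
      exact hκ'c i j (fun e => h (by rw [e])) u hu w hw
  -- the short odd cycle
  obtain ⟨j, g, hg1, hgd, hcyc⟩ := ha κ hκs
  refine ⟨j, ?_⟩
  obtain ⟨z, hz, hzi⟩ := x1c_fun (m := 2 * g + 1) (by omega) hcyc
  set m := 2 * g + 1 with hm
  have hmod : ∀ k, k % m < m := fun k => Nat.mod_lt _ (by omega)
  -- a good starting point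
  have hstart : ∃ k0, z (k0 % m) ≠ 0 ∧ z ((k0 + 1) % m) ≠ 0 := by
    have e0 : 0 % m = 0 := Nat.zero_mod _
    have e1 : 1 % m = 1 := Nat.mod_eq_of_lt (by omega)
    have e2 : 2 % m = 2 := Nat.mod_eq_of_lt (by omega)
    by_cases h0 : z 0 = 0
    · refine ⟨1, ?_, ?_⟩
      · rw [e1]
        intro h
        have := hzi 0 1 (by omega) (by omega) (h0.trans h.symm)
        omega
      · show z (2 % m) ≠ 0
        rw [e2]
        intro h
        have := hzi 0 2 (by omega) (by omega) (h0.trans h.symm)
        omega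
    · by_cases h1 : z 1 = 0
      · refine ⟨2, ?_, ?_⟩
        · rw [e2]
          intro h
          have := hzi 1 2 (by omega) (by omega) (h1.trans h.symm)
          omega
        · show z (3 % m) ≠ 0
          intro h
          have := hzi 1 (3 % m) (by omega) (hmod 3) (h1.trans h.symm)
          rcases Nat.lt_or_ge 3 m with h3 | h3
          · rw [Nat.mod_eq_of_lt h3] at this
            omega
          · have h4 : m = 3 := by omega
            have h5 : 3 % m = 0 := by rw [h4]
            omega
      · exact ⟨0, by rwa [e0], by show z (1 % m) ≠ 0; rwa [e1]⟩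
  obtain ⟨k0, hk0, hk1⟩ := hstart
  set y : ℕ → Fin (a + 1) := fun k => z ((k0 + k) % m) with hy
  have hyi : ∀ k k', k < m → k' < m → y k = y k' → k = k' := by
    intro k k' hk hk' he
    have h1 := hzi _ _ (hmod _) (hmod _) he
    have h2 : k0 + k ≡ k0 + k' [MOD m] := h1
    have h3 : k ≡ k' [MOD m] := Nat.ModEq.add_left_cancel' k0 h2
    have h4 : k % m = k' % m := h3
    rwa [Nat.mod_eq_of_lt hk, Nat.mod_eq_of_lt hk'] at h4
  have hya : ∀ k, κ (y k) (y (k + 1)) = j := fun k => by
    have := hz (k0 + k)
    exact this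
  have hy0 : y 0 ≠ 0 := hk0
  have hy1 : y 1 ≠ 0 := hk1
  have hyne : ∀ k, y k ≠ y (k + 1) := by
    intro k he
    have h1 := hzi _ _ (hmod _) (hmod _) he
    have h2 : k0 + k ≡ k0 + (k + 1) [MOD m] := h1
    have h3 : 0 ≡ 1 [MOD m] := by
      have : k0 + k + 0 ≡ k0 + k + 1 [MOD m] := by simpa [add_assoc] using h2
      exact Nat.ModEq.add_left_cancel' _ this
    have h4 : 0 % m = 1 % m := h3
    rw [Nat.zero_mod, Nat.mod_eq_of_lt (show 1 < m by omega)] at h4
    omega
  have hyper : y m = y 0 := by
    show z ((k0 + m) % m) = z ((k0 + 0) % m)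
    rw [Nat.add_mod_right k0 m]
    rfl
  -- the long closed sequence
  set d := p.d j with hdj
  set e := 2 * (d - g) with he
  set s : ℕ → Fin (a + 1) := fun k => if k < e then y (k % 2) else y (k - e) with hsdef
  set r : ℕ → ℕ := fun k => if k < e then k / 2 else d - g with hr
  have hrlt : ∀ k, r k < d + 2 := by
    intro k
    simp only [hr]
    split_ifs <;> omega
  have hH : ∀ x1 x2, x1 ≠ x2 → κ x1 x2 = j → ∀ u ∈ B x1, ∀ w ∈ B x2, χ u w = .odd j := by
    intro x1 x2 hne hk u hu w hw
    rw [← hk]
    exact hBc x1 x2 hne u hu w hw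
  have hy01 : κ (y 0) (y 1) = j := hya 0
  have hs01 : y 0 ≠ y 1 := hyne 0
  have hsadj : ∀ k, s k ≠ s (k + 1) ∧ κ (s k) (s (k + 1)) = j := by
    intro k
    simp only [hsdef]
    by_cases h1 : k + 1 < e
    · rw [if_pos (show k < e by omega), if_pos h1]
      rcases Nat.mod_two_eq_zero_or_one k with h2 | h2
      · have h3 : (k + 1) % 2 = 1 := by omega
        rw [h2, h3]
        exact ⟨hs01, hy01⟩
      · have h3 : (k + 1) % 2 = 0 := by omega
        rw [h2, h3]
        exact ⟨hs01.symm, by rw [hκs]; exact hy01⟩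
    · by_cases h2 : k < e
      · rw [if_pos h2, if_neg h1]
        have h3 : k % 2 = 1 := by omega
        have h4 : k + 1 - e = 0 := by omega
        rw [h3, h4]
        exact ⟨hs01.symm, by rw [hκs]; exact hy01⟩
      · rw [if_neg h2, if_neg h1]
        have h3 : k + 1 - e = (k - e) + 1 := by omega
        rw [h3]
        exact ⟨hyne _, hya _⟩
  have hs0 : s 0 = y 0 := by
    simp only [hsdef]
    split_ifs
    · rfl
    · simp
  have hslast : s (2 * d) = y (2 * g) := by
    simp only [hsdef]
    rw [if_neg (by omega)]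
    congr 1
    omega
  have hsinj : ∀ k k', k < 2 * d + 1 → k' < 2 * d + 1 → s k = s k' → r k = r k' → k = k' := by
    intro k k' hk hk' h1 h2
    simp only [hsdef] at h1
    simp only [hr] at h2
    by_cases c1 : k < e <;> by_cases c2 : k' < e
    · rw [if_pos c1, if_pos c2] at h1 h2
      have h3 := hyi (k % 2) (k' % 2) (by omega) (by omega) h1
      omega
    · rw [if_pos c1, if_neg c2] at h2
      omega
    · rw [if_neg c1, if_pos c2] at h2
      omega
    · rw [if_neg c1, if_neg c2] at h1
      have h3 := hyi (k - e) (k' - e) (by omega) (by omega) h1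
      omega
  have hszero : ∀ k, k < 2 * d + 1 → s k = 0 → ¬ k < e := by
    intro k _ h0 hlt
    simp only [hsdef] at h0
    rw [if_pos hlt] at h0
    rcases Nat.mod_two_eq_zero_or_one k with h2 | h2
    · rw [h2] at h0; exact hy0 h0
    · rw [h2] at h0; exact hy1 h0
  -- representatives
  have hreps : ∀ x : Fin (a + 1), ∃ φ : ℕ → W, (∀ t, t < d + 2 → φ t ∈ B x) ∧
      (x ≠ 0 → ∀ t t', t < d + 2 → t' < d + 2 → φ t = φ t' → t = t') := by
    intro x
    refine Fin.cases ?_ (fun i => ?_) x
    · exact ⟨fun _ => v, fun _ _ => Finset.mem_singleton_self v, fun h => absurd rfl h⟩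
    · obtain ⟨φ, h1, h2⟩ := x1c_reps (A i) (d + 2) (hc i j) (by omega)
      exact ⟨φ, h1, fun _ => h2⟩
  choose Φ hΦ1 hΦ2 using hreps
  set f : ℕ → W := fun k => Φ (s k) (r k) with hf
  have hfm : ∀ k, f k ∈ B (s k) := fun k => hΦ1 _ _ (hrlt k)
  refine x1c_list f (2 * d) ?_ ?_ ?_
  · intro k k' hk hk' heq
    have hss : s k = s k' := by
      by_contra hne
      exact Finset.disjoint_left.1 (hBd _ _ hne) (hfm k) (heq ▸ hfm k')
    by_cases h0 : s k = 0
    · have n1 := hszero k hk h0
      have n2 := hszero k' hk' (hss ▸ h0)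
      refine hsinj k k' hk hk' hss ?_
      simp only [hr]
      rw [if_neg n1, if_neg n2]
    · have h3 : Φ (s k) (r k) = Φ (s k) (r k') := by
        have : f k = f k' := heq
        simp only [hf] at this
        rw [← hss] at this
        exact this
      exact hsinj k k' hk hk' hss (hΦ2 _ h0 _ _ (hrlt k) (hrlt k') h3)
  · intro k _
    exact hH _ _ (hsadj k).1 (hsadj k).2 _ (hfm k) _ (hfm (k + 1))
  · have h1 : s (2 * d) ≠ s 0 ∧ κ (s (2 * d)) (s 0) = j := by
      rw [hslast, hs0, ← hyper]
      exact ⟨hyne (2 * g), hya (2 * g)⟩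
    exact hH _ _ h1.1 h1.2 _ (hfm _) _ (hfm 0)

end Pool.Agent.Lib.MP_779bc2_co
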