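import Pool.Agent.Lib.MP_779bc2_co.X1Multi
import Pool.Agent.Lib.MP_779bc2_co.X1Cyc

/-! Row X1Assign (about 100 lines): every vertex can be assigned to a clique -/

set_option autoImplicit false

namespace Pool.Agent.Lib.MP_779bc2_co

open Finset

theorem x1a_prs_mono {W : Type} [Fintype W] [DecidableEq W] (P : W → W → Prop) {A A' B B' : Finset W}
    (hA : A ⊆ A') (hB : B ⊆ B') : prs P A B ≤ prs P A' B' := by
  classical
  unfold prs
  exact_mod_cast Finset.card_le_card (Finset.filter_subset_filter _ (Finset.product_subset_product hA hB))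

/-- Let `J` be the set of `a` cliques of `Frame.sel` for `v`. If `v` is not assignable to `Q i` (`i ∈ J`) then, by the choice of `J`, there is `j i` with at least `δ N` elements of `Q i`
joined to `v` in colour `odd (j i)`; let `A i` be the set of these elements, without `v`. The number of `long`-coloured pairs between `A i` and `A j` is at most `e N² ≤ δ₁ |A i| |A j|` if
`e ≤ δ₁ δ²/4` (`δ₁` from `multi_ramsey p a s0`, `s0 = max_j d_j + 2`). Apply `multi_ramsey` (index `J ≃ Fin a`) and `odd_cycle_blowup`; contradiction to `Free.odd`.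
`n1` is such that `δ n1 / 2` is at least the `n1` of `multi_ramsey` and `2`. -/
theorem assign (p : Pm) (a : ℕ) (ha : OddProp p a) (ha1 : 1 ≤ a) (δ : ℝ) (hδ : 0 < δ) : ∃ e > (0 : ℝ), ∃ n1 : ℕ,
    ∀ (W : Type) [Fintype W] [DecidableEq W], n1 ≤ Fintype.card W → ∀ (n m : ℕ) (χ : W → W → Col p.s p.t), Free p n m χ →
    ∀ (ι : Type) [Fintype ι] (cl : ι → Bool) (Q : ι → Finset W), Frame p n m a χ (Fintype.card W) δ e cl Q →
      ∀ v, ∃ i, Asg p n m χ (Fintype.card W) δ (cl i) (Q i) v := by
  obtain ⟨δ1, hδ1, n0, hmr⟩ := multi_ramsey p a (univ.sup p.d + 2)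
  refine ⟨δ1 * δ ^ 2 / 4, by positivity, ⌈2 * ((n0 : ℝ) + 1) / δ⌉₊, ?_⟩
  intro W _ _ hn n m χ hF ι _ cl Q hfr v
  classical
  by_contra hcon
  push Not at hcon
  obtain ⟨J, hJ, hJ1, hJ2⟩ := hfr.sel v
  have hN : 2 * ((n0 : ℝ) + 1) ≤ δ * (Fintype.card W : ℝ) := by
    have h1 : 2 * ((n0 : ℝ) + 1) / δ ≤ (Fintype.card W : ℝ) :=
      (Nat.le_ceil _).trans (by exact_mod_cast hn)
    rw [div_le_iff₀ hδ] at h1
    linarith
  have hn0 : (0 : ℝ) ≤ n0 := Nat.cast_nonneg _
  have key : ∀ i ∈ J, ∃ j, δ * (Fintype.card W : ℝ) ≤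
      (((Q i).filter (fun w => χ v w = .odd j)).card : ℝ) := by
    intro i hi
    by_contra h
    push Not at h
    exact hcon i ⟨h, hJ1 i hi⟩
  let f : Fin a → ι := fun k => ((J.equivFinOfCardEq hJ).symm k : ι)
  have hfJ : ∀ k, f k ∈ J := fun k => ((J.equivFinOfCardEq hJ).symm k).2
  have hfi : Function.Injective f := by
    intro k l h
    exact (J.equivFinOfCardEq hJ).symm.injective (Subtype.ext h)
  choose j hj using fun k => key (f k) (hfJ k)
  let A : Fin a → Finset W := fun k => ((Q (f k)).filter (fun w => χ v w = .odd (j k))).erase v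
  have hAQ : ∀ k, A k ⊆ Q (f k) := fun k => (Finset.erase_subset _ _).trans (Finset.filter_subset _ _)
  have hAc : ∀ k, δ * (Fintype.card W : ℝ) / 2 ≤ ((A k).card : ℝ) := by
    intro k
    have h1 : ((Q (f k)).filter (fun w => χ v w = .odd (j k))).card ≤ (A k).card + 1 := by
      have := Finset.pred_card_le_card_erase (s := (Q (f k)).filter (fun w => χ v w = .odd (j k))) (a := v)
      show _ ≤ (((Q (f k)).filter (fun w => χ v w = .odd (j k))).erase v).card + 1
      omega
    have h2 : (((Q (f k)).filter (fun w => χ v w = .odd (j k))).card : ℝ) ≤ ((A k).card : ℝ) + 1 := by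
      exact_mod_cast h1
    have h3 := hj k
    linarith
  have hd : ∀ k l, k ≠ l → Disjoint (A k) (A l) := by
    intro k l hkl
    exact Finset.disjoint_of_subset_left (hAQ k)
      (Finset.disjoint_of_subset_right (hAQ l) (hfr.disj _ _ (fun h => hkl (hfi h))))
  have hcard : ∀ k, n0 ≤ (A k).card := by
    intro k
    have h := hAc k
    have : (n0 : ℝ) ≤ ((A k).card : ℝ) := by linarith
    exact_mod_cast this
  have hprs : ∀ k l, k ≠ l →
      prs (fun u w => ∃ κ, χ u w = .long κ) (A k) (A l) ≤ δ1 * (A k).card * (A l).card := by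
    intro k l hkl
    refine (x1a_prs_mono _ (hAQ k) (hAQ l)).trans ((hJ2 _ (hfJ k) _ (hfJ l) (fun h => hkl (hfi h))).trans ?_)
    have h0 : 0 ≤ δ * (Fintype.card W : ℝ) / 2 := by linarith
    have h1 : (δ * (Fintype.card W : ℝ) / 2) * (δ * (Fintype.card W : ℝ) / 2) ≤ ((A k).card : ℝ) * ((A l).card : ℝ) :=
      mul_le_mul (hAc k) (hAc l) h0 (h0.trans (hAc k))
    have h2 := mul_le_mul_of_nonneg_left h1 hδ1.le
    have e : δ1 * δ ^ 2 / 4 * (Fintype.card W : ℝ) ^ 2 =
        δ1 * ((δ * (Fintype.card W : ℝ) / 2) * (δ * (Fintype.card W : ℝ) / 2)) := by ring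
    rw [e]
    linarith
  obtain ⟨A', hA', hAA⟩ := hmr W n m χ hF A hd hcard hprs
  have hv : ∀ k, v ∉ A' k := by
    intro k hk
    exact Finset.notMem_erase v _ ((hA' k).1 hk)
  obtain ⟨jj, hjj⟩ := odd_cycle_blowup p a ha ha1 W χ hF.symm v A' hv
    (fun k l hkl => Finset.disjoint_of_subset_left (hA' k).1
      (Finset.disjoint_of_subset_right (hA' l).1 (hd k l hkl)))
    (fun k l => by
      rw [(hA' k).2]
      have := Finset.le_sup (f := p.d) (Finset.mem_univ l)
      omega)
    j
    (fun k w hw => by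
      have h1 := (hA' k).1 hw
      have h2 := Finset.mem_of_mem_erase h1
      exact (Finset.mem_filter.1 h2).2)
    hAA
  exact hF.odd jj hjj

end Pool.Agent.Lib.MP_779bc2_co
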