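import Pool.Agent.Lib.MP_779bc2_co.Defs

/-! Row X1BipRam (about 130 lines): bipartite Ramsey theorem and its multipartite version -/

set_option autoImplicit false

namespace Pool.Agent.Lib.MP_779bc2_co

open Finset

/-- Take `A0 ⊆ A` with `|κ| s2` elements (`κ` the finite set of colours). For every `w ∈ B` some colour occurs at least `s2` times among `f u w`, `u ∈ A0`; choose such a colour and an
`s2`-subset; if `|B| ≥ s2 |κ| 2^(|κ| s2)` the same (colour, subset) is chosen `s2` times. (Colours are only needed on `A × B`.) -/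
theorem bip_ramsey (κ : Type) [Fintype κ] [DecidableEq κ] (s2 : ℕ) : ∃ s1 : ℕ, s2 ≤ s1 ∧ ∀ (W : Type) [DecidableEq W] (f : W → W → κ)
    (A B : Finset W), s1 ≤ A.card → s1 ≤ B.card →
      ∃ A' ⊆ A, ∃ B' ⊆ B, A'.card = s2 ∧ B'.card = s2 ∧ ∃ x, ∀ u ∈ A', ∀ w ∈ B', f u w = x := by
  classical
  set N : ℕ := Fintype.card κ * s2 with hN
  set M : ℕ := Fintype.card κ * 2 ^ N * s2 with hM
  refine ⟨N + M + s2 + 1, by omega, ?_⟩
  intro W _ f A B hA hB
  have hAne : A.Nonempty := Finset.card_pos.mp (by omega)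
  have hBne : B.Nonempty := Finset.card_pos.mp (by omega)
  obtain ⟨a0, ha0⟩ := hAne
  obtain ⟨b0, hb0⟩ := hBne
  haveI : Nonempty κ := ⟨f a0 b0⟩
  obtain ⟨A0, hA0, hA0c⟩ := Finset.exists_subset_card_eq (s := A) (n := N) (by omega)
  have h1 : ∀ w : W, ∃ p : κ × Finset W, p.2 ⊆ A0 ∧ p.2.card = s2 ∧ ∀ u ∈ p.2, f u w = p.1 := by
    intro w
    obtain ⟨c, -, hc⟩ := Finset.exists_le_card_fiber_of_mul_le_card_of_maps_to
      (s := A0) (t := (Finset.univ : Finset κ)) (f := fun u => f u w) (n := s2)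
      (fun _ _ => Finset.mem_univ _) Finset.univ_nonempty (by rw [hA0c, Finset.card_univ])
    obtain ⟨S, hS, hSc⟩ := Finset.exists_subset_card_eq hc
    refine ⟨(c, S), ?_, hSc, ?_⟩
    · exact hS.trans (Finset.filter_subset _ _)
    · intro u hu
      exact (Finset.mem_filter.mp (hS hu)).2
  choose g hg1 hg2 hg3 using h1
  have hcard : ((Finset.univ : Finset κ) ×ˢ A0.powerset).card * s2 ≤ B.card := by
    rw [Finset.card_product, Finset.card_univ, Finset.card_powerset, hA0c]
    omega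
  obtain ⟨⟨c, S⟩, -, hcS⟩ := Finset.exists_le_card_fiber_of_mul_le_card_of_maps_to
    (s := B) (t := (Finset.univ : Finset κ) ×ˢ A0.powerset) (f := g) (n := s2)
    (fun w _ => Finset.mem_product.mpr ⟨Finset.mem_univ _, Finset.mem_powerset.mpr (hg1 w)⟩)
    ⟨(f a0 b0, ∅), Finset.mem_product.mpr ⟨Finset.mem_univ _, Finset.empty_mem_powerset _⟩⟩ hcard
  obtain ⟨B', hB', hB'c⟩ := Finset.exists_subset_card_eq hcS
  by_cases hs : s2 = 0
  · subst hs
    exact ⟨∅, Finset.empty_subset _, ∅, Finset.empty_subset _, rfl, rfl, f a0 b0, by simp⟩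
  · have hB'ne : B'.Nonempty := Finset.card_pos.mp (by omega)
    obtain ⟨b1, hb1⟩ := hB'ne
    have hgb : g b1 = (c, S) := (Finset.mem_filter.mp (hB' hb1)).2
    have hSA : S ⊆ A0 := by
      have := hg1 b1
      rwa [hgb] at this
    have hSc : S.card = s2 := by
      have := hg2 b1
      rwa [hgb] at this
    refine ⟨S, hSA.trans hA0, B', hB'.trans (Finset.filter_subset _ _), hSc, hB'c, c, ?_⟩
    intro u hu w hw
    have hgw : g w = (c, S) := (Finset.mem_filter.mp (hB' hw)).2
    have := hg3 w u (by rw [hgw]; exact hu)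
    rw [this, hgw]

theorem x1bip_step (κ : Type) [Fintype κ] [DecidableEq κ] (a : ℕ) (P : Finset (Fin a × Fin a)) :
    ∀ s0 : ℕ, ∃ s1 : ℕ, ∀ (W : Type) [DecidableEq W] (f : W → W → κ) (A : Fin a → Finset W), (∀ i, s1 ≤ (A i).card) →
      ∃ A' : Fin a → Finset W, (∀ i, A' i ⊆ A i ∧ (A' i).card = s0) ∧
        ∀ p ∈ P, p.1 ≠ p.2 → ∃ x, ∀ u ∈ A' p.1, ∀ w ∈ A' p.2, f u w = x := by
  classical
  induction P using Finset.induction_on with
  | empty =>
    intro s0
    refine ⟨s0, ?_⟩
    intro W _ f A hA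
    have h1 : ∀ i, ∃ S ⊆ A i, S.card = s0 := fun i => Finset.exists_subset_card_eq (hA i)
    choose A' hA'1 hA'2 using h1
    exact ⟨A', fun i => ⟨hA'1 i, hA'2 i⟩, by simp⟩
  | insert p P hp ih =>
    intro s0
    obtain ⟨t1, ht1, hb⟩ := bip_ramsey κ s0
    obtain ⟨s1, hs1⟩ := ih t1
    refine ⟨s1, ?_⟩
    intro W _ f A hA
    obtain ⟨A1, hA1, hmono⟩ := hs1 W f A hA
    have h1 : ∀ i, ∃ S ⊆ A1 i, S.card = s0 := fun i =>
      Finset.exists_subset_card_eq (by rw [(hA1 i).2]; exact ht1)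
    choose A2 hA21 hA22 using h1
    by_cases hij : p.1 = p.2
    · refine ⟨A2, fun i => ⟨(hA21 i).trans (hA1 i).1, hA22 i⟩, ?_⟩
      intro q hq hne
      rcases Finset.mem_insert.mp hq with rfl | hq'
      · exact absurd hij hne
      · obtain ⟨x, hx⟩ := hmono q hq' hne
        exact ⟨x, fun u hu w hw => hx u (hA21 _ hu) w (hA21 _ hw)⟩
    · obtain ⟨S, hS, T, hT, hSc, hTc, x0, hx0⟩ := hb W f (A1 p.1) (A1 p.2)
        (by rw [(hA1 _).2]) (by rw [(hA1 _).2])
      set A' : Fin a → Finset W := fun k => if k = p.1 then S else if k = p.2 then T else A2 k with hA'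
      have hsub : ∀ k, A' k ⊆ A1 k := by
        intro k
        simp only [hA']
        split_ifs with h h'
        · rw [h]; exact hS
        · rw [h']; exact hT
        · exact hA21 k
      have hcd : ∀ k, (A' k).card = s0 := by
        intro k
        simp only [hA']
        split_ifs with h h'
        · exact hSc
        · exact hTc
        · exact hA22 k
      refine ⟨A', fun i => ⟨(hsub i).trans (hA1 i).1, hcd i⟩, ?_⟩
      intro q hq hne
      rcases Finset.mem_insert.mp hq with rfl | hq'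
      · refine ⟨x0, ?_⟩
        have e1 : A' q.1 = S := by simp [hA']
        have e2 : A' q.2 = T := by simp [hA', Ne.symm hij]
        rw [e1, e2]
        exact hx0
      · obtain ⟨x, hx⟩ := hmono q hq' hne
        exact ⟨x, fun u hu w hw => hx u (hsub _ hu) w (hsub _ hw)⟩

/-- Apply `bip_ramsey` successively to all pairs `i < j` of indices (induction on a list of pairs; every step keeps what has been achieved because all
subsets shrink; the other sets are shrunk arbitrarily to the same size). `f` symmetric gives the statement for all `i ≠ j`. -/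
theorem multi_mono (κ : Type) [Fintype κ] [DecidableEq κ] (a s0 : ℕ) : ∃ s1 : ℕ, ∀ (W : Type) [DecidableEq W] (f : W → W → κ),
    (∀ u w, f u w = f w u) → ∀ A : Fin a → Finset W, (∀ i, s1 ≤ (A i).card) →
      ∃ A' : Fin a → Finset W, (∀ i, A' i ⊆ A i ∧ (A' i).card = s0) ∧
        ∀ i j, i ≠ j → ∃ x, ∀ u ∈ A' i, ∀ w ∈ A' j, f u w = x := by
  obtain ⟨s1, hs1⟩ := x1bip_step κ a Finset.univ s0
  refine ⟨s1, ?_⟩
  intro W _ f _ A hA
  obtain ⟨A', h1, h2⟩ := hs1 W f A hA
  exact ⟨A', h1, fun i j hij => h2 (i, j) (Finset.mem_univ _) hij⟩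

end Pool.Agent.Lib.MP_779bc2_co
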