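import Pool.Agent.Lib.MP_779bc2_co.X1Multi
import Pool.Agent.Lib.MP_779bc2_co.X1Cyc

/-! Row X1Blocks (about 70 lines) -/

set_option autoImplicit false

namespace Pool.Agent.Lib.MP_779bc2_co

open Finset

/-- `multi_ramsey p (a+1) s0` with `s0 = ∑_j d_j + 3`; take `v ∈ A' 0` and the sets `A' i.succ` (pair colours `odd`), and apply `odd_cycle_blowup`; contradiction to `Free.odd`. -/
theorem sparse_blocks (p : Pm) (a : ℕ) (ha : OddProp p a) (ha1 : 1 ≤ a) : ∃ d1 > (0 : ℝ), ∃ n1 : ℕ, ∀ (n m : ℕ) (W : Type) [Fintype W] [DecidableEq W]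
    (χ : W → W → Col p.s p.t), Free p n m χ → ∀ A : Fin (a + 1) → Finset W, (∀ i j, i ≠ j → Disjoint (A i) (A j)) →
    (∀ i, n1 ≤ (A i).card) →
    (∀ i j, i ≠ j → prs (fun u w => ∃ κ, χ u w = .long κ) (A i) (A j) ≤ d1 * ((A i).card * (A j).card)) → False := by
  obtain ⟨δ, hδ, n1, h⟩ := multi_ramsey p (a + 1) (∑ j, p.d j + 3)
  refine ⟨δ, hδ, n1, ?_⟩
  intro n m W _ _ χ hF A hdis hcard hprs
  obtain ⟨A', hA', hcol⟩ := h W n m χ hF A hdis hcard (fun i j hij => by
    have h2 := hprs i j hij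
    rw [← mul_assoc] at h2
    exact h2)
  have hne : (A' 0).Nonempty := by
    rw [← Finset.card_pos, (hA' 0).2]
    omega
  obtain ⟨v, hv⟩ := hne
  have hdis' : ∀ i j, i ≠ j → Disjoint (A' i) (A' j) := fun i j hij =>
    Finset.disjoint_of_subset_left (hA' i).1
      (Finset.disjoint_of_subset_right (hA' j).1 (hdis i j hij))
  have h0 : ∀ i : Fin a, (0 : Fin (a + 1)) ≠ i.succ := fun i => (Fin.succ_ne_zero i).symm
  choose jv hjv using fun i : Fin a => hcol 0 i.succ (h0 i)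
  obtain ⟨j, hj⟩ := odd_cycle_blowup p a ha ha1 W χ hF.symm v (fun i => A' i.succ)
    (fun i hvi => Finset.disjoint_left.mp (hdis' 0 i.succ (h0 i)) hv hvi)
    (fun i j hij => hdis' _ _ (fun h => hij (Fin.succ_injective _ h)))
    (fun i j => by
      rw [(hA' i.succ).2]
      have := Finset.single_le_sum (f := p.d) (fun _ _ => Nat.zero_le _) (Finset.mem_univ j)
      omega)
    jv (fun i w hw => hjv i v hv w hw)
    (fun i j hij => hcol _ _ (fun h => hij (Fin.succ_injective _ h)))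
  exact hF.odd j hj

end Pool.Agent.Lib.MP_779bc2_co
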