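import Pool.Agent.Lib.MP_779bc2_co.Defs

/-! Row X1Clean (about 150 lines): subsets without bad pairs -/

set_option autoImplicit false

namespace Pool.Agent.Lib.MP_779bc2_co

open Finset

open Classical in
theorem x1c_bad {W : Type} [Fintype W] [DecidableEq W] (P : W → W → Prop) (A B : Finset W) (r : ℝ)
    (hr : 0 < r) (hB : 0 < B.card) (h : prs P A B ≤ r ^ 2 * A.card * B.card) :
    ((A.filter (fun u => r * B.card < ((B.filter (fun w => P u w)).card : ℝ))).card : ℝ)
      ≤ r * A.card := by
  set D := A.filter (fun u => r * B.card < ((B.filter (fun w => P u w)).card : ℝ)) with hD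
  have h1 : (D.card : ℝ) * (r * B.card) ≤ prs P A B := by
    have h3 : ((A ×ˢ B).filter (fun q => P q.1 q.2)).card
        = ∑ u ∈ A, (B.filter (fun w => P u w)).card := by
      rw [Finset.card_filter, Finset.sum_product]
      exact Finset.sum_congr rfl (fun u _ => by rw [Finset.card_filter])
    unfold prs
    rw [h3]
    push_cast
    calc (D.card : ℝ) * (r * B.card) = ∑ u ∈ D, (r * B.card) := by simp
      _ ≤ ∑ u ∈ D, ((B.filter (fun w => P u w)).card : ℝ) :=
          Finset.sum_le_sum (fun u hu => (Finset.mem_filter.mp hu).2.le)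
      _ ≤ _ := Finset.sum_le_sum_of_subset_of_nonneg (Finset.filter_subset _ _)
          (fun _ _ _ => by positivity)
  have hB' : (0:ℝ) < B.card := by exact_mod_cast hB
  have h2 : (D.card : ℝ) * (r * B.card) ≤ (r * A.card) * (r * B.card) := by nlinarith
  exact le_of_mul_le_mul_right h2 (by positivity)

open Classical in
theorem x1c_step {W : Type} [Fintype W] [DecidableEq W] (P : W → W → Prop)
    (hs : ∀ u w, P u w → P w u) (a s1 : ℕ) (r : ℝ) (hr : 0 < r)
    (hr1 : (a : ℝ) * r + a * s1 * r ≤ 1 / 2) (A : Fin a → Finset W)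
    (hA : ∀ i, 2 * s1 ≤ (A i).card)
    (Ao : Fin a → Finset W) (hAo : ∀ i, Ao i ⊆ A i)
    (hAoc : ∀ i, ((A i).card : ℝ) - a * r * (A i).card ≤ (Ao i).card)
    (hgood : ∀ i j, i ≠ j → ∀ u ∈ Ao i,
      (((A j).filter (fun w => P u w)).card : ℝ) ≤ r * (A j).card) (k : ℕ) (hk : k ≤ a) :
    ∃ A' : Fin a → Finset W, (∀ i, i.val < k → A' i ⊆ Ao i ∧ (A' i).card = s1) ∧
      ∀ i j, i.val < k → j.val < k → i ≠ j → ∀ u ∈ A' i, ∀ w ∈ A' j, ¬ P u w := by
  induction k with
  | zero =>
    exact ⟨fun _ => ∅, fun i hi => absurd hi (by omega), fun i j hi => absurd hi (by omega)⟩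
  | succ k ih =>
    obtain ⟨A', h1, h2⟩ := ih (by omega)
    have hka : k < a := by omega
    let i0 : Fin a := ⟨k, hka⟩
    let G : Finset W := (Finset.univ.filter (fun j : Fin a => j.val < k)).biUnion
      (fun j => (A' j).biUnion (fun u => (A i0).filter (fun w => P u w)))
    let F : Finset W := Ao i0 \ G
    have e1 : (G.card : ℝ) ≤ a * (s1 * (r * (A i0).card)) := by
      have e2 : (G.card : ℝ) ≤ ∑ j ∈ Finset.univ.filter (fun j : Fin a => j.val < k),
          (((A' j).biUnion (fun u => (A i0).filter (fun w => P u w))).card : ℝ) := by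
        exact_mod_cast Finset.card_biUnion_le
      have e3 : ∀ j ∈ Finset.univ.filter (fun j : Fin a => j.val < k),
          (((A' j).biUnion (fun u => (A i0).filter (fun w => P u w))).card : ℝ)
            ≤ s1 * (r * (A i0).card) := by
        intro j hj
        have hj' : j.val < k := (Finset.mem_filter.mp hj).2
        have hne : j ≠ i0 := by
          intro h
          rw [h] at hj'
          exact lt_irrefl _ hj'
        have e4 : (((A' j).biUnion (fun u => (A i0).filter (fun w => P u w))).card : ℝ)
            ≤ ∑ u ∈ A' j, (((A i0).filter (fun w => P u w)).card : ℝ) := by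
          exact_mod_cast Finset.card_biUnion_le
        have e5 : ∑ u ∈ A' j, (((A i0).filter (fun w => P u w)).card : ℝ)
            ≤ ∑ u ∈ A' j, (r * (A i0).card) :=
          Finset.sum_le_sum (fun u hu => hgood j i0 hne u ((h1 j hj').1 hu))
        have e6 : ∑ u ∈ A' j, (r * ((A i0).card : ℝ)) = s1 * (r * (A i0).card) := by
          rw [Finset.sum_const, nsmul_eq_mul, (h1 j hj').2]
        linarith
      have e7 : ∑ j ∈ Finset.univ.filter (fun j : Fin a => j.val < k),
          (((A' j).biUnion (fun u => (A i0).filter (fun w => P u w))).card : ℝ)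
            ≤ ∑ j ∈ Finset.univ.filter (fun j : Fin a => j.val < k),
              ((s1 : ℝ) * (r * (A i0).card)) := Finset.sum_le_sum e3
      have e8 : ∑ j ∈ Finset.univ.filter (fun j : Fin a => j.val < k),
              ((s1 : ℝ) * (r * (A i0).card))
            ≤ a * (s1 * (r * (A i0).card)) := by
        rw [Finset.sum_const, nsmul_eq_mul]
        have e9 : ((Finset.univ.filter (fun j : Fin a => j.val < k)).card : ℝ) ≤ a := by
          have := Finset.card_filter_le (Finset.univ : Finset (Fin a)) (fun j : Fin a => j.val < k)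
          rw [Finset.card_univ, Fintype.card_fin] at this
          exact_mod_cast this
        exact mul_le_mul_of_nonneg_right e9 (by positivity)
      linarith
    have hF : s1 ≤ F.card := by
      have f1 : ((Ao i0).card : ℝ) ≤ F.card + G.card := by
        have := Finset.card_le_card_sdiff_add_card (s := Ao i0) (t := G)
        exact_mod_cast this
      have f2 := hAoc i0
      have f3 : (2 * (s1 : ℝ)) ≤ (A i0).card := by exact_mod_cast hA i0
      have f4 : (0 : ℝ) ≤ (A i0).card := by positivity
      have f5 : ((a : ℝ) * r + a * s1 * r) * (A i0).card ≤ 1 / 2 * (A i0).card :=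
        mul_le_mul_of_nonneg_right hr1 f4
      have f6 : (s1 : ℝ) ≤ F.card := by nlinarith
      exact_mod_cast f6
    obtain ⟨B, hBF, hBc⟩ := Finset.exists_subset_card_eq hF
    have hBprop : ∀ j : Fin a, j.val < k → ∀ u ∈ A' j, ∀ w ∈ B, ¬ P u w := by
      intro j hj u hu w hw hP
      have hwF := hBF hw
      have hw1 : w ∈ Ao i0 := (Finset.mem_sdiff.mp hwF).1
      have hw2 : w ∉ G := (Finset.mem_sdiff.mp hwF).2
      apply hw2
      refine Finset.mem_biUnion.mpr ⟨j, Finset.mem_filter.mpr ⟨Finset.mem_univ _, hj⟩, ?_⟩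
      exact Finset.mem_biUnion.mpr ⟨u, hu, Finset.mem_filter.mpr ⟨hAo i0 hw1, hP⟩⟩
    refine ⟨fun i => if i = i0 then B else A' i, ?_, ?_⟩
    · intro i hi
      by_cases h : i = i0
      · simp only [h, if_true]
        exact ⟨fun w hw => (Finset.mem_sdiff.mp (hBF hw)).1, hBc⟩
      · simp only [h, if_false]
        have : i.val < k := by
          have h3 : i.val ≠ k := fun h4 => h (Fin.ext h4)
          omega
        exact h1 i this
    · intro i j hi hj hij u hu w hw
      by_cases h : i = i0
      · have hj0 : j ≠ i0 := fun h4 => hij (h.trans h4.symm)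
        have hjk : j.val < k := by
          have h3 : j.val ≠ k := fun h4 => hj0 (Fin.ext h4)
          omega
        simp only [h, if_true] at hu
        simp only [hj0, if_false] at hw
        intro hP
        exact hBprop j hjk w hw u hu (hs _ _ hP)
      · have hik : i.val < k := by
          have h3 : i.val ≠ k := fun h4 => h (Fin.ext h4)
          omega
        simp only [h, if_false] at hu
        by_cases h' : j = i0
        · simp only [h', if_true] at hw
          exact hBprop i hik u hu w hw
        · have hjk : j.val < k := by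
            have h3 : j.val ≠ k := fun h4 => h' (Fin.ext h4)
            omega
          simp only [h', if_false] at hw
          exact h2 i j hik hjk hij u hu w hw

/-- `δ = 1/(16 (a+1)² (s1+1)²)`-ish, `r = √δ`. For `i ≠ j` at most `r |A i|` elements of `A i` are bad for `j`, i.e. have more than `r |A j|` elements of `A j` in relation
`P` (otherwise more than `δ |A i| |A j|` pairs). Let `A° i` be the set of the elements of `A i` which are bad for no `j`; `|A i \ A° i| ≤ a r |A i|`. Now choose the
`a s1` elements one after the other (induction on the number of chosen elements, or first all elements of `A 0`, then of `A 1`, ...):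
each chosen element of `A° i` forbids at most `r |A j|` elements of `A j`; altogether at most `(a s1 r + a r) |A j| + s1 < |A j|` elements are
forbidden. (`P` is symmetric.) -/
theorem clean_subsets (a s1 : ℕ) : ∃ δ > (0 : ℝ), ∃ n1 : ℕ, ∀ (W : Type) [Fintype W] [DecidableEq W] (P : W → W → Prop),
    (∀ u w, P u w → P w u) → ∀ A : Fin a → Finset W, (∀ i j, i ≠ j → Disjoint (A i) (A j)) → (∀ i, n1 ≤ (A i).card) →
    (∀ i j, i ≠ j → prs P (A i) (A j) ≤ δ * (A i).card * (A j).card) →
      ∃ A' : Fin a → Finset W, (∀ i, A' i ⊆ A i ∧ (A' i).card = s1) ∧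
        ∀ i j, i ≠ j → ∀ u ∈ A' i, ∀ w ∈ A' j, ¬ P u w := by
  classical
  set r : ℝ := 1 / (2 * ((a : ℝ) + 1) * ((s1 : ℝ) + 1)) with hr
  have hr0 : 0 < r := by positivity
  have hr1 : (a : ℝ) * r + a * s1 * r ≤ 1 / 2 := by
    have : (a : ℝ) * r + a * s1 * r = (a : ℝ) * (s1 + 1) * r := by ring
    rw [this, hr, mul_one_div, div_le_div_iff₀ (by positivity) (by norm_num)]
    have ha : (0 : ℝ) ≤ a := by positivity
    have hs : (0 : ℝ) ≤ s1 := by positivity
    nlinarith [mul_nonneg ha hs]
  refine ⟨r ^ 2, by positivity, 2 * s1 + 1, ?_⟩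
  intro W _ _ P hsym A hdisj hcard hprs
  have hpos : ∀ i, 0 < (A i).card := fun i => by have := hcard i; omega
  let bad : Fin a → Fin a → Finset W := fun i j =>
    (A i).filter (fun u => r * (A j).card < (((A j).filter (fun w => P u w)).card : ℝ))
  let Ao : Fin a → Finset W := fun i => A i \ (Finset.univ.filter (fun j => i ≠ j)).biUnion
    (fun j => bad i j)
  have hAo : ∀ i, Ao i ⊆ A i := fun i => Finset.sdiff_subset
  have hAoc : ∀ i, ((A i).card : ℝ) - a * r * (A i).card ≤ (Ao i).card := by
    intro i
    have g1 : ((A i).card : ℝ) ≤ (Ao i).card + (((Finset.univ.filter (fun j => i ≠ j)).biUnion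
        (fun j => bad i j)).card : ℝ) := by
      have := Finset.card_le_card_sdiff_add_card
        (s := A i) (t := (Finset.univ.filter (fun j => i ≠ j)).biUnion (fun j => bad i j))
      exact_mod_cast this
    have g2 : (((Finset.univ.filter (fun j => i ≠ j)).biUnion (fun j => bad i j)).card : ℝ)
        ≤ ∑ j ∈ Finset.univ.filter (fun j => i ≠ j), ((bad i j).card : ℝ) := by
      exact_mod_cast Finset.card_biUnion_le
    have g3 : ∑ j ∈ Finset.univ.filter (fun j => i ≠ j), ((bad i j).card : ℝ)
        ≤ ∑ j ∈ Finset.univ.filter (fun j => i ≠ j), (r * ((A i).card : ℝ)) :=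
      Finset.sum_le_sum (fun j hj => x1c_bad P (A i) (A j) r hr0 (hpos j)
        (hprs i j (Finset.mem_filter.mp hj).2))
    have g4 : ∑ j ∈ Finset.univ.filter (fun j => i ≠ j), (r * ((A i).card : ℝ))
        ≤ a * (r * (A i).card) := by
      rw [Finset.sum_const, nsmul_eq_mul]
      have e9 : ((Finset.univ.filter (fun j : Fin a => i ≠ j)).card : ℝ) ≤ a := by
        have := Finset.card_filter_le (Finset.univ : Finset (Fin a)) (fun j : Fin a => i ≠ j)
        rw [Finset.card_univ, Fintype.card_fin] at this
        exact_mod_cast this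
      exact mul_le_mul_of_nonneg_right e9 (by positivity)
    nlinarith
  have hgood : ∀ i j, i ≠ j → ∀ u ∈ Ao i,
      (((A j).filter (fun w => P u w)).card : ℝ) ≤ r * (A j).card := by
    intro i j hij u hu
    by_contra hcon
    have hcon' := not_le.mp hcon
    have hu1 := (Finset.mem_sdiff.mp hu).1
    have hu2 := (Finset.mem_sdiff.mp hu).2
    apply hu2
    exact Finset.mem_biUnion.mpr ⟨j, Finset.mem_filter.mpr ⟨Finset.mem_univ _, hij⟩,
      Finset.mem_filter.mpr ⟨hu1, hcon'⟩⟩
  obtain ⟨A', h1, h2⟩ := x1c_step P hsym a s1 r hr0 hr1 A (fun i => by have := hcard i; omega)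
    Ao hAo hAoc hgood a le_rfl
  exact ⟨A', fun i => ⟨(h1 i i.isLt).1.trans (hAo i), (h1 i i.isLt).2⟩,
    fun i j hij => h2 i j i.isLt j.isLt hij⟩

end Pool.Agent.Lib.MP_779bc2_co
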