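import Pool.Agent.Lib.MP_779bc2_co.X1Clean
import Pool.Agent.Lib.MP_779bc2_co.X1BipRam

/-! Row X1Multi (about 80 lines): multipartite Ramsey theorem in the form needed -/

set_option autoImplicit false

namespace Pool.Agent.Lib.MP_779bc2_co

open Finset

/-- the colours form a finite type -/
def x1m_ft (s t : ℕ) : Fintype (Col s t) :=
  Fintype.ofSurjective
    (fun x : Bool ⊕ (Fin s ⊕ Fin t) => match x with
      | .inl i => Col.long i
      | .inr (.inl k) => Col.bip k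
      | .inr (.inr j) => Col.odd j)
    (by
      intro c
      cases c with
      | long i => exact ⟨.inl i, rfl⟩
      | bip k => exact ⟨.inr (.inl k), rfl⟩
      | odd j => exact ⟨.inr (.inr j), rfl⟩)

/-- Let `s0' = max s0 (max_k c_k)` and `s1` from `multi_mono` (colours `Col p.s p.t`, a finite type: transport along an equivalence or use a map to `Fin _`). Apply `clean_subsets a s1` to
`P u w = ∃ κ, χ u w = long κ`, then `multi_mono`. The colour of a pair `(A' i, A' j)` is not `long`, and not `bip k` because `χ` contains no `K_{b_k,c_k}` of colour `bip k`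
(`b_k ≤ c_k ≤ s0'`, the sets are disjoint). Finally shrink to `s0` elements. -/
theorem multi_ramsey (p : Pm) (a s0 : ℕ) : ∃ δ > (0 : ℝ), ∃ n1 : ℕ, ∀ (W : Type) [Fintype W] [DecidableEq W]
    (n m : ℕ) (χ : W → W → Col p.s p.t), Free p n m χ →
    ∀ A : Fin a → Finset W, (∀ i j, i ≠ j → Disjoint (A i) (A j)) → (∀ i, n1 ≤ (A i).card) →
    (∀ i j, i ≠ j → prs (fun u w => ∃ κ, χ u w = .long κ) (A i) (A j) ≤ δ * (A i).card * (A j).card) →
      ∃ A' : Fin a → Finset W, (∀ i, A' i ⊆ A i ∧ (A' i).card = s0) ∧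
        ∀ i j, i ≠ j → ∃ jj, ∀ u ∈ A' i, ∀ w ∈ A' j, χ u w = .odd jj := by
  classical
  set s0' : ℕ := s0 + (∑ k, p.c k) + 1 with hs0'
  haveI := x1m_ft p.s p.t
  obtain ⟨s1, hs1⟩ := multi_mono (Col p.s p.t) a s0'
  obtain ⟨δ, hδ, n1, hn1⟩ := clean_subsets a s1
  refine ⟨δ, hδ, n1, ?_⟩
  intro W _ _ n m χ hfree A hdisj hcard hprs
  obtain ⟨A1, hA1, hA1P⟩ := hn1 W (fun u w => ∃ κ, χ u w = .long κ)
    (fun u w h => by
      obtain ⟨κ, hκ⟩ := h
      exact ⟨κ, by rw [hfree.symm]; exact hκ⟩) A hdisj hcard hprs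
  obtain ⟨A2, hA2, hA2m⟩ := hs1 W χ hfree.symm A1 (fun i => (hA1 i).2.ge)
  have hsub : ∀ i, ∃ S ⊆ A2 i, S.card = s0 :=
    fun i => Finset.exists_subset_card_eq (by rw [(hA2 i).2]; omega)
  choose A' hA'1 hA'2 using hsub
  refine ⟨A', fun i => ⟨(hA'1 i).trans ((hA2 i).1.trans (hA1 i).1), hA'2 i⟩, ?_⟩
  intro i j hij
  obtain ⟨x, hx⟩ := hA2m i j hij
  have hpos : ∀ i, (A2 i).Nonempty := fun i => Finset.card_pos.mp (by rw [(hA2 i).2]; omega)
  obtain ⟨u0, hu0⟩ := hpos i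
  obtain ⟨w0, hw0⟩ := hpos j
  cases x with
  | long κ =>
    exact absurd ⟨κ, hx u0 hu0 w0 hw0⟩ (hA1P i j hij u0 ((hA2 i).1 hu0) w0 ((hA2 j).1 hw0))
  | bip k =>
    exfalso
    have hck : p.c k ≤ ∑ k, p.c k :=
      Finset.single_le_sum (f := p.c) (fun _ _ => Nat.zero_le _) (Finset.mem_univ k)
    have hbk := p.hbc k
    obtain ⟨S, hS, hSc⟩ := Finset.exists_subset_card_eq
      (s := A2 i) (n := p.b k) (by rw [(hA2 i).2]; omega)
    obtain ⟨T, hT, hTc⟩ := Finset.exists_subset_card_eq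
      (s := A2 j) (n := p.c k) (by rw [(hA2 j).2]; omega)
    refine hfree.bip k ⟨S, T, hSc, hTc, ?_, fun u hu w hw => hx u (hS hu) w (hT hw)⟩
    exact Finset.disjoint_of_subset_left (hS.trans ((hA2 i).1.trans (hA1 i).1))
      (Finset.disjoint_of_subset_right (hT.trans ((hA2 j).1.trans (hA1 j).1)) (hdisj i j hij))
  | odd jj =>
    exact ⟨jj, fun u hu w hw => hx u (hA'1 i hu) w (hA'1 j hw)⟩

end Pool.Agent.Lib.MP_779bc2_co
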