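import Pool.Agent.Lib.MP_779bc2_co.X0Kst

/-! Row X3Typ (about 180 lines): lower bound for the lengths; almost all elements of a clique are assigned to it and are typical -/

set_option autoImplicit false

namespace Pool.Agent.Lib.MP_779bc2_co

open Finset

/-- From `ratio`: the larger one of `n, m` is at least `c N`; if `cl i` is the other colour then `c N ≤ len (!cl i) ≤ 3/2 len (cl i) + e N`. -/
theorem len_lower (p : Pm) (n m a : ℕ) (c N δ e : ℝ) (hc : 0 < c) (he : e ≤ c / 4) (hN : 0 ≤ N) (hmax : c * N ≤ max (n : ℝ) m)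
    (W : Type) [Fintype W] [DecidableEq W] (χ : W → W → Col p.s p.t) (ι : Type) [Fintype ι] (cl : ι → Bool) (Q : ι → Finset W)
    (h : Frame p n m a χ N δ e cl Q) (i : ι) : c / 2 * N ≤ len n m (cl i) := by
  have hr := h.ratio i
  have heN : e * N ≤ c / 4 * N := mul_le_mul_of_nonneg_right he hN
  have hcN : 0 ≤ c * N := by positivity
  have h0 : c * N ≤ len n m (cl i) ∨ c * N ≤ len n m (!cl i) := by
    rcases le_max_iff.mp hmax with h1 | h1
    · cases hcl : cl i
      · left; simpa [len] using h1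
      · right; simpa [len] using h1
    · cases hcl : cl i
      · right; simpa [len] using h1
      · left; simpa [len] using h1
  rcases h0 with h1 | h1
  · linarith
  · linarith

open Classical in
lemma x3_prs_sum {W : Type} [Fintype W] [DecidableEq W] (P : W → W → Prop) (A B : Finset W) :
    prs P A B = ∑ q ∈ A, ((B.filter (fun w => P q w)).card : ℝ) := by
  unfold prs
  rw [Finset.card_filter, Finset.sum_product]
  push_cast
  refine Finset.sum_congr rfl fun q _ => ?_
  rw [Finset.card_filter]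
  push_cast
  rfl

lemma x3_prs_lower {W : Type} [Fintype W] [DecidableEq W] (P : W → W → Prop)
    [∀ q, DecidablePred (fun w => P q w)] (A A' B : Finset W)
    (hA : A ⊆ A') (x : ℝ) (h0 : ∀ q ∈ A, x ≤ ((B.filter (fun w => P q w)).card : ℝ)) :
    A.card * x ≤ prs P A' B := by
  classical
  rw [x3_prs_sum]
  have h : ∀ q ∈ A, x ≤ ((@Finset.filter W (fun w => P q w)
      (fun w => Classical.propDecidable _) B).card : ℝ) := by
    intro q hq
    convert h0 q hq
  calc (A.card : ℝ) * x = ∑ q ∈ A, x := by rw [Finset.sum_const, nsmul_eq_mul]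
    _ ≤ ∑ q ∈ A, ((@Finset.filter W (fun w => P q w)
      (fun w => Classical.propDecidable _) B).card : ℝ) := Finset.sum_le_sum h
    _ ≤ ∑ q ∈ A', ((@Finset.filter W (fun w => P q w)
      (fun w => Classical.propDecidable _) B).card : ℝ) :=
      Finset.sum_le_sum_of_subset_of_nonneg hA fun _ _ _ => by positivity

open Classical in
lemma x3_prs_or {W : Type} [Fintype W] [DecidableEq W] {s : ℕ} (P : W → W → Prop)
    (R : Fin s → W → W → Prop) (A B : Finset W) :
    prs (fun u w => P u w ∨ ∃ k, R k u w) A B ≤ prs P A B + ∑ k, prs (R k) univ univ := by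
  unfold prs
  rw [← Nat.cast_sum, ← Nat.cast_add]
  refine Nat.cast_le.mpr ?_
  beta_reduce
  have h1 : (A ×ˢ B).filter (fun q => P q.1 q.2 ∨ ∃ k, R k q.1 q.2)
      ⊆ (A ×ˢ B).filter (fun q => P q.1 q.2)
        ∪ (univ : Finset (Fin s)).biUnion
          (fun k => ((univ : Finset W) ×ˢ (univ : Finset W)).filter (fun q => R k q.1 q.2)) := by
    intro q hq
    rw [Finset.mem_filter] at hq
    rw [Finset.mem_union]
    rcases hq.2 with h | ⟨k, h⟩
    · exact Or.inl (Finset.mem_filter.mpr ⟨hq.1, h⟩)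
    · refine Or.inr (Finset.mem_biUnion.mpr ⟨k, Finset.mem_univ _, Finset.mem_filter.mpr ⟨?_, h⟩⟩)
      simp
  have h2 := (Finset.card_le_card h1).trans ((Finset.card_union_le _ _).trans
    (Nat.add_le_add_left Finset.card_biUnion_le _))
  refine le_trans (le_of_eq ?_) h2
  congr

open Classical in
/-- the colours which are not forbidden for `q` in the clique `Q` of colour `long κ` -/
lemma x3_cover (p : Pm) (n m : ℕ) {W : Type} [Fintype W] [DecidableEq W] (χ : W → W → Col p.s p.t)
    (κ : Bool) (Q : Finset W) (q : W) (N δ : ℝ) (hδN : 0 ≤ δ * N)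
    (h : Asg p n m χ N δ κ Q q) :
    (Q.card : ℝ) ≤ ((Q.filter (fun w => (χ q w = .long κ ∨
      (Even (len n m (!κ)) ∧ χ q w = .long (!κ))) ∨ ∃ k, χ q w = .bip k)).card : ℝ)
      + ((p.t : ℝ) + 1) * (δ * N) := by
  have h1 : Q ⊆ (Q.filter (fun w => (χ q w = .long κ ∨
      (Even (len n m (!κ)) ∧ χ q w = .long (!κ))) ∨ ∃ k, χ q w = .bip k))
      ∪ ((univ : Finset (Fin p.t)).biUnion (fun j => Q.filter (fun w => χ q w = .odd j))
      ∪ (if Odd (len n m (!κ)) then Q.filter (fun w => χ q w = .long (!κ)) else ∅)) := by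
    intro w hw
    simp only [Finset.mem_union, Finset.mem_filter, Finset.mem_biUnion, Finset.mem_univ, true_and]
    cases hc : χ q w with
    | long i =>
      rcases Bool.eq_or_eq_not i κ with h2 | h2
      · left
        exact ⟨hw, Or.inl (Or.inl (by rw [h2]))⟩
      · rcases Nat.even_or_odd (len n m (!κ)) with h3 | h3
        · left
          exact ⟨hw, Or.inl (Or.inr ⟨h3, by rw [h2]⟩)⟩
        · right; right
          rw [if_pos h3, Finset.mem_filter]
          exact ⟨hw, by rw [hc, h2]⟩
    | bip k => left; exact ⟨hw, Or.inr ⟨k, rfl⟩⟩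
    | odd j => right; left; exact ⟨j, hw, rfl⟩
  have h2 := Finset.card_le_card h1
  have h3 := h2.trans ((Finset.card_union_le _ _).trans
    (Nat.add_le_add_left (Finset.card_union_le _ _) _))
  have h4 : ((((univ : Finset (Fin p.t)).biUnion
      (fun j => Q.filter (fun w => χ q w = .odd j))).card : ℕ) : ℝ) ≤ p.t * (δ * N) := by
    have h5 : (((univ : Finset (Fin p.t)).biUnion
      (fun j => Q.filter (fun w => χ q w = .odd j))).card : ℝ)
        ≤ ∑ j : Fin p.t, ((Q.filter (fun w => χ q w = .odd j)).card : ℝ) := by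
      exact_mod_cast Finset.card_biUnion_le
    refine h5.trans ((Finset.sum_le_sum fun j _ => (h.1 j).le).trans ?_)
    simp
  have h5 : (((if Odd (len n m (!κ)) then Q.filter (fun w => χ q w = .long (!κ))
      else ∅ : Finset W).card : ℕ) : ℝ) ≤ δ * N := by
    split_ifs with h6
    · exact (h.2 h6).le
    · simpa using hδN
  have h6 : (Q.card : ℝ) ≤ ((Q.filter (fun w => (χ q w = .long κ ∨
      (Even (len n m (!κ)) ∧ χ q w = .long (!κ))) ∨ ∃ k, χ q w = .bip k)).card : ℝ)
      + ((((univ : Finset (Fin p.t)).biUnion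
      (fun j => Q.filter (fun w => χ q w = .odd j))).card : ℝ)
      + ((if Odd (len n m (!κ)) then Q.filter (fun w => χ q w = .long (!κ))
      else ∅ : Finset W).card : ℝ)) := by
    exact_mod_cast h3
  linarith

open Classical in
lemma x3_cover2 (p : Pm) (n m : ℕ) {W : Type} [Fintype W] [DecidableEq W]
    (χ : W → W → Col p.s p.t)
    (κ : Bool) (Q : Finset W) (q : W) (N δ : ℝ)
    (h : Asg p n m χ N δ κ Q q) :
    ((Q.filter (fun w => χ q w ≠ .long κ)).card : ℝ)
      ≤ ((Q.filter (fun w => χ q w = .long (!κ) ∨ ∃ k, χ q w = .bip k)).card : ℝ)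
      + (p.t : ℝ) * (δ * N) := by
  have h1 : (Q.filter (fun w => χ q w ≠ .long κ))
      ⊆ (Q.filter (fun w => χ q w = .long (!κ) ∨ ∃ k, χ q w = .bip k))
      ∪ (univ : Finset (Fin p.t)).biUnion (fun j => Q.filter (fun w => χ q w = .odd j)) := by
    intro w hw
    rw [Finset.mem_filter] at hw
    simp only [Finset.mem_union, Finset.mem_filter, Finset.mem_biUnion, Finset.mem_univ, true_and]
    cases hc : χ q w with
    | long i =>
      rcases Bool.eq_or_eq_not i κ with h2 | h2
      · exact absurd (by rw [hc, h2]) hw.2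
      · left
        exact ⟨hw.1, Or.inl (by rw [h2])⟩
    | bip k => left; exact ⟨hw.1, Or.inr ⟨k, rfl⟩⟩
    | odd j => right; exact ⟨j, hw.1, rfl⟩
  have h3 := (Finset.card_le_card h1).trans (Finset.card_union_le _ _)
  have h4 : ((((univ : Finset (Fin p.t)).biUnion
      (fun j => Q.filter (fun w => χ q w = .odd j))).card : ℕ) : ℝ) ≤ p.t * (δ * N) := by
    have h5 : (((univ : Finset (Fin p.t)).biUnion
      (fun j => Q.filter (fun w => χ q w = .odd j))).card : ℝ)
        ≤ ∑ j : Fin p.t, ((Q.filter (fun w => χ q w = .odd j)).card : ℝ) := by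
      exact_mod_cast Finset.card_biUnion_le
    refine h5.trans ((Finset.sum_le_sum fun j _ => (h.1 j).le).trans ?_)
    simp
  have h6 : ((Q.filter (fun w => χ q w ≠ .long κ)).card : ℝ)
      ≤ ((Q.filter (fun w => χ q w = .long (!κ) ∨ ∃ k, χ q w = .bip k)).card : ℝ)
      + (((univ : Finset (Fin p.t)).biUnion
      (fun j => Q.filter (fun w => χ q w = .odd j))).card : ℝ) := by
    exact_mod_cast h3
  linarith

open Classical in
/-- Let `f` be an assignment. (1) If `q ∈ Q i` is assigned to `j ≠ i` then at most `(t+1) δ N` pairs `(q,w)`, `w ∈ Q j`, have a colour forbidden for `j`, so at least `|Q j| - (t+1)δN ≥ (c/4) N` pairs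
have the colour `long (cl j)`, or `long (!cl j)` (if `len (!cl j)` is even) or a colour `bip k`; by `Frame.own` and `bip_sparse` there are at most `(e + s e') N² ≤ (c/4) (e3/(4 #ι)) N²` such pairs for all `q` together
(note `#ι ≤ 2 a` by `Frame.count`).
(2) `q ∈ Q i` assigned to `i`: the pairs `(q,w)`, `w ∈ Q i`, with a colour `odd j` are at most `t δ N`; the pairs with colour `long (!cl i)` or `bip k` are few in total (`Frame.inner`, `bip_sparse`), so for all but
`(e3/2) N` elements `q` at most `(e3/2) N`. Hence `q` is in `Typ (tδ + e3) N`. -/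
theorem typical (p : Pm) (a : ℕ) (ha1 : 1 ≤ a) (c δ e3 : ℝ) (hc : 0 < c) (hδ : 0 < δ) (he3 : 0 < e3) (hδc : ((p.t : ℝ) + 1) * δ ≤ c / 8) :
    ∃ e > (0 : ℝ), ∃ n1 : ℕ, ∀ (W : Type) [Fintype W] [DecidableEq W], n1 ≤ Fintype.card W → ∀ (n m : ℕ),
      c * Fintype.card W ≤ max (n : ℝ) m → ∀ (χ : W → W → Col p.s p.t), Free p n m χ →
      ∀ (ι : Type) [Fintype ι] (cl : ι → Bool) (Q : ι → Finset W), Frame p n m a χ (Fintype.card W) δ e cl Q →
      ∀ f : W → ι, (∀ v, Asg p n m χ (Fintype.card W) δ (cl (f v)) (Q (f v)) v) → ∀ i,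
        (((Q i) \ ((Typ p χ ((p.t * δ + e3) * Fintype.card W) (cl i) (Q i)).filter (fun q => f q = i))).card : ℝ)
          ≤ e3 * Fintype.card W := by
  have ha0 : (0 : ℝ) < a := by exact_mod_cast ha1
  set η : ℝ := min (c / 8) (min (e3 * c / (32 * a)) (e3 ^ 2 / 2)) / 2 with hη
  have hη0 : 0 < η := by positivity
  have hη1 : 2 * η ≤ c / 8 := by
    rw [hη]; linarith [min_le_left (c / 8) (min (e3 * c / (32 * a)) (e3 ^ 2 / 2))]
  have hη2 : 2 * η ≤ e3 * c / (32 * a) := by
    rw [hη]
    linarith [(min_le_right (c / 8) (min (e3 * c / (32 * a)) (e3 ^ 2 / 2))).trans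
      (min_le_left _ _)]
  have hη3 : 2 * η ≤ e3 ^ 2 / 2 := by
    rw [hη]
    linarith [(min_le_right (c / 8) (min (e3 * c / (32 * a)) (e3 ^ 2 / 2))).trans
      (min_le_right _ _)]
  obtain ⟨n1, hn1⟩ := bip_sparse p (η / (p.s + 1)) (by positivity)
  refine ⟨η, hη0, max n1 1, ?_⟩
  intro W _ _ hW n m hmax χ hfree ι _ cl Q hF f hf i
  set N : ℝ := (Fintype.card W : ℝ) with hN
  have hN1 : (1 : ℝ) ≤ N := by
    rw [hN]; exact_mod_cast (le_max_right n1 1).trans hW
  have hN0 : 0 < N := by linarith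
  have hbip := hn1 W ((le_max_left n1 1).trans hW) n m χ hfree
  have hbs : ∑ k : Fin p.s, prs (fun u w => χ u w = .bip k) univ univ ≤ η * N ^ 2 := by
    refine (Finset.sum_le_sum fun k _ => hbip k).trans ?_
    rw [Finset.sum_const, Finset.card_univ, Fintype.card_fin, nsmul_eq_mul]
    have h1 : (p.s : ℝ) * (η / (p.s + 1) * N ^ 2) = (p.s / (p.s + 1)) * (η * N ^ 2) := by
      field_simp
    rw [h1]
    have h2 : (p.s : ℝ) / (p.s + 1) ≤ 1 := by
      rw [div_le_one (by positivity)]
      linarith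
    exact mul_le_of_le_one_left (by positivity) h2
  have hι : (Fintype.card ι : ℝ) ≤ 2 * a := by
    have h1 := hF.count
    have h2 : (univ.filter (fun i => Even (len n m (!cl i)))).card
        + (univ.filter (fun i => Odd (len n m (!cl i)))).card = Fintype.card ι := by
      have h3 := Finset.card_filter_add_card_filter_not (s := (univ : Finset ι))
        (fun i => Even (len n m (!cl i)))
      simp only [Nat.not_even_iff_odd] at h3
      rw [h3, Finset.card_univ]
    have h3 : Fintype.card ι ≤ 2 * a := by omega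
    exact_mod_cast h3
  -- part 1
  have hA1 : ∀ j, j ≠ i → (((Q i).filter (fun q => f q = j)).card : ℝ) ≤ e3 / (8 * a) * N := by
    intro j hj
    have hlen := len_lower p n m a c N δ η hc (by linarith) hN0.le hmax W χ ι cl Q hF j
    have hsize := hF.size j
    have h1 : ∀ q ∈ (Q i).filter (fun q => f q = j), c / 4 * N ≤
        (((Q j).filter (fun w => (χ q w = .long (cl j) ∨
          (Even (len n m (!cl j)) ∧ χ q w = .long (!cl j))) ∨ ∃ k, χ q w = .bip k)).card : ℝ) := by
      intro q hq
      rw [Finset.mem_filter] at hq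
      have h2 := hf q
      rw [hq.2] at h2
      have h3 := x3_cover p n m χ (cl j) (Q j) q N δ (by positivity) h2
      have h4 : ((p.t : ℝ) + 1) * (δ * N) ≤ c / 8 * N := by
        rw [← mul_assoc]
        exact mul_le_mul_of_nonneg_right hδc hN0.le
      have h5 : η * N ≤ c / 8 * N := mul_le_mul_of_nonneg_right (by linarith) hN0.le
      linarith
    have h2 := x3_prs_lower (fun q w => (χ q w = .long (cl j) ∨
          (Even (len n m (!cl j)) ∧ χ q w = .long (!cl j))) ∨ ∃ k, χ q w = .bip k)
          ((Q i).filter (fun q => f q = j)) (Q i) (Q j) (Finset.filter_subset _ _) (c / 4 * N) h1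
    have h3 := x3_prs_or (fun u w => χ u w = .long (cl j) ∨
      (Even (len n m (!cl j)) ∧ χ u w = .long (!cl j))) (fun k u w => χ u w = .bip k) (Q i) (Q j)
    have h4 := hF.own i j (Ne.symm hj)
    have h5 : (((Q i).filter (fun q => f q = j)).card : ℝ) * (c / 4 * N) ≤ 2 * η * N ^ 2 := by
      linarith
    have h6 : 2 * η * N ^ 2 ≤ e3 * c / (32 * a) * N ^ 2 :=
      mul_le_mul_of_nonneg_right hη2 (by positivity)
    have h7 : e3 * c / (32 * a) * N ^ 2 = (e3 / (8 * a) * N) * (c / 4 * N) := by
      field_simp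
      ring
    have h8 : (((Q i).filter (fun q => f q = j)).card : ℝ) * (c / 4 * N)
        ≤ (e3 / (8 * a) * N) * (c / 4 * N) := by
      rw [← h7]; exact h5.trans h6
    exact le_of_mul_le_mul_right h8 (by positivity)
  -- part 2
  have hA2 : (((Q i).filter (fun q => f q = i ∧
      ¬ ((((Q i).filter (fun w => χ q w ≠ .long (cl i))).card : ℝ) ≤ (p.t * δ + e3) * N))).card : ℝ)
      ≤ e3 / 2 * N := by
    have h1 : ∀ q ∈ (Q i).filter (fun q => f q = i ∧
      ¬ ((((Q i).filter (fun w => χ q w ≠ .long (cl i))).card : ℝ) ≤ (p.t * δ + e3) * N)),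
        e3 * N ≤ (((Q i).filter (fun w => χ q w = .long (!cl i) ∨ ∃ k, χ q w = .bip k)).card : ℝ) := by
      intro q hq
      rw [Finset.mem_filter] at hq
      have h2 := hf q
      rw [hq.2.1] at h2
      have h3 := x3_cover2 p n m χ (cl i) (Q i) q N δ h2
      have h4 := not_le.mp hq.2.2
      have h5 : ((p.t : ℝ) * δ + e3) * N = (p.t : ℝ) * (δ * N) + e3 * N := by ring
      rw [h5] at h4
      linarith
    have h2 := x3_prs_lower (fun q w => χ q w = .long (!cl i) ∨ ∃ k, χ q w = .bip k)
      ((Q i).filter (fun q => f q = i ∧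
      ¬ ((((Q i).filter (fun w => χ q w ≠ .long (cl i))).card : ℝ) ≤ (p.t * δ + e3) * N)))
      (Q i) (Q i) (Finset.filter_subset _ _) (e3 * N) h1
    have h3 := x3_prs_or (fun u w => χ u w = .long (!cl i)) (fun k u w => χ u w = .bip k)
      (Q i) (Q i)
    have h4 := hF.inner i
    set A := (((Q i).filter (fun q => f q = i ∧
      ¬ ((((Q i).filter (fun w => χ q w ≠ .long (cl i))).card : ℝ) ≤ (p.t * δ + e3) * N))).card : ℝ)
    have h5 : A * (e3 * N) ≤ 2 * η * N ^ 2 := by linarith
    have h6 : 2 * η * N ^ 2 ≤ e3 ^ 2 / 2 * N ^ 2 :=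
      mul_le_mul_of_nonneg_right hη3 (by positivity)
    have h7 : e3 ^ 2 / 2 * N ^ 2 = (e3 / 2 * N) * (e3 * N) := by ring
    exact le_of_mul_le_mul_right (by rw [← h7]; exact h5.trans h6) (by positivity)
  -- conclusion
  have hsub : (Q i) \ ((Typ p χ ((p.t * δ + e3) * N) (cl i) (Q i)).filter (fun q => f q = i))
      ⊆ ((univ : Finset ι).filter (fun j => j ≠ i)).biUnion
          (fun j => (Q i).filter (fun q => f q = j))
        ∪ (Q i).filter (fun q => f q = i ∧
      ¬ ((((Q i).filter (fun w => χ q w ≠ .long (cl i))).card : ℝ) ≤ (p.t * δ + e3) * N)) := by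
    intro q hq
    rw [Finset.mem_sdiff, Finset.mem_filter] at hq
    rw [Finset.mem_union]
    by_cases hfi : f q = i
    · right
      rw [Finset.mem_filter]
      refine ⟨hq.1, hfi, fun h1 => hq.2 ⟨?_, hfi⟩⟩
      unfold Typ
      rw [Finset.mem_filter]
      exact ⟨hq.1, h1⟩
    · left
      rw [Finset.mem_biUnion]
      exact ⟨f q, Finset.mem_filter.mpr ⟨Finset.mem_univ _, hfi⟩,
        Finset.mem_filter.mpr ⟨hq.1, rfl⟩⟩
  have h1 := (Finset.card_le_card hsub).trans (Finset.card_union_le _ _)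
  have h2 : ((((univ : Finset ι).filter (fun j => j ≠ i)).biUnion
          (fun j => (Q i).filter (fun q => f q = j))).card : ℝ) ≤ e3 / 4 * N := by
    have h3 : ((((univ : Finset ι).filter (fun j => j ≠ i)).biUnion
          (fun j => (Q i).filter (fun q => f q = j))).card : ℝ)
        ≤ ∑ j ∈ (univ : Finset ι).filter (fun j => j ≠ i),
          (((Q i).filter (fun q => f q = j)).card : ℝ) := by
      exact_mod_cast Finset.card_biUnion_le
    have h4 : ∑ j ∈ (univ : Finset ι).filter (fun j => j ≠ i),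
          (((Q i).filter (fun q => f q = j)).card : ℝ)
        ≤ ∑ j ∈ (univ : Finset ι).filter (fun j => j ≠ i), e3 / (8 * a) * N :=
      Finset.sum_le_sum fun j hj => hA1 j (Finset.mem_filter.mp hj).2
    have h5 : ∑ j ∈ (univ : Finset ι).filter (fun j => j ≠ i), e3 / (8 * a) * N
        ≤ (Fintype.card ι : ℝ) * (e3 / (8 * a) * N) := by
      rw [Finset.sum_const, nsmul_eq_mul]
      gcongr
      exact_mod_cast (Finset.card_filter_le _ _).trans (le_of_eq Finset.card_univ)
    have h6 : (Fintype.card ι : ℝ) * (e3 / (8 * a) * N) ≤ 2 * a * (e3 / (8 * a) * N) := by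
      gcongr
    have h7 : 2 * a * (e3 / (8 * a) * N) = e3 / 4 * N := by
      field_simp
      ring
    linarith
  have h3 : (((Q i) \ ((Typ p χ ((p.t * δ + e3) * N) (cl i) (Q i)).filter
      (fun q => f q = i))).card : ℝ) ≤
      ((((univ : Finset ι).filter (fun j => j ≠ i)).biUnion
          (fun j => (Q i).filter (fun q => f q = j))).card : ℝ)
      + (((Q i).filter (fun q => f q = i ∧
      ¬ ((((Q i).filter (fun w => χ q w ≠ .long (cl i))).card : ℝ) ≤ (p.t * δ + e3) * N))).card
        : ℝ) := by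
    exact_mod_cast h1
  have h4 : 0 < e3 * N := by positivity
  linarith

end Pool.Agent.Lib.MP_779bc2_co
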