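import Pool.Agent.Lib.MP_779bc2_co.Defs

/-! Row X4Ins (about 110 lines): insertion of a vertex into a cycle -/

set_option autoImplicit false

namespace Pool.Agent.Lib.MP_779bc2_co

open Finset

/-- a list in which no two consecutive elements satisfy `P` has few elements satisfying `P` -/
theorem x4i_length {W : Type} (P : W → Prop) [DecidablePred P] :
    ∀ s : List W, (∀ s1 x y s2, s = s1 ++ x :: y :: s2 → ¬ (P x ∧ P y)) →
      s.length ≤ 2 * (s.filter (fun u => ¬ P u)).length + 1
  | [], _ => by simp
  | [a], _ => by simp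
  | a :: b :: t, h => by
    have ht := x4i_length P t (fun s1 x y s2 he => h (a :: b :: s1) x y s2 (by rw [he]; rfl))
    have hab := h [] a b t rfl
    by_cases ha : P a
    · have hb : ¬ P b := fun hb => hab ⟨ha, hb⟩
      simp only [List.filter_cons, ha, hb, not_true_eq_false, not_false_eq_true, decide_true,
        decide_false, if_true, List.length_cons, Bool.false_eq_true, if_false] at ht ⊢
      omega
    · by_cases hb : P b
      · simp only [List.filter_cons, ha, hb, not_true_eq_false, not_false_eq_true, decide_true,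
          decide_false, if_true, List.length_cons, Bool.false_eq_true, if_false] at ht ⊢
        omega
      · simp only [List.filter_cons, ha, hb, not_true_eq_false, not_false_eq_true, decide_true,
          decide_false, if_true, List.length_cons, Bool.false_eq_true, if_false] at ht ⊢
        omega

open Classical in
/-- Insertion. Suppose `s ++ r` is a cycle (`IsCyc`), all elements of `s` lie in `H`, `s` has at least `2κ+2` elements, and `w ∈ H` is not in the list and has at most `κ` non-neighbours in `H`.
Then `w` can be inserted into `s`: among the `κ+1` disjoint consecutive pairs of `s` there is one with both elements adjacent to `w`. -/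
theorem ham_insert {W : Type} [DecidableEq W] (G : W → W → Prop) (hG : ∀ u w, G u w → G w u) (H : Finset W) (κ : ℕ)
    (s r : List W) (hcyc : IsCyc G (s ++ r)) (hsH : ∀ u ∈ s, u ∈ H) (hlen : 2 * κ + 2 ≤ s.length) (w : W) (hw : w ∉ s ++ r)
    (hκ : (H.filter (fun u => ¬ G w u)).card ≤ κ) :
    ∃ s' : List W, IsCyc G (s' ++ r) ∧ s'.length = s.length + 1 ∧ (∀ u, u ∈ s' ↔ u ∈ s ∨ u = w) := by
  classical
  have hex : ∃ s1 x y s2, s = s1 ++ x :: y :: s2 ∧ G w x ∧ G w y := by
    by_contra hno
    have h1 := x4i_length (fun u => G w u) s (fun s1 x y s2 he hxy => hno ⟨s1, x, y, s2, he, hxy⟩)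
    have hnd : (s.filter (fun u => ¬ G w u)).Nodup := (List.Nodup.of_append_left hcyc.1).filter _
    have h2 : (s.filter (fun u => ¬ G w u)).length ≤ (H.filter (fun u => ¬ G w u)).card := by
      rw [← List.toFinset_card_of_nodup hnd]
      refine Finset.card_le_card ?_
      intro u hu
      rw [List.mem_toFinset, List.mem_filter] at hu
      rw [Finset.mem_filter]
      exact ⟨hsH u hu.1, by simpa using hu.2⟩
    omega
  obtain ⟨s1, x, y, s2, hs, hx, hy⟩ := hex
  subst hs
  obtain ⟨hnd, hch, hends⟩ := hcyc
  have e1 : (s1 ++ x :: y :: s2) ++ r = s1 ++ (x :: y :: (s2 ++ r)) := by simp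
  have e2 : (s1 ++ x :: w :: y :: s2) ++ r = s1 ++ (x :: w :: y :: (s2 ++ r)) := by simp
  have e3 : (s1 ++ x :: y :: s2) ++ r = (s1 ++ [x]) ++ (y :: (s2 ++ r)) := by simp
  have e4 : (s1 ++ x :: w :: y :: s2) ++ r = (s1 ++ [x]) ++ (w :: y :: (s2 ++ r)) := by simp
  refine ⟨s1 ++ x :: w :: y :: s2, ⟨?_, ?_, ?_⟩, ?_, ?_⟩
  · rw [e4]
    refine (List.perm_middle.nodup_iff).2 (List.nodup_cons.2 ⟨?_, ?_⟩)
    · rw [← e3]; exact hw
    · rw [← e3]; exact hnd
  · rw [e2]
    rw [e1] at hch
    rw [List.isChain_append] at hch ⊢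
    obtain ⟨h1, h2, h3⟩ := hch
    rw [List.isChain_cons_cons] at h2
    refine ⟨h1, ?_, ?_⟩
    · rw [List.isChain_cons_cons, List.isChain_cons_cons]
      exact ⟨hG _ _ hx, hy, h2.2⟩
    · simpa using h3
  · intro a b ha hb
    apply hends a b
    · rw [e1]
      rw [e2] at ha
      cases s1 with
      | nil => simpa using ha
      | cons c s1 => simpa using ha
    · rw [e3, List.getLast?_append_of_ne_nil _ (by simp)]
      rw [e4, List.getLast?_append_of_ne_nil _ (by simp)] at hb
      rw [← hb]
      rw [List.getLast?_cons_cons]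
  · simp
    omega
  · intro u
    simp only [List.mem_append, List.mem_cons]
    tauto

end Pool.Agent.Lib.MP_779bc2_co
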