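import Pool.Agent.Lib.MP_779bc2_co.X3Typ

/-! constants and classes of part III -/

set_option autoImplicit false

namespace Pool.Agent.Lib.MP_779bc2_co

open Finset

noncomputable def k3 (p : Pm) (c : ℝ) : ℝ := c / (200 * (p.ell + 2))
noncomputable def k2 (p : Pm) (c : ℝ) : ℝ := k3 p c / 8
noncomputable def kB (p : Pm) (c : ℝ) : ℝ := k3 p c / (8 * (p.s + 1))
noncomputable def k1 (p : Pm) (c : ℝ) : ℝ := k3 p c / (8 * (p.t + 1))
noncomputable def kT (p : Pm) (c : ℝ) : ℝ := k3 p c / 160

theorem k3_pos (p : Pm) {c : ℝ} (hc : 0 < c) : 0 < k3 p c := by unfold k3; positivity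
theorem k2_pos (p : Pm) {c : ℝ} (hc : 0 < c) : 0 < k2 p c := by have := k3_pos p hc; unfold k2; positivity
theorem kB_pos (p : Pm) {c : ℝ} (hc : 0 < c) : 0 < kB p c := by have := k3_pos p hc; unfold kB; positivity
theorem k1_pos (p : Pm) {c : ℝ} (hc : 0 < c) : 0 < k1 p c := by have := k3_pos p hc; unfold k1; positivity
theorem kT_pos (p : Pm) {c : ℝ} (hc : 0 < c) : 0 < kT p c := by have := k3_pos p hc; unfold kT; positivity

variable {W : Type} [Fintype W] [DecidableEq W]

open Classical in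
/-- number of edges of colour `x` from `v` to `Q` -/
noncomputable def dg {p : Pm} (χ : W → W → Col p.s p.t) (x : Col p.s p.t) (v : W) (Q : Finset W) : ℝ :=
  ((Q.filter (fun w => χ v w = x)).card : ℝ)

open Classical in
noncomputable def clA (p : Pm) (c : ℝ) (χ : W → W → Col p.s p.t) {ι : Type} (cl : ι → Bool) (Q : ι → Finset W) (f : W → ι) (i : ι) : Finset W :=
  univ.filter (fun v => f v = i ∧ k2 p c * Fintype.card W ≤ dg χ (.long (cl i)) v (Q i))

open Classical in
noncomputable def clB (p : Pm) (c : ℝ) (χ : W → W → Col p.s p.t) {ι : Type} (cl : ι → Bool) (Q : ι → Finset W) (f : W → ι) (i : ι) : Finset W :=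
  univ.filter (fun v => f v = i ∧ dg χ (.long (cl i)) v (Q i) < k2 p c * Fintype.card W ∧
    k3 p c * Fintype.card W ≤ dg χ (.long (!cl i)) v (Q i))

open Classical in
noncomputable def clC (p : Pm) (c : ℝ) (χ : W → W → Col p.s p.t) {ι : Type} (cl : ι → Bool) (Q : ι → Finset W) (f : W → ι) (i : ι) : Finset W :=
  univ.filter (fun v => f v = i ∧ dg χ (.long (cl i)) v (Q i) < k2 p c * Fintype.card W ∧
    dg χ (.long (!cl i)) v (Q i) < k3 p c * Fintype.card W)

/-- the capacity of a clique -/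
def cap (p : Pm) (n m : ℕ) (κ : Bool) : ℕ :=
  (len n m κ - 1) + p.ell + (if Even (len n m (!κ)) then len n m (!κ) / 2 - 1 else 0)

end Pool.Agent.Lib.MP_779bc2_co
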